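import Pool.Agent.Lib.MP_ae5b4e_an_T.T4Gz

/-!
# POR (iii), N2, T4: the path of the D-side states at a tip
-/

noncomputable section

namespace Pool.Agent.MP_ae5b4e_an_T

open Complex Set Filter Topology Metric MeasureTheory
open Pool.Agent.MP_ae5b4e_an_WB
open Pool.Agent.MP_ae5b4e_an_WD
open Pool.Agent.MP_ae5b4e_an_M (S1 C1f Gf)

/-- a sign `σ` with `(σ y).im = |y.im|` along a path with `|y.im| → ∞` -/
private theorem TipP_sign {y : ℝ → ℂ} {s0 : ℝ} (hs0 : 0 < s0) (hc : ContinuousOn y (Ioc 0 s0))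
    (him : Tendsto (fun s => |(y s).im|) (𝓝[>] 0) atTop) :
    ∃ (σ : ℂ) (s1 : ℝ), (σ = 1 ∨ σ = -1) ∧ 0 < s1 ∧ s1 ≤ s0 ∧
      ∀ s ∈ Ioc 0 s1, (σ * y s).im = |(y s).im| ∧ 0 < |(y s).im| := by
  have hpos : ∀ᶠ s in 𝓝[>] (0 : ℝ), 1 < |(y s).im| := him.eventually (Ioi_mem_atTop 1)
  obtain ⟨s1, hs1, hb⟩ := (mem_nhdsGT_iff_exists_Ioc_subset).1
    (Filter.inter_mem hpos (Ioc_mem_nhdsGT hs0))
  have hs1' : (0 : ℝ) < s1 := hs1
  have hy1 : ∀ s ∈ Ioc 0 s1, 1 < |(y s).im| := fun s hs => (hb hs).1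
  have hcy : ContinuousOn y (Ioc 0 s1) := hc.mono fun s hs => (hb hs).2
  have hsub : ∀ s ∈ Ioc 0 s1, uIcc s s1 ⊆ Ioc 0 s1 := by
    intro s hs
    rw [uIcc_of_le hs.2]
    exact fun x hx => ⟨hs.1.trans_le hx.1, hx.2⟩
  have hcim : ContinuousOn (fun s => (y s).im) (Ioc 0 s1) :=
    Complex.continuous_im.comp_continuousOn hcy
  have hm1 : s1 ∈ Ioc 0 s1 := ⟨hs1', le_rfl⟩
  have hle : s1 ≤ s0 := (hb hm1).2.2
  rcases lt_or_ge 0 (y s1).im with hp | hp
  · refine ⟨1, s1, Or.inl rfl, hs1', hle, fun s hs => ?_⟩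
    have hpos : 0 < (y s).im := by
      by_contra hn
      rw [not_lt] at hn
      have h3 : (0 : ℝ) ∈ uIcc (y s).im (y s1).im := by
        rw [uIcc_of_le (hn.trans hp.le)]; exact ⟨hn, hp.le⟩
      obtain ⟨x, hx, hx0⟩ := intermediate_value_uIcc (hcim.mono (hsub s hs)) h3
      have := hy1 x (hsub s hs hx)
      simp only at hx0
      rw [hx0, abs_zero] at this
      linarith
    rw [one_mul, abs_of_pos hpos]
    exact ⟨rfl, hpos⟩
  · refine ⟨-1, s1, Or.inr rfl, hs1', hle, fun s hs => ?_⟩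
    have hneg : (y s).im < 0 := by
      by_contra hn
      rw [not_lt] at hn
      have h3 : (0 : ℝ) ∈ uIcc (y s).im (y s1).im := by
        rw [uIcc_of_ge (hp.trans hn)]; exact ⟨hp, hn⟩
      obtain ⟨x, hx, hx0⟩ := intermediate_value_uIcc (hcim.mono (hsub s hs)) h3
      have := hy1 x (hsub s hs hx)
      simp only at hx0
      rw [hx0, abs_zero] at this
      linarith
    rw [neg_one_mul, neg_im, abs_of_neg hneg]
    exact ⟨rfl, neg_pos.2 hneg⟩

/-- the D-side states at a tip, with the square root of `q` -/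
private theorem TipP_states {q : ℂ → ℂ} {C : ℝ} {vi : ℂ → ℝ} {L : ℂ × ℂ → ℂ} (h : Lb q C vi L)
    {γ : ℝ} (hγ : 0 < γ) {x : ℝ} {l : ℂ} (hl : l.im < 0)
    (hT : TAt q γ (vi γ) (fun τ => L (τ, γ)) x l) :
    ∃ (s1 : ℝ) (r a : ℝ → ℂ), 0 < s1 ∧
      (∀ s, a s = γ * dt L ((x : ℂ) - vi γ * I - I * s, γ)) ∧
      ContinuousOn r (Ioc 0 s1) ∧ ContinuousOn a (Ioc 0 s1) ∧
      (∀ s ∈ Ioc (0 : ℝ) s1, r s ≠ 0 ∧ r s ^ 2 = q (L ((x : ℂ) - vi γ * I - I * s, γ)) ∧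
        sin (r s * a s) ≠ 0 ∧ G (r s * a s) = r s * γ) ∧
      Tendsto (fun s => r s * γ) (𝓝[>] 0) (𝓝 W0) ∧
      Tendsto (fun s => ‖r s * a s‖) (𝓝[>] 0) atTop := by
  have hγ0 : (γ : ℂ) ≠ 0 := by exact_mod_cast hγ.ne'
  set ζ : ℂ := (x : ℂ) - vi γ * I with hζ
  have hHp : ∀ s : ℝ, 0 < s → ζ - I * s ∈ Hp (vi γ) := by
    intro s hs
    change (ζ - I * s).im < -vi γ
    rw [hζ]
    simp
    exact hs
  have hmem : ∀ s : ℝ, 0 < s → (ζ - I * s, (γ : ℂ)) ∈ Dv vi := fun s hs =>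
    Lb.mem hγ (hHp s hs)
  have hPc : Continuous (fun s : ℝ => (ζ - I * s, (γ : ℂ))) := by fun_prop
  have hFc : ContinuousOn (fun s : ℝ => L (ζ - I * s, γ)) (Ioi 0) :=
    h.ds.an.continuousOn.comp hPc.continuousOn fun s hs => hmem s hs
  have hac : ContinuousOn (fun s : ℝ => γ * dt L (ζ - I * s, γ)) (Ioi 0) :=
    continuousOn_const.mul (h.ds.an_dt.continuousOn.comp hPc.continuousOn fun s hs => hmem s hs)
  have hpt : ∀ s : ℝ, (x : ℂ) - (vi γ + s : ℝ) * I = ζ - I * s := by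
    intro s
    rw [hζ]
    push_cast
    ring
  have hFl : Tendsto (fun s : ℝ => L (ζ - I * s, γ)) (𝓝[>] 0) (𝓝 l) := by
    have h1 : Tendsto (fun s : ℝ => ζ - I * s) (𝓝[>] 0) (𝓝[Hp (vi γ)] ζ) := by
      refine tendsto_nhdsWithin_iff.2 ⟨?_, ?_⟩
      · have h2 : Tendsto (fun s : ℝ => ζ - I * s) (𝓝 0) (𝓝 (ζ - I * (0 : ℝ))) :=
          (by fun_prop : Continuous fun s : ℝ => ζ - I * s).tendsto 0
        rw [ofReal_zero, mul_zero, sub_zero] at h2
        exact h2.mono_left nhdsWithin_le_nhds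
      · filter_upwards [self_mem_nhdsWithin] with s hs
        exact hHp s hs
    exact hT.1.comp h1
  have hHm : IsOpen Hm := isOpen_lt Complex.continuous_im continuous_const
  have hql : ContinuousAt q l := (h.ds.qd.differentiableAt (hHm.mem_nhds hl)).continuousAt
  have hqF : Tendsto (fun s : ℝ => q (L (ζ - I * s, γ))) (𝓝[>] 0) (𝓝 (q l)) :=
    hql.tendsto.comp hFl
  have hqFc : ContinuousOn (fun s : ℝ => q (L (ζ - I * s, γ))) (Ioi 0) :=
    h.ds.qd.continuousOn.comp hFc fun s hs => h.ds.low _ (hmem s hs)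
  have hql0 : q l ≠ 0 := by
    intro h0
    have h1 := hT.2.1
    rw [h0, mul_zero, ← W0_sq] at h1
    exact pow_ne_zero 2 W0_ne h1.symm
  have hr1 : (W0 / γ) ^ 2 = q l := by
    rw [div_pow, W0_sq, ← hT.2.1]
    field_simp
  obtain ⟨Q, hQ⟩ : ∃ Q : ℝ → ℂ, ∀ s, Q s = q (L (ζ - I * s, γ)) := ⟨_, fun s => rfl⟩
  obtain ⟨a, ha⟩ : ∃ a : ℝ → ℂ, ∀ s, a s = γ * dt L (ζ - I * s, γ) := ⟨_, fun s => rfl⟩
  have hQl : Tendsto Q (𝓝[>] 0) (𝓝 (q l)) := hqF.congr fun s => (hQ s).symm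
  have hQc : ContinuousOn Q (Ioi 0) := hqFc.congr fun s _ => hQ s
  have hac' : ContinuousOn a (Ioi 0) := hac.congr fun s _ => ha s
  have hbig : Tendsto (fun s => ‖Q s * a s ^ 2‖) (𝓝[>] 0) atTop := by
    refine hT.2.2.congr fun s => ?_
    rw [hpt, hQ, ha]
    rfl
  have hrat : Tendsto (fun s : ℝ => Q s / q l) (𝓝[>] 0) (𝓝 1) := by
    have h1 := hQl.div_const (q l)
    rwa [div_self hql0] at h1
  have hslit : ∀ᶠ s : ℝ in 𝓝[>] (0 : ℝ), Q s / q l ∈ slitPlane :=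
    hrat.eventually (isOpen_slitPlane.mem_nhds Complex.one_mem_slitPlane)
  obtain ⟨s1, hs1, hb⟩ := (mem_nhdsGT_iff_exists_Ioc_subset).1 hslit
  have hs1' : (0 : ℝ) < s1 := hs1
  have hIoc : Ioc 0 s1 ⊆ Ioi (0 : ℝ) := Ioc_subset_Ioi_self
  obtain ⟨r, hr⟩ : ∃ r : ℝ → ℂ, ∀ s, r s = W0 / γ * exp (log (Q s / q l) / 2) :=
    ⟨_, fun s => rfl⟩
  have hrsq : ∀ s ∈ Ioc (0 : ℝ) s1, r s ^ 2 = Q s := by
    intro s hs
    have h1 : Q s / q l ≠ 0 := slitPlane_ne_zero (hb hs)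
    rw [hr, mul_pow, hr1, ← exp_nat_mul]
    have h2 : ((2 : ℕ) : ℂ) * (log (Q s / q l) / 2) = log (Q s / q l) := by
      push_cast
      ring
    rw [h2, exp_log h1]
    field_simp
  have hr0 : ∀ s : ℝ, r s ≠ 0 := fun s => by
    rw [hr]
    exact mul_ne_zero (div_ne_zero W0_ne hγ0) (exp_ne_zero _)
  refine ⟨s1, r, a, hs1', ha, ?_, hac'.mono hIoc, ?_, ?_, ?_⟩
  · have h1 : ContinuousOn (fun s => W0 / γ * exp (log (Q s / q l) / 2)) (Ioc 0 s1) := by
      refine continuousOn_const.mul ?_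
      have h2 : ContinuousOn (fun s => log (Q s / q l)) (Ioc 0 s1) :=
        ((hQc.mono hIoc).div_const _).clog (fun s hs => hb hs)
      exact (h2.div_const 2).cexp
    exact h1.congr fun s _ => hr s
  · intro s hs
    have h1 : S1 (q (L (ζ - I * s, γ)) * a s ^ 2) ≠ 0 := by
      rw [ha]
      exact h.ds.s1 _ (hmem s hs.1)
    have h2 : Gf q (L (ζ - I * s, γ)) (a s) = γ := by
      rw [ha]
      exact h.ds.gf _ (hmem s hs.1)
    have h3 : r s ^ 2 = q (L (ζ - I * s, γ)) := by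
      rw [hrsq s hs, hQ]
    exact ⟨hr0 s, h3, state_G hγ0 h1 h2 h3 (hr0 s)⟩
  · have h1 : Tendsto (fun s : ℝ => W0 / γ * exp (log (Q s / q l) / 2) * γ)
        (𝓝[>] 0) (𝓝 (W0 / γ * exp (log 1 / 2) * γ)) := by
      refine Tendsto.mul_const _ (Tendsto.const_mul _ ?_)
      exact (Complex.continuous_exp.tendsto _).comp
        ((hrat.clog Complex.one_mem_slitPlane).div_const 2)
    have h2 : W0 / γ * exp (log 1 / 2) * γ = W0 := by
      rw [log_one, zero_div, exp_zero, mul_one, div_mul_cancel₀ _ hγ0]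
    rw [h2] at h1
    refine h1.congr fun s => ?_
    rw [hr]
  · have h1 : Tendsto (fun s : ℝ => ‖r s * a s‖ ^ 2) (𝓝[>] 0) atTop := by
      refine hbig.congr' ?_
      filter_upwards [Ioc_mem_nhdsGT hs1'] with s hs
      rw [← norm_pow, mul_pow, hrsq s hs]
    rw [Filter.tendsto_atTop] at h1 ⊢
    intro M
    filter_upwards [h1 (M ^ 2)] with s hs
    by_contra hM
    rw [not_le] at hM
    have h3 := pow_lt_pow_left₀ hM (norm_nonneg (r s * a s)) two_ne_zero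
    exact absurd hs (not_le.2 h3)

/-- The D-side states on the vertical line below a tip.

Proof. Write `ζ = x - vi γ I`, `F s = L (ζ - I s, γ)`, `α s = γ * dt L (ζ - I s, γ)`, for `s > 0` (then
`(ζ - I s, γ) ∈ Dv vi`; `F`, `α` are continuous on `Ioi 0`: `h.ds.an`, `DS.an_dt`). `F s → l` for
`s → 0+` (`hT.1`: the point `ζ - I s = (x : ℂ) - (vi γ + s) I` is in `Hp (vi γ)`), `q (F s) → q l = tipc/γ^2 ≠ 0`
and `‖q (F s) * α s ^ 2‖ → ∞` (`hT.2.2`; `Xf` and `dt` are the same: `dt L (τ, γ) = deriv (fun τ => L (τ, γ)) τ`).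
(1) on `Ioc 0 s0` (`s0` small) `q (F s) ≠ 0`; `sqrt_Ioc` (`T3Path.lean`): `r` continuous with `r s ^ 2 = q (F s)`;
`r` has a limit `r0` for `s → 0+` with `r0 ^ 2 = q l` (a continuous function on `Ioc 0 s0` whose square tends to a
nonzero number converges: near `0+` the values are in the union of the two disjoint balls about the two
square roots, and the image of an interval is connected; alternatively choose the local branch of the
square root at `q l`: `r s / √(q (F s)) = ± 1` is continuous, hence constant).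
(2) `y s = r s * α s`: `state_G` (`T3Path.lean`; `h.ds.s1`, `h.ds.gf`): `sin (y s) ≠ 0`, `G (y s) = r s * γ`. So
`G (y s) → W := r0 γ`, `W ^ 2 = tipc`, and `‖y s‖ → ∞` (`y s ^ 2 = q (F s) α s ^ 2`).
(3) `av_tip` (`WD/AV3.lean`): the first alternative (`y s → y1`) is impossible; so `|(y s).im| → ∞` and
`‖y s‖ exp (- 2 |(y s).im|) → 0`. Near `0+` the continuous function `(y s).im` has no zero, so its sign is
constant; if it is positive put `z s = 2 I y s`, if it is negative put `z s = - 2 I y s`. Then `(z s).re =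
- 2 |(y s).im|`, `‖z s‖ = 2 ‖y s‖`.
(4) `exp (z s) ≠ 1` (negative real part). `z s / (2 I) = ± y s =: y'`, `G y' = W0 gz (z s)` (`G_gz`),
`G y' ^ 2 = G (y s) ^ 2 = r^2 γ^2 = γ^2 q (F s)` (`G_neg`), `W0_sq`. And
`α s = y s / r s = y' γ / G y' = γ (z s / (2 I)) / (W0 gz (z s)) = alT (z s, γ)` (both signs). -/
theorem tip_path {q : ℂ → ℂ} {C : ℝ} {vi : ℂ → ℝ} {L : ℂ × ℂ → ℂ} (h : Lb q C vi L) {γ : ℝ}
    (hγ : 0 < γ) {x : ℝ} {l : ℂ} (hl : l.im < 0)
    (hT : TAt q γ (vi γ) (fun τ => L (τ, γ)) x l) :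
    ∃ (s2 : ℝ) (z : ℝ → ℂ), 0 < s2 ∧ ContinuousOn z (Ioc 0 s2) ∧
      (∀ s ∈ Ioc (0 : ℝ) s2, exp (z s) ≠ 1 ∧
        (γ : ℂ) ^ 2 * q (L ((x : ℂ) - vi γ * I - I * s, γ)) = tipc * gz (z s) ^ 2 ∧
        γ * dt L ((x : ℂ) - vi γ * I - I * s, γ) = alT (z s, γ)) ∧
      Tendsto (fun s => ‖z s‖ * Real.exp (z s).re) (𝓝[>] 0) (𝓝 0) ∧
      Tendsto (fun s => (z s).re) (𝓝[>] 0) atBot := by
  have hγ0 : (γ : ℂ) ≠ 0 := by exact_mod_cast hγ.ne'
  obtain ⟨s1, r, a, hs1, ha, hrc, hac, hst, hlim, hbig⟩ := TipP_states h hγ hl hT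
  have hyc : ContinuousOn (fun s => r s * a s) (Ioc 0 s1) := hrc.mul hac
  have hGl : Tendsto (fun s => G (r s * a s)) (𝓝[>] 0) (𝓝 W0) := by
    refine hlim.congr' ?_
    filter_upwards [Ioc_mem_nhdsGT hs1] with s hs
    exact (hst s hs).2.2.2.symm
  rcases av_tip (y := fun s => r s * a s) hs1 hyc (fun s hs => (hst s hs).2.2.1) hGl W0_sq with
    ⟨y1, -, -, hy1⟩ | ⟨him, hsm⟩
  · exact absurd hbig (not_tendsto_atTop_of_tendsto_nhds hy1.norm)
  obtain ⟨σ, s2, hσ, hs2, hs21, hsg⟩ := TipP_sign hs1 hyc him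
  have hσ2 : σ ^ 2 = 1 := by
    rcases hσ with rfl | rfl
    · exact one_pow 2
    · ring
  have hσn : ‖σ‖ = 1 := by
    rcases hσ with rfl | rfl
    · exact norm_one
    · rw [norm_neg, norm_one]
  have hσ0 : σ ≠ 0 := by
    intro h0
    rw [h0, norm_zero] at hσn
    exact zero_ne_one hσn
  have hGσ : ∀ y : ℂ, G (σ * y) = σ * G y := by
    intro y
    rcases hσ with rfl | rfl
    · rw [one_mul, one_mul]
    · rw [neg_one_mul, neg_one_mul, G_neg]
  have hre : ∀ s ∈ Ioc 0 s2, (2 * I * (σ * (r s * a s))).re = -(2 * |(r s * a s).im|) := by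
    intro s hs
    rw [← (hsg s hs).1, mul_assoc]
    have h1 : ∀ w : ℂ, (2 * (I * w)).re = -(2 * w.im) := by
      intro w
      simp
    exact h1 _
  have hnz : ∀ s, ‖2 * I * (σ * (r s * a s))‖ = 2 * ‖r s * a s‖ := by
    intro s
    rw [norm_mul, norm_mul, norm_mul σ, norm_I, hσn, Complex.norm_ofNat]
    ring
  have hsub : Ioc 0 s2 ⊆ Ioc 0 s1 := Ioc_subset_Ioc_right hs21
  refine ⟨s2, fun s => 2 * I * (σ * (r s * a s)), hs2,
    continuousOn_const.mul (continuousOn_const.mul (hyc.mono hsub)), ?_, ?_, ?_⟩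
  · intro s hs
    obtain ⟨hr0, hrs, hsin, hG⟩ := hst s (hsub hs)
    have hexp : exp (2 * I * (σ * (r s * a s))) ≠ 1 := by
      intro h1
      have h2 := norm_exp (2 * I * (σ * (r s * a s)))
      rw [h1, norm_one, hre s hs] at h2
      have h3 : Real.exp (-(2 * |(r s * a s).im|)) < 1 := by
        rw [Real.exp_lt_one_iff]
        linarith [(hsg s hs).2]
      linarith
    have hdiv : 2 * I * (σ * (r s * a s)) / (2 * I) = σ * (r s * a s) := by
      rw [mul_div_cancel_left₀]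
      exact mul_ne_zero two_ne_zero I_ne_zero
    have hgz := (G_gz hexp).2
    rw [hdiv, hGσ, hG] at hgz
    refine ⟨hexp, ?_, ?_⟩
    · rw [← hrs, ← W0_sq, ← mul_pow, ← mul_pow, ← hgz, mul_pow σ, hσ2, one_mul, mul_comm]
    · rw [← ha s]
      unfold alT
      simp only
      rw [← hgz]
      have hI : I ≠ 0 := I_ne_zero
      field_simp
  · have h1 : Tendsto (fun s => 2 * (‖r s * a s‖ * Real.exp (-(2 * |(r s * a s).im|))))
        (𝓝[>] 0) (𝓝 (2 * 0)) := hsm.const_mul 2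
    rw [mul_zero] at h1
    refine h1.congr' ?_
    filter_upwards [Ioc_mem_nhdsGT hs2] with s hs
    rw [hnz, hre s hs, mul_assoc]
  · have h1 : Tendsto (fun s => 2 * |(r s * a s).im|) (𝓝[>] 0) atTop :=
      him.const_mul_atTop two_pos
    refine (tendsto_neg_atTop_atBot.comp h1).congr' ?_
    filter_upwards [Ioc_mem_nhdsGT hs2] with s hs
    exact (hre s hs).symm

end Pool.Agent.MP_ae5b4e_an_T
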