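import Pool.Agent.Lib.MP_ae5b4e_an_T.Defs

/-!
# POR (iii), N2, section T, block T3: the first integral `Gf` as a function of `(l, α)`
-/

noncomputable section

namespace Pool.Agent.MP_ae5b4e_an_T

open Complex Set Filter Topology Metric
open Pool.Agent.MP_ae5b4e_an_WB
open Pool.Agent.MP_ae5b4e_an_WD
open Pool.Agent.MP_ae5b4e_an_M (S1 C1f Gf)

/-- `∂_α Gf = exp (1 - C1f x / S1 x) / S1 x`, `x = q l α²`.

Proof. `x' = 2 q α`. By `S1_hasDerivAt x` (in `M/FnA`) `S1` has a derivative `s` at `x` with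
`2 x s = C1f x - S1 x`, by `C1f_hasDerivAt` `C1f' = - S1 / 2`. Write `S = S1 x`, `c = C1f x`,
`E = exp (1 - c / S)`. Then
`(α S1 (q α²))' = S + α s 2 q α = S + 2 x s = c`,
`(c / S)' = 2 q α (- S ^ 2 / 2 - c s) / S ^ 2`, hence
`Gf' = E (c - α S * 2 q α (- S ^ 2 / 2 - c s) / S ^ 2) = E (c + (x S ^ 2 + 2 x s c) / S)
  = E (c + (x S ^ 2 + (c - S) c) / S) = E (x S ^ 2 + c ^ 2) / S = E / S` (`C1f_S1`). -/
theorem Gf_hasDerivAt {q : ℂ → ℂ} {l α : ℂ} (hs : S1 (q l * α ^ 2) ≠ 0) :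
    HasDerivAt (fun a => Gf q l a)
      (cexp (1 - C1f (q l * α ^ 2) / S1 (q l * α ^ 2)) / S1 (q l * α ^ 2)) α := by
  set x : ℂ := q l * α ^ 2 with hx
  obtain ⟨s, hs1, hs2⟩ := Pool.Agent.MP_ae5b4e_an_M.S1_hasDerivAt x
  have hC := Pool.Agent.MP_ae5b4e_an_M.C1f_hasDerivAt x
  have hcs := Pool.Agent.MP_ae5b4e_an_M.C1f_S1 x
  have h0 : HasDerivAt (fun a : ℂ => q l * a ^ 2) (q l * (2 * α)) α := by
    have h := (hasDerivAt_pow 2 α).const_mul (q l)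
    have e : q l * (((2 : ℕ) : ℂ) * α ^ (2 - 1)) = q l * (2 * α) := by norm_num
    rw [e] at h
    exact h
  have hS : HasDerivAt (fun a : ℂ => S1 (q l * a ^ 2)) (s * (q l * (2 * α))) α :=
    HasDerivAt.comp (h₂ := S1) (h := fun a : ℂ => q l * a ^ 2) α hs1 h0
  have hC' : HasDerivAt (fun a : ℂ => C1f (q l * a ^ 2)) (-(S1 x) / 2 * (q l * (2 * α))) α :=
    HasDerivAt.comp (h₂ := C1f) (h := fun a : ℂ => q l * a ^ 2) α hC h0
  have hd := (hC'.div hS hs).const_sub 1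
  have he := hd.cexp
  have hm := ((hasDerivAt_id α).mul hS).mul he
  have hgf : (fun a => Gf q l a) = fun a : ℂ => a * S1 (q l * a ^ 2) *
      cexp (1 - C1f (q l * a ^ 2) / S1 (q l * a ^ 2)) := rfl
  rw [hgf]
  refine hm.congr_deriv ?_
  simp only [Pi.mul_apply, id_eq, Pi.div_apply, ← hx]
  have hxx : q l * (2 * α) * α = 2 * x := by rw [hx]; ring
  generalize q l * (2 * α) = D at hxx ⊢
  generalize cexp (1 - C1f x / S1 x) = E
  generalize S1 x = S at *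
  generalize C1f x = c at *
  field_simp
  linear_combination E * (2 * S * s + S ^ 2 + 2 * s * c) * hxx + E * (2 * S + 2 * c) * hs2 +
    2 * E * hcs

/-- `Gf` is analytic in both variables where `S1 (q l α²) ≠ 0`.

Proof. `q` is analytic at `l` (`DifferentiableOn.analyticAt`, `Hm` open), `S1`, `C1f` are entire
(`S1_diff`, `C1f_diff`, `Differentiable.analyticAt`), composition, `AnalyticAt.div`, `AnalyticAt.cexp`. -/
theorem Gf_an {q : ℂ → ℂ} (hq : DifferentiableOn ℂ q Hm) {l α : ℂ} (hl : l.im < 0)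
    (hs : S1 (q l * α ^ 2) ≠ 0) : AnalyticAt ℂ (fun p : ℂ × ℂ => Gf q p.1 p.2) (l, α) := by
  have hHm : IsOpen Hm := isOpen_lt Complex.continuous_im continuous_const
  have hq1 : AnalyticAt ℂ q l := hq.analyticAt (hHm.mem_nhds hl)
  have hq2 : AnalyticAt ℂ (fun p : ℂ × ℂ => q p.1) (l, α) :=
    AnalyticAt.comp (f := fun p : ℂ × ℂ => p.1) hq1 analyticAt_fst
  have hx : AnalyticAt ℂ (fun p : ℂ × ℂ => q p.1 * p.2 ^ 2) (l, α) :=
    hq2.mul (analyticAt_snd.pow 2)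
  have hS : AnalyticAt ℂ (fun p : ℂ × ℂ => S1 (q p.1 * p.2 ^ 2)) (l, α) :=
    AnalyticAt.comp (f := fun p : ℂ × ℂ => q p.1 * p.2 ^ 2)
      (Pool.Agent.MP_ae5b4e_an_M.S1_diff.analyticAt _) hx
  have hC : AnalyticAt ℂ (fun p : ℂ × ℂ => C1f (q p.1 * p.2 ^ 2)) (l, α) :=
    AnalyticAt.comp (f := fun p : ℂ × ℂ => q p.1 * p.2 ^ 2)
      (Pool.Agent.MP_ae5b4e_an_M.C1f_diff.analyticAt _) hx
  exact (analyticAt_snd.mul hS).mul (analyticAt_const.sub (hC.div hS hs)).cexp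

end Pool.Agent.MP_ae5b4e_an_T
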