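import Pool.Agent.Lib.MP_ae5b4e_an_T.T4Def
import Pool.Agent.Lib.MP_ae5b4e_an_AZ.Lift

/-!
# POR (iii), N2, T4: the sheet of `y` near `k π`, in the coordinate `X = log w`
-/

noncomputable section

namespace Pool.Agent.MP_ae5b4e_an_T

open Complex Set Filter Topology Metric MeasureTheory
open Pool.Agent.MP_ae5b4e_an_WB

/-- `log ((-1)^k G y)` near `k π` (off the cut) -/
def fS (k : ℕ) (y : ℂ) : ℂ := 1 - y * (cos y / sin y) + log (sin (y - k * Real.pi))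

theorem t4sh_slit {d : ℂ} (h1 : ‖d‖ < 1) (h2 : d ∈ slitPlane) : sin d ∈ slitPlane := by
  have hre : |d.re| < 1 := (abs_re_le_norm d).trans_lt h1
  have hpi := Real.pi_gt_three
  have hlt := abs_lt.1 hre
  rw [mem_slitPlane_iff] at h2 ⊢
  have hs : sin d = ((Real.sin d.re * Real.cosh d.im : ℝ) : ℂ) +
      ((Real.cos d.re * Real.sinh d.im : ℝ) : ℂ) * I := by
    rw [sin_eq]
    push_cast
    ring
  have hr : (sin d).re = Real.sin d.re * Real.cosh d.im := by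
    rw [hs, add_re, ofReal_re, mul_re, ofReal_re, ofReal_im, I_re, I_im]; ring
  have hi : (sin d).im = Real.cos d.re * Real.sinh d.im := by
    rw [hs, add_im, ofReal_im, mul_im, ofReal_re, ofReal_im, I_re, I_im]; ring
  rw [hr, hi]
  have hc : 0 < Real.cos d.re := Real.cos_pos_of_mem_Ioo ⟨by linarith, by linarith⟩
  by_cases hb : d.im = 0
  · left
    have ha : 0 < d.re := by
      rcases h2 with h | h
      · exact h
      · exact absurd hb h
    have := Real.sin_pos_of_pos_of_lt_pi ha (by linarith)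
    have := Real.cosh_pos d.im
    positivity
  · right
    have : Real.sinh d.im ≠ 0 := by
      rw [Ne, Real.sinh_eq_zero]
      exact hb
    exact mul_ne_zero hc.ne' this

theorem t4sh_pow (k : ℕ) : ((-1 : ℂ) ^ k) * (-1) ^ k = 1 := by
  rw [← mul_pow]; simp

theorem t4sh_sin (k : ℕ) (y : ℂ) : sin (y - k * Real.pi) = (-1) ^ k * sin y :=
  Complex.sin_antiperiodic.sub_nat_mul_eq k

theorem t4sh_cos (k : ℕ) (y : ℂ) : cos (y - k * Real.pi) = (-1) ^ k * cos y :=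
  Complex.cos_antiperiodic.sub_nat_mul_eq k

/-- Proof. For `‖δ‖ < 1`, `δ ∈ slitPlane`: `(sin δ).im = cos δ.re sinh δ.im` (`Complex.sin_eq`/`sin_im`), which is
`≠ 0` if `δ.im ≠ 0`; if `δ.im = 0` then `0 < δ.re < 1` and `sin δ = Real.sin δ.re > 0`. So `sin δ` is in the
slit plane. `sin (y - k π) = (-1)^k sin y` (`Complex.sin_sub_nat_mul_pi`), so `exp (fS k y) = (-1)^k G y`. The
derivative: `-(cos y/sin y) + y/sin y^2 + cos (y - kπ)/sin (y - kπ)`, and the first and the last term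
cancel. -/
theorem fS_props (k : ℕ) {y : ℂ} (h1 : ‖y - k * Real.pi‖ < 1) (h2 : y - k * Real.pi ∈ slitPlane) :
    sin y ≠ 0 ∧ exp (fS k y) = (-1) ^ k * G y ∧ HasDerivAt (fS k) (y / sin y ^ 2) y ∧
      AnalyticAt ℂ (fS k) y := by
  have hsl := t4sh_slit h1 h2
  have hsin := t4sh_sin k y
  have hcos := t4sh_cos k y
  have hne : sin (y - k * Real.pi) ≠ 0 := slitPlane_ne_zero hsl
  have hpk : ((-1 : ℂ) ^ k) ≠ 0 := pow_ne_zero _ (by norm_num)
  have hs : sin y ≠ 0 := by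
    intro h
    rw [hsin, h, mul_zero] at hne
    exact hne rfl
  refine ⟨hs, ?_, ?_, ?_⟩
  · rw [fS, exp_add, exp_log hne, hsin, G]
    ring
  · have e1 : HasDerivAt (fun y : ℂ => y * (cos y / sin y))
        (1 * (cos y / sin y) + y * ((-sin y * sin y - cos y * cos y) / sin y ^ 2)) y :=
      (hasDerivAt_id y).mul ((hasDerivAt_cos y).div (hasDerivAt_sin y) hs)
    have e2 : HasDerivAt (fun y : ℂ => sin (y - k * Real.pi)) (cos (y - k * Real.pi) * 1) y :=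
      ((hasDerivAt_id y).sub_const _).csin
    have e3 := e2.clog hsl
    have e4 := (e1.const_sub 1).add e3
    have e5 : -(1 * (cos y / sin y) + y * ((-sin y * sin y - cos y * cos y) / sin y ^ 2)) +
        cos (y - k * Real.pi) * 1 / sin (y - k * Real.pi) = y / sin y ^ 2 := by
      rw [hsin, hcos]
      have hsc := sin_sq_add_cos_sq y
      field_simp
      linear_combination y * hsc
    rw [e5] at e4
    exact e4
  · have a1 : AnalyticAt ℂ (fun y : ℂ => y * (cos y / sin y)) y :=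
      analyticAt_id.mul (analyticAt_cos.div analyticAt_sin hs)
    have a2 : AnalyticAt ℂ (fun y : ℂ => sin (y - k * Real.pi)) y :=
      analyticAt_sin.comp (analyticAt_id.sub analyticAt_const)
    exact (analyticAt_const.sub a1).add (a2.clog hsl)

/-- elementary bounds for `0 < ‖δ‖ ≤ 1/2` -/
theorem t4sh_bds {d : ℂ} (h0 : d ≠ 0) (h1 : ‖d‖ ≤ 1 / 2) :
    sin d ≠ 0 ∧ |Real.log ‖sin d‖ - Real.log ‖d‖| ≤ 1 ∧ ‖d * (cos d / sin d)‖ ≤ 2 ∧
      ‖cos d / sin d - 1 / d‖ ≤ 1 := by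
  have hd : 0 < ‖d‖ := norm_pos_iff.2 h0
  have hs := Complex.sin_bound (x := d) (by linarith)
  have hc := Complex.cos_bound (x := d) (by linarith)
  have h2 : ‖d‖ ^ 2 ≤ 1 / 4 := by nlinarith
  have h3 : ‖d‖ ^ 3 ≤ ‖d‖ / 4 := by nlinarith
  have h4 : ‖d‖ ^ 4 ≤ ‖d‖ ^ 3 / 2 := by
    have : 0 ≤ ‖d‖ ^ 3 := by positivity
    nlinarith
  have h5 : ‖d‖ ^ 5 ≤ ‖d‖ ^ 3 / 4 := by
    have : 0 ≤ ‖d‖ ^ 3 := by positivity
    nlinarith
  have h4' : ‖d‖ ^ 4 ≤ ‖d‖ ^ 2 / 4 := by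
    have : 0 ≤ ‖d‖ ^ 2 := by positivity
    nlinarith
  have e1 : ‖sin d - d‖ ≤ ‖d‖ ^ 3 / 4 := by
    have t : sin d - d = (sin d - (d - d ^ 3 / 6)) - d ^ 3 / 6 := by ring
    rw [t]
    have := norm_sub_le (sin d - (d - d ^ 3 / 6)) (d ^ 3 / 6)
    have q : ‖d ^ 3 / 6‖ = ‖d‖ ^ 3 / 6 := by
      rw [norm_div, norm_pow]; norm_num
    rw [q] at this
    have : 0 ≤ ‖d‖ ^ 3 := by positivity
    linarith
  have e2 : ‖cos d - 1‖ ≤ ‖d‖ ^ 2 * (3 / 4) := by
    have t : cos d - 1 = (cos d - (1 - d ^ 2 / 2)) - d ^ 2 / 2 := by ring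
    rw [t]
    have := norm_sub_le (cos d - (1 - d ^ 2 / 2)) (d ^ 2 / 2)
    have q : ‖d ^ 2 / 2‖ = ‖d‖ ^ 2 / 2 := by
      rw [norm_div, norm_pow]; norm_num
    rw [q] at this
    have : 0 ≤ ‖d‖ ^ 2 := by positivity
    linarith
  have e3 : 15 / 16 * ‖d‖ ≤ ‖sin d‖ := by
    have t := norm_sub_norm_le d (d - sin d)
    have t2 : d - (d - sin d) = sin d := by ring
    rw [t2] at t
    have t3 : ‖d - sin d‖ = ‖sin d - d‖ := norm_sub_rev _ _
    rw [t3] at t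
    linarith
  have e4 : ‖sin d‖ ≤ 17 / 16 * ‖d‖ := by
    have t := norm_add_le d (sin d - d)
    have t2 : d + (sin d - d) = sin d := by ring
    rw [t2] at t
    linarith
  have hsp : 0 < ‖sin d‖ := by linarith
  have hsn : sin d ≠ 0 := norm_pos_iff.1 hsp
  have e5 : ‖cos d‖ ≤ 5 / 4 := by
    have t := norm_add_le 1 (cos d - 1)
    have t2 : 1 + (cos d - 1) = cos d := by ring
    rw [t2, norm_one] at t
    linarith
  refine ⟨hsn, ?_, ?_, ?_⟩
  · rw [← Real.log_div hsp.ne' hd.ne', abs_le]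
    have hq : 0 < ‖sin d‖ / ‖d‖ := by positivity
    have hq1 : ‖sin d‖ / ‖d‖ ≤ 17 / 16 := by
      rw [div_le_iff₀ hd]; exact e4
    have hq2 : 15 / 16 ≤ ‖sin d‖ / ‖d‖ := by
      rw [le_div_iff₀ hd]; exact e3
    have u1 := Real.log_le_sub_one_of_pos hq
    have u2 := Real.one_sub_inv_le_log_of_pos hq
    have u3 : (‖sin d‖ / ‖d‖)⁻¹ ≤ (15 / 16 : ℝ)⁻¹ := inv_anti₀ (by norm_num) hq2
    have u4 : (15 / 16 : ℝ)⁻¹ = 16 / 15 := by norm_num
    rw [u4] at u3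
    constructor
    · linarith
    · linarith
  · rw [norm_mul, norm_div, ← mul_div_assoc, div_le_iff₀ hsp]
    have : ‖d‖ * ‖cos d‖ ≤ ‖d‖ * (5 / 4) := mul_le_mul_of_nonneg_left e5 hd.le
    linarith
  · have t : cos d / sin d - 1 / d = (d * (cos d - 1) - (sin d - d)) / (d * sin d) := by
      field_simp
      ring
    rw [t, norm_div, norm_mul, div_le_iff₀ (by positivity)]
    have u1 := norm_sub_le (d * (cos d - 1)) (sin d - d)
    rw [norm_mul] at u1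
    have u2 : ‖d‖ * ‖cos d - 1‖ ≤ ‖d‖ * (‖d‖ ^ 2 * (3 / 4)) := mul_le_mul_of_nonneg_left e2 hd.le
    have u3 : ‖d‖ * (15 / 16 * ‖d‖) ≤ ‖d‖ * ‖sin d‖ := mul_le_mul_of_nonneg_left e3 hd.le
    have u4 : ‖d‖ ^ 3 ≤ ‖d‖ ^ 2 / 2 := by
      have : 0 ≤ ‖d‖ ^ 2 := by positivity
      nlinarith
    nlinarith

theorem t4sh_cot (k : ℕ) (y : ℂ) :
    cos y / sin y = cos (y - k * Real.pi) / sin (y - k * Real.pi) := by
  rw [t4sh_sin, t4sh_cos, mul_div_mul_left]
  exact pow_ne_zero _ (by norm_num)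

theorem t4sh_logG (k : ℕ) {y : ℂ} (h0 : y ≠ k * Real.pi) (h1 : ‖y - k * Real.pi‖ ≤ 1 / 2) :
    sin y ≠ 0 ∧ Real.log ‖G y‖ = Real.log ‖sin (y - k * Real.pi)‖ +
      (1 - y * (cos (y - k * Real.pi) / sin (y - k * Real.pi))).re := by
  have hd : y - k * Real.pi ≠ 0 := sub_ne_zero.2 h0
  obtain ⟨b1, -, -, -⟩ := t4sh_bds hd h1
  have hs : sin y ≠ 0 := by
    intro h
    rw [t4sh_sin, h, mul_zero] at b1
    exact b1 rfl
  refine ⟨hs, ?_⟩
  have hn : ‖sin (y - k * Real.pi)‖ = ‖sin y‖ := by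
    rw [t4sh_sin, norm_mul, norm_pow]; simp
  rw [hn, G, norm_mul, Real.log_mul (norm_ne_zero_iff.2 hs) (norm_ne_zero_iff.2 (exp_ne_zero _)),
    norm_exp, Real.log_exp, ← t4sh_cot]

/-- Proof. `y = k π + δ`, `cos y/sin y = cos δ/sin δ` (`k π`-periodic), `‖δ (cos δ / sin δ)‖` and
`‖cos δ/sin δ - 1/δ‖` are bounded for `0 < ‖δ‖ ≤ 1/2` (`δ ↦ δ cos δ / sin δ` and `(δ cos δ - sin δ)/(δ sin δ)`
extend continuously to `0`; or elementary: `‖sin δ - δ‖ ≤ ‖δ‖^3/4`-type bounds, `Complex.sin_bound`,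
`Complex.cos_bound`), `log ‖sin δ‖ - log ‖δ‖` is bounded. So
`log ‖G y‖ = log ‖sin δ‖ + 1 - Re (y cos δ/sin δ) = log ‖δ‖ - Re (k π/δ) + O(1)`. -/
theorem fS_size (k : ℕ) : ∃ C : ℝ, 0 < C ∧ ∀ y : ℂ, y ≠ k * Real.pi → ‖y - k * Real.pi‖ ≤ 1 / 2 →
    |Real.log ‖G y‖ - (Real.log ‖y - k * Real.pi‖ - (k * Real.pi / (y - k * Real.pi)).re)| ≤ C := by
  have hpi := Real.pi_pos
  refine ⟨4 + k * Real.pi, by positivity, fun y h0 h1 => ?_⟩
  obtain ⟨-, hlog⟩ := t4sh_logG k h0 h1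
  have hd : y - k * Real.pi ≠ 0 := sub_ne_zero.2 h0
  obtain ⟨b1, b2, b3, b4⟩ := t4sh_bds hd h1
  rw [hlog]
  set d := y - k * Real.pi with hdd
  have hy : y = k * Real.pi + d := by rw [hdd]; ring
  have key : (1 - y * (cos d / sin d)) + k * Real.pi / d =
      1 - d * (cos d / sin d) - k * Real.pi * (cos d / sin d - 1 / d) := by
    rw [hy]; ring
  have keyr : (1 - y * (cos d / sin d)).re + (k * Real.pi / d : ℂ).re =
      (1 - d * (cos d / sin d) - k * Real.pi * (cos d / sin d - 1 / d)).re := by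
    rw [← add_re, key]
  have hb : |(1 - d * (cos d / sin d) - k * Real.pi * (cos d / sin d - 1 / d)).re| ≤
      1 + 2 + k * Real.pi := by
    refine (abs_re_le_norm _).trans ?_
    have u1 := norm_sub_le (1 - d * (cos d / sin d)) (k * Real.pi * (cos d / sin d - 1 / d))
    have u2 := norm_sub_le 1 (d * (cos d / sin d))
    have u3 : ‖(k * Real.pi * (cos d / sin d - 1 / d) : ℂ)‖ ≤ k * Real.pi := by
      rw [norm_mul, norm_mul, norm_natCast, norm_real, Real.norm_of_nonneg hpi.le]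
      have : 0 ≤ (k : ℝ) * Real.pi := by positivity
      nlinarith
    rw [norm_one] at u2
    linarith
  rw [← keyr] at hb
  rw [abs_le] at b2 hb ⊢
  constructor
  · linarith [b2.1, hb.1]
  · linarith [b2.2, hb.2]

/-- lower bound of `fS` near the pole -/
theorem t4sh_norm (k : ℕ) : ∃ C : ℝ, 0 < C ∧ ∀ y : ℂ, y ≠ k * Real.pi → ‖y - k * Real.pi‖ ≤ 1 / 2 →
    (k * Real.pi - 1) / ‖y - k * Real.pi‖ ≤ ‖fS k y‖ + C := by
  have hpi := Real.pi_pos
  refine ⟨4 + k * Real.pi + Real.pi, by positivity, fun y h0 h1 => ?_⟩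
  have hd : y - k * Real.pi ≠ 0 := sub_ne_zero.2 h0
  obtain ⟨b1, b2, b3, b4⟩ := t4sh_bds hd h1
  have hf : fS k y = 1 - y * (cos (y - k * Real.pi) / sin (y - k * Real.pi)) +
      log (sin (y - k * Real.pi)) := by
    rw [fS, t4sh_cot k y]
  set d := y - k * Real.pi with hdd
  have hy : y = k * Real.pi + d := by rw [hdd]; ring
  have hdp : 0 < ‖d‖ := norm_pos_iff.2 hd
  have key : k * Real.pi / d =
      (1 - d * (cos d / sin d) - k * Real.pi * (cos d / sin d - 1 / d)) + log (sin d) - fS k y := by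
    rw [hf, hy]; ring
  have hb : ‖1 - d * (cos d / sin d) - k * Real.pi * (cos d / sin d - 1 / d)‖ ≤
      1 + 2 + k * Real.pi := by
    have u1 := norm_sub_le (1 - d * (cos d / sin d)) (k * Real.pi * (cos d / sin d - 1 / d))
    have u2 := norm_sub_le 1 (d * (cos d / sin d))
    have u3 : ‖(k * Real.pi * (cos d / sin d - 1 / d) : ℂ)‖ ≤ k * Real.pi := by
      rw [norm_mul, norm_mul, norm_natCast, norm_real, Real.norm_of_nonneg hpi.le]
      have : 0 ≤ (k : ℝ) * Real.pi := by positivity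
      nlinarith
    rw [norm_one] at u2
    linarith
  have hl : ‖log (sin d)‖ ≤ |Real.log ‖sin d‖| + Real.pi := by
    refine (norm_le_abs_re_add_abs_im _).trans ?_
    rw [log_re, log_im]
    exact add_le_add le_rfl (abs_arg_le_pi _)
  have hl2 : |Real.log ‖sin d‖| ≤ 1 + (1 / ‖d‖ - 1) + 1 - 1 := by
    have u1 : Real.log ‖d‖ ≤ 0 := Real.log_nonpos hdp.le (by linarith)
    have u2 := Real.one_sub_inv_le_log_of_pos hdp
    have u3 : |Real.log ‖d‖| ≤ 1 / ‖d‖ - 1 := by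
      rw [abs_of_nonpos u1, one_div]; linarith
    have u4 := abs_add_le (Real.log ‖sin d‖ - Real.log ‖d‖) (Real.log ‖d‖)
    have u5 : Real.log ‖sin d‖ - Real.log ‖d‖ + Real.log ‖d‖ = Real.log ‖sin d‖ := by ring
    rw [u5] at u4
    linarith
  have hn : ‖(k * Real.pi / d : ℂ)‖ = k * Real.pi / ‖d‖ := by
    rw [norm_div, norm_mul, norm_natCast, norm_real, Real.norm_of_nonneg hpi.le]
  have h5 : k * Real.pi / ‖d‖ ≤ (1 + 2 + k * Real.pi) + (1 / ‖d‖ + Real.pi) + ‖fS k y‖ := by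
    rw [← hn, key]
    refine (norm_sub_le _ _).trans ?_
    have := norm_add_le (1 - d * (cos d / sin d) - k * Real.pi * (cos d / sin d - 1 / d))
      (log (sin d))
    linarith
  rw [sub_div]
  linarith

theorem t4sh_inv {f : ℂ → ℂ} {a x : ℂ} (h : HasDerivAt f a x) (ha : a ≠ 0) :
    (fderiv ℂ f x).IsInvertible := by
  refine ⟨ContinuousLinearEquiv.unitsEquivAut ℂ (Units.mk0 a ha), ?_⟩
  rw [h.hasFDerivAt.fderiv]
  ext
  simp

/-- THE SHEET near `k π`.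

Proof. `κ = k π > 0`, `δ = y - κ`, `C` from `fS_size`, `ε0 = 1/2`, `P = {y | ‖y - κ‖ < ε0, y - κ ∈ slitPlane}` (open).
`‖exp (fS k y)‖ = exp (re (fS k y)) = ‖G y‖` on `P`, so `re (fS k y) = log ‖G y‖ ≥ log ‖δ‖ - κ/‖δ‖ - C`.
Let `M0 = C + κ/ε0 + log (1/ε0) + 2` and `M ≥ M0`.
(1) If `0 < ‖δ‖ ≤ ε0` and `log ‖G y‖ < - M0` then `δ ∉ (-∞, 0]`: for `δ = - t` we would have
`log ‖G y‖ ≥ log t + κ/t - C ≥ 1 + log κ - C ≥ - M0` (`log t + κ/t ≥ 1 + log κ`, `Real.add_one_le_exp`; `κ ≥ 3`),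
and `‖δ‖ ≠ ε0`: there `log ‖G y‖ ≥ log ε0 - κ/ε0 - C`.
(2) `f = fS k` is PROPER from `P` to `G = DZ M`: for a compact `Cc ⊆ DZ M` the set `P ∩ f ⁻¹' Cc` is compact:
it is bounded; let `yn` in it converge to `y*`, `‖y* - κ‖ ≤ ε0`. `y* ≠ κ`: `‖f y‖ ≥ ‖y cos y/sin y‖ - 1 - ‖log (sin δ)‖`,
`‖log (sin δ)‖ ≤ |log ‖sin δ‖| + π` and `‖y cos y/sin y‖ ≥ c/‖δ‖`, so `‖f y‖ → ∞` for `y → κ` in `P`, but
`f yn ∈ Cc` is bounded. `log ‖G y*‖ = lim re (f yn) ≤ - M` and by (1) `y* ∈ P`, and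
`f y* ∈ Cc` by continuity.
(3) `exists_section` (`AZ/Lift.lean`; `E = ℂ`; `hd`: `v6b_inv`-type lemma, the derivative
`y/sin y^2` is `≠ 0`, see `AZ/V6b.lean`; `DZ M` is open and convex) with `x₀ = y s2`, `y₀ = f (y s2)`, where `s2 ≤ s0`
is so small that `‖y s - κ‖ < ε0` and `log ‖G (y s)‖ < - M` for `s ∈ (0, s2]` (`hy`, `hw`; take `M = M0`). It gives
`Y` analytic on `DZ M`, `Y x ∈ P`, `f (Y x) = x`, `Y (f (y s2)) = y s2`. `G (Y x) = (-1)^k exp x`.
(4) `X s = f (y s)`: `y s ∈ P` by (1) (`y s ≠ κ` because `sin (y s) ≠ 0`), `X` is continuous, `(X s).re =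
log ‖G (y s)‖ → - ∞`. `Y (X s) = y s`: `lifts_eqOn` (`AZ/Lift.lean`, `A = ℝ`, `S = Ioc 0 s2`,
`g₁ = Y ∘ X`, `g₂ = y`, equal at `s2`).
(5) `Y → κ` for `re x → - ∞`: `- x.re = - log ‖G (Y x)‖ ≤ κ/‖δ‖ + log (1/‖δ‖) + C`, which is bounded if `‖δ‖` is
bounded from below. -/
theorem z_sheet {k : ℕ} (hk : 1 ≤ k) {y : ℝ → ℂ} {s0 : ℝ} (hs0 : 0 < s0)
    (hc : ContinuousOn y (Ioc 0 s0)) (hs : ∀ s ∈ Ioc (0 : ℝ) s0, sin (y s) ≠ 0)
    (hy : Tendsto y (𝓝[>] 0) (𝓝 (k * Real.pi))) (hw : Tendsto (fun s => G (y s)) (𝓝[>] 0) (𝓝 0)) :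
    ∃ (M s2 : ℝ) (Y : ℂ → ℂ) (X : ℝ → ℂ), 0 < s2 ∧ s2 ≤ s0 ∧ AnalyticOnNhd ℂ Y (DZ M) ∧
      (∀ x ∈ DZ M, sin (Y x) ≠ 0 ∧ G (Y x) = (-1) ^ k * exp x) ∧
      Tendsto Y (comap re atBot) (𝓝 (k * Real.pi)) ∧ ContinuousOn X (Ioc 0 s2) ∧
      (∀ s ∈ Ioc (0 : ℝ) s2, X s ∈ DZ M ∧ Y (X s) = y s) ∧
      Tendsto (fun s => (X s).re) (𝓝[>] 0) atBot := by
  have hpi := Real.pi_gt_three
  have hk1 : (1 : ℝ) ≤ k := by exact_mod_cast hk
  have hκ : 3 < (k : ℝ) * Real.pi := by nlinarith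
  obtain ⟨C, hC, hsize⟩ := fS_size k
  obtain ⟨C', hC', hnorm⟩ := t4sh_norm k
  set κ : ℂ := k * Real.pi with hκd
  have hκr : κ = ((k * Real.pi : ℝ) : ℂ) := by rw [hκd]; push_cast; ring
  have hκre : ∀ z : ℂ, (κ / z).re ≤ k * Real.pi / ‖z‖ := fun z => by
    refine (re_le_norm _).trans ?_
    rw [norm_div, hκr, norm_real, Real.norm_of_nonneg (by linarith)]
  set P : Set ℂ := {z | ‖z - κ‖ < 1 / 2 ∧ z - κ ∈ slitPlane} with hP
  have hPo : IsOpen P := by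
    have h1 : IsOpen {z : ℂ | ‖z - κ‖ < 1 / 2} := isOpen_lt (by fun_prop) continuous_const
    have h2 : IsOpen {z : ℂ | z - κ ∈ slitPlane} :=
      isOpen_slitPlane.preimage (by fun_prop)
    exact h1.inter h2
  have hpr : ∀ z ∈ P, sin z ≠ 0 ∧ exp (fS k z) = (-1) ^ k * G z ∧
      HasDerivAt (fS k) (z / sin z ^ 2) z ∧ AnalyticAt ℂ (fS k) z := fun z hz =>
    fS_props k (lt_trans hz.1 (by norm_num)) hz.2
  have hzne : ∀ z ∈ P, z ≠ κ := fun z hz h => by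
    have := slitPlane_ne_zero hz.2
    exact this (sub_eq_zero.2 h)
  have hre : ∀ z ∈ P, (fS k z).re = Real.log ‖G z‖ := fun z hz => by
    have h := congrArg norm (hpr z hz).2.1
    rw [norm_exp, norm_mul, norm_pow, norm_neg, norm_one, one_pow, one_mul] at h
    rw [← h, Real.log_exp]
  -- (1)
  have h1 : ∀ z : ℂ, z ≠ κ → ‖z - κ‖ ≤ 1 / 2 → Real.log ‖G z‖ < -(C + 2 * (k * Real.pi) + 1) →
      z ∈ P := by
    intro z hz0 hz1 hz2
    have hb := abs_le.1 (hsize z hz0 hz1)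
    have hd : z - κ ≠ 0 := sub_ne_zero.2 hz0
    have hdp : 0 < ‖z - κ‖ := norm_pos_iff.2 hd
    have hl := Real.one_sub_inv_le_log_of_pos hdp
    refine ⟨lt_of_le_of_ne hz1 fun h => ?_, ?_⟩
    · have u1 := hκre (z - κ)
      rw [h] at u1 hl
      have u2 : (k : ℝ) * Real.pi / (1 / 2) = 2 * (k * Real.pi) := by ring
      rw [u2] at u1
      rw [h] at hb
      norm_num at hl
      linarith [hb.1]
    · by_contra hcon
      rw [mem_slitPlane_iff] at hcon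
      push Not at hcon
      obtain ⟨c1, c2⟩ := hcon
      have c3 : z - κ = ((z - κ).re : ℂ) := by
        apply Complex.ext
        · simp
        · rw [c2]; simp
      set t : ℝ := (z - κ).re with ht
      have c4 : ‖z - κ‖ = -t := by
        rw [c3, norm_real, Real.norm_of_nonpos c1]
      have ht0 : t < 0 := by
        rw [c4] at hdp; linarith
      have c5 : (κ / (z - κ)).re = k * Real.pi / t := by
        rw [c3, hκr, ← ofReal_div, ofReal_re]
      rw [c5, c4] at hb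
      rw [c4] at hl
      have c6 : (k : ℝ) * Real.pi / t ≤ 1 / t := by
        rw [div_le_div_right_of_neg ht0]
        linarith
      have c7 : (-t)⁻¹ = -(1 / t) := by
        rw [inv_neg, one_div]
      rw [c7] at hl
      linarith [hb.1]
  set M : ℝ := C + 2 * (k * Real.pi) + 1 + 1 with hM
  have hfan : AnalyticOnNhd ℂ (fS k) P := fun z hz => (hpr z hz).2.2.2
  have hfd : ∀ z ∈ P, (fderiv ℂ (fS k) z).IsInvertible := fun z hz => by
    obtain ⟨a1, -, a3, -⟩ := hpr z hz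
    refine t4sh_inv a3 (div_ne_zero ?_ (pow_ne_zero 2 a1))
    intro h0
    have := hz.1
    rw [h0, zero_sub, norm_neg, hκr, norm_real, Real.norm_of_nonneg (by linarith)] at this
    linarith
  have hDo : IsOpen (DZ M) := isOpen_lt continuous_re continuous_const
  have hDc : Convex ℝ (DZ M) := by
    have : DZ M = re ⁻¹' Iio (-M) := rfl
    rw [this]
    exact (convex_Iio (-M)).linear_preimage reLm
  have hprop : ∀ K ⊆ DZ M, IsCompact K → IsCompact (P ∩ fS k ⁻¹' K) := by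
    intro K hKD hK
    obtain ⟨B, hB⟩ := hK.isBounded.exists_norm_le
    have hbd : Bornology.IsBounded (P ∩ fS k ⁻¹' K) := by
      refine (isBounded_closedBall (x := κ) (r := 1 / 2)).subset ?_
      intro z hz
      rw [mem_closedBall, dist_eq_norm]
      exact hz.1.1.le
    refine isCompact_of_isClosed_isBounded ?_ hbd
    refine isClosed_of_closure_subset fun z hz => ?_
    obtain ⟨u, hu, hlim⟩ := mem_closure_iff_seq_limit.1 hz
    have hBC : 0 < B + C' := by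
      have := (norm_nonneg _).trans (hB _ (hu 0).2)
      linarith
    have hlow : ∀ n, (k * Real.pi - 1) / (B + C') ≤ ‖u n - κ‖ := by
      intro n
      have hn := hnorm (u n) (hzne _ (hu n).1) (hu n).1.1.le
      have hdp : 0 < ‖u n - κ‖ := norm_pos_iff.2 (sub_ne_zero.2 (hzne _ (hu n).1))
      rw [div_le_iff₀ hdp] at hn
      rw [div_le_iff₀ hBC]
      have := hB _ (hu n).2
      nlinarith
    have hlimn : Tendsto (fun n => ‖u n - κ‖) atTop (𝓝 ‖z - κ‖) :=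
      (hlim.sub_const κ).norm
    have hz1 : ‖z - κ‖ ≤ 1 / 2 := le_of_tendsto' hlimn fun n => (hu n).1.1.le
    have hz2 : (k * Real.pi - 1) / (B + C') ≤ ‖z - κ‖ := ge_of_tendsto' hlimn hlow
    have hz3 : 0 < ‖z - κ‖ := lt_of_lt_of_le (div_pos (by linarith) hBC) hz2
    have hz4 : z ≠ κ := sub_ne_zero.1 (norm_pos_iff.1 hz3)
    obtain ⟨hsz, -⟩ := t4sh_logG k hz4 hz1
    have hGc : ContinuousAt G z := (hasDerivAt_G hsz).continuousAt
    have hGn : ‖G z‖ ≠ 0 := norm_ne_zero_iff.2 (G_ne_zero hsz)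
    have hlimG : Tendsto (fun n => Real.log ‖G (u n)‖) atTop (𝓝 (Real.log ‖G z‖)) :=
      ((hGc.tendsto.comp hlim).norm).log hGn
    have hz5 : Real.log ‖G z‖ ≤ -M := by
      refine le_of_tendsto' hlimG fun n => ?_
      rw [← hre _ (hu n).1]
      exact le_of_lt (hKD (hu n).2)
    have hzP : z ∈ P := h1 z hz4 hz1 (by linarith)
    refine ⟨hzP, ?_⟩
    have hfc : ContinuousAt (fS k) z := (hfan z hzP).continuousAt
    exact hK.isClosed.mem_of_tendsto (hfc.tendsto.comp hlim) (Eventually.of_forall fun n => (hu n).2)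
  -- the small interval
  have hev1 : ∀ᶠ s in 𝓝[>] (0 : ℝ), ‖y s - κ‖ < 1 / 2 := by
    have := (tendsto_iff_norm_sub_tendsto_zero.1 hy).eventually (gt_mem_nhds (show (0 : ℝ) < 1 / 2 by norm_num))
    exact this
  have hev2 : ∀ᶠ s in 𝓝[>] (0 : ℝ), ‖G (y s)‖ < Real.exp (-M) := by
    have h := hw.norm
    rw [norm_zero] at h
    exact h.eventually (gt_mem_nhds (Real.exp_pos _))
  have hev3 : ∀ᶠ s in 𝓝[>] (0 : ℝ), s ∈ Ioc (0 : ℝ) s0 := Ioc_mem_nhdsGT hs0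
  obtain ⟨s2, hs2, hs2s⟩ := (mem_nhdsGT_iff_exists_Ioc_subset).1 (hev1.and (hev2.and hev3))
  have hs2p : (0 : ℝ) < s2 := hs2
  have hin : ∀ s ∈ Ioc (0 : ℝ) s2, y s ∈ P ∧ fS k (y s) ∈ DZ M := by
    intro s hsm
    obtain ⟨a1, a2, a3⟩ := hs2s hsm
    have b0 : sin (y s) ≠ 0 := hs s a3
    have b1 : y s ≠ κ := by
      intro h
      apply b0
      rw [h, hκd]
      exact Complex.sin_nat_mul_pi k
    have b2 : Real.log ‖G (y s)‖ < -M := by
      rw [Real.log_lt_iff_lt_exp (norm_pos_iff.2 (G_ne_zero b0))]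
      exact a2
    have b3 : y s ∈ P := h1 _ b1 a1.le (by linarith)
    refine ⟨b3, ?_⟩
    change (fS k (y s)).re < -M
    rw [hre _ b3]
    exact b2
  have hs2m : s2 ∈ Ioc (0 : ℝ) s2 := ⟨hs2p, le_rfl⟩
  have hs2le : s2 ≤ s0 := (hs2s hs2m).2.2.2
  have hsub : Ioc (0 : ℝ) s2 ⊆ Ioc 0 s0 := Ioc_subset_Ioc_right hs2le
  obtain ⟨Y, hYa, hYs, hY0⟩ := Pool.Agent.MP_ae5b4e_an_AZ.exists_section hPo hfan hfd hDo
    (hDc.starConvex (hin s2 hs2m).2) hprop (hin s2 hs2m).1 rfl (hin s2 hs2m).2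
  have hXc : ContinuousOn (fun s => fS k (y s)) (Ioc 0 s2) :=
    hfan.continuousOn.comp (hc.mono hsub) fun s hsm => (hin s hsm).1
  have hYX : EqOn (fun s => Y (fS k (y s))) y (Ioc 0 s2) := by
    refine Pool.Agent.MP_ae5b4e_an_AZ.lifts_eqOn hPo hfan hfd (ordConnected_Ioc.isPreconnected)
      (hYa.continuousOn.comp hXc fun s hsm => (hin s hsm).2) (hc.mono hsub)
      (fun s hsm => (hYs _ (hin s hsm).2).1) (fun s hsm => (hin s hsm).1)
      (fun s hsm => (hYs _ (hin s hsm).2).2) hs2m hY0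
  refine ⟨M, s2, Y, fun s => fS k (y s), hs2p, hs2le, hYa, fun x hx => ?_, ?_, hXc,
    fun s hsm => ⟨(hin s hsm).2, hYX hsm⟩, ?_⟩
  · obtain ⟨a1, a2⟩ := hYs x hx
    obtain ⟨b1, b2, -, -⟩ := hpr _ a1
    refine ⟨b1, ?_⟩
    rw [a2] at b2
    rw [b2, ← mul_assoc, t4sh_pow, one_mul]
  · rw [Metric.tendsto_nhds]
    intro ε hε
    have hev : ∀ᶠ x in comap re atBot, x.re < min (-M) (Real.log ε - k * Real.pi / ε - C) :=
      tendsto_comap.eventually (eventually_lt_atBot _)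
    filter_upwards [hev] with x hx
    have hx1 : x ∈ DZ M := hx.trans_le (min_le_left _ _)
    have hx2 : x.re < Real.log ε - k * Real.pi / ε - C := hx.trans_le (min_le_right _ _)
    obtain ⟨a1, a2⟩ := hYs x hx1
    rw [dist_eq_norm]
    by_contra hcon
    push Not at hcon
    have b1 := hre _ a1
    rw [a2] at b1
    have b2 := (abs_le.1 (hsize _ (hzne _ a1) a1.1.le)).1
    have b3 := hκre (Y x - κ)
    have b4 : Real.log ε ≤ Real.log ‖Y x - κ‖ := Real.log_le_log hε hcon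
    have b5 : k * Real.pi / ‖Y x - κ‖ ≤ k * Real.pi / ε :=
      div_le_div_of_nonneg_left (by linarith) hε hcon
    linarith
  · have hlim : Tendsto (fun s => Real.log ‖G (y s)‖) (𝓝[>] 0) atBot := by
      refine Real.tendsto_log_nhdsNE_zero.comp ?_
      rw [tendsto_nhdsWithin_iff]
      refine ⟨?_, ?_⟩
      · have h := hw.norm
        rw [norm_zero] at h
        exact h
      · filter_upwards [hev3] with s hsm
        exact norm_ne_zero_iff.2 (G_ne_zero (hs s hsm))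
    refine hlim.congr' ?_
    filter_upwards [Ioc_mem_nhdsGT hs2p] with s hsm
    exact (hre _ (hin s hsm).1).symm

end Pool.Agent.MP_ae5b4e_an_T
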