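import Pool.Agent.Lib.MP_ae5b4e_an_T.T4Def
import Pool.Agent.Lib.MP_ae5b4e_an_WD.Z1
import Pool.Agent.Lib.SCV.Osgood
import Pool.Agent.Lib.MP_ae5b4e_an_WB.ParamInt

/-!
# POR (iii), N2, T4: the height function of a model
-/

noncomputable section

namespace Pool.Agent.MP_ae5b4e_an_T

open Complex Set Filter Topology Metric MeasureTheory

private theorem T4Prim_gen {D : Set ℂ} (hD : IsOpen D)
    (hsh : ∀ z ∈ D, ∀ s : ℝ, 0 ≤ s → z - s ∈ D) {κ C : ℝ} (hκ : 0 < κ) {Ω : ℂ → ℂ}
    (hΩ : DifferentiableOn ℂ Ω D) (hb : ∀ X ∈ D, ‖Ω X‖ ≤ C * Real.exp (κ * X.re)) {X : ℂ}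
    (hX : X ∈ D) : HasDerivAt (fun X : ℂ => ∫ s in Ioi (0 : ℝ), Ω (X - s)) (Ω X) X := by
  have hC : 0 ≤ C := by
    have h1 := (norm_nonneg _).trans (hb X hX)
    have h2 := Real.exp_pos (κ * X.re)
    by_contra h3
    push Not at h3
    nlinarith [mul_neg_of_neg_of_pos h3 h2]
  obtain ⟨r', hr', hrD⟩ := Metric.nhds_basis_closedBall.mem_iff.1 (hD.mem_nhds hX)
  set r : ℝ := r' / 2 with hr
  have hr0 : 0 < r := by positivity
  have hre : ∀ (Y : ℂ) (s : ℝ), (Y - s).re = Y.re - s := by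
    intro Y s
    simp
  have hd : ∀ Y ∈ D, HasDerivAt Ω (deriv Ω Y) Y := fun Y hY =>
    ((hΩ Y hY).differentiableAt (hD.mem_nhds hY)).hasDerivAt
  have hcd : ContinuousOn (deriv Ω) D := (hΩ.deriv hD).continuousOn
  have hcl : ∀ Y : ℂ, Continuous fun s : ℝ => Y - (s : ℂ) := fun Y => by fun_prop
  have hmeas : ∀ (f : ℂ → ℂ), ContinuousOn f D → ∀ Y ∈ D,
      AEStronglyMeasurable (fun s : ℝ => f (Y - s)) (volume.restrict (Ioi 0)) := by
    intro f hf Y hY
    refine ContinuousOn.aestronglyMeasurable ?_ measurableSet_Ioi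
    exact hf.comp (hcl Y).continuousOn fun s hs => hsh Y hY s (le_of_lt hs)
  have hint : ∀ A : ℝ, Integrable (fun s : ℝ => A * Real.exp (-κ * s))
      (volume.restrict (Ioi 0)) := fun A =>
    (exp_neg_integrableOn_Ioi 0 hκ).const_mul A
  have hbd : ∀ s ∈ Ioi (0:ℝ), ‖Ω (X - s)‖ ≤ C * Real.exp (κ * X.re) * Real.exp (-κ * s) := by
    intro s hs
    have h1 := hb (X - s) (hsh X hX s (le_of_lt hs))
    rw [hre] at h1
    have h2 : κ * (X.re - s) = κ * X.re + -κ * s := by ring
    rw [h2, Real.exp_add] at h1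
    linarith
  have hF_int : Integrable (fun s : ℝ => Ω (X - s)) (volume.restrict (Ioi 0)) := by
    refine (hint (C * Real.exp (κ * X.re))).mono' (hmeas Ω hΩ.continuousOn X hX) ?_
    exact (ae_restrict_iff' measurableSet_Ioi).2 (Eventually.of_forall hbd)
  have hball : ∀ Y ∈ ball X r, Y ∈ D := by
    intro Y hY
    refine hrD ?_
    rw [mem_closedBall]
    have := mem_ball.1 hY
    linarith
  have hcb : ∀ Y ∈ ball X r, ∀ s : ℝ, 0 ≤ s → ∀ Z ∈ closedBall (Y - s) r,
      Z ∈ D ∧ Z.re ≤ X.re + 2 * r - s := by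
    intro Y hY s hs Z hZ
    have h1 : dist (Z + s) X ≤ 2 * r := by
      have h2 : dist (Z + s) Y ≤ r := by
        have h3 := mem_closedBall.1 hZ
        rw [dist_eq_norm] at h3 ⊢
        rwa [show Z + (s : ℂ) - Y = Z - (Y - s) by ring]
      have h4 := mem_ball.1 hY
      have h5 := dist_triangle (Z + s) Y X
      linarith
    refine ⟨?_, ?_⟩
    · have h2 : Z + (s : ℂ) ∈ D := hrD (by rw [mem_closedBall]; linarith)
      have h3 := hsh _ h2 s hs
      rwa [add_sub_cancel_right] at h3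
    · have h2 : |(Z + s - X).re| ≤ 2 * r := by
        refine (abs_re_le_norm _).trans ?_
        rwa [← dist_eq_norm]
      rw [sub_re, add_re, ofReal_re, abs_le] at h2
      linarith [h2.2]
  have hder : ∀ Y ∈ ball X r, ∀ s ∈ Ioi (0:ℝ), ‖deriv Ω (Y - s)‖ ≤
      C * Real.exp (κ * (X.re + 2 * r)) / r * Real.exp (-κ * s) := by
    intro Y hY s hs
    have hs0 : 0 < s := hs
    have h4 := hcb Y hY s hs0.le
    have h5 : ‖deriv Ω (Y - s)‖ ≤ C * Real.exp (κ * (X.re + 2 * r - s)) / r := by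
      refine norm_deriv_le_of_forall_mem_sphere_norm_le hr0 ?_ fun Z hZ => ?_
      · refine DifferentiableOn.diffContOnCl ?_
        rw [closure_ball _ hr0.ne']
        exact hΩ.mono fun Z hZ => (h4 Z hZ).1
      · have h6 := h4 Z (sphere_subset_closedBall hZ)
        refine (hb Z h6.1).trans ?_
        refine mul_le_mul_of_nonneg_left ?_ hC
        exact Real.exp_le_exp.2 (mul_le_mul_of_nonneg_left h6.2 hκ.le)
    have h2 : κ * (X.re + 2 * r - s) = κ * (X.re + 2 * r) + -κ * s := by ring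
    rw [h2, Real.exp_add] at h5
    refine h5.trans (le_of_eq ?_)
    ring
  have hchain : ∀ Y ∈ ball X r, ∀ s ∈ Ioi (0:ℝ),
      HasDerivAt (fun Y : ℂ => Ω (Y - s)) (deriv Ω (Y - s)) Y := by
    intro Y hY s hs
    have h1 := hd (Y - s) (hsh Y (hball Y hY) s (le_of_lt hs))
    have h2 : HasDerivAt (fun Y : ℂ => Y - (s : ℂ)) 1 Y := (hasDerivAt_id Y).sub_const _
    have h3 := h1.comp Y h2
    rw [mul_one] at h3
    exact h3
  have key := hasDerivAt_integral_of_dominated_loc_of_deriv_le (μ := volume.restrict (Ioi (0:ℝ)))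
    (F := fun (Y : ℂ) (s : ℝ) => Ω (Y - s))
    (F' := fun (Y : ℂ) (s : ℝ) => deriv Ω (Y - s)) (x₀ := X)
    (ball_mem_nhds X hr0)
    (by
      filter_upwards [ball_mem_nhds X hr0] with Y hY
      exact hmeas Ω hΩ.continuousOn Y (hball Y hY))
    hF_int (hmeas _ hcd X hX)
    ((ae_restrict_iff' measurableSet_Ioi).2 (Eventually.of_forall fun s hs Y hY =>
      hder Y hY s hs))
    (hint _)
    ((ae_restrict_iff' measurableSet_Ioi).2 (Eventually.of_forall fun s hs Y hY =>
      hchain Y hY s hs))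
  have hval : ∫ s in Ioi (0:ℝ), deriv Ω (X - s) = Ω X := by
    have hc : Tendsto (fun s : ℝ => -Ω (X - s)) atTop (𝓝 0) := by
      rw [tendsto_zero_iff_norm_tendsto_zero]
      have h1 : Tendsto (fun s : ℝ => C * Real.exp (κ * X.re) * Real.exp (-κ * s)) atTop
          (𝓝 0) := by
        have h2 : Tendsto (fun s : ℝ => Real.exp (-(κ * s))) atTop (𝓝 0) :=
          Real.tendsto_exp_neg_atTop_nhds_zero.comp (tendsto_id.const_mul_atTop hκ)
        have h3 := h2.const_mul (C * Real.exp (κ * X.re))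
        rw [mul_zero] at h3
        refine h3.congr fun s => ?_
        rw [neg_mul]
      refine squeeze_zero' (Eventually.of_forall fun s => norm_nonneg _) ?_ h1
      filter_upwards [eventually_ge_atTop 0] with s hs
      rw [norm_neg]
      refine (hb _ (hsh X hX s hs)).trans (le_of_eq ?_)
      rw [hre, mul_assoc, ← Real.exp_add]
      congr 2
      ring
    have h1 := integral_Ioi_of_hasDerivAt_of_tendsto (f := fun s : ℝ => -Ω (X - s))
      (f' := fun s : ℝ => deriv Ω (X - s)) (a := 0) (m := 0) ?_ ?_ key.1 hc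
    · rw [h1]
      simp
    · refine ContinuousAt.continuousWithinAt ?_
      refine ContinuousAt.neg ?_
      have h2 : ContinuousAt Ω (X - (0:ℝ)) := (hd _ (hsh X hX 0 le_rfl)).continuousAt
      exact ContinuousAt.comp (f := fun s : ℝ => X - (s : ℂ)) h2 (hcl X).continuousAt
    · intro s hs
      have h2 := hd (X - s) (hsh X hX s (le_of_lt hs))
      have h3 : HasDerivAt (fun s : ℝ => X - (s : ℂ)) (-1) s := by
        have h4 := ((hasDerivAt_id s).ofReal_comp).const_sub X
        simpa using h4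
      have h4 := (HasDerivAt.comp_of_eq s h2 h3 rfl).neg
      refine h4.congr_deriv ?_
      ring
  have h1 := key.2
  rwa [hval] at h1

/-- The height function of a model is analytic, `∂_z Tm = e^(βz) K`, and `Tm` is close to
`e^(βz) k0 / β`.

Proof. Put `B = ball γ0 ρ0`, `Ω (z, γ) = exp (β z) * K (z, γ)`, `‖Ω (z, γ)‖ ≤ 2 ‖k0‖ exp (β z.re)` on
`D ×ˢ B` (`h.near`). The integral is `∫ s in Ioi 0, Ω (p.1 - s, p.2)`, the integrand is continuous in `s`
(on `Ioi 0`, even on `Ici 0`) and bounded by `2 ‖k0‖ exp (β p.1.re) exp (-β s)`.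
(1) `Tm` is continuous on `D ×ˢ B` (dominated convergence, `continuousAt_of_dominated`; near `p0` the
bound `2 ‖k0‖ exp (β (p0.1.re + 1)) exp (-β s)` works).
(2) for fixed `z ∈ D` the function `γ ↦ Tm (z, γ)` is differentiable on `B`:
`differentiableOn_paramInt_Ioi` (`WB/ParamInt.lean`) with `m s = exp (-β s)` and
`f γ s = exp (β z) * K (z - s, γ)`.
(3) for fixed `γ ∈ B` and `z ∈ D`: `HasDerivAt (fun z => Tm β K (z, γ)) (Ω (z, γ)) z`. This is the proof of
`hp_prim` (`WD/Z1.lean`, `v = 1`, `κ = β`) word by word: there the domain is a half plane, here choose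
`r > 0` with `closedBall z (2 r) ⊆ D`; then `closedBall (z' - s) r ⊆ D` for `z' ∈ ball z r`, `s ≥ 0`, by
`h.shift`, which gives the Cauchy estimate
`‖deriv Ω (·, γ) (z' - s)‖ ≤ (1/r) 2 ‖k0‖ exp (β (z.re + 2 r - s))`.
(4) `Pool.Agent.SCV.osgood` on the open set `D ×ˢ B`.
(5) `∫ s in Ioi 0, exp (β (z - s)) = exp (β z) / β` (`integral_exp_neg_Ioi`-type lemmas, or
`integral_Ioi_of_hasDerivAt_of_tendsto`), hence `Tm p - exp (β z) (k0/β) = ∫ exp (β (z - s)) (K - k0)`,
norm `≤ exp (β z.re) (‖k0‖/100) / β`. -/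
theorem Mdl.prim {D : Set ℂ} {β : ℝ} {k0 : ℂ} {γ0 ρ0 : ℝ} {K : ℂ × ℂ → ℂ}
    (h : Mdl D β k0 γ0 ρ0 K) :
    AnalyticOnNhd ℂ (Tm β K) (D ×ˢ ball (γ0 : ℂ) ρ0) ∧ ∀ p ∈ D ×ˢ ball (γ0 : ℂ) ρ0,
      HasDerivAt (fun z => Tm β K (z, p.2)) (exp (β * p.1) * K p) p.1 ∧
      ‖Tm β K p - exp (β * p.1) * (k0 / β)‖ ≤ ‖exp (β * p.1) * (k0 / β)‖ / 100 := by
  have hβ := h.β_pos
  have hKn : ∀ p ∈ D ×ˢ ball (γ0 : ℂ) ρ0, ‖K p‖ ≤ 2 * ‖k0‖ := by
    intro p hp
    have h1 := h.near p hp
    have h2 : ‖K p‖ ≤ ‖K p - k0‖ + ‖k0‖ := by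
      have := norm_add_le (K p - k0) k0
      rwa [sub_add_cancel] at this
    have h3 := norm_nonneg k0
    linarith
  have hopen : IsOpen (D ×ˢ ball (γ0 : ℂ) ρ0) := h.op.prod isOpen_ball
  have hKd : ∀ p ∈ D ×ˢ ball (γ0 : ℂ) ρ0, DifferentiableAt ℂ K p := fun p hp =>
    (h.an p hp).differentiableAt
  have hexpn : ∀ z : ℂ, ‖exp (β * z)‖ = Real.exp (β * z.re) := by
    intro z
    rw [norm_exp]
    congr 1
    simp
  have hint : ∀ A : ℝ, Integrable (fun s : ℝ => A * Real.exp (-β * s))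
      (volume.restrict (Ioi 0)) := fun A =>
    (exp_neg_integrableOn_Ioi 0 hβ).const_mul A
  have hKz : ∀ γ ∈ ball (γ0 : ℂ) ρ0, DifferentiableOn ℂ (fun z => K (z, γ)) D := by
    intro γ hγ z hz
    have h1 : DifferentiableAt ℂ (fun z : ℂ => (z, γ)) z :=
      differentiableAt_id.prodMk (differentiableAt_const _)
    exact (DifferentiableAt.comp (f := fun z : ℂ => (z, γ)) z (hKd (z, γ) ⟨hz, hγ⟩)
      h1).differentiableWithinAt
  have hKγ : ∀ z ∈ D, DifferentiableOn ℂ (fun γ => K (z, γ)) (ball (γ0 : ℂ) ρ0) := by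
    intro z hz γ hγ
    have h1 : DifferentiableAt ℂ (fun γ : ℂ => (z, γ)) γ :=
      (differentiableAt_const _).prodMk differentiableAt_id
    exact (DifferentiableAt.comp (f := fun γ : ℂ => (z, γ)) γ (hKd (z, γ) ⟨hz, hγ⟩)
      h1).differentiableWithinAt
  have hmeas : ∀ p ∈ D ×ˢ ball (γ0 : ℂ) ρ0, AEStronglyMeasurable
      (fun s : ℝ => exp (β * (p.1 - s)) * K (p.1 - s, p.2)) (volume.restrict (Ioi 0)) := by
    intro p hp
    refine ContinuousOn.aestronglyMeasurable ?_ measurableSet_Ioi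
    refine ContinuousOn.mul ?_ ?_
    · fun_prop
    · refine ((hKz p.2 hp.2).continuousOn).comp (f := fun s : ℝ => p.1 - (s : ℂ)) ?_ ?_
      · fun_prop
      · intro s hs
        exact h.shift p.1 hp.1 s (le_of_lt hs)
  have hbd : ∀ p ∈ D ×ˢ ball (γ0 : ℂ) ρ0, ∀ s : ℝ, 0 ≤ s →
      ‖exp (β * (p.1 - s)) * K (p.1 - s, p.2)‖ ≤
        2 * ‖k0‖ * Real.exp (β * p.1.re) * Real.exp (-β * s) := by
    intro p hp s hs
    rw [norm_mul, hexpn, sub_re, ofReal_re]
    have h1 := hKn (p.1 - s, p.2) ⟨h.shift p.1 hp.1 s hs, hp.2⟩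
    have h2 : β * (p.1.re - s) = β * p.1.re + -β * s := by ring
    rw [h2, Real.exp_add]
    have h3 := mul_le_mul_of_nonneg_left h1
      (mul_pos (Real.exp_pos (β * p.1.re)) (Real.exp_pos (-β * s))).le
    refine h3.trans (le_of_eq ?_)
    ring
  have hI : ∀ p ∈ D ×ˢ ball (γ0 : ℂ) ρ0, Integrable
      (fun s : ℝ => exp (β * (p.1 - s)) * K (p.1 - s, p.2)) (volume.restrict (Ioi 0)) := by
    intro p hp
    refine (hint (2 * ‖k0‖ * Real.exp (β * p.1.re))).mono' (hmeas p hp) ?_
    exact (ae_restrict_iff' measurableSet_Ioi).2 (Eventually.of_forall fun s hs =>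
      hbd p hp s (le_of_lt hs))
  -- the derivative in the coordinate
  have hz : ∀ p ∈ D ×ˢ ball (γ0 : ℂ) ρ0,
      HasDerivAt (fun z => Tm β K (z, p.2)) (exp (β * p.1) * K p) p.1 := by
    intro p hp
    have h1 := T4Prim_gen h.op h.shift hβ (C := 2 * ‖k0‖)
      (Ω := fun z => exp (β * z) * K (z, p.2)) ?_ ?_ hp.1
    · exact h1
    · refine DifferentiableOn.mul ?_ (hKz p.2 hp.2)
      exact ((differentiable_id.const_mul (β : ℂ)).cexp).differentiableOn
    · intro X hX
      rw [norm_mul, hexpn]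
      have h2 := mul_le_mul_of_nonneg_left (hKn (X, p.2) ⟨hX, hp.2⟩)
        (Real.exp_pos (β * X.re)).le
      refine h2.trans (le_of_eq ?_)
      ring
  refine ⟨?_, fun p hp => ⟨hz p hp, ?_⟩⟩
  · refine Pool.Agent.SCV.osgood _ hopen _ ?_ (fun p hp => (hz p hp).differentiableAt) ?_
    · intro p0 hp0
      refine ContinuousAt.continuousWithinAt ?_
      refine continuousAt_of_dominated (μ := volume.restrict (Ioi (0 : ℝ)))
        (F := fun (p : ℂ × ℂ) (s : ℝ) => exp (β * (p.1 - s)) * K (p.1 - s, p.2))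
        (bound := fun s : ℝ => 2 * ‖k0‖ * Real.exp (β * (p0.1.re + 1)) * Real.exp (-β * s))
        ?_ ?_ (hint _) ?_
      · filter_upwards [hopen.mem_nhds hp0] with p hp
        exact hmeas p hp
      · have h1 : ∀ᶠ p : ℂ × ℂ in 𝓝 p0, p.1.re < p0.1.re + 1 := by
          refine (Continuous.tendsto ?_ p0).eventually_lt_const (by linarith)
          exact continuous_re.comp continuous_fst
        filter_upwards [hopen.mem_nhds hp0, h1] with p hp hp1
        refine (ae_restrict_iff' measurableSet_Ioi).2 (Eventually.of_forall fun s hs => ?_)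
        refine (hbd p hp s (le_of_lt hs)).trans ?_
        have h2 : Real.exp (β * p.1.re) ≤ Real.exp (β * (p0.1.re + 1)) :=
          Real.exp_le_exp.2 (mul_le_mul_of_nonneg_left hp1.le hβ.le)
        have h3 : 0 ≤ 2 * ‖k0‖ := by positivity
        exact mul_le_mul_of_nonneg_right (mul_le_mul_of_nonneg_left h2 h3) (Real.exp_pos _).le
      · refine (ae_restrict_iff' measurableSet_Ioi).2 (Eventually.of_forall fun s hs => ?_)
        refine ContinuousAt.mul ?_ ?_
        · fun_prop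
        · have h2 : ContinuousAt K ((p0.1 - (s : ℂ), p0.2)) :=
            (hKd (p0.1 - (s : ℂ), p0.2)
              ⟨h.shift p0.1 hp0.1 s (le_of_lt hs), hp0.2⟩).continuousAt
          refine ContinuousAt.comp (f := fun p : ℂ × ℂ => (p.1 - (s : ℂ), p.2)) h2 ?_
          fun_prop
    · intro p hp
      have h1 := Pool.Agent.MP_ae5b4e_an_WB.differentiableOn_paramInt_Ioi
        (U := ball (γ0 : ℂ) ρ0) isOpen_ball
        (m := fun s : ℝ => exp (-β * s)) (f := fun γ s => exp (β * p.1) * K (p.1 - s, γ))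
        ?_ ?_ ?_ ?_
      · have h2 := (h1 p.2 hp.2).differentiableAt (isOpen_ball.mem_nhds hp.2)
        refine h2.congr_of_eventuallyEq (Eventually.of_forall fun γ => ?_)
        simp only [Tm]
        refine setIntegral_congr_fun measurableSet_Ioi fun s _ => ?_
        rw [mul_right_comm, ← exp_add]
        congr 2
        ring
      · refine (Integrable.mono' (hint 1) ?_ (Eventually.of_forall fun s => ?_))
        · refine Continuous.aestronglyMeasurable ?_
          fun_prop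
        · have h2 := hexpn (-(s : ℂ))
          rw [show -(β : ℂ) * s = β * (-(s : ℂ)) by ring, h2, one_mul]
          refine le_of_eq ?_
          congr 1
          simp
      · intro s hs
        exact (hKγ _ (h.shift p.1 hp.1 s (le_of_lt hs))).const_mul _
      · intro γ hγ
        refine ContinuousOn.mul continuousOn_const ?_
        refine ((hKz γ hγ).continuousOn).comp (f := fun s : ℝ => p.1 - (s : ℂ)) ?_ ?_
        · fun_prop
        · intro s hs
          exact h.shift p.1 hp.1 s (le_of_lt hs)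
      · intro γ1 hγ1
        refine ⟨Real.exp (β * p.1.re) * (2 * ‖k0‖), ?_⟩
        filter_upwards [isOpen_ball.mem_nhds hγ1] with γ hγ s hs
        rw [norm_mul, hexpn]
        exact mul_le_mul_of_nonneg_left (hKn _ ⟨h.shift p.1 hp.1 s (le_of_lt hs), hγ⟩)
          (Real.exp_pos _).le
  · have hIc : Integrable (fun s : ℝ => exp (β * (p.1 - s)) * k0)
        (volume.restrict (Ioi 0)) := by
      refine (hint (Real.exp (β * p.1.re) * ‖k0‖)).mono' ?_ (Eventually.of_forall fun s => ?_)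
      · refine Continuous.aestronglyMeasurable ?_
        fun_prop
      · rw [norm_mul, hexpn, sub_re, ofReal_re,
          show β * (p.1.re - s) = β * p.1.re + -β * s by ring, Real.exp_add]
        refine le_of_eq ?_
        ring
    have hre0 : (-(β : ℂ)).re < 0 := by
      rw [neg_re, ofReal_re]
      linarith
    have e2 : ∫ s in Ioi (0 : ℝ), exp (β * (p.1 - s)) * k0 = exp (β * p.1) * (k0 / β) := by
      have h1 := integral_exp_mul_complex_Ioi hre0 0
      have h2 : ∀ s : ℝ, exp (β * (p.1 - s)) * k0 = exp (β * p.1) * k0 * exp (-(β : ℂ) * s) := by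
        intro s
        rw [show (β : ℂ) * (p.1 - s) = β * p.1 + -(β : ℂ) * s by ring, exp_add]
        ring
      have hβc : (β : ℂ) ≠ 0 := ofReal_ne_zero.2 hβ.ne'
      rw [setIntegral_congr_fun measurableSet_Ioi fun s _ => h2 s, integral_const_mul, h1]
      simp only [ofReal_zero, mul_zero, exp_zero]
      field_simp
    have e3 : Tm β K p - exp (β * p.1) * (k0 / β) =
        ∫ s in Ioi (0 : ℝ), (exp (β * (p.1 - s)) * K (p.1 - s, p.2) -
          exp (β * (p.1 - s)) * k0) := by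
      rw [integral_sub (hI p hp) hIc, e2, Tm]
    rw [e3]
    have h1 := norm_integral_le_of_norm_le (μ := volume.restrict (Ioi (0 : ℝ)))
      (f := fun s : ℝ => exp (β * (p.1 - s)) * K (p.1 - s, p.2) - exp (β * (p.1 - s)) * k0)
      (hint (Real.exp (β * p.1.re) * (‖k0‖ / 100)))
      ((ae_restrict_iff' measurableSet_Ioi).2 (Eventually.of_forall fun s hs => by
        rw [← mul_sub, norm_mul, hexpn, sub_re, ofReal_re,
          show β * (p.1.re - s) = β * p.1.re + -β * s by ring, Real.exp_add]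
        have h2 := h.near (p.1 - s, p.2) ⟨h.shift p.1 hp.1 s (le_of_lt hs), hp.2⟩
        have h3 := mul_le_mul_of_nonneg_left h2
          (mul_pos (Real.exp_pos (β * p.1.re)) (Real.exp_pos (-β * s))).le
        refine h3.trans (le_of_eq ?_)
        ring))
    refine h1.trans (le_of_eq ?_)
    rw [integral_const_mul, integral_exp_mul_Ioi (by linarith) 0, mul_zero, Real.exp_zero,
      norm_mul, hexpn, norm_div, norm_real, Real.norm_eq_abs, abs_of_pos hβ]
    field_simp

end Pool.Agent.MP_ae5b4e_an_T
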