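import Pool.Agent.Lib.MP_ae5b4e_an_T.Glue

/-!
# POR (iii), N2, section T, block T5: THE STRETCH

A compact stretch of good points (regular or with a slit neighbourhood) carries the data `A1.Sd`,
`A1.Slt` of the block A1.
-/

noncomputable section

namespace Pool.Agent.MP_ae5b4e_an_T

open Complex Set Filter Topology Metric
open Pool.Agent.MP_ae5b4e_an_WB
open Pool.Agent.MP_ae5b4e_an_WD
open Pool.Agent.MP_ae5b4e_an_A1 (SB Sd Slt isOpen_SB SB_conn)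

theorem exists_pos_le {α : Type*} (t : Finset α) (f : α → ℝ) (h : ∀ x ∈ t, 0 < f x) :
    ∃ m : ℝ, 0 < m ∧ ∀ x ∈ t, m ≤ f x := by
  classical
  induction t using Finset.induction_on with
  | empty => exact ⟨1, one_pos, by simp⟩
  | insert a s ha ih =>
    obtain ⟨m, hm, hms⟩ := ih fun x hx => h x (Finset.mem_insert_of_mem hx)
    refine ⟨min m (f a), lt_min hm (h a (Finset.mem_insert_self _ _)), fun x hx => ?_⟩
    rcases Finset.mem_insert.1 hx with rfl | hx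
    · exact min_le_right _ _
    · exact (min_le_left _ _).trans (hms x hx)

/-- the `i`-th element of a finite set of real numbers -/
def sN (F : Finset ℝ) (i : ℕ) : ℝ := if h : i < F.card then F.orderEmbOfFin rfl ⟨i, h⟩ else 0

theorem sN_mem {F : Finset ℝ} {i : ℕ} (h : i < F.card) : sN F i ∈ F := by
  unfold sN
  rw [dif_pos h]
  exact F.orderEmbOfFin_mem rfl _

theorem sN_lt {F : Finset ℝ} {i j : ℕ} (hij : i < j) (h : j < F.card) : sN F i < sN F j := by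
  unfold sN
  rw [dif_pos h, dif_pos (hij.trans h)]
  exact (F.orderEmbOfFin rfl).strictMono hij

theorem exists_sN {F : Finset ℝ} {s : ℝ} (hs : s ∈ F) : ∃ i < F.card, sN F i = s := by
  have h1 : s ∈ Set.range (F.orderEmbOfFin rfl) := by
    rw [F.range_orderEmbOfFin rfl]
    exact hs
  obtain ⟨i, hi⟩ := h1
  refine ⟨i, i.2, ?_⟩
  unfold sN
  rw [dif_pos i.2]
  exact hi

/-- the abscissas between the singular points -/
def Xs (F : Finset ℝ) (m₁ m₂ : ℝ) (i : ℕ) : ℝ :=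
  if i = 0 then m₁ else if i < F.card then (sN F (i - 1) + sN F i) / 2 else m₂

theorem Xs_lt {F : Finset ℝ} {m₁ m₂ : ℝ} (h1 : ∀ s ∈ F, m₁ < s) {i : ℕ}
    (hi : i < F.card) : Xs F m₁ m₂ i < sN F i := by
  unfold Xs
  split_ifs with h0
  · exact h1 _ (sN_mem hi)
  · have := sN_lt (F := F) (i := i - 1) (j := i) (by omega) hi
    linarith

theorem lt_Xs {F : Finset ℝ} {m₁ m₂ : ℝ} (h2 : ∀ s ∈ F, s < m₂) {i : ℕ}
    (hi : i < F.card) : sN F i < Xs F m₁ m₂ (i + 1) := by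
  unfold Xs
  rw [if_neg (by omega)]
  split_ifs with h0
  · have := sN_lt (F := F) (i := i) (j := i + 1) (by omega) h0
    rw [Nat.add_sub_cancel]
    linarith
  · exact h2 _ (sN_mem hi)

/-- **THE STRETCH.** -/
theorem stretch {vi : ℂ → ℝ} {L : ℂ × ℂ → ℂ} {γ : ℝ} (hγ : 0 < γ)
    (husc : UpperSemicontinuous vi) {x₁ x₂ : ℝ} (hx : x₁ < x₂) {Pr : ℝ → (ℂ → ℂ) → Prop}
    (h : ∀ x ∈ Icc x₁ x₂, Gpt vi L γ x (Pr x)) {Vm : ℂ → ℝ} {r₀ : ℝ} (hr₀ : 0 < r₀)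
    (hVc : ContinuousOn Vm (ball (γ : ℂ) r₀)) (hVle : ∀ g ∈ ball (γ : ℂ) r₀, vi g ≤ Vm g)
    {η : ℝ} (hη : 0 < η) :
    ∃ (y₁ y₂ r b : ℝ) (P : ℕ) (Tb : ℕ → ℂ → ℂ) (X : ℕ → ℝ) (Λ : ℂ × ℂ → ℂ),
      x₁ ≤ y₁ ∧ y₁ < x₁ + η ∧ x₂ - η < y₂ ∧ y₂ ≤ x₂ ∧ r ≤ r₀ ∧ b ≤ r₀ ∧
      (P ≠ 0 → X 0 < x₁ + η ∧ x₂ - η < X P) ∧
      Sd vi Vm γ r y₁ y₂ (vi γ) b P Tb X ∧
      Slt (Dv vi) L Λ (SB γ r y₁ y₂ (vi γ) b P Tb) ∧
      (∀ i < P, ∃ x ∈ Ioo x₁ x₂, ¬ RgN vi L γ ((x : ℂ) - vi γ * I) ∧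
        (∃ (R ρ : ℝ) (Λ' : ℂ × ℂ → ℂ), r ≤ ρ ∧
          SlN vi L γ ((x : ℂ) - vi γ * I) (Tb (i + 1)) R ρ Λ') ∧ Pr x (Tb (i + 1))) ∧
      ∀ x ∈ Ioo y₁ y₂, ¬ RgN vi L γ ((x : ℂ) - vi γ * I) →
        ∃ i < P, (x : ℂ) - vi γ * I = Tb (i + 1) γ := by
  classical
  obtain ⟨v₀, hv₀⟩ : ∃ v₀, v₀ = vi γ := ⟨_, rfl⟩
  -- the singular points
  have hfin := finite_sing h
  obtain ⟨F, hFd⟩ : ∃ F : Finset ℝ, F = hfin.toFinset.filter fun s => x₁ < s ∧ s < x₂ := ⟨_, rfl⟩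
  have hF : ∀ s, s ∈ F ↔ (x₁ < s ∧ s < x₂) ∧ ¬ RgN vi L γ ((s : ℂ) - vi γ * I) := by
    intro s
    rw [hFd, Finset.mem_filter, hfin.mem_toFinset]
    constructor
    · rintro ⟨⟨-, h1⟩, h2⟩
      exact ⟨h2, h1⟩
    · rintro ⟨h2, h1⟩
      exact ⟨⟨⟨h2.1.le, h2.2.le⟩, h1⟩, h2⟩
  have hsl : ∀ s ∈ F, ∃ (Tb : ℂ → ℂ) (R ρ : ℝ) (Λ : ℂ × ℂ → ℂ),
      SlN vi L γ ((s : ℂ) - vi γ * I) Tb R ρ Λ ∧ Pr s Tb := by
    intro s hs
    obtain ⟨h1, h2⟩ := (hF s).1 hs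
    rcases h s ⟨h1.1.le, h1.2.le⟩ with h3 | h3
    · exact absurd h3 h2
    · exact h3
  choose! T Rs ρs Λs hT hPr using hsl
  -- the ends
  obtain ⟨m₁, hm₁, hm₁η, hm₁m, hm₁F⟩ : ∃ m₁, x₁ < m₁ ∧ m₁ < x₁ + η ∧ m₁ < (x₁ + x₂) / 2 ∧
      ∀ s ∈ F, m₁ < s := by
    have e1 : ∀ᶠ m in 𝓝[>] x₁, x₁ < m := self_mem_nhdsWithin
    have e2 : ∀ᶠ m in 𝓝[>] x₁, m < x₁ + η := mem_nhdsWithin_of_mem_nhds (Iio_mem_nhds (by linarith))
    have e3 : ∀ᶠ m in 𝓝[>] x₁, m < (x₁ + x₂) / 2 :=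
      mem_nhdsWithin_of_mem_nhds (Iio_mem_nhds (by linarith))
    have e4 : ∀ᶠ m in 𝓝[>] x₁, ∀ s ∈ F, m < s := by
      rw [Filter.eventually_all_finset]
      intro s hs
      exact mem_nhdsWithin_of_mem_nhds (Iio_mem_nhds ((hF s).1 hs).1.1)
    obtain ⟨m, q1, q2, q3, q4⟩ := (e1.and (e2.and (e3.and e4))).exists
    exact ⟨m, q1, q2, q3, q4⟩
  obtain ⟨m₂, hm₂, hm₂η, hm₂m, hm₂F⟩ : ∃ m₂, m₂ < x₂ ∧ x₂ - η < m₂ ∧ (x₁ + x₂) / 2 < m₂ ∧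
      ∀ s ∈ F, s < m₂ := by
    have e1 : ∀ᶠ m in 𝓝[<] x₂, m < x₂ := self_mem_nhdsWithin
    have e2 : ∀ᶠ m in 𝓝[<] x₂, x₂ - η < m := mem_nhdsWithin_of_mem_nhds (Ioi_mem_nhds (by linarith))
    have e3 : ∀ᶠ m in 𝓝[<] x₂, (x₁ + x₂) / 2 < m :=
      mem_nhdsWithin_of_mem_nhds (Ioi_mem_nhds (by linarith))
    have e4 : ∀ᶠ m in 𝓝[<] x₂, ∀ s ∈ F, s < m := by
      rw [Filter.eventually_all_finset]
      intro s hs
      exact mem_nhdsWithin_of_mem_nhds (Ioi_mem_nhds ((hF s).1 hs).1.2)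
    obtain ⟨m, q1, q2, q3, q4⟩ := (e1.and (e2.and (e3.and e4))).exists
    exact ⟨m, q1, q2, q3, q4⟩
  obtain ⟨y₁, hy₁⟩ : ∃ y₁, y₁ = (x₁ + m₁) / 2 := ⟨_, rfl⟩
  obtain ⟨y₂, hy₂⟩ : ∃ y₂, y₂ = (x₂ + m₂) / 2 := ⟨_, rfl⟩
  have hyF : ∀ x ∈ Icc y₁ y₂, ¬ RgN vi L γ ((x : ℂ) - vi γ * I) → x ∈ F := by
    intro x hxy hn
    exact (hF x).2 ⟨⟨by linarith [hxy.1], by linarith [hxy.2]⟩, hn⟩
  -- local continuations
  have hloc : ∀ x ∈ Icc y₁ y₂, ∃ (R : ℝ) (Λ : ℂ × ℂ → ℂ), Loc vi L γ (F : Set ℝ) T x R Λ := by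
    intro x hxy
    by_cases hn : RgN vi L γ ((x : ℂ) - vi γ * I)
    · exact loc_of_rgn hn
    · have hxF := hyF x hxy hn
      obtain ⟨R', hR'⟩ := loc_of_sln (F := (F : Set ℝ)) (T := T) (Finset.mem_coe.2 hxF) (hT x hxF)
      exact ⟨R', _, hR'⟩
  choose! Rx Λx hL using hloc
  obtain ⟨t, ht, hcov⟩ := (isCompact_Icc (a := y₁) (b := y₂)).elim_nhds_subcover
    (fun x => ball x (Rx x)) (fun x hxy => ball_mem_nhds x (hL x hxy).1)
  obtain ⟨b₀, hb₀, hb₀t⟩ := exists_pos_le t Rx fun x hxt => (hL x (ht x hxt)).1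
  obtain ⟨b, hb⟩ : ∃ b, b = min b₀ r₀ := ⟨_, rfl⟩
  have hb0 : 0 < b := by rw [hb]; exact lt_min hb₀ hr₀
  have hbt : ∀ x ∈ t, b ≤ Rx x := fun x hxt => by
    rw [hb]
    exact (min_le_left _ _).trans (hb₀t x hxt)
  obtain ⟨ρ₀, hρ₀, hρ₀F⟩ := exists_pos_le F ρs fun s hs => (hT s hs).pos
  -- the radius of the parameter disc
  obtain ⟨δ, hδ, hδv, hδT⟩ : ∃ δ : ℝ, 0 < δ ∧ (∀ g ∈ ball (γ : ℂ) δ, vi g < vi γ + b / 2) ∧
      ∀ s ∈ F, ∀ g ∈ ball (γ : ℂ) δ, ‖T s g - T s γ‖ < b / 2 := by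
    have e1 : ∀ᶠ g in 𝓝 (γ : ℂ), vi g < vi γ + b / 2 := husc (γ : ℂ) _ (by linarith)
    have e2 : ∀ᶠ g in 𝓝 (γ : ℂ), ∀ s ∈ F, ‖T s g - T s γ‖ < b / 2 := by
      rw [Filter.eventually_all_finset]
      intro s hs
      have hc : ContinuousAt (T s) (γ : ℂ) :=
        ((hT s hs).Tan _ (mem_ball_self (hT s hs).pos)).continuousAt
      have := Metric.continuousAt_iff'.1 hc (b / 2) (by linarith)
      filter_upwards [this] with g hg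
      rwa [dist_eq_norm] at hg
    obtain ⟨δ, hδ, hsub⟩ := Metric.mem_nhds_iff.1 (e1.and e2)
    exact ⟨δ, hδ, fun g hg => (hsub hg).1, fun s hs g hg => (hsub hg).2 s hs⟩
  obtain ⟨r, hr⟩ : ∃ r, r = min (min b (γ / 2)) (min (min δ ρ₀) r₀) := ⟨_, rfl⟩
  have hr0 : 0 < r := by
    rw [hr]
    exact lt_min (lt_min hb0 (by linarith)) (lt_min (lt_min hδ hρ₀) hr₀)
  have hrb : r ≤ b := by rw [hr]; exact (min_le_left _ _).trans (min_le_left _ _)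
  have hrγ : r ≤ γ / 2 := by rw [hr]; exact (min_le_left _ _).trans (min_le_right _ _)
  have hrδ : r ≤ δ := by
    rw [hr]
    exact (min_le_right _ _).trans ((min_le_left _ _).trans (min_le_left _ _))
  have hrρ : r ≤ ρ₀ := by
    rw [hr]
    exact (min_le_right _ _).trans ((min_le_left _ _).trans (min_le_right _ _))
  have hrr₀ : r ≤ r₀ := by rw [hr]; exact (min_le_right _ _).trans (min_le_right _ _)
  obtain ⟨Tb, hTb⟩ : ∃ Tb : ℕ → ℂ → ℂ, Tb = fun i => T (sN F (i - 1)) := ⟨_, rfl⟩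
  have hTb1 : ∀ i, Tb (i + 1) = T (sN F i) := fun i => by rw [hTb]; rfl
  have hTγ : ∀ s ∈ F, T s γ = (s : ℂ) - vi γ * I := fun s hs => (hT s hs).T0
  have hSd : Sd vi Vm γ r y₁ y₂ (vi γ) b F.card Tb (Xs F m₁ m₂) := by
    refine ⟨hγ, hr0, by linarith, hb0, ?_, ?_, ?_, ?_, ?_, ?_, ?_, hVc.mono (ball_subset_ball hrr₀),
      fun g hg => hVle g (ball_subset_ball hrr₀ hg), ?_, hVle _ (mem_ball_self hr₀)⟩
    · have : Xs F m₁ m₂ 0 = m₁ := rfl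
      rw [this]
      linarith
    · have h1 : Xs F m₁ m₂ F.card = m₁ ∨ Xs F m₁ m₂ F.card = m₂ := by
        unfold Xs
        split_ifs with h0 h00
        · exact Or.inl rfl
        · exact absurd h00 (lt_irrefl _)
        · exact Or.inr rfl
      rcases h1 with h1 | h1 <;> rw [h1] <;> linarith
    · intro i hi
      exact (Xs_lt hm₁F hi).trans (lt_Xs hm₂F hi)
    · intro i hi
      rw [hTb1]
      have hs := sN_mem hi
      exact ((hT _ hs).Tan.mono (ball_subset_ball (hrρ.trans (hρ₀F _ hs)))).continuousOn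
    · intro i hi
      rw [hTb1, hTγ _ (sN_mem hi)]
      simp
    · intro i hi
      rw [hTb1, hTγ _ (sN_mem hi)]
      have := Xs_lt (m₂ := m₂) hm₁F hi
      simpa using this
    · intro i hi
      rw [hTb1, hTγ _ (sN_mem hi)]
      have := lt_Xs (m₁ := m₁) hm₂F hi
      simpa using this
    · intro i hi g hg
      rw [hTb1]
      have hs := sN_mem hi
      exact (hT _ hs).not_mem g (ball_subset_ball (hrρ.trans (hρ₀F _ hs)) hg)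
  -- the slit box lies in the local boxes
  have hSB : ∀ p ∈ SB γ r y₁ y₂ (vi γ) b F.card Tb, ∀ x ∈ t, |p.1.re - x| < Rx x →
      p ∈ Bx (vi γ) γ (F : Set ℝ) T x (Rx x) := by
    rintro p ⟨h1, h2, h3, h4, h5⟩ x hxt hpx
    refine ⟨hpx, h4.trans_le (hbt x hxt), ball_subset_ball (hrb.trans (hbt x hxt)) h1,
      fun s hs => ?_⟩
    obtain ⟨i, hi, hsi⟩ := exists_sN (Finset.mem_coe.1 hs)
    have := h5 i hi
    rwa [hTb1, hsi] at this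
  have hcovS : ∀ p ∈ SB γ r y₁ y₂ (vi γ) b F.card Tb, ∃ x ∈ t, |p.1.re - x| < Rx x := by
    rintro p ⟨h1, h2, h3, h4, h5⟩
    obtain ⟨x, hxt, hpx⟩ := mem_iUnion₂.1 (hcov ⟨h2.le, h3.le⟩)
    refine ⟨x, hxt, ?_⟩
    rwa [mem_ball, Real.dist_eq] at hpx
  have hne : ∀ g ∈ ball (γ : ℂ) r, g ≠ 0 := by
    rintro g hg rfl
    rw [mem_ball, dist_eq_norm, zero_sub, norm_neg, Complex.norm_real, Real.norm_eq_abs,
      abs_of_pos hγ] at hg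
    linarith
  obtain ⟨Λ, hΛ⟩ : ∃ Λ : ℂ × ℂ → ℂ, Λ = fun p =>
    if hc : ∃ x, x ∈ t ∧ |p.1.re - x| < Rx x then Λx hc.choose p else 0 := ⟨_, rfl⟩
  have hglob : ∀ p ∈ SB γ r y₁ y₂ (vi γ) b F.card Tb, ∀ x ∈ t, |p.1.re - x| < Rx x →
      Λ p = Λx x p := by
    intro p hp x hxt hpx
    have hc : ∃ x, x ∈ t ∧ |p.1.re - x| < Rx x := ⟨x, hxt, hpx⟩
    have e : Λ p = Λx hc.choose p := by
      rw [hΛ]
      exact dif_pos hc
    rw [e]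
    obtain ⟨c1, c2⟩ := hc.choose_spec
    exact loc_uniq F.finite_toSet (hL _ (ht _ c1)) (hL x (ht x hxt)) (hSB p hp _ c1 c2)
      (hSB p hp x hxt hpx) (hne _ hp.1) hp.2.2.2.1 (hbt _ c1) (hbt x hxt)
      (by linarith [hδv p.2 (ball_subset_ball hrδ hp.1)])
  have hopen : IsOpen (SB γ r y₁ y₂ (vi γ) b F.card Tb) := isOpen_SB hSd
  have hlow : ∀ g ∈ ball (γ : ℂ) r, ∀ s ∈ F, -vi γ - b / 2 < (T s g).im := by
    intro g hg s hs
    have h1 := hδT s hs g (ball_subset_ball hrδ hg)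
    have h2 := (abs_im_le_norm (T s g - T s γ)).trans_lt h1
    rw [hTγ s hs] at h2
    have h3 : (T s g - ((s : ℂ) - vi γ * I)).im = (T s g).im + vi γ := by simp
    rw [h3, abs_lt] at h2
    linarith [h2.1]
  refine ⟨y₁, y₂, r, b, F.card, Tb, Xs F m₁ m₂, Λ, by linarith, by linarith, by linarith,
    by linarith, hrr₀, by rw [hb]; exact min_le_right _ _, fun hP => ⟨hm₁η, ?_⟩, hSd, ?_, ?_, ?_⟩
  · have h1 : Xs F m₁ m₂ F.card = m₂ := by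
      unfold Xs
      rw [if_neg hP, if_neg (lt_irrefl _)]
    rw [h1]
    exact hm₂η
  · refine ⟨hopen, ?_, ?_, fun p hp => hne _ hp.1, ?_, ?_, ?_⟩
    · intro p hp
      obtain ⟨x, hxt, hpx⟩ := hcovS p hp
      have h1 : AnalyticAt ℂ (Λx x) p := (hL x (ht x hxt)).2.1 p (hSB p hp x hxt hpx)
      refine h1.congr ?_
      have c1 : Continuous fun q : ℂ × ℂ => q.1.re := continuous_re.comp continuous_fst
      have e1 : ∀ᶠ q : ℂ × ℂ in 𝓝 p, |q.1.re - x| < Rx x :=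
        (isOpen_lt (c1.sub continuous_const).abs continuous_const).mem_nhds hpx
      filter_upwards [e1, hopen.mem_nhds hp] with q q1 q2
      exact (hglob q q2 x hxt q1).symm
    · intro p hp
      obtain ⟨x, hxt, hpx⟩ := hcovS p hp
      rw [hglob p hp x hxt hpx]
      exact (hL x (ht x hxt)).2.2.1 p (hSB p hp x hxt hpx)
    · intro g
      by_cases hg : g ∈ ball (γ : ℂ) r
      · refine SB_conn hSd fun i hi => ?_
        rw [hTb1]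
        linarith [hlow g hg _ (sN_mem hi)]
      · have : {τ : ℂ | (τ, g) ∈ SB γ r y₁ y₂ (vi γ) b F.card Tb} = ∅ :=
          Set.eq_empty_of_forall_notMem fun τ hτ => hg hτ.1
        rw [this]
        exact isPreconnected_empty
    · rintro p ⟨h1, h2, h3, h4, h5⟩
      refine ⟨⟨p.1.re, -vi γ - 3 / 4 * b⟩, ⟨h1, h2, h3, ?_, fun i hi hc => ?_⟩, hne _ h1, ?_⟩
      · show |-vi γ - 3 / 4 * b + vi γ| < b
        rw [abs_lt]
        constructor <;> linarith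
      · rw [hTb1] at hc
        have h6 := hlow p.2 h1 _ (sN_mem hi)
        have h7 : (T (sN F i) p.2).im ≤ -vi γ - 3 / 4 * b := hc.2
        linarith
      · show -vi γ - 3 / 4 * b < -vi p.2
        linarith [hδv p.2 (ball_subset_ball hrδ h1)]
    · intro p hp hpD
      obtain ⟨x, hxt, hpx⟩ := hcovS p hp
      rw [hglob p hp x hxt hpx]
      exact (hL x (ht x hxt)).2.2.2 p (hSB p hp x hxt hpx) hpD
  · intro i hi
    have hs := sN_mem hi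
    obtain ⟨h1, h2⟩ := (hF _).1 hs
    refine ⟨sN F i, h1, h2, ⟨Rs (sN F i), ρs (sN F i), Λs (sN F i), hrρ.trans (hρ₀F _ hs), ?_⟩, ?_⟩
    · rw [hTb1]
      exact hT _ hs
    · rw [hTb1]
      exact hPr _ hs
  · intro x hxy hn
    obtain ⟨i, hi, hsi⟩ := exists_sN (hyF x ⟨hxy.1.le, hxy.2.le⟩ hn)
    refine ⟨i, hi, ?_⟩
    rw [hTb1, hTγ _ (sN_mem hi), hsi]

end Pool.Agent.MP_ae5b4e_an_T
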