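import Pool.Agent.Lib.MP_ae5b4e_an_T.T3Path

/-!
# POR (iii), N2, section T, block T3: the vertical path, `q l ≠ 0`
-/

noncomputable section

namespace Pool.Agent.MP_ae5b4e_an_T

open Complex Set Filter Topology Metric
open Pool.Agent.MP_ae5b4e_an_WB
open Pool.Agent.MP_ae5b4e_an_WD
open Pool.Agent.MP_ae5b4e_an_M (S1 C1f Gf)

/-- the states of the vertical path, `q l ≠ 0`: they converge to a regular state, or tip.

Proof. Let `r0 ^ 2 = q l`, `r0 ≠ 0`. `q (F s) → q l` (`q` is continuous at `l`), so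
`q (F s) / q l → 1`; let `s1 ∈ (0, s0]` be such that `q (F s) / q l ∈ slitPlane` for `s ∈ (0, s1]`, and
`r s = r0 * exp (log (q (F s) / q l) / 2)`: continuous on `(0, s1]`, `r s ^ 2 = q (F s)`, `r s ≠ 0`,
`r s → r0` (`continuousAt_clog` at `1`). `y s = r s * a s`: continuous on `(0, s1]`, `sin (y s) ≠ 0`,
`G (y s) = r s * γ` (`state_G`), `→ w = r0 γ ≠ 0`.
If `w ^ 2 ≠ tipc`: `av_regular`: `y s → y1`, `sin y1 ≠ 0`, hence `a s = y s / r s → α1 = y1 / r0`,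
`q l * α1 ^ 2 = y1 ^ 2` and `S1 (y1 ^ 2) ≠ 0` (`S1_sq y1 : y1 * S1 (y1 ^ 2) = sin y1`): first alternative.
If `w ^ 2 = tipc`, i.e. `γ² q l = tipc`: `av_tip`: either the same conclusion, or `|Im y| → ∞`, then
`‖q (F s) * a s ^ 2‖ = ‖y s‖ ^ 2 ≥ (Im y s) ^ 2 → ∞`: second alternative. -/
theorem path_A {q : ℂ → ℂ} (hq : DifferentiableOn ℂ q Hm) {γ : ℝ} (hγ : 0 < γ) {l : ℂ}
    (hl : l.im < 0) {F a : ℝ → ℂ} {s0 : ℝ} (hs0 : 0 < s0) (hFc : ContinuousOn F (Ioc 0 s0))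
    (hac : ContinuousOn a (Ioc 0 s0)) (hFl : ∀ s ∈ Ioc (0 : ℝ) s0, (F s).im < 0)
    (hS : ∀ s ∈ Ioc (0 : ℝ) s0, S1 (q (F s) * a s ^ 2) ≠ 0)
    (hG : ∀ s ∈ Ioc (0 : ℝ) s0, Gf q (F s) (a s) = γ) (hF : Tendsto F (𝓝[>] 0) (𝓝 l))
    (hql : q l ≠ 0) :
    (∃ α1 : ℂ, S1 (q l * α1 ^ 2) ≠ 0 ∧ Tendsto a (𝓝[>] 0) (𝓝 α1)) ∨
      ((γ : ℂ) ^ 2 * q l = tipc ∧ Tendsto (fun s => ‖q (F s) * a s ^ 2‖) (𝓝[>] 0) atTop) := by
  have hopen : IsOpen Hm := isOpen_lt continuous_im continuous_const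
  have hqc : ContinuousAt q l := (hq.differentiableAt (hopen.mem_nhds hl)).continuousAt
  have hqF : Tendsto (fun s => q (F s)) (𝓝[>] 0) (𝓝 (q l)) := hqc.tendsto.comp hF
  have hquo : Tendsto (fun s => q (F s) / q l) (𝓝[>] 0) (𝓝 1) := by
    have h := hqF.div_const (q l)
    rwa [div_self hql] at h
  have hsl : ∀ᶠ s in 𝓝[>] (0 : ℝ), q (F s) / q l ∈ slitPlane :=
    hquo.eventually (isOpen_slitPlane.mem_nhds one_mem_slitPlane)
  obtain ⟨s2, hs2, hs2'⟩ := mem_nhdsGT_iff_exists_Ioc_subset.1 hsl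
  have hs2p : 0 < s2 := hs2
  obtain ⟨s1, hs1, hs10, hs1sl⟩ : ∃ s1 : ℝ, 0 < s1 ∧ s1 ≤ s0 ∧
      ∀ s ∈ Ioc (0 : ℝ) s1, q (F s) / q l ∈ slitPlane :=
    ⟨min s0 s2, lt_min hs0 hs2p, min_le_left _ _,
      fun s hs => hs2' ⟨hs.1, hs.2.trans (min_le_right _ _)⟩⟩
  have hsub : Ioc (0 : ℝ) s1 ⊆ Ioc 0 s0 := Ioc_subset_Ioc_right hs10
  obtain ⟨r0, hr0⟩ := IsAlgClosed.exists_pow_nat_eq (q l) (n := 2) (by norm_num)
  have hr00 : r0 ≠ 0 := by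
    rintro rfl
    exact hql (by rw [← hr0]; simp)
  set r : ℝ → ℂ := fun s => r0 * exp (log (q (F s) / q l) / 2) with hr
  have hqFne : ∀ s ∈ Ioc (0 : ℝ) s1, q (F s) / q l ≠ 0 := fun s hs =>
    slitPlane_ne_zero (hs1sl s hs)
  have hr2 : ∀ s ∈ Ioc (0 : ℝ) s1, r s ^ 2 = q (F s) := by
    intro s hs
    simp only [hr]
    rw [mul_pow, hr0, ← Complex.exp_nat_mul]
    rw [show ((2 : ℕ) : ℂ) * (log (q (F s) / q l) / 2) = log (q (F s) / q l) by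
      push_cast
      ring]
    rw [exp_log (hqFne s hs), mul_div_cancel₀ _ hql]
  have hrne : ∀ s, r s ≠ 0 := fun s => mul_ne_zero hr00 (exp_ne_zero _)
  have hrc : ContinuousOn r (Ioc 0 s1) := by
    have h1 : ContinuousOn (fun s => q (F s) / q l) (Ioc 0 s1) :=
      (hq.continuousOn.comp (hFc.mono hsub) (fun s hs => hFl s (hsub hs))).div_const _
    exact continuousOn_const.mul ((h1.clog hs1sl).div_const 2).cexp
  have hrt : Tendsto r (𝓝[>] 0) (𝓝 r0) := by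
    have h1 : Tendsto (fun s => log (q (F s) / q l)) (𝓝[>] 0) (𝓝 (log 1)) :=
      hquo.clog one_mem_slitPlane
    rw [log_one] at h1
    have h2 : Tendsto (fun s => exp (log (q (F s) / q l) / 2)) (𝓝[>] 0) (𝓝 (exp (0 / 2))) :=
      (h1.div_const 2).cexp
    rw [zero_div, exp_zero] at h2
    have h3 := h2.const_mul r0
    rwa [mul_one] at h3
  have hyc : ContinuousOn (fun s => r s * a s) (Ioc 0 s1) := hrc.mul (hac.mono hsub)
  have hγ' : (γ : ℂ) ≠ 0 := by exact_mod_cast hγ.ne'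
  have hst : ∀ s ∈ Ioc (0 : ℝ) s1, sin (r s * a s) ≠ 0 ∧ G (r s * a s) = r s * γ := fun s hs =>
    state_G hγ' (hS s (hsub hs)) (hG s (hsub hs)) (hr2 s hs) (hrne s)
  have hGt : Tendsto (fun s => G (r s * a s)) (𝓝[>] 0) (𝓝 (r0 * γ)) := by
    refine (hrt.mul_const (γ : ℂ)).congr' ?_
    filter_upwards [Ioc_mem_nhdsGT hs1] with s hs
    exact (hst s hs).2.symm
  have hfirst : (∃ y1, sin y1 ≠ 0 ∧ G y1 = r0 * γ ∧
      Tendsto (fun s => r s * a s) (𝓝[>] 0) (𝓝 y1)) →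
      ∃ α1 : ℂ, S1 (q l * α1 ^ 2) ≠ 0 ∧ Tendsto a (𝓝[>] 0) (𝓝 α1) := by
    rintro ⟨y1, hy1, -, hy1t⟩
    refine ⟨y1 / r0, ?_, ?_⟩
    · have h1 : q l * (y1 / r0) ^ 2 = y1 ^ 2 := by
        rw [← hr0]
        field_simp
      rw [h1]
      intro h2
      apply hy1
      rw [← Pool.Agent.MP_ae5b4e_an_M.S1_sq y1, h2, mul_zero]
    · have h1 : Tendsto (fun s => r s * a s / r s) (𝓝[>] 0) (𝓝 (y1 / r0)) :=
        hy1t.div hrt hr00
      refine h1.congr fun s => ?_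
      rw [mul_div_cancel_left₀ _ (hrne s)]
  have hw0 : r0 * (γ : ℂ) ≠ 0 := mul_ne_zero hr00 hγ'
  have hw2 : (r0 * (γ : ℂ)) ^ 2 = (γ : ℂ) ^ 2 * q l := by
    rw [mul_pow, hr0, mul_comm]
  by_cases h2 : (r0 * (γ : ℂ)) ^ 2 = tipc
  · rcases av_tip hs1 hyc (fun s hs => (hst s hs).1) hGt h2 with h | ⟨h, -⟩
    · exact Or.inl (hfirst h)
    · refine Or.inr ⟨by rw [← hw2, h2], ?_⟩
      have h3 : Tendsto (fun s => |(r s * a s).im| ^ 2) (𝓝[>] 0) atTop :=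
        (tendsto_pow_atTop (by norm_num)).comp h
      refine tendsto_atTop_mono' _ ?_ h3
      filter_upwards [Ioc_mem_nhdsGT hs1] with s hs
      have h4 : q (F s) * a s ^ 2 = (r s * a s) ^ 2 := by rw [mul_pow, hr2 s hs]
      rw [h4, norm_pow]
      exact pow_le_pow_left₀ (abs_nonneg _) (abs_im_le_norm _) 2
  · exact Or.inl (hfirst (av_regular hs1 hyc (fun s hs => (hst s hs).1) hGt hw0 h2))

end Pool.Agent.MP_ae5b4e_an_T
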