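import Pool.Agent.Lib.MP_ae5b4e_an_T.T3Path
import Pool.Agent.Lib.MP_ae5b4e_an_WD.AV

/-!
# POR (iii), N2, section T, block T3: the vertical path, `q l = 0`
-/

noncomputable section

namespace Pool.Agent.MP_ae5b4e_an_T

open Complex Set Filter Topology Metric
open Pool.Agent.MP_ae5b4e_an_WB
open Pool.Agent.MP_ae5b4e_an_WD
open Pool.Agent.MP_ae5b4e_an_M (S1 C1f Gf)

/-- the states of the vertical path, `q l = 0`: they accumulate at the regular state `(l, γ)`, or the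
point is of type `Z_k`, `k ≥ 1`.

Proof. If `q (F s) = 0` for `s` arbitrarily small (`∃ᶠ s in 𝓝[>] 0`), then for these `s`
`γ = Gf q (F s) (a s) = a s` (`S1_zero`, `C1f_zero`: `Gf = α * 1 * exp (1 - 1 / 1)`): first alternative.
Otherwise `q (F s) ≠ 0` on some `(0, s1]`, `s1 ≤ s0`; `r` from `sqrt_Ioc` for `s ↦ q (F s)` (continuous: `q` is
continuous on `Hm`, `hFl`), `r s → 0` (`‖r s‖ ^ 2 = ‖q (F s)‖ → 0`), `y s = r s * a s`, `sin (y s) ≠ 0`,
`G (y s) = r s * γ → 0` (`state_G`), `av_zero`: `y s → k π`, `k : ℤ`. If `k ≠ 0`: second alternative with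
`k.natAbs` (`q (F s) * a s ^ 2 = y s ^ 2 → (k π) ^ 2 = (k.natAbs π) ^ 2`). If `k = 0`: `y s → 0` and
`a s = y s / r s = γ * y s / G (y s) → γ` (`G_div_tendsto`, inverse; `G (y s) = r s γ ≠ 0`): first
alternative. -/
theorem path_B {q : ℂ → ℂ} (hq : DifferentiableOn ℂ q Hm) {γ : ℝ} (hγ : 0 < γ) {l : ℂ}
    (hl : l.im < 0) {F a : ℝ → ℂ} {s0 : ℝ} (hs0 : 0 < s0) (hFc : ContinuousOn F (Ioc 0 s0))
    (hac : ContinuousOn a (Ioc 0 s0)) (hFl : ∀ s ∈ Ioc (0 : ℝ) s0, (F s).im < 0)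
    (hS : ∀ s ∈ Ioc (0 : ℝ) s0, S1 (q (F s) * a s ^ 2) ≠ 0)
    (hG : ∀ s ∈ Ioc (0 : ℝ) s0, Gf q (F s) (a s) = γ) (hF : Tendsto F (𝓝[>] 0) (𝓝 l))
    (hql : q l = 0) :
    (∀ ε : ℝ, 0 < ε → ∃ᶠ s in 𝓝[>] (0 : ℝ), ‖a s - γ‖ < ε) ∨
      ∃ k : ℕ, 1 ≤ k ∧
        Tendsto (fun s => q (F s) * a s ^ 2) (𝓝[>] 0) (𝓝 ((k * Real.pi : ℂ) ^ 2)) := by
  have hHm : IsOpen Hm := by
    exact isOpen_lt Complex.continuous_im continuous_const
  have hqc : ContinuousOn q Hm := hq.continuousOn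
  have hql' : Tendsto (fun s => q (F s)) (𝓝[>] 0) (𝓝 0) := by
    rw [← hql]
    exact ((hqc.continuousAt (hHm.mem_nhds hl)).tendsto).comp hF
  by_cases hfr : ∃ᶠ s in 𝓝[>] (0 : ℝ), q (F s) = 0
  · left
    intro ε hε
    have hmem : ∀ᶠ s in 𝓝[>] (0 : ℝ), s ∈ Ioc (0 : ℝ) s0 := Ioc_mem_nhdsGT hs0
    refine (hfr.and_eventually hmem).mono ?_
    rintro s ⟨h1, h2⟩
    have h3 := hG s h2
    unfold Gf at h3
    rw [h1, zero_mul, Pool.Agent.MP_ae5b4e_an_M.S1_zero, Pool.Agent.MP_ae5b4e_an_M.C1f_zero] at h3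
    rw [mul_one, div_one, sub_self, Complex.exp_zero, mul_one] at h3
    rw [h3, sub_self, norm_zero]
    exact hε
  · rw [Filter.not_frequently] at hfr
    obtain ⟨s1, hs1, hb⟩ := (mem_nhdsGT_iff_exists_Ioc_subset).1
      (Filter.inter_mem hfr (Ioc_mem_nhdsGT hs0))
    have hs1' : (0 : ℝ) < s1 := hs1
    have hne : ∀ s ∈ Ioc (0 : ℝ) s1, q (F s) ≠ 0 := fun s hs => (hb hs).1
    have hin : ∀ s ∈ Ioc (0 : ℝ) s1, s ∈ Ioc (0 : ℝ) s0 := fun s hs => (hb hs).2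
    have hqF : ContinuousOn (fun s => q (F s)) (Ioc 0 s1) :=
      hqc.comp (hFc.mono hin) fun s hs => hFl s (hin s hs)
    obtain ⟨r, hrc, hr⟩ := sqrt_Ioc hs1' hqF hne
    have hr0 : ∀ s ∈ Ioc (0 : ℝ) s1, r s ≠ 0 := fun s hs h0 => by
      apply hne s hs
      rw [← hr s hs, h0]
      norm_num
    have hγ' : (γ : ℂ) ≠ 0 := by exact_mod_cast hγ.ne'
    have hst : ∀ s ∈ Ioc (0 : ℝ) s1, sin (r s * a s) ≠ 0 ∧ G (r s * a s) = r s * γ := fun s hs =>
      state_G hγ' (hS s (hin s hs)) (hG s (hin s hs)) (hr s hs) (hr0 s hs)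
    have hmem1 : ∀ᶠ s in 𝓝[>] (0 : ℝ), s ∈ Ioc (0 : ℝ) s1 := Ioc_mem_nhdsGT hs1'
    have hrt : Tendsto r (𝓝[>] 0) (𝓝 0) := by
      rw [tendsto_zero_iff_norm_tendsto_zero]
      have h1 : Tendsto (fun s => Real.sqrt ‖q (F s)‖) (𝓝[>] 0) (𝓝 0) := by
        have h2 := hql'.norm
        rw [norm_zero] at h2
        have h3 := (Real.continuous_sqrt.tendsto 0).comp h2
        rw [Real.sqrt_zero] at h3
        exact h3
      refine h1.congr' ?_
      filter_upwards [hmem1] with s hs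
      rw [← hr s hs, norm_pow, Real.sqrt_sq (norm_nonneg _)]
    have hGt : Tendsto (fun s => G (r s * a s)) (𝓝[>] 0) (𝓝 0) := by
      have h1 : Tendsto (fun s => r s * (γ : ℂ)) (𝓝[>] 0) (𝓝 (0 * γ)) := hrt.mul_const _
      rw [zero_mul] at h1
      refine h1.congr' ?_
      filter_upwards [hmem1] with s hs
      exact (hst s hs).2.symm
    obtain ⟨k, hk⟩ := av_zero hs1' (hrc.mul (hac.mono hin)) (fun s hs => (hst s hs).1) hGt
    by_cases hk0 : k = 0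
    · left
      intro ε hε
      rw [hk0, Int.cast_zero, zero_mul] at hk
      have h1 : Tendsto (fun s => r s * a s) (𝓝[>] 0) (𝓝 0 ⊓ 𝓟 {y | sin y ≠ 0}) := by
        refine tendsto_inf.2 ⟨hk, tendsto_principal.2 ?_⟩
        filter_upwards [hmem1] with s hs
        exact (hst s hs).1
      have h2 := G_div_tendsto.comp h1
      have h3 : Tendsto (fun s => (γ : ℂ) * (G (r s * a s) / (r s * a s))⁻¹) (𝓝[>] 0)
          (𝓝 (γ * (1 : ℂ)⁻¹)) := (h2.inv₀ one_ne_zero).const_mul _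
      rw [inv_one, mul_one] at h3
      have h4 : Tendsto a (𝓝[>] 0) (𝓝 (γ : ℂ)) := by
        refine h3.congr' ?_
        filter_upwards [hmem1] with s hs
        rw [(hst s hs).2, inv_div]
        have h5 := hr0 s hs
        field_simp
      have h5 : ∀ᶠ s in 𝓝[>] (0 : ℝ), ‖a s - γ‖ < ε := by
        have h6 := (tendsto_iff_norm_sub_tendsto_zero.1 h4)
        exact h6.eventually (Iio_mem_nhds hε)
      exact h5.frequently
    · right
      refine ⟨k.natAbs, ?_, ?_⟩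
      · exact Nat.one_le_iff_ne_zero.2 (Int.natAbs_ne_zero.2 hk0)
      · have h1 := hk.pow 2
        have h2 : ((k.natAbs : ℂ) * Real.pi) ^ 2 = ((k : ℂ) * Real.pi) ^ 2 := by
          rw [mul_pow, mul_pow]
          congr 1
          have h3 : (((k.natAbs : ℤ) ^ 2 : ℤ) : ℂ) = ((k ^ 2 : ℤ) : ℂ) := by rw [Int.natAbs_sq]
          rw [Int.cast_pow, Int.cast_pow, Int.cast_natCast] at h3
          exact h3
        rw [h2]
        refine h1.congr' ?_
        filter_upwards [hmem1] with s hs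
        change (r s * a s) ^ 2 = _
        rw [mul_pow, hr s hs]

end Pool.Agent.MP_ae5b4e_an_T
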