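import Pool.Agent.Lib.MP_ae5b4e_an_T.T3Rg
import Pool.Agent.Lib.MP_ae5b4e_an_T.T3PathA
import Pool.Agent.Lib.MP_ae5b4e_an_T.T3PathB

/-!
# POR (iii), N2, section T, block T3: types
-/

noncomputable section

namespace Pool.Agent.MP_ae5b4e_an_T

open Complex Set Filter Topology Metric
open Pool.Agent.MP_ae5b4e_an_WB
open Pool.Agent.MP_ae5b4e_an_WD
open Pool.Agent.MP_ae5b4e_an_M (S1 C1f Gf)

/-- **the states of the vertical path** on the slice -/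
theorem path_or {q : ℂ → ℂ} (hq : DifferentiableOn ℂ q Hm) {γ : ℝ} (hγ : 0 < γ) {l : ℂ}
    (hl : l.im < 0) {F a : ℝ → ℂ} {s0 : ℝ} (hs0 : 0 < s0) (hFc : ContinuousOn F (Ioc 0 s0))
    (hac : ContinuousOn a (Ioc 0 s0)) (hFl : ∀ s ∈ Ioc (0 : ℝ) s0, (F s).im < 0)
    (hS : ∀ s ∈ Ioc (0 : ℝ) s0, S1 (q (F s) * a s ^ 2) ≠ 0)
    (hG : ∀ s ∈ Ioc (0 : ℝ) s0, Gf q (F s) (a s) = γ) (hF : Tendsto F (𝓝[>] 0) (𝓝 l)) :
    (∃ α1 : ℂ, S1 (q l * α1 ^ 2) ≠ 0 ∧ ∀ ε : ℝ, 0 < ε → ∃ᶠ s in 𝓝[>] (0 : ℝ), ‖a s - α1‖ < ε) ∨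
      ((γ : ℂ) ^ 2 * q l = tipc ∧ Tendsto (fun s => ‖q (F s) * a s ^ 2‖) (𝓝[>] 0) atTop) ∨
      (q l = 0 ∧ ∃ k : ℕ, 1 ≤ k ∧
        Tendsto (fun s => q (F s) * a s ^ 2) (𝓝[>] 0) (𝓝 ((k * Real.pi : ℂ) ^ 2))) := by
  by_cases hql : q l = 0
  · rcases path_B hq hγ hl hs0 hFc hac hFl hS hG hF hql with h1 | h1
    · refine Or.inl ⟨γ, ?_, h1⟩
      rw [hql, zero_mul, Pool.Agent.MP_ae5b4e_an_M.S1_zero]
      exact one_ne_zero
    · exact Or.inr (Or.inr ⟨hql, h1⟩)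
  · rcases path_A hq hγ hl hs0 hFc hac hFl hS hG hF hql with ⟨α1, h1, h2⟩ | h1
    · refine Or.inl ⟨α1, h1, fun ε hε => Eventually.frequently ?_⟩
      have h3 := h2.eventually (ball_mem_nhds α1 hε)
      filter_upwards [h3] with s hs
      rwa [dist_eq_norm] at hs
    · exact Or.inr (Or.inl h1)

/-- T3a. types of a point with a finite limit -/
theorem types {q : ℂ → ℂ} {C : ℝ} {vi : ℂ → ℝ} {L : ℂ × ℂ → ℂ} (h : Lb q C vi L) {γ : ℝ}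
    (hγ : 0 < γ) (_hq : ∃ z ∈ Hm, ∃ z' ∈ Hm, q z ≠ q z') {x : ℝ} {l : ℂ} (hl : l.im < 0)
    (hlim : LimAt (vi γ) (fun τ => L (τ, γ)) x l) :
    RgN vi L γ ((x : ℂ) - vi γ * I) ∨ TAt q γ (vi γ) (fun τ => L (τ, γ)) x l ∨
      ∃ k : ℕ, ZkAt q γ (vi γ) (fun τ => L (τ, γ)) x l k := by
  set v : ℝ := vi γ with hv
  set f : ℂ → ℂ := fun τ => L (τ, γ) with hf
  set p : ℝ → ℂ := fun s => (x : ℂ) - (v + s : ℝ) * I with hp
  have hsl := h.sl hγ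
  have hpim : ∀ s : ℝ, (p s).im = -v - s := by
    intro s
    simp only [hp, sub_im, ofReal_im, mul_im, ofReal_re, I_im, mul_one, I_re, mul_zero, add_zero]
    ring
  have hpm : ∀ s : ℝ, 0 < s → p s ∈ Hp v := by
    intro s hs
    change (p s).im < -v
    rw [hpim]
    linarith
  have hpc : Continuous p := by
    simp only [hp]
    fun_prop
  have hpt : Tendsto p (𝓝[>] 0) (𝓝[Hp v] ((x : ℂ) - v * I)) := by
    refine tendsto_nhdsWithin_iff.2 ⟨?_, ?_⟩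
    · have h1 : Tendsto p (𝓝 0) (𝓝 (p 0)) := hpc.tendsto 0
      have h2 : p 0 = (x : ℂ) - v * I := by simp [hp]
      rw [h2] at h1
      exact h1.mono_left nhdsWithin_le_nhds
    · filter_upwards [self_mem_nhdsWithin] with s hs
      exact hpm s hs
  have hF : Tendsto (fun s => f (p s)) (𝓝[>] 0) (𝓝 l) := hlim.comp hpt
  have hopen : IsOpen (Hp v) := isOpen_lt continuous_im continuous_const
  have hmaps : MapsTo p (Ioc 0 1) (Hp v) := fun s hs => hpm s hs.1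
  have hFc : ContinuousOn (fun s => f (p s)) (Ioc 0 1) :=
    hsl.fd.continuousOn.comp hpc.continuousOn hmaps
  have hd : DifferentiableOn ℂ (deriv f) (Hp v) := hsl.fd.deriv hopen
  have hac : ContinuousOn (fun s => (γ : ℂ) * deriv f (p s)) (Ioc 0 1) :=
    continuousOn_const.mul (hd.continuousOn.comp hpc.continuousOn hmaps)
  rcases path_or h.ds.qd hγ hl (F := fun s => f (p s)) (a := fun s => (γ : ℂ) * deriv f (p s))
    one_pos hFc hac (fun s hs => h.ds.low _ (Lb.mem hγ (hpm s hs.1)))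
    (fun s hs => hsl.s1 _ (hpm s hs.1)) (fun s hs => hsl.gf _ (hpm s hs.1)) hF with
    ⟨α1, h1, h2⟩ | ⟨h1, h2⟩ | ⟨h1, k, hk, h2⟩
  · exact Or.inl (rg_of_cluster h hγ hl hlim h1 h2)
  · exact Or.inr (Or.inl ⟨hlim, h1, h2⟩)
  · exact Or.inr (Or.inr ⟨k, hlim, h1, hk, h2⟩)

end Pool.Agent.MP_ae5b4e_an_T
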