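import Pool.Agent.Lib.MP_ae5b4e_an_T.T4Prim

/-!
# POR (iii), N2, T4: the height function of a point `Z_k` is the integral `zE`
-/

noncomputable section

namespace Pool.Agent.MP_ae5b4e_an_T

open Complex Set Filter Topology Metric MeasureTheory
open Pool.Agent.MP_ae5b4e_an_WB
open Pool.Agent.MP_ae5b4e_an_WD
open Pool.Agent.MP_ae5b4e_an_M (S1 C1f Gf)

/-- the integral of the primitive does not depend on the direction -/
private theorem T4ZG_same {R κ C : ℝ} (hκ : 0 < κ) {v v' : ℂ} (hv : 0 < v.re) (hv' : 0 < v'.re)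
    {Ω : ℂ → ℂ} (hΩ : DifferentiableOn ℂ Ω {X | X.re < R})
    (hb : ∀ X : ℂ, X.re < R → ‖Ω X‖ ≤ C * Real.exp (κ * X.re)) {X : ℂ} (hX : X.re < R) :
    ∫ s in Ioi (0 : ℝ), Ω (X - s * v) * v = ∫ s in Ioi (0 : ℝ), Ω (X - s * v') * v' := by
  have h1 := fun (Y : ℂ) (hY : Y.re < R) => hp_prim hκ hv hΩ hb hY
  have h2 := fun (Y : ℂ) (hY : Y.re < R) => hp_prim hκ hv' hΩ hb hY
  set f : ℂ → ℂ := fun Y => (∫ s in Ioi (0 : ℝ), Ω (Y - s * v) * v) -
    ∫ s in Ioi (0 : ℝ), Ω (Y - s * v') * v' with hf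
  have hd : ∀ Y : ℂ, Y.re < R → HasDerivAt f 0 Y := by
    intro Y hY
    have h3 := (h1 Y hY).1.sub (h2 Y hY).1
    rw [sub_self] at h3
    exact h3
  have hop : IsOpen {Y : ℂ | Y.re < R} := isOpen_lt continuous_re continuous_const
  have hpc : IsPreconnected {Y : ℂ | Y.re < R} := (convex_halfSpace_re_lt R).isPreconnected
  have hre : ∀ n : ℕ, (X - n).re = X.re - n := by
    intro n
    simp
  have hn : ∀ n : ℕ, (X - n).re < R := by
    intro n
    rw [hre]
    have h3 : (0 : ℝ) ≤ n := Nat.cast_nonneg n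
    linarith
  have hc : ∀ n : ℕ, f (X - n) = f X := fun n =>
    hop.is_const_of_deriv_eq_zero hpc
      (fun Y hY => (hd Y hY).differentiableAt.differentiableWithinAt)
      (fun Y hY => (hd Y hY).deriv) (hn n) hX
  have hlim : Tendsto (fun n : ℕ => f (X - n)) atTop (𝓝 0) := by
    rw [tendsto_zero_iff_norm_tendsto_zero]
    set A : ℝ := C * ‖v‖ / (κ * v.re) + C * ‖v'‖ / (κ * v'.re) with hA
    have h3 : Tendsto (fun n : ℕ => A * Real.exp (κ * X.re) * Real.exp (-(κ * n))) atTop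
        (𝓝 0) := by
      have h4 : Tendsto (fun n : ℕ => Real.exp (-(κ * (n : ℝ)))) atTop (𝓝 0) :=
        Real.tendsto_exp_neg_atTop_nhds_zero.comp
          (tendsto_natCast_atTop_atTop.const_mul_atTop hκ)
      have h5 := h4.const_mul (A * Real.exp (κ * X.re))
      rwa [mul_zero] at h5
    refine squeeze_zero (fun n => norm_nonneg _) (fun n => ?_) h3
    have h6 := (h1 _ (hn n)).2
    have h7 := (h2 _ (hn n)).2
    have h8 : Real.exp (κ * (X - n).re) = Real.exp (κ * X.re) * Real.exp (-(κ * n)) := by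
      rw [hre, ← Real.exp_add]
      congr 1
      ring
    rw [h8] at h6 h7
    have h9 := norm_sub_le (∫ s in Ioi (0 : ℝ), Ω ((X - n) - s * v) * v)
      (∫ s in Ioi (0 : ℝ), Ω ((X - n) - s * v') * v')
    have h10 : ‖f (X - n)‖ ≤ A * (Real.exp (κ * X.re) * Real.exp (-(κ * n))) := by
      rw [hA, add_mul]
      exact h9.trans (add_le_add h6 h7)
    rw [← mul_assoc] at h10
    exact h10
  have h3 : f X = 0 := by
    refine tendsto_nhds_unique ?_ hlim
    refine Tendsto.congr (fun n => (hc n).symm) ?_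
    exact tendsto_const_nhds
  exact sub_eq_zero.1 h3

/-- the zero chart follows the spiral -/
private theorem T4ZG_follow {q : ℂ → ℂ} (hq : DifferentiableOn ℂ q Hm) {l : ℂ} {μ : ℕ}
    {lam : ℂ → ℂ} {r : ℝ} (hlam : ZChart q l μ lam r) {c : ℂ} (hc0 : c ≠ 0) (hc : ‖c‖ < r)
    {u : ℂ} (hu : 0 < u.re) {A : ℝ → ℂ} (hA : ContinuousOn A (Ici 0)) (hA0 : A 0 = lam c)
    (hqA : ∀ s : ℝ, 0 ≤ s → q (A s) = q (lam c) * exp (-(2 * u * s))) {s : ℝ} (hs : 0 ≤ s) :
    A s = lam (c * exp (-(2 * u / μ * s))) := by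
  have hμ : (μ : ℂ) ≠ 0 := Nat.cast_ne_zero.2 hlam.mu.ne'
  have hμ' : (0 : ℝ) < μ := Nat.cast_pos.2 hlam.mu
  set b : ℝ → ℂ := fun s => c * exp (-(2 * u / μ * s)) with hb
  have hb0 : ∀ s, b s ≠ 0 := fun s => mul_ne_zero hc0 (exp_ne_zero _)
  have hbr : ∀ s : ℝ, 0 ≤ s → b s ∈ ball (0 : ℂ) r := by
    intro s hs
    rw [mem_ball_zero_iff, hb]
    simp only
    rw [norm_mul, norm_exp]
    have h1 : (-(2 * u / μ * s)).re = -(2 * u.re / μ * s) := by
      have h2 : (2 * u / μ * s : ℂ) = ((2 / μ * s : ℝ) : ℂ) * u := by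
        push_cast
        ring
      rw [neg_re, h2, re_ofReal_mul]
      ring
    rw [h1]
    have h3 : Real.exp (-(2 * u.re / μ * s)) ≤ 1 := by
      refine Real.exp_le_one_iff.2 ?_
      have : 0 ≤ 2 * u.re / μ * s := by positivity
      linarith
    have h4 := mul_le_mul_of_nonneg_left h3 (norm_nonneg c)
    linarith
  have hbc : Continuous b := by fun_prop
  have hqb : ∀ s : ℝ, 0 ≤ s → q (lam (b s)) = q (lam c) * exp (-(2 * u * s)) := by
    intro s hs
    rw [(hlam.val _ (hbr s hs)).2, (hlam.val c (mem_ball_zero_iff.2 hc)).2, hb]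
    simp only
    rw [mul_pow, ← exp_nat_mul]
    congr 2
    field_simp
  have hlb : ContinuousOn (fun s => lam (b s)) (Ici 0) :=
    hlam.d.continuousOn.comp hbc.continuousOn fun s hs => hbr s hs
  set S : Set ℝ := {s | A s = lam (b s)} with hS
  have hsub : Icc 0 s ⊆ S := by
    refine IsClosed.Icc_subset_of_forall_mem_nhdsWithin ?_ ?_ ?_
    · have h1 : ContinuousOn (fun s => A s - lam (b s)) (Icc 0 s) :=
        (hA.mono Icc_subset_Ici_self).sub (hlb.mono Icc_subset_Ici_self)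
      have h2 := h1.preimage_isClosed_of_isClosed isClosed_Icc (isClosed_singleton (x := (0 : ℂ)))
      convert h2 using 1
      ext x
      simp only [hS, mem_inter_iff, mem_preimage, mem_singleton_iff, sub_eq_zero]
      exact and_comm
    · change A 0 = lam (b 0)
      rw [hA0, hb]
      simp
    · rintro x ⟨hxS, hx⟩
      have hx0 : 0 ≤ x := hx.1
      have hxS' : A x = lam (b x) := hxS
      have hopen : IsOpen {z : ℂ | z.im < 0} := isOpen_lt continuous_im continuous_const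
      have hm := hbr x hx0
      have hqa : AnalyticAt ℂ q (lam (b x)) := by
        have h1 : DifferentiableOn ℂ q {z : ℂ | z.im < 0} := hq.mono (fun z hz' => hz')
        exact h1.analyticAt (hopen.mem_nhds (hlam.val _ hm).1)
      have hdq : deriv q (lam (b x)) ≠ 0 := by
        have hld : DifferentiableAt ℂ lam (b x) :=
          (hlam.d _ hm).differentiableAt (isOpen_ball.mem_nhds hm)
        have hcomp : HasDerivAt (fun x => q (lam x))
            (deriv q (lam (b x)) * deriv lam (b x)) (b x) :=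
          hqa.differentiableAt.hasDerivAt.comp (b x) hld.hasDerivAt
        have hpow : HasDerivAt (fun x : ℂ => x ^ μ) (μ * (b x) ^ (μ - 1)) (b x) :=
          hasDerivAt_pow μ (b x)
        have hev : (fun x => q (lam x)) =ᶠ[𝓝 (b x)] fun x => x ^ μ := by
          filter_upwards [isOpen_ball.mem_nhds hm] with y hy
          exact (hlam.val y hy).2
        have heq := hcomp.unique (hpow.congr_of_eventuallyEq hev)
        intro h0
        rw [h0, zero_mul] at heq
        exact (mul_ne_zero hμ (pow_ne_zero _ (hb0 x))) heq.symm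
      have hst := hqa.hasStrictDerivAt
      have hinv := hst.eventually_left_inverse hdq
      have hAc : Tendsto A (𝓝[>] x) (𝓝 (lam (b x))) := by
        have h1 := (hA x hx0).mono (Ioi_subset_Ici hx0)
        rw [ContinuousWithinAt, hxS'] at h1
        exact h1
      have hBc : Tendsto (fun s => lam (b s)) (𝓝[>] x) (𝓝 (lam (b x))) :=
        (hlb x hx0).mono (Ioi_subset_Ici hx0)
      filter_upwards [hAc.eventually hinv, hBc.eventually hinv, self_mem_nhdsWithin]
        with y h1 h2 hy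
      have hy0 : 0 ≤ y := hx0.trans (le_of_lt hy)
      change A y = lam (b y)
      rw [← h1, ← h2, hqA y hy0, hqb y hy0]
  exact hsub ⟨hs, le_rfl⟩

/-- `Tm` is the integral `zE` (over the spiral in the direction `u`), for every chart at the zero.

Proof. All statements are for `z` near `0`; `γ_z = γ0 exp (u z)`, `Y1 = Y X1`, `x' = Zc z → X1`.
(1) `x' = X1 + u z`: `hlb` at `(x', γ_z)` and at `(X1, γ0)` with `lb (x', γ_z) = lam c = lb (X1, γ0)`:
`exp (2 x') = γ_z^2 q (lam c) = exp (2 (X1 + u z))`, so `x' - X1 - u z ∈ π i ℤ`, continuous, `0` at `z = 0`.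
(2) `Ω x = exp (β x) * K (x, γ_z)` is holomorphic on `DZ M`, `‖Ω x‖ ≤ 2 ‖k0‖ exp (β x.re)`
(`hm.mdl.an`, `hm.mdl.near`). `hp_prim` (`WD/Z1.lean`, `R = - M`, `κ = β`) with `v = u` and with `v = 1`: the two
functions `I_u`, `I_1` have the derivative `Ω` on the half plane `DZ M` and tend to `0` for `x.re → - ∞` (second
clause), so `I_u - I_1` is constant on the (convex, open) half plane and `= 0` (evaluate at `x - n`, `n → ∞`).
`I_1 x = Tm β K (x, γ_z)` (`Tm` unfolded). So `Tm β K (x', γ_z) = ∫ s in Ioi 0, Ω (x' - s u) u`.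
(3) `x s = x' - s u`, `s ≥ 0`, is in `DZ M`. From `hm.rel`: `Ω (x s) = γ_z * ∂_X lb (x s, γ_z) / alZ k Y (x s, γ_z)`, and
`alZ k Y (x s, γ_z) = (-1)^k γ_z Y (x s) exp (- x s)`, so `Ω (x s) = ∂_X lb (x s, γ_z) G (Y (x s)) / Y (x s)` with
`G (Y (x s)) = (-1)^k exp (x s) = G Y1 exp (u (z - s))` (by (1), `hY`).
(4) `Y (x s) = Fl Y1 (u (z - s))`: `Fl_eq` (`WB/GU.lean`) with the lift `η ρ = Y (X1 + ρ u (z - s))`, `0 ≤ ρ ≤ 1`
(`X1 + ρ u (z - s) ∈ DZ M` because `(X1 + u z).re < - M`, `X1.re < - M` and `u.re > 0`: convexity).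
(5) `lb (x s, γ_z) = lam (c exp (-(2 u/μ s)))` for all `s ≥ 0`: both sides are continuous in `s`, agree at `s = 0`
(`lb (x', γ_z) = lam c`), and satisfy `q (·) = q (lam c) exp (- 2 u s) ≠ 0` (`hlb`; `hlam.val`). It is enough
to use local injectivity of `q` at the points `lam (c exp (-(2u/μ) s))`
(`deriv q ≠ 0` there: differentiate `q (lam c) = c^μ`, `ZChart.deriv_ne`): the set of `s ≥ 0` where the two
sides agree is closed and open in `[0, ∞)` (near such an `s` both sides are close to the same point, at which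
`q` is locally injective: `HasStrictDerivAt.eventually_left_inverse`). Differentiate in `s`:
`- u ∂_X lb (x s, γ_z) = -(2 u/μ) c exp (-(2u/μ) s) deriv lam (c exp (-(2 u/μ) s))`.
(6) insert (3), (4), (5): the integrands agree for all `s > 0` (`setIntegral_congr_fun`); `zE` is the result. -/
theorem z_germ {q : ℂ → ℂ} (hq : DifferentiableOn ℂ q Hm) {γ0 : ℝ} (hγ : 0 < γ0) {l : ℂ}
    (hl : l.im < 0) {k : ℕ} {β M ρ0 : ℝ} {Y : ℂ → ℂ} (hYa : AnalyticOnNhd ℂ Y (DZ M))
    (hY : ∀ x ∈ DZ M, sin (Y x) ≠ 0 ∧ G (Y x) = (-1) ^ k * exp x) {K lb : ℂ × ℂ → ℂ} {k0 : ℂ}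
    (hm : Mod q (DZ M) β k0 γ0 ρ0 K lb (alZ k Y))
    (hlb : ∀ p ∈ DZ M ×ˢ ball (γ0 : ℂ) ρ0, p.2 ^ 2 * q (lb p) = exp (2 * p.1)) {u : ℂ}
    (hu : 0 < u.re) {μ : ℕ} {lam : ℂ → ℂ} {r : ℝ} (hlam : ZChart q l μ lam r) {c X1 : ℂ}
    (hc0 : c ≠ 0) (hc : ‖c‖ < r) (hX1 : X1 ∈ DZ M) (hl1 : lb (X1, γ0) = lam c) {Zc : ℂ → ℂ}
    (hZc : ContinuousAt Zc 0) (hZ0 : Zc 0 = X1)
    (hZl : ∀ᶠ z in 𝓝 (0 : ℂ), lb (Zc z, γ0 * exp (u * z)) = lam c) :
    ∀ᶠ z in 𝓝 (0 : ℂ), Tm β K (Zc z, γ0 * exp (u * z)) = zE u μ (Y X1) c (deriv lam) z := by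
  have hμ : (μ : ℂ) ≠ 0 := Nat.cast_ne_zero.2 hlam.mu.ne'
  have hopD : IsOpen (DZ M) := hm.mdl.op
  have hρ := hm.mdl.ρ_pos
  have hβ := hm.mdl.β_pos
  -- the parameter is in the ball
  have hball : ∀ᶠ z in 𝓝 (0 : ℂ), (γ0 * exp (u * z) : ℂ) ∈ ball (γ0 : ℂ) ρ0 := by
    have h1 : Continuous fun z : ℂ => (γ0 * exp (u * z) : ℂ) := by fun_prop
    have h2 := h1.continuousAt (x := (0 : ℂ))
    refine h2.eventually ?_
    simp only [mul_zero, exp_zero, mul_one]
    exact ball_mem_nhds _ hρ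
  have hZD : ∀ᶠ z in 𝓝 (0 : ℂ), Zc z ∈ DZ M := by
    refine hZc.eventually ?_
    rw [hZ0]
    exact hopD.mem_nhds hX1
  have hq1 : (γ0 : ℂ) ^ 2 * q (lam c) = exp (2 * X1) := by
    have h1 := hlb (X1, γ0) ⟨hX1, mem_ball_self hρ⟩
    simp only [hl1] at h1
    exact h1
  -- (1)
  have hsmall : ∀ᶠ z in 𝓝 (0 : ℂ), ‖Zc z - X1 - u * z‖ < 1 := by
    have h1 : ContinuousAt (fun z => Zc z - X1 - u * z) 0 := by
      refine (hZc.sub continuousAt_const).sub ?_
      fun_prop
    have h2 : Tendsto (fun z => ‖Zc z - X1 - u * z‖) (𝓝 0) (𝓝 0) := by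
      have h3 := h1.norm.tendsto
      simpa [hZ0] using h3
    exact h2.eventually_lt_const one_pos
  filter_upwards [hball, hZD, hsmall, hZl] with z hγz hZz hsz hlz
  set g : ℂ := γ0 * exp (u * z) with hg
  have hg0 : g ≠ 0 := mul_ne_zero (ofReal_ne_zero.2 hγ.ne') (exp_ne_zero _)
  have hx' : Zc z = X1 + u * z := by
    have h1 := hlb (Zc z, g) ⟨hZz, hγz⟩
    simp only [hlz] at h1
    have h2 : exp (2 * (Zc z - X1 - u * z)) = 1 := by
      have h3 : (2 * (Zc z - X1 - u * z) : ℂ) = 2 * Zc z - (2 * X1 + 2 * (u * z)) := by ring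
      rw [h3, exp_sub, ← h1, exp_add, ← hq1, hg]
      have h4 : (γ0 : ℂ) ^ 2 * q (lam c) * exp (2 * (u * z)) ≠ 0 := by
        rw [hq1]
        exact mul_ne_zero (exp_ne_zero _) (exp_ne_zero _)
      rw [div_eq_one_iff_eq h4, mul_pow, ← exp_nat_mul]
      push_cast
      ring
    obtain ⟨n, hn⟩ := exp_eq_one_iff.1 h2
    have hn0 : n = 0 := by
      by_contra hne
      have h3 : ‖(2 * (Zc z - X1 - u * z) : ℂ)‖ < 2 := by
        rw [norm_mul]
        simp only [Complex.norm_ofNat]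
        linarith
      rw [hn, norm_mul, norm_mul, norm_mul, norm_I, norm_real, Complex.norm_intCast] at h3
      simp only [Complex.norm_ofNat, mul_one, Real.norm_eq_abs, abs_of_pos Real.pi_pos] at h3
      have h4 : (1 : ℝ) ≤ |(n : ℝ)| := by
        have := Int.one_le_abs hne
        exact_mod_cast this
      have h5 := Real.pi_gt_three
      nlinarith
    rw [hn0] at hn
    have h3 : Zc z - X1 - u * z = 0 := by
      have h4 : (2 * (Zc z - X1 - u * z) : ℂ) = 0 := by
        rw [hn]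
        simp
      exact (mul_eq_zero.1 h4).resolve_left two_ne_zero
    linear_combination h3
  -- points of the ray
  have hray : ∀ s : ℝ, 0 ≤ s → Zc z - s * u ∈ DZ M := by
    intro s hs
    have h1 : (Zc z).re < -M := hZz
    change (Zc z - s * u).re < -M
    rw [sub_re, re_ofReal_mul]
    have := mul_nonneg hs hu.le
    linarith
  -- (2)
  have hKn : ∀ X ∈ DZ M, ‖K (X, g)‖ ≤ 2 * ‖k0‖ := by
    intro X hX
    have h1 := hm.mdl.near (X, g) ⟨hX, hγz⟩
    have h2 : ‖K (X, g)‖ ≤ ‖K (X, g) - k0‖ + ‖k0‖ := by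
      have := norm_add_le (K (X, g) - k0) k0
      rwa [sub_add_cancel] at this
    have h3 := norm_nonneg k0
    linarith
  have hKz : DifferentiableOn ℂ (fun x => K (x, g)) (DZ M) := by
    intro x hx
    have h1 : DifferentiableAt ℂ (fun x : ℂ => (x, g)) x :=
      differentiableAt_id.prodMk (differentiableAt_const _)
    exact (DifferentiableAt.comp (f := fun x : ℂ => (x, g)) x
      (hm.mdl.an (x, g) ⟨hx, hγz⟩).differentiableAt h1).differentiableWithinAt
  have hT : Tm β K (Zc z, g) =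
      ∫ s in Ioi (0 : ℝ), exp (β * (Zc z - s * u)) * K (Zc z - s * u, g) * u := by
    have h1 := T4ZG_same (R := -M) (κ := β) (C := 2 * ‖k0‖) hβ hu (v' := 1) (by simp)
      (Ω := fun x => exp (β * x) * K (x, g)) ?_ ?_ (X := Zc z) hZz
    · rw [h1]
      simp only [Tm, mul_one]
    · refine DifferentiableOn.mul ?_ hKz
      exact ((differentiable_id.const_mul (β : ℂ)).cexp).differentiableOn
    · intro X hX
      have h2 : ‖exp (β * X)‖ = Real.exp (β * X.re) := by
        rw [norm_exp]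
        congr 1
        simp
      rw [norm_mul, h2]
      have h3 := mul_le_mul_of_nonneg_left (hKn X hX) (Real.exp_pos (β * X.re)).le
      refine h3.trans (le_of_eq ?_)
      ring
  -- (5)
  have hlc : ContinuousOn (fun x => lb (x, g)) (DZ M) := fun x hx =>
    (hm.rel (x, g) ⟨hx, hγz⟩).continuousAt.continuousWithinAt
  have hfol : ∀ s : ℝ, 0 ≤ s → lb (Zc z - s * u, g) = lam (c * exp (-(2 * u / μ * s))) := by
    intro s hs
    refine T4ZG_follow hq hlam hc0 hc hu (A := fun s : ℝ => lb (Zc z - s * u, g)) ?_ ?_ ?_ hs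
    · refine hlc.comp (f := fun s : ℝ => Zc z - (s : ℂ) * u) ?_ fun s hs => hray s hs
      fun_prop
    · simp only [ofReal_zero, zero_mul, sub_zero]
      exact hlz
    · intro s hs
      have h1 := hlb (Zc z - s * u, g) ⟨hray s hs, hγz⟩
      have h2 := hlb (Zc z, g) ⟨hZz, hγz⟩
      simp only [hlz] at h1 h2
      have h3 : g ^ 2 ≠ 0 := pow_ne_zero 2 hg0
      have h4 : g ^ 2 * q (lb (Zc z - s * u, g)) =
          g ^ 2 * (q (lam c) * exp (-(2 * u * s))) := by
        rw [h1, ← mul_assoc, h2, ← exp_add]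
        congr 1
        ring
      exact mul_left_cancel₀ h3 h4
  rw [hT, zE]
  refine setIntegral_congr_fun measurableSet_Ioi fun s hs => ?_
  have hs0 : 0 < s := hs
  have hxs := hray s hs0.le
  set x : ℂ := Zc z - s * u with hx
  have hYx := hY x hxs
  have hYX1 := hY X1 hX1
  have hY0 : Y x ≠ 0 := by
    intro h0
    exact hYx.1 (by rw [h0, sin_zero])
  -- (3) the derivative of the label
  set D : ℂ := alZ k Y (x, g) * (exp (β * x) * K (x, g)) / g with hD
  have hder : HasDerivAt (fun X => lb (X, g)) D x := hm.rel (x, g) ⟨hxs, hγz⟩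
  have hsq : ((-1 : ℂ) ^ k) ^ 2 = 1 := by
    rw [← pow_mul, mul_comm, pow_mul]
    simp
  have hee : exp x * exp (-x) = 1 := by rw [← exp_add, add_neg_cancel, exp_zero]
  have hΩ : exp (β * x) * K (x, g) = D * (G (Y x) / Y x) := by
    rw [hD, hYx.2]
    simp only [alZ]
    field_simp
    linear_combination (-K (x, g)) * hsq - K (x, g) * ((-1) ^ k) ^ 2 * hee
  have hGx : G (Y x) = G (Y X1) * exp (u * (z - s)) := by
    rw [hYx.2, hYX1.2, mul_assoc, ← exp_add, hx, hx']
    congr 2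
    ring
  -- (4)
  have hFl : Fl (Y X1) (u * (z - s)) = Y x := by
    have hmemD : ∀ ρ ∈ Icc (0 : ℝ) 1, X1 + ρ * (u * (z - s)) ∈ DZ M := by
      intro ρ hρ1
      have h1 : X1.re < -M := hX1
      have h2 : x.re < -M := hxs
      change (X1 + ρ * (u * (z - s))).re < -M
      have h3 : X1 + ρ * (u * (z - s)) = ((1 - ρ : ℝ) : ℂ) * X1 + (ρ : ℂ) * x := by
        rw [hx, hx']
        push_cast
        ring
      rw [h3, add_re, re_ofReal_mul, re_ofReal_mul]
      rcases eq_or_lt_of_le hρ1.1 with h4 | h4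
      · rw [← h4]
        simpa using h1
      · have h5 := mul_lt_mul_of_pos_left h2 h4
        have h6 := mul_le_mul_of_nonneg_left h1.le (sub_nonneg.2 hρ1.2)
        linarith
    have h1 : IsLift (Y X1) (u * (z - s)) (fun ρ : ℝ => Y (X1 + ρ * (u * (z - s)))) := by
      refine ⟨?_, by simp, fun ρ hρ1 => ⟨(hY _ (hmemD ρ hρ1)).1, ?_⟩⟩
      · refine hYa.continuousOn.comp (f := fun ρ : ℝ => X1 + (ρ : ℂ) * (u * (z - s))) ?_ hmemD
        fun_prop
      · rw [(hY _ (hmemD ρ hρ1)).2, hYX1.2, mul_assoc, ← exp_add]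
    rw [Fl_eq h1]
    congr 1
    rw [hx, hx']
    push_cast
    ring
  -- (5) differentiate
  set e : ℂ := c * exp (-(2 * u / μ * s)) with he
  have hder2 : D * u = deriv lam e * (2 * u / μ * e) := by
    have h1 : HasDerivAt (fun s : ℝ => Zc z - (s : ℂ) * u) (-u) s := by
      have h4 := ((hasDerivAt_id s).ofReal_comp.mul_const u).const_sub (Zc z)
      simpa using h4
    have h2 : HasDerivAt (fun s : ℝ => lb (Zc z - (s : ℂ) * u, g)) (D * (-u)) s := by
      have h3 := HasDerivAt.comp_of_eq (h := fun s : ℝ => Zc z - (s : ℂ) * u) s hder h1 rfl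
      exact h3
    have h3 : HasDerivAt (fun s : ℝ => c * exp (-(2 * u / μ * (s : ℂ)))) (-(2 * u / μ) * e) s := by
      have h4 : HasDerivAt (fun s : ℝ => -(2 * u / μ * (s : ℂ))) (-(2 * u / μ)) s := by
        have h5 := (((hasDerivAt_id s).ofReal_comp).const_mul (2 * u / μ : ℂ)).fun_neg
        simpa using h5
      have h5 := (h4.cexp).const_mul c
      refine h5.congr_deriv ?_
      rw [he]
      ring
    have hebr : e ∈ ball (0 : ℂ) r := by
      rw [mem_ball_zero_iff, he, norm_mul, norm_exp]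
      have h1 : (-(2 * u / μ * s)).re = -(2 * u.re / μ * s) := by
        have h2 : (2 * u / μ * s : ℂ) = ((2 / μ * s : ℝ) : ℂ) * u := by
          push_cast
          ring
        rw [neg_re, h2, re_ofReal_mul]
        ring
      rw [h1]
      have h3 : Real.exp (-(2 * u.re / μ * s)) ≤ 1 := by
        refine Real.exp_le_one_iff.2 ?_
        have : 0 ≤ 2 * u.re / μ * s := by positivity
        linarith
      have h4 := mul_le_mul_of_nonneg_left h3 (norm_nonneg c)
      linarith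
    have h4 : HasDerivAt lam (deriv lam e) e :=
      ((hlam.d e hebr).differentiableAt (isOpen_ball.mem_nhds hebr)).hasDerivAt
    have h5 : HasDerivAt (fun s : ℝ => lam (c * exp (-(2 * u / μ * (s : ℂ)))))
        (deriv lam e * (-(2 * u / μ) * e)) s := by
      have h6 := HasDerivAt.comp_of_eq (h := fun s : ℝ => c * exp (-(2 * u / μ * (s : ℂ)))) s
        h4 h3 rfl
      exact h6
    have h6 : (fun s : ℝ => lb (Zc z - (s : ℂ) * u, g)) =ᶠ[𝓝 s]
        fun s : ℝ => lam (c * exp (-(2 * u / μ * (s : ℂ)))) := by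
      filter_upwards [Ioi_mem_nhds hs0] with t ht
      exact hfol t (le_of_lt ht)
    have h7 := (h5.congr_of_eventuallyEq h6).unique h2
    linear_combination h7
  rw [hΩ, hFl, ← hGx]
  linear_combination (G (Y x) / Y x) * hder2

end Pool.Agent.MP_ae5b4e_an_T
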