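import Pool.Agent.Lib.MP_ae5b4e_an_T.T4Def
import Pool.Agent.Lib.MP_ae5b4e_an_UT.Scal

/-!
# POR (iii), N2, T4: the model of a point `Z_k`
-/

noncomputable section

namespace Pool.Agent.MP_ae5b4e_an_T

open Complex Set Filter Topology Metric MeasureTheory
open Pool.Agent.MP_ae5b4e_an_WB
open Pool.Agent.MP_ae5b4e_an_WD
open Pool.Agent.MP_ae5b4e_an_M (S1 C1f Gf)

/-- Proof. `ball_deriv_up` (`UT/Scal.lean`, namespace `Pool.Agent.Lib.MP_ae5b4e_an_UT`): if `deriv lam 0 = 0` then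
`deriv lam = 0` on the ball and `lam` is constant, not injective. -/
theorem ZChart.deriv_zero_ne {q : ℂ → ℂ} {l : ℂ} {μ : ℕ} {lam : ℂ → ℂ} {r : ℝ}
    (h : ZChart q l μ lam r) : deriv lam 0 ≠ 0 := by
  intro h0
  have h1 : ∀ z ∈ ball (0 : ℂ) r, deriv lam z = 0 := by
    intro z hz
    have h2 := Pool.Agent.Lib.MP_ae5b4e_an_UT.ball_deriv_up h.pos h.d h.inj hz
    rw [h0, norm_zero, zero_mul] at h2
    exact norm_le_zero_iff.1 h2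
  have h3 : lam 0 = lam ((r / 2 : ℝ) : ℂ) := by
    refine isOpen_ball.is_const_of_deriv_eq_zero (convex_ball (0 : ℂ) r).isPreconnected h.d
      (fun z hz => h1 z hz) (mem_ball_self h.pos) ?_
    rw [mem_ball_zero_iff, Complex.norm_real, Real.norm_eq_abs, abs_of_pos (half_pos h.pos)]
    linarith [h.pos]
  have h4 := h.inj (mem_ball_self h.pos) ?_ h3
  · have h5 : (r / 2 : ℝ) = 0 := by exact_mod_cast h4.symm
    linarith [h.pos]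
  · rw [mem_ball_zero_iff, Complex.norm_real, Real.norm_eq_abs, abs_of_pos (half_pos h.pos)]
    linarith [h.pos]

/-- the states in terms of `y`. Proof. `(-1)^k (-1)^k = 1`. `w = G y = (-1)^k e^X`, `r = w/γ`, `r^2 = q l ≠ 0`,
`α = y / r = (-1)^k γ y e^(-X)`, so `q l α^2 = y^2`; `S1_sq`, `C1f_sq` (`M/FnA.lean`): `S1 (y^2) = sin y/y ≠ 0`,
`C1f (y^2) = cos y`, `Gf q l α = α (sin y/y) exp (1 - y cos y/sin y) = (α/y) G y = γ`. -/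
theorem z_state {q : ℂ → ℂ} {k : ℕ} {X γ l y : ℂ} (hy : sin y ≠ 0) (hG : G y = (-1) ^ k * exp X)
    (hγ : γ ≠ 0) (hg : γ ^ 2 * q l = exp (2 * X)) :
    q l * ((-1) ^ k * γ * y * exp (-X)) ^ 2 = y ^ 2 ∧
      S1 (q l * ((-1) ^ k * γ * y * exp (-X)) ^ 2) ≠ 0 ∧
      Gf q l ((-1) ^ k * γ * y * exp (-X)) = γ := by
  have hk : ((-1 : ℂ) ^ k) * (-1) ^ k = 1 := by
    rw [← mul_pow]; simp
  have he : exp X * exp (-X) = 1 := by rw [← exp_add]; simp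
  have he2 : exp (2 * X) = exp X * exp X := by rw [← exp_add]; ring_nf
  have h1 : q l * ((-1) ^ k * γ * y * exp (-X)) ^ 2 = y ^ 2 := by
    calc q l * ((-1) ^ k * γ * y * exp (-X)) ^ 2
        = ((-1 : ℂ) ^ k * (-1) ^ k) * (γ ^ 2 * q l) * exp (-X) ^ 2 * y ^ 2 := by ring
      _ = (exp X * exp (-X)) ^ 2 * y ^ 2 := by rw [hk, hg, he2]; ring
      _ = y ^ 2 := by rw [he]; ring
  have hS := Pool.Agent.MP_ae5b4e_an_M.S1_sq y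
  have hC := Pool.Agent.MP_ae5b4e_an_M.C1f_sq y
  have hy0 : y ≠ 0 := by
    rintro rfl
    exact hy Complex.sin_zero
  have hS0 : S1 (y ^ 2) ≠ 0 := by
    intro h0
    rw [h0, mul_zero] at hS
    exact hy hS.symm
  refine ⟨h1, by rw [h1]; exact hS0, ?_⟩
  unfold Gf
  rw [h1, hC]
  have hq : cos y / S1 (y ^ 2) = y * (cos y / sin y) := by
    rw [← hS]
    field_simp
  rw [hq]
  unfold G at hG
  calc (-1) ^ k * γ * y * exp (-X) * S1 (y ^ 2) * exp (1 - y * (cos y / sin y))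
      = (-1) ^ k * γ * exp (-X) * ((y * S1 (y ^ 2)) * exp (1 - y * (cos y / sin y))) := by ring
    _ = (-1) ^ k * γ * exp (-X) * ((-1) ^ k * exp X) := by rw [hS, hG]
    _ = ((-1 : ℂ) ^ k * (-1) ^ k) * γ * (exp X * exp (-X)) := by ring
    _ = γ := by rw [hk, he]; ring

/-- `c1 (γ/γ0)^(-2/μ)` -/
def cgf (c1 : ℂ) (μ : ℕ) (γ0 : ℝ) (γ : ℂ) : ℂ := c1 * exp (-(2 / μ) * log (γ / γ0))

/-- the chart coordinate of the model of a point `Z_k` -/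
def ccf (c1 : ℂ) (μ : ℕ) (γ0 : ℝ) (p : ℂ × ℂ) : ℂ := cgf c1 μ γ0 p.2 * exp (2 * p.1 / μ)

theorem zm_slit {γ0 : ℝ} (hγ : 0 < γ0) {ρ0 : ℝ} (hρ : ρ0 < γ0) {γ : ℂ}
    (h : γ ∈ ball (γ0 : ℂ) ρ0) : γ / γ0 ∈ slitPlane ∧ γ ≠ 0 := by
  have hγ' : (γ0 : ℂ) ≠ 0 := by exact_mod_cast hγ.ne'
  rw [mem_ball, dist_eq_norm] at h
  have h1 : γ / γ0 ∈ ball (1 : ℂ) 1 := by
    rw [mem_ball, dist_eq_norm, div_sub_one hγ', norm_div, Complex.norm_real, Real.norm_eq_abs,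
      abs_of_pos hγ, div_lt_one hγ]
    linarith
  have h2 := Complex.ball_one_subset_slitPlane h1
  refine ⟨h2, ?_⟩
  rintro rfl
  rw [zero_div] at h2
  exact Complex.slitPlane_ne_zero h2 rfl

theorem cgf_an {γ0 : ℝ} (hγ : 0 < γ0) {ρ0 : ℝ} (hρ : ρ0 < γ0) {γ : ℂ}
    (h : γ ∈ ball (γ0 : ℂ) ρ0) (c1 : ℂ) (μ : ℕ) : AnalyticAt ℂ (cgf c1 μ γ0) γ := by
  have h1 := (zm_slit hγ hρ h).1
  have h2 : AnalyticAt ℂ (fun γ : ℂ => γ / (γ0 : ℂ)) γ := by fun_prop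
  have h3 : AnalyticAt ℂ (fun γ : ℂ => log (γ / (γ0 : ℂ))) γ := h2.clog h1
  unfold cgf
  exact analyticAt_const.mul ((analyticAt_const.mul h3).cexp')

theorem ccf_an {γ0 : ℝ} (hγ : 0 < γ0) {ρ0 : ℝ} (hρ : ρ0 < γ0) {p : ℂ × ℂ}
    (h : p.2 ∈ ball (γ0 : ℂ) ρ0) (c1 : ℂ) (μ : ℕ) : AnalyticAt ℂ (ccf c1 μ γ0) p := by
  have h1 : AnalyticAt ℂ (fun p : ℂ × ℂ => cgf c1 μ γ0 p.2) p :=
    (cgf_an hγ hρ h c1 μ).fun_comp analyticAt_snd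
  have h2 : AnalyticAt ℂ (fun p : ℂ × ℂ => 2 * p.1 / (μ : ℂ)) p := by
    have : AnalyticAt ℂ (fun x : ℂ => 2 * x / (μ : ℂ)) p.1 := by fun_prop
    exact this.fun_comp analyticAt_fst
  exact h1.mul h2.cexp'

theorem cgf_self {γ0 : ℝ} (hγ : 0 < γ0) (c1 : ℂ) (μ : ℕ) : cgf c1 μ γ0 γ0 = c1 := by
  have hγ' : (γ0 : ℂ) ≠ 0 := by exact_mod_cast hγ.ne'
  unfold cgf
  rw [div_self hγ', Complex.log_one, mul_zero, Complex.exp_zero, mul_one]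

theorem ccf_pow {γ0 : ℝ} (hγ : 0 < γ0) {c1 : ℂ} {μ : ℕ} (hμ : 0 < μ)
    (hc1 : c1 ^ μ * (γ0 : ℂ) ^ 2 = 1) {p : ℂ × ℂ} (hp : p.2 ≠ 0) :
    p.2 ^ 2 * ccf c1 μ γ0 p ^ μ = exp (2 * p.1) := by
  have hγ' : (γ0 : ℂ) ≠ 0 := by exact_mod_cast hγ.ne'
  have hμ' : (μ : ℂ) ≠ 0 := by exact_mod_cast hμ.ne'
  have h1 : exp (-(2 / (μ : ℂ)) * log (p.2 / γ0)) ^ μ * p.2 ^ 2 = (γ0 : ℂ) ^ 2 := by
    rw [← Complex.exp_nat_mul]
    have h2 : (μ : ℂ) * (-(2 / (μ : ℂ)) * log (p.2 / γ0)) = -((2 : ℕ) * log (p.2 / γ0)) := by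
      field_simp
      push_cast
      ring
    rw [h2, Complex.exp_neg, Complex.exp_nat_mul, Complex.exp_log (div_ne_zero hp hγ')]
    field_simp
  have h3 : exp (2 * p.1 / (μ : ℂ)) ^ μ = exp (2 * p.1) := by
    rw [← Complex.exp_nat_mul]
    congr 1
    field_simp
  unfold ccf cgf
  calc p.2 ^ 2 * (c1 * exp (-(2 / (μ : ℂ)) * log (p.2 / γ0)) * exp (2 * p.1 / (μ : ℂ))) ^ μ
      = c1 ^ μ * (exp (-(2 / (μ : ℂ)) * log (p.2 / γ0)) ^ μ * p.2 ^ 2) *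
        exp (2 * p.1 / (μ : ℂ)) ^ μ := by ring
    _ = exp (2 * p.1) := by rw [h1, h3, hc1, one_mul]

theorem ccf_norm (c1 : ℂ) (μ : ℕ) (γ0 : ℝ) (p : ℂ × ℂ) :
    ‖ccf c1 μ γ0 p‖ = ‖cgf c1 μ γ0 p.2‖ * Real.exp (2 * p.1.re / μ) := by
  unfold ccf
  rw [norm_mul, Complex.norm_exp]
  congr 2
  have : (2 * p.1 / (μ : ℂ)) = ((2 / (μ : ℝ) : ℝ) : ℂ) * p.1 := by push_cast; ring
  rw [this, Complex.re_ofReal_mul]
  ring

theorem ccf_deriv (c1 : ℂ) (μ : ℕ) (γ0 : ℝ) (p : ℂ × ℂ) :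
    HasDerivAt (fun z => ccf c1 μ γ0 (z, p.2)) (ccf c1 μ γ0 p * (2 / μ)) p.1 := by
  unfold ccf
  have h1 : HasDerivAt (fun z : ℂ => 2 * z / (μ : ℂ)) (2 / (μ : ℂ)) p.1 := by
    simpa using ((hasDerivAt_id p.1).const_mul (2 : ℂ)).div_const (μ : ℂ)
  have h2 := (h1.cexp).const_mul (cgf c1 μ γ0 p.2)
  refine h2.congr_deriv ?_
  ring

/-- MODEL OF A POINT `Z_k`.

Proof. (1) `ρ0 ≤ γ0/2`; for `γ ∈ ball γ0 ρ0`: `γ/γ0 ∈ slitPlane`, `‖log (γ/γ0)‖ ≤ 1` (small `ρ0`),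
`cg γ = c1 * exp (-(2/μ) log (γ/γ0))`, `c (X, γ) = cg γ * exp (2 X/μ)`; `c ^ μ = c1^μ (γ0/γ)^2 exp (2 X) =
exp (2 X)/γ^2`, `c ≠ 0`, `‖c‖ ≤ ‖c1‖ e^(2/μ) exp (- 2 M/μ)` is small for large `M`. `cg γ0 = c1`.
(2) `lb = lam ∘ c` (`M` so large that `‖c‖ < r`, `‖lam c - l‖ < ε`), `lb ≠ l` by injectivity (`lam 0 = l`),
`q (lb) = c^μ`, `K (X, γ) = (-1)^k (2/μ) cg γ deriv lam (c (X, γ)) / Y X`,
`k0 = (-1)^k (2/μ) c1 deriv lam 0/(k π) ≠ 0`. `K` is as close to `k0` as we want for `M` large and `ρ0` small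
(`hYl`, `cg` continuous, `c → 0`).
(3) `Mod`: `op`, `shift` of `DZ M` are clear. `rel`: `∂_X lb = deriv lam c * c * (2/μ)`, and with `β = 1 + 2/μ`:
`alZ * exp (β X) K / γ = (-1)^k γ Y e^(-X) e^X e^(2X/μ) (-1)^k (2/μ) cg lam' / (Y γ) = (2/μ) c lam'`: the same
(`exp (β X) = exp X * exp (2 X/μ)`). `Y X ≠ 0` since `sin (Y X) ≠ 0`. `s1`, `gf`: `z_state`. `no`: by `z_state` the
function is `(Y z)^2 → (k π)^2` along `F` (`F ≤ comap re atBot`), so `X = (k π)^2` (uniqueness of limits) and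
`S1 ((k π)^2) = 0` (`S1_eq_zero`). -/
theorem z_model' {q : ℂ → ℂ} (hq : DifferentiableOn ℂ q Hm) {γ0 : ℝ} (hγ : 0 < γ0) {l : ℂ}
    (hl : l.im < 0) {μ : ℕ} {lam : ℂ → ℂ} {r : ℝ} (hlam : ZChart q l μ lam r) {k : ℕ} (hk : 1 ≤ k)
    {M0 : ℝ} {Y : ℂ → ℂ} (hYa : AnalyticOnNhd ℂ Y (DZ M0))
    (hY : ∀ x ∈ DZ M0, sin (Y x) ≠ 0 ∧ G (Y x) = (-1) ^ k * exp x)
    (hYl : Tendsto Y (comap re atBot) (𝓝 (k * Real.pi))) {c1 : ℂ} (hc1 : c1 ^ μ * (γ0 : ℂ) ^ 2 = 1)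
    {ε : ℝ} (hε : 0 < ε) :
    ∃ (M ρ0 : ℝ) (K lb : ℂ × ℂ → ℂ) (k0 : ℂ), M0 ≤ M ∧
      Mod q (DZ M) (1 + 2 / μ) k0 γ0 ρ0 K lb (alZ k Y) ∧
      (∀ p ∈ DZ M ×ˢ ball (γ0 : ℂ) ρ0, ‖lb p - l‖ < ε ∧ lb p ≠ l ∧
        p.2 ^ 2 * q (lb p) = exp (2 * p.1)) ∧
      (∀ x ∈ DZ M, lb (x, γ0) = lam (c1 * exp (2 * x / μ))) ∧
      (∀ p, lb p = lam (ccf c1 μ γ0 p)) ∧
      ∀ p ∈ DZ M ×ˢ ball (γ0 : ℂ) ρ0, ccf c1 μ γ0 p ∈ ball (0 : ℂ) r := by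
  obtain ⟨hμ, hr⟩ : 0 < μ ∧ 0 < r := ⟨hlam.mu, hlam.pos⟩
  have hμ' : (μ : ℂ) ≠ 0 := by exact_mod_cast hμ.ne'
  have hμr : (0 : ℝ) < μ := by exact_mod_cast hμ
  have hγ' : (γ0 : ℂ) ≠ 0 := by exact_mod_cast hγ.ne'
  have hkπ : (k * Real.pi : ℂ) ≠ 0 := by
    have h1 : (k : ℂ) ≠ 0 := by exact_mod_cast (by omega : k ≠ 0)
    have h2 : ((Real.pi : ℝ) : ℂ) ≠ 0 := by exact_mod_cast Real.pi_ne_zero
    exact mul_ne_zero h1 h2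
  have hc1' : c1 ≠ 0 := by
    rintro rfl
    rw [zero_pow hμ.ne', zero_mul] at hc1
    exact zero_ne_one hc1
  have hl0 : deriv lam 0 ≠ 0 := ZChart.deriv_zero_ne hlam
  have hneg : ((-1 : ℂ) ^ k) ≠ 0 := pow_ne_zero _ (by norm_num)
  obtain ⟨k0, hk0⟩ : ∃ k0 : ℂ, k0 = (-1) ^ k * (2 / μ) * c1 * deriv lam 0 / (k * Real.pi) :=
    ⟨_, rfl⟩
  have hk0ne : k0 ≠ 0 := by
    rw [hk0]
    exact div_ne_zero (mul_ne_zero (mul_ne_zero (mul_ne_zero hneg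
      (div_ne_zero two_ne_zero hμ')) hc1') hl0) hkπ
  have h0r : (0 : ℂ) ∈ ball (0 : ℂ) r := mem_ball_self hr
  have hla : ∀ c ∈ ball (0 : ℂ) r, AnalyticAt ℂ lam c :=
    fun c hc => hlam.d.analyticAt (isOpen_ball.mem_nhds hc)
  -- continuity of the kernel
  have hΦ : ∃ δ : ℝ, 0 < δ ∧ ∀ g c y : ℂ, ‖g - c1‖ < δ → ‖c‖ < δ → ‖y - k * Real.pi‖ < δ →
      ‖(-1) ^ k * (2 / μ) * g * deriv lam c / y - k0‖ ≤ ‖k0‖ / 100 := by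
    have hc : ContinuousAt (fun x : ℂ × ℂ × ℂ =>
        (-1 : ℂ) ^ k * (2 / μ) * x.1 * deriv lam x.2.1 / x.2.2) (c1, 0, (k * Real.pi : ℂ)) := by
      have h1 : ContinuousAt (fun x : ℂ × ℂ × ℂ => deriv lam x.2.1) (c1, 0, (k * Real.pi : ℂ)) :=
        ContinuousAt.comp (f := fun x : ℂ × ℂ × ℂ => x.2.1) (g := deriv lam)
          (hla 0 h0r).deriv.continuousAt (by fun_prop)
      exact ContinuousAt.div ((by fun_prop : ContinuousAt (fun x : ℂ × ℂ × ℂ =>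
        (-1 : ℂ) ^ k * (2 / μ) * x.1) _).mul h1) (by fun_prop) hkπ
    rw [Metric.continuousAt_iff] at hc
    obtain ⟨δ, hδ, h1⟩ := hc (‖k0‖ / 100) (by have := norm_pos_iff.2 hk0ne; positivity)
    refine ⟨δ, hδ, fun g c y a1 a2 a3 => ?_⟩
    have h2 := @h1 (g, c, y) (by
      rw [Prod.dist_eq, Prod.dist_eq]
      refine max_lt (by rwa [dist_eq_norm]) (max_lt (by simpa [dist_eq_norm] using a2) ?_)
      rwa [dist_eq_norm])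
    dsimp only at h2
    rw [← hk0, dist_eq_norm] at h2
    exact h2.le
  obtain ⟨δ, hδ, hΦ⟩ := hΦ
  -- continuity of `lam`
  obtain ⟨η, hη, hlamε⟩ : ∃ η : ℝ, 0 < η ∧ ∀ c : ℂ, ‖c‖ < η → ‖lam c - l‖ < ε := by
    have h1 := (hla 0 h0r).continuousAt
    rw [Metric.continuousAt_iff] at h1
    obtain ⟨η, hη, h2⟩ := h1 ε hε
    refine ⟨η, hη, fun c hc => ?_⟩
    have h3 := @h2 c (by simpa [dist_eq_norm] using hc)
    rwa [dist_eq_norm, hlam.zero] at h3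
  -- choice of `ρ0`
  obtain ⟨ρ0, hρ0, hρ1, hcg⟩ : ∃ ρ0 : ℝ, 0 < ρ0 ∧ ρ0 < γ0 ∧ ∀ γ ∈ ball (γ0 : ℂ) ρ0,
      ‖cgf c1 μ γ0 γ - c1‖ < min δ 1 := by
    have h1 : ContinuousAt (cgf c1 μ γ0) γ0 :=
      (cgf_an hγ (half_lt_self hγ) (mem_ball_self (half_pos hγ)) c1 μ).continuousAt
    rw [Metric.continuousAt_iff] at h1
    obtain ⟨ρ, hρ, h2⟩ := h1 (min δ 1) (lt_min hδ one_pos)
    refine ⟨min ρ (γ0 / 2), lt_min hρ (half_pos hγ),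
      (min_le_right _ _).trans_lt (half_lt_self hγ), fun γ hγ1 => ?_⟩
    have h3 := @h2 γ (lt_of_lt_of_le hγ1 (min_le_left _ _))
    rwa [dist_eq_norm, cgf_self hγ] at h3
  -- choice of `M`
  obtain ⟨M1, hM1⟩ : ∃ M1 : ℝ, ∀ x : ℂ, x.re < -M1 → ‖Y x - k * Real.pi‖ < δ := by
    have h1 := hYl (Metric.ball_mem_nhds _ hδ)
    rw [Filter.mem_map, Filter.mem_comap] at h1
    obtain ⟨t, ht, h2⟩ := h1
    obtain ⟨a, ha⟩ := Filter.mem_atBot_sets.1 ht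
    refine ⟨-a, fun x hx => ?_⟩
    have h3 : x ∈ Y ⁻¹' ball (k * Real.pi : ℂ) δ := h2 (ha _ (by linarith))
    rw [mem_preimage, mem_ball, dist_eq_norm] at h3
    exact h3
  obtain ⟨M2, hM2⟩ : ∃ M2 : ℝ, ∀ x : ℝ, x < -M2 →
      (‖c1‖ + 1) * Real.exp (2 * x / μ) < min (min δ η) r := by
    have h1 : Tendsto (fun x : ℝ => (‖c1‖ + 1) * Real.exp (2 * x / μ)) atBot (𝓝 0) := by
      have h2 : Tendsto (fun x : ℝ => 2 * x / (μ : ℝ)) atBot atBot :=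
        (tendsto_id.const_mul_atBot two_pos).atBot_div_const hμr
      have h3 := Real.tendsto_exp_atBot.comp h2
      simpa using h3.const_mul (‖c1‖ + 1)
    have h4 := h1.eventually (gt_mem_nhds (lt_min (lt_min hδ hη) hr))
    obtain ⟨a, ha⟩ := Filter.eventually_atBot.1 h4
    exact ⟨-a, fun x hx => ha x (by linarith)⟩
  obtain ⟨M, hM⟩ : ∃ M : ℝ, M = max M0 (max M1 M2) := ⟨_, rfl⟩
  have hMM0 : M0 ≤ M := by rw [hM]; exact le_max_left _ _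
  have hMM1 : M1 ≤ M := by rw [hM]; exact (le_max_left _ _).trans (le_max_right _ _)
  have hMM2 : M2 ≤ M := by rw [hM]; exact (le_max_right _ _).trans (le_max_right _ _)
  have hD0 : ∀ x ∈ DZ M, x ∈ DZ M0 := by
    intro x hx
    have : x.re < -M := hx
    show x.re < -M0
    linarith
  have hYδ : ∀ x ∈ DZ M, ‖Y x - k * Real.pi‖ < δ := by
    intro x hx
    have : x.re < -M := hx
    exact hM1 x (by linarith)
  have hcc : ∀ p ∈ DZ M ×ˢ ball (γ0 : ℂ) ρ0, ‖ccf c1 μ γ0 p‖ < δ ∧ ‖ccf c1 μ γ0 p‖ < η ∧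
      ccf c1 μ γ0 p ∈ ball (0 : ℂ) r := by
    intro p hp
    have h1 : p.1.re < -M := hp.1
    have h2 := hM2 p.1.re (by linarith)
    have h3 : ‖ccf c1 μ γ0 p‖ ≤ (‖c1‖ + 1) * Real.exp (2 * p.1.re / μ) := by
      rw [ccf_norm]
      refine mul_le_mul_of_nonneg_right ?_ (Real.exp_pos _).le
      have h4 := (hcg _ hp.2).trans_le (min_le_right _ _)
      have h5 := norm_add_le (cgf c1 μ γ0 p.2 - c1) c1
      rw [sub_add_cancel] at h5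
      linarith
    have h6 := h3.trans_lt h2
    rw [lt_min_iff, lt_min_iff] at h6
    exact ⟨h6.1.1, h6.1.2, by rw [mem_ball_zero_iff]; exact h6.2⟩
  have hne : ∀ p : ℂ × ℂ, ccf c1 μ γ0 p ≠ 0 := fun p =>
    mul_ne_zero (mul_ne_zero hc1' (exp_ne_zero _)) (exp_ne_zero _)
  have hY0 : ∀ x ∈ DZ M, Y x ≠ 0 := by
    intro x hx h0
    have := (hY x (hD0 x hx)).1
    rw [h0, Complex.sin_zero] at this
    exact this rfl
  have hp2 : ∀ p ∈ DZ M ×ˢ ball (γ0 : ℂ) ρ0, p.2 ≠ 0 := fun p hp => (zm_slit hγ hρ1 hp.2).2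
  have hql : ∀ p ∈ DZ M ×ˢ ball (γ0 : ℂ) ρ0,
      p.2 ^ 2 * q (lam (ccf c1 μ γ0 p)) = exp (2 * p.1) := by
    intro p hp
    rw [(hlam.val _ (hcc p hp).2.2).2]
    exact ccf_pow hγ hμ hc1 (hp2 p hp)
  have hst : ∀ p ∈ DZ M ×ˢ ball (γ0 : ℂ) ρ0,
      q (lam (ccf c1 μ γ0 p)) * alZ k Y p ^ 2 = Y p.1 ^ 2 ∧
      S1 (q (lam (ccf c1 μ γ0 p)) * alZ k Y p ^ 2) ≠ 0 ∧
      Gf q (lam (ccf c1 μ γ0 p)) (alZ k Y p) = p.2 := by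
    intro p hp
    have h1 := hY p.1 (hD0 _ hp.1)
    exact z_state h1.1 h1.2 (hp2 p hp) (hql p hp)
  have hDop : IsOpen (DZ M) := isOpen_lt continuous_re continuous_const
  refine ⟨M, ρ0, fun p => (-1) ^ k * (2 / μ) * cgf c1 μ γ0 p.2 * deriv lam (ccf c1 μ γ0 p) /
    Y p.1, fun p => lam (ccf c1 μ γ0 p), k0, hMM0, ⟨⟨?_, hk0ne, hρ0, hρ1, hDop, ?_, ?_, ?_⟩,
    ?_, ?_, ?_, ?_, ?_, ?_, ?_⟩, ?_, ?_, fun p => rfl, fun p hp => (hcc p hp).2.2⟩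
  · positivity
  · intro z hz s hs
    have h1 : z.re < -M := hz
    show (z - s).re < -M
    rw [Complex.sub_re, Complex.ofReal_re]
    linarith
  · intro p hp
    have h1 : AnalyticAt ℂ (fun p : ℂ × ℂ => cgf c1 μ γ0 p.2) p :=
      (cgf_an hγ hρ1 hp.2 c1 μ).fun_comp analyticAt_snd
    have h2 : AnalyticAt ℂ (fun p : ℂ × ℂ => deriv lam (ccf c1 μ γ0 p)) p :=
      (hla _ (hcc p hp).2.2).deriv.fun_comp (ccf_an hγ hρ1 hp.2 c1 μ)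
    have h3 : AnalyticAt ℂ (fun p : ℂ × ℂ => Y p.1) p :=
      (hYa _ (hD0 _ hp.1)).fun_comp analyticAt_fst
    exact ((analyticAt_const.mul h1).mul h2).div h3 (hY0 _ hp.1)
  · intro p hp
    exact hΦ _ _ _ ((hcg _ hp.2).trans_le (min_le_left _ _)) (hcc p hp).1 (hYδ _ hp.1)
  · intro p hp
    exact (hla _ (hcc p hp).2.2).fun_comp (ccf_an hγ hρ1 hp.2 c1 μ)
  · intro p hp
    have h3 : AnalyticAt ℂ (fun p : ℂ × ℂ => Y p.1) p :=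
      (hYa _ (hD0 _ hp.1)).fun_comp analyticAt_fst
    have h4 : AnalyticAt ℂ (fun p : ℂ × ℂ => -p.1) p := analyticAt_fst.neg
    unfold alZ
    exact ((analyticAt_const.mul analyticAt_snd).mul h3).mul h4.cexp'
  · intro p hp
    exact (hlam.val _ (hcc p hp).2.2).1
  · intro p hp
    have h1 : HasDerivAt lam (deriv lam (ccf c1 μ γ0 p)) (ccf c1 μ γ0 (p.1, p.2)) :=
      (hla _ (hcc p hp).2.2).differentiableAt.hasDerivAt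
    have h2 := HasDerivAt.comp (h := fun z => ccf c1 μ γ0 (z, p.2)) (h₂ := lam) p.1 h1
      (ccf_deriv c1 μ γ0 p)
    refine h2.congr_deriv ?_
    have h3 := hY0 _ hp.1
    have h4 := hp2 p hp
    have hk2 : ((-1 : ℂ) ^ k) * (-1) ^ k = 1 := by
      rw [← mul_pow]; simp
    have he : exp (((1 + 2 / μ : ℝ) : ℂ) * p.1) = exp p.1 * exp (2 * p.1 / μ) := by
      rw [← exp_add]
      congr 1
      push_cast
      ring
    have he2 : exp (-p.1) * exp p.1 = 1 := by rw [← exp_add]; simp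
    unfold alZ ccf
    rw [he]
    calc deriv lam (cgf c1 μ γ0 p.2 * exp (2 * p.1 / μ)) *
          (cgf c1 μ γ0 p.2 * exp (2 * p.1 / μ) * (2 / μ))
        = (((-1 : ℂ) ^ k) * (-1) ^ k) * (exp (-p.1) * exp p.1) *
          (Y p.1 / Y p.1) * (p.2 / p.2) *
          (deriv lam (cgf c1 μ γ0 p.2 * exp (2 * p.1 / μ)) *
          (cgf c1 μ γ0 p.2 * exp (2 * p.1 / μ) * (2 / μ))) := by
          rw [hk2, he2, div_self h3, div_self h4]; ring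
      _ = _ := by ring
  · exact fun p hp => (hst p hp).2.1
  · exact fun p hp => (hst p hp).2.2
  · intro γ hγ1 F hF hFD hFre X hX
    have h1 : Tendsto (fun z => Y z ^ 2) F (𝓝 ((k * Real.pi : ℂ) ^ 2)) :=
      (hYl.mono_left (tendsto_iff_comap.1 hFre)).pow 2
    have h2 : Tendsto (fun z => Y z ^ 2) F (𝓝 X) := by
      refine hX.congr' ?_
      filter_upwards [le_principal_iff.1 hFD] with z hz
      exact (hst (z, γ) ⟨hz, hγ1⟩).1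
    rw [tendsto_nhds_unique h2 h1]
    exact Pool.Agent.MP_ae5b4e_an_M.S1_eq_zero.2 ⟨k, hk, rfl⟩
  · intro p hp
    refine ⟨hlamε _ (hcc p hp).2.1, ?_, hql p hp⟩
    intro h0
    rw [← hlam.zero] at h0
    exact hne p (hlam.inj (hcc p hp).2.2 h0r h0)
  · intro x hx
    show lam (ccf c1 μ γ0 (x, (γ0 : ℂ))) = _
    unfold ccf
    rw [cgf_self hγ]

/-- the short form of `z_model'` -/
theorem z_model {q : ℂ → ℂ} (hq : DifferentiableOn ℂ q Hm) {γ0 : ℝ} (hγ : 0 < γ0) {l : ℂ}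
    (hl : l.im < 0) {μ : ℕ} {lam : ℂ → ℂ} {r : ℝ} (hlam : ZChart q l μ lam r) {k : ℕ} (hk : 1 ≤ k)
    {M0 : ℝ} {Y : ℂ → ℂ} (hYa : AnalyticOnNhd ℂ Y (DZ M0))
    (hY : ∀ x ∈ DZ M0, sin (Y x) ≠ 0 ∧ G (Y x) = (-1) ^ k * exp x)
    (hYl : Tendsto Y (comap re atBot) (𝓝 (k * Real.pi))) {c1 : ℂ} (hc1 : c1 ^ μ * (γ0 : ℂ) ^ 2 = 1)
    {ε : ℝ} (hε : 0 < ε) :
    ∃ (M ρ0 : ℝ) (K lb : ℂ × ℂ → ℂ) (k0 : ℂ), M0 ≤ M ∧
      Mod q (DZ M) (1 + 2 / μ) k0 γ0 ρ0 K lb (alZ k Y) ∧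
      (∀ p ∈ DZ M ×ˢ ball (γ0 : ℂ) ρ0, ‖lb p - l‖ < ε ∧ lb p ≠ l ∧
        p.2 ^ 2 * q (lb p) = exp (2 * p.1)) ∧
      ∀ x ∈ DZ M, lb (x, γ0) = lam (c1 * exp (2 * x / μ)) := by
  obtain ⟨M, ρ0, K, lb, k0, h1, h2, h3, h4, -, -⟩ := z_model' hq hγ hl hlam hk hYa hY hYl hc1 hε
  exact ⟨M, ρ0, K, lb, k0, h1, h2, h3, h4⟩

end Pool.Agent.MP_ae5b4e_an_T
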