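import Pool.Agent.Lib.MP_ae5b4e_an_T.T4Sheet

/-!
# POR (iii), N2, T4: the path of the D-side states at a point `Z_k`
-/

noncomputable section

namespace Pool.Agent.MP_ae5b4e_an_T

open Complex Set Filter Topology Metric MeasureTheory
open Pool.Agent.MP_ae5b4e_an_WB
open Pool.Agent.MP_ae5b4e_an_WD
open Pool.Agent.MP_ae5b4e_an_M (S1 C1f Gf)

private theorem ZP_inv {f : ℂ → ℂ} {a x : ℂ} (h : HasDerivAt f a x) (ha : a ≠ 0) :
    (fderiv ℂ f x).IsInvertible := by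
  refine ⟨ContinuousLinearEquiv.unitsEquivAut ℂ (Units.mk0 a ha), ?_⟩
  rw [h.hasFDerivAt.fderiv]
  ext
  simp

/-- the D-side states at a point `Z_k`, with the branch of `y` near `k π` -/
private theorem ZP_states {q : ℂ → ℂ} {C : ℝ} {vi : ℂ → ℝ} {L : ℂ × ℂ → ℂ} (h : Lb q C vi L)
    {γ : ℝ} (hγ : 0 < γ) {x : ℝ} {l : ℂ} (hl : l.im < 0) {k : ℕ}
    (hZ : ZkAt q γ (vi γ) (fun τ => L (τ, γ)) x l k) :
    ∃ (s1 : ℝ) (F y r a : ℝ → ℂ), 0 < s1 ∧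
      (∀ s, F s = L ((x : ℂ) - vi γ * I - I * s, γ)) ∧
      (∀ s, a s = γ * dt L ((x : ℂ) - vi γ * I - I * s, γ)) ∧
      ContinuousOn F (Ioc 0 s1) ∧ ContinuousOn y (Ioc 0 s1) ∧
      (∀ s ∈ Ioc (0 : ℝ) s1, q (F s) ≠ 0 ∧ r s ≠ 0 ∧ a s ≠ 0 ∧ y s = r s * a s ∧
        r s ^ 2 = q (F s) ∧ sin (y s) ≠ 0 ∧ G (y s) = r s * γ) ∧
      Tendsto F (𝓝[>] 0) (𝓝 l) ∧ Tendsto y (𝓝[>] 0) (𝓝 (k * Real.pi)) ∧
      Tendsto (fun s => G (y s)) (𝓝[>] 0) (𝓝 0) := by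
  have hγ0 : (γ : ℂ) ≠ 0 := by exact_mod_cast hγ.ne'
  set ζ : ℂ := (x : ℂ) - vi γ * I with hζ
  have hHp : ∀ s : ℝ, 0 < s → ζ - I * s ∈ Hp (vi γ) := by
    intro s hs
    change (ζ - I * s).im < -vi γ
    rw [hζ]
    simp
    exact hs
  have hmem : ∀ s : ℝ, 0 < s → (ζ - I * s, (γ : ℂ)) ∈ Dv vi := fun s hs =>
    Lb.mem hγ (hHp s hs)
  have hPc : Continuous (fun s : ℝ => (ζ - I * s, (γ : ℂ))) := by fun_prop
  have hFc : ContinuousOn (fun s : ℝ => L (ζ - I * s, γ)) (Ioi 0) :=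
    h.ds.an.continuousOn.comp hPc.continuousOn fun s hs => hmem s hs
  have hac : ContinuousOn (fun s : ℝ => γ * dt L (ζ - I * s, γ)) (Ioi 0) :=
    continuousOn_const.mul (h.ds.an_dt.continuousOn.comp hPc.continuousOn fun s hs => hmem s hs)
  have hpt : ∀ s : ℝ, (x : ℂ) - (vi γ + s : ℝ) * I = ζ - I * s := by
    intro s
    rw [hζ]
    push_cast
    ring
  have hFl : Tendsto (fun s : ℝ => L (ζ - I * s, γ)) (𝓝[>] 0) (𝓝 l) := by
    have h1 : Tendsto (fun s : ℝ => ζ - I * s) (𝓝[>] 0) (𝓝[Hp (vi γ)] ζ) := by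
      refine tendsto_nhdsWithin_iff.2 ⟨?_, ?_⟩
      · have h2 : Tendsto (fun s : ℝ => ζ - I * s) (𝓝 0) (𝓝 (ζ - I * (0 : ℝ))) :=
          (by fun_prop : Continuous fun s : ℝ => ζ - I * s).tendsto 0
        rw [ofReal_zero, mul_zero, sub_zero] at h2
        exact h2.mono_left nhdsWithin_le_nhds
      · filter_upwards [self_mem_nhdsWithin] with s hs
        exact hHp s hs
    exact hZ.1.comp h1
  obtain ⟨F, hF⟩ : ∃ F : ℝ → ℂ, ∀ s, F s = L (ζ - I * s, γ) := ⟨_, fun s => rfl⟩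
  obtain ⟨a, ha⟩ : ∃ a : ℝ → ℂ, ∀ s, a s = γ * dt L (ζ - I * s, γ) := ⟨_, fun s => rfl⟩
  have hFc' : ContinuousOn F (Ioi 0) := hFc.congr fun s _ => hF s
  have hac' : ContinuousOn a (Ioi 0) := hac.congr fun s _ => ha s
  have hFl' : Tendsto F (𝓝[>] 0) (𝓝 l) := hFl.congr fun s => (hF s).symm
  have hHm : IsOpen Hm := isOpen_lt Complex.continuous_im continuous_const
  have hql : ContinuousAt q l := (h.ds.qd.differentiableAt (hHm.mem_nhds hl)).continuousAt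
  have hqF : Tendsto (fun s : ℝ => q (F s)) (𝓝[>] 0) (𝓝 0) := by
    have h1 := hql.tendsto.comp hFl'
    rw [hZ.2.1] at h1
    exact h1
  have hqFc : ContinuousOn (fun s : ℝ => q (F s)) (Ioi 0) := by
    refine h.ds.qd.continuousOn.comp hFc' fun s hs => ?_
    rw [hF]
    exact h.ds.low _ (hmem s hs)
  obtain ⟨κ, hκ⟩ : ∃ κ : ℂ, κ = (k : ℂ) * Real.pi := ⟨_, rfl⟩
  have hκ0 : κ ≠ 0 := by
    rw [hκ]
    refine mul_ne_zero ?_ (by exact_mod_cast Real.pi_ne_zero)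
    have := hZ.2.2.1
    exact_mod_cast (by omega : k ≠ 0)
  have hN : Tendsto (fun s => q (F s) * a s ^ 2) (𝓝[>] 0) (𝓝 (κ ^ 2)) := by
    rw [hκ]
    refine hZ.2.2.2.congr fun s => ?_
    rw [hpt, hF, ha]
    rfl
  obtain ⟨N, hNd⟩ : ∃ N : ℝ → ℂ, ∀ s, N s = q (F s) * a s ^ 2 := ⟨_, fun s => rfl⟩
  have hNc : ContinuousOn N (Ioi 0) := (hqFc.mul (hac'.pow 2)).congr fun s _ => hNd s
  have hrat : Tendsto (fun s : ℝ => N s / κ ^ 2) (𝓝[>] 0) (𝓝 1) := by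
    have h1 := (hN.congr fun s => (hNd s).symm).div_const (κ ^ 2)
    rwa [div_self (pow_ne_zero 2 hκ0)] at h1
  have hslit : ∀ᶠ s : ℝ in 𝓝[>] (0 : ℝ), N s / κ ^ 2 ∈ slitPlane :=
    hrat.eventually (isOpen_slitPlane.mem_nhds Complex.one_mem_slitPlane)
  obtain ⟨s1, hs1, hb⟩ := (mem_nhdsGT_iff_exists_Ioc_subset).1 hslit
  have hs1' : (0 : ℝ) < s1 := hs1
  have hIoc : Ioc 0 s1 ⊆ Ioi (0 : ℝ) := Ioc_subset_Ioi_self
  obtain ⟨y, hy⟩ : ∃ y : ℝ → ℂ, ∀ s, y s = κ * exp (log (N s / κ ^ 2) / 2) :=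
    ⟨_, fun s => rfl⟩
  have hysq : ∀ s ∈ Ioc (0 : ℝ) s1, y s ^ 2 = N s := by
    intro s hs
    have h1 : N s / κ ^ 2 ≠ 0 := slitPlane_ne_zero (hb hs)
    rw [hy, mul_pow, ← exp_nat_mul]
    have h2 : ((2 : ℕ) : ℂ) * (log (N s / κ ^ 2) / 2) = log (N s / κ ^ 2) := by
      push_cast
      ring
    rw [h2, exp_log h1]
    field_simp
  have hy0 : ∀ s : ℝ, y s ≠ 0 := fun s => by
    rw [hy]
    exact mul_ne_zero hκ0 (exp_ne_zero _)
  have hyc : ContinuousOn y (Ioc 0 s1) := by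
    have h1 : ContinuousOn (fun s => κ * exp (log (N s / κ ^ 2) / 2)) (Ioc 0 s1) := by
      refine continuousOn_const.mul ?_
      have h2 : ContinuousOn (fun s => log (N s / κ ^ 2)) (Ioc 0 s1) :=
        ((hNc.mono hIoc).div_const _).clog (fun s hs => hb hs)
      exact (h2.div_const 2).cexp
    exact h1.congr fun s _ => hy s
  have hyl : Tendsto y (𝓝[>] 0) (𝓝 κ) := by
    have h1 : Tendsto (fun s : ℝ => κ * exp (log (N s / κ ^ 2) / 2))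
        (𝓝[>] 0) (𝓝 (κ * exp (log 1 / 2))) := by
      refine Tendsto.const_mul _ ?_
      exact (Complex.continuous_exp.tendsto _).comp
        ((hrat.clog Complex.one_mem_slitPlane).div_const 2)
    rw [log_one, zero_div, exp_zero, mul_one] at h1
    exact h1.congr fun s => (hy s).symm
  have hq0 : ∀ s ∈ Ioc (0 : ℝ) s1, q (F s) ≠ 0 ∧ a s ≠ 0 := by
    intro s hs
    have h1 : N s ≠ 0 := by
      rw [← hysq s hs]
      exact pow_ne_zero 2 (hy0 s)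
    rw [hNd] at h1
    exact ⟨left_ne_zero_of_mul h1, (pow_ne_zero_iff two_ne_zero).1 (right_ne_zero_of_mul h1)⟩
  have hst : ∀ s ∈ Ioc (0 : ℝ) s1, q (F s) ≠ 0 ∧ y s / a s ≠ 0 ∧ a s ≠ 0 ∧
      y s = y s / a s * a s ∧ (y s / a s) ^ 2 = q (F s) ∧ sin (y s) ≠ 0 ∧
      G (y s) = y s / a s * γ := by
    intro s hs
    obtain ⟨hq1, ha0⟩ := hq0 s hs
    have hr0 : y s / a s ≠ 0 := div_ne_zero (hy0 s) ha0
    have hyr : y s / a s * a s = y s := div_mul_cancel₀ _ ha0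
    have hr2 : (y s / a s) ^ 2 = q (F s) := by
      rw [div_pow, hysq s hs, hNd, mul_div_cancel_right₀ _ (pow_ne_zero 2 ha0)]
    have h1 : S1 (q (F s) * a s ^ 2) ≠ 0 := by
      rw [ha, hF]
      exact h.ds.s1 _ (hmem s hs.1)
    have h2 : Gf q (F s) (a s) = γ := by
      rw [ha, hF]
      exact h.ds.gf _ (hmem s hs.1)
    have h3 := state_G hγ0 h1 h2 hr2 hr0
    rw [hyr] at h3
    exact ⟨hq1, hr0, ha0, hyr.symm, hr2, h3.1, h3.2⟩
  refine ⟨s1, F, y, fun s => y s / a s, a, hs1', hF, ha, hFc'.mono hIoc, hyc, hst, hFl', ?_, ?_⟩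
  · rw [← hκ]
    exact hyl
  · rw [tendsto_zero_iff_norm_tendsto_zero]
    have h1 : Tendsto (fun s => Real.sqrt ‖q (F s)‖ * γ) (𝓝[>] 0) (𝓝 (Real.sqrt ‖(0 : ℂ)‖ * γ)) :=
      ((Real.continuous_sqrt.tendsto _).comp hqF.norm).mul_const _
    rw [norm_zero, Real.sqrt_zero, zero_mul] at h1
    refine h1.congr' ?_
    filter_upwards [Ioc_mem_nhdsGT hs1'] with s hs
    obtain ⟨-, -, -, -, h5, -, h6⟩ := hst s hs
    rw [h6, norm_mul, ← h5, norm_pow, Real.sqrt_sq (norm_nonneg _), norm_real,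
      Real.norm_of_nonneg hγ.le]

/-- The D-side states on the vertical line below a point `Z_k`.

Proof. Write `ζ = x - vi γ I`, `F s = L (ζ - I s, γ)`, `α s = γ * dt L (ζ - I s, γ)` for `s > 0` (`(ζ - I s, γ) ∈ Dv vi`;
`F`, `α` continuous: `h.ds.an`, `DS.an_dt`). `F s → l` (`hZ.1`), `q (F s) → q l = 0`, and
`q (F s) * α s ^ 2 → (k π)^2 ≠ 0` (`hZ.2.2.2`; `Xf` is the same function). So `q (F s) ≠ 0` on some `Ioc 0 s0`.
(1) `sqrt_Ioc` (`T3Path.lean`): `r` continuous, `r s ^ 2 = q (F s)`; `y s = r s * α s`, `sin (y s) ≠ 0`,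
`G (y s) = r s * γ → 0` (`state_G`, `T3Path.lean`, `h.ds.s1`, `h.ds.gf`). `y s ^ 2 → (k π)^2`, so `y s → k π` or
`y s → - k π` (`y` continuous on an interval; near `0+` it is in one of two disjoint balls); replace `(r, y)` by
`(-r, -y)` (`G_neg`) in the second case: `y s → k π`.
(2) `z_sheet` gives `M`, `s2`, `Y`, `X` with `Y (X s) = y s`, `G (y s) = (-1)^k exp (X s)`, so
`γ^2 q (F s) = (γ r s)^2 = exp (2 X s)`.
(3) the chart: for small `s` the point `F s` is in the image of the ball of radius `r` (the chart radius) :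
`ZChart.nhds_le` (`WD/Z0.lean`) or `ZChart.map_nhds`; let `c s` be the preimage (`lam (c s) = F s`,
`‖c s‖ < r`); it is continuous in `s`: `lam` is injective and open on the ball (local inverse; `ZChart.map_nhds` at
the points `c s ≠ 0`), `c s ^ μ = q (F s) = exp (2 X s)/γ^2 ≠ 0`. The function
`c s * exp (- 2 X s/μ)` is continuous on `Ioc 0 s2` with `μ`-th power `γ^(-2)`, so it is constant (finitely many values
on an interval: `IsPreconnected.constant_of_mapsTo`, or the `μ`-th roots are discrete), `= c1`. Hence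
`c s = c1 exp (2 X s/μ)`.
(4) `α s = y s / r s = Y (X s) γ / G (y s) = (-1)^k γ Y (X s) exp (- X s) = alZ k Y (X s, γ)`. -/
theorem z_path {q : ℂ → ℂ} {C : ℝ} {vi : ℂ → ℝ} {L : ℂ × ℂ → ℂ} (h : Lb q C vi L) {γ : ℝ}
    (hγ : 0 < γ) {x : ℝ} {l : ℂ} (hl : l.im < 0) {k : ℕ}
    (hZ : ZkAt q γ (vi γ) (fun τ => L (τ, γ)) x l k) {μ : ℕ} {lam : ℂ → ℂ} {r : ℝ}
    (hlam : ZChart q l μ lam r) :
    ∃ (M s2 : ℝ) (Y : ℂ → ℂ) (c1 : ℂ) (X : ℝ → ℂ), 0 < s2 ∧ AnalyticOnNhd ℂ Y (DZ M) ∧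
      (∀ x ∈ DZ M, sin (Y x) ≠ 0 ∧ G (Y x) = (-1) ^ k * exp x) ∧
      Tendsto Y (comap re atBot) (𝓝 (k * Real.pi)) ∧ c1 ^ μ * (γ : ℂ) ^ 2 = 1 ∧
      ContinuousOn X (Ioc 0 s2) ∧ Tendsto (fun s => (X s).re) (𝓝[>] 0) atBot ∧
      ∀ s ∈ Ioc (0 : ℝ) s2, X s ∈ DZ M ∧
        L ((x : ℂ) - vi γ * I - I * s, γ) = lam (c1 * exp (2 * X s / μ)) ∧
        γ * dt L ((x : ℂ) - vi γ * I - I * s, γ) = alZ k Y (X s, γ) := by
  have hγ0 : (γ : ℂ) ≠ 0 := by exact_mod_cast hγ.ne'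
  obtain ⟨s1, F, y, ρ, a, hs1, hF, ha, hFc, hyc, hst, hFl, hyl, hGl⟩ := ZP_states h hγ hl hZ
  obtain ⟨M, s2, Y, X, hs2, hs21, hYan, hYG, hYl, hXc, hXY, hXl⟩ :=
    z_sheet hZ.2.2.1 hs1 hyc (fun s hs => (hst s hs).2.2.2.2.2.1) hyl hGl
  have hsub : Ioc 0 s2 ⊆ Ioc 0 s1 := Ioc_subset_Ioc_right hs21
  -- the values of the state in the coordinate `X`
  have hrX : ∀ s ∈ Ioc (0 : ℝ) s2, ρ s * γ = (-1) ^ k * exp (X s) := by
    intro s hs
    obtain ⟨h1, h2⟩ := hXY s hs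
    rw [← (hst s (hsub hs)).2.2.2.2.2.2, ← h2]
    exact (hYG _ h1).2
  have hkey : ∀ s ∈ Ioc (0 : ℝ) s2, q (F s) * (γ : ℂ) ^ 2 = exp (2 * X s) := by
    intro s hs
    rw [← (hst s (hsub hs)).2.2.2.2.1, ← mul_pow, hrX s hs, mul_pow, ← pow_mul, mul_comm k 2,
      pow_mul, neg_one_sq, one_pow, one_mul, ← exp_nat_mul]
    push_cast
    rfl
  -- the chart
  have himg : lam '' ball 0 r ∈ 𝓝 l := hlam.nhds_le (image_mem_map (ball_mem_nhds _ hlam.pos))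
  obtain ⟨s3, hs3, hb⟩ := (mem_nhdsGT_iff_exists_Ioc_subset).1
    (Filter.inter_mem (hFl himg) (Ioc_mem_nhdsGT hs2))
  have hs3' : (0 : ℝ) < s3 := hs3
  have hm3 : s3 ∈ Ioc 0 s3 := ⟨hs3', le_rfl⟩
  have hsub3 : Ioc 0 s3 ⊆ Ioc 0 s2 := fun s hs => (hb hs).2
  have hμ0 : (μ : ℂ) ≠ 0 := Nat.cast_ne_zero.2 hlam.mu.ne'
  have hFlam : ∀ s ∈ Ioc (0 : ℝ) s3, ∃ c ∈ ball (0 : ℂ) r, c ≠ 0 ∧ lam c = F s ∧
      c ^ μ = q (F s) := by
    intro s hs
    obtain ⟨c, hc, hcF⟩ := (hb hs).1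
    have h1 := (hlam.val c hc).2
    rw [hcF] at h1
    refine ⟨c, hc, ?_, hcF, h1.symm⟩
    rintro rfl
    rw [zero_pow hlam.mu.ne'] at h1
    exact (hst s (hsub (hsub3 hs))).1 h1
  obtain ⟨c3, hc3, hc30, hc3F, hc3q⟩ := hFlam s3 hm3
  have hc1 : (c3 * exp (-(2 * X s3 / μ))) ^ μ * (γ : ℂ) ^ 2 = 1 := by
    have h1 : ((μ : ℕ) : ℂ) * (-(2 * X s3 / μ)) = -(2 * X s3) := by
      field_simp
    rw [mul_pow, ← exp_nat_mul, h1, hc3q, mul_right_comm, hkey s3 (hsub3 hm3), ← exp_add,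
      add_neg_cancel, exp_zero]
  set c1 : ℂ := c3 * exp (-(2 * X s3 / μ)) with hc1d
  have hc10 : c1 ≠ 0 := mul_ne_zero hc30 (exp_ne_zero _)
  have hpow : ∀ s ∈ Ioc (0 : ℝ) s3, (c1 * exp (2 * X s / μ)) ^ μ = q (F s) := by
    intro s hs
    have h1 : ((μ : ℕ) : ℂ) * (2 * X s / μ) = 2 * X s := by
      field_simp
    rw [mul_pow, ← exp_nat_mul, h1, ← hkey s (hsub3 hs)]
    linear_combination q (F s) * hc1
  have hball : ∀ s ∈ Ioc (0 : ℝ) s3, c1 * exp (2 * X s / μ) ∈ ball (0 : ℂ) r \ {0} := by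
    intro s hs
    refine ⟨?_, ?_⟩
    · obtain ⟨c, hc, -, -, hcq⟩ := hFlam s hs
      have h1 : ‖c1 * exp (2 * X s / μ)‖ ^ μ = ‖c‖ ^ μ := by
        rw [← norm_pow, ← norm_pow, hpow s hs, hcq]
      have h2 : ‖c1 * exp (2 * X s / μ)‖ = ‖c‖ :=
        (pow_left_inj₀ (norm_nonneg _) (norm_nonneg _) hlam.mu.ne').1 h1
      rw [mem_ball_zero_iff, h2]
      exact mem_ball_zero_iff.1 hc
    · exact mul_ne_zero hc10 (exp_ne_zero _)
  have hHm : IsOpen Hm := isOpen_lt Complex.continuous_im continuous_const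
  have hP : IsOpen (lam '' (ball 0 r \ {0})) := by
    rw [isOpen_iff_mem_nhds]
    rintro _ ⟨c, hc, rfl⟩
    rw [← hlam.map_nhds h.ds.qd hc.1 hc.2]
    exact image_mem_map ((isOpen_ball.sdiff isClosed_singleton).mem_nhds hc)
  have hqan : AnalyticOnNhd ℂ q (lam '' (ball 0 r \ {0})) := by
    rintro _ ⟨c, hc, rfl⟩
    exact h.ds.qd.analyticAt (hHm.mem_nhds (hlam.val c hc.1).1)
  have hinv : ∀ z ∈ lam '' (ball 0 r \ {0}), (fderiv ℂ q z).IsInvertible := by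
    rintro _ ⟨c, hc, rfl⟩
    have hqd : DifferentiableAt ℂ q (lam c) :=
      h.ds.qd.differentiableAt (hHm.mem_nhds (hlam.val c hc.1).1)
    have hld : DifferentiableAt ℂ lam c :=
      (hlam.d c hc.1).differentiableAt (isOpen_ball.mem_nhds hc.1)
    have hcomp : HasDerivAt (fun x => q (lam x)) (deriv q (lam c) * deriv lam c) c :=
      hqd.hasDerivAt.comp c hld.hasDerivAt
    have hpw : HasDerivAt (fun x : ℂ => x ^ μ) (μ * c ^ (μ - 1)) c := hasDerivAt_pow μ c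
    have hev : (fun x => q (lam x)) =ᶠ[𝓝 c] fun x => x ^ μ := by
      filter_upwards [isOpen_ball.mem_nhds hc.1] with x hx
      exact (hlam.val x hx).2
    have heq := hcomp.unique (hpw.congr_of_eventuallyEq hev)
    refine ZP_inv hqd.hasDerivAt fun h0 => ?_
    rw [h0, zero_mul] at heq
    exact mul_ne_zero hμ0 (pow_ne_zero _ hc.2) heq.symm
  have hEq : EqOn F (fun s => lam (c1 * exp (2 * X s / μ))) (Ioc 0 s3) := by
    refine Pool.Agent.MP_ae5b4e_an_AZ.lifts_eqOn hP hqan hinv isPreconnected_Ioc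
      (hFc.mono (hsub3.trans hsub)) ?_ ?_ ?_ ?_ hm3 ?_
    · refine hlam.d.continuousOn.comp ?_ fun s hs => (hball s hs).1
      exact continuousOn_const.mul
        ((continuousOn_const.mul (hXc.mono hsub3)).div_const _).cexp
    · intro s hs
      obtain ⟨c, hc, hc0, hcF, -⟩ := hFlam s hs
      exact ⟨c, ⟨hc, hc0⟩, hcF⟩
    · intro s hs
      exact ⟨_, hball s hs, rfl⟩
    · intro s hs
      rw [(hlam.val _ (hball s hs).1).2, hpow s hs]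
    · rw [hc1d, mul_assoc, ← exp_add, neg_add_cancel, exp_zero, mul_one, hc3F]
  refine ⟨M, s3, Y, c1, X, hs3', hYan, hYG, hYl, hc1, hXc.mono hsub3, hXl, fun s hs => ?_⟩
  refine ⟨(hXY s (hsub3 hs)).1, ?_, ?_⟩
  · rw [← hF s]
    exact hEq hs
  · rw [← ha s]
    obtain ⟨-, hρ0, -, hyr, -, -, -⟩ := hst s (hsub (hsub3 hs))
    have h1 := hrX s (hsub3 hs)
    have h2 : ((-1 : ℂ) ^ k) * (-1) ^ k = 1 := by
      rw [← mul_pow, neg_one_mul, neg_neg, one_pow]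
    have h3 : exp (X s) * exp (-X s) = 1 := by
      rw [← exp_add, add_neg_cancel, exp_zero]
    unfold alZ
    simp only
    rw [(hXY s (hsub3 hs)).2, hyr]
    have h4 : ρ s * γ * ((-1) ^ k * exp (-X s)) = 1 := by
      rw [h1]
      linear_combination exp (X s) * exp (-X s) * h2 + h3
    linear_combination (-a s) * h4

end Pool.Agent.MP_ae5b4e_an_T
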