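import Pool.Agent.Lib.MP_ae5b4e_an_T.T4Tip
import Pool.Agent.Lib.MP_ae5b4e_an_T.T4ZM
import Pool.Agent.Lib.MP_ae5b4e_an_T.T4ZP
import Pool.Agent.Lib.MP_ae5b4e_an_T.T4ZG

/-!
# POR (iii), N2, T4: slit neighbourhood of a point `Z_k`
-/

noncomputable section

namespace Pool.Agent.MP_ae5b4e_an_T

open Complex Set Filter Topology Metric MeasureTheory
open Pool.Agent.MP_ae5b4e_an_WB
open Pool.Agent.MP_ae5b4e_an_WD
open Pool.Agent.MP_ae5b4e_an_M (S1 C1f Gf)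

/-- `q` is not constant near a point of `Hm` -/
theorem not_ev_zero {q : ℂ → ℂ} (hqd : DifferentiableOn ℂ q Hm)
    (hq : ∃ z ∈ Hm, ∃ z' ∈ Hm, q z ≠ q z') {l : ℂ} (hl : l.im < 0) :
    ¬ ∀ᶠ z in 𝓝 l, q z = 0 := by
  intro h0
  have ho : IsOpen Hm := isOpen_lt continuous_im continuous_const
  have hc : Convex ℝ Hm := convex_halfSpace_im_lt 0
  have ha : AnalyticOnNhd ℂ q Hm := hqd.analyticOnNhd ho
  have h1 : EqOn q 0 Hm := ha.eqOn_zero_of_preconnected_of_eventuallyEq_zero hc.isPreconnected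
    (show l ∈ Hm from hl) h0
  obtain ⟨z, hz, z', hz', hne⟩ := hq
  exact hne ((h1 hz).trans (h1 hz').symm)

/-- T4b. slit neighbourhood of a point `Z_k`, with the coordinate `Zf` (`X = log ((-1)^k w)`). -/
theorem slit_Zx {q : ℂ → ℂ} {C : ℝ} {vi : ℂ → ℝ} {L : ℂ × ℂ → ℂ} (h : Lb q C vi L) {γ : ℝ}
    (hγ : 0 < γ) (hqn : ∃ z ∈ Hm, ∃ z' ∈ Hm, q z ≠ q z') {x : ℝ} {l : ℂ} (hl : l.im < 0) {k : ℕ}
    (hZ : ZkAt q γ (vi γ) (fun τ => L (τ, γ)) x l k) {ε : ℝ} (hε : 0 < ε) :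
    ∃ (Tb : ℂ → ℂ) (Λ : ℂ × ℂ → ℂ) (R ρ : ℝ), R < ε ∧
      SlN vi L γ ((x : ℂ) - vi γ * I) Tb R ρ Λ ∧
      (∀ p ∈ Slb Tb ((x : ℂ) - vi γ * I) γ R ρ, ‖Λ p - l‖ < ε) ∧
      ZAt q (Dv vi) L γ ((x : ℂ) - vi γ * I) l k ∧
      (∀ u : ℂ, 0 < u.re → ∀ (μ : ℕ) (lam : ℂ → ℂ) (r : ℝ), ZChart q l μ lam r →
        ∃ s1 : ℝ, 0 < s1 ∧ ∀ s ∈ Ioc (0 : ℝ) s1, ∃ δ : ℝ, 0 < δ ∧
          ∀ τ ∈ ball ((x : ℂ) - vi γ * I - I * s) δ, (τ, (γ : ℂ)) ∈ Dv vi ∧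
            ∃ c : ℂ, ZGerm q (Dv vi) L γ u μ lam τ c (fun z => Tb (γ * exp (u * z)))) ∧
      ∃ (μ : ℕ) (lam : ℂ → ℂ) (r M ρ0 : ℝ) (Y : ℂ → ℂ) (c1 k0 : ℂ) (K lb Zf : ℂ × ℂ → ℂ),
        ZChart q l μ lam r ∧ AnalyticOnNhd ℂ Y (DZ M) ∧
        (∀ x ∈ DZ M, sin (Y x) ≠ 0 ∧ G (Y x) = (-1) ^ k * exp x) ∧
        Tendsto Y (comap re atBot) (𝓝 (k * Real.pi)) ∧ c1 ^ μ * (γ : ℂ) ^ 2 = 1 ∧
        Mod q (DZ M) (1 + 2 / μ) k0 γ ρ0 K lb (alZ k Y) ∧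
        (∀ p ∈ DZ M ×ˢ ball (γ : ℂ) ρ0, ‖lb p - l‖ < ε ∧ lb p ≠ l ∧
          p.2 ^ 2 * q (lb p) = exp (2 * p.1) ∧ lb p = lam (ccf c1 μ γ p) ∧
          ccf c1 μ γ p ∈ ball (0 : ℂ) r) ∧
        ρ ≤ ρ0 ∧ (∀ p, Λ p = lb (Zf p, p.2)) ∧
        AnalyticOnNhd ℂ Zf (Slb Tb ((x : ℂ) - vi γ * I) γ R ρ) ∧
        (∀ p ∈ Slb Tb ((x : ℂ) - vi γ * I) γ R ρ, Zf p ∈ DZ M ∧
          Tm (1 + 2 / μ) K (Zf p, p.2) = p.1 - Tb p.2) ∧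
        ∀ p ∈ Slb Tb ((x : ℂ) - vi γ * I) γ R ρ, p ∈ Dv vi →
          lb (Zf p, p.2) = L p ∧ alZ k Y (Zf p, p.2) = p.2 * dt L p := by
  have hq := h.ds.qd
  have hγ' : (γ : ℂ) ≠ 0 := by exact_mod_cast hγ.ne'
  set ζ : ℂ := (x : ℂ) - vi γ * I with hζ
  have hζim : ζ.im = -vi γ := by simp [hζ]
  have hk : 1 ≤ k := hZ.2.2.1
  obtain ⟨μ0, lam0, r0, hlam0⟩ := exists_zChart hq hl hZ.2.1 (not_ev_zero hq hqn hl)
  obtain ⟨M0, s3, Y, c1, X, hs3, hYa, hY, hYl, hc1, hXc, hXre, hX⟩ := z_path h hγ hl hZ hlam0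
  obtain ⟨M, ρ0, K, lb, k0, hM, hm, hlb, hlb0, hlbc, hccr⟩ := z_model' hq hγ hl hlam0 hk hYa hY hYl hc1 hε
  have hsub : DZ M ⊆ DZ M0 := fun X hX => by
    have h1 : X.re < -M := hX
    change X.re < -M0
    linarith
  have hYa' : AnalyticOnNhd ℂ Y (DZ M) := hYa.mono hsub
  have hY' : ∀ x ∈ DZ M, sin (Y x) ≠ 0 ∧ G (Y x) = (-1) ^ k * exp x := fun x hx => hY x (hsub hx)
  -- D-side points below `ζ`
  have hD : ∀ s : ℝ, 0 < s → (ζ - I * s, (γ : ℂ)) ∈ Dv vi := by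
    intro s hs
    refine ⟨hγ', ?_⟩
    change (ζ - I * s).im < -vi γ
    simp [hζ, hs]
  have hLl : Tendsto (fun s : ℝ => L (ζ - I * s, γ)) (𝓝[>] 0) (𝓝 l) := by
    have h1 : Tendsto (fun s : ℝ => ζ - I * s) (𝓝[>] 0) (𝓝[Hp (vi γ)] ζ) := by
      refine tendsto_nhdsWithin_iff.2 ⟨?_, ?_⟩
      · have h2 : Tendsto (fun s : ℝ => ζ - I * s) (𝓝 0) (𝓝 (ζ - I * (0 : ℝ))) :=
          Continuous.tendsto (by fun_prop) 0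
        rw [ofReal_zero, mul_zero, sub_zero] at h2
        exact h2.mono_left nhdsWithin_le_nhds
      · filter_upwards [self_mem_nhdsWithin] with s hs
        exact (hD s hs).2
    exact hZ.1.comp h1
  -- restriction of the path
  have hev : ∀ᶠ s in 𝓝[>] (0 : ℝ), (X s).re < -M - 1 / (1 + 2 / μ0 : ℝ) :=
    hXre.eventually (eventually_lt_atBot _)
  obtain ⟨s2, hs2, hs23, hev2⟩ : ∃ s2 : ℝ, 0 < s2 ∧ s2 ≤ s3 ∧ ∀ s ∈ Ioc (0 : ℝ) s2,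
      (X s).re < -M - 1 / (1 + 2 / μ0 : ℝ) := by
    obtain ⟨b, hb, hb2⟩ := mem_nhdsGT_iff_exists_Ioc_subset.1 hev
    refine ⟨min b s3, lt_min hb hs3, min_le_right _ _, fun s hs => ?_⟩
    have hsb : s ∈ Ioc (0 : ℝ) b := ⟨hs.1, hs.2.trans (min_le_left _ _)⟩
    exact hb2 hsb
  have hβ : (0 : ℝ) < 1 / (1 + 2 / μ0 : ℝ) := by positivity
  have hXD : ∀ s ∈ Ioc (0 : ℝ) s2, X s ∈ DZ M := fun s hs => by
    have := hev2 s hs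
    change (X s).re < -M
    linarith
  have hρ0 := hm.mdl.ρ_pos
  have hp : Pst (Dv vi) L (DZ M) (1 + 2 / μ0) γ lb (alZ k Y) ζ s2 X := by
    refine ⟨hs2, hXc.mono fun s hs => ⟨hs.1, hs.2.trans hs23⟩, ?_, hXre, ?_⟩
    · intro s hs
      obtain ⟨k1, k2, k3⟩ := hX s ⟨hs.1, hs.2.trans hs23⟩
      refine ⟨hXD s hs, hD s hs.1, ?_, k3.symm⟩
      rw [hlb0 _ (hXD s hs)]
      exact k2.symm
    · filter_upwards [Ioc_mem_nhdsGT hs2] with s hs w hw1 _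
      have := hev2 s hs
      change w.re < -M
      linarith
  obtain ⟨Tb, Zf, R, ρ, hRε, hρρ0, hSl, hZa, hZT, hLa⟩ := slit_mod h hγ hζim hm hp hε
  have hR0 : 0 < R := hSl.pos.trans_le hSl.le
  refine ⟨Tb, fun p => lb (Zf p, p.2), R, ρ, hRε, hSl, ?_, ?_, ?_, μ0, lam0, r0, M, ρ0, Y, c1, k0, K,
    lb, Zf, hlam0, hYa', hY', hYl, hc1, hm, fun p hp' => ⟨(hlb p hp').1, (hlb p hp').2.1,
    (hlb p hp').2.2, hlbc p, hccr p hp'⟩, hρρ0, fun _ => rfl, hZa, hZT, hLa⟩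
  · intro p hp'
    exact (hlb (Zf p, p.2) ⟨(hZT p hp').1, ball_subset_ball hρρ0 hp'.1.2⟩).1
  · -- `ZAt`
    refine ⟨⟨1, one_pos, fun s hs => hD s hs.1⟩, hLl, hl, hZ.2.1, ?_, ?_⟩
    · exact_mod_cast (by omega : k ≠ 0)
    · have h1 := hZ.2.2.2
      have h2 : (((k : ℤ) : ℂ) * Real.pi) ^ 2 = (k * Real.pi : ℂ) ^ 2 := by push_cast; rfl
      rw [h2]
      refine h1.congr fun s => ?_
      have h3 : (x : ℂ) - (vi γ + s : ℝ) * I = ζ - I * s := by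
        rw [hζ]
        push_cast
        ring
      rw [h3]
      rfl
  · -- the germs
    intro u hu μ lam r hlam
    have hr := hlam.pos
    -- labels near `l` are in the chart
    set r1 : ℝ := min r (min 1 (1 / (γ ^ 2 + 1))) with hr1
    have hr10 : 0 < r1 := lt_min hr (lt_min one_pos (by positivity))
    have hmap : lam '' ball 0 r1 ∈ 𝓝 l := hlam.nhds_le (image_mem_map (ball_mem_nhds 0 hr10))
    have hev3 : ∀ᶠ s : ℝ in 𝓝[>] (0 : ℝ), L (ζ - I * s, γ) ∈ lam '' ball 0 r1 ∧ s < R :=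
      (hLl.eventually hmap).and ((eventually_lt_nhds hR0).filter_mono nhdsWithin_le_nhds)
    obtain ⟨b, hb, hb2⟩ := mem_nhdsGT_iff_exists_Ioc_subset.1 hev3
    refine ⟨min b s2, lt_min hb hs2, fun s hs => ?_⟩
    have hsb : s ∈ Ioc (0 : ℝ) b := ⟨hs.1, hs.2.trans (min_le_left _ _)⟩
    obtain ⟨⟨a0, ha0r, ha0⟩, hsR⟩ := hb2 hsb
    have hs2' : s ∈ Ioc (0 : ℝ) s2 := ⟨hs.1, hs.2.trans (min_le_right _ _)⟩
    have ha0r' : ‖a0‖ < r1 := mem_ball_zero_iff.1 ha0r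
    have ha0r2 : ‖a0‖ < r := ha0r'.trans_le (min_le_left _ _)
    have ha01 : ‖a0‖ < 1 := ha0r'.trans_le ((min_le_right _ _).trans (min_le_left _ _))
    have ha02 : ‖a0‖ < 1 / (γ ^ 2 + 1) :=
      ha0r'.trans_le ((min_le_right _ _).trans (min_le_right _ _))
    have hS := below_mem hSl.pos hSl.T0 hs.1 hsR
    have hDs := hD s hs.1
    obtain ⟨hL1, hal1⟩ := hLa _ hS hDs
    have hZD := (hZT _ hS).1
    have ha00 : a0 ≠ 0 := by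
      intro h0
      rw [h0, hlam.zero] at ha0
      have h1 := (hlb (Zf (ζ - I * s, γ), (γ : ℂ)) ⟨hZD, mem_ball_self hρ0⟩).2.1
      exact h1 (by rw [hL1, ha0])
    have hsm : ‖(γ : ℂ)‖ ^ 2 * ‖a0‖ ^ μ ≤ 1 := by
      rw [Complex.norm_real, Real.norm_of_nonneg hγ.le]
      have h1 : ‖a0‖ ^ μ ≤ ‖a0‖ := by
        have h2 := pow_le_pow_of_le_one (norm_nonneg a0) ha01.le hlam.mu
        simpa using h2
      have h3 : γ ^ 2 * ‖a0‖ ≤ 1 := by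
        have h4 : ‖a0‖ * (γ ^ 2 + 1) < 1 := (lt_div_iff₀ (by positivity)).1 ha02
        nlinarith [norm_nonneg a0]
      exact (mul_le_mul_of_nonneg_left h1 (by positivity)).trans h3
    obtain ⟨δ, hδ, hloc⟩ := z_local h.ds hu hγ' hlam hDs ha0 ha00 ha0r2 hsm
    refine ⟨δ, hδ, fun τ hτ => ?_⟩
    obtain ⟨hU, a, ha, har, hla, hsame⟩ := hloc τ hτ
    refine ⟨hU, a, hla, ?_, ?_⟩
    · intro h0
      rw [h0, zero_sub, norm_neg] at ha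
      have := norm_pos_iff.2 ha00
      linarith
    · intro Y1 f hY1 hf
      obtain ⟨f0, hf0⟩ := h.ds.exists_invGerm (u := u) hDs
      set z1 : ℂ := Zf (ζ - I * s, γ) with hz1
      have hYs : Y z1 ^ 2 = y2 q L (ζ - I * s, γ) := by
        have h3 : (γ : ℂ) ^ 2 * q (lb (z1, γ)) = exp (2 * z1) :=
          (hlb (z1, (γ : ℂ)) ⟨hZD, mem_ball_self hρ0⟩).2.2
        have h4 := z_state (q := q) (hY' z1 hZD).1 (hY' z1 hZD).2 hγ' h3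
        have h5 : y2 q L (ζ - I * s, γ) = q (lb (z1, γ)) * alZ k Y (z1, γ) ^ 2 := by
          unfold y2
          rw [hL1, hal1]
        rw [h5]
        exact h4.1.symm
      obtain ⟨g1, g2, g3, g4⟩ := germ_near h hm hSl.Tan hZa hZT (fun p h6 h7 => (hLa p h6 h7).1)
        hS hDs hf0
      have hg3 : ∀ᶠ z in 𝓝 (0 : ℂ), lb (Zf (f0 z, γ * exp (u * z)), γ * exp (u * z)) = lam a0 := by
        filter_upwards [g3] with z hz'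
        rw [hz', ha0]
      have hkey := z_germ hq hγ hl hYa' hY' hm (fun p hp' => (hlb p hp').2.2) hu hlam ha00 ha0r2 hZD
        (by rw [hL1, ha0]) g1 g2 hg3
      filter_upwards [hkey, g4, hsame (Y z1) Y1 f0 f hYs hY1 hf0 hf] with z j1 j2 j3
      rw [j3, ← j1, j2]
      ring

/-- T4b, as in `Top.lean`. -/
theorem slit_Z {q : ℂ → ℂ} {C : ℝ} {vi : ℂ → ℝ} {L : ℂ × ℂ → ℂ} (h : Lb q C vi L) {γ : ℝ}
    (hγ : 0 < γ) (hqn : ∃ z ∈ Hm, ∃ z' ∈ Hm, q z ≠ q z') {x : ℝ} {l : ℂ} (hl : l.im < 0) {k : ℕ}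
    (hZ : ZkAt q γ (vi γ) (fun τ => L (τ, γ)) x l k) {ε : ℝ} (hε : 0 < ε) :
    ∃ (Tb : ℂ → ℂ) (Λ : ℂ × ℂ → ℂ) (R ρ : ℝ), R < ε ∧
      SlN vi L γ ((x : ℂ) - vi γ * I) Tb R ρ Λ ∧
      (∀ p ∈ Slb Tb ((x : ℂ) - vi γ * I) γ R ρ, ‖Λ p - l‖ < ε) ∧
      ZAt q (Dv vi) L γ ((x : ℂ) - vi γ * I) l k ∧
      ∀ u : ℂ, 0 < u.re → ∀ (μ : ℕ) (lam : ℂ → ℂ) (r : ℝ), ZChart q l μ lam r →
        ∃ s1 : ℝ, 0 < s1 ∧ ∀ s ∈ Ioc (0 : ℝ) s1, ∃ δ : ℝ, 0 < δ ∧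
          ∀ τ ∈ ball ((x : ℂ) - vi γ * I - I * s) δ, (τ, (γ : ℂ)) ∈ Dv vi ∧
            ∃ c : ℂ, ZGerm q (Dv vi) L γ u μ lam τ c (fun z => Tb (γ * exp (u * z))) := by
  obtain ⟨Tb, Λ, R, ρ, h1, h2, h3, h4, h5, -⟩ := slit_Zx h hγ hqn hl hZ hε
  exact ⟨Tb, Λ, R, ρ, h1, h2, h3, h4, h5⟩

end Pool.Agent.MP_ae5b4e_an_T
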