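import Pool.Agent.Lib.MP_ae5b4e_an_T.Bx
import Pool.Agent.Lib.MP_ae5b4e_an_T.T3
import Pool.Agent.Lib.MP_ae5b4e_an_T.T4Z
import Pool.Agent.Lib.MP_ae5b4e_an_T.Stretch

/-!
# POR (iii), N2, section T, block T5b: the points of the line which are not of type `I`
-/

noncomputable section

namespace Pool.Agent.MP_ae5b4e_an_T

open Complex Set Filter Topology Metric
open Pool.Agent.MP_ae5b4e_an_WB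
open Pool.Agent.MP_ae5b4e_an_WD
open Pool.Agent.MP_ae5b4e_an_A1 (SB Sd Slt)

/-- the members of `W` are not constant -/
theorem Fm.ne_const {W : Set (ℂ → ℂ)} {C kap : ℝ} (hW : Fm W C kap) {q : ℂ → ℂ} (hq : q ∈ W) :
    ∃ z ∈ Hm, ∃ z' ∈ Hm, q z ≠ q z' := by
  obtain ⟨c, hc, h⟩ := hW.osc 1 one_pos 3
  have hm : MapsTo (fun s : ℝ => (s : ℂ) - 2 * I) (Icc 0 1) (PorTR.Strip 2 3) := by
    intro s _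
    constructor <;> simp <;> norm_num
  obtain ⟨s, hs, h1⟩ := h q hq 0 1 (fun s : ℝ => (s : ℂ) - 2 * I) zero_le_one
    (by fun_prop) hm (by
      rw [dist_eq_norm]
      have : ((0 : ℝ) : ℂ) - 2 * I - (((1 : ℝ) : ℂ) - 2 * I) = -1 := by
        push_cast
        ring
      rw [this, norm_neg, norm_one])
  refine ⟨(s : ℂ) - 2 * I, ?_, ((0 : ℝ) : ℂ) - 2 * I, ?_, fun he => ?_⟩
  · show ((s : ℂ) - 2 * I).im < 0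
    simp
  · show (((0 : ℝ) : ℂ) - 2 * I).im < 0
    simp
  · rw [he, dist_self] at h1
    linarith

/-- the data of a tip or of a point `Z_k` of the line -/
def PrT (q : ℂ → ℂ) (vi : ℂ → ℝ) (L : ℂ × ℂ → ℂ) (γ x : ℝ) (T : ℂ → ℂ) : Prop :=
  (∃ l : ℂ, 3 ≤ -l.im ∧ TAt q γ (vi γ) (fun τ => L (τ, γ)) x l ∧ deriv q l ≠ 0 ∧
    TipAt q (Dv vi) L γ ((x : ℂ) - vi γ * I) l ∧
    ∀ u : ℂ, 0 < u.re → ∀ (lam : ℂ → ℂ) (r : ℝ), LocChart u q l lam r →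
      ∃ s1 : ℝ, 0 < s1 ∧ ∀ s ∈ Ioc (0 : ℝ) s1, ∃ δ : ℝ, 0 < δ ∧
        ∀ τ ∈ ball ((x : ℂ) - vi γ * I - I * s) δ, (τ, (γ : ℂ)) ∈ Dv vi ∧
          ∃ a : ℂ, TipGerm q (Dv vi) L γ u lam τ a (fun z => T (γ * exp (u * z)))) ∨
  ∃ (l : ℂ) (k : ℕ), 3 ≤ -l.im ∧ ZkAt q γ (vi γ) (fun τ => L (τ, γ)) x l k ∧
    ZAt q (Dv vi) L γ ((x : ℂ) - vi γ * I) l k ∧
    ∀ u : ℂ, 0 < u.re → ∀ (μ : ℕ) (lam : ℂ → ℂ) (r : ℝ), ZChart q l μ lam r →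
      ∃ s1 : ℝ, 0 < s1 ∧ ∀ s ∈ Ioc (0 : ℝ) s1, ∃ δ : ℝ, 0 < δ ∧
        ∀ τ ∈ ball ((x : ℂ) - vi γ * I - I * s) δ, (τ, (γ : ℂ)) ∈ Dv vi ∧
          ∃ c : ℂ, ZGerm q (Dv vi) L γ u μ lam τ c (fun z => T (γ * exp (u * z)))

/-- a point which is not of type `I` is regular or has a slit neighbourhood -/
theorem gpt_of_not_I {W : Set (ℂ → ℂ)} {C kap : ℝ} (hW : Fm W C kap) {q : ℂ → ℂ} (hqW : q ∈ W)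
    {vi : ℂ → ℝ} {L : ℂ × ℂ → ℂ} (h : Lb q C vi L) {γ : ℝ} (hγ : 1 ≤ γ)
    (hd : Deep (vi γ) (fun τ => L (τ, γ)))
    (hgen : ∀ l : ℂ, 3 ≤ -l.im → (γ : ℂ) ^ 2 * q l = tipc → deriv q l ≠ 0) {x : ℝ}
    (hx : ¬ IAt (vi γ) (fun τ => L (τ, γ)) x) : Gpt vi L γ x (PrT q vi L γ x) := by
  have hγ0 : 0 < γ := by linarith
  have hne := hW.ne_const hqW
  rcases lim_or hW hqW hγ (h.sl hγ0) hd x with ⟨l, hl, hlim⟩ | hI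
  swap
  · exact absurd hI hx
  have hl0 : l.im < 0 := by linarith
  rcases types h hγ0 hne hl0 hlim with hR | hT | ⟨k, hZ⟩
  · exact Or.inl hR
  · right
    have hreg := hgen l hl hT.2.1
    obtain ⟨Tb, Λ, R, ρ, -, h1, -, h2, h3⟩ := slit_tip h hγ0 hl0 hT hreg one_pos
    exact ⟨Tb, R, ρ, Λ, h1, Or.inl ⟨l, hl, hT, hreg, h2, h3⟩⟩
  · right
    obtain ⟨Tb, Λ, R, ρ, -, h1, -, h2, h3⟩ := slit_Z h hγ0 hne hl0 hZ one_pos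
    exact ⟨Tb, R, ρ, Λ, h1, Or.inr ⟨l, k, hl, hZ, h2, h3⟩⟩

/-- T5b. outside the points of type `I` the singular points are isolated -/
theorem sing_isol' {W : Set (ℂ → ℂ)} {C kap : ℝ} (hW : Fm W C kap) {q : ℂ → ℂ} (hqW : q ∈ W)
    {vi : ℂ → ℝ} {L : ℂ × ℂ → ℂ} (h : Lb q C vi L) {γ : ℝ} (hγ : 1 ≤ γ)
    (hd : Deep (vi γ) (fun τ => L (τ, γ)))
    (hgen : ∀ l : ℂ, 3 ≤ -l.im → (γ : ℂ) ^ 2 * q l = tipc → deriv q l ≠ 0) {x : ℝ}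
    (hx : ¬ IAt (vi γ) (fun τ => L (τ, γ)) x) :
    ∃ ε : ℝ, 0 < ε ∧ ∀ x' : ℝ, |x' - x| < ε → x' ≠ x →
      RgN vi L γ ((x' : ℂ) - vi γ * I) :=
  (gpt_of_not_I hW hqW h hγ hd hgen hx).near

/-- **THE STRETCH WITHOUT POINTS OF TYPE `I`.** -/
theorem stretch_T {W : Set (ℂ → ℂ)} {C kap : ℝ} (hW : Fm W C kap) {q : ℂ → ℂ} (hqW : q ∈ W)
    {vi : ℂ → ℝ} {L : ℂ × ℂ → ℂ} (h : Lb q C vi L) {γ : ℝ} (hγ : 1 ≤ γ)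
    (hd : Deep (vi γ) (fun τ => L (τ, γ)))
    (hgen : ∀ l : ℂ, 3 ≤ -l.im → (γ : ℂ) ^ 2 * q l = tipc → deriv q l ≠ 0) {x₁ x₂ : ℝ}
    (hx : x₁ < x₂) (hI : ∀ x ∈ Icc x₁ x₂, ¬ IAt (vi γ) (fun τ => L (τ, γ)) x)
    {Vm : ℂ → ℝ} {r₀ : ℝ} (hr₀ : 0 < r₀) (hVc : ContinuousOn Vm (ball (γ : ℂ) r₀))
    (hVle : ∀ g ∈ ball (γ : ℂ) r₀, vi g ≤ Vm g) {η : ℝ} (hη : 0 < η) :
    ∃ (y₁ y₂ r b : ℝ) (P : ℕ) (Tb : ℕ → ℂ → ℂ) (X : ℕ → ℝ) (Λ : ℂ × ℂ → ℂ),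
      x₁ ≤ y₁ ∧ y₁ < x₁ + η ∧ x₂ - η < y₂ ∧ y₂ ≤ x₂ ∧ r ≤ r₀ ∧ b ≤ r₀ ∧
      (P ≠ 0 → X 0 < x₁ + η ∧ x₂ - η < X P) ∧
      Sd vi Vm γ r y₁ y₂ (vi γ) b P Tb X ∧
      Slt (Dv vi) L Λ (SB γ r y₁ y₂ (vi γ) b P Tb) ∧
      (∀ i < P, ∃ x ∈ Ioo x₁ x₂, ¬ RgN vi L γ ((x : ℂ) - vi γ * I) ∧
        (∃ (R ρ : ℝ) (Λ' : ℂ × ℂ → ℂ), r ≤ ρ ∧
          SlN vi L γ ((x : ℂ) - vi γ * I) (Tb (i + 1)) R ρ Λ') ∧ PrT q vi L γ x (Tb (i + 1))) ∧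
      ∀ x ∈ Ioo y₁ y₂, ¬ RgN vi L γ ((x : ℂ) - vi γ * I) →
        ∃ i < P, (x : ℂ) - vi γ * I = Tb (i + 1) γ :=
  stretch (Pr := fun x T => PrT q vi L γ x T) (by linarith) h.usc hx
    (fun x hxx => gpt_of_not_I hW hqW h hγ hd hgen (hI x hxx)) hr₀ hVc hVle hη

end Pool.Agent.MP_ae5b4e_an_T
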