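import Pool.Agent.Lib.MP_ae5b4e_an_T.T5a
import Pool.Agent.Lib.MP_ae5b4e_an_TR.FamC
import Pool.Agent.Lib.MP_ae5b4e_an_M.EqA
import Pool.Agent.Lib.MP_ae5b4e_an_M.WA
import Pool.Agent.Lib.MP_ae5b4e_an_MT.Sat
import Pool.Agent.Lib.MP_ae5b4e_an_A1.Slt

/-!
# POR (iii), N2, section T, block T5: the windows satisfy the hypotheses of the section T
-/

noncomputable section

namespace Pool.Agent.MP_ae5b4e_an_T

open Complex Set Filter Topology Metric
open Pool.Agent.MP_ae5b4e_an_WB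
open Pool.Agent.MP_ae5b4e_an_WD
open Pool.Agent.MP_ae5b4e_an_NB2 (Sys)
open Pool.Agent.MP_ae5b4e_an_PB (Base)
open Pool.Agent.MP_ae5b4e_an_M

theorem Fm.mono {W : Set (ℂ → ℂ)} {C C' kap : ℝ} (h : Fm W C kap) (hC : C ≤ C') :
    Fm W C' kap := by
  refine ⟨h.C_pos.trans_le hC, h.kap_pos, h.hol, fun q hq z hz => ?_, h.small, h.osc⟩
  refine (h.bound q hq z hz).trans ?_
  gcongr

theorem Lb.mono {q : ℂ → ℂ} {C C' : ℝ} {vi : ℂ → ℝ} {L : ℂ × ℂ → ℂ} (h : Lb q C vi L)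
    (hC : C ≤ C') : Lb q C' vi L := by
  refine ⟨h.ds, h.C_pos.trans_le hC, h.usc, h.nonneg, fun z hz => ?_, h.dep⟩
  refine (h.qb z hz).trans ?_
  gcongr

variable {Y : Sys} {h R C0 : ℝ} {v : ℂ → ℝ} {G L : ℂ × ℂ → ℂ} {U : Ultrafilter ℕ} {β C1 : ℝ}
  {c V : ℕ → ℝ}

theorem gr_two {β C y : ℝ} (hβ : 0 < β) (hβ1 : β ≤ 1) (hy : 1 ≤ y) : gr β C y = C / y ^ 2 := by
  unfold gr
  have hy0 : 0 < y := by linarith
  have h1 : y ^ (-(2:ℝ) / β) ≤ y ^ (-(2:ℝ)) := by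
    apply Real.rpow_le_rpow_of_exponent_le hy
    rw [neg_div, neg_le_neg_iff, le_div_iff₀ hβ]
    linarith
  rw [max_eq_left h1, Real.rpow_neg hy0.le, div_eq_mul_inv]
  norm_cast

/-- the limit label of the windows at any sequence of places -/
theorem lb_win (hB : Base Y h R C0 v G L) (HW : Win v U β C1 c V) (x : ℕ → ℝ) :
    Lb (qI Y h U x c V) (C3f β C1) (vI v U c V) (LI L h U x c V) := by
  have hsub : Dv (vI v U c V) ⊆ DI v U c V := fun p hp => hp.2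
  refine ⟨⟨?_, fun p hp => hp.1, qI_hol hB HW x, (LI_an hB HW x).mono hsub,
    fun p hp => LI_Hm hB HW x (hsub hp), fun p hp => (LI_G hB HW x (hsub hp) hp.1).1,
    fun p hp => (LI_G hB HW x (hsub hp) hp.1).2.1⟩, C3f_pos HW, ?_, ?_, ?_,
    fun p hp => LI_dep hB HW x (hsub hp)⟩
  · have h1 : Dv (vI v U c V) = {p : ℂ × ℂ | p.2 ≠ 0} ∩ DI v U c V := rfl
    rw [h1]
    exact (isOpen_ne_fun continuous_snd continuous_const).inter (DI_open hB.nv hB.R_pos HW)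
  · exact vI_usc hB.nv hB.R_pos HW
  · exact fun γ => vI_nonneg hB.nv hB.R_pos HW γ
  · intro z hz
    have hz' : z ∈ PorTR.Hm := by
      show z.im < 0
      linarith
    have h1 := qI_bound hB HW x hz'
    rwa [gr_two HW.β_pos HW.β_le (by linarith), neg_sq] at h1

/-- **THE WINDOWS.** The family of the window limits is uniformly non degenerate and every limit
label satisfies the hypotheses of the section T, with the same constant. -/
theorem win_T (hB : Base Y h R C0 v G L) (HW : Win v U β C1 c V) {η : ℝ} (hη : 0 < η)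
    (hv : ∀ᶠ n in (U : Filter ℕ), η * V n ≤ v (c n)) :
    ∃ C kap : ℝ, Fm (WL Y h U c V) C kap ∧
      ∀ x : ℕ → ℝ, Lb (qI Y h U x c V) C (vI v U c V) (LI L h U x c V) := by
  have hne : ∀ q ∈ WL Y h U c V, ∃ z ∈ PorTR.Hm, q z ≠ 0 := by
    rintro _ ⟨x, rfl⟩
    obtain ⟨l, hl, hl'⟩ := Pool.Agent.MP_ae5b4e_an_MT.sat hB HW x hη hv
    exact ⟨l, hl, hl'⟩
  have hL := lims_down hB HW hne one_pos
  obtain ⟨kap, F⟩ := hL.fam one_pos (show 2 * (1 : ℝ) < 4 by norm_num)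
  obtain ⟨C', hF⟩ := fm_of_fam (W := WL Y h U c V) (by
    rintro _ ⟨x, rfl⟩
    exact qI_hol hB HW x) F
  exact ⟨max C' (C3f β C1), kap, hF.mono (le_max_left _ _),
    fun x => (lb_win hB HW x).mono (le_max_right _ _)⟩

/-- continuations over the whole limit domain -/
theorem slt_DI {x : ℕ → ℝ} {Λ : ℂ × ℂ → ℂ} {S : Set (ℂ × ℂ)}
    (hS : Pool.Agent.MP_ae5b4e_an_A1.Slt (Dv (vI v U c V)) (LI L h U x c V) Λ S) :
    Pool.Agent.MP_ae5b4e_an_A1.Slt (DI v U c V) (LI L h U x c V) Λ S := by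
  refine ⟨hS.S_open, hS.an, hS.im, hS.ne, hS.conn, fun p hp => ?_,
    fun p hp hD => hS.eq p hp ⟨hS.ne p hp, hD⟩⟩
  obtain ⟨τ, h1, h2⟩ := hS.meet p hp
  exact ⟨τ, h1, h2.2⟩

/-- the majorant of a contact point -/
def vmj (v₀ g₀ p C D : ℝ) (g : ℂ) : ℝ :=
  v₀ + p * (g - g₀).re + C * |(g - g₀).im| + D * ‖g - g₀‖ ^ 2

theorem vmj_cont (v₀ g₀ p C D : ℝ) : Continuous (vmj v₀ g₀ p C D) := by
  unfold vmj
  have c1 : Continuous fun g : ℂ => (g - g₀).re :=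
    continuous_re.comp (continuous_id.sub continuous_const)
  have c2 : Continuous fun g : ℂ => (g - g₀).im :=
    continuous_im.comp (continuous_id.sub continuous_const)
  exact ((continuous_const.add (continuous_const.mul c1)).add (continuous_const.mul c2.abs)).add
    (continuous_const.mul ((continuous_id.sub continuous_const).norm.pow 2))

theorem vmj_le {vi : ℂ → ℝ} {g₀ p C D rc : ℝ}
    (hcon : ∀ z : ℂ, ‖z‖ ≤ rc → vi (g₀ + z) ≤ vi g₀ + p * z.re + C * |z.im| + D * ‖z‖ ^ 2) :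
    ∀ g ∈ ball (g₀ : ℂ) rc, vi g ≤ vmj (vi g₀) g₀ p C D g := by
  intro g hg
  have h1 := hcon (g - g₀) (by rw [← dist_eq_norm]; exact (mem_ball.1 hg).le)
  rwa [add_sub_cancel] at h1

end Pool.Agent.MP_ae5b4e_an_T
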