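import Pool.Agent.Lib.MP_ae5b4e_an_T.Defs

/-!
# POR (iii), N2, section T, block T2c: boxes; preliminaries
-/

noncomputable section

namespace Pool.Agent.MP_ae5b4e_an_T

open Complex Set Filter Topology Metric
open Pool.Agent.MP_ae5b4e_an_WB
open Pool.Agent.MP_ae5b4e_an_WD
open Pool.Agent.MP_ae5b4e_an_M (S1 C1f Gf)

/-- NO ESCAPE: a path whose speed is at most `M` in `G` does not leave the ball of radius `δ`, if
every piece of the path which reaches the boundary of this ball contains a point whose `r`-ball is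
contained in `G`. -/
theorem esc {g g' : ℝ → ℂ} {G : Set ℂ} {M r δ : ℝ} (hM : 0 < M) (hMr : 2 * M < r)
    (hMδ : 4 * M < δ) (hg : ∀ u ∈ Icc (0:ℝ) 1, HasDerivAt g (g' u) u)
    (hb : ∀ u ∈ Icc (0:ℝ) 1, g u ∈ G → ‖g' u‖ ≤ M)
    (hG : ∀ b ∈ Icc (0:ℝ) 1, δ ≤ dist (g 0) (g b) → (∀ u ∈ Icc (0:ℝ) b, dist (g 0) (g u) ≤ δ) →
      ∃ s ∈ Icc (0:ℝ) b, ball (g s) r ⊆ G) :
    ∀ u ∈ Icc (0:ℝ) 1, dist (g 0) (g u) < δ := by
  intro u hu
  by_contra hcon
  rw [not_lt] at hcon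
  have hgc : ContinuousOn g (Icc 0 1) := fun z hz => (hg z hz).continuousAt.continuousWithinAt
  -- the first exit
  have hsub : Icc (0:ℝ) u ⊆ Icc 0 1 := Icc_subset_Icc_right hu.2
  obtain ⟨T, hT⟩ : ∃ T : Set ℝ, T = {z ∈ Icc (0:ℝ) 1 | δ ≤ dist (g 0) (g z)} := ⟨_, rfl⟩
  have hdc : ContinuousOn (fun z => dist (g 0) (g z)) (Icc 0 1) := by
    simp only [dist_eq_norm]
    exact (continuousOn_const.sub hgc).norm
  have hTc : IsClosed T := by
    rw [hT]
    exact hdc.preimage_isClosed_of_isClosed isClosed_Icc isClosed_Ici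
  have hTne : T.Nonempty := ⟨u, by rw [hT]; exact ⟨hu, hcon⟩⟩
  have hTb : BddBelow T := ⟨0, fun z hz => by rw [hT] at hz; exact hz.1.1⟩
  obtain ⟨b, hbd⟩ : ∃ b, b = sInf T := ⟨_, rfl⟩
  have hbT : b ∈ T := by rw [hbd]; exact hTc.csInf_mem hTne hTb
  have hbT' : b ∈ Icc (0:ℝ) 1 ∧ δ ≤ dist (g 0) (g b) := by rw [hT] at hbT; exact hbT
  have hbefore : ∀ z ∈ Icc (0:ℝ) 1, z < b → dist (g 0) (g z) < δ := by
    intro z hz hzb
    by_contra h
    rw [not_lt] at h
    have h1 : sInf T ≤ z := csInf_le hTb (by rw [hT]; exact ⟨hz, h⟩)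
    rw [← hbd] at h1
    linarith
  have hb0 : 0 < b := by
    rcases eq_or_lt_of_le hbT'.1.1 with h | h
    · have h1 := hbT'.2
      rw [← h, dist_self] at h1
      linarith
    · exact h
  have hsubb : Icc (0:ℝ) b ⊆ Icc 0 1 := Icc_subset_Icc_right hbT'.1.2
  have hble : dist (g 0) (g b) ≤ δ := by
    have h1 : ContinuousWithinAt (fun z => dist (g 0) (g z)) (Ico 0 b) b :=
      (hdc b hbT'.1).mono fun z hz => hsubb ⟨hz.1, hz.2.le⟩
    have h2 : b ∈ closure (Ico (0:ℝ) b) := by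
      rw [closure_Ico hb0.ne]
      exact ⟨hb0.le, le_rfl⟩
    have h3 : (𝓝[Ico 0 b] b).NeBot := mem_closure_iff_nhdsWithin_neBot.1 h2
    refine le_of_tendsto h1 ?_
    filter_upwards [self_mem_nhdsWithin] with z hz
    exact (hbefore z (hsubb ⟨hz.1, hz.2.le⟩) hz.2).le
  have hall : ∀ z ∈ Icc (0:ℝ) b, dist (g 0) (g z) ≤ δ := by
    intro z hz
    rcases eq_or_lt_of_le hz.2 with h | h
    · rw [h]
      exact hble
    · exact (hbefore z (hsubb hz) h).le
  obtain ⟨s, hs, hsG⟩ := hG b hbT'.1 hbT'.2 hall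
  -- forwards
  have key : ∀ (p p' : ℝ → ℂ) (c : ℝ), 0 ≤ c → c ≤ 1 → p 0 = g s →
      (∀ z ∈ Icc (0:ℝ) c, HasDerivAt p (p' z) z) →
      (∀ z ∈ Icc (0:ℝ) c, p z ∈ G → ‖p' z‖ ≤ M) → ‖p c - g s‖ ≤ 2 * M := by
    intro p p' c hc hc1 hp0 hp hpb
    have h1 := image_norm_le_of_norm_deriv_right_lt_deriv_boundary'
      (f := fun z => p z - g s) (f' := p') (a := 0) (b := c) (B := fun z => 2 * M * z)
      (B' := fun _ => 2 * M)
      (fun z hz => ((hp z hz).sub_const _).continuousAt.continuousWithinAt)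
      (fun z hz => ((hp z ⟨hz.1, hz.2.le⟩).sub_const _).hasDerivWithinAt)
      (by simp [hp0]) (by fun_prop)
      (fun z _ => by simpa using ((hasDerivAt_id z).const_mul (2 * M)).hasDerivWithinAt)
      (fun z hz h2 => ?_) (right_mem_Icc.2 hc)
    · refine h1.trans ?_
      nlinarith
    · have h3 : p z ∈ G := by
        apply hsG
        rw [mem_ball, dist_eq_norm]
        have h4 : ‖p z - g s‖ = 2 * M * z := h2
        rw [h4]
        have h5 : z ≤ 1 := hz.2.le.trans hc1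
        nlinarith
      have h4 := hpb z ⟨hz.1, hz.2.le⟩ h3
      linarith
  have k1 : ‖g b - g s‖ ≤ 2 * M := by
    have h1 := key (fun z => g (s + z)) (fun z => g' (s + z)) (b - s) (by linarith [hs.2])
      (by linarith [hs.1, hbT'.1.2]) (by simp) (fun z hz => ?_) (fun z hz => ?_)
    · have h2 : s + (b - s) = b := by ring
      simp only [h2] at h1
      exact h1
    · have hm : s + z ∈ Icc (0:ℝ) 1 := ⟨by linarith [hs.1, hz.1], by linarith [hz.2, hbT'.1.2]⟩
      exact (hg _ hm).comp_const_add s z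
    · have hm : s + z ∈ Icc (0:ℝ) 1 := ⟨by linarith [hs.1, hz.1], by linarith [hz.2, hbT'.1.2]⟩
      exact hb _ hm
  have k2 : ‖g 0 - g s‖ ≤ 2 * M := by
    have h1 := key (fun z => g (s - z)) (fun z => -g' (s - z)) s hs.1
      (by linarith [hs.2, hbT'.1.2]) (by simp) (fun z hz => ?_) (fun z hz => ?_)
    · have h2 : s - s = 0 := by ring
      simp only [h2] at h1
      exact h1
    · have hm : s - z ∈ Icc (0:ℝ) 1 := ⟨by linarith [hz.2], by linarith [hs.2, hz.1, hbT'.1.2]⟩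
      exact (hg _ hm).comp_const_sub s z
    · have hm : s - z ∈ Icc (0:ℝ) 1 := ⟨by linarith [hz.2], by linarith [hs.2, hz.1, hbT'.1.2]⟩
      intro h3
      rw [norm_neg]
      exact hb _ hm h3
  have h1 := hbT'.2
  rw [dist_eq_norm] at h1
  have h2 : g 0 - g b = (g 0 - g s) - (g b - g s) := by ring
  rw [h2] at h1
  have h3 := norm_sub_le (g 0 - g s) (g b - g s)
  linarith

end Pool.Agent.MP_ae5b4e_an_T
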