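import Pool.Agent.Lib.MP_ae5b4e_an_T.InA
import Pool.Agent.Lib.MP_ae5b4e_an_T.Bxa

/-!
# POR (iii), N2, section T, block T2b: interior labels
-/

set_option autoImplicit false

noncomputable section

namespace Pool.Agent.MP_ae5b4e_an_T

open Complex Set Filter Topology Metric
open Pool.Agent.MP_ae5b4e_an_WB
open Pool.Agent.MP_ae5b4e_an_M (S1 C1f Gf)

/-- T2b. Proof: `B`, `K1` from `f_speed`, `r` from `q_ball`; `K0 ≥ K1` with `16 B γ^(-1/4) < min (r / 2) (1 / 4)` for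
`γ ≥ K0` (`Real.rpow` tends to `0`). Suppose `-(f τ1).im < 3`, `τ1 ∈ Hp v`, `d1 := -v - Im τ1`,
`g s := -(f (τ1 - I s)).im`: `times`: `sb`, `sa`. `tb := (d1 + sb)^(1/4)`, `ta := (d1 + sa)^(1/4)`,
`0 < tb < ta ≤ 2` (`d1 + sa ≤ g sa = 4`). `t u := tb + (ta - tb) u`, `σ u := (Re τ1) + I (-v - (t u)^4)`
(so `σ u = τ1 - I s`, `s = (t u)^4 - d1 ∈ [sb, sa]`, `-v - Im (σ u) = (t u)^4`), `p u := f (σ u)`, `p' u =
f' (σ u) * (-I * (4 (t u)^3 (ta - tb)))`. `esc` (Bxa.lean) with `G := {l | kap / 2 ≤ ‖q l‖}`, `δ = 1`,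
`M := 8 B γ^(-1/4) + (small)`, e.g. `M := 8 B γ^(-1/4)`, as `4 (ta - tb) ≤ 8`: `hb` by `f_speed` (`hdeep`: `g ≥ 3` on
`[sb, oo)`); `hG`: if `1 ≤ dist (p 0) (p b)` then by `hW.small` (the arc is in `Strip 2 5`: `3 ≤ g ≤ 4` on
`[sb, sa]`) there is `s ∈ [0, b]` with `kap ≤ ‖q (p s)‖`, and `q_ball`. Conclusion: `dist (p 0) (p 1) < 1`, but the
depths are `3` and `4`. -/
theorem interior {W : Set (ℂ → ℂ)} {C kap : ℝ} (hW : Fm W C kap) : ∃ K0 : ℝ, 1 ≤ K0 ∧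
    ∀ q ∈ W, ∀ (γ v : ℝ) (f : ℂ → ℂ), K0 ≤ γ → Sl q C γ v f → Deep v f := by
  obtain ⟨B, K1, hB, hK1, hspeed⟩ := f_speed hW.C_pos hW.kap_pos
  obtain ⟨r, hr, hball⟩ := q_ball hW.C_pos hW.kap_pos
  have hlim : Tendsto (fun x : ℝ => B * x ^ (-(1 / 4) : ℝ)) atTop (𝓝 0) := by
    have h1 : Tendsto (fun x : ℝ => x ^ (-(1 / 4) : ℝ)) atTop (𝓝 0) :=
      tendsto_rpow_neg_atTop (by norm_num)
    simpa using h1.const_mul B
  obtain ⟨K2, hK2⟩ := eventually_atTop.1 (hlim.eventually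
    (gt_mem_nhds (show (0 : ℝ) < min (r / 16) (1 / 32) by positivity)))
  refine ⟨max K1 K2, hK1.trans (le_max_left _ _), ?_⟩
  intro q hq γ v f hγ hS τ1 hτ1
  by_contra hcon
  rw [not_le] at hcon
  have hγ1 : K1 ≤ γ := (le_max_left _ _).trans hγ
  have hγ2 : K2 ≤ γ := (le_max_right _ _).trans hγ
  obtain ⟨hM1, hM2⟩ := lt_min_iff.1 (hK2 γ hγ2)
  have hγ0 : 0 < γ := hS.γ_pos
  have hBγ : 0 < B * γ ^ (-(1 / 4) : ℝ) := mul_pos hB (Real.rpow_pos_of_pos hγ0 _)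
  generalize hm : B * γ ^ (-(1 / 4) : ℝ) = m at hM1 hM2 hBγ
  have hτ1' : τ1.im < -v := hτ1
  obtain ⟨d1, hd1⟩ : ∃ d1 : ℝ, d1 = -v - τ1.im := ⟨_, rfl⟩
  have hd : 0 < d1 := by linarith
  have him : ∀ s : ℝ, (τ1 - I * s).im = τ1.im - s := by
    intro s
    simp
  have hmem : ∀ s : ℝ, 0 ≤ s → τ1 - I * s ∈ Hp v := by
    intro s hs
    change (τ1 - I * s).im < -v
    rw [him]
    linarith
  have hopen : IsOpen (Hp v) := isOpen_lt Complex.continuous_im continuous_const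
  obtain ⟨sb, sa, hsb, hlt, hgb, hga, hle, hge⟩ := times (g := fun s : ℝ => -(f (τ1 - I * s)).im)
    (d1 := d1) hd
    (by
      have h1 : ContinuousOn (fun s : ℝ => f (τ1 - I * s)) (Ici 0) :=
        hS.fd.continuousOn.comp (by fun_prop) fun s hs => hmem s hs
      exact (Complex.continuous_im.comp_continuousOn h1).neg)
    (fun s hs => by
      have h1 := hS.dep _ (hmem s hs)
      rw [him] at h1
      linarith)
    (by simpa using hcon)
  -- fourth roots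
  have root : ∀ x : ℝ, 0 < x → ∃ t : ℝ, 0 < t ∧ t ^ 4 = x := by
    intro x hx
    refine ⟨√(√x), Real.sqrt_pos.2 (Real.sqrt_pos.2 hx), ?_⟩
    have h1 : √(√x) ^ 4 = (√(√x) ^ 2) ^ 2 := by ring
    rw [h1, Real.sq_sqrt (Real.sqrt_nonneg _), Real.sq_sqrt hx.le]
  obtain ⟨tb, htb, htb4⟩ := root (d1 + sb) (by linarith)
  obtain ⟨ta, hta, hta4⟩ := root (d1 + sa) (by linarith)
  have htab : tb < ta := lt_of_pow_lt_pow_left₀ 4 hta.le (by rw [htb4, hta4]; linarith)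
  have hta2 : ta ≤ 2 := by
    refine le_of_pow_le_pow_left₀ (n := 4) (by norm_num) (by norm_num) ?_
    rw [hta4]
    have h1 := hS.dep _ (hmem sa (by linarith))
    rw [him, hga] at h1
    norm_num
    linarith
  -- the path
  obtain ⟨t, ht⟩ : ∃ t : ℝ → ℝ, t = fun u => tb + (ta - tb) * u := ⟨_, rfl⟩
  have ht0 : t 0 = tb := by rw [ht]; simp
  have ht1 : t 1 = ta := by rw [ht]; simp
  have htI : ∀ u ∈ Icc (0 : ℝ) 1, tb ≤ t u ∧ t u ≤ ta := by
    intro u hu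
    rw [ht]
    constructor <;> nlinarith [hu.1, hu.2]
  have htd : ∀ u : ℝ, HasDerivAt t (ta - tb) u := by
    intro u
    rw [ht]
    simpa using ((hasDerivAt_id u).const_mul (ta - tb)).const_add tb
  obtain ⟨σ, hσ⟩ : ∃ σ : ℝ → ℂ, σ = fun u => (τ1.re : ℂ) + I * (-v - (t u : ℂ) ^ 4) := ⟨_, rfl⟩
  have hσd : ∀ u : ℝ, HasDerivAt σ (-I * (4 * (t u : ℂ) ^ 3 * ((ta - tb : ℝ) : ℂ))) u := by
    intro u
    rw [hσ]
    have h1 := ((((htd u).ofReal_comp.fun_pow 4).const_sub (-(v : ℂ))).const_mul I).const_add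
      (τ1.re : ℂ)
    refine h1.congr_deriv ?_
    push_cast
    ring
  have hσs : ∀ u : ℝ, σ u = τ1 - I * ((t u ^ 4 - d1 : ℝ) : ℂ) := by
    intro u
    rw [hσ, hd1]
    apply Complex.ext
    · simp [← Complex.ofReal_pow]
    · simp [← Complex.ofReal_pow]
      ring
  have hsI : ∀ u ∈ Icc (0 : ℝ) 1, sb ≤ t u ^ 4 - d1 ∧ t u ^ 4 - d1 ≤ sa := by
    intro u hu
    obtain ⟨h1, h2⟩ := htI u hu
    have h3 : tb ^ 4 ≤ t u ^ 4 := pow_le_pow_left₀ htb.le h1 4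
    have h4 : t u ^ 4 ≤ ta ^ 4 := pow_le_pow_left₀ (htb.le.trans h1) h2 4
    constructor <;> linarith
  have hσm : ∀ u ∈ Icc (0 : ℝ) 1, σ u ∈ Hp v := by
    intro u hu
    rw [hσs]
    exact hmem _ (hsb.trans (hsI u hu).1)
  have hdep3 : ∀ u ∈ Icc (0 : ℝ) 1, ∀ s : ℝ, 0 ≤ s → 3 ≤ -(f (σ u - I * s)).im := by
    intro u hu s hs
    have h1 := hge (t u ^ 4 - d1 + s) (by linarith [(hsI u hu).1])
    have h2 : σ u - I * s = τ1 - I * ((t u ^ 4 - d1 + s : ℝ) : ℂ) := by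
      rw [hσs]
      push_cast
      ring
    rw [h2]
    exact h1
  have hp3 : ∀ u ∈ Icc (0 : ℝ) 1, 3 ≤ -(f (σ u)).im := by
    intro u hu
    have h1 := hdep3 u hu 0 le_rfl
    simpa using h1
  have hp4 : ∀ u ∈ Icc (0 : ℝ) 1, -(f (σ u)).im ≤ 4 := by
    intro u hu
    rw [hσs]
    exact hle _ (hsI u hu)
  have hpd : ∀ u ∈ Icc (0 : ℝ) 1, HasDerivAt (fun u => f (σ u))
      (deriv f (σ u) * (-I * (4 * (t u : ℂ) ^ 3 * ((ta - tb : ℝ) : ℂ)))) u := by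
    intro u hu
    have h1 : HasDerivAt f (deriv f (σ u)) (σ u) :=
      (hS.fd.differentiableAt (hopen.mem_nhds (hσm u hu))).hasDerivAt
    exact HasDerivAt.comp u h1 (hσd u)
  have hpc : ContinuousOn (fun u => f (σ u)) (Icc (0 : ℝ) 1) := fun u hu =>
    (hpd u hu).continuousAt.continuousWithinAt
  have hfin := esc (g := fun u => f (σ u))
    (g' := fun u => deriv f (σ u) * (-I * (4 * (t u : ℂ) ^ 3 * ((ta - tb : ℝ) : ℂ))))
    (G := {l | kap / 2 ≤ ‖q l‖}) (M := 8 * m) (r := r) (δ := 1) (by linarith) (by linarith)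
    (by linarith) hpd
    (fun u hu huG => by
      have h0 : 0 < t u := htb.trans_le (htI u hu).1
      have h1 := hspeed q γ v f hS hγ1 (σ u) (hσm u hu)
        (fun s hs => by linarith [hdep3 u hu s hs]) huG (t u) h0 ((htI u hu).2.trans hta2)
        (by
          rw [hσs, him, hd1]
          ring)
      rw [hm] at h1
      rw [norm_mul, norm_mul, norm_mul, norm_mul, norm_neg, Complex.norm_I, norm_pow,
        Complex.norm_real, Complex.norm_real, Real.norm_of_nonneg h0.le,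
        Real.norm_of_nonneg (by linarith), Complex.norm_ofNat]
      have h2 : ta - tb ≤ 2 := by linarith
      have h3 : 0 ≤ ‖deriv f (σ u)‖ * t u ^ 3 := by positivity
      calc ‖deriv f (σ u)‖ * (1 * (4 * t u ^ 3 * (ta - tb)))
          = 4 * (‖deriv f (σ u)‖ * t u ^ 3) * (ta - tb) := by ring
        _ ≤ 4 * (‖deriv f (σ u)‖ * t u ^ 3) * 2 :=
            mul_le_mul_of_nonneg_left h2 (by positivity)
        _ ≤ 8 * m := by linarith)
    (fun b hb hdist _ => by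
      have hsub : Icc (0 : ℝ) b ⊆ Icc 0 1 := Icc_subset_Icc_right hb.2
      by_contra hno
      have h1 := hW.small q hq 0 b (fun u => f (σ u)) hb.1 (hpc.mono hsub)
        (fun u hu => ⟨by linarith [hp3 u (hsub hu)], by linarith [hp4 u (hsub hu)]⟩)
        (fun s hs => by
          by_contra h2
          rw [not_lt] at h2
          exact hno ⟨s, hs, fun z hz => hball q (hW.hol q hq) (hW.bound q hq) _
            (hp3 s (hsub hs)) h2 z hz⟩)
      exact absurd hdist (not_le.2 h1))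
    1 (right_mem_Icc.2 zero_le_one)
  have e0 : σ 0 = τ1 - I * (sb : ℂ) := by
    rw [hσs, ht0, htb4]
    push_cast
    ring
  have e1 : σ 1 = τ1 - I * (sa : ℂ) := by
    rw [hσs, ht1, hta4]
    push_cast
    ring
  rw [dist_eq_norm] at hfin
  have h1 := (Complex.abs_im_le_norm (f (σ 0) - f (σ 1))).trans_lt hfin
  rw [Complex.sub_im, e0, e1] at h1
  have h2 := (abs_lt.1 h1).2
  linarith

end Pool.Agent.MP_ae5b4e_an_T
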