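import Pool.Agent.Lib.MP_ae5b4e_an_WD.ZD
import Pool.Agent.Lib.MP_ae5b4e_an_TR.Defs

/-!
# POR (iii), N2, section T ((2.0)-(2.4)): definitions

`Hp v` half plane below the line at height `-v`; `Sl` = the limit label on the slice of a real `γ > 0`;
`Fm` = uniform non degeneracy of the family of the window limits (from `PorTR.Fam` of the family
translated down by `1`, with `d0 = 1`, `Ce = 4`); `Lb` = the limit label in both variables; types of the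
points of the line of a slice: regular (`RgN`), slit neighbourhood (`SlN`: tips and points `Z_k`), and
points of type `I` (`IAt`: the depth of the label tends to infinity).
-/

noncomputable section

namespace Pool.Agent.MP_ae5b4e_an_T

open Complex Set Filter Topology Metric
open Pool.Agent.MP_ae5b4e_an_WB
open Pool.Agent.MP_ae5b4e_an_WD
open Pool.Agent.MP_ae5b4e_an_M (S1 C1f Gf)

/-- the half plane below the line `Im τ = - v` -/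
def Hp (v : ℝ) : Set ℂ := {τ | τ.im < -v}

/-- the label `f` on the slice of the real parameter `γ > 0`, with line height `-v`; `q` is bounded by
`C / depth ^ 2` at depth `≥ 2` -/
structure Sl (q : ℂ → ℂ) (C γ v : ℝ) (f : ℂ → ℂ) : Prop where
  γ_pos : 0 < γ
  C_pos : 0 < C
  qd : DifferentiableOn ℂ q Hm
  qb : ∀ z : ℂ, 2 ≤ -z.im → ‖q z‖ ≤ C / z.im ^ 2
  fd : DifferentiableOn ℂ f (Hp v)
  /-- the depth of the label is at least the distance to the line -/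
  dep : ∀ τ ∈ Hp v, -v - τ.im ≤ -(f τ).im
  s1 : ∀ τ ∈ Hp v, S1 (q (f τ) * (γ * deriv f τ) ^ 2) ≠ 0
  gf : ∀ τ ∈ Hp v, Gf q (f τ) (γ * deriv f τ) = γ

/-- `y²` on the slice -/
def Xf (q : ℂ → ℂ) (γ : ℝ) (f : ℂ → ℂ) (τ : ℂ) : ℂ := q (f τ) * (γ * deriv f τ) ^ 2

/-- uniform non degeneracy of the family `W` -/
structure Fm (W : Set (ℂ → ℂ)) (C kap : ℝ) : Prop where
  C_pos : 0 < C
  kap_pos : 0 < kap
  hol : ∀ q ∈ W, DifferentiableOn ℂ q Hm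
  bound : ∀ q ∈ W, ∀ z : ℂ, 2 ≤ -z.im → ‖q z‖ ≤ C / z.im ^ 2
  /-- (S) an arc in the strip `2 ≤ depth ≤ 5` on which `|q| < kap` is short -/
  small : ∀ q ∈ W, ∀ (a b : ℝ) (p : ℝ → ℂ), a ≤ b → ContinuousOn p (Icc a b) →
    MapsTo p (Icc a b) (PorTR.Strip 2 5) → (∀ s ∈ Icc a b, ‖q (p s)‖ < kap) → dist (p a) (p b) < 1
  /-- (N) the oscillation of `q` on an arc of diameter `≥ δ` is at least `c (δ, C')` -/
  osc : ∀ δ : ℝ, 0 < δ → ∀ C' : ℝ, ∃ c : ℝ, 0 < c ∧ ∀ q ∈ W, ∀ (a b : ℝ) (p : ℝ → ℂ), a ≤ b →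
    ContinuousOn p (Icc a b) → MapsTo p (Icc a b) (PorTR.Strip 2 C') → δ ≤ dist (p a) (p b) →
    ∃ s ∈ Icc a b, c ≤ dist (q (p s)) (q (p a))

/-- all D-side labels of the slice have depth `≥ 3` -/
def Deep (v : ℝ) (f : ℂ → ℂ) : Prop := ∀ τ ∈ Hp v, 3 ≤ -(f τ).im

/-- the limit domain, without `γ = 0` -/
def Dv (vi : ℂ → ℝ) : Set (ℂ × ℂ) := {p | p.2 ≠ 0 ∧ p.1.im < -vi p.2}

/-- the limit label in two variables -/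
structure Lb (q : ℂ → ℂ) (C : ℝ) (vi : ℂ → ℝ) (L : ℂ × ℂ → ℂ) : Prop where
  ds : DS q (Dv vi) L
  C_pos : 0 < C
  usc : UpperSemicontinuous vi
  nonneg : ∀ γ, 0 ≤ vi γ
  qb : ∀ z : ℂ, 2 ≤ -z.im → ‖q z‖ ≤ C / z.im ^ 2
  dep : ∀ p ∈ Dv vi, -vi p.2 - p.1.im ≤ -(L p).im

theorem Lb.mem {vi : ℂ → ℝ} {γ : ℝ} (hγ : 0 < γ) {τ : ℂ} (hτ : τ ∈ Hp (vi γ)) :
    (τ, (γ : ℂ)) ∈ Dv vi := by
  have hγ' : (γ : ℂ) ≠ 0 := by exact_mod_cast hγ.ne'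
  exact ⟨hγ', hτ⟩

theorem Lb.sl {q : ℂ → ℂ} {C : ℝ} {vi : ℂ → ℝ} {L : ℂ × ℂ → ℂ} (h : Lb q C vi L) {γ : ℝ}
    (hγ : 0 < γ) : Sl q C γ (vi γ) (fun τ => L (τ, γ)) := by
  refine ⟨hγ, h.C_pos, h.ds.qd, h.qb, ?_, ?_, ?_, ?_⟩
  · intro τ hτ
    have h1 : DifferentiableAt ℂ L (τ, (γ : ℂ)) := (h.ds.an _ (Lb.mem hγ hτ)).differentiableAt
    exact (DifferentiableAt.comp (g := L) (f := fun t : ℂ => (t, (γ : ℂ))) τ h1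
      (by fun_prop)).differentiableWithinAt
  · exact fun τ hτ => h.dep _ (Lb.mem hγ hτ)
  · exact fun τ hτ => h.ds.s1 _ (Lb.mem hγ hτ)
  · exact fun τ hτ => h.ds.gf _ (Lb.mem hγ hτ)

/-- `(ζ, γ0)` is macro-regular: the label extends to a neighbourhood, with values in `Hm` -/
def RgN (vi : ℂ → ℝ) (L : ℂ × ℂ → ℂ) (γ0 : ℝ) (ζ : ℂ) : Prop :=
  ∃ ρ : ℝ, 0 < ρ ∧ ∃ Λ : ℂ × ℂ → ℂ, AnalyticOnNhd ℂ Λ (ball ζ ρ ×ˢ ball (γ0 : ℂ) ρ) ∧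
    (∀ p ∈ ball ζ ρ ×ˢ ball (γ0 : ℂ) ρ, (Λ p).im < 0) ∧
    ∀ p ∈ ball ζ ρ ×ˢ ball (γ0 : ℂ) ρ, p ∈ Dv vi → Λ p = L p

/-- bidisc about `(ζ, γ0)` (radii `R` in `τ`, `ρ` in `γ`) minus the closed half lines above the points
`Tb γ` -/
def Slb (Tb : ℂ → ℂ) (ζ : ℂ) (γ0 R ρ : ℝ) : Set (ℂ × ℂ) :=
  {p | p ∈ ball ζ R ×ˢ ball (γ0 : ℂ) ρ ∧ ¬(p.1.re = (Tb p.2).re ∧ (Tb p.2).im ≤ p.1.im)}

/-- slit neighbourhood: `Tb γ` is the branch point (`Tb γ0 = ζ`), the label extends to the slit bidisc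
of radii `R` (in `τ`) and `ρ ≤ R` (in `γ`), with values in `Hm`; the point `Tb γ` is never in the limit
domain -/
structure SlN (vi : ℂ → ℝ) (L : ℂ × ℂ → ℂ) (γ0 : ℝ) (ζ : ℂ) (Tb : ℂ → ℂ) (R ρ : ℝ)
    (Λ : ℂ × ℂ → ℂ) : Prop where
  pos : 0 < ρ
  le : ρ ≤ R
  lt : ρ < γ0
  Tan : AnalyticOnNhd ℂ Tb (ball (γ0 : ℂ) ρ)
  T0 : Tb γ0 = ζ
  Tin : ∀ γ ∈ ball (γ0 : ℂ) ρ, ‖Tb γ - ζ‖ < R / 8
  an : AnalyticOnNhd ℂ Λ (Slb Tb ζ γ0 R ρ)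
  im : ∀ p ∈ Slb Tb ζ γ0 R ρ, (Λ p).im < 0
  eq : ∀ p ∈ Slb Tb ζ γ0 R ρ, p ∈ Dv vi → Λ p = L p
  not_mem : ∀ γ ∈ ball (γ0 : ℂ) ρ, -(Tb γ).im ≤ vi γ

/-- the D-side label tends to `l` (unrestricted approach from below) -/
def LimAt (v : ℝ) (f : ℂ → ℂ) (x : ℝ) (l : ℂ) : Prop :=
  Tendsto f (𝓝[Hp v] ((x : ℂ) - v * I)) (𝓝 l)

/-- type `I`: the depth of the label tends to infinity along the vertical line -/
def IAt (v : ℝ) (f : ℂ → ℂ) (x : ℝ) : Prop :=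
  Tendsto (fun s : ℝ => (f ((x : ℂ) - (v + s : ℝ) * I)).im) (𝓝[>] 0) atBot

/-- tip: `γ0² q l = tipc` and `|Im y| → ∞` along the vertical line -/
def TAt (q : ℂ → ℂ) (γ v : ℝ) (f : ℂ → ℂ) (x : ℝ) (l : ℂ) : Prop :=
  LimAt v f x l ∧ (γ : ℂ) ^ 2 * q l = tipc ∧
    Tendsto (fun s : ℝ => ‖Xf q γ f ((x : ℂ) - (v + s : ℝ) * I)‖) (𝓝[>] 0) atTop

/-- point of type `Z_k`, `k ≥ 1` -/
def ZkAt (q : ℂ → ℂ) (γ v : ℝ) (f : ℂ → ℂ) (x : ℝ) (l : ℂ) (k : ℕ) : Prop :=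
  LimAt v f x l ∧ q l = 0 ∧ 1 ≤ k ∧
    Tendsto (fun s : ℝ => Xf q γ f ((x : ℂ) - (v + s : ℝ) * I)) (𝓝[>] 0) (𝓝 ((k * Real.pi : ℂ) ^ 2))

end Pool.Agent.MP_ae5b4e_an_T
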