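import Pool.Agent.Lib.MP_ae5b4e_an_T.SchD

/-!
# POR (iii), N2, section T, block T1: the parts of the metric are hyperbolic
-/

set_option autoImplicit false

noncomputable section

namespace Pool.Agent.MP_ae5b4e_an_T

open Complex Set Filter Topology Metric

private theorem SchE_R_pos {k : ℕ} (hk : 1 ≤ k) : 0 < Rk k := by
  have : (0 : ℝ) < k := by exact_mod_cast hk
  unfold Rk
  positivity

private theorem SchE_A_pos {k : ℕ} (hk : 1 ≤ k) : 0 < Ak k :=
  div_pos (SchE_R_pos hk) (Real.exp_pos 1)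

private theorem SchE_A_lt {k : ℕ} (hk : 1 ≤ k) : Ak k < Rk k :=
  div_lt_self (SchE_R_pos hk) (Real.one_lt_exp_iff.2 one_pos)

private theorem SchE_log_pos {k : ℕ} (hk : 1 ≤ k) {t : ℝ} (h0 : 0 < t) (h1 : t ≤ Ak k) :
    0 < Real.log (Rk k / t) :=
  Real.log_pos ((one_lt_div h0).2 (h1.trans_lt (SchE_A_lt hk)))

/-- (c) for `Kf`. Proof: `a = (k π)²`, `t₀ = ‖x₀ - a‖`, `0 < t₀ < R / e`:
`φ x := I (log R - log ((x - a) / (x₀ - a)) - log (x₀ - a))` is analytic near `x₀`
(`(x - a) / (x₀ - a)` is near `1`), `Im φ = log (R / ‖x - a‖) > 0`, `‖φ'‖ = 1 / ‖x - a‖`; near `x₀`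
still `‖x - a‖ < A_k`. -/
theorem supp_K {k : ℕ} (hk : 1 ≤ k) {x₀ : ℂ} (h1 : x₀ ≠ pk k) (h2 : ‖x₀ - pk k‖ < Ak k) :
    ∃ φ : ℂ → ℂ, AnalyticAt ℂ φ x₀ ∧ 0 < (φ x₀).im ∧
      ∀ᶠ x in 𝓝 x₀, 1 / 10 * ‖deriv φ x‖ / (φ x).im = Kf k x := by
  set a : ℂ := pk k with ha
  have hw : x₀ - a ≠ 0 := sub_ne_zero.2 h1
  set w₀ : ℂ := x₀ - a with hw₀
  have hq : (x₀ - a) / w₀ = 1 := div_self hw
  have hR := SchE_R_pos hk
  have hslit : ∀ᶠ x in 𝓝 x₀, (x - a) / w₀ ∈ slitPlane := by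
    have hc : ContinuousAt (fun x : ℂ => (x - a) / w₀) x₀ := by fun_prop
    refine hc.eventually_mem (isOpen_slitPlane.mem_nhds ?_)
    rw [hq]
    exact one_mem_slitPlane
  have hne : ∀ᶠ x in 𝓝 x₀, x ≠ a := isOpen_ne.mem_nhds h1
  have hlt : ∀ᶠ x in 𝓝 x₀, ‖x - a‖ < Ak k := by
    have hc : ContinuousAt (fun x : ℂ => ‖x - a‖) x₀ := by fun_prop
    exact hc.eventually_lt_const h2
  let φ : ℂ → ℂ := fun x => I * ((Real.log (Rk k) : ℂ) - Complex.log ((x - a) / w₀) -
    Complex.log w₀)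
  have him : ∀ x : ℂ, x ≠ a → (φ x).im = Real.log (Rk k / ‖x - a‖) := by
    intro x hx
    have hxa : x - a ≠ 0 := sub_ne_zero.2 hx
    have h3 : (φ x).im = Real.log (Rk k) - Real.log ‖(x - a) / w₀‖ - Real.log ‖w₀‖ := by
      simp only [φ]
      rw [I_mul_im, sub_re, sub_re, ofReal_re, Complex.log_re, Complex.log_re]
    rw [h3, norm_div, Real.log_div (norm_ne_zero_iff.2 hxa) (norm_ne_zero_iff.2 hw),
      Real.log_div hR.ne' (norm_ne_zero_iff.2 hxa)]
    ring
  have hder : ∀ x : ℂ, (x - a) / w₀ ∈ slitPlane → deriv φ x = -I / (x - a) := by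
    intro x hx
    have hxa : x - a ≠ 0 := by
      intro h0
      rw [h0, zero_div] at hx
      exact slitPlane_ne_zero hx rfl
    have h4 : HasDerivAt (fun x : ℂ => (x - a) / w₀) (1 / w₀) x :=
      ((hasDerivAt_id x).sub_const a).div_const w₀
    have h5 := h4.clog hx
    have h6 := (((hasDerivAt_const x ((Real.log (Rk k) : ℝ) : ℂ)).sub h5).sub
      (hasDerivAt_const x (Complex.log w₀))).const_mul I
    have h7 : HasDerivAt φ (I * (0 - 1 / w₀ / ((x - a) / w₀) - 0)) x := h6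
    rw [h7.deriv]
    field_simp
    ring
  refine ⟨φ, ?_, ?_, ?_⟩
  · have h8 : AnalyticAt ℂ (fun x : ℂ => (x - a) / w₀) x₀ :=
      (analyticAt_id.sub analyticAt_const).div analyticAt_const hw
    exact analyticAt_const.mul ((analyticAt_const.sub (h8.clog (by
      rw [hq]; exact one_mem_slitPlane))).sub analyticAt_const)
  · rw [him x₀ h1]
    exact SchE_log_pos hk (norm_pos_iff.2 hw) h2.le
  · filter_upwards [hslit, hne, hlt] with x hx1 hx2 hx3
    rw [hder x hx1, him x hx2, norm_div, norm_neg, norm_I]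
    unfold Kf
    rw [← ha, if_pos hx3]
    have h9 : 0 < ‖x - a‖ := norm_pos_iff.2 (sub_ne_zero.2 hx2)
    have h10 := SchE_log_pos hk h9 hx3.le
    field_simp

/-- (c) for `Uf`. Proof: `y₀² = x₀` with `Im y₀ > 0` (`x₀` is not in `[0, ∞)`), `y x := y₀ exp (log (x / x₀)
/ 2)`, analytic near `x₀`, `y² = x`, `Im y > 0` near `x₀`, `y' = y / (2 x) = 1 / (2 y)`;
`φ := y + 1000 I`: `‖φ'‖ / Im φ = 1 / (2 ‖y‖ (1000 + Im y)) = Uf x` (`iy_eq`, `sqrt_norm_eq`,
`‖y‖ > 1` near `x₀`). -/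
theorem supp_U {x₀ : ℂ} (h1 : ¬ (x₀.im = 0 ∧ 0 ≤ x₀.re)) (h2 : 1 < ‖x₀‖) :
    ∃ φ : ℂ → ℂ, AnalyticAt ℂ φ x₀ ∧ 0 < (φ x₀).im ∧
      ∀ᶠ x in 𝓝 x₀, 1 * ‖deriv φ x‖ / (φ x).im = Uf x := by
  obtain ⟨y₀, hy0, hyim⟩ : ∃ y₀ : ℂ, y₀ ^ 2 = x₀ ∧ 0 < y₀.im := by
    obtain ⟨y, hy⟩ := IsAlgClosed.exists_pow_nat_eq x₀ (n := 2) two_pos
    rcases lt_trichotomy y.im 0 with h | h | h
    · exact ⟨-y, by rw [neg_sq, hy], by rw [neg_im]; linarith⟩
    · exfalso
      apply h1
      have h3 : y = (y.re : ℂ) := by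
        apply Complex.ext <;> simp [h]
      rw [← hy, h3, ← ofReal_pow]
      exact ⟨ofReal_im _, by rw [ofReal_re]; positivity⟩
    · exact ⟨y, hy, h⟩
  have hx0 : x₀ ≠ 0 := by
    rintro rfl
    rw [norm_zero] at h2
    linarith
  have hq : x₀ / x₀ = 1 := div_self hx0
  let y : ℂ → ℂ := fun x => y₀ * Complex.exp (Complex.log (x / x₀) / 2)
  have hslit : ∀ᶠ x in 𝓝 x₀, x / x₀ ∈ slitPlane := by
    have hc : ContinuousAt (fun x : ℂ => x / x₀) x₀ := by fun_prop
    refine hc.eventually_mem (isOpen_slitPlane.mem_nhds ?_)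
    rw [hq]
    exact one_mem_slitPlane
  have han : AnalyticAt ℂ y x₀ := by
    have h8 : AnalyticAt ℂ (fun x : ℂ => x / x₀) x₀ := analyticAt_id.div analyticAt_const hx0
    have h9 : AnalyticAt ℂ (fun x : ℂ => Complex.log (x / x₀) / 2) x₀ :=
      (h8.clog (by rw [hq]; exact one_mem_slitPlane)).div analyticAt_const two_ne_zero
    exact analyticAt_const.mul h9.cexp
  have hyx : y x₀ = y₀ := by
    simp only [y]
    rw [hq, Complex.log_one, zero_div, Complex.exp_zero, mul_one]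
  have hsq : ∀ x : ℂ, x ≠ 0 → y x ^ 2 = x := by
    intro x hx
    have h3 : x / x₀ ≠ 0 := div_ne_zero hx hx0
    simp only [y]
    rw [mul_pow, hy0, ← Complex.exp_nat_mul]
    have h4 : ((2 : ℕ) : ℂ) * (Complex.log (x / x₀) / 2) = Complex.log (x / x₀) := by
      push_cast
      ring
    rw [h4, Complex.exp_log h3, mul_div_cancel₀ _ hx0]
  have hder : ∀ x : ℂ, x / x₀ ∈ slitPlane → HasDerivAt y (y x / (2 * x)) x := by
    intro x hx
    have hxne : x ≠ 0 := by
      rintro rfl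
      rw [zero_div] at hx
      exact slitPlane_ne_zero hx rfl
    have h4 : HasDerivAt (fun x : ℂ => x / x₀) (1 / x₀) x := (hasDerivAt_id x).div_const x₀
    have h5 := (((h4.clog hx).div_const 2).cexp).const_mul y₀
    refine h5.congr_deriv ?_
    simp only [y]
    field_simp
  have him : ∀ᶠ x in 𝓝 x₀, 0 < (y x).im := by
    have hc : ContinuousAt (fun x : ℂ => (y x).im) x₀ :=
      Complex.continuous_im.continuousAt.comp han.continuousAt
    refine hc.eventually_const_lt ?_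
    change 0 < (y x₀).im
    rw [hyx]
    exact hyim
  have hnorm : ∀ᶠ x in 𝓝 x₀, 1 < ‖x‖ := continuous_norm.continuousAt.eventually_const_lt h2
  refine ⟨fun x => y x + 1000 * I, han.add analyticAt_const, ?_, ?_⟩
  · have h3 : ((y x₀ + 1000 * I : ℂ)).im = y₀.im + 1000 := by
      rw [hyx]
      simp
    rw [h3]
    linarith
  · filter_upwards [hslit, him, hnorm] with x hx1 hx2 hx3
    have hxne : x ≠ 0 := by
      rintro rfl
      rw [norm_zero] at hx3
      linarith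
    have hysq := hsq x hxne
    have h3 : deriv (fun x => y x + 1000 * I) x = y x / (2 * x) :=
      ((hder x hx1).add_const (1000 * I)).deriv
    have h4 : ((y x + 1000 * I : ℂ)).im = (y x).im + 1000 := by simp
    have h5 : ‖x‖ = ‖y x‖ ^ 2 := by rw [← norm_pow, hysq]
    have h6 : 0 < ‖y x‖ := by
      rw [norm_pos_iff]
      intro h0
      rw [h0] at hysq
      exact hxne (by rw [← hysq]; ring)
    have h7 : 1 ≤ ‖y x‖ := by
      rw [h5] at hx3
      nlinarith
    have h8 : ‖(2 : ℂ) * x‖ = 2 * ‖y x‖ ^ 2 := by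
      rw [norm_mul, h5]
      simp
    rw [h3, h4]
    unfold Uf
    rw [iy_eq hysq, sqrt_norm_eq hysq, max_eq_left h7, abs_of_pos hx2, norm_div, h8]
    have h9 : 0 < (y x).im + 1000 := by linarith
    have h10 : 0 < 1000 + (y x).im := by linarith
    field_simp
    ring

/-- Proof: `iy` and the square root are continuous, the denominator is positive. -/
theorem Uf_cont : Continuous Uf := by
  have h1 : Continuous iy := by
    unfold iy
    fun_prop
  unfold Uf
  refine continuous_const.div ?_ fun x => ?_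
  · exact (continuous_const.mul ((continuous_norm.sqrt).max continuous_const)).mul
      (continuous_const.add h1)
  · have h : 0 ≤ iy x := Real.sqrt_nonneg _
    have h2 : 0 < max (√‖x‖) 1 := lt_max_of_lt_right one_pos
    positivity

theorem Uf_pos (x : ℂ) : 0 < Uf x := by
  have h : 0 ≤ iy x := Real.sqrt_nonneg _
  unfold Uf
  have h2 : 0 < max (√‖x‖) 1 := lt_max_of_lt_right one_pos
  positivity

/-- Proof: the two formulas agree for `‖x - (k π)²‖ = A_k` (`log (R_k / A_k) = 1`),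
`Continuous.if_le` type argument; for `0 < t < R_k` `log (R_k / t) > 0`. -/
theorem Kf_cont {k : ℕ} (hk : 1 ≤ k) : ContinuousOn (Kf k) {x | x ≠ pk k} := by
  have hA := SchE_A_pos hk
  have hR := SchE_R_pos hk
  intro x hx
  refine ContinuousAt.continuousWithinAt ?_
  have ht : 0 < ‖x - pk k‖ := norm_pos_iff.2 (sub_ne_zero.2 hx)
  have hn : ContinuousAt (fun z : ℂ => ‖z - pk k‖) x := by fun_prop
  have hG : ContinuousAt (fun z : ℂ => 1 / 10 * Ak k / ‖z - pk k‖ ^ 2) x :=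
    continuousAt_const.div (hn.pow 2) (pow_ne_zero 2 ht.ne')
  have hF : ‖x - pk k‖ ≤ Ak k →
      ContinuousAt (fun z : ℂ => 1 / 10 / (‖z - pk k‖ * Real.log (Rk k / ‖z - pk k‖))) x := by
    intro hle
    have h3 := SchE_log_pos hk ht hle
    refine continuousAt_const.div (hn.mul ?_) (mul_pos ht h3).ne'
    exact (continuousAt_const.div hn ht.ne').log (div_pos hR ht).ne'
  rcases lt_trichotomy ‖x - pk k‖ (Ak k) with h | h | h
  · refine (hF h.le).congr ?_
    filter_upwards [hn.eventually_lt_const h] with z hz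
    unfold Kf
    rw [if_pos hz]
  · have h4 : Kf k x = 1 / 10 * Ak k / ‖x - pk k‖ ^ 2 := by
      unfold Kf
      rw [if_neg h.not_lt]
    have h5 : 1 / 10 / (‖x - pk k‖ * Real.log (Rk k / ‖x - pk k‖)) = Kf k x := by
      rw [h4, h]
      have h6 : Rk k / Ak k = Real.exp 1 := by
        unfold Ak
        rw [div_div_cancel₀ hR.ne']
      rw [h6, Real.log_exp, mul_one]
      field_simp
    have h7 : Tendsto (fun z : ℂ => 1 / 10 / (‖z - pk k‖ * Real.log (Rk k / ‖z - pk k‖)))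
        (𝓝 x) (𝓝 (Kf k x)) := by
      rw [← h5]
      exact hF h.le
    have h8 : Tendsto (fun z : ℂ => 1 / 10 * Ak k / ‖z - pk k‖ ^ 2) (𝓝 x) (𝓝 (Kf k x)) := by
      rw [h4]
      exact hG
    exact Filter.Tendsto.if' h7 h8
  · refine hG.congr ?_
    filter_upwards [hn.eventually_const_lt h] with z hz
    unfold Kf
    rw [if_neg hz.not_gt]

end Pool.Agent.MP_ae5b4e_an_T
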