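import Pool.Agent.Lib.MP_ae5b4e_an_T.SchC
import Pool.Agent.Lib.MP_ae5b4e_an_T.SchE
import Pool.Agent.Lib.MP_ae5b4e_an_M.FnA

/-!
# POR (iii), N2, section T, block T1: the theorem of Schottky type
-/

set_option autoImplicit false

noncomputable section

namespace Pool.Agent.MP_ae5b4e_an_T

open Complex Set Filter Topology Metric
open Pool.Agent.MP_ae5b4e_an_M (S1)

/-- the parts of the metric -/
def Pf (j : ℕ) (x : ℂ) : ℝ := if j = 0 then Uf x else Kf j x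

/-- the metric -/
def rhoN (N : ℕ) (x : ℂ) : ℝ :=
  (Finset.range (N + 1)).sup' ⟨0, Finset.mem_range.2 (Nat.succ_pos N)⟩ (fun j => Pf j x)

/-- its domain -/
def OmN (N : ℕ) : Set ℂ := {x | ‖x‖ < (N * Real.pi) ^ 2 ∧ ∀ k : ℕ, 1 ≤ k → k ≤ N → x ≠ pk k}

/-- Proof: finitely many points are removed. -/
theorem OmN_open (N : ℕ) : IsOpen (OmN N) := by
  have h : OmN N = {x : ℂ | ‖x‖ < (N * Real.pi) ^ 2} ∩ ⋂ k ∈ Finset.Icc 1 N, {pk k}ᶜ := by
    ext x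
    simp only [OmN, mem_setOf_eq, mem_inter_iff, mem_iInter, Finset.mem_Icc, mem_compl_iff,
      mem_singleton_iff, and_imp]
  rw [h]
  exact (isOpen_lt continuous_norm continuous_const).inter
    (isOpen_biInter_finset fun k _ => isOpen_compl_singleton)

private theorem SchF_le (N : ℕ) (x : ℂ) {j : ℕ} (hj : j ≤ N) : Pf j x ≤ rhoN N x :=
  Finset.le_sup' (fun j => Pf j x) (Finset.mem_range.2 (Nat.lt_succ_of_le hj))

private theorem SchF_zero (x : ℂ) : Pf 0 x = Uf x := if_pos rfl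

private theorem SchF_succ (x : ℂ) {j : ℕ} (hj : j ≠ 0) : Pf j x = Kf j x := if_neg hj

/-- Proof: `ContinuousOn.finset_sup'`, `Uf_cont`, `Kf_cont`. -/
theorem rhoN_cont (N : ℕ) : ContinuousOn (rhoN N) (OmN N) := by
  refine ContinuousOn.finset_sup'_apply _ fun j hj => ?_
  by_cases h : j = 0
  · have h1 : Pf j = Uf := funext fun x => by rw [h]; exact SchF_zero x
    rw [h1]
    exact Uf_cont.continuousOn
  · have h1 : Pf j = Kf j := funext fun x => SchF_succ x h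
    rw [h1]
    have hj' : j ≤ N := Nat.lt_succ_iff.1 (Finset.mem_range.1 hj)
    exact (Kf_cont (Nat.one_le_iff_ne_zero.2 h)).mono fun x hx =>
      hx.2 j (Nat.one_le_iff_ne_zero.2 h) hj'

/-- (d). Proof: the maximum at `y₀` is attained for some `j ≤ N` (`Finset.exists_mem_eq_sup'`). If
`j ≥ 1`: `‖y₀ - (j π)²‖ < A_j`, because otherwise `Kf j y₀ < Uf y₀` (`KU_far`); `supp_K`, `c = 1 / 10`,
and `Kf j ≤ rhoN`. If `j = 0`: `‖y₀‖ > 1` by `KU_small` (`1 ≤ N`), and `y₀` is not real and `> 0` by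
`KU_real`; `supp_U`, `c = 1`. -/
theorem spp_rhoN {N : ℕ} (hN : 1 ≤ N) : Spp (OmN N) (rhoN N) := by
  intro y₀ hy₀ _
  obtain ⟨j, hj, hje⟩ := Finset.exists_mem_eq_sup' (s := Finset.range (N + 1))
    ⟨0, Finset.mem_range.2 (Nat.succ_pos N)⟩ (fun j => Pf j y₀)
  change rhoN N y₀ = Pf j y₀ at hje
  have hj' : j ≤ N := Nat.lt_succ_iff.1 (Finset.mem_range.1 hj)
  by_cases h : j = 0
  · subst h
    rw [SchF_zero] at hje
    have hK : ∀ k : ℕ, 1 ≤ k → k ≤ N → Kf k y₀ ≤ Uf y₀ := by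
      intro k hk hkN
      have h1 := SchF_le N y₀ hkN
      rwa [SchF_succ y₀ (by omega), hje] at h1
    have h1 : 1 < ‖y₀‖ := by
      by_contra hc
      exact absurd (KU_small (not_lt.1 hc)) (not_lt.2 (hK 1 le_rfl hN))
    have h2 : ¬ (y₀.im = 0 ∧ 0 ≤ y₀.re) := by
      rintro ⟨him, hre⟩
      rcases hre.eq_or_lt with h0 | h0
      · have h3 : y₀ = 0 := Complex.ext h0.symm him
        rw [h3, norm_zero] at h1
        linarith
      · obtain ⟨k, hk, hkN, hlt⟩ := KU_real him h0 hN hy₀.1 hy₀.2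
        exact absurd hlt (not_lt.2 (hK k hk hkN))
    obtain ⟨φ, hφ, hφi, hφe⟩ := supp_U h2 h1
    refine ⟨φ, 1, one_pos, le_rfl, hφ, hφi, ?_, ?_⟩
    · rw [hje]
      exact hφe.self_of_nhds.symm
    · filter_upwards [hφe] with y hy
      rw [hy, ← SchF_zero]
      exact SchF_le N y (Nat.zero_le N)
  · have hj1 : 1 ≤ j := Nat.one_le_iff_ne_zero.2 h
    rw [SchF_succ y₀ h] at hje
    have h1 : ‖y₀ - pk j‖ < Ak j := by
      by_contra hc
      have h2 := KU_far hj1 (not_lt.1 hc)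
      have h3 := SchF_le N y₀ (Nat.zero_le N)
      rw [SchF_zero, hje] at h3
      exact absurd h2 (not_lt.2 h3)
    obtain ⟨φ, hφ, hφi, hφe⟩ := supp_K hj1 (hy₀.2 j hj1 hj') h1
    refine ⟨φ, 1 / 10, by norm_num, by norm_num, hφ, hφi, ?_, ?_⟩
    · rw [hje]
      exact hφe.self_of_nhds.symm
    · filter_upwards [hφe] with y hy
      rw [hy, ← SchF_succ y h]
      exact SchF_le N y hj'

private theorem SchF_r {x : ℂ → ℂ} (hx : DifferentiableOn ℂ x (ball 0 1))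
    (hS : ∀ z ∈ ball (0 : ℂ) 1, S1 (x z) ≠ 0) {y : ℂ} (hy : y ^ 2 = x 0) {r : ℝ} (hr0 : 0 < r)
    (hr1 : r < 1) : r * ‖deriv x 0‖ ≤ 4 * max ‖y‖ 1 * (1000 + |y.im|) := by
  have hcb : closedBall (0 : ℂ) r ⊆ ball 0 1 := closedBall_subset_ball hr1
  obtain ⟨K, hK⟩ := (isCompact_closedBall (0 : ℂ) r).exists_bound_of_continuousOn
    (hx.continuousOn.mono hcb)
  obtain ⟨N, hN1, hNK⟩ : ∃ N : ℕ, 1 ≤ N ∧ K < (N * Real.pi) ^ 2 := by
    obtain ⟨n, hn⟩ := exists_nat_gt K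
    refine ⟨n + 1, by omega, ?_⟩
    have h1 : (1 : ℝ) ≤ Real.pi := by linarith [Real.pi_gt_three]
    have h2 : (0 : ℝ) ≤ n := Nat.cast_nonneg n
    push_cast
    have h3 : (n : ℝ) + 1 ≤ (n + 1) * Real.pi := le_mul_of_one_le_right (by linarith) h1
    nlinarith
  have hmap : ∀ z ∈ ball (0 : ℂ) 1, (r : ℂ) * z ∈ closedBall (0 : ℂ) r := by
    intro z hz
    rw [mem_ball_zero_iff] at hz
    rw [mem_closedBall_zero_iff, norm_mul, Complex.norm_real, Real.norm_of_nonneg hr0.le]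
    exact mul_le_of_le_one_right hr0.le hz.le
  obtain ⟨f, hf⟩ : ∃ f : ℂ → ℂ, f = fun z => x (r * z) := ⟨_, rfl⟩
  have hfd : DifferentiableOn ℂ f (ball 0 1) := by
    rw [hf]
    exact hx.comp ((differentiable_id.const_mul (r : ℂ)).differentiableOn)
      fun z hz => hcb (hmap z hz)
  have hfO : ∀ z ∈ ball (0 : ℂ) 1, f z ∈ OmN N := by
    intro z hz
    rw [hf]
    refine ⟨(hK _ (hmap z hz)).trans_lt hNK, fun k hk _ he => ?_⟩
    refine hS _ (hcb (hmap z hz)) (MP_ae5b4e_an_M.S1_eq_zero.2 ⟨k, hk, ?_⟩)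
    refine he.trans ?_
    rw [pk]
    push_cast
    rfl
  have hρ0 : ∀ y ∈ OmN N, 0 ≤ rhoN N y := by
    intro y _
    have h1 := SchF_le N y (Nat.zero_le N)
    rw [SchF_zero] at h1
    exact (Uf_pos y).le.trans h1
  have hA := ahlfors (OmN_open N) (rhoN_cont N) hρ0 (spp_rhoN hN1) hfd hfO
  have hf0 : f 0 = x 0 := by rw [hf]; simp
  have hfd0 : deriv f 0 = r * deriv x 0 := by
    have h1 : HasDerivAt x (deriv x 0) ((r : ℂ) * 0) := by
      rw [mul_zero]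
      exact (hx.differentiableAt (isOpen_ball.mem_nhds (mem_ball_self one_pos))).hasDerivAt
    have h2 : HasDerivAt (fun z : ℂ => (r : ℂ) * z) ((r : ℂ) * 1) 0 :=
      (hasDerivAt_id (0 : ℂ)).const_mul (r : ℂ)
    have h3 := h1.comp (0 : ℂ) h2
    rw [hf]
    change deriv (x ∘ fun z : ℂ => (r : ℂ) * z) 0 = _
    rw [h3.deriv]
    ring
  have h1 := SchF_le N (x 0) (Nat.zero_le N)
  rw [SchF_zero] at h1
  rw [hf0, hfd0, norm_mul, Complex.norm_real, Real.norm_of_nonneg hr0.le] at hA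
  have h2 : Uf (x 0) * (r * ‖deriv x 0‖) ≤ 2 :=
    (mul_le_mul_of_nonneg_right h1 (mul_nonneg hr0.le (norm_nonneg _))).trans hA
  have h3 : Uf (x 0) = 1 / (2 * max ‖y‖ 1 * (1000 + |y.im|)) := by
    unfold Uf
    rw [iy_eq hy, sqrt_norm_eq hy]
  have h4 : 0 < 2 * max ‖y‖ 1 * (1000 + |y.im|) := by
    have h5 : 0 < max ‖y‖ 1 := lt_max_of_lt_right one_pos
    have h6 := abs_nonneg y.im
    positivity
  rw [h3, one_div, inv_mul_le_iff₀ h4] at h2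
  linarith

/-- (e). The theorem T1. Proof: `C = 1000`. Let `0 < r < 1`, `f z := x (r z)`; `‖x‖` is bounded on
`closedBall 0 r`, choose `N ≥ 1` with `(N π)²` larger than the bound; `x z ≠ (k π)²` by `S1_eq_zero`
(`Pool.Agent.MP_ae5b4e_an_M.S1_eq_zero`), so `f` maps the unit ball into `OmN N`. `ahlfors`:
`Uf (x 0) r ‖x' 0‖ ≤ rhoN N (x 0) ‖f' 0‖ ≤ 2`, that is `r ‖x' 0‖ ≤ 4 max (√‖x 0‖) 1 (1000 + iy (x 0))`
(`iy_eq`, `sqrt_norm_eq`); `r → 1`. -/
theorem sch : ∃ C : ℝ, 1 ≤ C ∧ ∀ x : ℂ → ℂ, DifferentiableOn ℂ x (ball 0 1) →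
    (∀ z ∈ ball (0 : ℂ) 1, S1 (x z) ≠ 0) → ∀ y : ℂ, y ^ 2 = x 0 →
      ‖deriv x 0‖ ≤ 4 * max ‖y‖ 1 * (C + |y.im|) := by
  refine ⟨1000, by norm_num, fun x hx hS y hy => ?_⟩
  by_contra hc
  rw [not_le] at hc
  have hM : 0 < 4 * max ‖y‖ 1 * (1000 + |y.im|) := by
    have h5 : 0 < max ‖y‖ 1 := lt_max_of_lt_right one_pos
    have h6 := abs_nonneg y.im
    positivity
  obtain ⟨M, hMd⟩ : ∃ M : ℝ, M = 4 * max ‖y‖ 1 * (1000 + |y.im|) := ⟨_, rfl⟩
  rw [← hMd] at hc hM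
  have hD : 0 < ‖deriv x 0‖ := hM.trans hc
  have hq : M / ‖deriv x 0‖ < 1 := (div_lt_one hD).2 hc
  have hq0 : 0 < M / ‖deriv x 0‖ := div_pos hM hD
  have h1 := SchF_r hx hS hy (r := (M / ‖deriv x 0‖ + 1) / 2) (by linarith) (by linarith)
  rw [← hMd] at h1
  have h2 : (M / ‖deriv x 0‖ + 1) / 2 * ‖deriv x 0‖ = (M + ‖deriv x 0‖) / 2 := by
    field_simp
  rw [h2] at h1
  linarith

end Pool.Agent.MP_ae5b4e_an_T
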