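import Pool.Agent.Lib.MP_ae5b4e_an_T.Defs
import Pool.Agent.Lib.MP_ae5b4e_an_T.SchF

/-!
# POR (iii), N2, section T, block T2a: the function `Xf` on a slice
-/

set_option autoImplicit false

noncomputable section

namespace Pool.Agent.MP_ae5b4e_an_T

open Complex Set Filter Topology Metric
open Pool.Agent.MP_ae5b4e_an_WB
open Pool.Agent.MP_ae5b4e_an_M (S1 C1f Gf)

theorem Hp_open (v : ℝ) : IsOpen (Hp v) := by
  exact isOpen_lt Complex.continuous_im continuous_const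

private theorem GrC_im {q : ℂ → ℂ} {C γ v : ℝ} {f : ℂ → ℂ} (h : Sl q C γ v f) {τ : ℂ}
    (hτ : τ ∈ Hp v) : (f τ).im < 0 := by
  have h1 := h.dep τ hτ
  have h2 : τ.im < -v := hτ
  linarith

private theorem GrC_mem {v : ℝ} {τ : ℂ} (hτ : τ ∈ Hp v) {z : ℂ} (hz : z ∈ ball (0 : ℂ) 1) :
    τ + ((-v - τ.im : ℝ) : ℂ) * z ∈ Hp v := by
  have h1 : τ.im < -v := hτ
  have h2 : z.im < 1 := by
    rw [mem_ball_zero_iff] at hz
    exact ((le_abs_self _).trans (Complex.abs_im_le_norm z)).trans_lt hz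
  change (τ + ((-v - τ.im : ℝ) : ℂ) * z).im < -v
  rw [Complex.add_im, Complex.im_ofReal_mul]
  nlinarith

private theorem GrC_lin (τ : ℂ) (d : ℝ) : HasDerivAt (fun z : ℂ => τ + (d : ℂ) * z) (d : ℂ) 0 := by
  have h1 := ((hasDerivAt_id (0 : ℂ)).const_mul (d : ℂ)).const_add τ
  rw [mul_one] at h1
  exact h1

private theorem GrC_sp {w w0 : ℂ} (hw : w.im < 0) (hw0 : w0.im < 0) :
    ‖w - w0‖ ≤ ‖w - (starRingEnd ℂ) w0‖ := by
  rw [← abs_of_nonneg (norm_nonneg (w - w0)),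
    ← abs_of_nonneg (norm_nonneg (w - (starRingEnd ℂ) w0)), ← sq_le_sq, ← Complex.normSq_eq_norm_sq,
    ← Complex.normSq_eq_norm_sq, Complex.normSq_apply, Complex.normSq_apply]
  simp only [Complex.sub_re, Complex.sub_im, Complex.conj_re, Complex.conj_im]
  nlinarith [mul_pos_of_neg_of_neg hw hw0]

/-- Proof: `f` maps `Hp v` into `Hm` (`dep`), `deriv f` is holomorphic on the open set `Hp v`. -/
theorem Xf_diff {q : ℂ → ℂ} {C γ v : ℝ} {f : ℂ → ℂ} (h : Sl q C γ v f) :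
    DifferentiableOn ℂ (Xf q γ f) (Hp v) := by
  have hm : MapsTo f (Hp v) Hm := fun τ hτ => GrC_im h hτ
  have h1 : DifferentiableOn ℂ (fun τ => q (f τ)) (Hp v) := h.qd.comp h.fd hm
  have h2 : DifferentiableOn ℂ (deriv f) (Hp v) := h.fd.deriv (Hp_open v)
  exact h1.mul ((h2.const_mul (γ : ℂ)).pow 2)

/-- (2.2). `S` is a constant of `sch`. Proof: `d := -v - Im τ > 0`; `x z := Xf q γ f (τ + d z)` on the unit ball
(`τ + d z ∈ Hp v`), `x' 0 = d X' τ` (chain rule), `S1 (x z) ≠ 0` by `h.s1`. -/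
theorem Xf_sch {S : ℝ} (hS : ∀ x : ℂ → ℂ, DifferentiableOn ℂ x (ball 0 1) →
      (∀ z ∈ ball (0 : ℂ) 1, S1 (x z) ≠ 0) → ∀ y : ℂ, y ^ 2 = x 0 →
        ‖deriv x 0‖ ≤ 4 * max ‖y‖ 1 * (S + |y.im|))
    {q : ℂ → ℂ} {C γ v : ℝ} {f : ℂ → ℂ} (h : Sl q C γ v f) {τ : ℂ} (hτ : τ ∈ Hp v) {y : ℂ}
    (hy : y ^ 2 = Xf q γ f τ) :
    ‖deriv (Xf q γ f) τ‖ * (-v - τ.im) ≤ 4 * max ‖y‖ 1 * (S + |y.im|) := by
  have hd : 0 < -v - τ.im := by
    have h1 : τ.im < -v := hτ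
    linarith
  obtain ⟨d, hdd⟩ : ∃ d : ℝ, d = -v - τ.im := ⟨_, rfl⟩
  have hX := Xf_diff h
  have hmem : ∀ z ∈ ball (0 : ℂ) 1, τ + (d : ℂ) * z ∈ Hp v := by
    intro z hz
    rw [hdd]
    exact GrC_mem hτ hz
  rw [← hdd] at hd ⊢
  have h1 := hS (fun z => Xf q γ f (τ + d * z)) (hX.comp (by fun_prop) hmem)
    (fun z hz => h.s1 _ (hmem z hz)) y (by rw [mul_zero, add_zero]; exact hy)
  have h2 : HasDerivAt (fun z : ℂ => Xf q γ f (τ + d * z)) (deriv (Xf q γ f) τ * d) 0 := by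
    have h3 : HasDerivAt (Xf q γ f) (deriv (Xf q γ f) τ) (τ + (d : ℂ) * 0) := by
      rw [mul_zero, add_zero]
      exact (hX.differentiableAt ((Hp_open v).mem_nhds hτ)).hasDerivAt
    exact h3.comp (0 : ℂ) (GrC_lin τ d)
  rw [h2.deriv, norm_mul, Complex.norm_real, Real.norm_of_nonneg hd.le] at h1
  exact h1

/-- Schwarz-Pick. Proof: `d := -v - Im τ`, `w0 := f τ`, `g z := (f (τ + d z) - w0) / (f (τ + d z) - conj w0)`
maps the unit ball into the unit ball (`Im (f ..) < 0`, `Im w0 < 0`), `g 0 = 0`,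
`g' 0 = d f' τ / (w0 - conj w0) = d f' τ / (2 I Im w0)`; Schwarz lemma
(`Complex.norm_deriv_le_div_of_mapsTo_ball`): `‖g' 0‖ ≤ 1`. -/
theorem f_der {q : ℂ → ℂ} {C γ v : ℝ} {f : ℂ → ℂ} (h : Sl q C γ v f) {τ : ℂ} (hτ : τ ∈ Hp v) :
    ‖deriv f τ‖ * (-v - τ.im) ≤ 2 * -(f τ).im := by
  have hd : 0 < -v - τ.im := by
    have h1 : τ.im < -v := hτ
    linarith
  obtain ⟨d, hdd⟩ : ∃ d : ℝ, d = -v - τ.im := ⟨_, rfl⟩
  have hmem : ∀ z ∈ ball (0 : ℂ) 1, τ + (d : ℂ) * z ∈ Hp v := by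
    intro z hz
    rw [hdd]
    exact GrC_mem hτ hz
  rw [← hdd] at hd ⊢
  obtain ⟨w0, hw⟩ : ∃ w0 : ℂ, w0 = f τ := ⟨_, rfl⟩
  have hw0 : w0.im < 0 := by
    rw [hw]
    exact GrC_im h hτ
  have hne : ∀ w : ℂ, w.im < 0 → w - (starRingEnd ℂ) w0 ≠ 0 := by
    intro w hw1 h0
    have h1 := congrArg Complex.im h0
    rw [Complex.sub_im, Complex.conj_im, Complex.zero_im] at h1
    linarith
  have hfd : DifferentiableOn ℂ (fun z => f (τ + d * z)) (ball 0 1) :=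
    h.fd.comp (by fun_prop) hmem
  obtain ⟨g, hg⟩ : ∃ g : ℂ → ℂ, g = fun z =>
    (f (τ + d * z) - w0) / (f (τ + d * z) - (starRingEnd ℂ) w0) := ⟨_, rfl⟩
  have hgd : DifferentiableOn ℂ g (ball 0 1) := by
    rw [hg]
    exact (hfd.sub_const w0).div (hfd.sub_const _) fun z hz => hne _ (GrC_im h (hmem z hz))
  have hg0 : g 0 = 0 := by
    rw [hg]
    simp only [mul_zero, add_zero]
    rw [← hw, sub_self, zero_div]
  have hgm : MapsTo g (ball 0 1) (closedBall (g 0) 1) := by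
    intro z hz
    rw [hg0, mem_closedBall_zero_iff, hg]
    simp only
    rw [norm_div]
    exact div_le_one_of_le₀ (GrC_sp (GrC_im h (hmem z hz)) hw0) (norm_nonneg _)
  have h1 := norm_deriv_le_div_of_mapsTo_ball hgd hgm one_pos
  have h2 : HasDerivAt (fun z : ℂ => f (τ + d * z)) (deriv f τ * d) 0 := by
    have h3 : HasDerivAt f (deriv f τ) (τ + (d : ℂ) * 0) := by
      rw [mul_zero, add_zero]
      exact (h.fd.differentiableAt ((Hp_open v).mem_nhds hτ)).hasDerivAt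
    exact h3.comp (0 : ℂ) (GrC_lin τ d)
  have h4 := (h2.sub_const w0).fun_div (h2.sub_const ((starRingEnd ℂ) w0))
    (by rw [mul_zero, add_zero, ← hw]; exact hne w0 hw0)
  rw [mul_zero, add_zero, ← hw, sub_self, zero_mul, sub_zero] at h4
  have h5 : deriv g 0 = deriv f τ * d / (w0 - (starRingEnd ℂ) w0) := by
    rw [hg, h4.deriv]
    have h6 := hne w0 hw0
    field_simp
  have h6 : w0 - (starRingEnd ℂ) w0 = ((2 * w0.im : ℝ) : ℂ) * I := Complex.sub_conj w0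
  rw [h5, h6, norm_div, norm_mul, norm_mul, Complex.norm_real, Complex.norm_real, Complex.norm_I,
    mul_one, Real.norm_of_nonneg hd.le, Real.norm_eq_abs, abs_of_neg (by linarith), div_one,
    div_le_one (by linarith)] at h1
  rw [← hw]
  linarith

/-- (2.3). Proof: `‖q (f τ)‖ ≤ C / p²`, `p := - Im (f τ) ≥ 2`, `‖f' τ‖ ≤ 2 p / d` (`f_der`):
`‖Xf‖ ≤ (C / p²) γ² (2 p / d)² = 4 C γ² / d²`. -/
theorem Xf_apriori {q : ℂ → ℂ} {C γ v : ℝ} {f : ℂ → ℂ} (h : Sl q C γ v f) {τ : ℂ} (hτ : τ ∈ Hp v)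
    (hp : 2 ≤ -(f τ).im) : ‖Xf q γ f τ‖ * (-v - τ.im) ^ 2 ≤ 4 * C * γ ^ 2 := by
  have h1 := f_der h hτ
  have h2 := h.qb (f τ) hp
  have hd : 0 < -v - τ.im := by
    have h1 : τ.im < -v := hτ
    linarith
  have hγ := h.γ_pos
  have hC := h.C_pos
  have h3 : ‖Xf q γ f τ‖ = ‖q (f τ)‖ * (γ * ‖deriv f τ‖) ^ 2 := by
    unfold Xf
    rw [norm_mul, norm_pow, norm_mul, Complex.norm_real, Real.norm_of_nonneg hγ.le]
  have hi : (f τ).im ^ 2 = (-(f τ).im) ^ 2 := by ring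
  rw [hi] at h2
  rw [h3]
  have hD := norm_nonneg (deriv f τ)
  have hQ := norm_nonneg (q (f τ))
  generalize -(f τ).im = p at h1 h2 hp
  generalize -v - τ.im = d at h1 hd ⊢
  generalize ‖deriv f τ‖ = D at h1 hD ⊢
  generalize ‖q (f τ)‖ = Q at h2 hQ ⊢
  have hp0 : 0 < p := by linarith
  rw [le_div_iff₀ (by positivity)] at h2
  have h4 : (D * d) ^ 2 ≤ (2 * p) ^ 2 := pow_le_pow_left₀ (mul_nonneg hD hd.le) h1 2
  calc Q * (γ * D) ^ 2 * d ^ 2 = γ ^ 2 * (Q * (D * d) ^ 2) := by ring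
    _ ≤ γ ^ 2 * (Q * (2 * p) ^ 2) :=
        mul_le_mul_of_nonneg_left (mul_le_mul_of_nonneg_left h4 hQ) (sq_nonneg γ)
    _ = 4 * γ ^ 2 * (Q * p ^ 2) := by ring
    _ ≤ 4 * γ ^ 2 * C := mul_le_mul_of_nonneg_left h2 (by positivity)
    _ = 4 * C * γ ^ 2 := by ring

/-- (2.1). Proof: as `DS.G_of_sq` in `Pool.Agent.Lib.MP_ae5b4e_an_WD.DA` (same computation with `S1_sq`,
`C1f_sq` of `Pool.Agent.Lib.MP_ae5b4e_an_M.FnA`): `deriv f τ ≠ 0` by `h.gf` (`Gf q l 0 = 0 ≠ γ`);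
`r := y / (γ f' τ)`, `r² = q (f τ)`, `r ≠ 0`; `y = r (γ f')`; `sin y = y S1 (y²) ≠ 0`; `Gf q l α = γ`, `α = γ f'`,
multiplied by `r`: `G y = r γ`. -/
theorem y_spec {q : ℂ → ℂ} {C γ v : ℝ} {f : ℂ → ℂ} (h : Sl q C γ v f) {τ : ℂ} (hτ : τ ∈ Hp v)
    (hq : q (f τ) ≠ 0) {y : ℂ} (hy : y ^ 2 = Xf q γ f τ) :
    sin y ≠ 0 ∧ G y ^ 2 = (γ : ℂ) ^ 2 * q (f τ) ∧ deriv f τ = y / G y := by
  have hγ : (γ : ℂ) ≠ 0 := by exact_mod_cast h.γ_pos.ne'
  have h3 := h.gf τ hτ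
  have hd : deriv f τ ≠ 0 := by
    intro h0
    rw [h0, mul_zero] at h3
    unfold Gf at h3
    rw [zero_mul, zero_mul] at h3
    exact hγ h3.symm
  have hα : (γ : ℂ) * deriv f τ ≠ 0 := mul_ne_zero hγ hd
  obtain ⟨α, hαd⟩ : ∃ α : ℂ, α = (γ : ℂ) * deriv f τ := ⟨_, rfl⟩
  obtain ⟨r, hr⟩ : ∃ r : ℂ, r = y / α := ⟨_, rfl⟩
  rw [← hαd] at hα h3
  have hrα : r * α = y := by rw [hr]; exact div_mul_cancel₀ y hα
  have hr2 : r ^ 2 = q (f τ) := by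
    rw [hr, div_pow, hy, Xf, ← hαd]
    field_simp
  have hr0 : r ≠ 0 := by
    intro h0
    rw [h0] at hr2
    exact hq (by rw [← hr2]; ring)
  have hy0 : r * α ≠ 0 := mul_ne_zero hr0 hα
  have hy2 : (r * α) ^ 2 = q (f τ) * α ^ 2 := by rw [mul_pow, hr2]
  have hs : S1 ((r * α) ^ 2) ≠ 0 := by
    rw [hy2, hαd]
    exact h.s1 τ hτ
  have h1 := Pool.Agent.MP_ae5b4e_an_M.S1_sq (r * α)
  have h2 := Pool.Agent.MP_ae5b4e_an_M.C1f_sq (r * α)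
  have hsin : sin (r * α) ≠ 0 := by
    rw [← h1]
    exact mul_ne_zero hy0 hs
  have hG : G (r * α) = r * γ := by
    unfold Gf at h3
    rw [← hy2] at h3
    have h4 : r * α * (cos (r * α) / sin (r * α)) = C1f ((r * α) ^ 2) / S1 ((r * α) ^ 2) := by
      rw [← h1, h2]
      field_simp
    unfold G
    rw [h4, ← h1]
    calc r * α * S1 ((r * α) ^ 2) * cexp (1 - C1f ((r * α) ^ 2) / S1 ((r * α) ^ 2)) =
        r * (α * S1 ((r * α) ^ 2) * cexp (1 - C1f ((r * α) ^ 2) / S1 ((r * α) ^ 2))) := by ring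
      _ = r * γ := by rw [h3]
  rw [hrα] at hsin hG
  refine ⟨hsin, ?_, ?_⟩
  · rw [hG, mul_pow, hr2]
    ring
  · rw [hG, ← hrα, hαd]
    field_simp

end Pool.Agent.MP_ae5b4e_an_T
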