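import Pool.Agent.Lib.MP_ae5b4e_an_T.Bxb

/-!
# POR (iii), N2, section T, blocks T2c, T2d, T2e: boxes, limits, points of type `I`
(`Grw C` is the conclusion of T2a)
-/

noncomputable section

namespace Pool.Agent.MP_ae5b4e_an_T

open Complex Set Filter Topology Metric
open Pool.Agent.MP_ae5b4e_an_WB
open Pool.Agent.MP_ae5b4e_an_WD
open Pool.Agent.MP_ae5b4e_an_M (S1 C1f Gf)

/-- T2c. the uniform box lemma -/
theorem boxl_of {W : Set (ℂ → ℂ)} {C kap : ℝ} (hgr : Grw C) (hW : Fm W C kap) {K1 δ D : ℝ}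
    (hδ : 0 < δ) :
    ∃ σ : ℝ, 0 < σ ∧ ∀ q ∈ W, ∀ (γ v : ℝ) (f : ℂ → ℂ), 1 ≤ γ → γ ≤ K1 → Sl q C γ v f → Deep v f →
      ∀ τ ∈ Hp v, -v - τ.im ≤ σ → -(f τ).im ≤ D → ∀ τ' ∈ Hp v, |τ'.re - τ.re| ≤ -v - τ.im →
        τ.im ≤ τ'.im → ‖f τ' - f τ‖ < δ := by
  obtain ⟨d, hd⟩ : ∃ d : ℝ, d = min (δ / 2) 1 := ⟨_, rfl⟩
  have hd0 : 0 < d := by rw [hd]; exact lt_min (by positivity) one_pos
  have hd1 : d ≤ δ / 2 := by rw [hd]; exact min_le_left _ _
  have hd2 : d ≤ 1 := by rw [hd]; exact min_le_right _ _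
  obtain ⟨ε, hε, harc⟩ := arc_Gs hW (K1 := K1) hd0 (D + 2)
  obtain ⟨r, hr, hball⟩ := ball_Gs (C := C) (K1 := K1) hε
  obtain ⟨B, hB, hder⟩ := grow_der (K1 := K1) hgr (half_pos hε)
  obtain ⟨M, hM⟩ : ∃ M : ℝ, M = min (r / 4) (d / 8) := ⟨_, rfl⟩
  have hM0 : 0 < M := by rw [hM]; exact lt_min (by positivity) (by positivity)
  have hM1 : M ≤ r / 4 := by rw [hM]; exact min_le_left _ _
  have hM2 : M ≤ d / 8 := by rw [hM]; exact min_le_right _ _
  obtain ⟨κ, hκ⟩ : ∃ κ : ℝ, κ = min 1 (M / (4 * B)) := ⟨_, rfl⟩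
  have hκ0 : 0 < κ := by rw [hκ]; exact lt_min one_pos (by positivity)
  have hκ1 : κ ≤ 1 := by rw [hκ]; exact min_le_left _ _
  have hκ2 : κ ≤ M / (4 * B) := by rw [hκ]; exact min_le_right _ _
  have hκ3 : 4 * B * κ ≤ M := by
    rw [le_div_iff₀ (by positivity)] at hκ2
    linarith
  refine ⟨κ ^ 4, by positivity, ?_⟩
  intro q hq γ v f h1 h2 hS hD τ hτ hs hl τ' hτ' hre him
  have hγ0 : 0 < γ := by linarith
  have hfd := hS.fd
  have hopen : IsOpen (Hp v) := isOpen_lt Complex.continuous_im continuous_const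
  have hder' : ∀ z ∈ Hp v, HasDerivAt f (deriv f z) z := fun z hz =>
    ((hfd z hz).differentiableAt (hopen.mem_nhds hz)).hasDerivAt
  -- fourth roots
  have hroot : ∀ x : ℝ, 0 < x → ∃ t : ℝ, 0 < t ∧ t ^ 4 = x := by
    intro x hx
    refine ⟨x ^ (1 / 4 : ℝ), by positivity, ?_⟩
    rw [← Real.rpow_natCast, ← Real.rpow_mul hx.le]
    norm_num
  have hτ0 : 0 < -v - τ.im := by
    have : τ.im < -v := hτ
    linarith
  have hτ'0 : 0 < -v - τ'.im := by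
    have : τ'.im < -v := hτ'
    linarith
  obtain ⟨t₁, ht₁, ht₁4⟩ := hroot _ hτ0
  obtain ⟨t₂, ht₂, ht₂4⟩ := hroot _ hτ'0
  have ht₁κ : t₁ ≤ κ := by
    rw [← ht₁4] at hs
    exact le_of_pow_le_pow_left₀ (by norm_num) hκ0.le hs
  have ht₂₁ : t₂ ≤ t₁ := by
    have h3 : t₂ ^ 4 ≤ t₁ ^ 4 := by rw [ht₁4, ht₂4]; linarith
    exact le_of_pow_le_pow_left₀ (by norm_num) ht₁.le h3
  have ht₁1 : t₁ ≤ 1 := ht₁κ.trans hκ1
  have hMt : 4 * B * t₁ ≤ M := (mul_le_mul_of_nonneg_left ht₁κ (by positivity)).trans hκ3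
  -- the generic step
  have step : ∀ (z z' : ℝ → ℂ), (∀ u ∈ Icc (0:ℝ) 1, HasDerivAt z (z' u) u) →
      (∀ u ∈ Icc (0:ℝ) 1, z u ∈ Hp v) → -(f (z 0)).im ≤ D + 1 →
      (∀ u ∈ Icc (0:ℝ) 1, f (z u) ∈ Gs q γ (ε / 2) → ‖deriv f (z u) * z' u‖ ≤ M) →
      ∀ u ∈ Icc (0:ℝ) 1, dist (f (z 0)) (f (z u)) < d := by
    intro z z' hz hzH hz0 hzb
    refine esc (g' := fun u => deriv f (z u) * z' u) (G := Gs q γ (ε / 2)) (r := r) hM0
      (by linarith) (by linarith) (fun u hu => ?_) hzb (fun b hb hbd hball' => ?_)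
    · exact (hder' _ (hzH u hu)).comp_of_eq u (hz u hu) rfl
    · have hsub : Icc (0:ℝ) b ⊆ Icc 0 1 := Icc_subset_Icc_right hb.2
      have hcont : ContinuousOn (fun u => f (z u)) (Icc 0 b) := fun u hu =>
        ((hder' _ (hzH u (hsub hu))).continuousAt.comp
          (hz u (hsub hu)).continuousAt).continuousWithinAt
      have hmaps : MapsTo (fun u => f (z u)) (Icc 0 b) (PorTR.Strip 2 (D + 2)) := by
        intro u hu
        have h3 := hD _ (hzH u (hsub hu))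
        have h4 := hball' u hu
        rw [dist_eq_norm] at h4
        have h5 := Complex.abs_im_le_norm (f (z 0) - f (z u))
        rw [Complex.sub_im] at h5
        have h6 := abs_le.1 (h5.trans h4)
        exact ⟨by linarith, by linarith [h6.2, h6.1]⟩
      obtain ⟨s, hs', hsG⟩ := harc q hq γ h1 h2 b (fun u => f (z u)) hb.1 hcont hmaps hbd
      refine ⟨s, hs', hball q γ h1 h2 hS.qd hS.qb _ (hD _ (hzH s (hsub hs'))) hsG⟩
  -- horizontal path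
  have hor := step (fun u => τ + ((u * (τ'.re - τ.re) : ℝ) : ℂ)) (fun _ => ((τ'.re - τ.re : ℝ) : ℂ))
    (fun u _ => ?_) (fun u _ => ?_) ?_ (fun u _ hG => ?_) 1 (right_mem_Icc.2 zero_le_one)
  rotate_left
  · have h3 := ((hasDerivAt_id u).mul_const (τ'.re - τ.re)).ofReal_comp.const_add τ
    simpa using h3
  · change (τ + ((u * (τ'.re - τ.re) : ℝ) : ℂ)).im < -v
    rw [Complex.add_im, Complex.ofReal_im, add_zero]
    exact hτ
  · simp only [zero_mul, Complex.ofReal_zero, add_zero]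
    linarith
  · have hH : τ + ((u * (τ'.re - τ.re) : ℝ) : ℂ) ∈ Hp v := by
      change (τ + ((u * (τ'.re - τ.re) : ℝ) : ℂ)).im < -v
      rw [Complex.add_im, Complex.ofReal_im, add_zero]
      exact hτ
    have h3 := hder q γ v f h1 h2 hS hD _ hH t₁ ht₁ ht₁1
      (by rw [Complex.add_im, Complex.ofReal_im, add_zero, ht₁4]) hG
    rw [norm_mul, Complex.norm_real, Real.norm_eq_abs]
    have h4 : |τ'.re - τ.re| ≤ t₁ ^ 4 := by rw [ht₁4]; exact hre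
    calc ‖deriv f (τ + ((u * (τ'.re - τ.re) : ℝ) : ℂ))‖ * |τ'.re - τ.re|
        ≤ ‖deriv f (τ + ((u * (τ'.re - τ.re) : ℝ) : ℂ))‖ * t₁ ^ 4 :=
          mul_le_mul_of_nonneg_left h4 (norm_nonneg _)
      _ = ‖deriv f (τ + ((u * (τ'.re - τ.re) : ℝ) : ℂ))‖ * t₁ ^ 3 * t₁ := by ring
      _ ≤ B * t₁ := mul_le_mul_of_nonneg_right h3 ht₁.le
      _ ≤ 4 * B * t₁ := by nlinarith [mul_pos hB ht₁]
      _ ≤ M := hMt
  -- vertical path
  obtain ⟨T, hT⟩ : ∃ T : ℝ → ℝ, T = fun u => (1 - u) * t₁ + u * t₂ := ⟨_, rfl⟩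
  have hTpos : ∀ u ∈ Icc (0:ℝ) 1, 0 < T u ∧ T u ≤ t₁ := by
    intro u hu
    rw [hT]
    dsimp only
    constructor
    · rcases eq_or_lt_of_le hu.2 with h | h
      · rw [h]
        linarith
      · have h3 : 0 < (1 - u) * t₁ := mul_pos (by linarith) ht₁
        have h4 : 0 ≤ u * t₂ := mul_nonneg hu.1 ht₂.le
        linarith
    · nlinarith [mul_le_mul_of_nonneg_left ht₂₁ hu.1]
  have hTd : ∀ u : ℝ, HasDerivAt T (t₂ - t₁) u := by
    intro u
    rw [hT]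
    have h3 := (((hasDerivAt_id u).const_sub 1).mul_const t₁).add ((hasDerivAt_id u).mul_const t₂)
    refine h3.congr_deriv ?_
    ring
  have hzim : ∀ u : ℝ, ((τ'.re : ℂ) + ((-v - T u ^ 4 : ℝ) : ℂ) * I).im = -v - T u ^ 4 := by
    intro u
    rw [Complex.add_im, Complex.ofReal_im, zero_add, Complex.im_ofReal_mul, Complex.I_im, mul_one]
  have ver := step (fun u => (τ'.re : ℂ) + ((-v - T u ^ 4 : ℝ) : ℂ) * I)
    (fun u => ((-(4 * T u ^ 3 * (t₂ - t₁)) : ℝ) : ℂ) * I)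
    (fun u _ => ?_) (fun u hu => ?_) ?_ (fun u hu hG => ?_) 1 (right_mem_Icc.2 zero_le_one)
  rotate_left
  · have h3 : HasDerivAt (fun u => -v - T u ^ 4) (-(4 * T u ^ 3 * (t₂ - t₁))) u := by
      have h4 := ((hTd u).pow 4).const_sub (-v)
      refine h4.congr_deriv ?_
      norm_num
    exact (h3.ofReal_comp.mul_const I).const_add _
  · change ((τ'.re : ℂ) + ((-v - T u ^ 4 : ℝ) : ℂ) * I).im < -v
    rw [hzim]
    have := (hTpos u hu).1
    have h3 : 0 < T u ^ 4 := by positivity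
    linarith
  · -- the label of the corner
    have hT0 : T 0 = t₁ := by rw [hT]; ring
    have hc : (τ'.re : ℂ) + ((-v - T 0 ^ 4 : ℝ) : ℂ) * I = τ + ((1 * (τ'.re - τ.re) : ℝ) : ℂ) := by
      rw [hT0, ht₁4]
      apply Complex.ext
      · simp
      · simp
    simp only [hc]
    have h5 := Complex.abs_im_le_norm (f (τ + ((0 * (τ'.re - τ.re) : ℝ) : ℂ)) -
      f (τ + ((1 * (τ'.re - τ.re) : ℝ) : ℂ)))
    rw [← dist_eq_norm, Complex.sub_im] at h5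
    have h6 := abs_le.1 (h5.trans hor.le)
    simp only [zero_mul, Complex.ofReal_zero, add_zero] at h6
    linarith [h6.1, h6.2]
  · obtain ⟨hTu0, hTu1⟩ := hTpos u hu
    have hH : (τ'.re : ℂ) + ((-v - T u ^ 4 : ℝ) : ℂ) * I ∈ Hp v := by
      change ((τ'.re : ℂ) + ((-v - T u ^ 4 : ℝ) : ℂ) * I).im < -v
      rw [hzim]
      have h3 : 0 < T u ^ 4 := by positivity
      linarith
    have h3 := hder q γ v f h1 h2 hS hD _ hH (T u) hTu0 (hTu1.trans ht₁1)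
      (by rw [hzim]; ring) hG
    rw [norm_mul, norm_mul, Complex.norm_I, mul_one, Complex.norm_real, norm_neg, norm_mul,
      norm_mul, norm_pow, Real.norm_of_nonneg hTu0.le]
    have h4 : ‖t₂ - t₁‖ ≤ t₁ := by
      rw [Real.norm_eq_abs, abs_le]
      constructor <;> linarith
    have h5 : ‖(4:ℝ)‖ = 4 := by norm_num
    rw [h5]
    calc ‖deriv f ((τ'.re : ℂ) + ((-v - T u ^ 4 : ℝ) : ℂ) * I)‖ * (4 * T u ^ 3 * ‖t₂ - t₁‖)
        = 4 * (‖deriv f ((τ'.re : ℂ) + ((-v - T u ^ 4 : ℝ) : ℂ) * I)‖ * T u ^ 3) * ‖t₂ - t₁‖ := by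
          ring
      _ ≤ 4 * B * t₁ := by gcongr
      _ ≤ M := hMt
  -- conclusion
  have hT0 : T 0 = t₁ := by rw [hT]; ring
  have hT1 : T 1 = t₂ := by rw [hT]; ring
  have hc0 : (τ'.re : ℂ) + ((-v - T 0 ^ 4 : ℝ) : ℂ) * I = τ + ((1 * (τ'.re - τ.re) : ℝ) : ℂ) := by
    rw [hT0, ht₁4]
    apply Complex.ext
    · simp
    · simp
  have hc1 : (τ'.re : ℂ) + ((-v - T 1 ^ 4 : ℝ) : ℂ) * I = τ' := by
    rw [hT1, ht₂4]
    apply Complex.ext
    · simp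
    · simp
  simp only [hc0, hc1] at ver
  simp only [zero_mul, Complex.ofReal_zero, add_zero] at hor
  rw [← dist_eq_norm, dist_comm]
  have h6 := dist_triangle (f τ) (f (τ + ((1 * (τ'.re - τ.re) : ℝ) : ℂ))) (f τ')
  linarith

/-- a vertical point -/
theorem vert_mem {x v s : ℝ} (hs : 0 < s) : (x : ℂ) - (v + s : ℝ) * I ∈ Hp v := by
  change ((x : ℂ) - (v + s : ℝ) * I).im < -v
  simp
  exact hs

/-- if the depth does not tend to infinity, the box lemma applies at arbitrarily small heights -/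
theorem not_I_box {W : Set (ℂ → ℂ)} {C kap : ℝ} (hgr : Grw C) (hW : Fm W C kap) {q : ℂ → ℂ}
    (hq : q ∈ W) {γ v : ℝ} {f : ℂ → ℂ} (hγ : 1 ≤ γ) (h : Sl q C γ v f) (hd : Deep v f) {x : ℝ}
    (hI : ¬ IAt v f x) {δ : ℝ} (hδ : 0 < δ) : ∃ s : ℝ, 0 < s ∧ ∀ τ' ∈ Hp v, |τ'.re - x| ≤ s →
      -v - s ≤ τ'.im → ‖f τ' - f ((x : ℂ) - (v + s : ℝ) * I)‖ < δ := by
  unfold IAt at hI
  rw [tendsto_atBot] at hI
  push Not at hI
  obtain ⟨D, hD⟩ := hI
  obtain ⟨σ, hσ, hbox⟩ := boxl_of hgr hW (K1 := γ) (D := -D) hδ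
  have h1 : ∀ᶠ s in 𝓝[>] (0:ℝ), s ∈ Ioo 0 σ := Ioo_mem_nhdsGT hσ
  obtain ⟨s, hs1, hs2⟩ := (hD.and_eventually h1).exists
  refine ⟨s, hs2.1, fun τ' hτ' hre him => ?_⟩
  have him' : ((x : ℂ) - (v + s : ℝ) * I).im = -(v + s) := by simp
  have hre' : ((x : ℂ) - (v + s : ℝ) * I).re = x := by simp
  refine hbox q hq γ v f hγ le_rfl h hd _ (vert_mem hs2.1) ?_ ?_ τ' hτ' ?_ ?_
  · rw [him']
    linarith [hs2.2]
  · linarith
  · rw [hre', him']
    linarith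
  · rw [him']
    linarith

/-- T2d. the two possibilities for a point of the line -/
theorem lim_or_of {W : Set (ℂ → ℂ)} {C kap : ℝ} (hgr : Grw C) (hW : Fm W C kap) {q : ℂ → ℂ}
    (hq : q ∈ W) {γ v : ℝ} {f : ℂ → ℂ} (hγ : 1 ≤ γ) (h : Sl q C γ v f) (hd : Deep v f) (x : ℝ) :
    (∃ l : ℂ, 3 ≤ -l.im ∧ LimAt v f x l) ∨ IAt v f x := by
  by_cases hI : IAt v f x
  · exact Or.inr hI
  left
  obtain ⟨p, hp⟩ : ∃ p : ℂ, p = (x : ℂ) - v * I := ⟨_, rfl⟩
  have hpre : p.re = x := by rw [hp]; simp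
  have hpim : p.im = -v := by rw [hp]; simp
  have hopen : IsOpen (Hp v) := isOpen_lt Complex.continuous_im continuous_const
  have hne : (𝓝[Hp v] p).NeBot := by
    rw [← mem_closure_iff_nhdsWithin_neBot, Metric.mem_closure_iff]
    intro e he
    refine ⟨(x : ℂ) - (v + e / 2 : ℝ) * I, vert_mem (by positivity), ?_⟩
    rw [dist_eq_norm, hp]
    have h1 : (x : ℂ) - v * I - ((x : ℂ) - (v + e / 2 : ℝ) * I) = ((e / 2 : ℝ) : ℂ) * I := by
      push_cast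
      ring
    rw [h1, norm_mul, Complex.norm_I, mul_one, Complex.norm_real,
      Real.norm_of_nonneg (by positivity)]
    linarith
  have hc : Cauchy (map f (𝓝[Hp v] p)) := by
    rw [Metric.cauchy_iff]
    refine ⟨hne.map f, fun e he => ?_⟩
    obtain ⟨s, hs, hbox⟩ := not_I_box hgr hW hq hγ h hd hI (half_pos he)
    refine ⟨f '' (ball p s ∩ Hp v), image_mem_map ?_, ?_⟩
    · exact inter_mem (mem_nhdsWithin_of_mem_nhds (ball_mem_nhds p hs)) self_mem_nhdsWithin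
    · have hin : ∀ z ∈ ball p s ∩ Hp v, ‖f z - f ((x : ℂ) - (v + s : ℝ) * I)‖ < e / 2 := by
        rintro z ⟨hz1, hz2⟩
        rw [mem_ball, dist_eq_norm] at hz1
        have h1 := Complex.abs_re_le_norm (z - p)
        have h2 := Complex.abs_im_le_norm (z - p)
        rw [Complex.sub_re, hpre] at h1
        rw [Complex.sub_im, hpim] at h2
        have h3 := abs_le.1 (h2.trans hz1.le)
        exact hbox z hz2 (h1.trans hz1.le) (by linarith [h3.1])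
      rintro _ ⟨z, hz, rfl⟩ _ ⟨z', hz', rfl⟩
      have h1 := hin z hz
      have h2 := hin z' hz'
      rw [← dist_eq_norm] at h1 h2
      have h3 := dist_triangle_right (f z) (f z') (f ((x : ℂ) - (v + s : ℝ) * I))
      linarith
  obtain ⟨l, hl⟩ := CompleteSpace.complete hc
  have hlim : Tendsto f (𝓝[Hp v] p) (𝓝 l) := hl
  refine ⟨l, ?_, ?_⟩
  · have h1 : Tendsto (fun z => -(f z).im) (𝓝[Hp v] p) (𝓝 (-l.im)) :=
      ((Complex.continuous_im.tendsto l).comp hlim).neg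
    refine ge_of_tendsto h1 ?_
    filter_upwards [self_mem_nhdsWithin] with z hz
    exact hd z hz
  · unfold LimAt
    rw [← hp]
    exact hlim

/-- T2e. the set of the points of type `I` is closed -/
theorem I_closed_of {W : Set (ℂ → ℂ)} {C kap : ℝ} (hgr : Grw C) (hW : Fm W C kap) {q : ℂ → ℂ}
    (hq : q ∈ W) {γ v : ℝ} {f : ℂ → ℂ} (hγ : 1 ≤ γ) (h : Sl q C γ v f) (hd : Deep v f) :
    IsClosed {x : ℝ | IAt v f x} := by
  rw [← isOpen_compl_iff, Metric.isOpen_iff]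
  intro x hx
  have hI : ¬ IAt v f x := hx
  obtain ⟨s, hs, hbox⟩ := not_I_box hgr hW hq hγ h hd hI one_pos
  refine ⟨s, hs, fun x' hx' hI' => ?_⟩
  have hI'' : IAt v f x' := hI'
  unfold IAt at hI''
  rw [mem_ball, Real.dist_eq] at hx'
  have h1 := (tendsto_atBot.1 hI'') ((f ((x : ℂ) - (v + s : ℝ) * I)).im - 1)
  have h2 : ∀ᶠ u in 𝓝[>] (0:ℝ), u ∈ Ioo 0 s := Ioo_mem_nhdsGT hs
  obtain ⟨u, hu1, hu2⟩ := (h1.and h2).exists
  have him' : ((x' : ℂ) - (v + u : ℝ) * I).im = -(v + u) := by simp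
  have hre' : ((x' : ℂ) - (v + u : ℝ) * I).re = x' := by simp
  have h3 := hbox _ (vert_mem (x := x') (v := v) hu2.1) (by rw [hre']; exact hx'.le)
    (by rw [him']; linarith [hu2.2])
  have h4 := Complex.abs_im_le_norm (f ((x' : ℂ) - (v + u : ℝ) * I) -
    f ((x : ℂ) - (v + s : ℝ) * I))
  rw [Complex.sub_im] at h4
  have h5 := abs_lt.1 (h4.trans_lt h3)
  linarith [h5.1]

end Pool.Agent.MP_ae5b4e_an_T
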