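import Pool.Agent.Lib.MP_ae5b4e_an_WB.GV

/-!
# POR (iii), N2, section T, block T2a: imaginary parts; elementary inequality
-/

set_option autoImplicit false

noncomputable section

namespace Pool.Agent.MP_ae5b4e_an_T

open Complex Set Filter Topology Metric
open Pool.Agent.MP_ae5b4e_an_WB

private theorem GrD_sin (y : ℂ) : Real.exp |y.im| ≤ 1 + 2 * ‖sin y‖ := by
  have h1 : 2 * ‖sin y‖ = ‖exp (-y * I) - exp (y * I)‖ := by
    rw [Complex.sin, norm_div, norm_mul, norm_I, Complex.norm_ofNat]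
    ring
  have h2 : ‖exp (-y * I)‖ = Real.exp y.im := by
    rw [norm_exp]
    congr 1
    simp
  have h3 : ‖exp (y * I)‖ = Real.exp (-y.im) := by
    rw [norm_exp]
    congr 1
    simp
  rw [h1]
  rcases le_total 0 y.im with h | h
  · rw [abs_of_nonneg h]
    have h4 := norm_sub_norm_le (exp (-y * I)) (exp (y * I))
    rw [h2, h3] at h4
    have h5 : Real.exp (-y.im) ≤ 1 := Real.exp_le_one_iff.2 (by linarith)
    linarith
  · rw [abs_of_nonpos h]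
    have h4 := norm_sub_norm_le (exp (y * I)) (exp (-y * I))
    rw [h2, h3, norm_sub_rev] at h4
    have h5 : Real.exp y.im ≤ 1 := Real.exp_le_one_iff.2 h
    linarith

/-- (2.4). Proof: `exists_V_bound hc`: `‖V y‖ ≤ K`, i.e. `‖sin y‖² ≤ K ‖y‖`. `‖sin y‖ ≥ |sinh (Im y)| =
sinh |Im y| ≥ (e^|Im y| - 1) / 2` (`‖sin y‖² = sin² (Re y) + sinh² (Im y)`). So `e^|Im y| ≤ 1 + 2 √(K ‖y‖) ≤
(1 + 2 √K)(1 + ‖y‖)`; take `M0 = log (1 + 2 √K)`. -/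
theorem im_bound {c : ℝ} (hc : 0 < c) : ∃ M0 : ℝ, 0 < M0 ∧ ∀ y : ℂ, sin y ≠ 0 →
    c ≤ ‖G y ^ 2 - tipc‖ → |y.im| ≤ Real.log (1 + ‖y‖) + M0 := by
  obtain ⟨K, hK, hV⟩ := exists_V_bound hc
  obtain ⟨k, hk, hkK⟩ : ∃ k : ℝ, 0 < k ∧ k ^ 2 = K :=
    ⟨√K, Real.sqrt_pos.2 hK, Real.sq_sqrt hK.le⟩
  refine ⟨Real.log (1 + 2 * k), Real.log_pos (by linarith), fun y hy hcy => ?_⟩
  have h1 := hV y hy hcy
  have hy0 : y ≠ 0 := by
    rintro rfl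
    exact hy sin_zero
  have hyn : 0 < ‖y‖ := norm_pos_iff.2 hy0
  have h2 : ‖sin y‖ ^ 2 ≤ K * ‖y‖ := by
    unfold V at h1
    rw [norm_div, norm_pow, div_le_iff₀ hyn] at h1
    exact h1
  have h3 : ‖sin y‖ ≤ k * (1 + ‖y‖) := by
    refine (pow_le_pow_iff_left₀ (norm_nonneg _) (by positivity) two_ne_zero).1 (h2.trans ?_)
    rw [← hkK, mul_pow]
    refine mul_le_mul_of_nonneg_left ?_ (sq_nonneg k)
    nlinarith
  have h4 : Real.exp |y.im| ≤ (1 + 2 * k) * (1 + ‖y‖) := by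
    have h5 := GrD_sin y
    nlinarith
  have h6 := Real.log_le_log (Real.exp_pos _) h4
  rw [Real.log_exp, Real.log_mul (by positivity) (by positivity)] at h6
  linarith

/-- Proof: for `n ≥ 2`: `S + M0 + log (1 + n) ≤ C7 n^(1/3)` with `C7 := S + M0 + 6`
(`log (1 + n) ≤ log (2 n) ≤ log 2 + 3 n^(1/3)` from `Real.log_le_rpow_div`, `n^(1/3) ≥ 1`). -/
theorem log_third {S M0 : ℝ} (hS : 0 ≤ S) (hM : 0 ≤ M0) {n : ℝ} (hn : 2 ≤ n) :
    S + (Real.log (1 + n) + M0) ≤ (S + M0 + 6) * n ^ (1 / 3 : ℝ) := by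
  have hn0 : 0 < n := by linarith
  obtain ⟨x, hx⟩ : ∃ x : ℝ, x = n ^ (1 / 3 : ℝ) := ⟨_, rfl⟩
  have hx1 : 1 ≤ x := by
    rw [hx]
    exact Real.one_le_rpow (by linarith) (by norm_num)
  have hl : Real.log n = 3 * Real.log x := by
    rw [hx, Real.log_rpow hn0]
    ring
  have h1 : Real.log (1 + n) ≤ Real.log 2 + Real.log n := by
    rw [← Real.log_mul (by norm_num) hn0.ne']
    exact Real.log_le_log (by linarith) (by linarith)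
  have h2 := Real.log_le_sub_one_of_pos (show 0 < x by linarith)
  have h3 : Real.log 2 < 1 := by
    have := Real.log_two_lt_d9
    linarith
  rw [← hx]
  nlinarith

/-- (2.6) arithmetic. Proof: `A > 0`, `√(1 + n / (2 A)) ≥ √(n / (2 A))`. From `h`:
`n / 2 ≤ P / √(n / (2 A))`, so `n^(3/2) ≤ 2 √2 P √A ≤ 2 √2 P √B n^(1/6)`, `n^(4/3) ≤ 2 √2 √B P`,
`n ≤ (2 √2 √B P)^(3/4) ≤ (1 + 2 √2 √B P)^(3/4)`. (All powers: take the sixth power:
`n^9 ≤ 8^3 P^6 A^3`, `A^3 ≤ B^3 n`, so `n^8 ≤ (8 B P²)^3`, hence `n ≤ ((8 B P²)^3)^(1/8) =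
(8 B P²)^(3/8) = (√(8 B) P)^(3/4)`.) -/
theorem arith {n A B P : ℝ} (hn : 0 < n) (hA : 0 < A) (hB : A ≤ B * n ^ (1 / 3 : ℝ)) (hB0 : 0 < B)
    (hP : 0 ≤ P) (h : n / 2 * √(1 + n / (2 * A)) ≤ P) : n ≤ (√(8 * B) * P) ^ (3 / 4 : ℝ) := by
  obtain ⟨Y, hY⟩ : ∃ Y : ℝ, Y = √(8 * B) * P := ⟨_, rfl⟩
  have hY0 : 0 ≤ Y := by
    rw [hY]
    positivity
  have hY2 : Y ^ 2 = 8 * B * P ^ 2 := by
    rw [hY, mul_pow, Real.sq_sqrt (by positivity)]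
  have hsq : (n / 2) ^ 2 * (1 + n / (2 * A)) ≤ P ^ 2 := by
    have h1 := pow_le_pow_left₀ (by positivity) h 2
    rw [mul_pow, Real.sq_sqrt (by positivity)] at h1
    exact h1
  have h2 : n ^ 3 ≤ 8 * A * P ^ 2 := by
    have h3 : (n / 2) ^ 2 * (n / (2 * A)) ≤ P ^ 2 := by
      have h4 : 0 ≤ (n / 2) ^ 2 := sq_nonneg _
      nlinarith
    have h5 : (n / 2) ^ 2 * (n / (2 * A)) = n ^ 3 / (8 * A) := by
      field_simp
      ring
    rw [h5, div_le_iff₀ (by positivity)] at h3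
    linarith
  have h3 : n ^ 3 ≤ n ^ (1 / 3 : ℝ) * Y ^ 2 := by
    rw [hY2]
    refine h2.trans ?_
    have h4 : 0 ≤ 8 * P ^ 2 := by positivity
    nlinarith [mul_le_mul_of_nonneg_left hB h4]
  have h4 : n ^ 3 = n ^ (1 / 3 : ℝ) * (n ^ (4 / 3 : ℝ)) ^ 2 := by
    rw [← Real.rpow_natCast (n ^ (4 / 3 : ℝ)) 2, ← Real.rpow_mul hn.le, ← Real.rpow_add hn,
      ← Real.rpow_natCast n 3]
    norm_num
  rw [h4] at h3
  have h5 : (n ^ (4 / 3 : ℝ)) ^ 2 ≤ Y ^ 2 :=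
    le_of_mul_le_mul_left h3 (Real.rpow_pos_of_pos hn _)
  have h6 : n ^ (4 / 3 : ℝ) ≤ Y :=
    (pow_le_pow_iff_left₀ (Real.rpow_nonneg hn.le _) hY0 two_ne_zero).1 h5
  rw [← hY]
  have h7 := Real.rpow_le_rpow (Real.rpow_nonneg hn.le _) h6 (show (0 : ℝ) ≤ 3 / 4 by norm_num)
  rw [← Real.rpow_mul hn.le] at h7
  refine le_trans (le_of_eq ?_) h7
  norm_num

end Pool.Agent.MP_ae5b4e_an_T
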