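import Pool.Agent.Lib.MP_ae5b4e_an_T.GrB
import Pool.Agent.Lib.MP_ae5b4e_an_T.GrC
import Pool.Agent.Lib.MP_ae5b4e_an_T.GrD

/-!
# POR (iii), N2, section T, block T2a: growth
-/

set_option autoImplicit false

noncomputable section

namespace Pool.Agent.MP_ae5b4e_an_T

open Complex Set Filter Topology Metric
open Pool.Agent.MP_ae5b4e_an_WB
open Pool.Agent.MP_ae5b4e_an_M (S1 C1f Gf)

/-- the path below the point `τ` -/
private def GrE_p (τ : ℂ) (d x : ℝ) : ℂ := τ - I * ((d * (Real.exp x - 1) : ℝ) : ℂ)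

private theorem GrE_im (τ : ℂ) (d x : ℝ) : (GrE_p τ d x).im = τ.im - d * (Real.exp x - 1) := by
  unfold GrE_p
  rw [Complex.sub_im, Complex.mul_im, Complex.I_re, Complex.I_im, Complex.ofReal_im,
    Complex.ofReal_re]
  ring

private theorem GrE_zero (τ : ℂ) (d : ℝ) : GrE_p τ d 0 = τ := by
  simp [GrE_p]

private theorem GrE_der (τ : ℂ) (d x : ℝ) :
    HasDerivAt (GrE_p τ d) (-(I * ((d * Real.exp x : ℝ) : ℂ))) x := by
  have h1 : HasDerivAt (fun x : ℝ => d * (Real.exp x - 1)) (d * Real.exp x) x :=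
    ((Real.hasDerivAt_exp x).sub_const 1).const_mul d
  exact ((h1.ofReal_comp).const_mul I).const_sub τ

private theorem GrE_cd (τ : ℂ) (d : ℝ) : ContDiff ℝ 1 (GrE_p τ d) := by
  unfold GrE_p
  have h1 : ContDiff ℝ 1 (fun x : ℝ => d * (Real.exp x - 1)) := by fun_prop
  have h2 : ContDiff ℝ 1 (fun x : ℝ => ((d * (Real.exp x - 1) : ℝ) : ℂ)) :=
    Complex.ofRealCLM.contDiff.comp h1
  exact contDiff_const.sub (contDiff_const.mul h2)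

/-- (2.5), (2.6). Proof: `d := -v - Im τ`, `n := ‖y‖`, `A := S + |Im y|`, `b := (1 / 2) log (1 + n / (2 A))`,
`Z x := Xf q γ f (τ - I d (e^x - 1))`; the point `τ_x := τ - I d (e^x - 1)` is in `Hp v` for ALL real `x`,
at distance `d e^x`; `Z` is `C¹` (composition of the holomorphic `Xf_diff` with a smooth path), `‖Z' x‖ =
‖X' (τ_x)‖ d e^x ≤ 4 max (‖y'‖, 1) (S + |Im y'|)` for `y'² = Z x` (`Xf_sch`). `A (e^(2b) - 1) = n / 2 < n - 1`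
as `n > 2`. `gr_low`: `n / 2 ≤ √‖Z b‖`; `Xf_apriori` at `τ_b` (`hdeep` with `s = d (e^b - 1) ≥ 0`):
`√‖Z b‖ d e^b ≤ 2 √C γ`, `e^b = √(1 + n / (2 A))`. -/
theorem gr_step {S : ℝ} (hS1 : 1 ≤ S) (hS : ∀ x : ℂ → ℂ, DifferentiableOn ℂ x (ball 0 1) →
      (∀ z ∈ ball (0 : ℂ) 1, S1 (x z) ≠ 0) → ∀ y : ℂ, y ^ 2 = x 0 →
        ‖deriv x 0‖ ≤ 4 * max ‖y‖ 1 * (S + |y.im|))
    {q : ℂ → ℂ} {C γ v : ℝ} {f : ℂ → ℂ} (h : Sl q C γ v f) {τ : ℂ} (hτ : τ ∈ Hp v)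
    (hdeep : ∀ s : ℝ, 0 ≤ s → 2 ≤ -(f (τ - I * s)).im) {y : ℂ} (hy : y ^ 2 = Xf q γ f τ)
    (hn : 2 < ‖y‖) :
    ‖y‖ / 2 * √(1 + ‖y‖ / (2 * (S + |y.im|))) ≤ 2 * √C * (γ / (-v - τ.im)) := by
  have hτ' : τ.im < -v := hτ
  obtain ⟨d, hd⟩ : ∃ d : ℝ, d = -v - τ.im := ⟨_, rfl⟩
  have hd0 : 0 < d := by rw [hd]; linarith
  obtain ⟨A, hA⟩ : ∃ A : ℝ, A = S + |y.im| := ⟨_, rfl⟩
  have hA0 : 0 < A := by rw [hA]; have := abs_nonneg y.im; linarith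
  obtain ⟨n, hnd⟩ : ∃ n : ℝ, n = ‖y‖ := ⟨_, rfl⟩
  rw [← hnd] at hn
  have hn0 : 0 < n := by linarith
  rw [← hA, ← hnd, ← hd]
  obtain ⟨R, hR⟩ : ∃ R : ℝ, R = 1 + n / (2 * A) := ⟨_, rfl⟩
  have hR1 : 1 ≤ R := by rw [hR]; have : 0 ≤ n / (2 * A) := by positivity
                         linarith
  have hR0 : 0 < R := by linarith
  obtain ⟨b, hb⟩ : ∃ b : ℝ, b = (1 / 2) * Real.log R := ⟨_, rfl⟩
  have hb0 : 0 ≤ b := by
    rw [hb]
    have := Real.log_nonneg hR1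
    linarith
  have hexp2 : Real.exp (2 * b) = R := by
    have h1 : 2 * b = Real.log R := by rw [hb]; ring
    rw [h1, Real.exp_log hR0]
  have hexpb : Real.exp b = √R := by
    have h1 : Real.exp b ^ 2 = R := by
      rw [← Real.exp_nat_mul]
      push_cast
      exact hexp2
    rw [← h1, Real.sqrt_sq (Real.exp_pos b).le]
  have hAR : A * (Real.exp (2 * b) - 1) = n / 2 := by
    rw [hexp2, hR]
    field_simp
    ring
  -- the path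
  have hmem : ∀ x : ℝ, GrE_p τ d x ∈ Hp v := by
    intro x
    change (GrE_p τ d x).im < -v
    rw [GrE_im]
    have h1 := Real.exp_pos x
    have h2 : 0 < d * Real.exp x := mul_pos hd0 h1
    nlinarith
  have hdist : ∀ x : ℝ, -v - (GrE_p τ d x).im = d * Real.exp x := by
    intro x
    rw [GrE_im, hd]
    ring
  obtain ⟨Z, hZ⟩ : ∃ Z : ℝ → ℂ, Z = fun x => Xf q γ f (GrE_p τ d x) := ⟨_, rfl⟩
  have hXd := Xf_diff h
  have hZc : ContDiff ℝ 1 Z := by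
    have h1 : ContDiffOn ℂ 1 (Xf q γ f) (Hp v) := hXd.contDiffOn (Hp_open v)
    have h2 : ContDiffOn ℝ 1 (Xf q γ f) (Hp v) := h1.restrict_scalars ℝ
    rw [hZ]
    exact h2.comp_contDiff (GrE_cd τ d) hmem
  have hZder : ∀ x : ℝ, ‖deriv Z x‖ = ‖deriv (Xf q γ f) (GrE_p τ d x)‖ * (d * Real.exp x) := by
    intro x
    have h1 : HasDerivAt (Xf q γ f) (deriv (Xf q γ f) (GrE_p τ d x)) (GrE_p τ d x) :=
      (hXd.differentiableAt ((Hp_open v).mem_nhds (hmem x))).hasDerivAt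
    have h2 := h1.scomp x (GrE_der τ d x)
    have h3 : deriv Z x = (-(I * ((d * Real.exp x : ℝ) : ℂ))) • deriv (Xf q γ f) (GrE_p τ d x) := by
      rw [hZ]
      exact h2.deriv
    rw [h3, smul_eq_mul, norm_mul, norm_neg, norm_mul, Complex.norm_I, one_mul,
      Complex.norm_real, Real.norm_of_nonneg (by positivity), mul_comm]
  have hdd : ∀ x : ℝ, 0 ≤ x → ∀ y : ℂ, y ^ 2 = Z x →
      ‖deriv Z x‖ ≤ 4 * max ‖y‖ 1 * (S + |y.im|) := by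
    intro x _ y' hy'
    rw [hZder, ← hdist]
    refine Xf_sch hS h (hmem x) ?_
    rw [hy', hZ]
  have hZ0 : y ^ 2 = Z 0 := by
    rw [hZ]
    simp only [GrE_zero]
    exact hy
  have hlow := gr_low hZc (by linarith : (0:ℝ) ≤ S) hdd hb0 hZ0
    (by rw [← hA, ← hnd, hAR]; linarith)
  rw [← hA, ← hnd, hAR] at hlow
  -- the a priori bound
  have hs0 : 0 ≤ d * (Real.exp b - 1) := by
    have h1 := Real.one_le_exp hb0
    exact mul_nonneg hd0.le (by linarith)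
  have hap := Xf_apriori h (hmem b) (hdeep _ hs0)
  rw [hdist, hexpb] at hap
  have hZb : Xf q γ f (GrE_p τ d b) = Z b := by rw [hZ]
  rw [hZb] at hap
  have hγ := h.γ_pos
  have hC := h.C_pos
  have h1 : √‖Z b‖ * (d * √R) ≤ 2 * √C * γ := by
    have h2 : (√‖Z b‖ * (d * √R)) ^ 2 ≤ (2 * √C * γ) ^ 2 := by
      have e1 : (√‖Z b‖ * (d * √R)) ^ 2 = ‖Z b‖ * (d * √R) ^ 2 := by
        rw [mul_pow, Real.sq_sqrt (norm_nonneg _)]
      have e2 : (2 * √C * γ) ^ 2 = 4 * C * γ ^ 2 := by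
        rw [mul_pow, mul_pow, Real.sq_sqrt hC.le]
        norm_num
      rw [e1, e2]
      exact hap
    exact le_of_sq_le_sq h2 (by positivity)
  rw [← hR]
  have h3 : n / 2 * √R * d ≤ 2 * √C * γ := by
    have h4 : n / 2 * (d * √R) ≤ √‖Z b‖ * (d * √R) :=
      mul_le_mul_of_nonneg_right (by linarith) (by positivity)
    calc n / 2 * √R * d = n / 2 * (d * √R) := by ring
      _ ≤ _ := h4.trans h1
  rw [← mul_div_assoc, le_div_iff₀ hd0]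
  exact h3

/-- T2a. Proof: `S` from `sch`, `M0` from `im_bound hc` (`y_spec`: `sin y ≠ 0`, `G y² = γ² q`), `B := S + M0 + 6`.
If `‖y‖ ≤ 2` then `‖y‖ ≤ 2 (1 + γ / d)^(3/4)`. Otherwise `gr_step`, `A := S + |Im y| ≤ B ‖y‖^(1/3)`
(`log_third`), and `arith` with `P = 2 √C γ / d`: `‖y‖ ≤ (√(8 B) 2 √C γ / d)^(3/4) ≤
(√(8 B) 2 √C)^(3/4) (1 + γ / d)^(3/4)`. `C' := 2 + (2 √(8 B) √C)^(3/4)`. -/
theorem grow {C c : ℝ} (hC : 0 < C) (hc : 0 < c) : ∃ C' : ℝ, 0 < C' ∧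
    ∀ (q : ℂ → ℂ) (γ v : ℝ) (f : ℂ → ℂ), Sl q C γ v f → 1 ≤ γ → ∀ τ ∈ Hp v,
      (∀ s : ℝ, 0 ≤ s → 2 ≤ -(f (τ - I * s)).im) → q (f τ) ≠ 0 →
      c ≤ ‖(γ : ℂ) ^ 2 * q (f τ) - tipc‖ → ∀ y : ℂ, y ^ 2 = Xf q γ f τ →
        ‖y‖ ≤ C' * (1 + γ / (-v - τ.im)) ^ (3 / 4 : ℝ) := by
  obtain ⟨S, hS1, hS⟩ := sch
  obtain ⟨M0, hM0, hM⟩ := im_bound hc
  obtain ⟨B, hB⟩ : ∃ B : ℝ, B = S + M0 + 6 := ⟨_, rfl⟩
  have hB0 : 0 < B := by rw [hB]; linarith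
  refine ⟨2 + (√(8 * B) * (2 * √C)) ^ (3 / 4 : ℝ), by positivity, ?_⟩
  intro q γ v f h hγ1 τ hτ hdeep hq hcc y hy
  have hτ' : τ.im < -v := hτ
  have hd0 : 0 < -v - τ.im := by linarith
  have hγ0 : 0 < γ := by linarith
  have hgd : 0 ≤ γ / (-v - τ.im) := by positivity
  obtain ⟨t, ht⟩ : ∃ t : ℝ, t = γ / (-v - τ.im) := ⟨_, rfl⟩
  rw [← ht] at hgd ⊢
  have hone : (1:ℝ) ≤ (1 + t) ^ (3 / 4 : ℝ) := Real.one_le_rpow (by linarith) (by norm_num)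
  have hK : 0 ≤ (√(8 * B) * (2 * √C)) ^ (3 / 4 : ℝ) := by positivity
  rcases le_or_gt ‖y‖ 2 with hn | hn
  · nlinarith
  · obtain ⟨h1, h2, _⟩ := y_spec h hτ hq hy
    have h3 : |y.im| ≤ Real.log (1 + ‖y‖) + M0 := hM y h1 (by rw [h2]; exact hcc)
    have h4 := log_third (by linarith : (0:ℝ) ≤ S) hM0.le hn.le
    rw [← hB] at h4
    have h5 : S + |y.im| ≤ B * ‖y‖ ^ (1 / 3 : ℝ) := by linarith
    have hA : 0 < S + |y.im| := by have := abs_nonneg y.im; linarith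
    have h6 := gr_step hS1 hS h hτ hdeep hy hn
    rw [← ht] at h6
    have h7 := arith (by linarith : 0 < ‖y‖) hA h5 hB0 (by positivity : 0 ≤ 2 * √C * t) h6
    have h8 : √(8 * B) * (2 * √C * t) = (√(8 * B) * (2 * √C)) * t := by ring
    rw [h8, Real.mul_rpow (by positivity) hgd] at h7
    have h9 : t ^ (3 / 4 : ℝ) ≤ (1 + t) ^ (3 / 4 : ℝ) :=
      Real.rpow_le_rpow hgd (by linarith) (by norm_num)
    have h10 := mul_le_mul_of_nonneg_left h9 hK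
    nlinarith

end Pool.Agent.MP_ae5b4e_an_T
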