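import Pool.Agent.Lib.MP_ae5b4e_an_T.Defs
import Pool.Agent.Lib.MP_ae5b4e_an_WD.AV3

/-!
# POR (iii), N2, section T, block T3: tools for the vertical path
-/

noncomputable section

namespace Pool.Agent.MP_ae5b4e_an_T

open Complex Set Filter Topology Metric
open Pool.Agent.MP_ae5b4e_an_WB
open Pool.Agent.MP_ae5b4e_an_WD
open Pool.Agent.MP_ae5b4e_an_M (S1 C1f Gf)

/-- a continuous non vanishing function on `(0, s1]` has a continuous square root.

Proof. `s ↦ f (min s s1)` is continuous and non vanishing on the open convex set `Ioi 0`; apply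
`Complex.exists_continuousOn_pow_eq` (see `WD/Path1.lean`), `Ioi 0` being simply connected (convex,
contractible). -/
theorem sqrt_Ioc {f : ℝ → ℂ} {s1 : ℝ} (hs1 : 0 < s1) (hf : ContinuousOn f (Ioc 0 s1))
    (h0 : ∀ s ∈ Ioc (0 : ℝ) s1, f s ≠ 0) :
    ∃ r : ℝ → ℂ, ContinuousOn r (Ioc 0 s1) ∧ ∀ s ∈ Ioc (0 : ℝ) s1, r s ^ 2 = f s := by
  have hmem : ∀ s ∈ Ioi (0 : ℝ), min s s1 ∈ Ioc (0 : ℝ) s1 := fun s hs =>
    ⟨lt_min hs hs1, min_le_right _ _⟩
  have hc : ContinuousOn (fun s : ℝ => f (min s s1)) (Ioi 0) :=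
    hf.comp (continuous_id.min continuous_const).continuousOn hmem
  have hU : IsSimplyConnected (Ioi (0 : ℝ)) := by
    have : ContractibleSpace (Ioi (0 : ℝ)) := (convex_Ioi 0).contractibleSpace
      ⟨1, mem_Ioi.2 one_pos⟩
    unfold IsSimplyConnected
    infer_instance
  obtain ⟨r, hr, hr2⟩ := Complex.exists_continuousOn_pow_eq hU isOpen_Ioi hc
    (by
      rintro ⟨s, hs, hs0⟩
      exact h0 _ (hmem s hs) hs0) (n := 2) two_ne_zero
  refine ⟨r, hr.mono Ioc_subset_Ioi_self, fun s hs => ?_⟩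
  rw [hr2 s, min_eq_left hs.2]

/-- `G y / y → 1` for `y → 0` with `sin y ≠ 0`.

Proof. `G y = sin y exp (1 - y cos y / sin y)`, `sin y / y → 1` (derivative of `sin` at `0`),
`cos y → 1`, so
`y cos y / sin y → 1` and the exponent tends to `0`. -/
theorem G_div_tendsto : Tendsto (fun y : ℂ => G y / y) (𝓝 0 ⊓ 𝓟 {y | sin y ≠ 0}) (𝓝 1) := by
  have hle : (𝓝 (0 : ℂ) ⊓ 𝓟 {y | sin y ≠ 0}) ≤ 𝓝[≠] 0 := by
    refine inf_le_inf_left _ (principal_mono.2 fun y hy h => hy ?_)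
    rw [mem_singleton_iff.1 h, Complex.sin_zero]
  have h1 : Tendsto (fun y : ℂ => sin y / y) (𝓝 0 ⊓ 𝓟 {y | sin y ≠ 0}) (𝓝 1) := by
    have h2 := (hasDerivAt_iff_tendsto_slope.1 (Complex.hasDerivAt_sin 0)).mono_left hle
    rw [Complex.cos_zero] at h2
    refine h2.congr fun y => ?_
    rw [slope_def_field, Complex.sin_zero, sub_zero, sub_zero]
  have h2 : Tendsto (fun y : ℂ => cos y) (𝓝 0 ⊓ 𝓟 {y | sin y ≠ 0}) (𝓝 1) := by
    have h3 : Tendsto (fun y : ℂ => cos y) (𝓝 0) (𝓝 1) :=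
      Complex.continuous_cos.tendsto' 0 1 Complex.cos_zero
    exact h3.mono_left inf_le_left
  have h3 : Tendsto (fun y : ℂ => sin y / y * exp (1 - cos y / (sin y / y)))
      (𝓝 0 ⊓ 𝓟 {y | sin y ≠ 0}) (𝓝 (1 * exp (1 - 1 / 1))) :=
    h1.mul ((Complex.continuous_exp.tendsto _).comp
      (tendsto_const_nhds.sub (h2.div h1 one_ne_zero)))
  rw [div_one, sub_self, Complex.exp_zero, one_mul] at h3
  refine h3.congr' ?_
  have h4 : ∀ᶠ y : ℂ in 𝓝 0 ⊓ 𝓟 {y | sin y ≠ 0}, sin y ≠ 0 :=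
    mem_inf_of_right (mem_principal_self _)
  filter_upwards [h4] with y hy
  have hy0 : y ≠ 0 := by
    rintro rfl
    exact hy Complex.sin_zero
  have h5 : cos y / (sin y / y) = y * (cos y / sin y) := by
    field_simp
  unfold G
  rw [h5]
  ring

/-- a state `(λ, a)` with `Gf q λ a = γ ≠ 0` and `y = r a`, `r ^ 2 = q λ`, `r ≠ 0`.

Proof. Copy of the proof of `DS.G_eq` in `WD/DA.lean` (`a ≠ 0` because `Gf q λ 0 = 0`). -/
theorem state_G {q : ℂ → ℂ} {lm a γ r : ℂ} (hγ : γ ≠ 0) (hS : S1 (q lm * a ^ 2) ≠ 0)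
    (hG : Gf q lm a = γ) (hr : r ^ 2 = q lm) (hr0 : r ≠ 0) : sin (r * a) ≠ 0 ∧ G (r * a) = r * γ
    := by
  have hα : a ≠ 0 := by
    rintro rfl
    unfold Gf at hG
    rw [zero_mul, zero_mul] at hG
    exact hγ hG.symm
  have hy : r * a ≠ 0 := mul_ne_zero hr0 hα
  have hy2 : (r * a) ^ 2 = q lm * a ^ 2 := by rw [mul_pow, hr]
  have hs : S1 ((r * a) ^ 2) ≠ 0 := by
    rw [hy2]
    exact hS
  have h1 := Pool.Agent.MP_ae5b4e_an_M.S1_sq (r * a)
  have h2 := Pool.Agent.MP_ae5b4e_an_M.C1f_sq (r * a)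
  have hsin : sin (r * a) ≠ 0 := by
    rw [← h1]
    exact mul_ne_zero hy hs
  refine ⟨hsin, ?_⟩
  have h3 := hG
  unfold Gf at h3
  rw [← hy2] at h3
  have h4 : r * a * (cos (r * a) / sin (r * a)) = C1f ((r * a) ^ 2) / S1 ((r * a) ^ 2) := by
    rw [← h1, h2]
    field_simp
  unfold G
  rw [h4, ← h1]
  calc r * a * S1 ((r * a) ^ 2) * cexp (1 - C1f ((r * a) ^ 2) / S1 ((r * a) ^ 2)) =
      r * (a * S1 ((r * a) ^ 2) * cexp (1 - C1f ((r * a) ^ 2) / S1 ((r * a) ^ 2))) := by ring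
    _ = r * γ := by rw [h3]

end Pool.Agent.MP_ae5b4e_an_T
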