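import Mathlib

/-!
# POR (iii), N2, section T, block T3: implicit function theorem with two parameters
-/

namespace Pool.Agent.MP_ae5b4e_an_T

open Complex Set Filter Topology Metric

/-- the analytic implicit function theorem, two parameters (copy of `implicit_analytic` in
`LAT/NDImplicit.lean`) -/
theorem implicit2 {F : (ℂ × ℂ) × ℂ → ℂ} {x₀ : ℂ × ℂ} {t₀ c : ℂ} (hF : AnalyticAt ℂ F (x₀, t₀))
    (h0 : F (x₀, t₀) = 0) (hc : c ≠ 0) (ht : HasDerivAt (fun t => F (x₀, t)) c t₀) :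
    ∃ b : ℂ × ℂ → ℂ, AnalyticAt ℂ b x₀ ∧ b x₀ = t₀ ∧
      ∀ᶠ p in 𝓝 (x₀, t₀), F p = 0 ↔ b p.1 = p.2 := by
  have hcd : ContDiffAt ℂ ⊤ F (x₀, t₀) := hF.contDiffAt
  have hinr : (fderiv ℂ F (x₀, t₀)) ∘L .inr ℂ (ℂ × ℂ) ℂ =
      ContinuousLinearMap.toSpanSingleton ℂ c := by
    have h1 : HasFDerivAt F (fderiv ℂ F (x₀, t₀)) (x₀, t₀) := hF.differentiableAt.hasFDerivAt
    have h2 : HasFDerivAt (fun t : ℂ => ((x₀, t) : (ℂ × ℂ) × ℂ)) (.inr ℂ (ℂ × ℂ) ℂ) t₀ :=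
      hasFDerivAt_prodMk_right x₀ t₀
    have h3 := h1.comp t₀ h2
    exact h3.unique ht.hasFDerivAt
  have hinv : ((fderiv ℂ F (x₀, t₀)) ∘L .inr ℂ (ℂ × ℂ) ℂ).IsInvertible := by
    rw [hinr]
    refine ⟨ContinuousLinearEquiv.unitsEquivAut ℂ (Units.mk0 c hc), ?_⟩
    ext
    simp
  refine ⟨hcd.implicitFunction (by simp) hinv, ?_, ?_, ?_⟩
  · have := hcd.contDiffAt_implicitFunction (by simp) hinv
    exact this.analyticAt
  · exact hcd.implicitFunction_apply_self (by simp) hinv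
  · have := hcd.eventually_apply_eq_iff_implicitFunction (by simp) hinv
    rw [h0] at this
    exact this

end Pool.Agent.MP_ae5b4e_an_T
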