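import Pool.Agent.Lib.MP_ae5b4e_an_T.Bxc
import Pool.Agent.Lib.MP_ae5b4e_an_T.GrE

/-!
# POR (iii), N2, section T: block T2, final statements (boxes, limits, points of type `I`)
-/

noncomputable section

namespace Pool.Agent.MP_ae5b4e_an_T

open Complex Set Filter Topology Metric
open Pool.Agent.MP_ae5b4e_an_WB
open Pool.Agent.MP_ae5b4e_an_WD
open Pool.Agent.MP_ae5b4e_an_M (S1 C1f Gf)

theorem grw {C : ℝ} (hC : 0 < C) : Grw C := fun _ hc => grow hC hc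

/-- T2c. the uniform box lemma: the label is nearly constant on a box between a point of bounded
label depth and the line -/
theorem boxl {W : Set (ℂ → ℂ)} {C kap : ℝ} (hW : Fm W C kap) {K1 δ D : ℝ} (hδ : 0 < δ) :
    ∃ σ : ℝ, 0 < σ ∧ ∀ q ∈ W, ∀ (γ v : ℝ) (f : ℂ → ℂ), 1 ≤ γ → γ ≤ K1 → Sl q C γ v f → Deep v f →
      ∀ τ ∈ Hp v, -v - τ.im ≤ σ → -(f τ).im ≤ D → ∀ τ' ∈ Hp v, |τ'.re - τ.re| ≤ -v - τ.im →
        τ.im ≤ τ'.im → ‖f τ' - f τ‖ < δ :=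
  boxl_of (grw hW.C_pos) hW hδ

/-- T2d. the two possibilities for a point of the line -/
theorem lim_or {W : Set (ℂ → ℂ)} {C kap : ℝ} (hW : Fm W C kap) {q : ℂ → ℂ} (hq : q ∈ W)
    {γ v : ℝ} {f : ℂ → ℂ} (hγ : 1 ≤ γ) (h : Sl q C γ v f) (hd : Deep v f) (x : ℝ) :
    (∃ l : ℂ, 3 ≤ -l.im ∧ LimAt v f x l) ∨ IAt v f x :=
  lim_or_of (grw hW.C_pos) hW hq hγ h hd x

/-- T2e. the set of the points of type `I` is closed -/
theorem I_closed {W : Set (ℂ → ℂ)} {C kap : ℝ} (hW : Fm W C kap) {q : ℂ → ℂ} (hq : q ∈ W)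
    {γ v : ℝ} {f : ℂ → ℂ} (hγ : 1 ≤ γ) (h : Sl q C γ v f) (hd : Deep v f) :
    IsClosed {x : ℝ | IAt v f x} :=
  I_closed_of (grw hW.C_pos) hW hq hγ h hd

end Pool.Agent.MP_ae5b4e_an_T
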