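import Pool.Agent.Lib.MP_ae5b4e_an_T.Bxa

/-!
# POR (iii), N2, section T, block T2c: boxes
-/

noncomputable section

namespace Pool.Agent.MP_ae5b4e_an_T

open Complex Set Filter Topology Metric
open Pool.Agent.MP_ae5b4e_an_WB
open Pool.Agent.MP_ae5b4e_an_WD
open Pool.Agent.MP_ae5b4e_an_M (S1 C1f Gf)

/-- the conclusion of `grow` (for all `c`) -/
def Grw (C : ℝ) : Prop := ∀ c : ℝ, 0 < c → ∃ C' : ℝ, 0 < C' ∧
    ∀ (q : ℂ → ℂ) (γ v : ℝ) (f : ℂ → ℂ), Sl q C γ v f → 1 ≤ γ → ∀ τ ∈ Hp v,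
      (∀ s : ℝ, 0 ≤ s → 2 ≤ -(f (τ - I * s)).im) → q (f τ) ≠ 0 →
      c ≤ ‖(γ : ℂ) ^ 2 * q (f τ) - tipc‖ → ∀ y : ℂ, y ^ 2 = Xf q γ f τ →
        ‖y‖ ≤ C' * (1 + γ / (-v - τ.im)) ^ (3 / 4 : ℝ)

/-- the labels where `γ² q` is not close to `0` and `tipc` -/
def Gs (q : ℂ → ℂ) (γ ε : ℝ) : Set ℂ :=
  {l | ε ≤ ‖(γ : ℂ) ^ 2 * q l‖ ∧ ε ≤ ‖(γ : ℂ) ^ 2 * q l - tipc‖}

/-- the bound of `f'` at the points whose labels are in `Gs` -/
theorem grow_der {C K1 ε : ℝ} (hgr : Grw C) (hε : 0 < ε) : ∃ B : ℝ, 0 < B ∧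
    ∀ (q : ℂ → ℂ) (γ v : ℝ) (f : ℂ → ℂ), 1 ≤ γ → γ ≤ K1 → Sl q C γ v f → Deep v f →
      ∀ τ ∈ Hp v, ∀ t : ℝ, 0 < t → t ≤ 1 → -v - τ.im = t ^ 4 → f τ ∈ Gs q γ ε →
        ‖deriv f τ‖ * t ^ 3 ≤ B := by
  obtain ⟨C', hC', hgC⟩ := hgr ε hε
  rcases lt_or_ge K1 1 with hK | hK
  · exact ⟨1, one_pos, fun q γ v f h1 h2 => absurd (h1.trans h2) (not_le.2 hK)⟩
  refine ⟨C' * (1 + K1) ^ (3 / 4 : ℝ) / Real.sqrt ε, by positivity, ?_⟩
  intro q γ v f h1 h2 hS hD τ hτ t ht ht1 htd hG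
  have hγ0 : 0 < γ := by linarith
  obtain ⟨g1, g2⟩ := hG
  have hq0 : q (f τ) ≠ 0 := by
    intro h
    rw [h, mul_zero, norm_zero] at g1
    linarith
  obtain ⟨y, hy⟩ := IsAlgClosed.exists_pow_nat_eq (Xf q γ f τ) zero_lt_two
  have hdeep : ∀ s : ℝ, 0 ≤ s → 2 ≤ -(f (τ - I * s)).im := by
    intro s hs
    have h3 : τ - I * s ∈ Hp v := by
      have h4 : (τ - I * s).im = τ.im - s := by simp
      have h5 : τ.im < -v := hτ
      change (τ - I * s).im < -v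
      rw [h4]
      linarith
    linarith [hD _ h3]
  have hb := hgC q γ v f hS h1 τ hτ hdeep hq0 g2 y hy
  rw [htd] at hb
  -- the power
  have ht4 : 0 < t ^ 4 := by positivity
  have hpow : (1 + γ / t ^ 4) ^ (3 / 4 : ℝ) ≤ (1 + K1) ^ (3 / 4 : ℝ) / t ^ 3 := by
    have e1 : 1 + γ / t ^ 4 ≤ (1 + K1) / t ^ 4 := by
      rw [add_div]
      have e2 : 1 ≤ 1 / t ^ 4 := by
        rw [le_div_iff₀ ht4, one_mul]
        exact pow_le_one₀ ht.le ht1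
      have e3 : γ / t ^ 4 ≤ K1 / t ^ 4 := by gcongr
      linarith
    have e4 : (t ^ 4) ^ (3 / 4 : ℝ) = t ^ 3 := by
      rw [← Real.rpow_natCast t 4, ← Real.rpow_mul ht.le, ← Real.rpow_natCast t 3]
      norm_num
    calc (1 + γ / t ^ 4) ^ (3 / 4 : ℝ) ≤ ((1 + K1) / t ^ 4) ^ (3 / 4 : ℝ) :=
          Real.rpow_le_rpow (by positivity) e1 (by norm_num)
      _ = (1 + K1) ^ (3 / 4 : ℝ) / t ^ 3 := by
          rw [Real.div_rpow (by linarith) ht4.le, e4]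
  have hy2 : ‖y‖ ^ 2 = ‖(γ : ℂ) ^ 2 * q (f τ)‖ * ‖deriv f τ‖ ^ 2 := by
    rw [← norm_pow, hy]
    unfold Xf
    rw [norm_mul, norm_pow, norm_mul, norm_mul, norm_pow]
    ring
  have hsq : Real.sqrt ε * ‖deriv f τ‖ ≤ ‖y‖ := by
    have h3 : (Real.sqrt ε * ‖deriv f τ‖) ^ 2 ≤ ‖y‖ ^ 2 := by
      rw [mul_pow, Real.sq_sqrt hε.le, hy2]
      exact mul_le_mul_of_nonneg_right g1 (by positivity)
    exact le_of_sq_le_sq h3 (norm_nonneg _)
  have hse : 0 < Real.sqrt ε := Real.sqrt_pos.2 hε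
  rw [le_div_iff₀ hse]
  have ht3 : 0 < t ^ 3 := by positivity
  calc ‖deriv f τ‖ * t ^ 3 * Real.sqrt ε = (Real.sqrt ε * ‖deriv f τ‖) * t ^ 3 := by ring
    _ ≤ (C' * ((1 + K1) ^ (3 / 4 : ℝ) / t ^ 3)) * t ^ 3 := by
        refine mul_le_mul_of_nonneg_right (hsq.trans (hb.trans ?_)) ht3.le
        exact mul_le_mul_of_nonneg_left hpow hC'.le
    _ = C' * (1 + K1) ^ (3 / 4 : ℝ) := by field_simp

/-- balls about the points of `Gs` -/
theorem ball_Gs {C K1 ε : ℝ} (hε : 0 < ε) : ∃ r : ℝ, 0 < r ∧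
    ∀ (q : ℂ → ℂ) (γ : ℝ), 1 ≤ γ → γ ≤ K1 → DifferentiableOn ℂ q Hm →
      (∀ z : ℂ, 2 ≤ -z.im → ‖q z‖ ≤ C / z.im ^ 2) →
      ∀ l : ℂ, 3 ≤ -l.im → l ∈ Gs q γ ε → ball l r ⊆ Gs q γ (ε / 2) := by
  obtain ⟨r, hr⟩ : ∃ r : ℝ, r = min (1 / 2) (ε / (2 * (K1 ^ 2 * (|C| + 1)) + 2)) := ⟨_, rfl⟩
  have hpos : 0 < 2 * (K1 ^ 2 * (|C| + 1)) + 2 := by positivity
  have hr0 : 0 < r := by rw [hr]; exact lt_min (by norm_num) (by positivity)
  have hr1 : r ≤ 1 / 2 := by rw [hr]; exact min_le_left _ _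
  have hr2 : r ≤ ε / (2 * (K1 ^ 2 * (|C| + 1)) + 2) := by rw [hr]; exact min_le_right _ _
  refine ⟨r, hr0, ?_⟩
  intro q γ h1 h2 hq hqb l hl hG z hz
  have hγ0 : 0 < γ := by linarith
  have hzr : ‖z - l‖ < r := by rwa [mem_ball, dist_eq_norm] at hz
  -- the ball of radius 1
  have hdep : ∀ w ∈ ball l 1, 2 ≤ -w.im := by
    intro w hw
    rw [mem_ball, dist_eq_norm] at hw
    have h3 := Complex.abs_im_le_norm (w - l)
    rw [Complex.sub_im] at h3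
    have h4 := abs_le.1 (h3.trans hw.le)
    linarith [h4.2]
  have hqd : DifferentiableOn ℂ q (ball l 1) := hq.mono fun w hw => by
    have := hdep w hw
    change w.im < 0
    linarith
  have hqbd : ∀ w ∈ ball l 1, ‖q w‖ ≤ (|C| + 1) / 4 := by
    intro w hw
    have h3 := hdep w hw
    refine (hqb w h3).trans ?_
    have h4 : (4:ℝ) ≤ w.im ^ 2 := by nlinarith
    rw [div_le_div_iff₀ (by linarith) (by norm_num)]
    have h5 := le_abs_self C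
    have h6 := abs_nonneg C
    nlinarith
  have hder : ∀ w ∈ ball l (1 / 2), ‖deriv q w‖ ≤ (|C| + 1) := by
    intro w hw
    rw [mem_ball] at hw
    have hcb : ∀ u ∈ closedBall w (1 / 4), u ∈ ball l 1 := by
      intro u hu
      rw [mem_closedBall] at hu
      rw [mem_ball]
      linarith [dist_triangle u w l]
    have h3 := Complex.norm_deriv_le_of_forall_mem_sphere_norm_le (by norm_num : (0:ℝ) < 1 / 4)
      (hqd.diffContOnCl_ball hcb) fun u hu => hqbd u (hcb u (sphere_subset_closedBall hu))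
    refine h3.trans (le_of_eq ?_)
    ring
  have hlip : ‖q z - q l‖ ≤ (|C| + 1) * ‖z - l‖ := by
    have hsub : ball l (1 / 2) ⊆ ball l 1 := ball_subset_ball (by norm_num)
    exact (convex_ball l (1 / 2)).norm_image_sub_le_of_norm_deriv_le
      (fun w hw => (hqd w (hsub hw)).differentiableAt (isOpen_ball.mem_nhds (hsub hw))) hder
      (mem_ball_self (by norm_num)) (ball_subset_ball hr1 hz)
  have hdiff : ‖(γ : ℂ) ^ 2 * q z - (γ : ℂ) ^ 2 * q l‖ ≤ ε / 2 := by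
    rw [← mul_sub, norm_mul, norm_pow, Complex.norm_real, Real.norm_of_nonneg hγ0.le]
    have h3 : γ ^ 2 ≤ K1 ^ 2 := by nlinarith
    have h4 : 0 < |C| + 1 := by positivity
    calc γ ^ 2 * ‖q z - q l‖ ≤ K1 ^ 2 * ((|C| + 1) * r) := by
          refine mul_le_mul h3 (hlip.trans ?_) (norm_nonneg _) (by positivity)
          exact mul_le_mul_of_nonneg_left hzr.le h4.le
      _ = K1 ^ 2 * (|C| + 1) * r := by ring
      _ ≤ K1 ^ 2 * (|C| + 1) * (ε / (2 * (K1 ^ 2 * (|C| + 1)) + 2)) :=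
          mul_le_mul_of_nonneg_left hr2 (by positivity)
      _ ≤ ε / 2 := by
          rw [← mul_div_assoc, div_le_div_iff₀ hpos (by norm_num)]
          nlinarith
  obtain ⟨g1, g2⟩ := hG
  constructor
  · have h3 := norm_sub_norm_le ((γ : ℂ) ^ 2 * q l) ((γ : ℂ) ^ 2 * q z)
    rw [norm_sub_rev] at h3
    linarith
  · have h3 := norm_sub_norm_le ((γ : ℂ) ^ 2 * q l - tipc) ((γ : ℂ) ^ 2 * q z - tipc)
    rw [sub_sub_sub_cancel_right, norm_sub_rev ((γ : ℂ) ^ 2 * q l) ((γ : ℂ) ^ 2 * q z)] at h3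
    linarith

/-- an arc of diameter `≥ δ` contains points of `Gs` -/
theorem arc_Gs {W : Set (ℂ → ℂ)} {C kap : ℝ} (hW : Fm W C kap) {K1 δ : ℝ} (hδ : 0 < δ)
    (C' : ℝ) : ∃ ε : ℝ, 0 < ε ∧ ∀ q ∈ W, ∀ γ : ℝ, 1 ≤ γ → γ ≤ K1 → ∀ (b : ℝ) (p : ℝ → ℂ),
      0 ≤ b → ContinuousOn p (Icc 0 b) → MapsTo p (Icc 0 b) (PorTR.Strip 2 C') →
      δ ≤ dist (p 0) (p b) → ∃ s ∈ Icc 0 b, p s ∈ Gs q γ ε := by
  obtain ⟨c, hc, hosc⟩ := hW.osc δ hδ C'
  have htip : 0 < ‖tipc‖ := by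
    unfold tipc
    rw [norm_neg, Complex.norm_real]
    have h1 := Real.exp_pos 2
    have h2 : (Real.exp 2 / 4 : ℝ) ≠ 0 := by positivity
    exact norm_pos_iff.2 h2
  obtain ⟨ε, hε⟩ : ∃ ε : ℝ, ε = min (c / 4) (‖tipc‖ / 4) := ⟨_, rfl⟩
  have hε0 : 0 < ε := by rw [hε]; exact lt_min (by positivity) (by positivity)
  have hε1 : ε ≤ c / 4 := by rw [hε]; exact min_le_left _ _
  have hε2 : ε ≤ ‖tipc‖ / 4 := by rw [hε]; exact min_le_right _ _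
  refine ⟨ε, hε0, ?_⟩
  intro q hq γ h1 h2 b p hb hp hm hd
  by_contra hcon
  push Not at hcon
  have hγ0 : 0 < γ := by linarith
  have hqc : ContinuousOn (fun s => (γ : ℂ) ^ 2 * q (p s)) (Icc 0 b) := by
    refine continuousOn_const.mul ((hW.hol q hq).continuousOn.comp hp fun s hs => ?_)
    have h3 := (hm hs).1
    change (p s).im < 0
    linarith
  -- alternatives
  have halt : ∀ s ∈ Icc (0:ℝ) b, ‖(γ : ℂ) ^ 2 * q (p s)‖ < ε ∨
      ‖(γ : ℂ) ^ 2 * q (p s) - tipc‖ < ε := by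
    intro s hs
    have h3 := hcon s hs
    by_contra h4
    push Not at h4
    exact h3 ⟨h4.1, h4.2⟩
  have hdisj : ∀ x : ℂ, ‖x‖ < ε → ‖x - tipc‖ < ε → False := by
    intro x hx hx'
    have h3 : tipc = x - (x - tipc) := by ring
    have h4 : ‖tipc‖ ≤ ‖x‖ + ‖x - tipc‖ := by
      calc ‖tipc‖ = ‖x - (x - tipc)‖ := by rw [← h3]
        _ ≤ _ := norm_sub_le _ _
    linarith
  have hpre : IsPreconnected ((fun s => (γ : ℂ) ^ 2 * q (p s)) '' Icc 0 b) :=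
    isPreconnected_Icc.image _ hqc
  have hosc2 : ∀ s ∈ Icc (0:ℝ) b,
      ‖(γ : ℂ) ^ 2 * q (p s) - (γ : ℂ) ^ 2 * q (p 0)‖ < 2 * ε := by
    have h0 : (0:ℝ) ∈ Icc (0:ℝ) b := ⟨le_rfl, hb⟩
    have hcov : (fun s => (γ : ℂ) ^ 2 * q (p s)) '' Icc 0 b ⊆ ball 0 ε ∪ ball tipc ε := by
      rintro x ⟨s, hs, rfl⟩
      rcases halt s hs with h | h
      · left
        rw [mem_ball_zero_iff]
        exact h
      · right
        rw [mem_ball, dist_eq_norm]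
        exact h
    have hint : ((fun s => (γ : ℂ) ^ 2 * q (p s)) '' Icc 0 b) ∩ (ball 0 ε ∩ ball tipc ε) = ∅ := by
      ext x
      simp only [mem_inter_iff, mem_empty_iff_false, iff_false, not_and]
      intro _ hx hx'
      rw [mem_ball_zero_iff] at hx
      rw [mem_ball, dist_eq_norm] at hx'
      exact hdisj x hx hx'
    intro s hs
    have ms : (γ : ℂ) ^ 2 * q (p s) ∈ (fun s => (γ : ℂ) ^ 2 * q (p s)) '' Icc 0 b :=
      mem_image_of_mem _ hs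
    have m0 : (γ : ℂ) ^ 2 * q (p 0) ∈ (fun s => (γ : ℂ) ^ 2 * q (p s)) '' Icc 0 b :=
      mem_image_of_mem _ h0
    rcases isPreconnected_iff_subset_of_disjoint.1 hpre _ _ isOpen_ball isOpen_ball hcov hint with
      h | h
    · have a1 := h ms
      have a2 := h m0
      rw [mem_ball_zero_iff] at a1 a2
      refine (norm_sub_le _ _).trans_lt ?_
      linarith
    · have a1 := h ms
      have a2 := h m0
      rw [mem_ball, dist_eq_norm] at a1 a2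
      have h3 : (γ : ℂ) ^ 2 * q (p s) - (γ : ℂ) ^ 2 * q (p 0) =
          ((γ : ℂ) ^ 2 * q (p s) - tipc) - ((γ : ℂ) ^ 2 * q (p 0) - tipc) := by ring
      rw [h3]
      refine (norm_sub_le _ _).trans_lt ?_
      linarith
  obtain ⟨s, hs, hcs⟩ := hosc q hq 0 b p hb hp hm hd
  have h3 := hosc2 s hs
  rw [← mul_sub, norm_mul, norm_pow, Complex.norm_real, Real.norm_of_nonneg hγ0.le,
    ← dist_eq_norm] at h3
  have h4 : (1:ℝ) ≤ γ ^ 2 := one_le_pow₀ h1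
  have h5 : dist (q (p s)) (q (p 0)) ≤ γ ^ 2 * dist (q (p s)) (q (p 0)) :=
    le_mul_of_one_le_left dist_nonneg h4
  linarith

end Pool.Agent.MP_ae5b4e_an_T
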