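import Pool.Agent.Lib.MP_ae5b4e_an_T.Isol
import Pool.Agent.Lib.MP_ae5b4e_an_A1.Slt
import Pool.Agent.Lib.MP_ae5b4e_an_A1.Geom

/-!
# POR (iii), N2, section T, block T5: gluing the local continuations over a compact stretch
-/

noncomputable section

namespace Pool.Agent.MP_ae5b4e_an_T

open Complex Set Filter Topology Metric
open Pool.Agent.MP_ae5b4e_an_WB
open Pool.Agent.MP_ae5b4e_an_WD
open Pool.Agent.MP_ae5b4e_an_A1 (SB Sd Slt isOpen_SB SB_conn)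

theorem isOpen_nslit (a c : ℝ) : IsOpen {s : ℂ | ¬(s.re = a ∧ c ≤ s.im)} := by
  have h : IsClosed {s : ℂ | s.re = a ∧ c ≤ s.im} :=
    (isClosed_eq continuous_re continuous_const).inter (isClosed_le continuous_const continuous_im)
  exact h.isOpen_compl

/-- box about the line point `x - i v₀`, minus all slits of the stretch -/
def Bx (v₀ γ : ℝ) (F : Set ℝ) (T : ℝ → ℂ → ℂ) (x R : ℝ) : Set (ℂ × ℂ) :=
  {p | |p.1.re - x| < R ∧ |p.1.im + v₀| < R ∧ p.2 ∈ ball (γ : ℂ) R ∧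
    ∀ s ∈ F, ¬(p.1.re = (T s p.2).re ∧ (T s p.2).im ≤ p.1.im)}

theorem bx_ball {v₀ γ x R ρ : ℝ} {F : Set ℝ} {T : ℝ → ℂ → ℂ} (hR : 2 * R ≤ ρ) {p : ℂ × ℂ}
    (hp : p ∈ Bx v₀ γ F T x R) : p.1 ∈ ball ((x : ℂ) - v₀ * I) ρ := by
  obtain ⟨h1, h2, -, -⟩ := hp
  rw [mem_ball, dist_eq_norm]
  have h3 := Complex.norm_le_abs_re_add_abs_im (p.1 - ((x : ℂ) - v₀ * I))
  have e1 : (p.1 - ((x : ℂ) - v₀ * I)).re = p.1.re - x := by simp
  have e2 : (p.1 - ((x : ℂ) - v₀ * I)).im = p.1.im + v₀ := by simp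
  rw [e1, e2] at h3
  linarith

/-- local continuation on a box -/
def Loc (vi : ℂ → ℝ) (L : ℂ × ℂ → ℂ) (γ : ℝ) (F : Set ℝ) (T : ℝ → ℂ → ℂ) (x R : ℝ)
    (Λ : ℂ × ℂ → ℂ) : Prop :=
  0 < R ∧ AnalyticOnNhd ℂ Λ (Bx (vi γ) γ F T x R) ∧ (∀ p ∈ Bx (vi γ) γ F T x R, (Λ p).im < 0) ∧
    ∀ p ∈ Bx (vi γ) γ F T x R, p ∈ Dv vi → Λ p = L p

theorem loc_of_rgn {vi : ℂ → ℝ} {L : ℂ × ℂ → ℂ} {γ x : ℝ} {F : Set ℝ} {T : ℝ → ℂ → ℂ}
    (h : RgN vi L γ ((x : ℂ) - vi γ * I)) : ∃ (R : ℝ) (Λ : ℂ × ℂ → ℂ), Loc vi L γ F T x R Λ := by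
  obtain ⟨ρ, hρ, Λ, h1, h2, h3⟩ := h
  have hsub : Bx (vi γ) γ F T x (ρ / 2) ⊆ ball ((x : ℂ) - vi γ * I) ρ ×ˢ ball (γ : ℂ) ρ :=
    fun p hp => ⟨bx_ball (by linarith) hp, ball_subset_ball (by linarith) hp.2.2.1⟩
  exact ⟨ρ / 2, Λ, by linarith, h1.mono hsub, fun p hp => h2 p (hsub hp),
    fun p hp => h3 p (hsub hp)⟩

theorem loc_of_sln {vi : ℂ → ℝ} {L : ℂ × ℂ → ℂ} {γ x R ρ : ℝ} {F : Set ℝ} {T : ℝ → ℂ → ℂ}
    {Λ : ℂ × ℂ → ℂ} (hx : x ∈ F) (h : SlN vi L γ ((x : ℂ) - vi γ * I) (T x) R ρ Λ) :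
    ∃ R' : ℝ, Loc vi L γ F T x R' Λ := by
  have hR : 0 < R := h.pos.trans_le h.le
  have h0 : 0 < min R ρ / 2 := half_pos (lt_min hR h.pos)
  have hsub : Bx (vi γ) γ F T x (min R ρ / 2) ⊆ Slb (T x) ((x : ℂ) - vi γ * I) γ R ρ := by
    intro p hp
    refine ⟨⟨bx_ball (by linarith [min_le_left R ρ]) hp,
      ball_subset_ball (by linarith [min_le_right R ρ]) hp.2.2.1⟩, hp.2.2.2 x hx⟩
  exact ⟨min R ρ / 2, h0, h.an.mono hsub, fun p hp => h.im p (hsub hp),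
    fun p hp => h.eq p (hsub hp)⟩

/-- two local continuations agree at the common points -/
theorem loc_uniq {vi : ℂ → ℝ} {L : ℂ × ℂ → ℂ} {γ x x' R R' : ℝ} {F : Set ℝ} (hF : F.Finite)
    {T : ℝ → ℂ → ℂ} {Λ Λ' : ℂ × ℂ → ℂ} (h : Loc vi L γ F T x R Λ) (h' : Loc vi L γ F T x' R' Λ')
    {p : ℂ × ℂ} (hp : p ∈ Bx (vi γ) γ F T x R) (hp' : p ∈ Bx (vi γ) γ F T x' R') (h0 : p.2 ≠ 0)
    {b : ℝ} (hb : |p.1.im + vi γ| < b) (hbR : b ≤ R) (hbR' : b ≤ R') (hv : vi p.2 < vi γ + b) :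
    Λ p = Λ' p := by
  obtain ⟨τ, g⟩ := p
  dsimp only at h0 hb hv
  rw [abs_lt] at hb
  obtain ⟨y, hy1, hy2⟩ : ∃ y, max (vi g) (-τ.im) < y ∧ y < vi γ + b :=
    exists_between (max_lt hv (by linarith [hb.1]))
  have hy3 : vi g < y := (le_max_left _ _).trans_lt hy1
  have hy4 : -τ.im < y := (le_max_right _ _).trans_lt hy1
  set K : Set ℂ := {s : ℂ | s.re = τ.re} ∩ ({s : ℂ | -y ≤ s.im} ∩ {s : ℂ | s.im ≤ τ.im}) with hK
  have hKc : IsPreconnected K := by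
    refine Convex.isPreconnected ?_
    refine Convex.inter ?_ ((convex_halfSpace_im_ge _).inter (convex_halfSpace_im_le _))
    have : {s : ℂ | s.re = τ.re} = {s : ℂ | τ.re ≤ s.re} ∩ {s : ℂ | s.re ≤ τ.re} := by
      ext s
      simp only [Set.mem_ofPred_eq, Set.mem_inter_iff]
      constructor
      · intro hs
        exact ⟨hs.ge, hs.le⟩
      · intro hs
        exact le_antisymm hs.2 hs.1
    rw [this]
    exact (convex_halfSpace_re_ge _).inter (convex_halfSpace_re_le _)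
  have hsl : ∀ s ∈ K, ∀ a ∈ F, ¬(s.re = (T a g).re ∧ (T a g).im ≤ s.im) := by
    rintro s ⟨hs1, -, hs3⟩ a ha ⟨h1, h2⟩
    have hs1' : s.re = τ.re := hs1
    have hs3' : s.im ≤ τ.im := hs3
    exact hp.2.2.2 a ha ⟨by rw [← h1, hs1'], h2.trans hs3'⟩
  have himb : ∀ s ∈ K, |s.im + vi γ| < b := by
    rintro s ⟨-, hs2, hs3⟩
    have hs2' : -y ≤ s.im := hs2
    have hs3' : s.im ≤ τ.im := hs3
    rw [abs_lt]
    constructor <;> linarith [hb.2]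
  have hKB : ∀ s ∈ K, (s, g) ∈ Bx (vi γ) γ F T x R := by
    intro s hs
    refine ⟨?_, (himb s hs).trans_le hbR, hp.2.2.1, hsl s hs⟩
    show |s.re - x| < R
    have hs1' : s.re = τ.re := hs.1
    rw [hs1']
    exact hp.1
  have hKB' : ∀ s ∈ K, (s, g) ∈ Bx (vi γ) γ F T x' R' := by
    intro s hs
    refine ⟨?_, (himb s hs).trans_le hbR', hp'.2.2.1, hsl s hs⟩
    show |s.re - x'| < R'
    have hs1' : s.re = τ.re := hs.1
    rw [hs1']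
    exact hp'.1
  have hline : ∀ s : ℂ, AnalyticAt ℂ (fun s : ℂ => (s, g)) s := fun s =>
    analyticAt_id.prod analyticAt_const
  have hf : AnalyticOnNhd ℂ (fun s => Λ (s, g)) K := fun s hs =>
    AnalyticAt.fun_comp (h.2.1 (s, g) (hKB s hs)) (hline s)
  have hf' : AnalyticOnNhd ℂ (fun s => Λ' (s, g)) K := fun s hs =>
    AnalyticAt.fun_comp (h'.2.1 (s, g) (hKB' s hs)) (hline s)
  have hs0 : (⟨τ.re, -y⟩ : ℂ) ∈ K :=
    ⟨rfl, by show -y ≤ -y; exact le_rfl, by show -y ≤ τ.im; linarith⟩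
  have hev : (fun s => Λ (s, g)) =ᶠ[𝓝 (⟨τ.re, -y⟩ : ℂ)] fun s => Λ' (s, g) := by
    have cre : Continuous fun s : ℂ => s.re := continuous_re
    have cim : Continuous fun s : ℂ => s.im := continuous_im
    obtain ⟨k1, k2, -, k4⟩ := hKB _ hs0
    obtain ⟨l1, l2, -, -⟩ := hKB' _ hs0
    have e1 : ∀ᶠ s in 𝓝 (⟨τ.re, -y⟩ : ℂ), |s.re - x| < R :=
      (isOpen_lt (cre.sub continuous_const).abs continuous_const).mem_nhds k1
    have e2 : ∀ᶠ s in 𝓝 (⟨τ.re, -y⟩ : ℂ), |s.im + vi γ| < R :=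
      (isOpen_lt (cim.add continuous_const).abs continuous_const).mem_nhds k2
    have e3 : ∀ᶠ s in 𝓝 (⟨τ.re, -y⟩ : ℂ), |s.re - x'| < R' :=
      (isOpen_lt (cre.sub continuous_const).abs continuous_const).mem_nhds l1
    have e4 : ∀ᶠ s in 𝓝 (⟨τ.re, -y⟩ : ℂ), |s.im + vi γ| < R' :=
      (isOpen_lt (cim.add continuous_const).abs continuous_const).mem_nhds l2
    have e5 : ∀ᶠ s in 𝓝 (⟨τ.re, -y⟩ : ℂ), s.im < -vi g :=
      (isOpen_lt cim continuous_const).mem_nhds (show -y < -vi g by linarith)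
    have e6 : ∀ᶠ s in 𝓝 (⟨τ.re, -y⟩ : ℂ), ∀ a ∈ hF.toFinset,
        ¬(s.re = (T a g).re ∧ (T a g).im ≤ s.im) := by
      rw [Filter.eventually_all_finset]
      intro a ha
      exact (isOpen_nslit _ _).mem_nhds (hsl _ hs0 a (hF.mem_toFinset.1 ha))
    filter_upwards [e1, e2, e3, e4, e5, e6] with s q1 q2 q3 q4 q5 q6
    have hD : ((s, g) : ℂ × ℂ) ∈ Dv vi := ⟨h0, q5⟩
    have m1 : ((s, g) : ℂ × ℂ) ∈ Bx (vi γ) γ F T x R :=
      ⟨q1, q2, hp.2.2.1, fun a ha => q6 a (hF.mem_toFinset.2 ha)⟩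
    have m2 : ((s, g) : ℂ × ℂ) ∈ Bx (vi γ) γ F T x' R' :=
      ⟨q3, q4, hp'.2.2.1, fun a ha => q6 a (hF.mem_toFinset.2 ha)⟩
    rw [h.2.2.2 _ m1 hD, h'.2.2.2 _ m2 hD]
  have hτ : τ ∈ K :=
    ⟨rfl, by show -y ≤ τ.im; linarith, by show τ.im ≤ τ.im; exact le_rfl⟩
  exact hf.eqOn_of_preconnected_of_eventuallyEq hf' hKc hs0 hev hτ

end Pool.Agent.MP_ae5b4e_an_T
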