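import Mathlib

/-!
# POR (iii), N2, section T, block T2a: square root along a path
-/

set_option autoImplicit false

noncomputable section

namespace Pool.Agent.MP_ae5b4e_an_T

open Complex Set Filter Topology Metric

/-- A differentiable square root along a path without zeros. Proof: `φ t := deriv Z t' / Z t'`,
`t' := max 0 (min b t)`, is continuous on `ℝ` (`h0`); `y x := y0 * exp ((1 / 2) * ∫ t in 0..x, φ t)` has the
derivative `y φ / 2` on `ℝ` (`intervalIntegral.integral_hasDerivAt_right`,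
`Continuous.deriv_integral` or `intervalIntegral.integral_hasDerivAt_right`). On `[0, b]`: `(y ^ 2 / Z)' = 0`
(within `Icc 0 b`; `constant_of_has_deriv_right_zero` or `is_const_of_deriv_eq_zero` on the
interval), so `y ^ 2 = Z`; `y φ / 2 = Z' / (2 y)` as `y² = Z ≠ 0`. -/
theorem gr_branch {Z : ℝ → ℂ} (hZ : ContDiff ℝ 1 Z) {b : ℝ} (hb : 0 ≤ b)
    (h0 : ∀ x ∈ Icc (0 : ℝ) b, Z x ≠ 0) {y0 : ℂ} (hy : y0 ^ 2 = Z 0) :
    ∃ y : ℝ → ℂ, y 0 = y0 ∧ ∀ x ∈ Icc (0 : ℝ) b, y x ^ 2 = Z x ∧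
      HasDerivAt y (deriv Z x / (2 * y x)) x := by
  have hcI : ∀ t : ℝ, max 0 (min b t) ∈ Icc (0 : ℝ) b := fun t =>
    ⟨le_max_left _ _, max_le hb (min_le_left _ _)⟩
  have hcx : ∀ t ∈ Icc (0 : ℝ) b, max 0 (min b t) = t := fun t ht => by
    rw [min_eq_right ht.2, max_eq_right ht.1]
  have hcc : Continuous fun t : ℝ => max 0 (min b t) := by fun_prop
  have hφ : Continuous fun t : ℝ => deriv Z (max 0 (min b t)) / Z (max 0 (min b t)) :=
    ((hZ.continuous_deriv le_rfl).comp hcc).div (hZ.continuous.comp hcc)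
      (fun t => h0 _ (hcI t))
  obtain ⟨φ, hφd⟩ : ∃ φ : ℝ → ℂ, φ = fun t : ℝ =>
    deriv Z (max 0 (min b t)) / Z (max 0 (min b t)) := ⟨_, rfl⟩
  rw [← hφd] at hφ
  have hφx : ∀ t ∈ Icc (0 : ℝ) b, φ t = deriv Z t / Z t := fun t ht => by
    rw [hφd]
    simp only [hcx t ht]
  have hI : ∀ x : ℝ, HasDerivAt (fun x : ℝ => ∫ t in (0 : ℝ)..x, φ t) (φ x) x := fun x =>
    intervalIntegral.integral_hasDerivAt_right (hφ.intervalIntegrable _ _)
      (hφ.stronglyMeasurableAtFilter _ _) hφ.continuousAt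
  have hZd : ∀ x : ℝ, HasDerivAt Z (deriv Z x) x := fun x =>
    (hZ.differentiable one_ne_zero x).hasDerivAt
  have hg : ∀ x : ℝ, HasDerivAt (fun x : ℝ => Z x * Complex.exp (-∫ t in (0 : ℝ)..x, φ t))
      (deriv Z x * Complex.exp (-∫ t in (0 : ℝ)..x, φ t) +
        Z x * (Complex.exp (-∫ t in (0 : ℝ)..x, φ t) * (-φ x))) x := fun x =>
    (hZd x).mul ((hI x).neg.cexp)
  have hg0 : ∀ x ∈ Icc (0 : ℝ) b, HasDerivAt (fun x : ℝ => Z x *
      Complex.exp (-∫ t in (0 : ℝ)..x, φ t)) 0 x := fun x hx => by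
    have h1 := hg x
    have h2 : deriv Z x * Complex.exp (-∫ t in (0 : ℝ)..x, φ t) +
        Z x * (Complex.exp (-∫ t in (0 : ℝ)..x, φ t) * (-φ x)) = 0 := by
      rw [hφx x hx]
      have := h0 x hx
      field_simp
      ring
    rwa [h2] at h1
  have hconst := constant_of_has_deriv_right_zero
    (f := fun x : ℝ => Z x * Complex.exp (-∫ t in (0 : ℝ)..x, φ t)) (a := 0) (b := b)
    (fun x hx => (hg x).continuousAt.continuousWithinAt)
    (fun x hx => (hg0 x (Ico_subset_Icc_self hx)).hasDerivWithinAt)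
  have hy' : ∀ x : ℝ, HasDerivAt (fun x : ℝ => y0 * Complex.exp (1 / 2 * ∫ t in (0 : ℝ)..x, φ t))
      (y0 * (Complex.exp (1 / 2 * ∫ t in (0 : ℝ)..x, φ t) * (1 / 2 * φ x))) x := fun x =>
    (((hI x).const_mul (1 / 2 : ℂ)).cexp).const_mul y0
  refine ⟨fun x => y0 * Complex.exp (1 / 2 * ∫ t in (0 : ℝ)..x, φ t), ?_, ?_⟩
  · simp
  · intro x hx
    have h1 : Z x * Complex.exp (-∫ t in (0 : ℝ)..x, φ t) = Z 0 := by
      have := hconst x hx
      simpa using this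
    have h2 : (y0 * Complex.exp (1 / 2 * ∫ t in (0 : ℝ)..x, φ t)) ^ 2 = Z x := by
      rw [mul_pow, hy, ← h1, ← Complex.exp_nat_mul, mul_assoc, ← Complex.exp_add]
      have h3 : -(∫ t in (0 : ℝ)..x, φ t) + ((2 : ℕ) : ℂ) * (1 / 2 * ∫ t in (0 : ℝ)..x, φ t) = 0 := by
        push_cast
        ring
      rw [h3, Complex.exp_zero, mul_one]
    refine ⟨h2, ?_⟩
    have h3 := hy' x
    have hne : y0 * Complex.exp (1 / 2 * ∫ t in (0 : ℝ)..x, φ t) ≠ 0 := by
      intro h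
      rw [h] at h2
      apply h0 x hx
      rw [← h2]
      norm_num
    have h4 : y0 * (Complex.exp (1 / 2 * ∫ t in (0 : ℝ)..x, φ t) * (1 / 2 * φ x)) =
        deriv Z x / (2 * (y0 * Complex.exp (1 / 2 * ∫ t in (0 : ℝ)..x, φ t))) := by
      rw [hφx x hx, eq_div_iff (mul_ne_zero two_ne_zero hne)]
      have h5 := h0 x hx
      calc y0 * (Complex.exp (1 / 2 * ∫ t in (0 : ℝ)..x, φ t) * (1 / 2 * (deriv Z x / Z x))) *
            (2 * (y0 * Complex.exp (1 / 2 * ∫ t in (0 : ℝ)..x, φ t))) =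
          (y0 * Complex.exp (1 / 2 * ∫ t in (0 : ℝ)..x, φ t)) ^ 2 * (deriv Z x / Z x) := by ring
        _ = deriv Z x := by
          rw [h2]
          field_simp
    rw [h4] at h3
    exact h3

end Pool.Agent.MP_ae5b4e_an_T
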