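import Pool.Agent.Lib.MP_ae5b4e_an_T.GrA

/-!
# POR (iii), N2, section T, block T2a: lower bound along a path
-/

set_option autoImplicit false

noncomputable section

namespace Pool.Agent.MP_ae5b4e_an_T

open Complex Set Filter Topology Metric

/-- One piece. Proof: `gr_branch` (`Z x ≠ 0` by `h1`): `y`. `g x := y x - y0`, `g 0 = 0`, and for `x ∈ [0, b]`
`‖g' x‖ = ‖Z'‖ / (2 ‖y‖) ≤ 2 (S + |Im y|) ≤ 2 ‖g x‖ + 2 (S + |Im y0|)` (`‖y‖ ≥ 1` by `h1`, so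
`max ‖y‖ 1 = ‖y‖`; `|Im y| ≤ |Im y0| + ‖g‖`). `norm_le_gronwallBound_of_norm_deriv_right_le` with
`δ = 0`, `K = 2`, `ε = 2 A`, `A := S + |Im y0|`: `‖g b‖ ≤ gronwallBound 0 2 (2 A) b = A (e^(2b) - 1)`
(`gronwallBound_of_K_ne_0`). So `√‖Z b‖ = ‖y b‖ ≥ ‖y0‖ - A (e^(2b) - 1)`. -/
theorem gr_piece {Z : ℝ → ℂ} (hZ : ContDiff ℝ 1 Z) {S : ℝ}
    (hd : ∀ x : ℝ, 0 ≤ x → ∀ y : ℂ, y ^ 2 = Z x → ‖deriv Z x‖ ≤ 4 * max ‖y‖ 1 * (S + |y.im|))
    {b : ℝ} (hb : 0 ≤ b) (h1 : ∀ x ∈ Icc (0 : ℝ) b, 1 ≤ ‖Z x‖) {y0 : ℂ} (hy : y0 ^ 2 = Z 0) :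
    ‖y0‖ - (S + |y0.im|) * (Real.exp (2 * b) - 1) ≤ √‖Z b‖ := by
  obtain ⟨y, hy0, hyx⟩ := gr_branch hZ hb (fun x hx h => by
    have h2 := h1 x hx
    rw [h, norm_zero] at h2
    linarith) hy
  have hsq : ∀ x ∈ Icc (0 : ℝ) b, ‖y x‖ ^ 2 = ‖Z x‖ := by
    intro x hx
    rw [← norm_pow, (hyx x hx).1]
  have hge : ∀ x ∈ Icc (0 : ℝ) b, 1 ≤ ‖y x‖ := by
    intro x hx
    have h2 := h1 x hx
    rw [← hsq x hx] at h2
    by_contra hcon
    push Not at hcon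
    nlinarith [norm_nonneg (y x)]
  have hder : ∀ x ∈ Icc (0 : ℝ) b, HasDerivAt (fun x => y x - y0) (deriv Z x / (2 * y x)) x :=
    fun x hx => (hyx x hx).2.sub_const y0
  have hgr := norm_le_gronwallBound_of_norm_deriv_right_le (f := fun x => y x - y0)
    (f' := fun x => deriv Z x / (2 * y x)) (δ := 0) (K := 2) (ε := 2 * (S + |y0.im|))
    (a := 0) (b := b) (fun x hx => (hder x hx).continuousAt.continuousWithinAt)
    (fun x hx => (hder x ⟨hx.1, hx.2.le⟩).hasDerivWithinAt) (by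
      rw [hy0, sub_self, norm_zero]) (fun x hx => by
      have hx' : x ∈ Icc (0 : ℝ) b := ⟨hx.1, hx.2.le⟩
      have g1 := hge x hx'
      have g2 := hd x hx.1 (y x) (hyx x hx').1
      rw [max_eq_left g1] at g2
      have g3 : ‖deriv Z x / (2 * y x)‖ ≤ 2 * (S + |(y x).im|) := by
        rw [norm_div, norm_mul, Complex.norm_ofNat, div_le_iff₀ (by positivity)]
        linarith
      have g4 : |(y x).im| ≤ |y0.im| + ‖y x - y0‖ := by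
        have g5 := abs_im_le_norm (y x - y0)
        rw [sub_im] at g5
        have g6 := abs_add_le y0.im ((y x).im - y0.im)
        rw [add_sub_cancel] at g6
        linarith
      linarith) b ⟨hb, le_rfl⟩
  rw [gronwallBound_of_K_ne_0 (by norm_num : (2 : ℝ) ≠ 0)] at hgr
  beta_reduce at hgr
  have e1 : (0 : ℝ) * Real.exp (2 * (b - 0)) + 2 * (S + |y0.im|) / 2 *
      (Real.exp (2 * (b - 0)) - 1) = (S + |y0.im|) * (Real.exp (2 * b) - 1) := by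
    rw [sub_zero]
    ring
  rw [e1] at hgr
  have e2 : √‖Z b‖ = ‖y b‖ := by
    rw [← hsq b ⟨hb, le_rfl⟩, Real.sqrt_sq (norm_nonneg _)]
  rw [e2]
  have e3 := norm_sub_norm_le y0 (y0 - y b)
  rw [sub_sub_cancel, norm_sub_rev] at e3
  linarith

/-- (2.5). Proof: `A := S + |Im y0| ≥ 0`. Claim: `1 ≤ ‖Z x‖` for all `x ∈ [0, b]`; then `gr_piece`. If not,
let `x1` be the infimum of `{x ∈ [0, b] | ‖Z x‖ ≤ 1}` (nonempty, closed): `‖Z x1‖ ≤ 1` and `1 ≤ ‖Z x‖` on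
`[0, x1]` (by continuity also at `x1`; `‖Z 0‖ = ‖y0‖ ^ 2 > 1` by `hx`, as `A (e^(2b) - 1) ≥ 0`).
`gr_piece` on `[0, x1]`: `1 ≥ √‖Z x1‖ ≥ ‖y0‖ - A (e^(2 x1) - 1) ≥ ‖y0‖ - A (e^(2b) - 1) > 1`. -/
theorem gr_low {Z : ℝ → ℂ} (hZ : ContDiff ℝ 1 Z) {S : ℝ} (hS : 0 ≤ S)
    (hd : ∀ x : ℝ, 0 ≤ x → ∀ y : ℂ, y ^ 2 = Z x → ‖deriv Z x‖ ≤ 4 * max ‖y‖ 1 * (S + |y.im|))
    {b : ℝ} (hb : 0 ≤ b) {y0 : ℂ} (hy : y0 ^ 2 = Z 0)
    (hx : (S + |y0.im|) * (Real.exp (2 * b) - 1) < ‖y0‖ - 1) :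
    ‖y0‖ - (S + |y0.im|) * (Real.exp (2 * b) - 1) ≤ √‖Z b‖ := by
  have hA : 0 ≤ S + |y0.im| := by positivity
  have hexp : ∀ x : ℝ, 0 ≤ x → 0 ≤ Real.exp (2 * x) - 1 := by
    intro x h0
    have := Real.one_le_exp (by linarith : (0 : ℝ) ≤ 2 * x)
    linarith
  have hy1 : 1 < ‖y0‖ := by
    have := mul_nonneg hA (hexp b hb)
    linarith
  have hZ0 : 1 < ‖Z 0‖ := by
    rw [← hy, norm_pow]
    nlinarith
  by_cases hall : ∀ x ∈ Icc (0 : ℝ) b, 1 ≤ ‖Z x‖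
  · exact gr_piece hZ hd hb hall hy
  exfalso
  push Not at hall
  obtain ⟨x2, hx2, hx2'⟩ := hall
  have hcont : Continuous fun x => ‖Z x‖ := hZ.continuous.norm
  have hcomp : IsCompact (Icc (0 : ℝ) b ∩ {x | ‖Z x‖ ≤ 1}) :=
    isCompact_Icc.inter_right (isClosed_le hcont continuous_const)
  obtain ⟨x1, ⟨hx1, hx1'⟩, hmin⟩ := hcomp.exists_isLeast ⟨x2, hx2, hx2'.le⟩
  have hx1le : ‖Z x1‖ ≤ 1 := hx1'
  have hpos : 0 < x1 := by
    rcases hx1.1.lt_or_eq with h | h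
    · exact h
    · rw [← h] at hx1le
      linarith
  have hone : 1 ≤ ‖Z x1‖ := by
    by_contra hcon
    push Not at hcon
    have hopen : IsOpen {x | ‖Z x‖ < 1} := isOpen_lt hcont continuous_const
    obtain ⟨ε, hε, hball⟩ := Metric.isOpen_iff.1 hopen x1 hcon
    have h2 : max 0 (x1 - ε / 2) ∈ ball x1 ε := by
      rw [mem_ball, Real.dist_eq, abs_lt]
      constructor
      · have := le_max_right 0 (x1 - ε / 2)
        linarith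
      · have : max 0 (x1 - ε / 2) ≤ x1 := max_le hpos.le (by linarith)
        linarith
    have h3 : ‖Z (max 0 (x1 - ε / 2))‖ < 1 := hball h2
    have h4 : max 0 (x1 - ε / 2) < x1 := max_lt hpos (by linarith)
    have h5 := hmin ⟨⟨le_max_left _ _, h4.le.trans hx1.2⟩, h3.le⟩
    linarith
  have hp := gr_piece hZ hd hx1.1 (fun x hx => by
    by_contra hcon
    push Not at hcon
    rcases hx.2.lt_or_eq with h | h
    · have h5 := hmin ⟨⟨hx.1, hx.2.trans hx1.2⟩, hcon.le⟩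
      linarith
    · rw [h] at hcon
      linarith) hy
  have h6 : √‖Z x1‖ ≤ 1 := by
    rw [Real.sqrt_le_one]
    exact hx1le
  have h7 : Real.exp (2 * x1) ≤ Real.exp (2 * b) := Real.exp_le_exp.2 (by linarith [hx1.2])
  have h8 := mul_le_mul_of_nonneg_left (sub_le_sub_right h7 1) hA
  linarith

end Pool.Agent.MP_ae5b4e_an_T
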