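import Pool.Agent.Lib.MP_ae5b4e_an_T.GrE

/-!
# POR (iii), N2, section T, block T2b: interior labels; preliminaries
-/

set_option autoImplicit false

noncomputable section

namespace Pool.Agent.MP_ae5b4e_an_T

open Complex Set Filter Topology Metric
open Pool.Agent.MP_ae5b4e_an_WB
open Pool.Agent.MP_ae5b4e_an_M (S1 C1f Gf)

/-- Proof: `r := min (1 / 2) (kap / (2 C))`. `ball l 1` is contained in depth `≥ 2`, there `‖q‖ ≤ C / 4`, so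
`‖q z - q l‖ ≤ C / 2`; `Complex.dist_le_div_mul_dist_of_mapsTo_ball` (or the version for closed balls; as in
`ball_Gs` of Bxb.lean): `‖q z - q l‖ ≤ C ‖z - l‖ < C r ≤ kap / 2`. -/
theorem q_ball {C kap : ℝ} (hC : 0 < C) (hk : 0 < kap) : ∃ r : ℝ, 0 < r ∧ ∀ q : ℂ → ℂ,
    DifferentiableOn ℂ q Hm → (∀ z : ℂ, 2 ≤ -z.im → ‖q z‖ ≤ C / z.im ^ 2) →
      ∀ l : ℂ, 3 ≤ -l.im → kap ≤ ‖q l‖ → ∀ z ∈ ball l r, kap / 2 ≤ ‖q z‖ := by
  obtain ⟨r, hr⟩ : ∃ r : ℝ, r = min (1 / 2) (kap / (2 * C)) := ⟨_, rfl⟩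
  have hr0 : 0 < r := by rw [hr]; exact lt_min (by norm_num) (by positivity)
  have hr1 : r ≤ 1 / 2 := by rw [hr]; exact min_le_left _ _
  have hr2 : r ≤ kap / (2 * C) := by rw [hr]; exact min_le_right _ _
  refine ⟨r, hr0, ?_⟩
  intro q hq hqb l hl hkl z hz
  have hzr : ‖z - l‖ < r := by rwa [mem_ball, dist_eq_norm] at hz
  have hdep : ∀ w ∈ ball l 1, 2 ≤ -w.im := by
    intro w hw
    rw [mem_ball, dist_eq_norm] at hw
    have h3 := Complex.abs_im_le_norm (w - l)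
    rw [Complex.sub_im] at h3
    have h4 := abs_le.1 (h3.trans hw.le)
    linarith [h4.2]
  have hqd : DifferentiableOn ℂ q (ball l 1) := hq.mono fun w hw => by
    have := hdep w hw
    change w.im < 0
    linarith
  have hqbd : ∀ w ∈ ball l 1, ‖q w‖ ≤ C / 4 := by
    intro w hw
    have h3 := hdep w hw
    refine (hqb w h3).trans ?_
    have h4 : (4:ℝ) ≤ w.im ^ 2 := by nlinarith
    exact div_le_div_of_nonneg_left hC.le (by norm_num) h4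
  have hder : ∀ w ∈ ball l (1 / 2), ‖deriv q w‖ ≤ C := by
    intro w hw
    rw [mem_ball] at hw
    have hcb : ∀ u ∈ closedBall w (1 / 4), u ∈ ball l 1 := by
      intro u hu
      rw [mem_closedBall] at hu
      rw [mem_ball]
      linarith [dist_triangle u w l]
    have h3 := Complex.norm_deriv_le_of_forall_mem_sphere_norm_le (by norm_num : (0:ℝ) < 1 / 4)
      (hqd.diffContOnCl_ball hcb) fun u hu => hqbd u (hcb u (sphere_subset_closedBall hu))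
    refine h3.trans (le_of_eq ?_)
    ring
  have hlip : ‖q z - q l‖ ≤ C * ‖z - l‖ := by
    have hsub : ball l (1 / 2) ⊆ ball l 1 := ball_subset_ball (by norm_num)
    exact (convex_ball l (1 / 2)).norm_image_sub_le_of_norm_deriv_le
      (fun w hw => (hqd w (hsub hw)).differentiableAt (isOpen_ball.mem_nhds (hsub hw))) hder
      (mem_ball_self (by norm_num)) (ball_subset_ball hr1 hz)
  have h5 : C * ‖z - l‖ ≤ kap / 2 := by
    calc C * ‖z - l‖ ≤ C * (kap / (2 * C)) :=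
          mul_le_mul_of_nonneg_left (hzr.le.trans hr2) hC.le
      _ = kap / 2 := by field_simp
  have h6 : ‖q l‖ ≤ ‖q z‖ + ‖q z - q l‖ := by
    have h7 : q l = q z - (q z - q l) := by ring
    calc ‖q l‖ = ‖q z - (q z - q l)‖ := by rw [← h7]
      _ ≤ ‖q z‖ + ‖q z - q l‖ := norm_sub_le _ _
  linarith

/-- Proof: `C'` from `grow hC (c := ‖tipc‖)` (`tipc ≠ 0`); `K1 ≥ 1` with `K1² kap / 2 ≥ 2 ‖tipc‖`. For `γ ≥ K1`
`‖γ² q (f τ) - tipc‖ ≥ γ² kap / 2 - ‖tipc‖ ≥ ‖tipc‖`. Let `y² = Xf q γ f τ` (a square root exists: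
`IsSquare`, `Complex.cpow` or `IsAlgClosed.exists_pow_nat_eq`). `y_spec`: `f' = y / G y`,
`‖G y‖² = γ² ‖q‖ ≥ γ² kap / 2`; `grow`: `‖y‖ ≤ C' (1 + γ / t⁴)^(3/4)`. So
`‖f'‖ t³ ≤ C' (t⁴ + γ)^(3/4) / (γ √(kap / 2)) ≤ C' (17 γ)^(3/4) / (γ √(kap / 2))` (`t ≤ 2`, `γ ≥ 1`;
`t³ = (t⁴)^(3/4)`). `B := C' 17^(3/4) / √(kap / 2)`. -/
theorem f_speed {C kap : ℝ} (hC : 0 < C) (hk : 0 < kap) : ∃ B K1 : ℝ, 0 < B ∧ 1 ≤ K1 ∧
    ∀ (q : ℂ → ℂ) (γ v : ℝ) (f : ℂ → ℂ), Sl q C γ v f → K1 ≤ γ → ∀ τ ∈ Hp v,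
      (∀ s : ℝ, 0 ≤ s → 2 ≤ -(f (τ - I * s)).im) → kap / 2 ≤ ‖q (f τ)‖ →
        ∀ t : ℝ, 0 < t → t ≤ 2 → -v - τ.im = t ^ 4 →
          ‖deriv f τ‖ * t ^ 3 ≤ B * γ ^ (-(1 / 4) : ℝ) := by
  have htip : 0 < ‖tipc‖ := by
    rw [norm_pos_iff]
    unfold tipc
    rw [neg_ne_zero, Ne, Complex.ofReal_eq_zero]
    positivity
  obtain ⟨C', hC', hgC⟩ := grow hC htip
  obtain ⟨K1, hK1⟩ : ∃ K1 : ℝ, K1 = 1 + 4 * ‖tipc‖ / kap := ⟨_, rfl⟩
  have hK1a : 1 ≤ K1 := by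
    rw [hK1]
    have : 0 ≤ 4 * ‖tipc‖ / kap := by positivity
    linarith
  have hK1b : 2 * ‖tipc‖ ≤ K1 ^ 2 * (kap / 2) := by
    have e1 : 4 * ‖tipc‖ / kap ≤ K1 ^ 2 := by
      have : 4 * ‖tipc‖ / kap ≤ K1 := by
        rw [hK1]
        linarith
      nlinarith
    rw [div_le_iff₀ hk] at e1
    linarith
  refine ⟨C' * 17 ^ (3 / 4 : ℝ) / √(kap / 2), K1, by positivity, hK1a, ?_⟩
  intro q γ v f hS hγ τ hτ hdeep hqk t ht ht2 htd
  have hγ1 : 1 ≤ γ := hK1a.trans hγ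
  have hγ0 : 0 < γ := by linarith
  have hk2 : 0 < kap / 2 := by linarith
  have hq0 : q (f τ) ≠ 0 := by
    intro h
    rw [h, norm_zero] at hqk
    linarith
  have hcc : ‖tipc‖ ≤ ‖(γ : ℂ) ^ 2 * q (f τ) - tipc‖ := by
    have e1 : ‖(γ : ℂ) ^ 2 * q (f τ)‖ = γ ^ 2 * ‖q (f τ)‖ := by
      rw [norm_mul, norm_pow, Complex.norm_real, Real.norm_of_nonneg hγ0.le]
    have e2 : K1 ^ 2 * (kap / 2) ≤ γ ^ 2 * ‖q (f τ)‖ := by
      refine mul_le_mul ?_ hqk hk2.le (by positivity)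
      exact pow_le_pow_left₀ (by linarith) hγ 2
    have e3 := norm_sub_norm_le ((γ : ℂ) ^ 2 * q (f τ)) tipc
    rw [e1] at e3
    linarith
  obtain ⟨y, hy⟩ := IsAlgClosed.exists_pow_nat_eq (Xf q γ f τ) zero_lt_two
  have hb := hgC q γ v f hS hγ1 τ hτ hdeep hq0 hcc y hy
  rw [htd] at hb
  have ht4 : 0 < t ^ 4 := by positivity
  have ht3 : 0 < t ^ 3 := by positivity
  have hpow : (1 + γ / t ^ 4) ^ (3 / 4 : ℝ) ≤ 17 ^ (3 / 4 : ℝ) * γ ^ (3 / 4 : ℝ) / t ^ 3 := by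
    have e1 : 1 + γ / t ^ 4 ≤ 17 * γ / t ^ 4 := by
      have e0 : 1 + γ / t ^ 4 = (t ^ 4 + γ) / t ^ 4 := by field_simp
      rw [e0]
      refine div_le_div_of_nonneg_right ?_ ht4.le
      have e2 : t ^ 4 ≤ 2 ^ 4 := pow_le_pow_left₀ ht.le ht2 4
      linarith
    have e4 : (t ^ 4) ^ (3 / 4 : ℝ) = t ^ 3 := by
      rw [← Real.rpow_natCast t 4, ← Real.rpow_mul ht.le, ← Real.rpow_natCast t 3]
      norm_num
    calc (1 + γ / t ^ 4) ^ (3 / 4 : ℝ) ≤ (17 * γ / t ^ 4) ^ (3 / 4 : ℝ) :=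
          Real.rpow_le_rpow (by positivity) e1 (by norm_num)
      _ = 17 ^ (3 / 4 : ℝ) * γ ^ (3 / 4 : ℝ) / t ^ 3 := by
          rw [Real.div_rpow (by positivity) ht4.le, e4, Real.mul_rpow (by norm_num) hγ0.le]
  have hy2 : ‖y‖ ^ 2 = ‖q (f τ)‖ * (γ * ‖deriv f τ‖) ^ 2 := by
    rw [← norm_pow, hy]
    unfold Xf
    rw [norm_mul, norm_pow, norm_mul, Complex.norm_real, Real.norm_of_nonneg hγ0.le]
  have hse : 0 < √(kap / 2) := Real.sqrt_pos.2 hk2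
  have hsq : √(kap / 2) * (γ * ‖deriv f τ‖) ≤ ‖y‖ := by
    have h3 : (√(kap / 2) * (γ * ‖deriv f τ‖)) ^ 2 ≤ ‖y‖ ^ 2 := by
      rw [mul_pow, Real.sq_sqrt hk2.le, hy2]
      exact mul_le_mul_of_nonneg_right hqk (by positivity)
    exact le_of_sq_le_sq h3 (norm_nonneg _)
  have hγp : γ * γ ^ (-(1 / 4) : ℝ) = γ ^ (3 / 4 : ℝ) := by
    calc γ * γ ^ (-(1 / 4) : ℝ) = γ ^ (1 : ℝ) * γ ^ (-(1 / 4) : ℝ) := by rw [Real.rpow_one]
      _ = γ ^ (3 / 4 : ℝ) := by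
          rw [← Real.rpow_add hγ0]
          norm_num
  have hfin : √(kap / 2) * (γ * ‖deriv f τ‖) * t ^ 3 ≤
      C' * (17 ^ (3 / 4 : ℝ) * (γ * γ ^ (-(1 / 4) : ℝ))) := by
    rw [hγp]
    calc √(kap / 2) * (γ * ‖deriv f τ‖) * t ^ 3
        ≤ (C' * (17 ^ (3 / 4 : ℝ) * γ ^ (3 / 4 : ℝ) / t ^ 3)) * t ^ 3 := by
          refine mul_le_mul_of_nonneg_right (hsq.trans (hb.trans ?_)) ht3.le
          exact mul_le_mul_of_nonneg_left hpow hC'.le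
      _ = C' * (17 ^ (3 / 4 : ℝ) * γ ^ (3 / 4 : ℝ)) := by field_simp
  have hfin2 : (‖deriv f τ‖ * t ^ 3) * (√(kap / 2) * γ) ≤
      (C' * 17 ^ (3 / 4 : ℝ) / √(kap / 2) * γ ^ (-(1 / 4) : ℝ)) * (√(kap / 2) * γ) := by
    calc (‖deriv f τ‖ * t ^ 3) * (√(kap / 2) * γ)
        = √(kap / 2) * (γ * ‖deriv f τ‖) * t ^ 3 := by ring
      _ ≤ C' * (17 ^ (3 / 4 : ℝ) * (γ * γ ^ (-(1 / 4) : ℝ))) := hfin
      _ = _ := by
          field_simp
  exact le_of_mul_le_mul_right hfin2 (by positivity)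

/-- First and last times. Proof: `sb := sSup {s | 0 ≤ s ∧ g s ≤ 3}` (contains `0`, bounded by `3`, closed),
`g sb = 3` (`g sb ≤ 3` by closedness; `≥` because `g > 3` just after), `g > 3` on `(sb, oo)`;
`sa := sInf {s | sb ≤ s ∧ 4 ≤ g s}` (nonempty: `s = sb + 4`, closed): `g sa = 4`, and `g < 4` before. -/
theorem times {g : ℝ → ℝ} {d1 : ℝ} (hd : 0 < d1) (hc : ContinuousOn g (Ici 0))
    (hg : ∀ s : ℝ, 0 ≤ s → d1 + s ≤ g s) (h0 : g 0 < 3) :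
    ∃ sb sa : ℝ, 0 ≤ sb ∧ sb < sa ∧ g sb = 3 ∧ g sa = 4 ∧ (∀ s ∈ Icc sb sa, g s ≤ 4) ∧
      ∀ s : ℝ, sb ≤ s → 3 ≤ g s := by
  obtain ⟨A, hA⟩ : ∃ A : Set ℝ, A = {s : ℝ | 0 ≤ s ∧ g s ≤ 3} := ⟨_, rfl⟩
  have hAc : IsClosed A := by
    rw [hA]
    exact hc.preimage_isClosed_of_isClosed isClosed_Ici isClosed_Iic
  have hA0 : (0 : ℝ) ∈ A := by
    rw [hA]
    exact ⟨le_rfl, h0.le⟩
  have hAb : BddAbove A := by
    refine ⟨3, ?_⟩
    intro s hs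
    rw [hA] at hs
    have := hg s hs.1
    linarith [hs.2]
  have hsb := hAc.csSup_mem ⟨0, hA0⟩ hAb
  have hsbl : ∀ s, sSup A < s → 3 < g s := by
    intro s hs
    by_contra hn
    have h1 : 0 ≤ sSup A := le_csSup hAb hA0
    have h2 : s ∈ A := by
      rw [hA]
      exact ⟨by linarith, not_lt.1 hn⟩
    exact absurd (le_csSup hAb h2) (not_le.2 hs)
  obtain ⟨sb, hsbe⟩ : ∃ sb, sb = sSup A := ⟨_, rfl⟩
  rw [← hsbe] at hsb hsbl
  rw [hA] at hsb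
  obtain ⟨hb0, hb3⟩ := hsb
  have hgb : g sb = 3 := by
    refine le_antisymm hb3 ?_
    have h1 : Tendsto g (𝓝[>] sb) (𝓝 (g sb)) :=
      ((hc sb hb0).mono fun s hs => hb0.trans (le_of_lt hs)).tendsto
    refine ge_of_tendsto h1 ?_
    filter_upwards [self_mem_nhdsWithin] with s hs
    exact (hsbl s hs).le
  obtain ⟨B, hB⟩ : ∃ B : Set ℝ, B = {s : ℝ | sb ≤ s ∧ 4 ≤ g s} := ⟨_, rfl⟩
  have hcb : ContinuousOn g (Ici sb) := hc.mono (Ici_subset_Ici.2 hb0)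
  have hBc : IsClosed B := by
    rw [hB]
    exact hcb.preimage_isClosed_of_isClosed isClosed_Ici isClosed_Ici
  have hBn : B.Nonempty := by
    refine ⟨sb + 4, ?_⟩
    rw [hB]
    have := hg (sb + 4) (by linarith)
    exact ⟨by linarith, by linarith⟩
  have hBb : BddBelow B := by
    refine ⟨sb, ?_⟩
    intro s hs
    rw [hB] at hs
    exact hs.1
  have hsa := hBc.csInf_mem hBn hBb
  have hsal : ∀ s, sb ≤ s → s < sInf B → g s < 4 := by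
    intro s hs1 hs2
    by_contra hn
    have h2 : s ∈ B := by
      rw [hB]
      exact ⟨hs1, not_lt.1 hn⟩
    exact absurd (csInf_le hBb h2) (not_le.2 hs2)
  obtain ⟨sa, hsae⟩ : ∃ sa, sa = sInf B := ⟨_, rfl⟩
  rw [← hsae] at hsa hsal
  rw [hB] at hsa
  obtain ⟨ha1, ha4⟩ := hsa
  have hlt : sb < sa := by
    rcases ha1.lt_or_eq with h | h
    · exact h
    · rw [← h, hgb] at ha4
      norm_num at ha4
  have hga : g sa = 4 := by
    refine le_antisymm ?_ ha4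
    have h1 : Tendsto g (𝓝[Ico sb sa] sa) (𝓝 (g sa)) :=
      ((hc sa (hb0.trans ha1)).mono fun s hs => hb0.trans hs.1).tendsto
    have h2 : (𝓝[Ico sb sa] sa).NeBot := by
      rw [nhdsWithin_Ico_eq_nhdsLT hlt]
      infer_instance
    refine le_of_tendsto h1 ?_
    filter_upwards [self_mem_nhdsWithin] with s hs
    exact (hsal s hs.1 hs.2).le
  refine ⟨sb, sa, hb0, hlt, hgb, hga, ?_, ?_⟩
  · intro s hs
    rcases hs.2.lt_or_eq with h | h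
    · exact (hsal s hs.1 h).le
    · rw [h, hga]
  · intro s hs
    rcases hs.lt_or_eq with h | h
    · exact (hsbl s h).le
    · rw [← h, hgb]

end Pool.Agent.MP_ae5b4e_an_T
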