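import Pool.Agent.Lib.MP_ae5b4e_an_T.Defs

/-!
# POR (iii), N2, section T, block T5: regular points near a regular point or a slit neighbourhood
-/

noncomputable section

namespace Pool.Agent.MP_ae5b4e_an_T

open Complex Set Filter Topology Metric
open Pool.Agent.MP_ae5b4e_an_WB
open Pool.Agent.MP_ae5b4e_an_WD

theorem line_sub (v x x' : ℝ) : ((x' : ℂ) - v * I) - ((x : ℂ) - v * I) = ((x' - x : ℝ) : ℂ) := by
  push_cast
  ring

theorem norm_line_sub (v x x' : ℝ) : ‖((x' : ℂ) - v * I) - ((x : ℂ) - v * I)‖ = |x' - x| := by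
  rw [line_sub, Complex.norm_real, Real.norm_eq_abs]

/-- regularity is an open condition on the line -/
theorem RgN.near {vi : ℂ → ℝ} {L : ℂ × ℂ → ℂ} {γ x : ℝ}
    (h : RgN vi L γ ((x : ℂ) - vi γ * I)) :
    ∃ ε : ℝ, 0 < ε ∧ ∀ x' : ℝ, |x' - x| < ε → RgN vi L γ ((x' : ℂ) - vi γ * I) := by
  obtain ⟨ρ, hρ, Λ, h1, h2, h3⟩ := h
  refine ⟨ρ / 2, by linarith, fun x' hx' => ?_⟩
  have hsub : ball ((x' : ℂ) - vi γ * I) (ρ / 2) ×ˢ ball (γ : ℂ) (ρ / 2) ⊆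
      ball ((x : ℂ) - vi γ * I) ρ ×ˢ ball (γ : ℂ) ρ := by
    rintro ⟨a, b⟩ ⟨ha, hb⟩
    refine ⟨?_, ball_subset_ball (by linarith) hb⟩
    have h4 : dist ((x' : ℂ) - vi γ * I) ((x : ℂ) - vi γ * I) < ρ / 2 := by
      rw [dist_eq_norm, norm_line_sub]
      exact hx'
    have h5 : dist a ((x' : ℂ) - vi γ * I) < ρ / 2 := ha
    have h6 := dist_triangle a ((x' : ℂ) - vi γ * I) ((x : ℂ) - vi γ * I)
    show dist a _ < ρ
    linarith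
  exact ⟨ρ / 2, by linarith, Λ, h1.mono hsub, fun p hp => h2 p (hsub hp),
    fun p hp => h3 p (hsub hp)⟩

/-- in a slit neighbourhood all other points of the line are regular -/
theorem SlN.near {vi : ℂ → ℝ} {L : ℂ × ℂ → ℂ} {γ x : ℝ} {Tb : ℂ → ℂ} {R ρ : ℝ} {Λ : ℂ × ℂ → ℂ}
    (h : SlN vi L γ ((x : ℂ) - vi γ * I) Tb R ρ Λ) :
    ∃ ε : ℝ, 0 < ε ∧ ∀ x' : ℝ, |x' - x| < ε → x' ≠ x → RgN vi L γ ((x' : ℂ) - vi γ * I) := by
  have hR : 0 < R := h.pos.trans_le h.le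
  refine ⟨R / 2, by linarith, fun x' hx' hne => ?_⟩
  have hd : 0 < |x' - x| := abs_pos.2 (sub_ne_zero.2 hne)
  obtain ⟨d, hdd⟩ : ∃ d, d = |x' - x| / 2 := ⟨_, rfl⟩
  have hd0 : 0 < d := by rw [hdd]; linarith
  have hTc : ContinuousAt Tb (γ : ℂ) := (h.Tan _ (mem_ball_self h.pos)).continuousAt
  obtain ⟨δ, hδ, hT⟩ := Metric.continuousAt_iff.1 hTc d hd0
  obtain ⟨ρ', hρ'⟩ : ∃ ρ', ρ' = min d (min δ ρ) := ⟨_, rfl⟩
  have hρ0 : 0 < ρ' := by rw [hρ']; exact lt_min hd0 (lt_min hδ h.pos)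
  have hρd : ρ' ≤ d := by rw [hρ']; exact min_le_left _ _
  have hρδ : ρ' ≤ δ := by rw [hρ']; exact (min_le_right _ _).trans (min_le_left _ _)
  have hρρ : ρ' ≤ ρ := by rw [hρ']; exact (min_le_right _ _).trans (min_le_right _ _)
  have hsub : ball ((x' : ℂ) - vi γ * I) ρ' ×ˢ ball (γ : ℂ) ρ' ⊆
      Slb Tb ((x : ℂ) - vi γ * I) γ R ρ := by
    rintro ⟨a, b⟩ ⟨ha, hb⟩
    have h4 : dist ((x' : ℂ) - vi γ * I) ((x : ℂ) - vi γ * I) = |x' - x| := by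
      rw [dist_eq_norm, norm_line_sub]
    have h5 : dist a ((x' : ℂ) - vi γ * I) < ρ' := ha
    have h6 := dist_triangle a ((x' : ℂ) - vi γ * I) ((x : ℂ) - vi γ * I)
    have h7 : dist b (γ : ℂ) < ρ' := hb
    refine ⟨⟨?_, ball_subset_ball hρρ hb⟩, fun hc => ?_⟩
    · show dist a _ < R
      linarith
    · have h8 := hT (h7.trans_le hρδ)
      rw [h.T0, dist_eq_norm] at h8
      have h9 := (abs_re_le_norm (Tb b - ((x : ℂ) - vi γ * I))).trans_lt h8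
      have h10 : ‖a - ((x' : ℂ) - vi γ * I)‖ < ρ' := by rw [← dist_eq_norm]; exact h5
      have h11 := (abs_re_le_norm (a - ((x' : ℂ) - vi γ * I))).trans_lt h10
      have e1 : (Tb b - ((x : ℂ) - vi γ * I)).re = (Tb b).re - x := by simp
      have e2 : (a - ((x' : ℂ) - vi γ * I)).re = a.re - x' := by simp
      rw [e1] at h9
      rw [e2] at h11
      have h12 : a.re = (Tb b).re := hc.1
      rw [h12] at h11
      have h13 : |x' - x| ≤ |(Tb b).re - x| + |(Tb b).re - x'| := by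
        rw [abs_sub_comm (Tb b).re x']
        have h14 := abs_sub_le x' (Tb b).re x
        linarith
      linarith
  exact ⟨ρ', hρ0, Λ, h.an.mono hsub, fun p hp => h.im p (hsub hp), fun p hp => h.eq p (hsub hp)⟩

/-- a good point of the line: regular or with a slit neighbourhood -/
def Gpt (vi : ℂ → ℝ) (L : ℂ × ℂ → ℂ) (γ x : ℝ) (Pr : (ℂ → ℂ) → Prop) : Prop :=
  RgN vi L γ ((x : ℂ) - vi γ * I) ∨ ∃ (Tb : ℂ → ℂ) (R ρ : ℝ) (Λ : ℂ × ℂ → ℂ),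
    SlN vi L γ ((x : ℂ) - vi γ * I) Tb R ρ Λ ∧ Pr Tb

theorem Gpt.near {vi : ℂ → ℝ} {L : ℂ × ℂ → ℂ} {γ x : ℝ} {Pr : (ℂ → ℂ) → Prop}
    (h : Gpt vi L γ x Pr) :
    ∃ ε : ℝ, 0 < ε ∧ ∀ x' : ℝ, |x' - x| < ε → x' ≠ x → RgN vi L γ ((x' : ℂ) - vi γ * I) := by
  rcases h with h | ⟨Tb, R, ρ, Λ, h, -⟩
  · obtain ⟨ε, h1, h2⟩ := h.near
    exact ⟨ε, h1, fun x' hx' _ => h2 x' hx'⟩
  · exact h.near

/-- the singular points of a compact stretch of good points are finitely many -/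
theorem finite_sing {vi : ℂ → ℝ} {L : ℂ × ℂ → ℂ} {γ : ℝ} {Pr : ℝ → (ℂ → ℂ) → Prop} {x₁ x₂ : ℝ}
    (h : ∀ x ∈ Icc x₁ x₂, Gpt vi L γ x (Pr x)) :
    {x | x ∈ Icc x₁ x₂ ∧ ¬ RgN vi L γ ((x : ℂ) - vi γ * I)}.Finite := by
  choose! ε hε hn using fun x (hx : x ∈ Icc x₁ x₂) => (h x hx).near
  obtain ⟨t, ht, hcov⟩ := (isCompact_Icc (a := x₁) (b := x₂)).elim_nhds_subcover
    (fun x => ball x (ε x)) (fun x hx => ball_mem_nhds x (hε x hx))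
  refine t.finite_toSet.subset ?_
  rintro x ⟨hx, hx'⟩
  obtain ⟨y, hy, hxy⟩ := mem_iUnion₂.1 (hcov hx)
  by_contra hc
  refine hx' (hn y (ht y hy) x ?_ ?_)
  · rwa [mem_ball, Real.dist_eq] at hxy
  · rintro rfl
    exact hc hy

end Pool.Agent.MP_ae5b4e_an_T
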