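import Pool.Agent.Lib.MP_ae5b4e_an_T.Glue

/-!
# POR (iii), N2, section T: near a branch point the continuation of the stretch is the local one
-/

noncomputable section

namespace Pool.Agent.MP_ae5b4e_an_T

open Complex Set Filter Topology Metric
open Pool.Agent.MP_ae5b4e_an_WB
open Pool.Agent.MP_ae5b4e_an_WD
open Pool.Agent.MP_ae5b4e_an_A1 (SB Sd Slt Geom_mono)

/-- a small slit box about the branch point lies in the slit box of the stretch -/
theorem slb_SB {vi Vm : ℂ → ℝ} {γ r x₁ x₂ b : ℝ} {P : ℕ} {Tb : ℕ → ℂ → ℂ} {X : ℕ → ℝ}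
    (hSd : Sd vi Vm γ r x₁ x₂ (vi γ) b P Tb X) {i : ℕ} (hi : i < P) :
    ∃ r' : ℝ, 0 < r' ∧ r' ≤ r ∧ ∀ p : ℂ × ℂ, |p.1.re - (Tb (i + 1) γ).re| < r' →
      |p.1.im + vi γ| < r' → p.2 ∈ ball (γ : ℂ) r' →
      ¬(p.1.re = (Tb (i + 1) p.2).re ∧ (Tb (i + 1) p.2).im ≤ p.1.im) →
        p ∈ SB γ r x₁ x₂ (vi γ) b P Tb := by
  obtain ⟨x, hx⟩ : ∃ x : ℝ, x = (Tb (i + 1) γ).re := ⟨_, rfl⟩
  have hxl : x₁ < x := by
    rw [hx]
    exact (hSd.X_l.trans_le (Geom_mono hSd (Nat.zero_le i) hi.le)).trans (hSd.Tb_l i hi)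
  have hxr : x < x₂ := by
    rw [hx]
    exact ((hSd.Tb_r i hi).trans_le (Geom_mono hSd (show i + 1 ≤ P from hi) le_rfl)).trans hSd.X_r
  -- the other slits
  have hne : ∀ j < P, j ≠ i → (Tb (j + 1) γ).re ≠ x := by
    intro j hj hji
    rw [hx]
    rcases lt_or_gt_of_ne hji with h1 | h1
    · exact ((hSd.Tb_r j hj).trans_le ((Geom_mono hSd (show j + 1 ≤ i from h1) hi.le).trans
        (hSd.Tb_l i hi).le)).ne
    · exact ((hSd.Tb_r i hi).trans_le ((Geom_mono hSd (show i + 1 ≤ j from h1) hj.le).trans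
        (hSd.Tb_l j hj).le)).ne'
  have hγr : (γ : ℂ) ∈ ball (γ : ℂ) r := mem_ball_self hSd.r_pos
  have hex : ∀ j : ℕ, ∃ d : ℝ, 0 < d ∧ (j < P → j ≠ i → ∀ g ∈ ball (γ : ℂ) d,
      ∀ s : ℝ, |s - x| < d → s ≠ (Tb (j + 1) g).re) := by
    intro j
    by_cases hj : j < P ∧ j ≠ i
    · obtain ⟨hj, hji⟩ := hj
      have hd : 0 < |(Tb (j + 1) γ).re - x| := abs_pos.2 (sub_ne_zero.2 (hne j hj hji))
      have hc : ContinuousAt (fun g : ℂ => (Tb (j + 1) g).re) (γ : ℂ) :=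
        continuous_re.continuousAt.comp
          ((hSd.Tb_cont j hj).continuousAt (isOpen_ball.mem_nhds hγr))
      obtain ⟨d, hd0, hd1⟩ := Metric.continuousAt_iff.1 hc _ (half_pos hd)
      refine ⟨min d (|(Tb (j + 1) γ).re - x| / 2), lt_min hd0 (half_pos hd), fun _ _ g hg s hs he => ?_⟩
      have h1 := hd1 (lt_of_lt_of_le (mem_ball.1 hg) (min_le_left _ _))
      rw [Real.dist_eq] at h1
      have h2 := hs.trans_le (min_le_right _ _)
      rw [he] at h2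
      have h3 := abs_sub_le (Tb (j + 1) γ).re (Tb (j + 1) g).re x
      rw [abs_sub_comm (Tb (j + 1) γ).re (Tb (j + 1) g).re] at h3
      linarith
    · exact ⟨1, one_pos, fun h1 h2 => absurd ⟨h1, h2⟩ hj⟩
  choose d hd0 hd using hex
  obtain ⟨m, hm0, hm⟩ : ∃ m : ℝ, 0 < m ∧ ∀ j < P, m ≤ d j := by
    have key : ∀ n : ℕ, ∃ m : ℝ, 0 < m ∧ ∀ j < n, m ≤ d j := by
      intro n
      induction n with
      | zero => exact ⟨1, one_pos, fun j hj => absurd hj (Nat.not_lt_zero _)⟩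
      | succ k ihk =>
        obtain ⟨m, h1, h2⟩ := ihk
        refine ⟨min m (d k), lt_min h1 (hd0 k), fun j hj => ?_⟩
        rcases Nat.lt_succ_iff_lt_or_eq.1 hj with h | h
        · exact (min_le_left _ _).trans (h2 j h)
        · rw [h]
          exact min_le_right _ _
    exact key P
  refine ⟨min (min r b) (min m (min (x - x₁) (x₂ - x))),
    lt_min (lt_min hSd.r_pos hSd.b_pos) (lt_min hm0 (lt_min (by linarith) (by linarith))),
    (min_le_left _ _).trans (min_le_left _ _), ?_⟩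
  rintro ⟨τ, g⟩ h1 h2 h3 h4
  dsimp only at h1 h2 h3 h4
  rw [← hx] at h1
  have k1 : min (min r b) (min m (min (x - x₁) (x₂ - x))) ≤ r :=
    (min_le_left _ _).trans (min_le_left _ _)
  have k2 : min (min r b) (min m (min (x - x₁) (x₂ - x))) ≤ b :=
    (min_le_left _ _).trans (min_le_right _ _)
  have k3 : min (min r b) (min m (min (x - x₁) (x₂ - x))) ≤ m :=
    (min_le_right _ _).trans (min_le_left _ _)
  have k4 : min (min r b) (min m (min (x - x₁) (x₂ - x))) ≤ x - x₁ :=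
    (min_le_right _ _).trans ((min_le_right _ _).trans (min_le_left _ _))
  have k5 : min (min r b) (min m (min (x - x₁) (x₂ - x))) ≤ x₂ - x :=
    (min_le_right _ _).trans ((min_le_right _ _).trans (min_le_right _ _))
  have h5 := abs_lt.1 h1
  refine ⟨ball_subset_ball k1 h3, ?_, ?_, h2.trans_le k2, ?_⟩
  · show x₁ < τ.re
    linarith [h5.1]
  · show τ.re < x₂
    linarith [h5.2]
  · intro j hj hc
    dsimp only at hc
    by_cases hji : j = i
    · rw [hji] at hc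
      exact h4 hc
    · exact hd j hj hji g (ball_subset_ball (k3.trans (hm j hj)) h3) τ.re
        (h1.trans_le (k3.trans (hm j hj))) hc.1

/-- **LOCAL = GLOBAL.** Near a branch point of the stretch the continuation over the stretch is the
continuation over the slit neighbourhood. -/
theorem slt_loc {vi Vm : ℂ → ℝ} {L Λ Λ' : ℂ × ℂ → ℂ} {γ r x₁ x₂ b R ρ : ℝ} {P : ℕ}
    {Tb : ℕ → ℂ → ℂ} {X : ℕ → ℝ} (husc : UpperSemicontinuous vi)
    (hSd : Sd vi Vm γ r x₁ x₂ (vi γ) b P Tb X)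
    (hS : Slt (Dv vi) L Λ (SB γ r x₁ x₂ (vi γ) b P Tb)) {i : ℕ} (hi : i < P)
    (hN : SlN vi L γ (Tb (i + 1) γ) (Tb (i + 1)) R ρ Λ') :
    ∃ r' : ℝ, 0 < r' ∧ r' ≤ ρ ∧ r' ≤ r ∧ ∀ p ∈ Slb (Tb (i + 1)) (Tb (i + 1) γ) γ r' r',
      p ∈ SB γ r x₁ x₂ (vi γ) b P Tb ∧ p ∈ Slb (Tb (i + 1)) (Tb (i + 1) γ) γ R ρ ∧ Λ p = Λ' p := by
  obtain ⟨x, hx⟩ : ∃ x : ℝ, x = (Tb (i + 1) γ).re := ⟨_, rfl⟩
  have hζ : Tb (i + 1) γ = (x : ℂ) - vi γ * I := by
    apply Complex.ext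
    · rw [hx]
      simp
    · rw [hSd.Tb_im i hi]
      simp
  obtain ⟨r1, hr1, hr1r, h1⟩ := slb_SB hSd hi
  have hN' : SlN vi L γ ((x : ℂ) - vi γ * I) ((fun _ => Tb (i + 1)) x) R ρ Λ' := by
    rw [← hζ]
    exact hN
  obtain ⟨R', hL'⟩ := loc_of_sln (F := {x}) (T := fun _ => Tb (i + 1)) (mem_singleton x) hN'
  have hsub : Bx (vi γ) γ {x} (fun _ => Tb (i + 1)) x r1 ⊆ SB γ r x₁ x₂ (vi γ) b P Tb := by
    rintro p ⟨p1, p2, p3, p4⟩
    exact h1 p (by rw [← hx]; exact p1) p2 p3 (p4 x (mem_singleton x))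
  have hL : Loc vi L γ {x} (fun _ => Tb (i + 1)) x r1 Λ :=
    ⟨hr1, hS.an.mono hsub, fun p hp => hS.im p (hsub hp), fun p hp => hS.eq p (hsub hp)⟩
  have hm0 : 0 < min r1 R' := lt_min hr1 hL'.1
  have hu : ∀ᶠ g in 𝓝 (γ : ℂ), vi g < vi γ + min r1 R' := husc _ _ (by linarith)
  obtain ⟨r2, hr2, h2⟩ := Metric.eventually_nhds_iff_ball.1 hu
  have hρ := hN.pos
  refine ⟨min (min ρ r1) (min R' r2), lt_min (lt_min hρ hr1) (lt_min hL'.1 hr2),
    (min_le_left _ _).trans (min_le_left _ _),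
    ((min_le_left _ _).trans (min_le_right _ _)).trans hr1r, ?_⟩
  rintro ⟨τ, g⟩ ⟨⟨p1, p2⟩, p3⟩
  dsimp only at p1 p2 p3
  have k1 : min (min ρ r1) (min R' r2) ≤ ρ := (min_le_left _ _).trans (min_le_left _ _)
  have k2 : min (min ρ r1) (min R' r2) ≤ r1 := (min_le_left _ _).trans (min_le_right _ _)
  have k3 : min (min ρ r1) (min R' r2) ≤ R' := (min_le_right _ _).trans (min_le_left _ _)
  have k4 : min (min ρ r1) (min R' r2) ≤ r2 := (min_le_right _ _).trans (min_le_right _ _)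
  rw [hζ, mem_ball, dist_eq_norm] at p1
  have a1 := Complex.abs_re_le_norm (τ - ((x : ℂ) - vi γ * I))
  have a2 := Complex.abs_im_le_norm (τ - ((x : ℂ) - vi γ * I))
  have e1 : (τ - ((x : ℂ) - vi γ * I)).re = τ.re - x := by simp
  have e2 : (τ - ((x : ℂ) - vi γ * I)).im = τ.im + vi γ := by simp
  rw [e1] at a1
  rw [e2] at a2
  have a3 := a1.trans_lt p1
  have a4 := a2.trans_lt p1
  have m1 : ((τ, g) : ℂ × ℂ) ∈ Bx (vi γ) γ {x} (fun _ => Tb (i + 1)) x r1 :=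
    ⟨a3.trans_le k2, a4.trans_le k2, ball_subset_ball k2 p2, fun _ _ => p3⟩
  have m2 : ((τ, g) : ℂ × ℂ) ∈ Bx (vi γ) γ {x} (fun _ => Tb (i + 1)) x R' :=
    ⟨a3.trans_le k3, a4.trans_le k3, ball_subset_ball k3 p2, fun _ _ => p3⟩
  refine ⟨hsub m1, ⟨⟨?_, ball_subset_ball k1 p2⟩, p3⟩, ?_⟩
  · rw [hζ, mem_ball, dist_eq_norm]
    exact p1.trans_le (k1.trans hN.le)
  · exact loc_uniq (finite_singleton x) hL hL' m1 m2 (hS.ne _ (hsub m1))
      (a4.trans_le (le_min k2 k3)) (min_le_left _ _) (min_le_right _ _)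
      (h2 g (ball_subset_ball k4 p2))

end Pool.Agent.MP_ae5b4e_an_T
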