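import Mathlib

/-!
# POR (iii), N2, section T, block T1: local Schwarz inequalities
-/

set_option autoImplicit false

noncomputable section

namespace Pool.Agent.MP_ae5b4e_an_T

open Complex Set Filter Topology Metric

/-- (1.1). Proof: `H z = a z + O(z²)`, `a ≠ 0`.  Near `0` `H' ≠ 0`, and by `hm`
`log (1 - ‖z‖²) + log ‖H' z‖ - log (1 - ‖H z‖²) ≤ log ‖a‖`.  Average over the four points `z = i^j t`
(`t > 0` small): `log ‖H'‖` is the real part of the analytic function `h := log (H' / a)` plus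
`log ‖a‖`, `h 0 = 0`, `h z = α z + β z² + O(z³)`, and `∑ i^j = ∑ (i^j)² = 0`, so the average of `log ‖H'‖` is
`log ‖a‖ + O(t³)` (or use the mean value property: circle averages).  `- log (1 - ‖H‖²) ≥ ‖H‖² ≥
‖a‖² t² - O(t³)`.  So `log (1 - t²) + ‖a‖² t² ≤ O(t³)`; divide by `t²`, `t → 0`: `‖a‖² ≤ 1`. -/
theorem loc_disc {H : ℂ → ℂ} (hH : AnalyticAt ℂ H 0) (h0 : H 0 = 0) (h1 : deriv H 0 ≠ 0)
    (hm : ∀ᶠ z in 𝓝 (0 : ℂ),
      (1 - ‖z‖ ^ 2) * ‖deriv H z‖ ≤ ‖deriv H 0‖ * (1 - ‖H z‖ ^ 2)) : ‖deriv H 0‖ ≤ 1 := by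
  by_contra hcon
  have hcon : 1 < ‖deriv H 0‖ := lt_of_not_ge hcon
  set a : ℝ := ‖deriv H 0‖ with ha
  have hd : HasDerivAt H (deriv H 0) 0 := hH.differentiableAt.hasDerivAt
  have ho := hd.isLittleO
  have hc : (0 : ℝ) < (a - 1) / 2 := by linarith
  have h2 := ho.def hc
  have hlow : ∀ᶠ z in 𝓝 (0 : ℂ), (a + 1) / 2 * ‖z‖ ≤ ‖H z‖ := by
    filter_upwards [h2] with z hz
    simp only [h0, sub_zero, smul_eq_mul] at hz
    have h3 : ‖z * deriv H 0‖ ≤ ‖H z‖ + ‖H z - z * deriv H 0‖ := by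
      have := norm_sub_le (H z) (H z - z * deriv H 0)
      simpa using this
    rw [norm_mul, ← ha] at h3
    nlinarith [norm_nonneg z]
  have hball : ∀ᶠ z in 𝓝 (0 : ℂ), ‖z‖ < 1 := by
    have := Metric.ball_mem_nhds (0 : ℂ) one_pos
    filter_upwards [this] with z hz
    simpa using hz
  have hkey : ∀ᶠ z in 𝓝 (0 : ℂ),
      (1 - ‖z‖ ^ 2) * ‖deriv H z‖ ≤ a * (1 - ((a + 1) / 2) ^ 2 * ‖z‖ ^ 2) := by
    filter_upwards [hm, hlow] with z hz hz2
    refine hz.trans (mul_le_mul_of_nonneg_left ?_ (by linarith))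
    have h4 : ((a + 1) / 2 * ‖z‖) ^ 2 ≤ ‖H z‖ ^ 2 :=
      pow_le_pow_left₀ (by positivity) hz2 2
    nlinarith
  have hmax : IsLocalMax (norm ∘ deriv H) 0 := by
    filter_upwards [hkey, hball] with z hz hz1
    simp only [Function.comp_apply]
    rw [← ha]
    by_contra hlt
    have hlt : a < ‖deriv H z‖ := lt_of_not_ge hlt
    have hpos : 0 < 1 - ‖z‖ ^ 2 := by nlinarith [norm_nonneg z]
    have h5 : (1 - ‖z‖ ^ 2) * a < (1 - ‖z‖ ^ 2) * ‖deriv H z‖ :=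
      mul_lt_mul_of_pos_left hlt hpos
    have h6 : a * ‖z‖ ^ 2 ≤ a * (((a + 1) / 2) ^ 2 * ‖z‖ ^ 2) := by
      refine mul_le_mul_of_nonneg_left ?_ (by linarith)
      have : (1 : ℝ) ≤ ((a + 1) / 2) ^ 2 := by nlinarith
      nlinarith [sq_nonneg ‖z‖]
    nlinarith
  have hdiff : ∀ᶠ z in 𝓝 (0 : ℂ), DifferentiableAt ℂ (deriv H) z :=
    hH.deriv.eventually_analyticAt.mono fun z hz => hz.differentiableAt
  have hconst := Complex.eventually_eq_of_isLocalMax_norm hdiff hmax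
  have hfin : ∀ᶠ z in 𝓝 (0 : ℂ), ‖z‖ = 0 := by
    filter_upwards [hkey, hconst] with z hz hz2
    rw [hz2, ← ha] at hz
    have h7 : a * ((((a + 1) / 2) ^ 2 - 1) * ‖z‖ ^ 2) ≤ 0 := by nlinarith
    have h8 : 0 < a * (((a + 1) / 2) ^ 2 - 1) := by
      have : (1 : ℝ) < ((a + 1) / 2) ^ 2 := by nlinarith
      exact mul_pos (by linarith) (by linarith)
    have h9 : ‖z‖ ^ 2 ≤ 0 := by
      by_contra h10
      have h10 : 0 < ‖z‖ ^ 2 := lt_of_not_ge h10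
      have := mul_pos h8 h10
      nlinarith
    nlinarith [norm_nonneg z, sq_nonneg ‖z‖]
  obtain ⟨e, he, hball2⟩ := Metric.eventually_nhds_iff.1 hfin
  have h11 := hball2 (y := ((e / 2 : ℝ) : ℂ)) (by
    rw [dist_zero_right, Complex.norm_real, Real.norm_of_nonneg (by linarith)]; linarith)
  rw [Complex.norm_real, Real.norm_of_nonneg (by linarith)] at h11
  linarith

end Pool.Agent.MP_ae5b4e_an_T
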