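import Pool.Agent.Lib.MP_ae5b4e_an_T.SchA

/-!
# POR (iii), N2, section T, block T1: a local maximum
-/

set_option autoImplicit false

noncomputable section

namespace Pool.Agent.MP_ae5b4e_an_T

open Complex Set Filter Topology Metric

private theorem SchB_id1 (a u : ℂ) :
    ‖1 + starRingEnd ℂ a * u‖ ^ 2 - ‖u + a‖ ^ 2 = (1 - ‖u‖ ^ 2) * (1 - ‖a‖ ^ 2) := by
  simp only [Complex.sq_norm, Complex.normSq_apply, add_re, add_im, mul_re, mul_im, one_re,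
    one_im, conj_re, conj_im]
  ring

private theorem SchB_id2 (w w₁ : ℂ) :
    ‖w - starRingEnd ℂ w₁‖ ^ 2 - ‖w - w₁‖ ^ 2 = 4 * w.im * w₁.im := by
  simp only [Complex.sq_norm, Complex.normSq_apply, sub_re, sub_im, conj_re, conj_im]
  ring

/-- The Moebius map of the disc. -/
private theorem SchB_mob {r : ℝ} (hr : 0 < r) {a u : ℂ} (ha : ‖a‖ < 1)
    (hu : 1 + starRingEnd ℂ a * u ≠ 0) :
    r ^ 2 - ‖(r : ℂ) * (u + a) / (1 + starRingEnd ℂ a * u)‖ ^ 2 =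
      r * (1 - ‖u‖ ^ 2) * ‖(r : ℂ) * ((1 - ‖a‖ ^ 2 : ℝ) : ℂ) / (1 + starRingEnd ℂ a * u) ^ 2‖ := by
  have h1 : 0 < ‖1 + starRingEnd ℂ a * u‖ := norm_pos_iff.2 hu
  have h2 : 0 < 1 - ‖a‖ ^ 2 := by nlinarith [norm_nonneg a]
  have h3 := SchB_id1 a u
  rw [norm_div, norm_div, norm_mul, norm_mul, norm_pow, Complex.norm_real, Complex.norm_real,
    Real.norm_of_nonneg hr.le, Real.norm_of_nonneg h2.le]
  generalize ‖1 + starRingEnd ℂ a * u‖ = s at h1 h3 ⊢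
  field_simp
  linarith

/-- The Cayley map. -/
private theorem SchB_cay {w w₁ : ℂ} (hw : 0 < w.im) (hw₁ : 0 < w₁.im) :
    1 - ‖(w - w₁) / (w - starRingEnd ℂ w₁)‖ ^ 2 =
      2 * w.im * ‖(w₁ - starRingEnd ℂ w₁) / (w - starRingEnd ℂ w₁) ^ 2‖ := by
  have h0 : w - starRingEnd ℂ w₁ ≠ 0 := by
    intro h
    have := congrArg Complex.im h
    rw [sub_im, conj_im, zero_im] at this
    linarith
  have h1 : 0 < ‖w - starRingEnd ℂ w₁‖ := norm_pos_iff.2 h0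
  have h2 : ‖w₁ - starRingEnd ℂ w₁‖ = 2 * w₁.im := by
    rw [Complex.sub_conj, norm_mul, Complex.norm_real, Complex.norm_I, mul_one,
      Real.norm_of_nonneg (by linarith)]
  have h3 := SchB_id2 w w₁
  rw [norm_div, norm_div, norm_pow, h2]
  generalize ‖w - starRingEnd ℂ w₁‖ = s at h1 h3 ⊢
  field_simp
  linarith

/-- (1.2). Proof: `a := z₁ / r`, `M u := r (u + a) / (1 + conj a u)`, `M 0 = z₁`:
`r² - ‖M u‖² = r² (1 - ‖u‖²)(1 - ‖a‖²) / ‖1 + conj a u‖² = r (1 - ‖u‖²) ‖M' u‖`.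
`Cay w := (w - w₁) / (w - conj w₁)`, `w₁ := g z₁`: `‖Cay' w‖ / (1 - ‖Cay w‖²) = 1 / (2 Im w)` for
`Im w > 0`.  `H := Cay ∘ g ∘ M`, `H 0 = 0`, `H' 0 ≠ 0`:
`‖g' z‖ / Im (g z) (r² - ‖z‖²) = 2 r (1 - ‖u‖²) ‖H' u‖ / (1 - ‖H u‖²)` for `z = M u`, `u` near `0`.
So `loc_disc` applies, and the value at `z₁` is `2 r ‖H' 0‖ ≤ 2 r`. -/
theorem loc_max {r : ℝ} {z₁ : ℂ} {g : ℂ → ℂ} (hr : ‖z₁‖ < r) (hg : AnalyticAt ℂ g z₁)
    (him : 0 < (g z₁).im) (hd : deriv g z₁ ≠ 0)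
    (hm : ∀ᶠ z in 𝓝 z₁, ‖deriv g z‖ / (g z).im * (r ^ 2 - ‖z‖ ^ 2) ≤
      ‖deriv g z₁‖ / (g z₁).im * (r ^ 2 - ‖z₁‖ ^ 2)) :
    ‖deriv g z₁‖ / (g z₁).im * (r ^ 2 - ‖z₁‖ ^ 2) ≤ 2 * r := by
  have hr0 : 0 < r := (norm_nonneg _).trans_lt hr
  have hrC : (r : ℂ) ≠ 0 := by exact_mod_cast hr0.ne'
  obtain ⟨a, ha⟩ : ∃ a : ℂ, a = z₁ / r := ⟨_, rfl⟩
  have hra : (r : ℂ) * a = z₁ := by
    rw [ha]
    field_simp
  have ha1 : ‖a‖ < 1 := by
    rw [ha, norm_div, Complex.norm_real, Real.norm_of_nonneg hr0.le, div_lt_one hr0]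
    exact hr
  obtain ⟨w₁, hw₁⟩ : ∃ w₁ : ℂ, w₁ = g z₁ := ⟨_, rfl⟩
  obtain ⟨M, hM⟩ : ∃ M : ℂ → ℂ, M = fun u => (r : ℂ) * (u + a) / (1 + starRingEnd ℂ a * u) :=
    ⟨_, rfl⟩
  obtain ⟨M', hM'⟩ : ∃ M' : ℂ → ℂ,
      M' = fun u => (r : ℂ) * ((1 - ‖a‖ ^ 2 : ℝ) : ℂ) / (1 + starRingEnd ℂ a * u) ^ 2 := ⟨_, rfl⟩
  have hM0 : M 0 = z₁ := by
    rw [hM]
    beta_reduce
    rw [zero_add, mul_zero, add_zero, div_one, hra]
  have hMan : AnalyticAt ℂ M 0 := by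
    rw [hM]
    refine AnalyticAt.div (by fun_prop) (by fun_prop) ?_
    rw [mul_zero, add_zero]
    exact one_ne_zero
  have hMd : ∀ u, 1 + starRingEnd ℂ a * u ≠ 0 → HasDerivAt M (M' u) u := by
    intro u hu
    have h1 : HasDerivAt (fun u : ℂ => (r : ℂ) * (u + a)) ((r : ℂ) * 1) u :=
      ((hasDerivAt_id u).add_const a).const_mul _
    have h2 : HasDerivAt (fun u : ℂ => 1 + starRingEnd ℂ a * u) (starRingEnd ℂ a * 1) u :=
      ((hasDerivAt_id u).const_mul _).const_add 1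
    have h3 := h1.div h2 hu
    have h4 : M' u = ((r : ℂ) * 1 * (1 + starRingEnd ℂ a * u) -
        (r : ℂ) * (u + a) * (starRingEnd ℂ a * 1)) / (1 + starRingEnd ℂ a * u) ^ 2 := by
      rw [hM']
      beta_reduce
      congr 1
      have h5 : ((1 - ‖a‖ ^ 2 : ℝ) : ℂ) = 1 - a * starRingEnd ℂ a := by
        rw [Complex.mul_conj, Complex.normSq_eq_norm_sq]
        push_cast
        rfl
      rw [h5]
      ring
    rw [h4, hM]
    exact h3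
  have hgM : AnalyticAt ℂ (fun u => g (M u)) 0 := by
    have h1 : AnalyticAt ℂ g (M 0) := by rwa [hM0]
    exact h1.comp hMan
  have hw₁' : 0 < w₁.im := by rwa [hw₁]
  have hne : ∀ w : ℂ, 0 < w.im → w - starRingEnd ℂ w₁ ≠ 0 := by
    intro w hw h
    have := congrArg Complex.im h
    rw [sub_im, conj_im, zero_im] at this
    linarith
  obtain ⟨H, hH⟩ : ∃ H : ℂ → ℂ, H = fun u => (g (M u) - w₁) / (g (M u) - starRingEnd ℂ w₁) :=
    ⟨_, rfl⟩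
  have hHan : AnalyticAt ℂ H 0 := by
    rw [hH]
    refine (hgM.sub analyticAt_const).div (hgM.sub analyticAt_const) ?_
    rw [hM0]
    exact hne _ him
  have hH0 : H 0 = 0 := by
    rw [hH]
    beta_reduce
    rw [hM0, hw₁, sub_self, zero_div]
  -- the derivative of `H`
  have hHd : ∀ u, 1 + starRingEnd ℂ a * u ≠ 0 → AnalyticAt ℂ g (M u) → 0 < (g (M u)).im →
      deriv H u = (w₁ - starRingEnd ℂ w₁) / (g (M u) - starRingEnd ℂ w₁) ^ 2 *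
        (deriv g (M u) * M' u) := by
    intro u hu hgu him
    have h1 : HasDerivAt (fun u => g (M u)) (deriv g (M u) * M' u) u :=
      HasDerivAt.comp (h₂ := g) (h := M) u hgu.differentiableAt.hasDerivAt (hMd u hu)
    have h2 := (h1.sub_const w₁).div (h1.sub_const (starRingEnd ℂ w₁)) (hne _ him)
    have h3 : HasDerivAt H ((deriv g (M u) * M' u * (g (M u) - starRingEnd ℂ w₁) -
        (g (M u) - w₁) * (deriv g (M u) * M' u)) / (g (M u) - starRingEnd ℂ w₁) ^ 2) u := by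
      rw [hH]
      exact h2
    rw [h3.deriv, div_mul_eq_mul_div]
    congr 1
    ring
  -- the identity
  have hid : ∀ u, 1 + starRingEnd ℂ a * u ≠ 0 → AnalyticAt ℂ g (M u) → 0 < (g (M u)).im →
      (1 - ‖u‖ ^ 2) * ‖deriv H u‖ = (1 - ‖H u‖ ^ 2) * (‖deriv g (M u)‖ / (g (M u)).im *
        (r ^ 2 - ‖M u‖ ^ 2)) / (2 * r) := by
    intro u hu hgu him
    have e1 : r ^ 2 - ‖M u‖ ^ 2 = r * (1 - ‖u‖ ^ 2) * ‖M' u‖ := by
      rw [hM, hM']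
      exact SchB_mob hr0 ha1 hu
    have e2 : 1 - ‖H u‖ ^ 2 = 2 * (g (M u)).im *
        ‖(w₁ - starRingEnd ℂ w₁) / (g (M u) - starRingEnd ℂ w₁) ^ 2‖ := by
      rw [hH]
      exact SchB_cay him hw₁'
    rw [e1, e2, hHd u hu hgu him, norm_mul, norm_mul]
    field_simp
  have hu0 : (1 : ℂ) + starRingEnd ℂ a * 0 ≠ 0 := by
    rw [mul_zero, add_zero]
    exact one_ne_zero
  have hg0 : AnalyticAt ℂ g (M 0) := by rwa [hM0]
  have him0 : 0 < (g (M 0)).im := by rwa [hM0]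
  have hval : ‖deriv H 0‖ = ‖deriv g z₁‖ / (g z₁).im * (r ^ 2 - ‖z₁‖ ^ 2) / (2 * r) := by
    have h := hid 0 hu0 hg0 him0
    rw [hH0, hM0, norm_zero] at h
    have e : (1 : ℝ) - 0 ^ 2 = 1 := by norm_num
    rw [e, one_mul, one_mul] at h
    exact h
  have hpos : 0 < ‖deriv g z₁‖ / (g z₁).im * (r ^ 2 - ‖z₁‖ ^ 2) := by
    have h1 : 0 < ‖deriv g z₁‖ := norm_pos_iff.2 hd
    have h2 : 0 < r ^ 2 - ‖z₁‖ ^ 2 := by nlinarith [norm_nonneg z₁]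
    positivity
  have hHd0 : deriv H 0 ≠ 0 := by
    rw [← norm_pos_iff, hval]
    positivity
  have hMt : Tendsto M (𝓝 0) (𝓝 z₁) := by
    have := hMan.continuousAt.tendsto
    rwa [hM0] at this
  have hgt : Tendsto (fun u => (g (M u)).im) (𝓝 0) (𝓝 (g z₁).im) := by
    have := (Complex.continuous_im.tendsto _).comp hgM.continuousAt.tendsto
    rwa [hM0] at this
  have ev1 : ∀ᶠ u in 𝓝 (0 : ℂ), 1 + starRingEnd ℂ a * u ≠ 0 := by
    have hc : ContinuousAt (fun u : ℂ => 1 + starRingEnd ℂ a * u) 0 := by fun_prop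
    exact hc.eventually_ne hu0
  have ev2 : ∀ᶠ u in 𝓝 (0 : ℂ), AnalyticAt ℂ g (M u) := hMt.eventually hg.eventually_analyticAt
  have ev3 : ∀ᶠ u in 𝓝 (0 : ℂ), 0 < (g (M u)).im := hgt.eventually_const_lt him
  have ev4 := hMt.eventually hm
  have ev5 : ∀ᶠ u in 𝓝 (0 : ℂ), ‖u‖ ^ 2 < 1 := by
    have hc : Tendsto (fun u : ℂ => ‖u‖ ^ 2) (𝓝 0) (𝓝 (‖(0 : ℂ)‖ ^ 2)) := by
      have : Continuous (fun u : ℂ => ‖u‖ ^ 2) := by fun_prop
      exact this.tendsto 0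
    refine hc.eventually_lt_const ?_
    rw [norm_zero]
    norm_num
  have hloc := loc_disc hHan hH0 hHd0 (by
    filter_upwards [ev1, ev2, ev3, ev4] with u h1 h2 h3 h4
    rw [hid u h1 h2 h3, hval]
    have e2 : 0 ≤ 1 - ‖H u‖ ^ 2 := by
      have : 1 - ‖H u‖ ^ 2 = 2 * (g (M u)).im *
          ‖(w₁ - starRingEnd ℂ w₁) / (g (M u) - starRingEnd ℂ w₁) ^ 2‖ := by
        rw [hH]
        exact SchB_cay h3 hw₁'
      rw [this]
      positivity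
    have h5 := mul_le_mul_of_nonneg_left h4 e2
    rw [div_le_iff₀ (by positivity)]
    refine h5.trans (le_of_eq ?_)
    field_simp)
  rw [hval, div_le_one (by positivity)] at hloc
  exact hloc

end Pool.Agent.MP_ae5b4e_an_T
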