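import Pool.Agent.Lib.MP_ae5b4e_an_T.SchB

/-!
# POR (iii), N2, section T, block T1: Ahlfors' lemma
-/

set_option autoImplicit false

noncomputable section

namespace Pool.Agent.MP_ae5b4e_an_T

open Complex Set Filter Topology Metric

/-- supporting metrics of curvature at most that of the hyperbolic metric -/
def Spp (Om : Set ℂ) (ρ : ℂ → ℝ) : Prop :=
  ∀ y₀ ∈ Om, 0 < ρ y₀ → ∃ (φ : ℂ → ℂ) (c : ℝ), 0 < c ∧ c ≤ 1 ∧ AnalyticAt ℂ φ y₀ ∧
    0 < (φ y₀).im ∧ ρ y₀ = c * ‖deriv φ y₀‖ / (φ y₀).im ∧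
    ∀ᶠ y in 𝓝 y₀, c * ‖deriv φ y‖ / (φ y).im ≤ ρ y

/-- (1.3) AHLFORS. Proof: let `0 < r < 1`. `Φ z := ρ (f z) ‖f' z‖ (r² - ‖z‖²)` is continuous and `≥ 0` on
`closedBall 0 r` (`f` is analytic on the unit ball) and zero for `‖z‖ = r`; let `z₁` be a maximum
point. If `Φ z₁ = 0` then `Φ 0 = 0`. Otherwise `‖z₁‖ < r`, `f' z₁ ≠ 0`, `ρ (f z₁) > 0`; take `φ`, `c` at
`y₀ = f z₁`; `φ' y₀ ≠ 0`. For `g := φ ∘ f` near `z₁` (chain rule near `z₁`):
`c ‖g' z‖ / Im (g z) (r² - ‖z‖²) ≤ Φ z ≤ Φ z₁` with equality at `z₁`; divide by `c`: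
`loc_max` gives `Φ z₁ ≤ 2 r c ≤ 2 r`. So `ρ (f 0) ‖f' 0‖ r² = Φ 0 ≤ 2 r` for all `r < 1`; `r → 1`. -/
theorem ahlfors {Om : Set ℂ} (hO : IsOpen Om) {ρ : ℂ → ℝ} (hρ : ContinuousOn ρ Om)
    (h0 : ∀ y ∈ Om, 0 ≤ ρ y) (hs : Spp Om ρ) {f : ℂ → ℂ} (hf : DifferentiableOn ℂ f (ball 0 1))
    (hfO : ∀ z ∈ ball (0 : ℂ) 1, f z ∈ Om) : ρ (f 0) * ‖deriv f 0‖ ≤ 2 := by
  have _ := hO
  have hfa : AnalyticOnNhd ℂ f (ball 0 1) := hf.analyticOnNhd isOpen_ball
  have key : ∀ r : ℝ, 0 < r → r < 1 → ρ (f 0) * ‖deriv f 0‖ * r ≤ 2 := by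
    intro r hr0 hr1
    have hsub : closedBall (0:ℂ) r ⊆ ball 0 1 := closedBall_subset_ball hr1
    have hcont : ContinuousOn (fun z => ρ (f z) * ‖deriv f z‖ * (r ^ 2 - ‖z‖ ^ 2))
        (closedBall (0:ℂ) r) := by
      have h1 : ContinuousOn (fun z => ρ (f z)) (closedBall (0:ℂ) r) :=
        hρ.comp (hf.continuousOn.mono hsub) (fun z hz => hfO z (hsub hz))
      have h2 : ContinuousOn (fun z => ‖deriv f z‖) (closedBall (0:ℂ) r) :=
        (hfa.deriv.continuousOn.mono hsub).norm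
      have h3 : Continuous (fun z : ℂ => r ^ 2 - ‖z‖ ^ 2) := by fun_prop
      exact (h1.mul h2).mul h3.continuousOn
    obtain ⟨z₁, hz₁, hmax⟩ := (isCompact_closedBall (0:ℂ) r).exists_isMaxOn
      ⟨0, mem_closedBall_self hr0.le⟩ hcont
    have hmax' : ∀ z ∈ closedBall (0:ℂ) r, ρ (f z) * ‖deriv f z‖ * (r ^ 2 - ‖z‖ ^ 2) ≤
        ρ (f z₁) * ‖deriv f z₁‖ * (r ^ 2 - ‖z₁‖ ^ 2) := fun z hz => hmax hz
    have h0r := hmax' 0 (mem_closedBall_self hr0.le)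
    rw [norm_zero] at h0r
    have hzz : ρ (f z₁) * ‖deriv f z₁‖ * (r ^ 2 - ‖z₁‖ ^ 2) ≤ 2 * r := by
      rcases le_or_gt (ρ (f z₁) * ‖deriv f z₁‖ * (r ^ 2 - ‖z₁‖ ^ 2)) 0 with h | h
      · linarith
      have hz1b : z₁ ∈ ball (0:ℂ) 1 := hsub hz₁
      have hρ0 : 0 ≤ ρ (f z₁) := h0 _ (hfO _ hz1b)
      have hn1 : ‖z₁‖ ≤ r := mem_closedBall_zero_iff.1 hz₁
      have hr2 : 0 ≤ r ^ 2 - ‖z₁‖ ^ 2 := by
        have := pow_le_pow_left₀ (norm_nonneg z₁) hn1 2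
        linarith
      have hρp : 0 < ρ (f z₁) := by
        rcases hρ0.lt_or_eq with h1 | h1
        · exact h1
        · rw [← h1, zero_mul, zero_mul] at h
          exact absurd h (lt_irrefl _)
      have hdp : deriv f z₁ ≠ 0 := by
        intro h1
        rw [h1, norm_zero, mul_zero, zero_mul] at h
        exact absurd h (lt_irrefl _)
      have hr2p : 0 < r ^ 2 - ‖z₁‖ ^ 2 := by
        rcases hr2.lt_or_eq with h1 | h1
        · exact h1
        · rw [← h1, mul_zero] at h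
          exact absurd h (lt_irrefl _)
      have hlt : ‖z₁‖ < r := lt_of_pow_lt_pow_left₀ 2 hr0.le (by linarith)
      obtain ⟨φ, c, hc0, hc1, hφ, him, heq, hev⟩ := hs (f z₁) (hfO _ hz1b) hρp
      have hfz : AnalyticAt ℂ f z₁ := hfa _ hz1b
      have hg : AnalyticAt ℂ (fun z => φ (f z)) z₁ :=
        AnalyticAt.fun_comp (g := φ) (f := f) hφ hfz
      have hφd : deriv φ (f z₁) ≠ 0 := by
        intro h1
        rw [heq, h1, norm_zero, mul_zero, zero_div] at hρp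
        exact absurd hρp (lt_irrefl _)
      have hchain : ∀ᶠ z in 𝓝 z₁, deriv (fun z => φ (f z)) z = deriv φ (f z) * deriv f z := by
        filter_upwards [hfz.continuousAt.eventually hφ.eventually_analyticAt,
          hfz.eventually_analyticAt] with z h1 h2
        exact deriv_comp z h1.differentiableAt h2.differentiableAt
      have hd : deriv (fun z => φ (f z)) z₁ ≠ 0 := by
        rw [hchain.self_of_nhds]
        exact mul_ne_zero hφd hdp
      have hval : ρ (f z₁) * ‖deriv f z₁‖ * (r ^ 2 - ‖z₁‖ ^ 2) =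
          c * (‖deriv (fun z => φ (f z)) z₁‖ / (φ (f z₁)).im * (r ^ 2 - ‖z₁‖ ^ 2)) := by
        rw [hchain.self_of_nhds, norm_mul, heq]
        ring
      have hball : ∀ᶠ z in 𝓝 z₁, z ∈ ball (0:ℂ) r :=
        isOpen_ball.mem_nhds (mem_ball_zero_iff.2 hlt)
      have hloc := loc_max (g := fun z => φ (f z)) hlt hg him hd (by
        filter_upwards [hchain, hball, hfz.continuousAt.eventually hev] with z h1 h2 h3
        have h4 := hmax' z (ball_subset_closedBall h2)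
        rw [hval] at h4
        have h5 : 0 ≤ r ^ 2 - ‖z‖ ^ 2 := by
          have := pow_le_pow_left₀ (norm_nonneg z) (mem_ball_zero_iff.1 h2).le 2
          linarith
        have h6 : c * (‖deriv (fun z => φ (f z)) z‖ / (φ (f z)).im * (r ^ 2 - ‖z‖ ^ 2)) ≤
            ρ (f z) * ‖deriv f z‖ * (r ^ 2 - ‖z‖ ^ 2) := by
          rw [h1, norm_mul]
          have h7 : c * (‖deriv φ (f z)‖ * ‖deriv f z‖ / (φ (f z)).im * (r ^ 2 - ‖z‖ ^ 2)) =
              c * ‖deriv φ (f z)‖ / (φ (f z)).im * ‖deriv f z‖ * (r ^ 2 - ‖z‖ ^ 2) := by ring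
          rw [h7]
          exact mul_le_mul_of_nonneg_right
            (mul_le_mul_of_nonneg_right h3 (norm_nonneg _)) h5
        exact le_of_mul_le_mul_left (h6.trans h4) hc0)
      rw [hval]
      have h8 : c * (‖deriv (fun z => φ (f z)) z₁‖ / (φ (f z₁)).im * (r ^ 2 - ‖z₁‖ ^ 2)) ≤
          c * (2 * r) := mul_le_mul_of_nonneg_left hloc hc0.le
      have h9 : c * (2 * r) ≤ 1 * (2 * r) := mul_le_mul_of_nonneg_right hc1 (by positivity)
      linarith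
    have h10 : ρ (f 0) * ‖deriv f 0‖ * r * r ≤ 2 * r := by
      have e : ρ (f 0) * ‖deriv f 0‖ * r * r =
          ρ (f 0) * ‖deriv f 0‖ * (r ^ 2 - 0 ^ 2) := by ring
      rw [e]
      exact h0r.trans hzz
    exact le_of_mul_le_mul_right h10 hr0
  by_contra hcon
  rw [not_le] at hcon
  obtain ⟨X, hX⟩ : ∃ X, X = ρ (f 0) * ‖deriv f 0‖ := ⟨_, rfl⟩
  rw [← hX] at hcon key
  have hX0 : 0 < X := by linarith
  have h1 : 2 / X < 1 := (div_lt_one hX0).2 hcon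
  have h2 : 0 < 2 / X := by positivity
  have h3 := key ((2 / X + 1) / 2) (by positivity) (by linarith)
  have h4 : X * ((2 / X + 1) / 2) = (2 + X) / 2 := by
    field_simp
  rw [h4] at h3
  linarith

end Pool.Agent.MP_ae5b4e_an_T
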