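import Mathlib

/-!
# POR (iii), N2, section T, block T1: the metric, comparison of its parts
-/

set_option autoImplicit false

noncomputable section

namespace Pool.Agent.MP_ae5b4e_an_T

open Complex Set Filter Topology Metric

/-- the imaginary part of the square root, up to the sign -/
def iy (x : ℂ) : ℝ := √((‖x‖ - x.re) / 2)

/-- the metric far from the points `(k π)²` -/
def Uf (x : ℂ) : ℝ := 1 / (2 * max (√‖x‖) 1 * (1000 + iy x))

/-- the point `(k π)²` -/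
def pk (k : ℕ) : ℂ := ((k * Real.pi : ℝ) : ℂ) ^ 2

/-- radius -/
def Rk (k : ℕ) : ℝ := 3 * 10 ^ 6 * k

/-- radius -/
def Ak (k : ℕ) : ℝ := Rk k / Real.exp 1

/-- the metric near the point `(k π)²` -/
def Kf (k : ℕ) (x : ℂ) : ℝ :=
  if ‖x - pk k‖ < Ak k then 1 / 10 / (‖x - pk k‖ * Real.log (Rk k / ‖x - pk k‖))
  else 1 / 10 * Ak k / ‖x - pk k‖ ^ 2

/-- Proof: `‖y‖² = ‖x‖`, `‖y‖² - Re (y²) = 2 (Im y)²`. -/
theorem iy_eq {x y : ℂ} (h : y ^ 2 = x) : iy x = |y.im| := by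
  have h1 : ‖x‖ = y.re ^ 2 + y.im ^ 2 := by
    rw [← h, norm_pow, ← Complex.normSq_eq_norm_sq, Complex.normSq_apply]
    ring
  have h2 : x.re = y.re ^ 2 - y.im ^ 2 := by
    rw [← h, pow_two, Complex.mul_re]
    ring
  have h3 : (‖x‖ - x.re) / 2 = y.im ^ 2 := by
    rw [h1, h2]
    ring
  rw [iy, h3, Real.sqrt_sq_eq_abs]

theorem sqrt_norm_eq {x y : ℂ} (h : y ^ 2 = x) : √‖x‖ = ‖y‖ := by
  rw [← h, norm_pow, Real.sqrt_sq (norm_nonneg y)]

private theorem SchD_e : Real.exp 1 < 2.7182818286 := Real.exp_one_lt_d9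

private theorem SchD_Ak {k : ℕ} (hk : 1 ≤ k) : 1100000 * (k : ℝ) ≤ Ak k := by
  have h1 : (1 : ℝ) ≤ k := by exact_mod_cast hk
  have h2 := SchD_e
  have h3 := Real.exp_pos 1
  rw [Ak, Rk, le_div_iff₀ h3]
  nlinarith

private theorem SchD_pk (k : ℕ) : pk k = (((k : ℝ) * Real.pi) ^ 2 : ℝ) := by
  rw [pk]
  push_cast
  ring

private theorem SchD_iy_sq (x : ℂ) : iy x ^ 2 = (‖x‖ - x.re) / 2 := by
  rw [iy, Real.sq_sqrt]
  have := Complex.re_le_norm x
  linarith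

private theorem SchD_iy0 (x : ℂ) : 0 ≤ iy x := Real.sqrt_nonneg _

/-- (b). Proof: let `y² = x`, `Re y ≥ 0`, `t = ‖x - (k π)²‖ ≥ A_k ≥ 1.1 10^6 k` (`e < 2.72`).
`‖y‖² = ‖x‖ ≤ t + (k π)²`, so `max ‖y‖ 1 ≤ √t + k π`. `(Im y)² = (‖x‖ - Re x) / 2 ≤ t` and
`|Im y| ≤ ‖y - k π‖ = t / ‖y + k π‖ ≤ t / (k π)`. So `m := |Im y| ≤ √t`, `k π m ≤ t` and
`(√t + k π)(1000 + m) ≤ 1000 √t + t + 1000 k π + t ≤ 4 t` (`√t ≥ 1000`, `1000 k π ≤ t`).  Hence
`2 max (‖y‖, 1) (1000 + m) A_k / 10 ≤ (8 / 10) t A_k < t²`. -/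
theorem KU_far {x : ℂ} {k : ℕ} (hk : 1 ≤ k) (ht : Ak k ≤ ‖x - pk k‖) : Kf k x < Uf x := by
  have hk1 : (1 : ℝ) ≤ k := by exact_mod_cast hk
  have hpi := Real.pi_gt_three
  have hpi4 := Real.pi_le_four
  obtain ⟨t, ht0⟩ : ∃ t, t = ‖x - pk k‖ := ⟨_, rfl⟩
  rw [← ht0] at ht
  have hA := SchD_Ak hk
  have hAt : 1100000 * (k : ℝ) ≤ t := hA.trans ht
  have htpos : 0 < t := by linarith
  have hApos : 0 < Ak k := by linarith
  obtain ⟨c, hc⟩ : ∃ c : ℝ, c = (k : ℝ) * Real.pi := ⟨_, rfl⟩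
  have hc3 : 3 ≤ c := by
    rw [hc]
    nlinarith
  have hc4 : c ≤ 4 * k := by
    rw [hc]
    nlinarith
  have hpk : pk k = ((c ^ 2 : ℝ) : ℂ) := by rw [SchD_pk, ← hc]
  have hn : ‖pk k‖ = c ^ 2 := by
    rw [hpk, Complex.norm_real, Real.norm_of_nonneg (by positivity)]
  have hx1 : ‖x‖ ≤ t + c ^ 2 := by
    have h1 : ‖x‖ ≤ ‖x - pk k‖ + ‖pk k‖ := by
      have := norm_add_le (x - pk k) (pk k)
      rwa [sub_add_cancel] at this
    rw [hn, ← ht0] at h1
    exact h1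
  have hre : c ^ 2 - t ≤ x.re := by
    have h1 : |(x - pk k).re| ≤ t := by
      rw [ht0]
      exact Complex.abs_re_le_norm _
    rw [Complex.sub_re, hpk, Complex.ofReal_re] at h1
    have := (abs_le.1 h1).1
    linarith
  obtain ⟨m, hm⟩ : ∃ m, m = iy x := ⟨_, rfl⟩
  have hm0 : 0 ≤ m := by
    rw [hm]
    exact SchD_iy0 x
  have hm2 : m ^ 2 = (‖x‖ - x.re) / 2 := by
    rw [hm]
    exact SchD_iy_sq x
  have hmt : m ^ 2 ≤ t := by linarith
  obtain ⟨s, hs⟩ : ∃ s, s = √t := ⟨_, rfl⟩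
  have hs0 : 0 ≤ s := by
    rw [hs]
    exact Real.sqrt_nonneg _
  have hs2 : s ^ 2 = t := by
    rw [hs]
    exact Real.sq_sqrt htpos.le
  have hs1000 : 1000 ≤ s := by
    by_contra h
    have h1 : s < 1000 := not_le.1 h
    have h2 : s ^ 2 < 1000 ^ 2 := by nlinarith
    rw [hs2] at h2
    nlinarith
  have hms : m ≤ s := by
    refine (pow_le_pow_iff_left₀ hm0 hs0 two_ne_zero).1 ?_
    rw [hs2]
    exact hmt
  have hcm : c * m ≤ t := by
    refine (pow_le_pow_iff_left₀ (by positivity) htpos.le two_ne_zero).1 ?_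
    have h1 : t ^ 2 = ‖x‖ ^ 2 - 2 * c ^ 2 * x.re + (c ^ 2) ^ 2 := by
      rw [ht0, hpk, ← Complex.normSq_eq_norm_sq, ← Complex.normSq_eq_norm_sq,
        Complex.normSq_apply, Complex.normSq_apply, Complex.sub_re, Complex.sub_im,
        Complex.ofReal_re, Complex.ofReal_im]
      ring
    have h2 := Complex.re_le_norm x
    have h3 : (c * m) ^ 2 = c ^ 2 * ((‖x‖ - x.re) / 2) := by
      rw [mul_pow, hm2]
    rw [h1, h3]
    have h4 : 0 ≤ c ^ 2 * (‖x‖ - x.re) := mul_nonneg (sq_nonneg c) (by linarith)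
    nlinarith [sq_nonneg (‖x‖ - c ^ 2)]
  have hM : max (√‖x‖) 1 ≤ s + c := by
    refine max_le ?_ (by linarith)
    rw [Real.sqrt_le_left (by linarith)]
    nlinarith
  have hM1 : 1 ≤ max (√‖x‖) 1 := le_max_right _ _
  have hprod : max (√‖x‖) 1 * (1000 + m) ≤ 4 * t := by
    have h1 : max (√‖x‖) 1 * (1000 + m) ≤ (s + c) * (1000 + m) :=
      mul_le_mul_of_nonneg_right hM (by linarith)
    have h2 : s * m ≤ s * s := mul_le_mul_of_nonneg_left hms hs0
    have h3 : 1000 * s ≤ s * s := mul_le_mul_of_nonneg_right hs1000 hs0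
    have h4 : 1000 * c ≤ t := by linarith
    have h5 : (s + c) * (1000 + m) = 1000 * s + s * m + 1000 * c + c * m := by ring
    have h6 : s * s = t := by rw [← hs2]; ring
    linarith
  have hKf : Kf k x = 1 / 10 * Ak k / t ^ 2 := by
    rw [Kf, ← ht0, if_neg (not_lt.2 ht)]
  have hden : 0 < 2 * max (√‖x‖) 1 * (1000 + m) := by
    have : 0 < max (√‖x‖) 1 := by linarith
    positivity
  rw [hKf, Uf, ← hm, div_lt_div_iff₀ (by positivity) hden, one_mul]
  have h7 : 1 / 10 * Ak k * (2 * max (√‖x‖) 1 * (1000 + m)) =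
      1 / 5 * Ak k * (max (√‖x‖) 1 * (1000 + m)) := by ring
  rw [h7]
  have h8 : 1 / 5 * Ak k * (max (√‖x‖) 1 * (1000 + m)) ≤ 1 / 5 * Ak k * (4 * t) :=
    mul_le_mul_of_nonneg_left hprod (by positivity)
  have h9 : Ak k * t ≤ t * t := mul_le_mul_of_nonneg_right ht htpos.le
  have h10 : 0 < t * t := by positivity
  nlinarith

/-- `t log (R / t)` is increasing for `t ≤ R / e`. Proof: the derivative is `log (R / t) - 1 ≥ 0`, or
directly: `t log (R / t) - s log (R / s) = (t - s) log (R / t) - s log (t / s) ≥ (t - s) - (t - s)`. -/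
theorem tlog_mono {R s t : ℝ} (hs : 0 < s) (hst : s ≤ t) (ht : t ≤ R / Real.exp 1) :
    s * Real.log (R / s) ≤ t * Real.log (R / t) := by
  have ht0 : 0 < t := hs.trans_le hst
  have he := Real.exp_pos 1
  have hR : t * Real.exp 1 ≤ R := (le_div_iff₀ he).1 ht
  have hR0 : 0 < R := lt_of_lt_of_le (by positivity) hR
  have h1 : 1 ≤ Real.log (R / t) := by
    rw [Real.le_log_iff_exp_le (by positivity), le_div_iff₀ ht0]
    linarith
  have h2 : Real.log (R / s) = Real.log (R / t) + Real.log (t / s) := by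
    rw [← Real.log_mul (by positivity) (by positivity)]
    congr 1
    field_simp
  have h3 : Real.log (t / s) ≤ t / s - 1 := Real.log_le_sub_one_of_pos (by positivity)
  have h4 : s * Real.log (t / s) ≤ t - s := by
    have h5 : s * Real.log (t / s) ≤ s * (t / s - 1) := mul_le_mul_of_nonneg_left h3 hs.le
    have h6 : s * (t / s - 1) = t - s := by
      field_simp
    linarith
  have h5 : (t - s) * 1 ≤ (t - s) * Real.log (R / t) :=
    mul_le_mul_of_nonneg_left h1 (by linarith)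
  rw [h2]
  nlinarith

private theorem SchD_log : Real.log (3 * 10 ^ 6 / 12.4) ≤ 12.5 := by
  rw [Real.log_le_iff_le_exp (by norm_num)]
  have h1 : Real.exp 12.5 = Real.exp 1 ^ 12 * Real.exp (1 / 2) := by
    rw [← Real.exp_nat_mul, ← Real.exp_add]
    congr 1
    norm_num
  have h2 : (1 / 2 : ℝ) + 1 ≤ Real.exp (1 / 2) := Real.add_one_le_exp _
  have h3 : (2.718 : ℝ) ^ 12 ≤ Real.exp 1 ^ 12 := by
    refine pow_le_pow_left₀ (by norm_num) ?_ 12
    have := Real.exp_one_gt_d9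
    linarith
  rw [h1]
  have h4 : (2.718 : ℝ) ^ 12 * (3 / 2) ≤ Real.exp 1 ^ 12 * Real.exp (1 / 2) :=
    mul_le_mul h3 (by linarith) (by norm_num) (by positivity)
  refine le_trans ?_ h4
  norm_num

/-- The lower bound for the metric near `(k π)²`. -/
private theorem SchD_Kf {x : ℂ} {k : ℕ} (hk : 1 ≤ k) (h0 : 0 < ‖x - pk k‖)
    (h1 : ‖x - pk k‖ ≤ 12.4 * k) : 1 / (1550 * k) ≤ Kf k x := by
  have hk1 : (1 : ℝ) ≤ k := by exact_mod_cast hk
  have hA := SchD_Ak hk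
  obtain ⟨t, ht0⟩ : ∃ t, t = ‖x - pk k‖ := ⟨_, rfl⟩
  rw [← ht0] at h0 h1
  have h2 : t < Ak k := by linarith
  have h3 : t * Real.log (Rk k / t) ≤ 12.4 * k * Real.log (Rk k / (12.4 * k)) := by
    refine tlog_mono h0 h1 ?_
    have h4 : Rk k / Real.exp 1 = Ak k := rfl
    rw [h4]
    linarith
  have h4 : Rk k / (12.4 * k) = 3 * 10 ^ 6 / 12.4 := by
    rw [Rk]
    field_simp
  rw [h4] at h3
  have h5 : t * Real.log (Rk k / t) ≤ 155 * k := by
    have h6 : 12.4 * (k : ℝ) * Real.log (3 * 10 ^ 6 / 12.4) ≤ 12.4 * k * 12.5 :=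
      mul_le_mul_of_nonneg_left SchD_log (by positivity)
    linarith
  have h6 : 0 < t * Real.log (Rk k / t) := by
    refine mul_pos h0 (Real.log_pos ?_)
    rw [one_lt_div h0, Rk]
    nlinarith
  rw [Kf, ← ht0, if_pos h2, div_le_div_iff₀ (by positivity) h6]
  linarith

/-- Proof: `t = ‖x - π²‖ ∈ (0, 12.4]`; `tlog_mono` with `12.4`:
`t log (R / t) ≤ 12.4 log (3 10^6 / 12.4) ≤ 155` (`exp 12.5 > 242000`), `Kf ≥ 1 / 1550`, and
`Uf ≤ 1 / 2000`. -/
theorem KU_small {x : ℂ} (hx : ‖x‖ ≤ 1) : Uf x < Kf 1 x := by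
  have hpi := Real.pi_gt_three
  have hpi4 : Real.pi < 3.15 := Real.pi_lt_d2
  have hn : ‖pk 1‖ = Real.pi ^ 2 := by
    rw [SchD_pk, Complex.norm_real, Real.norm_of_nonneg (by positivity)]
    norm_num
  have h1 : ‖x - pk 1‖ ≤ ‖x‖ + ‖pk 1‖ := norm_sub_le _ _
  have h2 : ‖pk 1‖ - ‖x‖ ≤ ‖x - pk 1‖ := by
    rw [norm_sub_rev]
    exact norm_sub_norm_le _ _
  rw [hn] at h1 h2
  have h3 : 1 / (1550 * ((1 : ℕ) : ℝ)) ≤ Kf 1 x := by
    refine SchD_Kf le_rfl ?_ ?_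
    · nlinarith
    · push_cast
      nlinarith
  refine lt_of_lt_of_le ?_ h3
  have h4 : 0 ≤ iy x := SchD_iy0 x
  have h5 : (1 : ℝ) ≤ max (√‖x‖) 1 := le_max_right _ _
  have h6 : (2000 : ℝ) ≤ 2 * max (√‖x‖) 1 * (1000 + iy x) := by nlinarith
  rw [Uf]
  push_cast
  rw [mul_one, div_lt_div_iff₀ (by linarith) (by norm_num)]
  linarith

/-- (a). Proof: `x > 0` real, `y = √x`. If `y < π / 2`: `k = 1`, `0 < t ≤ π²`, as in `KU_small`. Otherwise
let `k ≥ 1` be the integer nearest to `y / π` (`round`), `k ≤ N` as `y < N π`; `|y - k π| ≤ π / 2`,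
`y ≥ k π / 2`, `t = |y - k π| |y + k π| ≤ (π / 2)(2 k π + π / 2) ≤ 1.25 k π² ≤ 12.4 k`, `t > 0` by `hne`;
`tlog_mono` with `12.4 k` (`R_k / (12.4 k) = 3 10^6 / 12.4`): `t log (R_k / t) ≤ 155 k`,
`Kf ≥ 1 / (1550 k)`, and `iy x = 0`, `Uf x ≤ 1 / (2000 y) ≤ 1 / (1000 k π)`. -/
theorem KU_real {x : ℂ} (hx : x.im = 0) (h0 : 0 < x.re) {N : ℕ} (hN : 1 ≤ N)
    (hb : ‖x‖ < (N * Real.pi) ^ 2) (hne : ∀ k : ℕ, 1 ≤ k → k ≤ N → x ≠ pk k) :
    ∃ k : ℕ, 1 ≤ k ∧ k ≤ N ∧ Uf x < Kf k x := by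
  have hpi := Real.pi_gt_three
  have hpi4 : Real.pi < 3.15 := Real.pi_lt_d2
  have hpi2 : Real.pi ^ 2 < 9.9 := by
    have := Real.pi_lt_d4
    nlinarith
  obtain ⟨y, hy⟩ : ∃ y, y = √x.re := ⟨_, rfl⟩
  have hy0 : 0 < y := by
    rw [hy]
    exact Real.sqrt_pos.2 h0
  have hy2 : y ^ 2 = x.re := by
    rw [hy]
    exact Real.sq_sqrt h0.le
  have hx' : x = ((y ^ 2 : ℝ) : ℂ) := by
    apply Complex.ext
    · rw [Complex.ofReal_re, hy2]
    · rw [Complex.ofReal_im, hx]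
  have hnx : ‖x‖ = y ^ 2 := by
    rw [hx', Complex.norm_real, Real.norm_of_nonneg (by positivity)]
  have hsx : √‖x‖ = y := by
    rw [hnx, Real.sqrt_sq hy0.le]
  have hiy : iy x = 0 := by
    have h1 := SchD_iy_sq x
    rw [hnx, hy2, sub_self, zero_div] at h1
    exact pow_eq_zero_iff (two_ne_zero) |>.1 h1
  have hUf : Uf x = 1 / (2 * max y 1 * 1000) := by
    rw [Uf, hsx, hiy, add_zero]
  have hdist : ∀ k : ℕ, ‖x - pk k‖ = |y - k * Real.pi| * (y + k * Real.pi) := by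
    intro k
    have h1 : x - pk k = (((y - k * Real.pi) * (y + k * Real.pi) : ℝ) : ℂ) := by
      rw [hx', SchD_pk]
      push_cast
      ring
    rw [h1, Complex.norm_real, Real.norm_eq_abs, abs_mul,
      abs_of_nonneg (show 0 ≤ y + k * Real.pi by positivity)]
  by_cases hsm : y < Real.pi / 2
  · refine ⟨1, le_rfl, hN, ?_⟩
    have h1 : 1 / (1550 * ((1 : ℕ) : ℝ)) ≤ Kf 1 x := by
      refine SchD_Kf le_rfl ?_ ?_
      · rw [norm_pos_iff, sub_ne_zero]
        exact hne 1 le_rfl hN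
      · rw [hdist]
        push_cast
        rw [one_mul, abs_of_nonpos (by linarith)]
        nlinarith
    refine lt_of_lt_of_le ?_ h1
    have h2 : (1 : ℝ) ≤ max y 1 := le_max_right _ _
    rw [hUf]
    push_cast
    rw [mul_one, div_lt_div_iff₀ (by linarith) (by norm_num)]
    linarith
  · have hsm' : Real.pi / 2 ≤ y := not_lt.1 hsm
    obtain ⟨K, hK⟩ : ∃ K : ℤ, K = round (y / Real.pi) := ⟨_, rfl⟩
    have hK1 := abs_sub_round (y / Real.pi)
    rw [← hK] at hK1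
    have hyN : y < N * Real.pi := by
      rw [hnx] at hb
      exact lt_of_pow_lt_pow_left₀ 2 (by positivity) hb
    have hKge : 1 ≤ K := by
      rw [hK, round_eq, Int.le_floor]
      have h1 : (1 : ℝ) / 2 ≤ y / Real.pi := by
        rw [le_div_iff₀ (by linarith)]
        linarith
      push_cast
      linarith
    have hKle : K ≤ N := by
      have h1 : y / Real.pi < N := by
        rw [div_lt_iff₀ (by linarith)]
        exact hyN
      have h2 : (K : ℝ) < (N : ℝ) + 1 := by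
        have := (abs_le.1 hK1).1
        linarith
      have h3 : (K : ℝ) < ((N + 1 : ℤ) : ℝ) := by
        push_cast
        exact h2
      have h4 : K < (N : ℤ) + 1 := by exact_mod_cast h3
      omega
    obtain ⟨k, hk⟩ : ∃ k : ℕ, (k : ℤ) = K := ⟨K.toNat, Int.toNat_of_nonneg (by omega)⟩
    have hkK : (K : ℝ) = (k : ℝ) := by
      rw [← hk]
      push_cast
      rfl
    have hk1 : 1 ≤ k := by omega
    have hkN : k ≤ N := by omega
    have hk1r : (1 : ℝ) ≤ k := by exact_mod_cast hk1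
    have hclose : |y - k * Real.pi| ≤ Real.pi / 2 := by
      have h1 : y - k * Real.pi = (y / Real.pi - K) * Real.pi := by
        rw [hkK]
        field_simp
      rw [h1, abs_mul, abs_of_nonneg (show (0 : ℝ) ≤ Real.pi by linarith)]
      nlinarith
    have hlo := (abs_le.1 hclose).1
    have hhi := (abs_le.1 hclose).2
    refine ⟨k, hk1, hkN, ?_⟩
    have h1 : 1 / (1550 * (k : ℝ)) ≤ Kf k x := by
      refine SchD_Kf hk1 ?_ ?_
      · rw [norm_pos_iff, sub_ne_zero]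
        exact hne k hk1 hkN
      · rw [hdist]
        have h2 : |y - k * Real.pi| * (y + k * Real.pi) ≤
            Real.pi / 2 * (2 * (k * Real.pi) + Real.pi / 2) :=
          mul_le_mul hclose (by linarith) (by positivity) (by positivity)
        have h3 : Real.pi / 2 * (2 * (k * Real.pi) + Real.pi / 2) =
            Real.pi ^ 2 * (k + 1 / 4) := by ring
        have h4 : Real.pi ^ 2 * ((k : ℝ) + 1 / 4) ≤ Real.pi ^ 2 * (5 / 4 * k) :=
          mul_le_mul_of_nonneg_left (by linarith) (by positivity)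
        have h5 : Real.pi ^ 2 * (5 / 4 * (k : ℝ)) ≤ 9.9 * (5 / 4 * k) :=
          mul_le_mul_of_nonneg_right hpi2.le (by positivity)
        linarith
    refine lt_of_lt_of_le ?_ h1
    have h2 : y ≤ max y 1 := le_max_left _ _
    have h3 : k * Real.pi / 2 ≤ y := by nlinarith
    rw [hUf, div_lt_div_iff₀ (by positivity) (by positivity), one_mul, one_mul]
    nlinarith

end Pool.Agent.MP_ae5b4e_an_T
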