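import Pool.Agent.Lib.MP_ae5b4e_an_T.T3Pack

/-!
# POR (iii), N2, section T, block T3: the local box and the D-side
-/

noncomputable section

namespace Pool.Agent.MP_ae5b4e_an_T

open Complex Set Filter Topology Metric
open Pool.Agent.MP_ae5b4e_an_WB
open Pool.Agent.MP_ae5b4e_an_WD
open Pool.Agent.MP_ae5b4e_an_M (S1 C1f Gf)

/-- the D-side in a neighbourhood of one point `(τ1, γ)` close to the box: the height function
`c g = τ1 - P (L (τ1, g), g)`.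

Proof. All the following conditions are open conditions satisfied at `(τ1, γ)`: `(τ, g) ∈ Dv vi`
(`h.ds.isOpen`), `L (τ, g) ∈ ball l δ`, `g * dt L (τ, g) ∈ ball α1 δ` (`h.ds.an`, `h.ds.an_dt` are continuous),
`‖P (L (τ, g), g)‖ < δ / 8` (`P` continuous at `(L (τ1, γ), γ)`), `g ∈ ball γ δ`; `vi g < -τ1.im` follows from
`(τ1, g) ∈ Dv vi`. So there is `η ≤ δ` such that they hold for `τ ∈ ball τ1 η`, `g ∈ ball γ η`. Fix `g`. The
function `τ ↦ P (L (τ, g), g) - τ` has derivative `(g / α) * dt L (τ, g) - 1 = 0` on `ball τ1 η`,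
`α = g * dt L (τ, g)` (`hP4` with `Gf q (L (τ, g)) α = g`: `h.ds.gf`; `g ≠ 0`: `h.ds.ne`, `dt L ≠ 0`:
`h.ds.dt_ne_zero`; `dt L (τ, g)` is the derivative of `τ ↦ L (τ, g)`), so it is constant
(`IsOpen.is_const_of_deriv_eq_zero` or `Convex.is_const_of_fderivWithin_eq_zero`): equal to its value at
`τ1`, which is `- c g`. Then `L (τ, g) = J (P (L (τ, g), g), g) = J (τ - c g, g)` by `hP3`. -/
theorem box_local {q : ℂ → ℂ} {C : ℝ} {vi : ℂ → ℝ} {L : ℂ × ℂ → ℂ} (h : Lb q C vi L) {γ τ1 l α1 : ℂ}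
    {δ : ℝ} {P J : ℂ × ℂ → ℂ} (hδ : 0 < δ) (hP1 : AnalyticOnNhd ℂ P (ball l δ ×ˢ ball γ δ))
    (hP3 : ∀ p ∈ ball l δ ×ˢ ball γ δ, J (P p, p.2) = p.1)
    (hP4 : ∀ p ∈ ball l δ ×ˢ ball γ δ, ∀ α ∈ ball α1 δ, Gf q p.1 α = p.2 →
      HasDerivAt (fun z => P (z, p.2)) (p.2 / α) p.1)
    (hD : (τ1, γ) ∈ Dv vi) (hL : L (τ1, γ) ∈ ball l δ) (hα : γ * dt L (τ1, γ) ∈ ball α1 δ)
    (hsm : ‖P (L (τ1, γ), γ)‖ < δ / 8) :
    ∃ η : ℝ, 0 < η ∧ η ≤ δ ∧ AnalyticOnNhd ℂ (fun g => P (L (τ1, g), g)) (ball γ η) ∧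
      ∀ g ∈ ball γ η, (τ1, g) ∈ Dv vi ∧ ‖P (L (τ1, g), g)‖ < δ / 8 ∧
        ∀ τ ∈ ball τ1 η, (τ, g) ∈ Dv vi ∧ L (τ, g) = J (τ - (τ1 - P (L (τ1, g), g)), g) := by
  have hPc : AnalyticAt ℂ P (L (τ1, γ), γ) := hP1 _ ⟨hL, mem_ball_self hδ⟩
  have hLc : ContinuousAt L (τ1, γ) := (h.ds.an _ hD).continuousAt
  have hdt : ContinuousAt (dt L) (τ1, γ) := (h.ds.an_dt _ hD).continuousAt
  have hp2 : ContinuousAt (fun p : ℂ × ℂ => p.2) (τ1, γ) := continuous_snd.continuousAt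
  have c1 : ∀ᶠ p : ℂ × ℂ in 𝓝 (τ1, γ), p ∈ Dv vi := h.ds.isOpen.mem_nhds hD
  have c2 : ∀ᶠ p : ℂ × ℂ in 𝓝 (τ1, γ), L p ∈ ball l δ :=
    hLc.eventually (isOpen_ball.mem_nhds hL)
  have c3 : ∀ᶠ p : ℂ × ℂ in 𝓝 (τ1, γ), p.2 * dt L p ∈ ball α1 δ :=
    (hp2.mul hdt).eventually (isOpen_ball.mem_nhds hα)
  have c4 : ∀ᶠ p : ℂ × ℂ in 𝓝 (τ1, γ), ‖P (L p, p.2)‖ < δ / 8 := by
    have h1 : ContinuousAt (fun p : ℂ × ℂ => P (L p, p.2)) (τ1, γ) :=
      ContinuousAt.comp (g := P) (f := fun p : ℂ × ℂ => (L p, p.2)) hPc.continuousAt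
        (hLc.prodMk hp2)
    exact h1.norm.eventually (isOpen_Iio.mem_nhds hsm)
  obtain ⟨η, hη, hη'⟩ := Metric.eventually_nhds_iff_ball.1 (c1.and (c2.and (c3.and c4)))
  have hE : ∀ τ ∈ ball τ1 (min η δ), ∀ g ∈ ball γ (min η δ), (τ, g) ∈ Dv vi ∧
      L (τ, g) ∈ ball l δ ∧ g * dt L (τ, g) ∈ ball α1 δ ∧ ‖P (L (τ, g), g)‖ < δ / 8 := by
    intro τ hτ g hg
    refine hη' (τ, g) ?_
    rw [← ball_prod_same]
    exact ⟨ball_subset_ball (min_le_left _ _) hτ, ball_subset_ball (min_le_left _ _) hg⟩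
  have hm : 0 < min η δ := lt_min hη hδ
  have hτ1 : τ1 ∈ ball τ1 (min η δ) := mem_ball_self hm
  have hgδ : ∀ g ∈ ball γ (min η δ), g ∈ ball γ δ := fun g hg =>
    ball_subset_ball (min_le_right _ _) hg
  refine ⟨min η δ, hm, min_le_right _ _, ?_, ?_⟩
  · intro g hg
    obtain ⟨h1, h2, -, -⟩ := hE τ1 hτ1 g hg
    have h3 : AnalyticAt ℂ (fun g => L (τ1, g)) g :=
      AnalyticAt.comp (g := L) (f := fun g : ℂ => (τ1, g)) (h.ds.an _ h1) (by fun_prop)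
    exact AnalyticAt.comp (g := P) (f := fun g : ℂ => (L (τ1, g), g)) (hP1 _ ⟨h2, hgδ g hg⟩)
      (h3.prod analyticAt_id)
  · intro g hg
    obtain ⟨h1, h2, h3, h4⟩ := hE τ1 hτ1 g hg
    refine ⟨h1, h4, fun τ hτ => ?_⟩
    obtain ⟨k1, k2, k3, k4⟩ := hE τ hτ g hg
    refine ⟨k1, ?_⟩
    have hder : ∀ t ∈ ball τ1 (min η δ),
        HasDerivAt (fun t => P (L (t, g), g) - t) (1 - 1) t := by
      intro t ht
      obtain ⟨m1, m2, m3, m4⟩ := hE t ht g hg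
      have hne : g ≠ 0 := h.ds.ne _ m1
      have hdne : dt L (t, g) ≠ 0 := h.ds.dt_ne_zero m1
      have e1 : HasDerivAt (fun t => L (t, g)) (dt L (t, g)) t := by
        have h5 : DifferentiableAt ℂ (fun t => L (t, g)) t :=
          DifferentiableAt.comp (g := L) (f := fun t : ℂ => (t, g)) t
            (h.ds.an _ m1).differentiableAt (by fun_prop)
        exact h5.hasDerivAt
      have e2 : HasDerivAt (fun z => P (z, g)) (g / (g * dt L (t, g))) (L (t, g)) :=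
        hP4 (L (t, g), g) ⟨m2, hgδ g hg⟩ _ m3 (h.ds.gf _ m1)
      have e3 : HasDerivAt (fun t => P (L (t, g), g)) (g / (g * dt L (t, g)) * dt L (t, g)) t :=
        HasDerivAt.comp (h₂ := fun z => P (z, g)) (h := fun t => L (t, g)) t e2 e1
      have e4 : g / (g * dt L (t, g)) * dt L (t, g) = 1 := by
        field_simp
      rw [e4] at e3
      exact e3.sub (hasDerivAt_id t)
    have hconst := isOpen_ball.is_const_of_deriv_eq_zero
      (convex_ball τ1 (min η δ)).isPreconnected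
      (fun t ht => (hder t ht).differentiableAt.differentiableWithinAt)
      (fun t ht => by rw [(hder t ht).deriv, sub_self]; rfl) hτ hτ1
    have hc : P (L (τ, g), g) = τ - (τ1 - P (L (τ1, g), g)) := by
      have h5 : P (L (τ, g), g) - τ = P (L (τ1, g), g) - τ1 := hconst
      linear_combination h5
    rw [← hc]
    exact (hP3 (L (τ, g), g) ⟨k2, hgδ g hg⟩).symm

end Pool.Agent.MP_ae5b4e_an_T
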