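import Mathlib
import Pool.Agent.Lib.SCV.Osgood
import Pool.Agent.Lib.MP_ae5b4e_an_WB.ParamInt

/-!
# POR (iii), N2, section T, block T3: primitive with a parameter
-/

namespace Pool.Agent.MP_ae5b4e_an_T

open Complex Set Filter Topology Metric

/-- an analytic function of two variables has a local primitive in the first variable, analytic in
both variables.

Proof. Let `r > 0` such that `Ψ` is analytic on `U = ball l (2 r) ×ˢ ball γ (2 r)` (`ball_prod_same`,
`AnalyticAt.eventually_analyticAt`). Put `P (z, g) = ∫ t in (0:ℝ)..1, (z - l) * Ψ (l + t (z - l), g)` on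
`V = ball l r ×ˢ ball γ r`. (1) `P` is continuous on `V` (the integrand is continuous on
`[0,1] × V`; `intervalIntegral.continuousOn...`, or `continuous_parametric_intervalIntegral_of_continuous`,
or dominated convergence with a bound of `Ψ` on the compact closed bidisc of radius `r`). (2) for fixed
`g` the function `z ↦ Ψ (z, g)` has a primitive on the disc `ball l r`
(`DifferentiableOn.isExactOn_ball`, or `Complex.IsConservativeOn.isExactOn_ball`): `Q' = Ψ (·, g)`, and by the
fundamental theorem `P (z, g) = Q z - Q l` (`intervalIntegral.integral_eq_sub_of_hasDerivAt` for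
`t ↦ Q (l + t (z - l))`); hence `HasDerivAt (fun z => P (z, g)) (Ψ (z, g)) z`. (3) for fixed `z` the
function `g ↦ P (z, g)` is differentiable on `ball γ r`
(`intervalIntegral.hasDerivAt_integral_of_dominated_loc_of_deriv_le`, or `WB/ParamInt.lean`: theorems there
give holomorphic parameter integrals). (4) `Pool.Agent.SCV.osgood`. `P (l, γ) = 0` is clear. -/
theorem exists_P {Ψ : ℂ × ℂ → ℂ} {l γ : ℂ} (hΨ : AnalyticAt ℂ Ψ (l, γ)) :
    ∃ P : ℂ × ℂ → ℂ, AnalyticAt ℂ P (l, γ) ∧ P (l, γ) = 0 ∧
      ∀ᶠ p in 𝓝 (l, γ), HasDerivAt (fun z => P (z, p.2)) (Ψ p) p.1 := by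
  obtain ⟨R, hR, hRb⟩ := Metric.nhds_basis_closedBall.mem_iff.1 hΨ.eventually_analyticAt
  rw [← closedBall_prod_same] at hRb
  have hK : IsCompact (closedBall l R ×ˢ closedBall γ R) :=
    (isCompact_closedBall l R).prod (isCompact_closedBall γ R)
  have hcK : ContinuousOn Ψ (closedBall l R ×ˢ closedBall γ R) := fun q hq =>
    (hRb hq).continuousAt.continuousWithinAt
  obtain ⟨C, hC⟩ := hK.exists_bound_of_continuousOn hcK
  have hC0 : 0 ≤ C := (norm_nonneg _).trans
    (hC (l, γ) ⟨mem_closedBall_self hR.le, mem_closedBall_self hR.le⟩)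
  have hseg : ∀ z ∈ ball l R, ∀ t ∈ Icc (0 : ℝ) 1, l + (t : ℂ) * (z - l) ∈ ball l R := by
    intro z hz t ht
    rw [mem_ball, dist_eq_norm] at hz ⊢
    have h1 : l + (t : ℂ) * (z - l) - l = (t : ℂ) * (z - l) := by ring
    rw [h1, norm_mul, Complex.norm_real, Real.norm_eq_abs, abs_of_nonneg ht.1]
    calc t * ‖z - l‖ ≤ 1 * ‖z - l‖ := mul_le_mul_of_nonneg_right ht.2 (norm_nonneg _)
      _ < R := by rw [one_mul]; exact hz
  have hAn : ∀ z ∈ ball l R, ∀ g ∈ ball γ R, AnalyticAt ℂ Ψ (z, g) := fun z hz g hg =>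
    hRb ⟨ball_subset_closedBall hz, ball_subset_closedBall hg⟩
  have hbd : ∀ z ∈ ball l R, ∀ g ∈ ball γ R, ∀ t ∈ Icc (0 : ℝ) 1,
      ‖(z - l) * Ψ (l + (t : ℂ) * (z - l), g)‖ ≤ R * C := by
    intro z hz g hg t ht
    rw [norm_mul]
    refine mul_le_mul ?_ (hC _ ⟨ball_subset_closedBall (hseg z hz t ht),
      ball_subset_closedBall hg⟩) (norm_nonneg _) hR.le
    rw [mem_ball, dist_eq_norm] at hz
    exact hz.le
  have hct : ∀ z ∈ ball l R, ∀ g ∈ ball γ R,
      ContinuousOn (fun t : ℝ => (z - l) * Ψ (l + (t : ℂ) * (z - l), g)) (Icc 0 1) := by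
    intro z hz g hg t ht
    refine ContinuousAt.continuousWithinAt ?_
    refine continuousAt_const.mul ?_
    have h1 : ContinuousAt (fun t : ℝ => (l + (t : ℂ) * (z - l), g)) t := by fun_prop
    exact ContinuousAt.comp (f := fun t : ℝ => (l + (t : ℂ) * (z - l), g)) (g := Ψ)
      (hAn _ (hseg z hz t ht) g hg).continuousAt h1
  set P : ℂ × ℂ → ℂ := fun p =>
    ∫ t in (0 : ℝ)..1, (p.1 - l) * Ψ (l + (t : ℂ) * (p.1 - l), p.2) with hP
  have hV : IsOpen (ball l R ×ˢ ball γ R) := isOpen_ball.prod isOpen_ball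
  have hIoc : uIoc (0 : ℝ) 1 ⊆ Icc 0 1 := by
    rw [uIoc_of_le zero_le_one]
    exact Ioc_subset_Icc_self
  -- continuity
  have hcont : ContinuousOn P (ball l R ×ˢ ball γ R) := by
    intro p hp
    refine ContinuousAt.continuousWithinAt ?_
    refine intervalIntegral.continuousAt_of_dominated_interval (bound := fun _ => R * C)
      ?_ ?_ intervalIntegrable_const ?_
    · filter_upwards [hV.mem_nhds hp] with q hq
      exact ((hct q.1 hq.1 q.2 hq.2).mono hIoc).aestronglyMeasurable measurableSet_uIoc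
    · filter_upwards [hV.mem_nhds hp] with q hq
      exact Filter.Eventually.of_forall fun t ht => hbd q.1 hq.1 q.2 hq.2 t (hIoc ht)
    · refine Filter.Eventually.of_forall fun t ht => ?_
      have h1 : ContinuousAt (fun q : ℂ × ℂ => (l + (t : ℂ) * (q.1 - l), q.2)) p := by fun_prop
      have h2 : ContinuousAt (fun q : ℂ × ℂ => Ψ (l + (t : ℂ) * (q.1 - l), q.2)) p :=
        ContinuousAt.comp (f := fun q : ℂ × ℂ => (l + (t : ℂ) * (q.1 - l), q.2)) (g := Ψ)
          (hAn _ (hseg p.1 hp.1 t (hIoc ht)) p.2 hp.2).continuousAt h1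
      exact (continuousAt_fst.sub continuousAt_const).mul h2
  -- derivative in the first variable
  have hder : ∀ z ∈ ball l R, ∀ g ∈ ball γ R, HasDerivAt (fun z => P (z, g)) (Ψ (z, g)) z := by
    intro z hz g hg
    have hd : DifferentiableOn ℂ (fun z => Ψ (z, g)) (ball l R) := by
      intro w hw
      have h1 : DifferentiableAt ℂ (fun z : ℂ => (z, g)) w :=
        differentiableAt_id.prodMk (differentiableAt_const g)
      exact (DifferentiableAt.comp (f := fun z : ℂ => (z, g)) (g := Ψ) w
        (hAn w hw g hg).differentiableAt h1).differentiableWithinAt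
    obtain ⟨Q, hQ⟩ := hd.isExactOn_ball
    have hPQ : ∀ w ∈ ball l R, P (w, g) = Q w - Q l := by
      intro w hw
      have h1 := intervalIntegral.integral_eq_sub_of_hasDerivAt (a := 0) (b := 1)
        (f := fun t : ℝ => Q (l + (t : ℂ) * (w - l)))
        (f' := fun t : ℝ => (w - l) * Ψ (l + (t : ℂ) * (w - l), g)) ?_ ?_
      · rw [hP]
        simp only
        rw [h1]
        simp
      · intro t ht
        rw [uIcc_of_le zero_le_one] at ht
        have h2 : HasDerivAt (fun s : ℂ => l + s * (w - l)) (w - l) (t : ℂ) := by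
          have h3 := ((hasDerivAt_id (t : ℂ)).mul_const (w - l)).const_add l
          simpa using h3
        have h3 : HasDerivAt (fun s : ℂ => Q (l + s * (w - l)))
            (Ψ (l + (t : ℂ) * (w - l), g) * (w - l)) (t : ℂ) :=
          HasDerivAt.comp (t : ℂ) (h₂ := Q) (h := fun s : ℂ => l + s * (w - l))
            (hQ _ (hseg w hw t ht)) h2
        have h4 := h3.comp_ofReal
        rw [mul_comm] at h4
        exact h4
      · refine ContinuousOn.intervalIntegrable ?_
        rw [uIcc_of_le zero_le_one]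
        exact hct w hw g hg
    have h5 : (fun z => P (z, g)) =ᶠ[𝓝 z] fun z => Q z - Q l := by
      filter_upwards [isOpen_ball.mem_nhds hz] with w hw
      exact hPQ w hw
    exact ((hQ z hz).sub_const (Q l)).congr_of_eventuallyEq h5
  -- derivative in the second variable
  have hder2 : ∀ z ∈ ball l R, DifferentiableOn ℂ (fun g => P (z, g)) (ball γ R) := by
    intro z hz
    refine Pool.Agent.MP_ae5b4e_an_WB.differentiableOn_paramInt isOpen_ball zero_le_one
      (f := fun g t => (z - l) * Ψ (l + (t : ℂ) * (z - l), g)) ?_ ?_ ?_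
    · intro t ht g hg
      refine DifferentiableAt.differentiableWithinAt ?_
      refine (differentiableAt_const _).mul ?_
      have h1 : DifferentiableAt ℂ (fun g : ℂ => (l + (t : ℂ) * (z - l), g)) g :=
        (differentiableAt_const _).prodMk differentiableAt_id
      exact DifferentiableAt.comp (f := fun g : ℂ => (l + (t : ℂ) * (z - l), g)) (g := Ψ) g
        (hAn _ (hseg z hz t (Ioo_subset_Icc_self ht)) g hg).differentiableAt h1
    · intro g hg
      exact (hct z hz g hg).mono Ioo_subset_Icc_self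
    · intro g hg
      refine ⟨R * C, ?_⟩
      filter_upwards [isOpen_ball.mem_nhds hg] with g' hg' t ht
      exact hbd z hz g' hg' t (Ioo_subset_Icc_self ht)
  have hmem : (l, γ) ∈ ball l R ×ˢ ball γ R := ⟨mem_ball_self hR, mem_ball_self hR⟩
  refine ⟨P, ?_, ?_, ?_⟩
  · refine Pool.Agent.SCV.osgood _ hV P hcont ?_ ?_ _ hmem
    · intro p hp
      exact (hder p.1 hp.1 p.2 hp.2).differentiableAt
    · intro p hp
      exact (hder2 p.1 hp.1).differentiableAt (isOpen_ball.mem_nhds hp.2)
  · rw [hP]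
    simp
  · filter_upwards [hV.mem_nhds hmem] with p hp
    exact hder p.1 hp.1 p.2 hp.2

end Pool.Agent.MP_ae5b4e_an_T
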