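import Pool.Agent.Lib.MP_ae5b4e_an_T.T3Gf
import Pool.Agent.Lib.MP_ae5b4e_an_T.T3Imp
import Pool.Agent.Lib.MP_ae5b4e_an_T.T3Prim

/-!
# POR (iii), N2, section T, block T3: the local box (height as a function of the label, and inverse)
-/

noncomputable section

namespace Pool.Agent.MP_ae5b4e_an_T

open Complex Set Filter Topology Metric
open Pool.Agent.MP_ae5b4e_an_WB
open Pool.Agent.MP_ae5b4e_an_WD
open Pool.Agent.MP_ae5b4e_an_M (S1 C1f Gf)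

private theorem T3Pack_a1 (x : (ℂ × ℂ) × ℂ) : AnalyticAt ℂ (fun p : (ℂ × ℂ) × ℂ => p.1.1) x :=
  ((ContinuousLinearMap.fst ℂ ℂ ℂ).comp (ContinuousLinearMap.fst ℂ (ℂ × ℂ) ℂ)).analyticAt x

private theorem T3Pack_a2 (x : (ℂ × ℂ) × ℂ) : AnalyticAt ℂ (fun p : (ℂ × ℂ) × ℂ => p.1.2) x :=
  ((ContinuousLinearMap.snd ℂ ℂ ℂ).comp (ContinuousLinearMap.fst ℂ (ℂ × ℂ) ℂ)).analyticAt x

private theorem T3Pack_a3 (x : (ℂ × ℂ) × ℂ) : AnalyticAt ℂ (fun p : (ℂ × ℂ) × ℂ => p.2) x :=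
  analyticAt_snd

/-- `α` as an analytic function of `(λ, γ)`.

Proof. `implicit2` for `F ((λ, g), α) = Gf q λ α - g` at `((l, γ), α1)`: analytic by `Gf_an` (composed with
`p ↦ (p.1.1, p.2)`), derivative in `α` by `Gf_hasDerivAt`, `≠ 0` (`exp ≠ 0`). -/
theorem exists_A {q : ℂ → ℂ} (hq : DifferentiableOn ℂ q Hm) {l α1 γ : ℂ} (hl : l.im < 0)
    (hs : S1 (q l * α1 ^ 2) ≠ 0) (hG : Gf q l α1 = γ) :
    ∃ A : ℂ × ℂ → ℂ, AnalyticAt ℂ A (l, γ) ∧ A (l, γ) = α1 ∧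
      ∀ᶠ p : (ℂ × ℂ) × ℂ in 𝓝 ((l, γ), α1), Gf q p.1.1 p.2 = p.1.2 → p.2 = A p.1 := by
  obtain ⟨F, hF⟩ : ∃ F : (ℂ × ℂ) × ℂ → ℂ, F = fun p => Gf q p.1.1 p.2 - p.1.2 := ⟨_, rfl⟩
  have h1 : AnalyticAt ℂ (fun p : (ℂ × ℂ) × ℂ => (p.1.1, p.2)) ((l, γ), α1) :=
    AnalyticAt.prod (T3Pack_a1 _) (T3Pack_a3 _)
  have h2 : AnalyticAt ℂ F ((l, γ), α1) := by
    rw [hF]
    have h3 : AnalyticAt ℂ ((fun p : ℂ × ℂ => Gf q p.1 p.2) ∘
        fun p : (ℂ × ℂ) × ℂ => (p.1.1, p.2)) ((l, γ), α1) :=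
      AnalyticAt.comp (Gf_an hq hl hs) h1
    have h4 : AnalyticAt ℂ (fun p : (ℂ × ℂ) × ℂ => p.1.2) ((l, γ), α1) := T3Pack_a2 _
    exact h3.sub h4
  have h5 : HasDerivAt (fun t => F ((l, γ), t))
      (cexp (1 - C1f (q l * α1 ^ 2) / S1 (q l * α1 ^ 2)) / S1 (q l * α1 ^ 2)) α1 := by
    rw [hF]
    exact (Gf_hasDerivAt hs).sub_const γ
  have h6 : F ((l, γ), α1) = 0 := by
    rw [hF]
    exact sub_eq_zero.2 hG
  obtain ⟨A, hA, hA0, hAe⟩ := implicit2 h2 h6 (div_ne_zero (exp_ne_zero _) hs) h5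
  refine ⟨A, hA, hA0, hAe.mono fun p hp hG' => ?_⟩
  have h7 : F p = 0 := by
    rw [hF]
    exact sub_eq_zero.2 hG'
  exact (hp.1 h7).symm

private theorem T3Pack_ball {a b : ℂ} {r r' : ℝ} {p : ℂ × ℂ} (hp : p ∈ ball a r ×ˢ ball b r)
    (h : r ≤ r') : p ∈ ball (a, b) r' := by
  rw [← ball_prod_same]
  exact ⟨ball_subset_ball h hp.1, ball_subset_ball h hp.2⟩

/-- the local box: `P (λ, g)` = height of the label `λ` at the parameter `g` (up to an additive function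
of `g`), `J (·, g)` its inverse.

Proof. `α1 ≠ 0` (`Gf q l 0 = 0`). `A` from `exists_A`; `Ψ p = p.2 / A p` is analytic at `(l, γ)` and
`Ψ (l, γ) = γ / α1 ≠ 0`. `P` from `exists_P`. `J` from `implicit2` for `F ((t, g), λ) = P (λ, g) - t` at
`((0, γ), l)`: analytic (composition with `p ↦ (p.2, p.1.2)`), `F = 0` there, derivative in `λ`:
`Ψ (l, γ) ≠ 0` (`exists_P` at `(l, γ)`: `Eventually.self_of_nhds`); `J (0, γ) = l`;
`∀ᶠ p in 𝓝 ((0, γ), l), P (p.2, p.1.2) = p.1.1 → J p.1 = p.2`; pull this back along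
`(λ, g) ↦ ((P (λ, g), g), λ)`, which is continuous at `(l, γ)`, value `((0, γ), l)`: so
`∀ᶠ p in 𝓝 (l, γ), J (P p, p.2) = p.1`. All conditions hold on bidiscs of a small radius `δ`: `P` analytic on
`ball l δ ×ˢ ball γ δ`, `J` analytic and of negative imaginary part on `ball 0 δ ×ˢ ball γ δ`
(`AnalyticAt.eventually_analyticAt`, continuity), `J (P p, p.2) = p.1` for `p` near `(l, γ)`; for the last
item: if `Gf q λ α = g`, `(λ, g, α)` near `(l, γ, α1)`, then `α = A (λ, g)` and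
`HasDerivAt (fun z => P (z, g)) (Ψ (λ, g)) λ`, `Ψ (λ, g) = g / α`. Use `Metric.eventually_nhds_iff_ball`,
`ball_prod_same`, and the minimum of the radii. -/
theorem exists_pack {q : ℂ → ℂ} (hq : DifferentiableOn ℂ q Hm) {l α1 γ : ℂ} (hl : l.im < 0)
    (hγ : γ ≠ 0) (hs : S1 (q l * α1 ^ 2) ≠ 0) (hG : Gf q l α1 = γ) :
    ∃ (δ : ℝ) (P J : ℂ × ℂ → ℂ), 0 < δ ∧ AnalyticOnNhd ℂ P (ball l δ ×ˢ ball γ δ) ∧ P (l, γ) = 0 ∧
      AnalyticOnNhd ℂ J (ball 0 δ ×ˢ ball γ δ) ∧ (∀ p ∈ ball (0 : ℂ) δ ×ˢ ball γ δ, (J p).im < 0) ∧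
      (∀ p ∈ ball l δ ×ˢ ball γ δ, J (P p, p.2) = p.1) ∧
      ∀ p ∈ ball l δ ×ˢ ball γ δ, ∀ α ∈ ball α1 δ, Gf q p.1 α = p.2 →
        HasDerivAt (fun z => P (z, p.2)) (p.2 / α) p.1 := by
  have hα : α1 ≠ 0 := by
    intro h
    rw [h] at hG
    apply hγ
    rw [← hG]
    simp [Gf]
  obtain ⟨A, hA, hA0, hAe⟩ := exists_A hq hl hs hG
  obtain ⟨Ψ, hΨe⟩ : ∃ Ψ : ℂ × ℂ → ℂ, Ψ = fun p => p.2 / A p := ⟨_, rfl⟩
  have hΨ : AnalyticAt ℂ Ψ (l, γ) := by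
    rw [hΨe]
    exact analyticAt_snd.div hA (by rw [hA0]; exact hα)
  have hΨ0 : Ψ (l, γ) ≠ 0 := by
    rw [hΨe]
    simp only [hA0]
    exact div_ne_zero hγ hα
  obtain ⟨P, hP, hP0, hPd⟩ := exists_P hΨ
  -- the inverse
  obtain ⟨F, hF⟩ : ∃ F : (ℂ × ℂ) × ℂ → ℂ, F = fun p => P (p.2, p.1.2) - p.1.1 := ⟨_, rfl⟩
  have h1 : AnalyticAt ℂ (fun p : (ℂ × ℂ) × ℂ => (p.2, p.1.2)) ((0, γ), l) :=
    AnalyticAt.prod (T3Pack_a3 _) (T3Pack_a2 _)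
  have h2 : AnalyticAt ℂ F ((0, γ), l) := by
    rw [hF]
    have h3 : AnalyticAt ℂ (P ∘ fun p : (ℂ × ℂ) × ℂ => (p.2, p.1.2)) ((0, γ), l) :=
      AnalyticAt.comp hP h1
    have h4 : AnalyticAt ℂ (fun p : (ℂ × ℂ) × ℂ => p.1.1) ((0, γ), l) := T3Pack_a1 _
    exact h3.sub h4
  have h5 : HasDerivAt (fun t => F ((0, γ), t)) (Ψ (l, γ)) l := by
    rw [hF]
    have h6 := hPd.self_of_nhds
    exact h6.sub_const 0
  have h7 : F ((0, γ), l) = 0 := by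
    rw [hF]
    simp only
    rw [hP0, sub_zero]
  obtain ⟨J, hJ, hJ0, hJe⟩ := implicit2 h2 h7 hΨ0 h5
  have hT : Tendsto (fun p : ℂ × ℂ => ((P p, p.2), p.1)) (𝓝 (l, γ)) (𝓝 ((0, γ), l)) := by
    have h8 : ContinuousAt (fun p : ℂ × ℂ => ((P p, p.2), p.1)) (l, γ) :=
      (hP.continuousAt.prodMk continuousAt_snd).prodMk continuousAt_fst
    have h9 := h8.tendsto
    simp only [hP0] at h9
    exact h9
  have E3 : ∀ᶠ p in 𝓝 (l, γ), J (P p, p.2) = p.1 := by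
    filter_upwards [hT.eventually hJe] with p hp
    refine hp.1 ?_
    rw [hF]
    exact sub_self _
  have E2 : ∀ᶠ p in 𝓝 ((0 : ℂ), γ), AnalyticAt ℂ J p ∧ (J p).im < 0 := by
    refine hJ.eventually_analyticAt.and ?_
    have h8 : ContinuousAt (fun p => (J p).im) ((0 : ℂ), γ) :=
      continuous_im.continuousAt.comp hJ.continuousAt
    refine h8.eventually (gt_mem_nhds ?_)
    simp only
    rw [hJ0]
    exact hl
  obtain ⟨r1, hr1, k1⟩ := Metric.eventually_nhds_iff_ball.1 hP.eventually_analyticAt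
  obtain ⟨r2, hr2, k2⟩ := Metric.eventually_nhds_iff_ball.1 E2
  obtain ⟨r3, hr3, k3⟩ := Metric.eventually_nhds_iff_ball.1 E3
  obtain ⟨r4, hr4, k4⟩ := Metric.eventually_nhds_iff_ball.1 hPd
  obtain ⟨r5, hr5, k5⟩ := Metric.eventually_nhds_iff_ball.1 hAe
  obtain ⟨δ, hδ, d1, d2, d3, d4, d5⟩ : ∃ δ : ℝ, 0 < δ ∧ δ ≤ r1 ∧ δ ≤ r2 ∧ δ ≤ r3 ∧ δ ≤ r4 ∧
      δ ≤ r5 := by
    refine ⟨min r1 (min r2 (min r3 (min r4 r5))), by positivity, ?_, ?_, ?_, ?_, ?_⟩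
    · exact min_le_left _ _
    · exact (min_le_right _ _).trans (min_le_left _ _)
    · exact (min_le_right _ _).trans ((min_le_right _ _).trans (min_le_left _ _))
    · exact (min_le_right _ _).trans ((min_le_right _ _).trans ((min_le_right _ _).trans
        (min_le_left _ _)))
    · exact (min_le_right _ _).trans ((min_le_right _ _).trans ((min_le_right _ _).trans
        (min_le_right _ _)))
  refine ⟨δ, P, J, hδ, fun p hp => k1 p (T3Pack_ball hp d1), hP0,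
    fun p hp => (k2 p (T3Pack_ball hp d2)).1, fun p hp => (k2 p (T3Pack_ball hp d2)).2,
    fun p hp => k3 p (T3Pack_ball hp d3), fun p hp α hα' hG' => ?_⟩
  have h8 : (p, α) ∈ ball ((l, γ), α1) r5 := by
    rw [← ball_prod_same]
    exact ⟨T3Pack_ball hp d5, ball_subset_ball d5 hα'⟩
  have h9 := k5 (p, α) h8 hG'
  have h10 := k4 p (T3Pack_ball hp d4)
  rw [hΨe] at h10
  simp only at h9 h10
  rw [h9]
  exact h10

end Pool.Agent.MP_ae5b4e_an_T
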