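import Pool.Agent.Lib.MP_ae5b4e_an_T.T3Box

/-!
# POR (iii), N2, section T, block T3: extension of the label at a regular point
-/

noncomputable section

namespace Pool.Agent.MP_ae5b4e_an_T

open Complex Set Filter Topology Metric
open Pool.Agent.MP_ae5b4e_an_WB
open Pool.Agent.MP_ae5b4e_an_WD
open Pool.Agent.MP_ae5b4e_an_M (S1 C1f Gf)

/-- the vertical path tends to the point of the line -/
private theorem T3Rg_path (v x : ℝ) :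
    Tendsto (fun s : ℝ => (x : ℂ) - (v + s : ℝ) * I) (𝓝[>] 0) (𝓝[Hp v] ((x : ℂ) - v * I)) := by
  refine tendsto_nhdsWithin_iff.2 ⟨?_, ?_⟩
  · have h1 : Continuous fun s : ℝ => (x : ℂ) - (v + s : ℝ) * I := by fun_prop
    have h2 := (h1.tendsto 0).mono_left (nhdsWithin_le_nhds (s := Ioi (0 : ℝ)))
    rwa [add_zero] at h2
  · filter_upwards [self_mem_nhdsWithin] with s hs
    have hs' : 0 < s := hs
    change ((x : ℂ) - (v + s : ℝ) * I).im < -v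
    simp only [sub_im, ofReal_im, mul_im, I_re, I_im, ofReal_re, mul_one, mul_zero, zero_sub]
    linarith

private theorem T3Rg_pick {L : ℂ × ℂ → ℂ} {v γ x : ℝ} {l α1 : ℂ}
    (hlim : LimAt v (fun τ => L (τ, γ)) x l)
    (hcl : ∀ ε : ℝ, 0 < ε → ∃ᶠ s in 𝓝[>] (0 : ℝ),
      ‖(γ : ℂ) * deriv (fun τ => L (τ, γ)) ((x : ℂ) - (v + s : ℝ) * I) - α1‖ < ε)
    {ε s0 : ℝ} (hε : 0 < ε) (hs0 : 0 < s0) : ∃ s : ℝ, 0 < s ∧ s < s0 ∧
      L ((x : ℂ) - (v + s : ℝ) * I, γ) ∈ ball l ε ∧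
      (γ : ℂ) * dt L ((x : ℂ) - (v + s : ℝ) * I, (γ : ℂ)) ∈ ball α1 ε := by
  have h1 : ∀ᶠ s in 𝓝[>] (0 : ℝ), L ((x : ℂ) - (v + s : ℝ) * I, γ) ∈ ball l ε :=
    (hlim.comp (T3Rg_path v x)).eventually (ball_mem_nhds l hε)
  have h2 : ∀ᶠ s in 𝓝[>] (0 : ℝ), 0 < s ∧ s < s0 := Ioo_mem_nhdsGT hs0
  obtain ⟨s, hs1, hs2, hs3⟩ := ((hcl ε hε).and_eventually (h1.and h2)).exists
  refine ⟨s, hs3.1, hs3.2, hs2, ?_⟩
  rw [mem_ball, dist_eq_norm]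
  exact hs1

/-- **extension**: if the states of the vertical path accumulate at a state `(l, α1)` with
`S1 (q l α1²) ≠ 0`, then the point is regular.

Proof. `Gf q l α1 = γ` by continuity: the states `(f s, γ f'(s))` satisfy `Gf q · · = γ` and accumulate at
`(l, α1)` (`Gf_an` gives continuity of `Gf` at `(l, α1)`; for every `ε` there are `s` arbitrarily small with
both components within `ε`). Take `δ, P, J` from `exists_pack` (for the complex number `(γ : ℂ)`).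
`P` is continuous at `(l, γ)`, `P (l, γ) = 0`: there is `ε ≤ δ` with `‖P (λ, γ)‖ < δ / 8` for
`λ ∈ ball l ε`. Choose `s1 ∈ (0, δ / 8)` with `L (τ1, γ) ∈ ball l ε` (`hlim` along the vertical line) and
`γ * dt L (τ1, γ) ∈ ball α1 δ` (`hcl`; `dt L (τ1, γ) = deriv (fun τ => L (τ, γ)) τ1` by definition),
`τ1 = x - (v + s1) I`, `v = vi γ`. `box_local` gives `η`. Put `c g = τ1 - P (L (τ1, g), g)`,
`Λ (τ, g) = J (τ - c g, g)`, `ρ = min (δ / 4) η`, `ζ = x - v I`. For `τ ∈ ball ζ (δ / 4)`, `g ∈ ball γ η`: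
`‖τ - c g‖ ≤ ‖τ - ζ‖ + ‖ζ - τ1‖ + ‖P (L (τ1, g), g)‖ < δ / 4 + δ / 8 + δ / 8 < δ`, so `Λ` is analytic there, with
negative imaginary part (`hJ`). Agreement with `L`: fix `g ∈ ball γ η`. The set
`K = {τ ∈ ball ζ (δ / 4) | τ.im < - vi g}` is convex, hence preconnected, and contains `τ1`
(`‖τ1 - ζ‖ = s1 < δ / 8`; `(τ1, g) ∈ Dv vi`); on `K` both `τ ↦ L (τ, g)` (`h.ds.an`, `(τ, g) ∈ Dv vi`, `g ≠ 0`)
and `τ ↦ Λ (τ, g)` are analytic; they agree near `τ1` (`box_local`), so on `K`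
(`AnalyticOnNhd.eqOn_of_preconnected_of_eventuallyEq`). -/
theorem rg_of_cluster {q : ℂ → ℂ} {C : ℝ} {vi : ℂ → ℝ} {L : ℂ × ℂ → ℂ} (h : Lb q C vi L) {γ : ℝ}
    (hγ : 0 < γ) {x : ℝ} {l α1 : ℂ} (hl : l.im < 0)
    (hlim : LimAt (vi γ) (fun τ => L (τ, γ)) x l) (hs : S1 (q l * α1 ^ 2) ≠ 0)
    (hcl : ∀ ε : ℝ, 0 < ε → ∃ᶠ s in 𝓝[>] (0 : ℝ),
      ‖(γ : ℂ) * deriv (fun τ => L (τ, γ)) ((x : ℂ) - (vi γ + s : ℝ) * I) - α1‖ < ε) :
    RgN vi L γ ((x : ℂ) - vi γ * I) := by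
  have hγc : (γ : ℂ) ≠ 0 := by exact_mod_cast hγ.ne'
  have hmem : ∀ s : ℝ, 0 < s → ((x : ℂ) - (vi γ + s : ℝ) * I, (γ : ℂ)) ∈ Dv vi := by
    intro s hs
    refine Lb.mem hγ ?_
    change ((x : ℂ) - (vi γ + s : ℝ) * I).im < -vi γ
    simp only [sub_im, ofReal_im, mul_im, I_re, I_im, ofReal_re, mul_one, mul_zero, zero_sub]
    linarith
  -- the value of the first integral at the limit state
  have hG : Gf q l α1 = γ := by
    by_contra hne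
    have hc := (Gf_an h.ds.qd hl hs).continuousAt.eventually_ne hne
    obtain ⟨ε, hε, hb⟩ := Metric.eventually_nhds_iff_ball.1 hc
    obtain ⟨s, hs0, -, hs1, hs2⟩ := T3Rg_pick hlim hcl hε one_pos
    refine hb (L ((x : ℂ) - (vi γ + s : ℝ) * I, γ),
      (γ : ℂ) * dt L ((x : ℂ) - (vi γ + s : ℝ) * I, (γ : ℂ))) ?_ (h.ds.gf _ (hmem s hs0))
    rw [← ball_prod_same]
    exact ⟨hs1, hs2⟩
  obtain ⟨δ, P, J, hδ, hP1, hP0, hJ1, hJ2, hJP, hP4⟩ := exists_pack h.ds.qd hl hγc hs hG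
  -- the choice of `s1`
  have hPc : ∀ᶠ p in 𝓝 (l, (γ : ℂ)), ‖P p‖ < δ / 8 := by
    have h1 : ContinuousAt (fun p => ‖P p‖) (l, (γ : ℂ)) :=
      (hP1 _ ⟨mem_ball_self hδ, mem_ball_self hδ⟩).continuousAt.norm
    refine h1.eventually (gt_mem_nhds ?_)
    beta_reduce
    rw [hP0, norm_zero]
    positivity
  obtain ⟨ε, hε, hb⟩ := Metric.eventually_nhds_iff_ball.1 hPc
  obtain ⟨s1, hs10, hs1δ, hL1, hα1⟩ := T3Rg_pick hlim hcl (lt_min hε hδ)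
    (show 0 < δ / 8 by positivity)
  have hD1 := hmem s1 hs10
  obtain ⟨τ1, hτ1⟩ : ∃ τ1 : ℂ, τ1 = (x : ℂ) - (vi γ + s1 : ℝ) * I := ⟨_, rfl⟩
  rw [← hτ1] at hL1 hα1 hD1
  have hsm : ‖P (L (τ1, (γ : ℂ)), (γ : ℂ))‖ < δ / 8 := by
    refine hb _ ?_
    rw [← ball_prod_same]
    exact ⟨ball_subset_ball (min_le_left _ _) hL1, mem_ball_self hε⟩
  obtain ⟨η, hη0, hηδ, hPan, hbox⟩ := box_local h hδ hP1 hJP hP4 hD1
    (ball_subset_ball (min_le_right _ _) hL1) (ball_subset_ball (min_le_right _ _) hα1) hsm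
  obtain ⟨ζ, hζ⟩ : ∃ ζ : ℂ, ζ = (x : ℂ) - vi γ * I := ⟨_, rfl⟩
  rw [← hζ]
  have hζτ : ‖ζ - τ1‖ = s1 := by
    have h1 : ζ - τ1 = (s1 : ℂ) * I := by
      rw [hζ, hτ1]
      push_cast
      ring
    rw [h1, norm_mul, Complex.norm_real, Complex.norm_I, mul_one, Real.norm_of_nonneg hs10.le]
  have hin : ∀ τ ∈ ball ζ (δ / 4), ∀ g ∈ ball (γ : ℂ) η,
      (τ - (τ1 - P (L (τ1, g), g)), g) ∈ ball (0 : ℂ) δ ×ˢ ball (γ : ℂ) δ := by
    intro τ hτ g hg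
    refine ⟨?_, ball_subset_ball hηδ hg⟩
    rw [mem_ball, dist_eq_norm] at hτ
    rw [mem_ball_zero_iff]
    have h1 : τ - (τ1 - P (L (τ1, g), g)) = (τ - ζ) + (ζ - τ1) + P (L (τ1, g), g) := by ring
    have h2 := (hbox g hg).2.1
    calc ‖τ - (τ1 - P (L (τ1, g), g))‖ = ‖(τ - ζ) + (ζ - τ1) + P (L (τ1, g), g)‖ := by rw [h1]
      _ ≤ ‖τ - ζ‖ + ‖ζ - τ1‖ + ‖P (L (τ1, g), g)‖ :=
        (norm_add_le _ _).trans (add_le_add (norm_add_le _ _) le_rfl)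
      _ < δ := by
        rw [hζτ]
        linarith
  have hρ4 : ∀ τ, τ ∈ ball ζ (min (δ / 4) η) → τ ∈ ball ζ (δ / 4) := fun τ hτ =>
    ball_subset_ball (min_le_left _ _) hτ
  have hρη : ∀ g, g ∈ ball (γ : ℂ) (min (δ / 4) η) → g ∈ ball (γ : ℂ) η := fun g hg =>
    ball_subset_ball (min_le_right _ _) hg
  refine ⟨min (δ / 4) η, lt_min (by positivity) hη0,
    fun p => J (p.1 - (τ1 - P (L (τ1, p.2), p.2)), p.2), ?_, ?_, ?_⟩
  · rintro p ⟨hp1, hp2⟩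
    have h1 : AnalyticAt ℂ (fun p : ℂ × ℂ => P (L (τ1, p.2), p.2)) p :=
      AnalyticAt.comp (g := fun g => P (L (τ1, g), g)) (f := fun p : ℂ × ℂ => p.2)
        (hPan p.2 (hρη _ hp2)) analyticAt_snd
    have h2 : AnalyticAt ℂ (fun p : ℂ × ℂ => (p.1 - (τ1 - P (L (τ1, p.2), p.2)), p.2)) p :=
      (analyticAt_fst.sub (analyticAt_const.sub h1)).prod analyticAt_snd
    exact AnalyticAt.comp (g := J)
      (f := fun p : ℂ × ℂ => (p.1 - (τ1 - P (L (τ1, p.2), p.2)), p.2))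
      (hJ1 _ (hin p.1 (hρ4 _ hp1) p.2 (hρη _ hp2))) h2
  · rintro p ⟨hp1, hp2⟩
    exact hJ2 _ (hin p.1 (hρ4 _ hp1) p.2 (hρη _ hp2))
  · rintro ⟨τ, g⟩ ⟨hp1, hp2⟩ hpD
    have hg : g ∈ ball (γ : ℂ) η := hρη _ hp2
    have hK : Convex ℝ (ball ζ (δ / 4) ∩ {τ : ℂ | τ.im < -vi g}) :=
      (convex_ball ζ (δ / 4)).inter (convex_halfSpace_im_lt _)
    have hτ1K : τ1 ∈ ball ζ (δ / 4) ∩ {τ : ℂ | τ.im < -vi g} := by
      refine ⟨?_, (hbox g hg).1.2⟩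
      rw [mem_ball, dist_comm, dist_eq_norm, hζτ]
      linarith
    have hτK : τ ∈ ball ζ (δ / 4) ∩ {τ : ℂ | τ.im < -vi g} := ⟨hρ4 _ hp1, hpD.2⟩
    have hA1 : AnalyticOnNhd ℂ (fun τ => J (τ - (τ1 - P (L (τ1, g), g)), g))
        (ball ζ (δ / 4) ∩ {τ : ℂ | τ.im < -vi g}) := by
      intro t ht
      have h2 : AnalyticAt ℂ (fun τ : ℂ => (τ - (τ1 - P (L (τ1, g), g)), g)) t :=
        (analyticAt_id.sub analyticAt_const).prod analyticAt_const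
      exact AnalyticAt.comp (g := J) (f := fun τ : ℂ => (τ - (τ1 - P (L (τ1, g), g)), g))
        (hJ1 _ (hin t ht.1 g hg)) h2
    have hA2 : AnalyticOnNhd ℂ (fun τ => L (τ, g))
        (ball ζ (δ / 4) ∩ {τ : ℂ | τ.im < -vi g}) := by
      intro t ht
      exact AnalyticAt.comp (g := L) (f := fun τ : ℂ => (τ, g))
        (h.ds.an (t, g) ⟨hpD.1, ht.2⟩) (analyticAt_id.prod analyticAt_const)
    have hE : (fun τ => J (τ - (τ1 - P (L (τ1, g), g)), g)) =ᶠ[𝓝 τ1] fun τ => L (τ, g) := by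
      filter_upwards [ball_mem_nhds τ1 hη0] with t ht
      exact ((hbox g hg).2.2 t ht).2.symm
    exact hA1.eqOn_of_preconnected_of_eventuallyEq hA2 hK.isPreconnected hτ1K hE hτK

end Pool.Agent.MP_ae5b4e_an_T
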