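import Pool.Agent.Lib.MP_ae5b4e_an_T.T4Path

/-!
# POR (iii), N2, T4: the model coordinate near a D-side point
-/

noncomputable section

namespace Pool.Agent.MP_ae5b4e_an_T

open Complex Set Filter Topology Metric MeasureTheory
open Pool.Agent.MP_ae5b4e_an_WB
open Pool.Agent.MP_ae5b4e_an_WD
open Pool.Agent.MP_ae5b4e_an_M (S1 C1f Gf)

theorem T4Base_pair {f : ℂ × ℂ → ℂ} {p : ℂ × ℂ} (h : AnalyticAt ℂ f p) :
    HasDerivAt (fun τ => f (τ, p.2)) (fderiv ℂ f p (1, 0)) p.1 := by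
  have h1 : HasFDerivAt f (fderiv ℂ f p) (p.1, p.2) := h.differentiableAt.hasFDerivAt
  have h2 : HasDerivAt (fun τ : ℂ => ((τ, p.2) : ℂ × ℂ)) ((1 : ℂ), (0 : ℂ)) p.1 :=
    (hasDerivAt_id p.1).prodMk (hasDerivAt_const p.1 p.2)
  exact h1.comp_hasDerivAt p.1 h2

/-- Near a D-side point whose state is a state of the model, the model coordinate is an analytic
function of `(τ, γ)`, and `Tm = τ - Tb γ`; this defines `Tb`.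

Proof. (1) `implicit2` (`T3Imp.lean`) for `F ((τ, γ), z) = lb (z, γ) - L (τ, γ)` at `((τ1, γ0), z1)`
(`∂_z F = ∂_z lb ≠ 0` by `hm.rel`, `Mod.al_ne`) gives `Zd` analytic at `(τ1, γ0)`, `Zd (τ1, γ0) = z1`,
`lb (Zd p, p.2) = L p` near `(τ1, γ0)`.
(2) `exists_A` (`T3Pack.lean`) at `l = L (τ1, γ0)`, `α1 = γ0 * dt L (τ1, γ0)` (`h.s1`, `h.gf`): near
`((L .., γ0), α1)` the equation `Gf q l α = γ` implies `α = A (l, γ)`. Both `α = al (Zd p, p.2)`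
(`hm.gf`, and `lb (Zd p, p.2) = L p`) and `α = p.2 * dt L p` (`h.gf`) satisfy it with `l = L p`, `γ = p.2`,
and both are close to `α1` for `p` near `(τ1, γ0)` (continuity: `hm.aan`, `h.an_dt`, `ha`). So they agree.
(3) differentiate `lb (Zd p, p.2) = L p` in `p.1`: `∂_z lb (Zd p, p.2) * ∂_τ Zd p = dt L p`, with
`∂_z lb = al (exp (β Zd) K) / p.2 = dt L p * exp (β Zd) K` and `dt L p ≠ 0` (`h.dt_ne_zero`), so
`exp (β Zd) K * ∂_τ Zd = 1` and the derivative of `τ ↦ Tm β K (Zd (τ, γ), γ) - τ` is `0` (`hm.mdl.prim`) on a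
product neighbourhood `ball τ1 r ×ˢ ball γ0 r`. With `Tb γ = τ1 - Tm β K (Zd (τ1, γ), γ)` (analytic at
`γ0`) we get `Tm β K (Zd p, p.2) = p.1 - Tb p.2` there. -/
theorem Mod.base {q : ℂ → ℂ} {U : Set (ℂ × ℂ)} {L : ℂ × ℂ → ℂ} (h : DS q U L) {D : Set ℂ}
    {β : ℝ} {k0 : ℂ} {γ0 ρ0 : ℝ} {K lb al : ℂ × ℂ → ℂ} (hm : Mod q D β k0 γ0 ρ0 K lb al)
    {τ1 z1 : ℂ} (h1 : (τ1, (γ0 : ℂ)) ∈ U) (hz : z1 ∈ D) (hl : lb (z1, γ0) = L (τ1, γ0))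
    (ha : al (z1, γ0) = γ0 * dt L (τ1, γ0)) :
    ∃ (Zd : ℂ × ℂ → ℂ) (Tb : ℂ → ℂ), AnalyticAt ℂ Zd (τ1, γ0) ∧ Zd (τ1, γ0) = z1 ∧
      AnalyticAt ℂ Tb γ0 ∧ Tb γ0 = τ1 - Tm β K (z1, γ0) ∧
      ∀ᶠ p : ℂ × ℂ in 𝓝 (τ1, (γ0 : ℂ)), p ∈ U ∧ Zd p ∈ D ∧ p.2 ∈ ball (γ0 : ℂ) ρ0 ∧
        lb (Zd p, p.2) = L p ∧ al (Zd p, p.2) = p.2 * dt L p ∧
        Tm β K (Zd p, p.2) = p.1 - Tb p.2 := by
  have hP1 : (z1, (γ0 : ℂ)) ∈ D ×ˢ ball (γ0 : ℂ) ρ0 := ⟨hz, mem_ball_self hm.mdl.ρ_pos⟩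
  have hDo : IsOpen (D ×ˢ ball (γ0 : ℂ) ρ0) := hm.mdl.op.prod isOpen_ball
  obtain ⟨hg0, hal1, hK1⟩ := hm.al_ne hP1
  -- (1) the implicit function
  obtain ⟨F, hF⟩ : ∃ F : (ℂ × ℂ) × ℂ → ℂ, F = fun p => lb (p.2, p.1.2) - L p.1 := ⟨_, rfl⟩
  have a1 : AnalyticAt ℂ (fun p : (ℂ × ℂ) × ℂ => (p.2, p.1.2)) ((τ1, (γ0 : ℂ)), z1) :=
    analyticAt_snd.prod (analyticAt_snd.comp analyticAt_fst)
  have a2 : AnalyticAt ℂ F ((τ1, (γ0 : ℂ)), z1) := by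
    rw [hF]
    have b1 : AnalyticAt ℂ (lb ∘ fun p : (ℂ × ℂ) × ℂ => (p.2, p.1.2)) ((τ1, (γ0 : ℂ)), z1) :=
      AnalyticAt.comp (hm.lan _ hP1) a1
    have b2 : AnalyticAt ℂ (L ∘ fun p : (ℂ × ℂ) × ℂ => p.1) ((τ1, (γ0 : ℂ)), z1) :=
      AnalyticAt.comp (h.an _ h1) analyticAt_fst
    exact b1.sub b2
  have a3 : HasDerivAt (fun t => F ((τ1, (γ0 : ℂ)), t))
      (al (z1, γ0) * (exp (β * z1) * K (z1, γ0)) / γ0) z1 := by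
    rw [hF]
    exact (hm.rel _ hP1).sub_const (L (τ1, (γ0 : ℂ)))
  have a4 : F ((τ1, (γ0 : ℂ)), z1) = 0 := by
    rw [hF]
    exact sub_eq_zero.2 hl
  have hg0' : (γ0 : ℂ) ≠ 0 := hg0
  have a5 : al (z1, γ0) * (exp (β * z1) * K (z1, γ0)) / γ0 ≠ 0 :=
    div_ne_zero (mul_ne_zero hal1 (mul_ne_zero (exp_ne_zero _) hK1)) hg0'
  obtain ⟨Zd, hZ, hZ0, hZe⟩ := implicit2 a2 a4 a5 a3
  have E1 : ∀ᶠ p : ℂ × ℂ in 𝓝 (τ1, (γ0 : ℂ)), lb (Zd p, p.2) = L p := by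
    have b1 : ContinuousAt (fun p : ℂ × ℂ => (p, Zd p)) (τ1, (γ0 : ℂ)) :=
      continuousAt_id.prodMk hZ.continuousAt
    have b2 : Tendsto (fun p : ℂ × ℂ => (p, Zd p)) (𝓝 (τ1, (γ0 : ℂ)))
        (𝓝 ((τ1, (γ0 : ℂ)), z1)) := by
      have b3 := b1.tendsto
      simp only [hZ0] at b3
      exact b3
    filter_upwards [b2.eventually hZe] with p hp
    have b4 := hp.2 rfl
    rw [hF] at b4
    exact sub_eq_zero.1 b4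
  have hZc : Tendsto (fun p : ℂ × ℂ => (Zd p, p.2)) (𝓝 (τ1, (γ0 : ℂ))) (𝓝 (z1, (γ0 : ℂ))) := by
    have b1 : ContinuousAt (fun p : ℂ × ℂ => (Zd p, p.2)) (τ1, (γ0 : ℂ)) :=
      hZ.continuousAt.prodMk continuousAt_snd
    have b3 := b1.tendsto
    simp only [hZ0] at b3
    exact b3
  have E2 : ∀ᶠ p : ℂ × ℂ in 𝓝 (τ1, (γ0 : ℂ)), (Zd p, p.2) ∈ D ×ˢ ball (γ0 : ℂ) ρ0 :=
    hZc.eventually (hDo.mem_nhds hP1)
  have E3 : ∀ᶠ p : ℂ × ℂ in 𝓝 (τ1, (γ0 : ℂ)), p ∈ U := h.isOpen.mem_nhds h1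
  -- (2) the second coordinate
  obtain ⟨A, hA, hA0, hAe⟩ := exists_A (γ := (γ0 : ℂ)) (α1 := γ0 * dt L (τ1, γ0)) h.qd
    (h.low _ h1) (h.s1 _ h1) (h.gf _ h1)
  have E4 : ∀ᶠ p : ℂ × ℂ in 𝓝 (τ1, (γ0 : ℂ)), p.2 * dt L p = A (L p, p.2) := by
    have b1 : ContinuousAt (fun p : ℂ × ℂ => ((L p, p.2), p.2 * dt L p)) (τ1, (γ0 : ℂ)) :=
      ((h.an _ h1).continuousAt.prodMk continuousAt_snd).prodMk
        (continuousAt_snd.mul (h.an_dt _ h1).continuousAt)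
    filter_upwards [b1.tendsto.eventually hAe, E3] with p hp hpU
    exact hp (h.gf p hpU)
  have E5 : ∀ᶠ p : ℂ × ℂ in 𝓝 (τ1, (γ0 : ℂ)), al (Zd p, p.2) = A (L p, p.2) := by
    have b1 : Tendsto (fun p : ℂ × ℂ => al (Zd p, p.2)) (𝓝 (τ1, (γ0 : ℂ)))
        (𝓝 (γ0 * dt L (τ1, γ0))) := by
      rw [← ha]
      exact (hm.aan _ hP1).continuousAt.tendsto.comp hZc
    have b2 : ContinuousAt (fun p : ℂ × ℂ => (L p, p.2)) (τ1, (γ0 : ℂ)) :=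
      (h.an _ h1).continuousAt.prodMk continuousAt_snd
    have b3 := b2.tendsto.prodMk_nhds b1
    filter_upwards [b3.eventually hAe, E1, E2] with p hp c1 c2
    refine hp ?_
    have c3 := hm.gf _ c2
    show Gf q (L p) (al (Zd p, p.2)) = p.2
    rw [← c1]
    exact c3
  have E6 : ∀ᶠ p : ℂ × ℂ in 𝓝 (τ1, (γ0 : ℂ)), p ∈ U ∧ (Zd p, p.2) ∈ D ×ˢ ball (γ0 : ℂ) ρ0 ∧
      lb (Zd p, p.2) = L p ∧ al (Zd p, p.2) = p.2 * dt L p ∧ AnalyticAt ℂ Zd p := by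
    filter_upwards [E1, E2, E3, E4, E5, hZ.eventually_analyticAt] with p c1 c2 c3 c4 c5 c6
    exact ⟨c3, c2, c1, by rw [c5, c4], c6⟩
  obtain ⟨r, hr, hb⟩ := Metric.eventually_nhds_iff_ball.1 E6
  rw [← ball_prod_same] at hb
  -- (3) the height
  have hder : ∀ p ∈ ball τ1 r ×ˢ ball (γ0 : ℂ) r,
      HasDerivAt (fun τ => Tm β K (Zd (τ, p.2), p.2) - τ) 0 p.1 := by
    intro p hp
    obtain ⟨c1, c2, c3, c4, c5⟩ := hb p hp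
    obtain ⟨d1, d2, d3⟩ := hm.al_ne c2
    have d1' : p.2 ≠ 0 := d1
    have hz := T4Base_pair c5
    obtain ⟨z', hz'⟩ : ∃ z' : ℂ, z' = fderiv ℂ Zd p (1, 0) := ⟨_, rfl⟩
    rw [← hz'] at hz
    have k1 : HasDerivAt (fun τ => lb (Zd (τ, p.2), p.2))
        (al (Zd p, p.2) * (exp (β * Zd p) * K (Zd p, p.2)) / p.2 * z') p.1 :=
      HasDerivAt.comp (h₂ := fun z => lb (z, p.2)) (h := fun τ => Zd (τ, p.2)) p.1
        (hm.rel (Zd p, p.2) c2) hz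
    have k2 : HasDerivAt (fun τ => L (τ, p.2)) (dt L p) p.1 :=
      (T4Base_pair (h.an p c1)).differentiableAt.hasDerivAt
    have k3 : al (Zd p, p.2) * (exp (β * Zd p) * K (Zd p, p.2)) / p.2 * z' = dt L p := by
      refine k1.unique (k2.congr_of_eventuallyEq ?_)
      filter_upwards [isOpen_ball.mem_nhds hp.1] with τ hτ
      exact (hb (τ, p.2) ⟨hτ, hp.2⟩).2.2.1
    have k4 : HasDerivAt (fun τ => Tm β K (Zd (τ, p.2), p.2))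
        (exp (β * Zd p) * K (Zd p, p.2) * z') p.1 :=
      HasDerivAt.comp (h₂ := fun z => Tm β K (z, p.2)) (h := fun τ => Zd (τ, p.2)) p.1
        (hm.mdl.prim.2 (Zd p, p.2) c2).1 hz
    have k5 : exp (β * Zd p) * K (Zd p, p.2) * z' = 1 := by
      have k6 : al (Zd p, p.2) * (exp (β * Zd p) * K (Zd p, p.2) * z') = al (Zd p, p.2) * 1 := by
        rw [mul_one]
        conv_rhs => rw [c4, ← k3]
        field_simp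
      exact mul_left_cancel₀ d2 k6
    rw [k5] at k4
    have k7 := k4.sub (hasDerivAt_id p.1)
    rw [sub_self] at k7
    exact k7
  refine ⟨Zd, fun γ => τ1 - Tm β K (Zd (τ1, γ), γ), hZ, hZ0, ?_, ?_, ?_⟩
  · have b1 : AnalyticAt ℂ (fun γ : ℂ => ((τ1, γ) : ℂ × ℂ)) (γ0 : ℂ) :=
      analyticAt_const.prod analyticAt_id
    have b2 : AnalyticAt ℂ (Zd ∘ fun γ : ℂ => ((τ1, γ) : ℂ × ℂ)) (γ0 : ℂ) :=
      AnalyticAt.comp hZ b1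
    have b3 : AnalyticAt ℂ (fun γ : ℂ => ((Zd (τ1, γ), γ) : ℂ × ℂ)) (γ0 : ℂ) :=
      b2.prod analyticAt_id
    have b4 : AnalyticAt ℂ (Tm β K) ((fun γ : ℂ => ((Zd (τ1, γ), γ) : ℂ × ℂ)) (γ0 : ℂ)) := by
      show AnalyticAt ℂ (Tm β K) (Zd (τ1, (γ0 : ℂ)), (γ0 : ℂ))
      rw [hZ0]
      exact hm.mdl.prim.1 _ hP1
    have b5 : AnalyticAt ℂ (Tm β K ∘ fun γ : ℂ => ((Zd (τ1, γ), γ) : ℂ × ℂ)) (γ0 : ℂ) :=
      AnalyticAt.comp b4 b3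
    exact analyticAt_const.sub b5
  · show τ1 - Tm β K (Zd (τ1, (γ0 : ℂ)), (γ0 : ℂ)) = _
    rw [hZ0]
  · have b1 : ∀ᶠ p : ℂ × ℂ in 𝓝 (τ1, (γ0 : ℂ)), p ∈ ball τ1 r ×ˢ ball (γ0 : ℂ) r :=
      (isOpen_ball.prod isOpen_ball).mem_nhds ⟨mem_ball_self hr, mem_ball_self hr⟩
    filter_upwards [b1] with p hp
    obtain ⟨c1, c2, c3, c4, c5⟩ := hb p hp
    refine ⟨c1, c2.1, c2.2, c3, c4, ?_⟩
    have b2 := isOpen_ball.is_const_of_deriv_eq_zero (convex_ball τ1 r).isPreconnected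
      (f := fun τ => Tm β K (Zd (τ, p.2), p.2) - τ)
      (fun τ hτ => (hder (τ, p.2) ⟨hτ, hp.2⟩).differentiableAt.differentiableWithinAt)
      (fun τ hτ => (hder (τ, p.2) ⟨hτ, hp.2⟩).deriv) hp.1 (mem_ball_self hr)
    have b3 : Tm β K (Zd p, p.2) - p.1 = Tm β K (Zd (τ1, p.2), p.2) - τ1 := b2
    linear_combination b3

end Pool.Agent.MP_ae5b4e_an_T
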