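import Pool.Agent.Lib.MP_ae5b4e_an_T.T3
import Pool.Agent.Lib.MP_ae5b4e_an_WD.Z5
import Pool.Agent.Lib.MP_ae5b4e_an_WD.TipL2
import Pool.Agent.Lib.MP_ae5b4e_an_WD.AV3

/-!
# POR (iii), N2, section T, block T4 (slit neighbourhoods): definitions

Model of the label near a branch point: coordinate `z` in a domain `D` invariant under the translations
`z ↦ z - s`, `s ≥ 0` (tip: `z = 2 i y`; point `Z_k`: `z = log w`). `lb (z, γ)` = label, `al (z, γ)` = the value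
of `γ ∂_τ L`, `Tm (z, γ)` = `τ - Tb γ`, with `∂_z Tm = e^(βz) K (z, γ)`, `K` close to the constant `k0`.
-/

noncomputable section

namespace Pool.Agent.MP_ae5b4e_an_T

open Complex Set Filter Topology Metric MeasureTheory
open Pool.Agent.MP_ae5b4e_an_WB
open Pool.Agent.MP_ae5b4e_an_WD
open Pool.Agent.MP_ae5b4e_an_M (S1 C1f Gf)

/-- `τ - Tb γ` as a function of the coordinate `p.1 = z` and of `p.2 = γ` -/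
def Tm (β : ℝ) (K : ℂ × ℂ → ℂ) (p : ℂ × ℂ) : ℂ :=
  ∫ s in Ioi (0 : ℝ), exp (β * (p.1 - s)) * K (p.1 - s, p.2)

/-- the kernel of a model -/
structure Mdl (D : Set ℂ) (β : ℝ) (k0 : ℂ) (γ0 ρ0 : ℝ) (K : ℂ × ℂ → ℂ) : Prop where
  β_pos : 0 < β
  k0_ne : k0 ≠ 0
  ρ_pos : 0 < ρ0
  ρ_lt : ρ0 < γ0
  op : IsOpen D
  shift : ∀ z ∈ D, ∀ s : ℝ, 0 ≤ s → z - s ∈ D
  an : AnalyticOnNhd ℂ K (D ×ˢ ball (γ0 : ℂ) ρ0)
  near : ∀ p ∈ D ×ˢ ball (γ0 : ℂ) ρ0, ‖K p - k0‖ ≤ ‖k0‖ / 100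

/-- model of the label near a branch point -/
structure Mod (q : ℂ → ℂ) (D : Set ℂ) (β : ℝ) (k0 : ℂ) (γ0 ρ0 : ℝ) (K lb al : ℂ × ℂ → ℂ) :
    Prop where
  mdl : Mdl D β k0 γ0 ρ0 K
  lan : AnalyticOnNhd ℂ lb (D ×ˢ ball (γ0 : ℂ) ρ0)
  aan : AnalyticOnNhd ℂ al (D ×ˢ ball (γ0 : ℂ) ρ0)
  low : ∀ p ∈ D ×ˢ ball (γ0 : ℂ) ρ0, (lb p).im < 0
  rel : ∀ p ∈ D ×ˢ ball (γ0 : ℂ) ρ0,
    HasDerivAt (fun z => lb (z, p.2)) (al p * (exp (β * p.1) * K p) / p.2) p.1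
  s1 : ∀ p ∈ D ×ˢ ball (γ0 : ℂ) ρ0, S1 (q (lb p) * al p ^ 2) ≠ 0
  gf : ∀ p ∈ D ×ˢ ball (γ0 : ℂ) ρ0, Gf q (lb p) (al p) = p.2
  /-- `y²` has no regular limit for `Re z → - ∞` -/
  no : ∀ γ ∈ ball (γ0 : ℂ) ρ0, ∀ (F : Filter ℂ) [NeBot F], F ≤ 𝓟 D → Tendsto re F atBot →
    ∀ X : ℂ, Tendsto (fun z => q (lb (z, γ)) * al (z, γ) ^ 2) F (𝓝 X) → S1 X = 0

/-- the D-side states along the vertical line below `ζ` are the states of the model along the path `z` -/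
structure Pst (U : Set (ℂ × ℂ)) (L : ℂ × ℂ → ℂ) (D : Set ℂ) (β γ0 : ℝ) (lb al : ℂ × ℂ → ℂ) (ζ : ℂ)
    (s2 : ℝ) (z : ℝ → ℂ) : Prop where
  pos : 0 < s2
  cont : ContinuousOn z (Ioc 0 s2)
  mem : ∀ s ∈ Ioc (0 : ℝ) s2, z s ∈ D ∧ (ζ - I * s, (γ0 : ℂ)) ∈ U ∧
    lb (z s, γ0) = L (ζ - I * s, γ0) ∧ al (z s, γ0) = γ0 * dt L (ζ - I * s, γ0)
  lim : Tendsto (fun s => (z s).re) (𝓝[>] 0) atBot
  room : ∀ᶠ s in 𝓝[>] (0 : ℝ), ∀ w : ℂ, w.re < (z s).re + 1 / β → |w.im - (z s).im| < 4 / β → w ∈ D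

/-! ## the tip -/

/-- `W0² = tipc` -/
def W0 : ℂ := (Real.exp 1 / 2 : ℝ) * I

/-- `G (z / (2i)) = W0 gz z` -/
def gz (z : ℂ) : ℂ := (1 - exp z) * exp (z * exp z / (1 - exp z))

/-- the coordinates `z = 2 i y` near the tip -/
def DT (c : ℝ) : Set ℂ := {z | z.re < -1 ∧ ‖z‖ * Real.exp z.re < c}

/-- `γ ∂_τ L` in the coordinate `z = 2 i y` -/
def alT (p : ℂ × ℂ) : ℂ := p.2 * p.1 / (2 * I * (W0 * gz p.1))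

/-! ## the points `Z_k` -/

/-- the coordinates `X`, `w = (-1)^k e^X`, near a point `Z_k` -/
def DZ (M : ℝ) : Set ℂ := {X | X.re < -M}

/-- `γ ∂_τ L` in the coordinate `X`; `Y` is the sheet, `G (Y X) = (-1)^k e^X` -/
def alZ (k : ℕ) (Y : ℂ → ℂ) (p : ℂ × ℂ) : ℂ := (-1) ^ k * p.2 * Y p.1 * exp (-p.1)

end Pool.Agent.MP_ae5b4e_an_T
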