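import Pool.Agent.Lib.MP_ae5b4e_an_T.T4Def

/-!
# POR (iii), N2, T4: gluing with the D-side label
-/

noncomputable section

namespace Pool.Agent.MP_ae5b4e_an_T

open Complex Set Filter Topology Metric MeasureTheory
open Pool.Agent.MP_ae5b4e_an_WB
open Pool.Agent.MP_ae5b4e_an_WD
open Pool.Agent.MP_ae5b4e_an_M (S1 C1f Gf)

/-- a function on the slit bidisc which agrees with the D-side label near one point below the tip
agrees with it on the whole intersection.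

Proof. Write `B = ball γ0 ρ`, `R = 2 s1`, `S = Slb Tb ζ γ0 R ρ`, `v0 = vi γ0` (so `ζ.im = - v0`).
(1) `N = {p | p.1 ∈ ball ζ R ∧ p.1.im < ζ.im - s1/8 ∧ p.2 ∈ B}` is open and convex (product of an
intersection of two convex sets and a ball), `N ⊆ S` (`(Tb γ).im > ζ.im - s1/8 > p.1.im`) and
`N ⊆ Dv vi` (`p.1.im < - v0 - s1/8 < - vi γ`; `p.2 ≠ 0` since `ρ < γ0`), `(ζ - I s1, γ0) ∈ N`. `Λ` and `L`
are analytic on `N` (`h.ds.an`) and agree near this point: `Λ = L` on `N`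
(`AnalyticOnNhd.eqOn_of_preconnected_of_eventuallyEq`).
(2) let `p = (τ, γ) ∈ S ∩ Dv vi`. Put `c = (Tb γ).re + (ζ.im - s1) I`, and
`Kγ = {t ∈ ball ζ R | t.im < - vi γ ∧ ¬ (t.re = (Tb γ).re ∧ (Tb γ).im ≤ t.im)}`. `c ∈ Kγ`
(`‖c - ζ‖ ≤ s1/8 + s1 < 2 s1`) and `(c, γ) ∈ N`. `Kγ` is star-convex with respect to `c`: for `t ∈ Kγ` the
segment `[c, t]` is in the ball and in the half plane (convex), and a point `c + θ (t - c)` of the
segment has real part `(Tb γ).re` only if `θ = 0` or `t.re = (Tb γ).re`; in the second case `t.im < (Tb γ).im`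
and `c.im < (Tb γ).im`, so the imaginary part of the point is `< (Tb γ).im`. So `Kγ` is preconnected
(`StarConvex.isPathConnected`/`.isPreconnected`), and open. The one variable functions `t ↦ Λ (t, γ)`,
`t ↦ L (t, γ)` are analytic on `Kγ` (`AnalyticAt.comp` with `t ↦ (t, γ)`; `(t, γ) ∈ S ∩ Dv vi`) and agree
near `c` by (1); so they agree on `Kγ ∋ τ`. -/
theorem glue_eq {q : ℂ → ℂ} {C : ℝ} {vi : ℂ → ℝ} {L : ℂ × ℂ → ℂ} (h : Lb q C vi L) {γ0 s1 ρ : ℝ}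
    {ζ : ℂ} {Tb : ℂ → ℂ} {Λ : ℂ × ℂ → ℂ} (hζ : ζ.im = -vi γ0) (hs1 : 0 < s1) (hρ : 0 < ρ)
    (hρ0 : ρ < γ0) (hin : ∀ γ ∈ ball (γ0 : ℂ) ρ, ‖Tb γ - ζ‖ < s1 / 8)
    (hv : ∀ γ ∈ ball (γ0 : ℂ) ρ, vi γ < vi γ0 + s1 / 8)
    (hΛ : AnalyticOnNhd ℂ Λ (Slb Tb ζ γ0 (2 * s1) ρ))
    (he : ∀ᶠ p : ℂ × ℂ in 𝓝 (ζ - I * s1, (γ0 : ℂ)), Λ p = L p) :
    ∀ p ∈ Slb Tb ζ γ0 (2 * s1) ρ, p ∈ Dv vi → Λ p = L p := by
  -- the convex part below the tip
  set N : Set (ℂ × ℂ) := (ball ζ (2 * s1) ∩ {t : ℂ | t.im < ζ.im - s1 / 8}) ×ˢ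
    ball (γ0 : ℂ) ρ with hN
  have hNc : IsPreconnected N :=
    (((convex_ball ζ (2 * s1)).inter (convex_halfSpace_im_lt (ζ.im - s1 / 8))).prod
      (convex_ball (γ0 : ℂ) ρ)).isPreconnected
  have htb : ∀ γ ∈ ball (γ0 : ℂ) ρ, |(Tb γ).re - ζ.re| < s1 / 8 ∧ ζ.im - s1 / 8 < (Tb γ).im := by
    intro γ hγ
    have h1 := hin γ hγ
    have h2 := (abs_re_le_norm (Tb γ - ζ)).trans_lt h1
    have h3 := (abs_im_le_norm (Tb γ - ζ)).trans_lt h1
    rw [sub_re] at h2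
    rw [sub_im, abs_lt] at h3
    exact ⟨h2, by linarith [h3.1]⟩
  have hne : ∀ γ ∈ ball (γ0 : ℂ) ρ, γ ≠ 0 := by
    rintro γ hγ rfl
    rw [mem_ball, dist_eq_norm, zero_sub, norm_neg, Complex.norm_real, Real.norm_eq_abs] at hγ
    have := le_abs_self γ0
    linarith
  have hNS : N ⊆ Slb Tb ζ γ0 (2 * s1) ρ := by
    rintro p ⟨⟨h1, h2⟩, h3⟩
    have h2' : p.1.im < ζ.im - s1 / 8 := h2
    refine ⟨⟨h1, h3⟩, fun h4 => ?_⟩
    have h5 := (htb p.2 h3).2
    linarith [h4.2]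
  have hND : N ⊆ Dv vi := by
    rintro p ⟨⟨h1, h2⟩, h3⟩
    have h2' : p.1.im < ζ.im - s1 / 8 := h2
    exact ⟨hne p.2 h3, by linarith [hv p.2 h3]⟩
  have hmem : ((ζ - I * s1, (γ0 : ℂ)) : ℂ × ℂ) ∈ N := by
    refine ⟨⟨?_, ?_⟩, mem_ball_self hρ⟩
    · have h1 : ‖ζ - I * s1 - ζ‖ = s1 := by
        rw [sub_sub_cancel_left, norm_neg, norm_mul, norm_I, one_mul, Complex.norm_real,
          Real.norm_eq_abs, abs_of_pos hs1]
      change ζ - I * s1 ∈ ball ζ (2 * s1)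
      rw [mem_ball, dist_eq_norm, h1]
      linarith
    · change (ζ - I * s1).im < ζ.im - s1 / 8
      have h1 : (I * (s1 : ℂ)).im = s1 := by simp
      rw [sub_im, h1]
      linarith
  have hEq : EqOn Λ L N :=
    AnalyticOnNhd.eqOn_of_preconnected_of_eventuallyEq (hΛ.mono hNS) (h.ds.an.mono hND) hNc hmem he
  -- one slice
  rintro ⟨τ, γ⟩ hp hpD
  have hγ : γ ∈ ball (γ0 : ℂ) ρ := hp.1.2
  obtain ⟨hb1, hb2⟩ := htb γ hγ
  have hvγ := hv γ hγ
  set K : Set ℂ := {t | t ∈ ball ζ (2 * s1) ∧ t.im < -vi γ ∧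
    ¬(t.re = (Tb γ).re ∧ (Tb γ).im ≤ t.im)} with hK
  set c : ℂ := ⟨(Tb γ).re, ζ.im - s1⟩ with hc
  have hcre : c.re = (Tb γ).re := rfl
  have hcim : c.im = ζ.im - s1 := rfl
  have hcball : c ∈ ball ζ (2 * s1) := by
    rw [mem_ball, dist_eq_norm]
    refine (Complex.norm_le_abs_re_add_abs_im _).trans_lt ?_
    rw [sub_re, sub_im, hcre, hcim]
    have h1 : |ζ.im - s1 - ζ.im| = s1 := by
      rw [sub_sub_cancel_left, abs_neg, abs_of_pos hs1]
    rw [h1]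
    linarith
  have hcK : c ∈ K := by
    refine ⟨hcball, ?_, fun h1 => ?_⟩
    · rw [hcim]
      linarith
    · rw [hcim] at h1
      linarith [h1.2]
  have hstar : StarConvex ℝ c K := by
    intro y hy a b ha hb hab
    obtain ⟨hy1, hy2, hy3⟩ := hy
    have hre : (a • c + b • y).re = a * (Tb γ).re + b * y.re := by
      rw [add_re, Complex.smul_re, Complex.smul_re, smul_eq_mul, smul_eq_mul, hcre]
    have him : (a • c + b • y).im = a * c.im + b * y.im := by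
      rw [add_im, Complex.smul_im, Complex.smul_im, smul_eq_mul, smul_eq_mul]
    have ha' : a = 1 - b := by linarith
    refine ⟨(convex_ball ζ (2 * s1)) hcball hy1 ha hb hab, ?_, ?_⟩
    · rw [him]
      have h1 : c.im < -vi γ := hcK.2.1
      rcases hb.eq_or_lt with h0 | h0
      · rw [ha', ← h0]
        linarith
      · have e : a * (-vi γ) + b * (-vi γ) = -vi γ := by rw [← add_mul, hab, one_mul]
        linarith [mul_le_mul_of_nonneg_left h1.le ha, mul_lt_mul_of_pos_left hy2 h0]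
    · rintro ⟨h1, h2⟩
      rw [hre, ha'] at h1
      rw [him, ha'] at h2
      have h3 : c.im < (Tb γ).im := by
        rw [hcim]
        linarith
      rcases hb.eq_or_lt with h0 | h0
      · rw [← h0] at h2
        linarith
      · have h4 : y.re = (Tb γ).re := by
          have h5 : b * (y.re - (Tb γ).re) = 0 := by linarith
          rcases mul_eq_zero.1 h5 with h6 | h6
          · exact absurd h6 h0.ne'
          · linarith
        have h7 : y.im < (Tb γ).im := by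
          by_contra h8
          exact hy3 ⟨h4, not_lt.1 h8⟩
        have h9 : 0 ≤ 1 - b := by linarith
        nlinarith [mul_le_mul_of_nonneg_left h3.le h9, mul_lt_mul_of_pos_left h7 h0]
  have hKp : IsPreconnected K := (hstar.isPathConnected hcK).isConnected.isPreconnected
  have hcomp : ∀ {f : ℂ × ℂ → ℂ} {t : ℂ}, AnalyticAt ℂ f (t, γ) →
      AnalyticAt ℂ (fun t => f (t, γ)) t := by
    intro f t hf
    exact AnalyticAt.comp (g := f) (f := fun t : ℂ => (t, γ)) hf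
      (AnalyticAt.prod analyticAt_id analyticAt_const)
  have hA1 : AnalyticOnNhd ℂ (fun t => Λ (t, γ)) K :=
    fun t ht => hcomp (hΛ (t, γ) ⟨⟨ht.1, hγ⟩, ht.2.2⟩)
  have hA2 : AnalyticOnNhd ℂ (fun t => L (t, γ)) K :=
    fun t ht => hcomp (h.ds.an (t, γ) ⟨hne γ hγ, ht.2.1⟩)
  have hopen : IsOpen (ball ζ (2 * s1) ∩ {t : ℂ | t.im < ζ.im - s1 / 8}) :=
    isOpen_ball.inter (isOpen_lt continuous_im continuous_const)
  have hev : (fun t => Λ (t, γ)) =ᶠ[𝓝 c] (fun t => L (t, γ)) := by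
    have hcm : c ∈ ball ζ (2 * s1) ∩ {t : ℂ | t.im < ζ.im - s1 / 8} :=
      ⟨hcball, by change c.im < ζ.im - s1 / 8; rw [hcim]; linarith⟩
    filter_upwards [hopen.mem_nhds hcm] with t ht
    exact hEq (show ((t, γ) : ℂ × ℂ) ∈ N from ⟨ht, hγ⟩)
  exact AnalyticOnNhd.eqOn_of_preconnected_of_eventuallyEq hA1 hA2 hKp hcK hev
    (show τ ∈ K from ⟨hp.1.1, hpD.2, hp.2⟩)

end Pool.Agent.MP_ae5b4e_an_T
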