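import Pool.Agent.Lib.MP_ae5b4e_an_T.T4Def

/-!
# POR (iii), N2, T4: the function `gz` (the tip in the coordinate `z = 2 i y`)
-/

noncomputable section

namespace Pool.Agent.MP_ae5b4e_an_T

open Complex Set Filter Topology Metric MeasureTheory
open Pool.Agent.MP_ae5b4e_an_WB
open Pool.Agent.MP_ae5b4e_an_WD

/-- Proof. `W0 ^ 2 = (e/2)^2 * I^2 = - e^2/4`, `Real.exp 2 = Real.exp 1 ^ 2`. -/
theorem W0_sq : W0 ^ 2 = tipc := by
  have h : Real.exp 2 = Real.exp 1 ^ 2 := by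
    rw [← Real.exp_nat_mul]
    norm_num
  unfold W0 tipc
  rw [mul_pow, I_sq, h]
  push_cast
  ring

theorem W0_ne : W0 ≠ 0 := by
  unfold W0
  refine mul_ne_zero ?_ I_ne_zero
  have h : Real.exp 1 / 2 ≠ 0 := by positivity
  exact_mod_cast h

/-- `G (z / (2i)) = W0 gz z`.

Proof. `y = z/(2i)`, `E = exp z = exp (2 i y)`: `sin y = (exp (-i y) - exp (i y)) I / 2`
`= (I/2) exp (-z/2) (1 - E)`, `cos y / sin y = I (E + 1)/(E - 1)` (multiply by `exp (i y)`),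
`1 - y cos y / sin y = 1 + (z/2) (1 + E)/(1 - E) = 1 + z/2 + z E/(1 - E)`. The product is
`(I/2) (1 - E) exp (1 + z E/(1 - E))`. -/
theorem G_gz {z : ℂ} (h : exp z ≠ 1) : sin (z / (2 * I)) ≠ 0 ∧ G (z / (2 * I)) = W0 * gz z := by
  obtain ⟨e, he⟩ : ∃ e : ℂ, e = exp (z / 2) := ⟨_, rfl⟩
  have e0 : e ≠ 0 := by
    rw [he]
    exact exp_ne_zero _
  have hE : exp z = e ^ 2 := by
    rw [he, ← Complex.exp_nat_mul]
    congr 1
    push_cast
    ring
  have hI : z / (2 * I) * I = z / 2 := by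
    field_simp
  have h1 : exp (z / (2 * I) * I) = e := by rw [hI, he]
  have h2 : exp (-(z / (2 * I)) * I) = e⁻¹ := by
    rw [neg_mul, hI, Complex.exp_neg, he]
  have hs : sin (z / (2 * I)) = (e⁻¹ - e) * I / 2 := by
    rw [Complex.sin, h1, h2]
  have hc : cos (z / (2 * I)) = (e + e⁻¹) / 2 := by
    rw [Complex.cos, h1, h2]
  rw [hE] at h
  have h3 : 1 - e ^ 2 ≠ 0 := sub_ne_zero.2 (Ne.symm h)
  have hs0 : sin (z / (2 * I)) ≠ 0 := by
    rw [hs]
    have h4 : e⁻¹ - e ≠ 0 := by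
      have h5 : e⁻¹ - e = (1 - e ^ 2) / e := by
        field_simp
      rw [h5]
      exact div_ne_zero h3 e0
    exact div_ne_zero (mul_ne_zero h4 I_ne_zero) two_ne_zero
  refine ⟨hs0, ?_⟩
  have h4 : 1 - z / (2 * I) * (cos (z / (2 * I)) / sin (z / (2 * I))) =
      1 + z / 2 + z * e ^ 2 / (1 - e ^ 2) := by
    rw [hs, hc]
    have h5 : e⁻¹ - e = (1 - e ^ 2) / e := by
      field_simp
    have h6 : e + e⁻¹ = (1 + e ^ 2) / e := by
      field_simp
      ring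
    rw [h5, h6]
    have hI2 : I ^ 2 = -1 := I_sq
    field_simp
    rw [hI2]
    ring
  unfold G gz W0
  rw [h4, hs, hE]
  rw [Complex.exp_add, Complex.exp_add, ← he]
  push_cast
  field_simp

/-- Proof. Product and chain rule; `gz' / gz = - E/(1-E) + (E + z E)/(1-E) + z E^2/(1-E)^2 = z E/(1-E)^2`. -/
theorem gz_hasDerivAt {z : ℂ} (h : exp z ≠ 1) :
    HasDerivAt gz (gz z * (z * exp z / (1 - exp z) ^ 2)) z := by
  have h1 : 1 - exp z ≠ 0 := sub_ne_zero.2 (Ne.symm h)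
  have h2 : HasDerivAt (fun z => 1 - exp z) (-exp z) z := by
    have := (Complex.hasDerivAt_exp z).const_sub 1
    exact this
  have h3 : HasDerivAt (fun z => z * exp z) (1 * exp z + z * exp z) z :=
    (hasDerivAt_id z).mul (Complex.hasDerivAt_exp z)
  have h4 := h3.div h2 h1
  have h5 := h2.mul h4.cexp
  refine h5.congr_deriv ?_
  show _ = (1 - exp z) * exp (z * exp z / (1 - exp z)) * (z * exp z / (1 - exp z) ^ 2)
  simp only [Pi.div_apply]
  field_simp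
  ring

theorem gz_ne {z : ℂ} (h : exp z ≠ 1) : gz z ≠ 0 := by
  exact mul_ne_zero (sub_ne_zero.2 (Ne.symm h)) (exp_ne_zero _)

theorem isOpen_DT (c : ℝ) : IsOpen (DT c) := by
  have h1 : IsOpen {z : ℂ | z.re < -1} := isOpen_lt continuous_re continuous_const
  have h2 : IsOpen {z : ℂ | ‖z‖ * Real.exp z.re < c} := isOpen_lt (by fun_prop) continuous_const
  exact h1.inter h2

theorem T4Gz_norm {z : ℂ} (h : z.re ≤ -1) : 1 ≤ ‖z‖ := by
  have h1 := Complex.abs_re_le_norm z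
  have h2 := neg_le_abs z.re
  linarith

/-- Proof. `‖exp z‖ = Real.exp z.re < 1`. -/
theorem DT_exp {c : ℝ} {z : ℂ} (hz : z ∈ DT c) : exp z ≠ 1 ∧ ‖exp z‖ < c := by
  have h1 := T4Gz_norm hz.1.le
  have h2 : ‖exp z‖ = Real.exp z.re := Complex.norm_exp z
  have h3 := hz.2
  have h4 := Real.exp_pos z.re
  constructor
  · intro h5
    rw [h5, norm_one] at h2
    have h6 : Real.exp z.re < 1 := by
      rw [← Real.exp_zero]
      exact Real.exp_lt_exp.2 (by linarith [hz.1])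
    linarith
  · rw [h2]
    nlinarith

/-- Proof. `‖z - s‖ exp (z.re - s) ≤ (‖z‖ + s) exp (-s) exp z.re ≤ ‖z‖ (1 + s) exp (-s) exp z.re ≤
‖z‖ exp z.re` (`‖z‖ ≥ |z.re| ≥ 1`, `Real.add_one_le_exp`). -/
theorem DT_shift {c : ℝ} {z : ℂ} (hz : z ∈ DT c) {s : ℝ} (hs : 0 ≤ s) : z - s ∈ DT c := by
  have h1 := T4Gz_norm hz.1.le
  have h2 : (z - s).re = z.re - s := by simp
  have h3 := Real.exp_pos z.re
  refine ⟨by rw [h2]; linarith [hz.1], ?_⟩
  have h4 : ‖z - s‖ ≤ ‖z‖ + s := by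
    have := norm_sub_le z (s : ℂ)
    rwa [Complex.norm_real, Real.norm_eq_abs, abs_of_nonneg hs] at this
  have h5 : (‖z‖ + s) * Real.exp (-s) ≤ ‖z‖ := by
    have h6 := Real.add_one_le_exp s
    have h7 : ‖z‖ + s ≤ ‖z‖ * Real.exp s := by nlinarith
    have h8 := mul_le_mul_of_nonneg_right h7 (Real.exp_pos (-s)).le
    rw [mul_assoc, ← Real.exp_add, add_neg_cancel, Real.exp_zero, mul_one] at h8
    exact h8
  have h6 : Real.exp (z.re - s) = Real.exp z.re * Real.exp (-s) := by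
    rw [sub_eq_add_neg, Real.exp_add]
  rw [h2, h6]
  calc ‖z - s‖ * (Real.exp z.re * Real.exp (-s))
      ≤ (‖z‖ + s) * (Real.exp z.re * Real.exp (-s)) :=
        mul_le_mul_of_nonneg_right h4 (by positivity)
    _ = (‖z‖ + s) * Real.exp (-s) * Real.exp z.re := by ring
    _ ≤ ‖z‖ * Real.exp z.re := mul_le_mul_of_nonneg_right h5 h3.le
    _ < c := hz.2

/-- ROOM. Proof. `‖z‖ ≥ 1`, so `exp z.re < c/100 ≤ 1/2000 < exp (-7)` and `z.re < -7`. Let `t = w.re - z.re < 1`: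
`‖w‖ ≤ ‖z‖ + |t| + 4`. If `t ≤ 0`: `‖w‖ exp w.re ≤ exp z.re ((‖z‖ + 4) + |t| exp t) ≤ exp z.re (‖z‖ + 5)`. If
`0 < t < 1`: `≤ exp z.re (‖z‖ + 5) exp 1`. In both cases `≤ 3 * 6 * ‖z‖ exp z.re < 18 c/100 < c`. -/
theorem DT_room {c : ℝ} (hc : 0 < c) (hc1 : c ≤ 1 / 20) {z : ℂ} (hz : z ∈ DT (c / 100)) {w : ℂ}
    (h1 : w.re < z.re + 1) (h2 : |w.im - z.im| < 4) : w ∈ DT c := by
  have n1 := T4Gz_norm hz.1.le
  have h3 := hz.2
  have e0 := Real.exp_pos z.re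
  have h4 : Real.exp z.re < 1 / 2000 := by nlinarith
  have h5 : z.re < -7 := by
    by_contra hcon
    push Not at hcon
    have h6 : Real.exp (-7) ≤ Real.exp z.re := Real.exp_le_exp.2 hcon
    have h7 : Real.exp 7 ≤ 2000 := by
      have h8 : Real.exp 7 = Real.exp 1 ^ 7 := by
        rw [← Real.exp_nat_mul]
        norm_num
      have h9 : Real.exp 1 ≤ 2.8 := by
        have := Real.exp_one_lt_d9
        linarith
      rw [h8]
      calc Real.exp 1 ^ 7 ≤ (2.8 : ℝ) ^ 7 := pow_le_pow_left₀ (Real.exp_pos _).le h9 7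
        _ ≤ 2000 := by norm_num
    have h8 : 1 / 2000 ≤ Real.exp (-7) := by
      rw [Real.exp_neg, ← one_div]
      exact one_div_le_one_div_of_le (Real.exp_pos _) h7
    linarith
  refine ⟨by linarith, ?_⟩
  obtain ⟨t, ht⟩ : ∃ t : ℝ, t = w.re - z.re := ⟨_, rfl⟩
  have hw : w.re = z.re + t := by
    rw [ht]
    ring
  have h6 : ‖w‖ ≤ ‖z‖ + (|t| + 4) := by
    have k1 := norm_add_le z (w - z)
    rw [add_sub_cancel] at k1
    have k2 := Complex.norm_le_abs_re_add_abs_im (w - z)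
    rw [sub_re, sub_im, ← ht] at k2
    linarith
  have ht0 := Real.exp_pos t
  have h7 : (‖z‖ + (|t| + 4)) * Real.exp t ≤ 18 * ‖z‖ := by
    rcases le_total t 0 with h8 | h8
    · rw [abs_of_nonpos h8]
      have k1 : Real.exp t ≤ 1 := Real.exp_le_one_iff.2 h8
      have k2 : -t * Real.exp t ≤ 1 := by
        have k3 := Real.add_one_le_exp (-t)
        have k4 : -t ≤ Real.exp (-t) := by linarith
        have k5 := mul_le_mul_of_nonneg_right k4 ht0.le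
        rw [← Real.exp_add, neg_add_cancel, Real.exp_zero] at k5
        exact k5
      nlinarith
    · rw [abs_of_nonneg h8]
      have k1 : Real.exp t ≤ 3 := by
        have k2 : Real.exp t ≤ Real.exp 1 := Real.exp_le_exp.2 (by linarith)
        have := Real.exp_one_lt_d9
        linarith
      have k2 : t ≤ 1 := by linarith
      nlinarith
  rw [hw, Real.exp_add]
  calc ‖w‖ * (Real.exp z.re * Real.exp t)
      ≤ (‖z‖ + (|t| + 4)) * (Real.exp z.re * Real.exp t) :=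
        mul_le_mul_of_nonneg_right h6 (by positivity)
    _ = (‖z‖ + (|t| + 4)) * Real.exp t * Real.exp z.re := by ring
    _ ≤ 18 * ‖z‖ * Real.exp z.re := mul_le_mul_of_nonneg_right h7 e0.le
    _ < c := by linarith

theorem T4Gz_four {x r ε : ℝ} (h1 : 1 ≤ x) (h2 : -r ≤ x) (h3 : x * Real.exp r = ε)
    (h4 : ε ≤ 1 / 20) : 4 ≤ x := by
  have e0 := Real.exp_pos r
  have h5 : 20 * x ≤ Real.exp x := by
    have k1 : Real.exp (-r) ≤ Real.exp x := Real.exp_le_exp.2 h2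
    have k2 : Real.exp (-r) * Real.exp r = 1 := by
      rw [← Real.exp_add, neg_add_cancel, Real.exp_zero]
    have k3 : 20 * x * Real.exp r ≤ Real.exp (-r) * Real.exp r := by
      rw [k2]
      linarith
    exact (le_of_mul_le_mul_right k3 e0).trans k1
  have h9 := Real.exp_one_lt_d9
  have hp := Real.exp_pos 1
  have h6 : 2.9 ≤ x := by
    by_contra hcon
    push Not at hcon
    have k1 : Real.exp x ≤ Real.exp (29 / 10) :=
      Real.exp_le_exp.2 (hcon.le.trans (by norm_num))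
    have k2 : Real.exp (29 / 10) * Real.exp (1 / 10) = Real.exp 1 ^ 3 := by
      rw [← Real.exp_add, ← Real.exp_nat_mul]
      norm_num
    have k3 : (11 / 10 : ℝ) ≤ Real.exp (1 / 10) := by
      have := Real.add_one_le_exp (1 / 10 : ℝ)
      linarith
    have k4 : Real.exp 1 ^ 3 ≤ (272 / 100) ^ 3 := pow_le_pow_left₀ hp.le (by linarith) 3
    have k5 : Real.exp (29 / 10) * (11 / 10) ≤ Real.exp (29 / 10) * Real.exp (1 / 10) :=
      mul_le_mul_of_nonneg_left k3 (Real.exp_pos _).le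
    rw [k2] at k5
    have k6 : Real.exp (29 / 10) ≤ 183 / 10 := by
      have : ((272 / 100 : ℝ)) ^ 3 ≤ 20.13 := by norm_num
      linarith
    linarith
  by_contra hcon
  push Not at hcon
  have k1 : Real.exp x ≤ Real.exp 4 := Real.exp_le_exp.2 hcon.le
  have k2 : Real.exp 4 = Real.exp 1 ^ 4 := by
    rw [← Real.exp_nat_mul]
    norm_num
  have k4 : Real.exp 1 ^ 4 ≤ 2.72 ^ 4 := pow_le_pow_left₀ hp.le (by linarith) 4
  rw [k2] at k1
  norm_num at k4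
  linarith

/-- GAP. Proof. Put `x = ‖z‖`, `E = exp z`, `ε = x exp z.re ≤ 1/20`, `x ≥ 1`. `exp (-z.re) = x/ε ≥ 20 x`
gives `x ≥ - z.re ≥ log (20 x)`; since `log (20 x) ≥ log 20 > 2.99` we get `x ≥ 2.99`, then
`x ≥ log 59.8 > 4` (any bound `x ≥ 4` suffices), so `‖E‖ = ε/x ≤ ε/4`. With `F = log (1 - E) + z E/(1 - E)`
(principal logarithm) `gz z = exp F`; `‖z E/(1 - E) - z E‖ ≤ ε ‖E‖/(1 - ‖E‖) ≤ ε/60`,
`‖log (1 - E)‖ ≤ ‖E‖ (1 + ‖E‖) ≤ 0.26 ε` (`Complex.norm_log_one_add_le`), so `‖F - z E‖ ≤ 0.3 ε`,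
`0.7 ε ≤ ‖F‖ ≤ 1.3 ε ≤ 0.065`, and `‖exp F - 1 - F‖ ≤ ‖F‖^2` (`Complex.norm_exp_sub_one_sub_id_le`). -/
theorem gz_gap {z : ℂ} (h1 : z.re ≤ -1) (h2 : ‖z‖ * Real.exp z.re ≤ 1 / 20) :
    ‖z‖ * Real.exp z.re ≤ 2 * ‖gz z - 1‖ ∧ ‖gz z - 1‖ ≤ 2 * (‖z‖ * Real.exp z.re) := by
  obtain ⟨x, hx⟩ : ∃ x : ℝ, x = ‖z‖ := ⟨_, rfl⟩
  obtain ⟨ε, hε⟩ : ∃ ε : ℝ, ε = ‖z‖ * Real.exp z.re := ⟨_, rfl⟩
  have x1 : 1 ≤ x := by
    rw [hx]
    exact T4Gz_norm h1
  have x4 : 4 ≤ x := by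
    refine T4Gz_four (r := z.re) (ε := ε) x1 ?_ (by rw [hx, hε]) (by rw [hε]; exact h2)
    rw [hx]
    exact (neg_le_abs z.re).trans (Complex.abs_re_le_norm z)
  obtain ⟨E, hE⟩ : ∃ E : ℂ, E = exp z := ⟨_, rfl⟩
  have nE : ‖E‖ = Real.exp z.re := by
    rw [hE]
    exact Complex.norm_exp z
  have e0 := Real.exp_pos z.re
  have hεx : x * ‖E‖ = ε := by rw [hx, nE, hε]
  have hE4 : 4 * ‖E‖ ≤ ε := by
    rw [← hεx]
    exact mul_le_mul_of_nonneg_right x4 (norm_nonneg _)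
  have hε2 : ε ≤ 1 / 20 := by
    rw [hε]
    exact h2
  have hE0 : 0 ≤ ‖E‖ := norm_nonneg _
  have hE80 : ‖E‖ ≤ 1 / 80 := by linarith
  have hε0 : 0 ≤ ε := by linarith
  have n1 : 79 / 80 ≤ ‖1 - E‖ := by
    have := norm_sub_norm_le (1 : ℂ) E
    rw [norm_one] at this
    linarith
  have hne : 1 - E ≠ 0 := by
    intro h
    rw [h, norm_zero] at n1
    norm_num at n1
  obtain ⟨F, hF⟩ : ∃ F : ℂ, F = log (1 - E) + z * E / (1 - E) := ⟨_, rfl⟩
  have hgz : gz z = exp F := by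
    unfold gz
    rw [hF, Complex.exp_add, Complex.exp_log hne, hE]
  have n2 : ‖log (1 - E)‖ ≤ 0.26 * ε := by
    have k1 : ‖-E‖ < 1 := by
      rw [norm_neg]
      linarith
    have k2 := Complex.norm_log_one_add_le k1
    rw [← sub_eq_add_neg, norm_neg] at k2
    have k3 : (1 - ‖E‖)⁻¹ ≤ 2 := by
      rw [inv_le_comm₀ (by linarith) (by norm_num)]
      linarith
    have k4 : ‖E‖ ^ 2 * (1 - ‖E‖)⁻¹ / 2 ≤ ‖E‖ * (1 / 80) := by
      have k5 : ‖E‖ ^ 2 ≤ ‖E‖ * (1 / 80) := by nlinarith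
      have k6 : ‖E‖ ^ 2 * (1 - ‖E‖)⁻¹ ≤ ‖E‖ ^ 2 * 2 :=
        mul_le_mul_of_nonneg_left k3 (by positivity)
      linarith
    linarith
  have n3 : ‖z * E / (1 - E) - z * E‖ ≤ 0.03 * ε := by
    have k1 : z * E / (1 - E) - z * E = z * E * E / (1 - E) := by
      field_simp
      ring
    rw [k1, norm_div, norm_mul, norm_mul, ← hx, hεx, div_le_iff₀ (by linarith)]
    nlinarith
  have n4 : ‖z * E‖ = ε := by rw [norm_mul, ← hx, hεx]
  have n5 : ‖F - z * E‖ ≤ 0.3 * ε := by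
    have k1 : F - z * E = log (1 - E) + (z * E / (1 - E) - z * E) := by
      rw [hF]
      ring
    rw [k1]
    refine (norm_add_le _ _).trans ?_
    linarith
  have n6 : ‖F‖ ≤ 1.3 * ε := by
    have k1 := norm_add_le (F - z * E) (z * E)
    rw [sub_add_cancel, n4] at k1
    linarith
  have n7 : 0.7 * ε ≤ ‖F‖ := by
    have k1 := norm_sub_norm_le (z * E) (z * E - F)
    rw [sub_sub_cancel, n4, norm_sub_rev] at k1
    linarith
  have n8 : ‖exp F - 1 - F‖ ≤ ‖F‖ ^ 2 :=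
    Complex.norm_exp_sub_one_sub_id_le (by linarith)
  have n9 : ‖F‖ ^ 2 ≤ 0.065 * ‖F‖ := by
    have k1 : ‖F‖ ≤ 0.065 := by linarith
    have k2 := norm_nonneg F
    nlinarith
  rw [← hε, hgz]
  constructor
  · have k1 := norm_sub_norm_le F (F - (exp F - 1))
    rw [sub_sub_cancel, norm_sub_rev F (exp F - 1)] at k1
    linarith
  · have k1 := norm_add_le (exp F - 1 - F) F
    rw [sub_add_cancel] at k1
    linarith

/-- Proof. `gz_gap`: `gz z ≠ 1` (`‖z‖ exp z.re > 0`), `‖gz z - 1‖ ≤ 1/10`, so `gz z ≠ -1`. -/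
theorem gz_sq_ne {z : ℂ} (hz : z ∈ DT (1 / 20)) : gz z ^ 2 ≠ 1 := by
  intro h
  have h1 := T4Gz_norm hz.1.le
  have h2 : 0 < ‖z‖ * Real.exp z.re := by
    have := Real.exp_pos z.re
    positivity
  obtain ⟨k1, k2⟩ := gz_gap hz.1.le hz.2.le
  have h3 : (gz z - 1) * (gz z + 1) = 0 := by linear_combination h
  rcases mul_eq_zero.1 h3 with h4 | h4
  · rw [h4, norm_zero] at k1
    linarith
  · have h5 : gz z - 1 = -2 := by linear_combination h4
    rw [h5, norm_neg, Complex.norm_ofNat] at k2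
    linarith [hz.2]

end Pool.Agent.MP_ae5b4e_an_T
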