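import Pool.Agent.Lib.MP_ae5b4e_an_T.T4Def

/-!
# POR (iii), N2, T4: functions with derivative close to a constant
-/

noncomputable section

namespace Pool.Agent.MP_ae5b4e_an_T

open Complex Set Filter Topology Metric MeasureTheory

/-- Proof. `Convex.norm_image_sub_le_of_norm_hasDerivWithin_le` for `z ↦ Φ z - β z`. -/
theorem lin_near {Q : Set ℂ} (hQ : Convex ℝ Q) {β : ℝ} {Φ : ℂ → ℂ}
    (hd : ∀ z ∈ Q, ∃ d : ℂ, HasDerivAt Φ d z ∧ ‖d - β‖ ≤ β / 20) {z z' : ℂ} (hz : z ∈ Q)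
    (hz' : z' ∈ Q) : ‖Φ z - Φ z' - β * (z - z')‖ ≤ β / 20 * ‖z - z'‖ := by
  choose! d h1 h2 using hd
  have h3 : ∀ z ∈ Q, HasDerivWithinAt (fun z => Φ z - β * z) (d z - β) Q z := fun z hz => by
    have h4 : HasDerivAt (fun z : ℂ => (β : ℂ) * z) β z := by
      simpa using (hasDerivAt_id z).const_mul (β : ℂ)
    exact ((h1 z hz).sub h4).hasDerivWithinAt
  have h5 := hQ.norm_image_sub_le_of_norm_hasDerivWithin_le h3 h2 hz' hz
  have h6 : Φ z - Φ z' - β * (z - z') = Φ z - β * z - (Φ z' - β * z') := by ring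
  rw [h6]
  exact h5

/-- Proof. `lin_near`: if `Φ z = Φ z'` then `β ‖z - z'‖ ≤ (β/20) ‖z - z'‖`. -/
theorem lin_inj {Q : Set ℂ} (hQ : Convex ℝ Q) {β : ℝ} (hβ : 0 < β) {Φ : ℂ → ℂ}
    (hd : ∀ z ∈ Q, ∃ d : ℂ, HasDerivAt Φ d z ∧ ‖d - β‖ ≤ β / 20) : InjOn Φ Q := by
  intro z hz z' hz' he
  have h1 := lin_near hQ hd hz hz'
  have he' : Φ z = Φ z' := he
  rw [he', sub_self, zero_sub, norm_neg, norm_mul, norm_real, Real.norm_of_nonneg hβ.le] at h1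
  have h2 : ‖z - z'‖ = 0 := by
    by_contra hc
    have h3 : 0 < ‖z - z'‖ := lt_of_le_of_ne (norm_nonneg _) (Ne.symm hc)
    have h4 : 0 < β * ‖z - z'‖ := mul_pos hβ h3
    nlinarith
  exact sub_eq_zero.1 (norm_eq_zero.1 h2)

/-- Proof. The map `z ↦ z - (Φ z - w) / β` maps `closedBall z0 r` into itself and is a contraction with
constant `1/20` there (`lin_near`): its distance to `z0` is at most
`‖z - z0 - (Φ z - Φ z0)/β‖ + ‖w - Φ z0‖/β ≤ r/20 + (19/20) r`. Fixed point: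
`ContractingWith.exists_fixedPoint'` (restricted to the complete set `closedBall z0 r`), or
`ApproximatesLinearOn.surjOn_closedBall_of_nonlinearRightInverse`. -/
theorem lin_surj {z0 : ℂ} {r β : ℝ} (hr : 0 ≤ r) (hβ : 0 < β) {Φ : ℂ → ℂ}
    (hd : ∀ z ∈ closedBall z0 r, ∃ d : ℂ, HasDerivAt Φ d z ∧ ‖d - β‖ ≤ β / 20) {w : ℂ}
    (hw : ‖w - Φ z0‖ ≤ 19 / 20 * (β * r)) : ∃ z ∈ closedBall z0 r, Φ z = w := by
  have hQ : Convex ℝ (closedBall z0 r) := convex_closedBall z0 r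
  have hβ0 : (β : ℂ) ≠ 0 := by exact_mod_cast hβ.ne'
  have hn : ‖(β : ℂ)‖ = β := by rw [norm_real, Real.norm_of_nonneg hβ.le]
  have key : ∀ z ∈ closedBall z0 r, ∀ z' ∈ closedBall z0 r,
      ‖(z - z') - (Φ z - Φ z') / β‖ ≤ 1 / 20 * ‖z - z'‖ := fun z hz z' hz' => by
    have h1 := lin_near hQ hd hz hz'
    have h2 : (z - z') - (Φ z - Φ z') / β = -((Φ z - Φ z' - β * (z - z')) / β) := by
      field_simp
      ring
    rw [h2, norm_neg, norm_div, hn, div_le_iff₀ hβ]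
    linarith
  have hmap : MapsTo (fun z => z - (Φ z - w) / β) (closedBall z0 r) (closedBall z0 r) := by
    intro z hz
    have h1 := key z hz z0 (mem_closedBall_self hr)
    rw [mem_closedBall, dist_eq_norm] at hz ⊢
    have h2 : z - (Φ z - w) / β - z0 = ((z - z0) - (Φ z - Φ z0) / β) + (w - Φ z0) / β := by
      field_simp
      ring
    rw [h2]
    refine (norm_add_le _ _).trans ?_
    have h3 : ‖(w - Φ z0) / β‖ ≤ 19 / 20 * r := by
      rw [norm_div, hn, div_le_iff₀ hβ]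
      linarith
    linarith
  have hcon : ContractingWith (1 / 20) (hmap.restrict _ _ _) := by
    refine ⟨?_, LipschitzWith.of_dist_le_mul fun x y => ?_⟩
    · rw [← NNReal.coe_lt_coe]
      norm_num
    · rw [Subtype.dist_eq, Subtype.dist_eq, dist_eq_norm, dist_eq_norm]
      have h1 := key x.1 x.2 y.1 y.2
      have h2 : (hmap.restrict _ _ _ x : ℂ) - (hmap.restrict _ _ _ y : ℂ) =
          (x.1 - y.1) - (Φ x.1 - Φ y.1) / β := by
        show (x.1 - (Φ x.1 - w) / β) - (y.1 - (Φ y.1 - w) / β) = _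
        ring
      rw [h2]
      have h3 : ((1 / 20 : NNReal) : ℝ) = 1 / 20 := by norm_num
      rw [h3]
      exact h1
  obtain ⟨z, hz, hfix, -⟩ := hcon.exists_fixedPoint' isClosed_closedBall.isComplete hmap
    (mem_closedBall_self hr) (edist_ne_top _ _)
  refine ⟨z, hz, ?_⟩
  have h1 : z - (Φ z - w) / β = z := hfix
  have h2 : (Φ z - w) / β = 0 := by
    have := sub_eq_self.1 h1
    exact this
  rw [div_eq_zero_iff] at h2
  exact sub_eq_zero.1 (h2.resolve_right hβ0)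

/-- a solution `g` of `Φ (g p, p.2) = X p`, with values in a set on which `Φ (·, γ)` is injective, is
analytic.

Proof. Let `p0 ∈ W`. `implicit2` (`T3Imp.lean`) for `F ((τ, γ), z) = Φ (z, γ) - X (τ, γ)` at
`(p0, g p0)` gives `b` analytic at `p0`, `b p0 = g p0`, and `F (p, z) = 0 ↔ b p = z` near `(p0, g p0)`. For
`p` near `p0` the point `b p` is in `Q` and `F (p, b p) = 0`, so `Φ (b p, p.2) = X p = Φ (g p, p.2)` and
`b p = g p` by `hinj`. -/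
theorem lin_an {W : Set (ℂ × ℂ)} (hW : IsOpen W) {Q G : Set ℂ} (hQ : IsOpen Q) (hG : IsOpen G)
    {Φ X g : ℂ × ℂ → ℂ} (hΦ : AnalyticOnNhd ℂ Φ (Q ×ˢ G))
    (hd : ∀ p ∈ Q ×ˢ G, ∃ d : ℂ, d ≠ 0 ∧ HasDerivAt (fun z => Φ (z, p.2)) d p.1)
    (hinj : ∀ γ ∈ G, InjOn (fun z => Φ (z, γ)) Q) (hX : AnalyticOnNhd ℂ X W)
    (hg : ∀ p ∈ W, p.2 ∈ G ∧ g p ∈ Q ∧ Φ (g p, p.2) = X p) : AnalyticOnNhd ℂ g W := by
  intro p0 hp0
  obtain ⟨hγ, hgQ, hge⟩ := hg p0 hp0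
  obtain ⟨d, hd0, hdd⟩ := hd (g p0, p0.2) ⟨hgQ, hγ⟩
  have hF : AnalyticAt ℂ (fun x : (ℂ × ℂ) × ℂ => Φ (x.2, x.1.2) - X x.1) (p0, g p0) := by
    have a1 : AnalyticAt ℂ (fun x : (ℂ × ℂ) × ℂ => Φ (x.2, x.1.2)) (p0, g p0) :=
      AnalyticAt.fun_comp (g := Φ) (f := fun x : (ℂ × ℂ) × ℂ => (x.2, x.1.2))
        (hΦ (g p0, p0.2) ⟨hgQ, hγ⟩)
        (analyticAt_snd.prod (AnalyticAt.fun_comp (g := Prod.snd) (f := Prod.fst)
          analyticAt_snd analyticAt_fst))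
    have a2 : AnalyticAt ℂ (fun x : (ℂ × ℂ) × ℂ => X x.1) (p0, g p0) :=
      AnalyticAt.fun_comp (g := X) (f := fun x : (ℂ × ℂ) × ℂ => x.1) (hX p0 hp0) analyticAt_fst
    exact a1.sub a2
  have h0 : Φ (g p0, p0.2) - X p0 = 0 := sub_eq_zero.2 hge
  obtain ⟨b, hb1, hb2, hb3⟩ := implicit2 (x₀ := p0) (t₀ := g p0) (c := d) hF h0 hd0
    (hdd.sub_const (X p0))
  refine hb1.congr ?_
  have hc : ContinuousAt (fun p => (p, b p)) p0 := continuousAt_id.prodMk hb1.continuousAt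
  have h1 : ∀ᶠ p in 𝓝 p0, Φ (b p, p.2) - X p = 0 := by
    have h2 : Tendsto (fun p => (p, b p)) (𝓝 p0) (𝓝 (p0, g p0)) := by
      rw [← hb2]
      exact hc
    filter_upwards [h2.eventually hb3] with p hp
    exact hp.2 rfl
  have h3 : ∀ᶠ p in 𝓝 p0, b p ∈ Q :=
    hb1.continuousAt.eventually (hQ.mem_nhds (by rw [hb2]; exact hgQ))
  filter_upwards [h1, h3, hW.mem_nhds hp0] with p hp1 hp2 hp3
  obtain ⟨k1, k2, k3⟩ := hg p hp3
  exact hinj p.2 k1 hp2 k2 ((sub_eq_zero.1 hp1).trans k3.symm)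

end Pool.Agent.MP_ae5b4e_an_T
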