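import Pool.Agent.Lib.MP_ae5b4e_an_T.T4Prim
import Pool.Agent.Lib.MP_ae5b4e_an_T.T4Lin

/-!
# POR (iii), N2, T4: the coordinate as a function on the slit bidisc
-/

noncomputable section

namespace Pool.Agent.MP_ae5b4e_an_T

open Complex Set Filter Topology Metric MeasureTheory

/-- the slit bidisc is open. Proof. Its complement in `ball ζ R ×ˢ ball γ0 ρ` is defined by closed
conditions in terms of the continuous function `Tb ∘ snd` (`isOpen_iff_mem_nhds`; at a point of the set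
either `p.1.re ≠ (Tb p.2).re` or `p.1.im < (Tb p.2).im`, both are open conditions near `p`). -/
theorem isOpen_Slb {Tb : ℂ → ℂ} {ζ : ℂ} {γ0 R ρ : ℝ} (hT : AnalyticOnNhd ℂ Tb (ball (γ0 : ℂ) ρ)) :
    IsOpen (Slb Tb ζ γ0 R ρ) := by
  have e : Slb Tb ζ γ0 R ρ = (ball ζ R ×ˢ ball (γ0 : ℂ) ρ) ∩
      {p | p.1.re ≠ (Tb p.2).re ∨ p.1.im < (Tb p.2).im} := by
    ext p
    unfold Slb
    simp only [mem_ofPred_eq, mem_inter_iff, not_and_or, not_le, ne_eq]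
  rw [e, isOpen_iff_mem_nhds]
  rintro p ⟨h1, h2⟩
  have hb : ball ζ R ×ˢ ball (γ0 : ℂ) ρ ∈ 𝓝 p := (isOpen_ball.prod isOpen_ball).mem_nhds h1
  have hc : ContinuousAt (fun p : ℂ × ℂ => Tb p.2) p :=
    ContinuousAt.comp (g := Tb) (f := fun p : ℂ × ℂ => p.2) (hT p.2 h1.2).continuousAt
      continuous_snd.continuousAt
  have hcr : ContinuousAt (fun p : ℂ × ℂ => (Tb p.2).re) p :=
    ContinuousAt.comp (g := re) (f := fun p : ℂ × ℂ => Tb p.2) continuous_re.continuousAt hc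
  have hci : ContinuousAt (fun p : ℂ × ℂ => (Tb p.2).im) p :=
    ContinuousAt.comp (g := im) (f := fun p : ℂ × ℂ => Tb p.2) continuous_im.continuousAt hc
  have hpr : ContinuousAt (fun p : ℂ × ℂ => p.1.re) p :=
    (continuous_re.comp continuous_fst).continuousAt
  have hpi : ContinuousAt (fun p : ℂ × ℂ => p.1.im) p :=
    (continuous_im.comp continuous_fst).continuousAt
  refine inter_mem hb ?_
  rcases h2 with h2 | h2
  · have h3 : ContinuousAt (fun p : ℂ × ℂ => p.1.re - (Tb p.2).re) p := hpr.sub hcr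
    have h4 := h3.eventually_ne (sub_ne_zero.2 h2)
    filter_upwards [h4] with x hx
    exact Or.inl (sub_ne_zero.1 hx)
  · have h4 := hpi.eventually_lt hci h2
    filter_upwards [h4] with x hx
    exact Or.inr hx

/-- `i (τ - Tb γ)` is in the slit plane on the slit bidisc. Proof. `mem_slitPlane_iff`;
`(I * w).re = - w.im`, `(I * w).im = w.re`. -/
theorem Slb_slitPlane {Tb : ℂ → ℂ} {ζ : ℂ} {γ0 R ρ : ℝ} {p : ℂ × ℂ} (hp : p ∈ Slb Tb ζ γ0 R ρ) :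
    I * (p.1 - Tb p.2) ∈ slitPlane := by
  rw [mem_slitPlane_iff]
  obtain ⟨-, h2⟩ := hp
  rw [I_mul_re, I_mul_im, sub_im, sub_re]
  by_cases h3 : p.1.re = (Tb p.2).re
  · left
    have h4 : ¬ (Tb p.2).im ≤ p.1.im := fun h => h2 ⟨h3, h⟩
    push Not at h4
    linarith
  · exact Or.inr (sub_ne_zero.2 h3)

/-- the logarithm of the ratio of the height function and its model -/
private theorem T4Slit_core {D : Set ℂ} {β : ℝ} {k0 : ℂ} {γ0 ρ0 : ℝ} {K : ℂ × ℂ → ℂ}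
    (h : Mdl D β k0 γ0 ρ0 K) :
    ∃ l : ℂ × ℂ → ℂ, AnalyticOnNhd ℂ l (D ×ˢ ball (γ0 : ℂ) ρ0) ∧
      ∀ p ∈ D ×ˢ ball (γ0 : ℂ) ρ0, ‖l p‖ ≤ 3 / 200 ∧
        exp (β * p.1) * (k0 / β) * exp (l p) = Tm β K p ∧
        ∃ d : ℂ, HasDerivAt (fun z => β * z + l (z, p.2)) d p.1 ∧ ‖d - β‖ ≤ β / 20 := by
  obtain ⟨han, hpr⟩ := h.prim
  have hβ := h.β_pos
  have hβC : (β : ℂ) ≠ 0 := by exact_mod_cast hβ.ne'
  have hk0 := h.k0_ne
  obtain ⟨E, hE⟩ : ∃ E : ℂ × ℂ → ℂ, E = fun p => Tm β K p / (exp (β * p.1) * (k0 / β)) :=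
    ⟨_, rfl⟩
  have hx : ∀ z : ℂ, exp (β * z) * (k0 / β) ≠ 0 := fun z =>
    mul_ne_zero (exp_ne_zero _) (div_ne_zero hk0 hβC)
  have hT : ∀ p, Tm β K p = exp (β * p.1) * (k0 / β) * E p := by
    intro p
    rw [hE]
    beta_reduce
    rw [mul_div_cancel₀ _ (hx p.1)]
  have hE1 : ∀ p ∈ D ×ˢ ball (γ0 : ℂ) ρ0, ‖E p - 1‖ ≤ 1 / 100 := by
    intro p hp
    have h1 := (hpr p hp).2
    have h2 : Tm β K p - exp (β * p.1) * (k0 / β) =
        exp (β * p.1) * (k0 / β) * (E p - 1) := by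
      rw [hT p]
      ring
    rw [h2, norm_mul] at h1
    have h3 : 0 < ‖exp (β * p.1) * (k0 / β)‖ := norm_pos_iff.2 (hx p.1)
    have h4 : ‖exp (β * p.1) * (k0 / β)‖ * ‖E p - 1‖ ≤
        ‖exp (β * p.1) * (k0 / β)‖ * (1 / 100) := by linarith
    exact le_of_mul_le_mul_left h4 h3
  have hEs : ∀ p ∈ D ×ˢ ball (γ0 : ℂ) ρ0, E p ∈ slitPlane := by
    intro p hp
    rw [mem_slitPlane_iff]
    left
    have h1 := hE1 p hp
    have h2 := abs_re_le_norm (E p - 1)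
    rw [sub_re, one_re] at h2
    have h3 := neg_abs_le ((E p).re - 1)
    linarith
  have hE0 : ∀ p ∈ D ×ˢ ball (γ0 : ℂ) ρ0, E p ≠ 0 := fun p hp => slitPlane_ne_zero (hEs p hp)
  have hEan : AnalyticOnNhd ℂ E (D ×ˢ ball (γ0 : ℂ) ρ0) := by
    intro p hp
    rw [hE]
    refine (han p hp).div ?_ (hx p.1)
    have h1 : AnalyticAt ℂ (fun p : ℂ × ℂ => exp (β * p.1)) p :=
      (analyticAt_const.mul analyticAt_fst).cexp
    exact h1.mul analyticAt_const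
  refine ⟨fun p => log (E p), fun p hp => (hEan p hp).clog (hEs p hp), fun p hp => ⟨?_, ?_, ?_⟩⟩
  · have h1 := hE1 p hp
    have h2 := norm_log_one_add_half_le_self (z := E p - 1) (by linarith)
    rw [add_sub_cancel] at h2
    linarith
  · rw [exp_log (hE0 p hp), hT p]
  · refine ⟨β * K p / (k0 * E p), ?_, ?_⟩
    · have d1 := (hpr p hp).1
      have d2 : HasDerivAt (fun z : ℂ => exp (β * z) * (k0 / β))
          (exp (β * p.1) * (β * 1) * (k0 / β)) p.1 :=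
        (((hasDerivAt_id p.1).const_mul (β : ℂ)).cexp).mul_const _
      have d3 := d1.div d2 (hx p.1)
      have d4 : HasDerivAt (fun z => E (z, p.2)) ((exp (β * p.1) * K p *
          (exp (β * p.1) * (k0 / β)) - Tm β K p * (exp (β * p.1) * (β * 1) * (k0 / β))) /
            (exp (β * p.1) * (k0 / β)) ^ 2) p.1 := by
        rw [hE]
        exact d3
      have d5 := d4.clog (hEs p hp)
      have d6 : HasDerivAt (fun z : ℂ => (β : ℂ) * z) (β * 1) p.1 :=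
        (hasDerivAt_id p.1).const_mul (β : ℂ)
      refine (d6.add d5).congr_deriv ?_
      have h5 := hE0 p hp
      have h6 := exp_ne_zero (β * p.1)
      rw [hT p]
      have e1 : (p.1, p.2) = p := rfl
      rw [e1]
      generalize exp (β * p.1) = x at h6 ⊢
      generalize E p = y at h5 ⊢
      field_simp
      ring
    · have h1 := hE1 p hp
      have h2 := h.near p hp
      have h3 : ‖K p / k0 - 1‖ ≤ 1 / 100 := by
        have h4 : K p / k0 - 1 = (K p - k0) / k0 := by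
          field_simp
        rw [h4, norm_div, div_le_iff₀ (norm_pos_iff.2 hk0)]
        linarith
      have h5 := hE0 p hp
      have h6 : β * K p / (k0 * E p) - β = β * (((K p / k0 - 1) - (E p - 1)) / E p) := by
        field_simp
        ring
      have h7 : 99 / 100 ≤ ‖E p‖ := by
        have h8 := norm_sub_norm_le (1 : ℂ) (1 - E p)
        rw [norm_one, sub_sub_cancel, norm_sub_rev] at h8
        linarith
      rw [h6, norm_mul, Complex.norm_real, Real.norm_of_nonneg hβ.le, norm_div]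
      have h9 := norm_sub_le (K p / k0 - 1) (E p - 1)
      have h10 : ‖K p / k0 - 1 - (E p - 1)‖ / ‖E p‖ ≤ 1 / 20 := by
        rw [div_le_iff₀ (by linarith)]
        linarith
      have h11 := mul_le_mul_of_nonneg_left h10 hβ.le
      linarith

/-- INVERSION. The height function of a model can be inverted on a slit bidisc about a point `z1` which
has enough room in `D`.

Proof. Write `S = Slb Tb (Tb γ0) γ0 (2 s1) ρ`, `B = ball γ0 ρ ⊆ ball γ0 ρ0`,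
`Q = {w | w.re < z1.re + 1/β ∧ |w.im - z1.im| < 4/β}` (open, convex, `⊆ D` by `hQ`).
(1) `E p = Tm β K p / (exp (β p.1) * (k0/β))`, `‖E p - 1‖ ≤ 1/100` (`h.prim`), so `E p ∈ slitPlane`, `log ∘ E` is
analytic on `D ×ˢ ball γ0 ρ0`, `‖log (E p)‖ ≤ 1/50` (`Complex.norm_log_one_add_le`-type bound, or
`norm_log_one_add_half_le_self`: `‖log (1 + e)‖ ≤ 3/2 ‖e‖`).
(2) `c1 = Real.log s1 - β z1 - log (E (z1, γ0))`, `Φ p = β p.1 + log (E p) + c1`. Then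
`exp (Φ p) = I * Tm β K p`: `exp (c1) = s1 exp (-β z1) / E (z1, γ0) = I (k0/β)` because
`exp (β z1) (k0/β) E (z1, γ0) = Tm β K (z1, γ0) = - I s1`. `Φ (z1, γ0) = Real.log s1`. `Φ` is analytic.
(3) `∂_z Φ = ∂_z Tm / Tm` (differentiate `exp Φ = I Tm`, or `log ∘ E`) `= β K p / (k0 E p)`, so
`‖∂_z Φ - β‖ ≤ β/40 ≤ β/20` (`‖K/k0 - 1‖ ≤ 1/100`, `‖E - 1‖ ≤ 1/100`). By `lin_inj` the function `Φ (·, γ)`
is injective on `Q`.
(4) for `p = (τ, γ) ∈ S` put `ξ = log (I (τ - Tb γ))`: `‖τ - Tb γ‖ < 2 s1 + s1/8 = (17/8) s1`, so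
`ξ.re ≤ log s1 + log (17/8) ≤ log s1 + 4/5` (`Real.exp (4/5) > 17/8`), `|ξ.im| ≤ π < 3.15`. Let
`z0 = z1 + (ξ - log s1)/β`: `Φ (z0, γ) - ξ = log (E (z0, γ)) - log (E (z1, γ0))`, norm `≤ 1/25`.
`closedBall z0 (1/(20 β)) ⊆ Q`, and `19/20 * (β * (1/(20 β))) = 0.0475 ≥ 1/25`. By `lin_surj` there is
`z ∈ closedBall z0 (1/(20 β))` with `Φ (z, γ) = ξ`. `Zf p :=` this `z` (choice); `I Tm (Zf p, γ) =
exp ξ = I (τ - Tb γ)` (`exp_log`, `Slb_slitPlane`, `I (τ - Tb γ) ≠ 0`).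
(5) `Zf` is analytic on `S`: `lin_an` with `W = S` (`isOpen_Slb`), `G = ball γ0 ρ`,
`X p = log (I (p.1 - Tb p.2))` (analytic by `Slb_slitPlane`).
(6) last claim: the function `(p, z) ↦ Φ (z, p.2) - log (I (p.1 - Tb p.2))` is continuous at
`((Tb γ0 - I s1, γ0), z1)` with value `log s1 - log (s1) = 0` there (`I (Tb γ0 - I s1 - Tb γ0) = s1`). If
`Tm β K (z, p.2) = p.1 - Tb p.2` the exponentials of the two terms agree, the difference is in
`2 π i ℤ` and has norm `< 1`, hence is `0`; `z ∈ Q` near `z1`, `p ∈ S` near the base point, so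
`Zf p = z` by injectivity. -/
theorem Mdl.slit {D : Set ℂ} {β : ℝ} {k0 : ℂ} {γ0 ρ0 : ℝ} {K : ℂ × ℂ → ℂ}
    (h : Mdl D β k0 γ0 ρ0 K) {z1 : ℂ} {s1 ρ : ℝ} (hs1 : 0 < s1)
    (hQ : ∀ w : ℂ, w.re < z1.re + 1 / β → |w.im - z1.im| < 4 / β → w ∈ D)
    (h1 : Tm β K (z1, γ0) = -(I * s1)) {Tb : ℂ → ℂ} (hρ : 0 < ρ) (hρ0 : ρ ≤ ρ0)
    (hTb : AnalyticOnNhd ℂ Tb (ball (γ0 : ℂ) ρ))
    (hin : ∀ γ ∈ ball (γ0 : ℂ) ρ, ‖Tb γ - Tb γ0‖ < s1 / 8) :
    ∃ Zf : ℂ × ℂ → ℂ, AnalyticOnNhd ℂ Zf (Slb Tb (Tb γ0) γ0 (2 * s1) ρ) ∧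
      (∀ p ∈ Slb Tb (Tb γ0) γ0 (2 * s1) ρ, Zf p ∈ D ∧ Tm β K (Zf p, p.2) = p.1 - Tb p.2) ∧
      ∀ᶠ p : (ℂ × ℂ) × ℂ in 𝓝 ((Tb γ0 - I * s1, (γ0 : ℂ)), z1),
        Tm β K (p.2, p.1.2) = p.1.1 - Tb p.1.2 → Zf p.1 = p.2 := by
  obtain ⟨l, hlan, hl⟩ := T4Slit_core h
  have hβ := h.β_pos
  have hβC : (β : ℂ) ≠ 0 := by exact_mod_cast hβ.ne'
  obtain ⟨Q, hQdef⟩ : ∃ Q : Set ℂ,
      Q = {w | w.re < z1.re + 1 / β ∧ |w.im - z1.im| < 4 / β} := ⟨_, rfl⟩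
  have hQmem : ∀ w : ℂ, w ∈ Q ↔ w.re < z1.re + 1 / β ∧ |w.im - z1.im| < 4 / β := by
    intro w
    rw [hQdef]
    exact Iff.rfl
  have hQo : IsOpen Q := by
    rw [hQdef]
    exact (isOpen_lt continuous_re continuous_const).inter
      (isOpen_lt ((continuous_im.sub continuous_const).abs) continuous_const)
  have hQc : Convex ℝ Q := by
    intro x hx y hy a b ha hb hab
    rw [hQmem] at hx hy ⊢
    have e1 : (a • x + b • y).re = a * x.re + b * y.re := by simp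
    have e2 : (a • x + b • y).im = a * x.im + b * y.im := by simp
    rw [e1, e2]
    obtain ⟨hx1, hx2⟩ := hx
    obtain ⟨hy1, hy2⟩ := hy
    rw [abs_lt] at hx2 hy2 ⊢
    have hb' : b = 1 - a := by linarith
    subst hb'
    rcases ha.lt_or_eq with ha' | ha'
    · refine ⟨?_, ?_, ?_⟩ <;> nlinarith
    · subst ha'
      refine ⟨?_, ?_, ?_⟩ <;> linarith
  have hQD : Q ⊆ D := fun w hw => hQ w ((hQmem w).1 hw).1 ((hQmem w).1 hw).2
  have hz1Q : z1 ∈ Q := by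
    rw [hQmem, sub_self, abs_zero]
    exact ⟨by linarith [one_div_pos.2 hβ], by positivity⟩
  have hγ : (γ0 : ℂ) ∈ ball (γ0 : ℂ) ρ0 := mem_ball_self h.ρ_pos
  have hBB : ball (γ0 : ℂ) ρ ⊆ ball (γ0 : ℂ) ρ0 := ball_subset_ball hρ0
  have hbase : (z1, (γ0 : ℂ)) ∈ D ×ˢ ball (γ0 : ℂ) ρ0 := ⟨hQD hz1Q, hγ⟩
  obtain ⟨c1, hc1⟩ : ∃ c1 : ℂ, c1 = (Real.log s1 : ℂ) - β * z1 - l (z1, γ0) := ⟨_, rfl⟩
  obtain ⟨Φ, hΦ⟩ : ∃ Φ : ℂ × ℂ → ℂ, Φ = fun p => β * p.1 + l p + c1 := ⟨_, rfl⟩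
  have hs1C : exp ((Real.log s1 : ℝ) : ℂ) = s1 := by
    rw [← ofReal_exp, Real.exp_log hs1]
  -- the exponential of `Φ`
  have hA : exp c1 = I * (k0 / β) := by
    obtain ⟨-, h2, -⟩ := hl _ hbase
    rw [h1] at h2
    have hX : exp (β * z1) * exp (l (z1, γ0)) ≠ 0 := mul_ne_zero (exp_ne_zero _) (exp_ne_zero _)
    have h3 : exp c1 * (exp (β * z1) * exp (l (z1, γ0))) = s1 := by
      rw [← exp_add, ← exp_add, ← hs1C]
      congr 1
      rw [hc1]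
      ring
    apply mul_right_cancel₀ hX
    rw [h3]
    have h4 : exp (β * z1) * (k0 / β) * exp (l (z1, γ0)) = -(I * s1) := h2
    linear_combination (-I) * h4 + s1 * I_sq
  have hexp : ∀ p ∈ D ×ˢ ball (γ0 : ℂ) ρ0, exp (Φ p) = I * Tm β K p := by
    intro p hp
    obtain ⟨-, h2, -⟩ := hl p hp
    rw [hΦ]
    beta_reduce
    rw [exp_add, exp_add, hA, ← h2]
    ring
  have hΦ1 : Φ (z1, γ0) = (Real.log s1 : ℂ) := by
    rw [hΦ, hc1]
    ring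
  have hΦan : AnalyticOnNhd ℂ Φ (D ×ˢ ball (γ0 : ℂ) ρ0) := by
    intro p hp
    rw [hΦ]
    exact ((analyticAt_const.mul analyticAt_fst).add (hlan p hp)).add analyticAt_const
  have hΦd : ∀ z ∈ D, ∀ γ ∈ ball (γ0 : ℂ) ρ0,
      ∃ d : ℂ, HasDerivAt (fun z => Φ (z, γ)) d z ∧ ‖d - β‖ ≤ β / 20 := by
    intro z hz γ hγ
    obtain ⟨-, -, d, h2, h3⟩ := hl (z, γ) ⟨hz, hγ⟩
    refine ⟨d, ?_, h3⟩
    rw [hΦ]
    exact h2.add_const c1
  have hinj : ∀ γ ∈ ball (γ0 : ℂ) ρ0, InjOn (fun z => Φ (z, γ)) Q := fun γ hγ =>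
    lin_inj hQc hβ fun z hz => hΦd z (hQD hz) γ hγ
  -- the slit bidisc
  obtain ⟨S, hS⟩ : ∃ S : Set (ℂ × ℂ), S = Slb Tb (Tb γ0) γ0 (2 * s1) ρ := ⟨_, rfl⟩
  have hSo : IsOpen S := by
    rw [hS]
    exact isOpen_Slb hTb
  have hSs : ∀ p ∈ S, I * (p.1 - Tb p.2) ∈ slitPlane := by
    intro p hp
    rw [hS] at hp
    exact Slb_slitPlane hp
  have hSb : ∀ p ∈ S, p.1 ∈ ball (Tb γ0) (2 * s1) ∧ p.2 ∈ ball (γ0 : ℂ) ρ := by
    intro p hp
    rw [hS] at hp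
    exact hp.1
  obtain ⟨X, hX⟩ : ∃ X : ℂ × ℂ → ℂ, X = fun p => log (I * (p.1 - Tb p.2)) := ⟨_, rfl⟩
  have hXan : AnalyticOnNhd ℂ X S := by
    intro p hp
    have h2 : AnalyticAt ℂ (fun p : ℂ × ℂ => Tb p.2) p :=
      AnalyticAt.comp (g := Tb) (f := fun p : ℂ × ℂ => p.2) (hTb p.2 (hSb p hp).2) analyticAt_snd
    rw [hX]
    exact (analyticAt_const.mul (analyticAt_fst.sub h2)).clog (hSs p hp)
  have hXexp : ∀ p ∈ S, exp (X p) = I * (p.1 - Tb p.2) := by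
    intro p hp
    rw [hX]
    exact exp_log (slitPlane_ne_zero (hSs p hp))
  have hlog : Real.log (17 / 8) ≤ 9 / 10 := by
    rw [Real.log_le_iff_le_exp (by norm_num)]
    have := Real.quadratic_le_exp_of_nonneg (by norm_num : (0 : ℝ) ≤ 9 / 10)
    linarith
  have hex : ∀ p : ℂ × ℂ, ∃ z : ℂ, p ∈ S → z ∈ Q ∧ Φ (z, p.2) = X p := by
    intro p
    by_cases hp : p ∈ S
    swap
    · exact ⟨0, fun hp' => absurd hp' hp⟩
    obtain ⟨hb1, hb2⟩ := hSb p hp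
    have hn0 : 0 < ‖I * (p.1 - Tb p.2)‖ := norm_pos_iff.2 (slitPlane_ne_zero (hSs p hp))
    have hn : ‖I * (p.1 - Tb p.2)‖ ≤ 17 / 8 * s1 := by
      rw [norm_mul, norm_I, one_mul]
      rw [mem_ball, dist_eq_norm] at hb1
      have h2 := hin p.2 hb2
      have h3 := norm_sub_le (p.1 - Tb γ0) (Tb p.2 - Tb γ0)
      rw [sub_sub_sub_cancel_right] at h3
      linarith
    have hre : (X p).re - Real.log s1 ≤ 9 / 10 := by
      rw [hX]
      beta_reduce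
      rw [log_re]
      have h2 := Real.log_le_log hn0 hn
      rw [Real.log_mul (by norm_num) hs1.ne'] at h2
      linarith
    have him : |(X p).im| < 3.15 := by
      rw [hX]
      beta_reduce
      rw [log_im]
      exact (abs_arg_le_pi _).trans_lt Real.pi_lt_d2
    obtain ⟨z0, hz0⟩ : ∃ z0 : ℂ, z0 = z1 + (X p - (Real.log s1 : ℝ)) / (β : ℝ) := ⟨_, rfl⟩
    have hz0re : z0.re = z1.re + ((X p).re - Real.log s1) * (1 / β) := by
      rw [hz0, add_re, div_ofReal_re, sub_re, ofReal_re]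
      ring
    have hz0im : z0.im = z1.im + (X p).im * (1 / β) := by
      rw [hz0, add_im, div_ofReal_im, sub_im, ofReal_im, sub_zero]
      ring
    have hb : 0 < 1 / β := one_div_pos.2 hβ
    have hsub : closedBall z0 (1 / 20 * (1 / β)) ⊆ Q := by
      intro w hw
      rw [mem_closedBall, dist_eq_norm] at hw
      have h2 := (abs_re_le_norm (w - z0)).trans hw
      have h3 := (abs_im_le_norm (w - z0)).trans hw
      rw [sub_re, abs_le] at h2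
      rw [sub_im, abs_le] at h3
      rw [hQmem]
      have e4 : 4 / β = 4 * (1 / β) := by ring
      rw [e4, abs_lt]
      rw [abs_lt] at him
      generalize 1 / β = t at *
      have h5 : ((X p).re - Real.log s1) * t ≤ 9 / 10 * t := mul_le_mul_of_nonneg_right hre hb.le
      have h6 : (X p).im * t ≤ 3.15 * t := mul_le_mul_of_nonneg_right him.2.le hb.le
      have h7 : -3.15 * t ≤ (X p).im * t := mul_le_mul_of_nonneg_right him.1.le hb.le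
      refine ⟨?_, ?_, ?_⟩ <;> norm_num at h6 h7 ⊢ <;> linarith
    have hz0Q : z0 ∈ Q := hsub (mem_closedBall_self (by positivity))
    have hw : ‖X p - Φ (z0, p.2)‖ ≤ 19 / 20 * (β * (1 / 20 * (1 / β))) := by
      have e1 : β * (1 / 20 * (1 / β)) = 1 / 20 := by field_simp
      have e2 : X p - Φ (z0, p.2) = l (z1, γ0) - l (z0, p.2) := by
        rw [hΦ]
        beta_reduce
        rw [hc1, hz0]
        field_simp
        ring
      rw [e1, e2]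
      have h2 := (hl _ hbase).1
      have h3 := (hl (z0, p.2) ⟨hQD hz0Q, hBB hb2⟩).1
      have h4 := norm_sub_le (l (z1, γ0)) (l (z0, p.2))
      linarith
    obtain ⟨z, hz, hzΦ⟩ := lin_surj (z0 := z0) (r := 1 / 20 * (1 / β)) (Φ := fun z => Φ (z, p.2))
      (by positivity) hβ (fun z hz => hΦd z (hQD (hsub hz)) p.2 (hBB hb2)) hw
    exact ⟨z, fun _ => ⟨hsub hz, hzΦ⟩⟩
  choose Zf hZf using hex
  have hres : ∀ p ∈ S, Zf p ∈ D ∧ Tm β K (Zf p, p.2) = p.1 - Tb p.2 := by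
    intro p hp
    obtain ⟨h2, h3⟩ := hZf p hp
    refine ⟨hQD h2, ?_⟩
    have h4 := hexp (Zf p, p.2) ⟨hQD h2, hBB (hSb p hp).2⟩
    rw [h3, hXexp p hp] at h4
    exact (mul_left_cancel₀ I_ne_zero h4).symm
  have hZan : AnalyticOnNhd ℂ Zf S := by
    refine lin_an (Q := Q) (G := ball (γ0 : ℂ) ρ) (Φ := Φ) (X := X) hSo hQo isOpen_ball
      (hΦan.mono (prod_mono hQD hBB)) ?_ (fun γ hγ => hinj γ (hBB hγ)) hXan
      (fun p hp => ⟨(hSb p hp).2, (hZf p hp).1, (hZf p hp).2⟩)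
    rintro p ⟨hp1, hp2⟩
    obtain ⟨d, h2, h3⟩ := hΦd p.1 (hQD hp1) p.2 (hBB hp2)
    refine ⟨d, ?_, h2⟩
    rintro rfl
    rw [zero_sub, norm_neg, Complex.norm_real, Real.norm_of_nonneg hβ.le] at h3
    linarith
  have hbS : ((Tb γ0 - I * s1, (γ0 : ℂ)) : ℂ × ℂ) ∈ S := by
    rw [hS]
    refine ⟨⟨?_, mem_ball_self hρ⟩, ?_⟩
    · rw [mem_ball, dist_eq_norm, sub_sub_cancel_left, norm_neg, norm_mul, norm_I, one_mul,
        Complex.norm_real, Real.norm_of_nonneg hs1.le]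
      linarith
    · rintro ⟨-, h2⟩
      have h3 : (Tb γ0 - I * s1 : ℂ).im = (Tb γ0).im - s1 := by
        rw [sub_im, I_mul_im, ofReal_re]
      have h4 : (Tb (γ0 : ℂ)).im ≤ (Tb γ0 - I * s1 : ℂ).im := h2
      rw [h3] at h4
      linarith
  rw [← hS]
  refine ⟨Zf, hZan, hres, ?_⟩
  -- the last claim
  obtain ⟨R, hR⟩ : ∃ R : (ℂ × ℂ) × ℂ → ℂ, R = fun p => Φ (p.2, p.1.2) - X p.1 := ⟨_, rfl⟩
  have hR0 : R ((Tb γ0 - I * s1, (γ0 : ℂ)), z1) = 0 := by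
    rw [hR]
    beta_reduce
    rw [hΦ1, hX]
    beta_reduce
    have e1 : I * (Tb γ0 - I * s1 - Tb γ0) = ((s1 : ℝ) : ℂ) := by
      linear_combination (-(s1 : ℂ)) * I_sq
    rw [e1, ← ofReal_log hs1.le, sub_self]
  have hRc : ContinuousAt R ((Tb γ0 - I * s1, (γ0 : ℂ)), z1) := by
    rw [hR]
    refine ContinuousAt.sub ?_ ?_
    · exact ContinuousAt.comp (g := Φ) (f := fun p : (ℂ × ℂ) × ℂ => (p.2, p.1.2))
        (hΦan (z1, (γ0 : ℂ)) hbase).continuousAt (by fun_prop)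
    · exact ContinuousAt.comp (g := X) (f := fun p : (ℂ × ℂ) × ℂ => p.1)
        (hXan _ hbS).continuousAt (by fun_prop)
  have ev1 : ∀ᶠ p : (ℂ × ℂ) × ℂ in 𝓝 ((Tb γ0 - I * s1, (γ0 : ℂ)), z1), ‖R p‖ < 1 := by
    have h2 : Tendsto (fun p => ‖R p‖) (𝓝 ((Tb γ0 - I * s1, (γ0 : ℂ)), z1)) (𝓝 0) := by
      have h3 := hRc.norm.tendsto
      rwa [hR0, norm_zero] at h3
    exact h2.eventually_lt_const one_pos
  have ev2 : ∀ᶠ p : (ℂ × ℂ) × ℂ in 𝓝 ((Tb γ0 - I * s1, (γ0 : ℂ)), z1), p.1 ∈ S :=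
    (continuous_fst.tendsto ((Tb γ0 - I * s1, (γ0 : ℂ)), z1)).eventually (hSo.mem_nhds hbS)
  have ev3 : ∀ᶠ p : (ℂ × ℂ) × ℂ in 𝓝 ((Tb γ0 - I * s1, (γ0 : ℂ)), z1), p.2 ∈ Q :=
    (continuous_snd.tendsto ((Tb γ0 - I * s1, (γ0 : ℂ)), z1)).eventually (hQo.mem_nhds hz1Q)
  filter_upwards [ev1, ev2, ev3] with p g1 g2 g3 g4
  have g5 : p.1.2 ∈ ball (γ0 : ℂ) ρ0 := hBB (hSb p.1 g2).2
  have g6 : exp (Φ (p.2, p.1.2)) = exp (X p.1) := by
    rw [hexp (p.2, p.1.2) ⟨hQD g3, g5⟩, g4, hXexp p.1 g2]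
  obtain ⟨n, hn⟩ := exp_eq_exp_iff_exists_int.1 g6
  have hn0 : n = 0 := by
    by_contra hne
    have g7 : R p = n * (2 * Real.pi * I) := by
      rw [hR]
      beta_reduce
      rw [hn]
      ring
    rw [g7, norm_mul, norm_mul, norm_I, mul_one, norm_mul, Complex.norm_intCast,
      Complex.norm_real, Complex.norm_ofNat, Real.norm_of_nonneg Real.pi_pos.le] at g1
    have g8 : (1 : ℝ) ≤ |(n : ℝ)| := by
      have : 1 ≤ |n| := Int.one_le_abs hne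
      exact_mod_cast this
    have g9 := Real.pi_gt_three
    nlinarith
  rw [hn0, Int.cast_zero, zero_mul, add_zero] at hn
  have g10 : Φ (Zf p.1, p.1.2) = Φ (p.2, p.1.2) := by
    rw [(hZf p.1 g2).2, hn]
  exact hinj p.1.2 g5 (hZf p.1 g2).1 g3 g10

end Pool.Agent.MP_ae5b4e_an_T
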