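import Pool.Agent.Lib.MP_ae5b4e_an_T.T4Path
import Pool.Agent.Lib.MP_ae5b4e_an_T.T4Slit

/-!
# POR (iii), N2, T4: the branch point is not in the limit domain
-/

noncomputable section

namespace Pool.Agent.MP_ae5b4e_an_T

open Complex Set Filter Topology Metric MeasureTheory
open Pool.Agent.MP_ae5b4e_an_WB
open Pool.Agent.MP_ae5b4e_an_WD
open Pool.Agent.MP_ae5b4e_an_M (S1 C1f Gf)

theorem T4Not_pair {f : ℂ × ℂ → ℂ} {p : ℂ × ℂ} (h : AnalyticAt ℂ f p) :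
    HasDerivAt (fun τ => f (τ, p.2)) (fderiv ℂ f p (1, 0)) p.1 := by
  have h1 : HasFDerivAt f (fderiv ℂ f p) (p.1, p.2) := h.differentiableAt.hasFDerivAt
  have h2 : HasDerivAt (fun τ : ℂ => ((τ, p.2) : ℂ × ℂ)) ((1 : ℂ), (0 : ℂ)) p.1 :=
    (hasDerivAt_id p.1).prodMk (hasDerivAt_const p.1 p.2)
  exact h1.comp_hasDerivAt p.1 h2

/-- the state of the model agrees with the D-side state on the slit bidisc.

Proof. Let `p ∈ S = Slb Tb ζ γ0 R ρ`, `p ∈ Dv vi`. Both sets are open (`isOpen_Slb`, `h.ds.isOpen`), so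
`lb (Zf p', p'.2) = L p'` for `p'` near `p`; differentiating in the first variable (chain rule,
`hm.rel`): `al (exp (β Zf) K) / p.2 * ∂_τ Zf = dt L p`. Differentiating `Tm β K (Zf p', p'.2) = p'.1 - Tb p'.2`
(`hm.mdl.prim`): `exp (β Zf) K * ∂_τ Zf = 1`. So `al / p.2 = dt L p`. -/
theorem glue_al {q : ℂ → ℂ} {C : ℝ} {vi : ℂ → ℝ} {L : ℂ × ℂ → ℂ} (h : Lb q C vi L) {D : Set ℂ}
    {β : ℝ} {k0 : ℂ} {γ0 ρ0 : ℝ} {K lb al : ℂ × ℂ → ℂ} (hm : Mod q D β k0 γ0 ρ0 K lb al)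
    {ζ : ℂ} {R ρ : ℝ} {Tb : ℂ → ℂ} {Zf : ℂ × ℂ → ℂ} (hρ : ρ ≤ ρ0)
    (hTb : AnalyticOnNhd ℂ Tb (ball (γ0 : ℂ) ρ)) (hZ : AnalyticOnNhd ℂ Zf (Slb Tb ζ γ0 R ρ))
    (hT : ∀ p ∈ Slb Tb ζ γ0 R ρ, Zf p ∈ D ∧ Tm β K (Zf p, p.2) = p.1 - Tb p.2)
    (he : ∀ p ∈ Slb Tb ζ γ0 R ρ, p ∈ Dv vi → lb (Zf p, p.2) = L p) :
    ∀ p ∈ Slb Tb ζ γ0 R ρ, p ∈ Dv vi → al (Zf p, p.2) = p.2 * dt L p := by
  intro p hpS hpD
  have hS := isOpen_Slb (ζ := ζ) (R := R) hTb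
  have hp2 : p.2 ∈ ball (γ0 : ℂ) ρ0 := ball_subset_ball hρ hpS.1.2
  have hP : (Zf p, p.2) ∈ D ×ˢ ball (γ0 : ℂ) ρ0 := ⟨(hT p hpS).1, hp2⟩
  obtain ⟨hp0, hal, hK⟩ := hm.al_ne hP
  have hz := T4Not_pair (hZ p hpS)
  obtain ⟨z', hz'⟩ : ∃ z' : ℂ, z' = fderiv ℂ Zf p (1, 0) := ⟨_, rfl⟩
  rw [← hz'] at hz
  have hev : ∀ᶠ τ in 𝓝 p.1, (τ, p.2) ∈ Slb Tb ζ γ0 R ρ ∩ Dv vi := by
    have hc : ContinuousAt (fun τ : ℂ => ((τ, p.2) : ℂ × ℂ)) p.1 := by fun_prop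
    exact hc.eventually ((hS.inter h.ds.isOpen).mem_nhds ⟨hpS, hpD⟩)
  have h1 : HasDerivAt (fun τ => lb (Zf (τ, p.2), p.2))
      (al (Zf p, p.2) * (exp (β * Zf p) * K (Zf p, p.2)) / p.2 * z') p.1 :=
    HasDerivAt.comp (h₂ := fun z => lb (z, p.2)) (h := fun τ => Zf (τ, p.2)) p.1
      (hm.rel (Zf p, p.2) hP) hz
  have h2 : HasDerivAt (fun τ => L (τ, p.2)) (dt L p) p.1 :=
    (T4Not_pair (h.ds.an p hpD)).differentiableAt.hasDerivAt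
  have h3 : al (Zf p, p.2) * (exp (β * Zf p) * K (Zf p, p.2)) / p.2 * z' = dt L p := by
    refine h1.unique (h2.congr_of_eventuallyEq ?_)
    filter_upwards [hev] with τ hτ
    exact he (τ, p.2) hτ.1 hτ.2
  have h4 : HasDerivAt (fun τ => Tm β K (Zf (τ, p.2), p.2))
      (exp (β * Zf p) * K (Zf p, p.2) * z') p.1 :=
    HasDerivAt.comp (h₂ := fun z => Tm β K (z, p.2)) (h := fun τ => Zf (τ, p.2)) p.1
      (hm.mdl.prim.2 (Zf p, p.2) hP).1 hz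
  have h5 : HasDerivAt (fun τ : ℂ => τ - Tb p.2) 1 p.1 := (hasDerivAt_id p.1).sub_const _
  have h6 : exp (β * Zf p) * K (Zf p, p.2) * z' = 1 := by
    refine h4.unique (h5.congr_of_eventuallyEq ?_)
    filter_upwards [hev] with τ hτ
    exact (hT (τ, p.2) hτ.1).2
  have hp0' : p.2 ≠ 0 := hp0
  rw [← h3]
  have h7 : p.2 * (al (Zf p, p.2) * (exp (β * Zf p) * K (Zf p, p.2)) / p.2 * z') =
      al (Zf p, p.2) * (exp (β * Zf p) * K (Zf p, p.2) * z') := by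
    field_simp
  rw [h7, h6, mul_one]

/-- MONODROMY: the point `Tb γ` is not in the limit domain.

Proof. Suppose `vi γ < - (Tb γ).im`, that is `(Tb γ, γ) ∈ Dv vi` (`γ ≠ 0` since `ρ ≤ ρ0 < γ0`). For small
`s > 0` the point `p s = (Tb γ - I s, γ)` is in `S = Slb ..` (`‖Tb γ - ζ‖ < R`; the imaginary part is less
than `(Tb γ).im`) and in `Dv vi`. `X s := q (lb (Zf (p s), γ)) * al (Zf (p s), γ) ^ 2 = y2 q L (p s)` by `he` and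
`glue_al`. `y2 q L` is continuous at `(Tb γ, γ)` (`h.ds`: `L` analytic, `h.ds.an_dt`, `h.ds.qd` with
`h.ds.low`), so `X s → X0 = y2 q L (Tb γ, γ)`, and `S1 X0 ≠ 0` (`h.ds.s1`). On the other hand
`Tm β K (Zf (p s), γ) = - I s → 0` and `‖Tm β K (z, γ)‖ ≥ (99/100) ‖k0/β‖ exp (β z.re)` (`hm.mdl.prim`), so
`(Zf (p s)).re → - ∞`; apply `hm.no` to the filter `map (fun s => Zf (p s)) (𝓝[>] 0)`: `S1 X0 = 0`. -/
theorem glue_not {q : ℂ → ℂ} {C : ℝ} {vi : ℂ → ℝ} {L : ℂ × ℂ → ℂ} (h : Lb q C vi L) {D : Set ℂ}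
    {β : ℝ} {k0 : ℂ} {γ0 ρ0 : ℝ} {K lb al : ℂ × ℂ → ℂ} (hm : Mod q D β k0 γ0 ρ0 K lb al)
    {ζ : ℂ} {R ρ : ℝ} {Tb : ℂ → ℂ} {Zf : ℂ × ℂ → ℂ} (hρ : ρ ≤ ρ0)
    (hTb : AnalyticOnNhd ℂ Tb (ball (γ0 : ℂ) ρ)) (hZ : AnalyticOnNhd ℂ Zf (Slb Tb ζ γ0 R ρ))
    (hT : ∀ p ∈ Slb Tb ζ γ0 R ρ, Zf p ∈ D ∧ Tm β K (Zf p, p.2) = p.1 - Tb p.2)
    (he : ∀ p ∈ Slb Tb ζ γ0 R ρ, p ∈ Dv vi → lb (Zf p, p.2) = L p)
    (hin : ∀ γ ∈ ball (γ0 : ℂ) ρ, ‖Tb γ - ζ‖ < R) :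
    ∀ γ ∈ ball (γ0 : ℂ) ρ, -(Tb γ).im ≤ vi γ := by
  intro γ hγ
  by_contra hcon
  push Not at hcon
  have hγ0 : γ ≠ 0 := by
    intro h0
    rw [h0, mem_ball, dist_eq_norm, zero_sub, norm_neg, Complex.norm_real, Real.norm_eq_abs] at hγ
    have h1 := hm.mdl.ρ_lt
    have h2 := hm.mdl.ρ_pos
    rw [abs_of_pos (by linarith)] at hγ
    linarith
  have hγρ : γ ∈ ball (γ0 : ℂ) ρ0 := ball_subset_ball hρ hγ
  have hD : (Tb γ, γ) ∈ Dv vi := by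
    refine ⟨hγ0, ?_⟩
    show (Tb γ).im < -vi γ
    linarith
  have hc : Continuous (fun s : ℝ => ((Tb γ - I * s, γ) : ℂ × ℂ)) := by fun_prop
  have hc0 : Tendsto (fun s : ℝ => ((Tb γ - I * s, γ) : ℂ × ℂ)) (𝓝[>] 0) (𝓝 (Tb γ, γ)) := by
    have h1 := hc.tendsto 0
    simp only [ofReal_zero, mul_zero, sub_zero] at h1
    exact h1.mono_left nhdsWithin_le_nhds
  have hevS : ∀ᶠ s : ℝ in 𝓝[>] (0 : ℝ), (Tb γ - I * s, γ) ∈ Slb Tb ζ γ0 R ρ := by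
    have h1 : ∀ᶠ x : ℂ × ℂ in 𝓝 (Tb γ, γ), x ∈ ball ζ R ×ˢ ball (γ0 : ℂ) ρ := by
      refine (isOpen_ball.prod isOpen_ball).mem_nhds ⟨?_, hγ⟩
      rw [mem_ball, dist_eq_norm]
      exact hin γ hγ
    filter_upwards [hc0.eventually h1, self_mem_nhdsWithin] with s hs hs0
    refine ⟨hs, ?_⟩
    rintro ⟨-, h2⟩
    have h3 : (Tb γ - I * s).im = (Tb γ).im - s := by simp
    have h4 : (Tb γ).im ≤ (Tb γ - I * s).im := h2
    rw [h3] at h4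
    have h5 : (0 : ℝ) < s := hs0
    linarith
  have hevD : ∀ᶠ s : ℝ in 𝓝[>] (0 : ℝ), (Tb γ - I * s, γ) ∈ Dv vi :=
    hc0.eventually (h.ds.isOpen.mem_nhds hD)
  have hy : ContinuousAt (y2 q L) (Tb γ, γ) := by
    have h1 : ContinuousAt L (Tb γ, γ) := (h.ds.an _ hD).continuousAt
    have h2 : ContinuousAt (dt L) (Tb γ, γ) := (h.ds.an_dt _ hD).continuousAt
    have hHm : IsOpen Hm := isOpen_lt continuous_im continuous_const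
    have h3 : ContinuousAt q (L (Tb γ, γ)) :=
      (h.ds.qd.differentiableAt (hHm.mem_nhds (h.ds.low _ hD))).continuousAt
    have h4 : ContinuousAt (fun p => q (L p)) (Tb γ, γ) := ContinuousAt.comp h3 h1
    exact h4.mul ((continuousAt_snd.mul h2).pow 2)
  have hlim : Tendsto (fun s : ℝ => y2 q L (Tb γ - I * s, γ)) (𝓝[>] 0)
      (𝓝 (y2 q L (Tb γ, γ))) := hy.tendsto.comp hc0
  have hal := glue_al h hm hρ hTb hZ hT he
  have hk : 0 < ‖(k0 / β : ℂ)‖ := by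
    refine norm_pos_iff.2 (div_ne_zero hm.mdl.k0_ne ?_)
    exact_mod_cast hm.mdl.β_pos.ne'
  have hre : Tendsto (fun s : ℝ => (Zf (Tb γ - I * s, γ)).re) (𝓝[>] 0) atBot := by
    rw [tendsto_atBot]
    intro b
    have h1 : 0 < 99 / 100 * (Real.exp (β * b) * ‖(k0 / β : ℂ)‖) := by positivity
    have h2 : ∀ᶠ s : ℝ in 𝓝[>] (0 : ℝ), s < 99 / 100 * (Real.exp (β * b) * ‖(k0 / β : ℂ)‖) :=
      nhdsWithin_le_nhds (gt_mem_nhds h1)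
    filter_upwards [h2, hevS, self_mem_nhdsWithin] with s k1 k2 k3
    by_contra hlt
    push Not at hlt
    have k4 := (hm.mdl.prim.2 (Zf (Tb γ - I * s, γ), γ) ⟨(hT _ k2).1, hγρ⟩).2
    have k5 := (hT _ k2).2
    rw [k5] at k4
    have k6 : ‖Tb γ - I * s - Tb γ‖ = s := by
      have e1 : Tb γ - I * s - Tb γ = -(I * s) := by ring
      rw [e1, norm_neg, norm_mul, norm_I, one_mul, Complex.norm_real, Real.norm_eq_abs,
        abs_of_pos k3]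
    simp only at k4
    have k7 := norm_sub_norm_le (exp (β * Zf (Tb γ - I * s, γ)) * (k0 / β))
      (Tb γ - I * s - Tb γ)
    rw [k6, norm_sub_rev] at k7
    have k8 : ‖exp (β * Zf (Tb γ - I * s, γ)) * (k0 / β)‖ =
        Real.exp (β * (Zf (Tb γ - I * s, γ)).re) * ‖(k0 / β : ℂ)‖ := by
      rw [norm_mul, Complex.norm_exp]
      congr 2
      simp
    rw [k8] at k7 k4
    have k9 : Real.exp (β * b) < Real.exp (β * (Zf (Tb γ - I * s, γ)).re) :=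
      Real.exp_lt_exp.2 (mul_lt_mul_of_pos_left hlt hm.mdl.β_pos)
    have k10 := mul_lt_mul_of_pos_right k9 hk
    linarith
  refine h.ds.s1 _ hD ?_
  refine hm.no γ hγρ (map (fun s : ℝ => Zf (Tb γ - I * s, γ)) (𝓝[>] 0)) ?_ ?_
    (y2 q L (Tb γ, γ)) ?_
  · rw [le_principal_iff, mem_map]
    filter_upwards [hevS] with s hs
    exact (hT _ hs).1
  · rw [tendsto_map'_iff]
    exact hre
  · rw [tendsto_map'_iff]
    refine hlim.congr' ?_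
    filter_upwards [hevS, hevD] with s k1 k2
    have k3 := he _ k1 k2
    have k4 := hal _ k1 k2
    show y2 q L (Tb γ - I * s, γ) =
      q (lb (Zf (Tb γ - I * s, γ), γ)) * al (Zf (Tb γ - I * s, γ), γ) ^ 2
    simp only at k3 k4
    rw [k3, k4]
    rfl

end Pool.Agent.MP_ae5b4e_an_T
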