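import Pool.Agent.Lib.MP_ae5b4e_an_T.T4Base
import Pool.Agent.Lib.MP_ae5b4e_an_T.T4Glue
import Pool.Agent.Lib.MP_ae5b4e_an_T.T4Not

/-!
# POR (iii), N2, T4: slit neighbourhood from a model
-/

noncomputable section

namespace Pool.Agent.MP_ae5b4e_an_T

open Complex Set Filter Topology Metric MeasureTheory
open Pool.Agent.MP_ae5b4e_an_WB
open Pool.Agent.MP_ae5b4e_an_WD
open Pool.Agent.MP_ae5b4e_an_M (S1 C1f Gf)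

theorem slit_mod {q : ℂ → ℂ} {C : ℝ} {vi : ℂ → ℝ} {L : ℂ × ℂ → ℂ} (h : Lb q C vi L) {γ0 : ℝ}
    (_hγ : 0 < γ0) {ζ : ℂ} (hζ : ζ.im = -vi γ0) {D : Set ℂ} {β : ℝ} {k0 : ℂ} {ρ0 : ℝ}
    {K lb al : ℂ × ℂ → ℂ} (hm : Mod q D β k0 γ0 ρ0 K lb al) {s2 : ℝ} {z : ℝ → ℂ}
    (hp : Pst (Dv vi) L D β γ0 lb al ζ s2 z) {ε : ℝ} (hε : 0 < ε) :
    ∃ (Tb : ℂ → ℂ) (Zf : ℂ × ℂ → ℂ) (R ρ : ℝ), R < ε ∧ ρ ≤ ρ0 ∧
      SlN vi L γ0 ζ Tb R ρ (fun p => lb (Zf p, p.2)) ∧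
      AnalyticOnNhd ℂ Zf (Slb Tb ζ γ0 R ρ) ∧
      (∀ p ∈ Slb Tb ζ γ0 R ρ, Zf p ∈ D ∧ Tm β K (Zf p, p.2) = p.1 - Tb p.2) ∧
      ∀ p ∈ Slb Tb ζ γ0 R ρ, p ∈ Dv vi → lb (Zf p, p.2) = L p ∧ al (Zf p, p.2) = p.2 * dt L p := by
  -- choice of `s1`
  have h1 : ∀ᶠ s in 𝓝[>] (0 : ℝ), s ∈ Ioc (0 : ℝ) s2 := Ioc_mem_nhdsGT hp.pos
  have h2 : ∀ᶠ s in 𝓝[>] (0 : ℝ), s ∈ Ioc (0 : ℝ) (ε / 4) := Ioc_mem_nhdsGT (by positivity)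
  obtain ⟨s1, hr, hs12, hs1ε⟩ := (hp.room.and (h1.and h2)).exists
  have hs1 : 0 < s1 := hs12.1
  obtain ⟨hz1, hU1, hl1, ha1⟩ := hp.mem s1 hs12
  have hT1 : Tm β K (z s1, γ0) = -(I * s1) := hp.height h.ds hm hs12
  obtain ⟨Zd, Tb, hZda, hZd1, hTba, hTb1, hnear⟩ := hm.base h.ds hU1 hz1 hl1 ha1
  have hTb0 : Tb γ0 = ζ := by
    rw [hTb1, hT1]
    ring
  -- choice of `ρ`
  have e1 : ∀ᶠ γ in 𝓝 (γ0 : ℂ), AnalyticAt ℂ Tb γ := hTba.eventually_analyticAt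
  have e2 : ∀ᶠ γ in 𝓝 (γ0 : ℂ), ‖Tb γ - ζ‖ < s1 / 8 := by
    have h3 : Tendsto Tb (𝓝 (γ0 : ℂ)) (𝓝 ζ) := by
      rw [← hTb0]
      exact hTba.continuousAt
    have h4 := h3.eventually (ball_mem_nhds ζ (show 0 < s1 / 8 by positivity))
    filter_upwards [h4] with γ hγ
    rwa [← dist_eq_norm]
  have e3 : ∀ᶠ γ in 𝓝 (γ0 : ℂ), vi γ < vi γ0 + s1 / 8 :=
    h.usc γ0 _ (by linarith)
  obtain ⟨ρ1, hρ1, hball⟩ := Metric.eventually_nhds_iff_ball.1 (e1.and (e2.and e3))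
  set ρ : ℝ := min ρ1 (min ρ0 s1) with hρdef
  have hρ : 0 < ρ := lt_min hρ1 (lt_min hm.mdl.ρ_pos hs1)
  have hρρ1 : ρ ≤ ρ1 := min_le_left _ _
  have hρρ0 : ρ ≤ ρ0 := (min_le_right _ _).trans (min_le_left _ _)
  have hρs1 : ρ ≤ s1 := (min_le_right _ _).trans (min_le_right _ _)
  have hργ : ρ < γ0 := hρρ0.trans_lt hm.mdl.ρ_lt
  have hb : ∀ γ ∈ ball (γ0 : ℂ) ρ, AnalyticAt ℂ Tb γ ∧ ‖Tb γ - ζ‖ < s1 / 8 ∧ vi γ < vi γ0 + s1 / 8 :=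
    fun γ hγ => hball γ (ball_subset_ball hρρ1 hγ)
  have hTan : AnalyticOnNhd ℂ Tb (ball (γ0 : ℂ) ρ) := fun γ hγ => (hb γ hγ).1
  obtain ⟨Zf, hZa, hZT, hZl⟩ := hm.mdl.slit hs1 hr hT1 hρ hρρ0 hTan
    (fun γ hγ => by rw [hTb0]; exact (hb γ hγ).2.1)
  rw [hTb0] at hZa hZT hZl
  have hSub : ∀ p ∈ Slb Tb ζ γ0 (2 * s1) ρ, (Zf p, p.2) ∈ D ×ˢ ball (γ0 : ℂ) ρ0 := fun p hp' =>
    ⟨(hZT p hp').1, ball_subset_ball hρρ0 hp'.1.2⟩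
  have hΛ : AnalyticOnNhd ℂ (fun p : ℂ × ℂ => lb (Zf p, p.2)) (Slb Tb ζ γ0 (2 * s1) ρ) := by
    intro p hp'
    exact AnalyticAt.comp (g := lb) (f := fun p : ℂ × ℂ => (Zf p, p.2)) (hm.lan _ (hSub p hp'))
      ((hZa p hp').prod analyticAt_snd)
  -- the base point
  have hbase : ∀ᶠ p : ℂ × ℂ in 𝓝 (ζ - I * s1, (γ0 : ℂ)), lb (Zf p, p.2) = L p := by
    have hc : Tendsto (fun p : ℂ × ℂ => (p, Zd p)) (𝓝 (ζ - I * s1, (γ0 : ℂ)))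
        (𝓝 ((ζ - I * s1, (γ0 : ℂ)), z s1)) := by
      have h5 : Tendsto Zd (𝓝 (ζ - I * s1, (γ0 : ℂ))) (𝓝 (z s1)) := by
        have h8 := hZda.continuousAt.tendsto
        rwa [hZd1] at h8
      exact tendsto_id.prodMk_nhds h5
    filter_upwards [hc.eventually hZl, hnear] with p h5 h6
    have h7 : Zf p = Zd p := h5 h6.2.2.2.2.2
    rw [h7]
    exact h6.2.2.2.1
  have heq := glue_eq h hζ hs1 hρ hργ (fun γ hγ => (hb γ hγ).2.1) (fun γ hγ => (hb γ hγ).2.2) hΛ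
    hbase
  have hal := glue_al h hm hρρ0 hTan hZa hZT heq
  have hnot := glue_not h hm hρρ0 hTan hZa hZT heq
    (fun γ hγ => lt_trans (hb γ hγ).2.1 (by linarith))
  refine ⟨Tb, Zf, 2 * s1, ρ, ?_, hρρ0, ⟨hρ, by linarith, hργ, hTan, hTb0, ?_, hΛ, ?_, heq, hnot⟩,
    hZa, hZT, fun p h5 h6 => ⟨heq p h5 h6, hal p h5 h6⟩⟩
  · have := hs1ε.2
    linarith
  · intro γ hγ
    have := (hb γ hγ).2.1
    linarith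
  · exact fun p hp' => hm.low _ (hSub p hp')

end Pool.Agent.MP_ae5b4e_an_T
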