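import Pool.Agent.Lib.MP_ae5b4e_an_T.T4Prim

/-!
# POR (iii), N2, T4: the height along the path of the D-side states
-/

noncomputable section

namespace Pool.Agent.MP_ae5b4e_an_T

open Complex Set Filter Topology Metric MeasureTheory
open Pool.Agent.MP_ae5b4e_an_WB
open Pool.Agent.MP_ae5b4e_an_WD
open Pool.Agent.MP_ae5b4e_an_M (S1 C1f Gf)

/-- `al ≠ 0` in a model. Proof. `Gf q l α = α * S1 .. * exp ..` (unfold `Gf`) is `p.2`, and
`p.2 ≠ 0` because `ρ0 < γ0`. -/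
theorem Mod.al_ne {q : ℂ → ℂ} {D : Set ℂ} {β : ℝ} {k0 : ℂ} {γ0 ρ0 : ℝ} {K lb al : ℂ × ℂ → ℂ}
    (h : Mod q D β k0 γ0 ρ0 K lb al) {p : ℂ × ℂ} (hp : p ∈ D ×ˢ ball (γ0 : ℂ) ρ0) :
    p.2 ≠ 0 ∧ al p ≠ 0 ∧ K p ≠ 0 := by
  have hb := hp.2
  rw [mem_ball, dist_eq_norm] at hb
  have hρ := h.mdl.ρ_lt
  have h2 : p.2 ≠ 0 := by
    intro h0
    rw [h0, zero_sub, norm_neg, Complex.norm_real, Real.norm_eq_abs] at hb
    have := le_abs_self γ0
    linarith
  refine ⟨h2, ?_, ?_⟩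
  · intro h0
    have hg := h.gf p hp
    rw [h0] at hg
    apply h2
    rw [← hg]
    simp [Gf]
  · intro h0
    have hn := h.mdl.near p hp
    rw [h0, zero_sub, norm_neg] at hn
    have := norm_pos_iff.2 h.mdl.k0_ne
    linarith

/-- A continuous path `z` with `φ (z s) = f s`, `φ' (z s0) = d ≠ 0`, `f' (s0) = f'`: then
`z' (s0) = f' / d`. -/
theorem hasDerivAt_of_lift {φ : ℂ → ℂ} {f z : ℝ → ℂ} {s0 : ℝ} {d f' : ℂ}
    (hφ : HasDerivAt φ d (z s0)) (hd : d ≠ 0) (hf : HasDerivAt f f' s0) (hz : ContinuousAt z s0)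
    (he : ∀ᶠ s in 𝓝 s0, φ (z s) = f s) : HasDerivAt z (f' / d) s0 := by
  rw [hasDerivAt_iff_tendsto_slope] at hf ⊢
  have h0 : φ (z s0) = f s0 := he.self_of_nhds
  have hg : ContinuousAt (dslope φ (z s0)) (z s0) :=
    continuousAt_dslope_same.2 hφ.differentiableAt
  have hg0 : dslope φ (z s0) (z s0) = d := by rw [dslope_same, hφ.deriv]
  have hgt : Tendsto (fun s => dslope φ (z s0) (z s)) (𝓝[≠] s0) (𝓝 d) := by
    have h1 : ContinuousAt (fun s => dslope φ (z s0) (z s)) s0 :=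
      ContinuousAt.comp (f := z) (g := dslope φ (z s0)) hg hz
    have h2 := h1.tendsto
    rw [hg0] at h2
    exact h2.mono_left nhdsWithin_le_nhds
  have hne : ∀ᶠ s in 𝓝[≠] s0, dslope φ (z s0) (z s) ≠ 0 := hgt.eventually_ne hd
  refine (hf.div hgt hd).congr' ?_
  filter_upwards [hne, he.filter_mono nhdsWithin_le_nhds] with s hs1 hs2
  have h3 := sub_smul_dslope φ (z s0) (z s)
  rw [hs2, h0, smul_eq_mul] at h3
  rw [Pi.div_apply, slope_def_module, slope_def_module, ← h3, div_eq_iff hs1]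
  simp only [Complex.real_smul]
  ring

/-- The height along the path of the D-side states has the derivative `- i`. -/
theorem Pst.hasDeriv {q : ℂ → ℂ} {U : Set (ℂ × ℂ)} {L : ℂ × ℂ → ℂ} (h : DS q U L) {D : Set ℂ}
    {β : ℝ} {k0 : ℂ} {γ0 ρ0 : ℝ} {K lb al : ℂ × ℂ → ℂ} (hm : Mod q D β k0 γ0 ρ0 K lb al) {ζ : ℂ}
    {s2 : ℝ} {z : ℝ → ℂ} (hp : Pst U L D β γ0 lb al ζ s2 z) :
    ∀ s ∈ Ioo (0 : ℝ) s2, HasDerivAt (fun s => Tm β K (z s, (γ0 : ℂ))) (-I) s := by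
  intro s hs
  have hs' : s ∈ Ioc (0 : ℝ) s2 := ⟨hs.1, hs.2.le⟩
  obtain ⟨hzD, hU, hlb, hal⟩ := hp.mem s hs'
  have hpm : (z s, (γ0 : ℂ)) ∈ D ×ˢ ball (γ0 : ℂ) ρ0 := ⟨hzD, mem_ball_self hm.mdl.ρ_pos⟩
  obtain ⟨hγ0, hal0, hK0⟩ := hm.al_ne hpm
  dsimp only at hγ0
  have hφ := hm.rel _ hpm
  dsimp only at hφ
  have hd0 : al (z s, (γ0 : ℂ)) * (exp (β * z s) * K (z s, (γ0 : ℂ))) / (γ0 : ℂ) ≠ 0 :=
    div_ne_zero (mul_ne_zero hal0 (mul_ne_zero (exp_ne_zero _) hK0)) hγ0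
  have hL : HasDerivAt (fun τ => L (τ, (γ0 : ℂ))) (dt L (ζ - I * s, (γ0 : ℂ))) (ζ - I * s) := by
    have h1 : DifferentiableAt ℂ L (ζ - I * s, (γ0 : ℂ)) := (h.an _ hU).differentiableAt
    have h2 : DifferentiableAt ℂ (fun τ => L (τ, (γ0 : ℂ))) (ζ - I * s) :=
      DifferentiableAt.comp (g := L) (f := fun t : ℂ => (t, (γ0 : ℂ))) _ h1 (by fun_prop)
    exact h2.hasDerivAt
  have hl : HasDerivAt (fun s : ℝ => ζ - I * (s : ℂ)) (-I) s := by
    have h1 := ((Complex.ofRealCLM.hasDerivAt (x := s)).const_mul I).const_sub ζ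
    simpa using h1
  have hf : HasDerivAt (fun s : ℝ => L (ζ - I * (s : ℂ), (γ0 : ℂ)))
      (-I * dt L (ζ - I * s, (γ0 : ℂ))) s := by
    have h1 := HasDerivAt.scomp (h := fun s : ℝ => ζ - I * (s : ℂ))
      (g₁ := fun τ => L (τ, (γ0 : ℂ))) s hL hl
    simpa [smul_eq_mul, Function.comp_def] using h1
  have hzc : ContinuousAt z s := hp.cont.continuousAt (Ioc_mem_nhds hs.1 hs.2)
  have he : ∀ᶠ t in 𝓝 s, lb (z t, (γ0 : ℂ)) = L (ζ - I * (t : ℂ), (γ0 : ℂ)) := by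
    filter_upwards [Ioc_mem_nhds hs.1 hs.2] with t ht
    exact (hp.mem t ht).2.2.1
  have hz := hasDerivAt_of_lift (φ := fun w => lb (w, (γ0 : ℂ))) (z := z) hφ hd0 hf hzc he
  have hT := (hm.mdl.prim.2 _ hpm).1
  dsimp only at hT
  have h1 := HasDerivAt.scomp (h := z) (g₁ := fun w => Tm β K (w, (γ0 : ℂ))) s hT hz
  have h2 : (-I * dt L (ζ - I * s, (γ0 : ℂ)) /
      (al (z s, (γ0 : ℂ)) * (exp (β * z s) * K (z s, (γ0 : ℂ))) / (γ0 : ℂ))) •
      (exp (β * z s) * K (z s, (γ0 : ℂ))) = -I := by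
    have hdt : dt L (ζ - I * s, (γ0 : ℂ)) = al (z s, (γ0 : ℂ)) / γ0 := by
      rw [hal]; field_simp
    have he0 := exp_ne_zero (β * z s)
    rw [hdt, smul_eq_mul]
    field_simp
  rw [h2] at h1
  exact h1

/-- On the path of the D-side states the height function of the model is `- i s`.

Proof. Let `f s = L (ζ - I s, γ0)`: for `s ∈ Ioc 0 s2` it has the (real) derivative
`- I * dt L (ζ - I s, γ0)` (`h.an`, `dt` is the derivative in the first variable).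
(1) `z` is differentiable on `Ioo 0 s2` with `z' s = - I * dt L (..) / (∂_z lb (z s, γ0))`: the function
`lb (·, γ0)` is analytic near `z s` with derivative `d = al (exp (β z) K) / γ0 ≠ 0` (`hm.rel`,
`Mod.al_ne`), it has a local inverse `g` near `lb (z s, γ0)` (`HasStrictDerivAt.localInverse`, its
derivative at `f s` is `1/d`), and `z s' = g (lb (z s', γ0)) = g (f s')` for `s'` near `s`, because
`z` is continuous (`HasStrictDerivAt.eventually_left_inverse`). Chain rule.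
(2) with `al (z s, γ0) = γ0 dt L`: `d = dt L * exp (β z) K`, so `z' s = - I / (exp (β z s) K (z s, γ0))` and
by `hm.mdl.prim` the derivative of `s ↦ Tm β K (z s, γ0)` is `- I`. So `Tm β K (z s, γ0) + I s` is
constant on `Ioo 0 s2` (`is_const_of_deriv_eq_zero`-type lemma on the convex set `Ioo 0 s2`:
`Convex.is_const_of_fderivWithin_eq_zero`, `constant_of_has_deriv_right_zero`,
`IsOpen.is_const_of_deriv_eq_zero`), and on `Ioc 0 s2` by continuity.
(3) `‖Tm β K (z s, γ0)‖ ≤ 2 ‖k0/β‖ exp (β (z s).re) → 0` for `s → 0+` (`hm.mdl.prim`, `hp.lim`): the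
constant is `0`. -/
theorem Pst.height {q : ℂ → ℂ} {U : Set (ℂ × ℂ)} {L : ℂ × ℂ → ℂ} (h : DS q U L) {D : Set ℂ}
    {β : ℝ} {k0 : ℂ} {γ0 ρ0 : ℝ} {K lb al : ℂ × ℂ → ℂ} (hm : Mod q D β k0 γ0 ρ0 K lb al) {ζ : ℂ}
    {s2 : ℝ} {z : ℝ → ℂ} (hp : Pst U L D β γ0 lb al ζ s2 z) {s : ℝ} (hs : s ∈ Ioc 0 s2) :
    Tm β K (z s, γ0) = -(I * s) := by
  have hγ := Pst.hasDeriv h hm hp
  obtain ⟨F, hF⟩ : ∃ F : ℝ → ℂ, F = fun s : ℝ => Tm β K (z s, (γ0 : ℂ)) + I * s := ⟨_, rfl⟩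
  have hmem : ∀ s ∈ Ioc (0 : ℝ) s2, (z s, (γ0 : ℂ)) ∈ D ×ˢ ball (γ0 : ℂ) ρ0 := fun s hs =>
    ⟨(hp.mem s hs).1, mem_ball_self hm.mdl.ρ_pos⟩
  have hd : ∀ s ∈ Ioo (0 : ℝ) s2, HasDerivAt F 0 s := by
    intro s hs
    have hI : HasDerivAt (fun s : ℝ => I * (s : ℂ)) I s := by
      have := (Complex.ofRealCLM.hasDerivAt (x := s)).const_mul I
      simpa using this
    have h1 := (hγ s hs).add hI
    rw [neg_add_cancel] at h1
    rw [hF]
    exact h1
  have hc : ContinuousOn F (Ioc 0 s2) := by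
    rw [hF]
    refine ContinuousOn.add ?_ (by fun_prop)
    intro s hs
    have h1 : ContinuousAt (fun w => Tm β K (w, (γ0 : ℂ))) (z s) :=
      ((hm.mdl.prim.2 _ (hmem s hs)).1).continuousAt
    exact h1.comp_continuousWithinAt (hp.cont s hs)
  have hcon : ∀ x ∈ Ioo (0 : ℝ) s2, ∀ y ∈ Ioo (0 : ℝ) s2, F x = F y := by
    intro x hx y hy
    exact isOpen_Ioo.is_const_of_deriv_eq_zero isPreconnected_Ioo
      (fun s hs => (hd s hs).differentiableAt.differentiableWithinAt)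
      (fun s hs => (hd s hs).deriv) hx hy
  have hlim : Tendsto F (𝓝[>] 0) (𝓝 0) := by
    have hT : Tendsto (fun s : ℝ => Tm β K (z s, (γ0 : ℂ))) (𝓝[>] 0) (𝓝 0) := by
      have h1 : Tendsto (fun s : ℝ => 2 * ‖k0 / β‖ * Real.exp (β * (z s).re)) (𝓝[>] 0) (𝓝 0) := by
        have h2 : Tendsto (fun s : ℝ => β * (z s).re) (𝓝[>] 0) atBot :=
          hp.lim.const_mul_atBot hm.mdl.β_pos
        have h3 := Real.tendsto_exp_atBot.comp h2
        simpa using h3.const_mul (2 * ‖k0 / β‖)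
      refine squeeze_zero_norm' ?_ h1
      filter_upwards [Ioc_mem_nhdsGT hp.pos] with s hs
      have h4 := (hm.mdl.prim.2 _ (hmem s hs)).2
      have h5 : ‖exp ((β : ℂ) * z s) * (k0 / β)‖ = ‖k0 / β‖ * Real.exp (β * (z s).re) := by
        rw [norm_mul, Complex.norm_exp, mul_comm]
        simp
      have h6 := norm_add_le (Tm β K (z s, (γ0 : ℂ)) - exp ((β : ℂ) * z s) * (k0 / β))
        (exp ((β : ℂ) * z s) * (k0 / β))
      rw [sub_add_cancel] at h6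
      have h7 : 0 ≤ ‖exp ((β : ℂ) * z s) * (k0 / β)‖ := norm_nonneg _
      dsimp only at h4
      rw [h5] at h4 h6 h7
      linarith
    have hI : Tendsto (fun s : ℝ => I * (s : ℂ)) (𝓝[>] 0) (𝓝 0) := by
      have : ContinuousAt (fun s : ℝ => I * (s : ℂ)) 0 := by fun_prop
      have := this.tendsto.mono_left (nhdsWithin_le_nhds (s := Ioi 0))
      simpa using this
    rw [hF]
    simpa using hT.add hI
  have hzero : ∀ x ∈ Ioo (0 : ℝ) s2, F x = 0 := by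
    intro x hx
    have h1 : Tendsto F (𝓝[>] 0) (𝓝 (F x)) := by
      refine tendsto_const_nhds.congr' ?_
      filter_upwards [Ioo_mem_nhdsGT hp.pos] with s hs
      exact hcon x hx s hs
    exact tendsto_nhds_unique h1 hlim
  have hs0 : F s = 0 := by
    rcases lt_or_eq_of_le hs.2 with h1 | h1
    · exact hzero s ⟨hs.1, h1⟩
    · have h2 : Tendsto F (𝓝[<] s) (𝓝 (F s)) := by
        have h3 := (hc s hs).tendsto
        refine h3.mono_left ?_
        rw [← nhdsWithin_Ioo_eq_nhdsLT (show (0 : ℝ) < s from hs.1)]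
        refine nhdsWithin_mono _ ?_
        intro t ht
        exact ⟨ht.1, ht.2.le.trans hs.2⟩
      have h3 : Tendsto F (𝓝[<] s) (𝓝 0) := by
        refine tendsto_const_nhds.congr' ?_
        filter_upwards [Ioo_mem_nhdsLT hs.1] with t ht
        exact (hzero t ⟨ht.1, ht.2.trans_le hs.2⟩).symm
      exact tendsto_nhds_unique h2 h3
  rw [hF] at hs0
  exact eq_neg_of_add_eq_zero_left hs0

end Pool.Agent.MP_ae5b4e_an_T
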