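import Pool.Agent.Lib.MP_ae5b4e_an_T.T4Prim
import Pool.Agent.Lib.MP_ae5b4e_an_T.T4Gz
import Pool.Agent.Lib.MP_ae5b4e_an_WD.TipL

/-!
# POR (iii), N2, T4: the height function of the tip is the radial integral `tipE`
-/

noncomputable section

namespace Pool.Agent.MP_ae5b4e_an_T

open Complex Set Filter Topology Metric MeasureTheory
open Pool.Agent.MP_ae5b4e_an_WB
open Pool.Agent.MP_ae5b4e_an_WD
open Pool.Agent.MP_ae5b4e_an_M (S1 C1f Gf)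

private lemma tg_sign {x y : ℂ} (hx : ‖x - 1‖ ≤ 1 / 10) (hy : ‖y - 1‖ ≤ 1 / 10)
    (h : x ^ 2 = y ^ 2) : x = y := by
  rcases sq_eq_sq_iff_eq_or_eq_neg.1 h with h1 | h1
  · exact h1
  · exfalso
    have h2 : (2 : ℂ) = -((x - 1) + (y - 1)) := by rw [h1]; ring
    have h3 : ‖(2 : ℂ)‖ ≤ 1 / 10 + 1 / 10 := by
      rw [h2, norm_neg]
      exact (norm_add_le _ _).trans (add_le_add hx hy)
    norm_num at h3

private lemma tg_gap {c : ℝ} (hc : c ≤ 1 / 20) {z : ℂ} (hz : z ∈ DT c) :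
    ‖gz z - 1‖ ≤ 1 / 10 := by
  have h := (gz_gap hz.1.le (hz.2.le.trans hc)).2
  have := hz.2
  linarith

private lemma tg_clos {c : ℝ} (hc : c ≤ 1 / 20) (hc0 : 0 < c) {w : ℂ} (hw : w ∈ closure (DT c))
    (hg : ‖gz w - 1‖ ≤ c / 8) : w ∈ DT c := by
  have hcl : IsClosed ({w : ℂ | w.re ≤ -1} ∩ {w : ℂ | ‖w‖ * Real.exp w.re ≤ c}) :=
    (isClosed_le continuous_re continuous_const).inter
      (isClosed_le (continuous_norm.mul (Real.continuous_exp.comp continuous_re)) continuous_const)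
  have h1 : w ∈ ({w : ℂ | w.re ≤ -1} ∩ {w : ℂ | ‖w‖ * Real.exp w.re ≤ c}) :=
    closure_minimal (fun v (hv : v ∈ DT c) => And.intro (le_of_lt hv.1) (le_of_lt hv.2)) hcl hw
  obtain ⟨h2, h3⟩ := h1
  have h2' : w.re ≤ -1 := h2
  have h3' : ‖w‖ * Real.exp w.re ≤ c := h3
  have h4 := (gz_gap h2' (h3'.trans hc)).1
  have h5 : 1 ≤ ‖w‖ := by
    have h6 := Complex.abs_re_le_norm w
    have h7 : |w.re| = -w.re := abs_of_neg (by linarith)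
    linarith
  have h6 : Real.exp w.re ≤ c / 4 := by
    have := mul_le_mul_of_nonneg_right h5 (Real.exp_pos w.re).le
    linarith
  refine ⟨?_, by linarith⟩
  by_contra h7
  push Not at h7
  have h8 : Real.exp (-1) ≤ Real.exp w.re := Real.exp_le_exp.2 h7
  have h9 : (1 : ℝ) / 3 < Real.exp (-1) := by
    rw [Real.exp_neg]
    have h10 := Real.exp_one_lt_d9
    have h11 : 0 < Real.exp 1 := Real.exp_pos 1
    rw [← one_div]
    exact one_div_lt_one_div_of_lt h11 (by linarith)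
  linarith

private lemma tg_exp {y : ℂ} (h : sin y ≠ 0) : exp (2 * I * y) ≠ 1 := by
  intro h1
  obtain ⟨n, hn⟩ := Complex.exp_eq_one_iff.1 h1
  apply h
  have h2 : y = n * Real.pi := by
    have h3 : (2 * I) * y = (2 * I) * (n * Real.pi) := by rw [hn]; ring
    exact mul_left_cancel₀ (mul_ne_zero two_ne_zero I_ne_zero) h3
  rw [h2]
  exact Complex.sin_int_mul_pi n

private lemma tg_main {q : ℂ → ℂ} {γ0 : ℝ} {l : ℂ}
    (ht : (γ0 : ℂ) ^ 2 * q l = tipc) {c ρ0 : ℝ} {K lb : ℂ × ℂ → ℂ} {k0 : ℂ}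
    (hc0 : 0 < c) (hc : c ≤ 1 / 20) (hm : Mod q (DT c) 1 k0 γ0 ρ0 K lb alT)
    {ε1 : ℝ} (huniq : ∀ p ∈ DT c ×ˢ ball (γ0 : ℂ) ρ0, ∀ l' : ℂ, ‖l' - l‖ < ε1 →
      p.2 ^ 2 * q l' = tipc * gz p.1 ^ 2 → l' = lb p) {u : ℂ} (hu : 0 < u.re) {lam : ℂ → ℂ}
    {r r1 : ℝ} (hlam : LocChart u q l lam r) (hr1 : 8 * r1 ≤ r)
    (hη : ∀ b : ℂ, ‖b‖ < 2 * r1 → ‖lam b - l‖ < ε1 ∧ ‖exp (u * b) - 1‖ ≤ c / 8)
    {a : ℂ} (ha : a ≠ 0) (har : ‖a‖ < r1) {y0 : ℂ} (hy0 : sin y0 ≠ 0)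
    (hG : G y0 = W0 * exp (u * a)) {z : ℂ} (hz : ‖z‖ < ‖a‖ / 8)
    (hγz : (γ0 : ℂ) * exp (u * z) ∈ ball (γ0 : ℂ) ρ0) (h1 : 2 * I * Fl y0 (u * z) ∈ DT c) :
    Tm 1 K (2 * I * Fl y0 (u * z), γ0 * exp (u * z)) = tipE u W0 a y0 (deriv lam) z := by
  obtain ⟨hr0, hr1', hr2, hd, hlam0, hv, hi⟩ := hlam
  have hna : 0 < ‖a‖ := norm_pos_iff.2 ha
  have hγ0 : 0 < γ0 := hm.mdl.ρ_pos.trans hm.mdl.ρ_lt
  obtain ⟨γ, hγ⟩ : ∃ γ : ℂ, γ = (γ0 : ℂ) * exp (u * z) := ⟨_, rfl⟩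
  have hγne : γ ≠ 0 := by
    rw [hγ]
    exact mul_ne_zero (Complex.ofReal_ne_zero.2 hγ0.ne') (Complex.exp_ne_zero _)
  rw [← hγ] at hγz
  rw [← hγ]
  obtain ⟨y, hy⟩ : ∃ y : ℝ → ℂ, y = fun θ : ℝ => Fl y0 (u * (θ * (a + z) - a)) := ⟨_, rfl⟩
  have hω : ∀ θ ∈ Ioc (0 : ℝ) 1, (θ : ℂ) * (a + z) ∈ ball a ‖a‖ := by
    intro θ hθ
    rw [mem_ball_iff_norm]
    have h2 : (θ : ℂ) * (a + z) - a = ((θ : ℝ) : ℂ) * z - ((1 - θ : ℝ) : ℂ) * a := by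
      push_cast
      ring
    rw [h2]
    refine (norm_sub_le _ _).trans_lt ?_
    rw [norm_mul, norm_mul, Complex.norm_real, Complex.norm_real, Real.norm_of_nonneg hθ.1.le,
      Real.norm_of_nonneg (by linarith [hθ.2])]
    have h3 : θ * ‖z‖ < θ * ‖a‖ := mul_lt_mul_of_pos_left (by linarith) hθ.1
    linarith
  have hF : ∀ θ ∈ Ioc (0 : ℝ) 1, Fwd y0 (u * (θ * (a + z) - a)) := fun θ hθ =>
    TipL2_fwd hu W0_sq hG ha (by linarith) hr2 (mem_ball_self hna) (hω θ hθ)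
  have hs : ∀ θ ∈ Ioc (0 : ℝ) 1, sin (y θ) ≠ 0 := fun θ hθ => by
    rw [hy]
    exact sin_Fl_ne_zero hy0 (hF θ hθ)
  have hGy : ∀ θ ∈ Ioc (0 : ℝ) 1, G (y θ) = W0 * exp (u * (θ * (a + z))) := by
    intro θ hθ
    rw [hy]
    show G (Fl y0 (u * (θ * (a + z) - a))) = _
    rw [G_Fl hy0 (hF θ hθ), hG, mul_assoc, ← Complex.exp_add]
    congr 2
    ring
  have hlin : ∀ (x : ℂ) (θ : ℝ), HasDerivAt (fun θ : ℝ => (θ : ℂ) * x) x θ := by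
    intro x θ
    have := (Complex.ofRealCLM.hasDerivAt (x := θ)).mul_const x
    simpa using this
  have hyd : ∀ θ ∈ Ioc (0 : ℝ) 1, HasDerivAt y (V (y θ) * (u * (a + z))) θ := by
    intro θ hθ
    have h3 := hasDerivAt_Fl hy0 (hF θ hθ)
    have h4 : HasDerivAt (fun θ : ℝ => u * ((θ : ℂ) * (a + z) - a)) (u * (a + z)) θ :=
      ((hlin (a + z) θ).sub_const a).const_mul u
    rw [hy]
    exact HasDerivAt.comp θ (h₂ := Fl y0) (h := fun θ : ℝ => u * ((θ : ℂ) * (a + z) - a)) h3 h4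
  obtain ⟨ζ, hζ⟩ : ∃ ζ : ℝ → ℂ, ζ = fun θ : ℝ => 2 * I * y θ := ⟨_, rfl⟩
  have h2I : (2 * I : ℂ) ≠ 0 := mul_ne_zero two_ne_zero I_ne_zero
  have hζ' : ∀ θ : ℝ, ζ θ = 2 * I * y θ := fun θ => by rw [hζ]
  have hζd : ∀ θ ∈ Ioc (0 : ℝ) 1, HasDerivAt ζ (2 * I * (V (y θ) * (u * (a + z)))) θ :=
    fun θ hθ => by
    rw [hζ]
    exact (hyd θ hθ).const_mul _
  have hζ2 : ∀ θ : ℝ, ζ θ / (2 * I) = y θ := fun θ => by
    rw [hζ', mul_div_cancel_left₀ _ h2I]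
  have hζe : ∀ θ ∈ Ioc (0 : ℝ) 1, exp (ζ θ) ≠ 1 := fun θ hθ => by
    rw [hζ']
    exact tg_exp (hs θ hθ)
  have hgz : ∀ θ ∈ Ioc (0 : ℝ) 1, gz (ζ θ) = exp (u * (θ * (a + z))) := by
    intro θ hθ
    have h3 := (G_gz (hζe θ hθ)).2
    rw [hζ2, hGy θ hθ] at h3
    exact (mul_left_cancel₀ W0_ne h3).symm
  have hω2 : ∀ θ ∈ Ioc (0 : ℝ) 1, ‖(θ : ℂ) * (a + z)‖ < 2 * r1 := by
    intro θ hθ
    have h3 := hω θ hθ
    rw [mem_ball_iff_norm] at h3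
    have h4 := norm_sub_norm_le ((θ : ℂ) * (a + z)) a
    linarith
  have hgz2 : ∀ θ ∈ Ioc (0 : ℝ) 1, ‖gz (ζ θ) - 1‖ ≤ c / 8 := by
    intro θ hθ
    rw [hgz θ hθ]
    exact (hη _ (hω2 θ hθ)).2
  have hone : (1 : ℝ) ∈ Ioc (0 : ℝ) 1 := ⟨one_pos, le_rfl⟩
  have hζ1 : ζ 1 = 2 * I * Fl y0 (u * z) := by
    rw [hζ', hy]
    show 2 * I * Fl y0 (u * (((1 : ℝ) : ℂ) * (a + z) - a)) = _
    congr 3
    push_cast
    ring
  have hmem : ∀ θ ∈ Ioc (0 : ℝ) 1, ζ θ ∈ DT c := by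
    have hpre : IsPreconnected (ζ '' Ioc 0 1) := isPreconnected_Ioc.image ζ
      (fun θ hθ => (hζd θ hθ).continuousAt.continuousWithinAt)
    have hsub : ζ '' Ioc 0 1 ⊆ DT c := by
      refine hpre.subset_of_closure_inter_subset (isOpen_DT c)
        ⟨ζ 1, mem_image_of_mem _ hone, ?_⟩ ?_
      · rw [hζ1]
        exact h1
      · rintro w ⟨hw, θ, hθ, rfl⟩
        exact tg_clos hc hc0 hw (hgz2 θ hθ)
    exact fun θ hθ => hsub (mem_image_of_mem _ hθ)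
  have hmem2 : ∀ θ ∈ Ioc (0 : ℝ) 1, (ζ θ, γ) ∈ DT c ×ˢ ball (γ0 : ℂ) ρ0 := fun θ hθ =>
    ⟨hmem θ hθ, hγz⟩
  -- the heights
  have hb : ∀ θ ∈ Ioc (0 : ℝ) 1, ‖(θ : ℂ) * (a + z) - z‖ ≤ ‖a‖ := by
    intro θ hθ
    have h2 : (θ : ℂ) * (a + z) - z = ((θ : ℝ) : ℂ) * a - ((1 - θ : ℝ) : ℂ) * z := by
      push_cast
      ring
    rw [h2]
    refine (norm_sub_le _ _).trans ?_
    rw [norm_mul, norm_mul, Complex.norm_real, Complex.norm_real, Real.norm_of_nonneg hθ.1.le,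
      Real.norm_of_nonneg (by linarith [hθ.2])]
    have h3 : (1 - θ) * ‖z‖ ≤ (1 - θ) * ‖a‖ :=
      mul_le_mul_of_nonneg_left (by linarith) (by linarith [hθ.2])
    linarith
  have hbr : ∀ θ ∈ Ioc (0 : ℝ) 1, (θ : ℂ) * (a + z) - z ∈ ball (0 : ℂ) r := fun θ hθ => by
    rw [mem_ball_zero_iff]
    have := hb θ hθ
    linarith
  have hlab : ∀ θ ∈ Ioc (0 : ℝ) 1, lam (θ * (a + z) - z) = lb (ζ θ, γ) := by
    intro θ hθ
    refine huniq _ (hmem2 θ hθ) _ (hη _ ?_).1 ?_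
    · have := hb θ hθ
      linarith
    · show γ ^ 2 * q (lam (θ * (a + z) - z)) = tipc * gz (ζ θ) ^ 2
      rw [(hv _ (hbr θ hθ)).2, hgz θ hθ, hγ, ← ht, mul_pow, ← Complex.exp_nat_mul,
        ← Complex.exp_nat_mul]
      have e1 : ((2 : ℕ) : ℂ) * (u * (θ * (a + z))) =
          (2 : ℕ) * (u * z) + 2 * (u * (θ * (a + z) - z)) := by
        push_cast
        ring
      rw [e1, Complex.exp_add]
      ring
  have hTd := hm.mdl.prim.2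
  have hHd : ∀ θ ∈ Ioc (0 : ℝ) 1, HasDerivAt (fun θ : ℝ => Tm 1 K (ζ θ, γ))
      (exp ((1 : ℝ) * ζ θ) * K (ζ θ, γ) * (2 * I * (V (y θ) * (u * (a + z))))) θ := by
    intro θ hθ
    exact HasDerivAt.comp θ (h₂ := fun w => Tm 1 K (w, γ)) (h := ζ)
      (hTd _ (hmem2 θ hθ)).1 (hζd θ hθ)
  have hHd2 : ∀ θ ∈ Ioo (0 : ℝ) 1, HasDerivAt (fun θ : ℝ => Tm 1 K (ζ θ, γ))
      (W0 * exp (u * (θ * (a + z))) / Fl y0 (u * (θ * (a + z) - a)) *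
        deriv lam (θ * (a + z) - z) * (a + z)) θ := by
    intro θ hθ
    have hθ' : θ ∈ Ioc (0 : ℝ) 1 := ⟨hθ.1, hθ.2.le⟩
    have h3 := hHd θ hθ'
    have h4 : HasDerivAt (fun θ : ℝ => lb (ζ θ, γ)) (alT (ζ θ, γ) *
        (exp ((1 : ℝ) * ζ θ) * K (ζ θ, γ)) / γ * (2 * I * (V (y θ) * (u * (a + z))))) θ :=
      HasDerivAt.comp θ (h₂ := fun w => lb (w, γ)) (h := ζ) (hm.rel _ (hmem2 θ hθ')) (hζd θ hθ')
    have h5 : HasDerivAt (fun θ : ℝ => lam ((θ : ℂ) * (a + z) - z))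
        (deriv lam (θ * (a + z) - z) * (a + z)) θ :=
      HasDerivAt.comp θ (h₂ := lam) (h := fun θ : ℝ => (θ : ℂ) * (a + z) - z)
        (hd.differentiableAt (isOpen_ball.mem_nhds (hbr θ hθ'))).hasDerivAt
        ((hlin (a + z) θ).sub_const z)
    have h6 : (fun θ : ℝ => lb (ζ θ, γ)) =ᶠ[𝓝 θ] fun θ : ℝ => lam ((θ : ℂ) * (a + z) - z) := by
      filter_upwards [isOpen_Ioo.mem_nhds hθ] with s hs
      exact (hlab s ⟨hs.1, hs.2.le⟩).symm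
    have h7 := h4.unique (h5.congr_of_eventuallyEq h6)
    have h8 : alT (ζ θ, γ) = γ * (2 * I * y θ) / (2 * I * (W0 * exp (u * (θ * (a + z))))) := by
      unfold alT
      show γ * ζ θ / (2 * I * (W0 * gz (ζ θ))) = _
      rw [hgz θ hθ', hζ']
    have h9 : Fl y0 (u * (θ * (a + z) - a)) = y θ := by rw [hy]
    have hyne : y θ ≠ 0 := ne_zero_of_sin (hs θ hθ')
    rw [h9]
    convert h3 using 1
    rw [h8] at h7
    have hEne : exp (u * (θ * (a + z))) ≠ 0 := Complex.exp_ne_zero _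
    have hWne := W0_ne
    generalize exp (u * (θ * (a + z))) = E at h7 hEne ⊢
    generalize exp ((1 : ℝ) * ζ θ) = E1 at h7 ⊢
    generalize K (ζ θ, γ) = Kv at h7 ⊢
    generalize V (y θ) = Vv at h7 ⊢
    generalize y θ = Yv at h7 hyne ⊢
    have h10 : W0 * E / Yv * deriv lam (θ * (a + z) - z) * (a + z) =
        W0 * E / Yv * (deriv lam (θ * (a + z) - z) * (a + z)) := by ring
    rw [h10, ← h7]
    have hIne : I ≠ 0 := I_ne_zero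
    field_simp
  have hint : IntervalIntegrable (fun θ : ℝ => W0 * exp (u * (θ * (a + z))) /
      Fl y0 (u * (θ * (a + z) - a)) * deriv lam (θ * (a + z) - z) * (a + z)) volume 0 1 := by
    obtain ⟨C, hC, hbd0⟩ := TipL2_bd
    have hbd := hbd0 u W0 a y0 hG
    have hK : ContinuousOn (deriv lam) (closedBall 0 ‖a‖) :=
      (hd.deriv isOpen_ball).continuousOn.mono (closedBall_subset_ball (by linarith))
    obtain ⟨M, hM⟩ := (isCompact_closedBall (0 : ℂ) ‖a‖).exists_bound_of_continuousOn hK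
    rw [intervalIntegrable_iff_integrableOn_Ioc_of_le zero_le_one]
    have hcon : ContinuousOn (fun θ : ℝ => W0 * exp (u * (θ * (a + z))) /
        Fl y0 (u * (θ * (a + z) - a)) * deriv lam (θ * (a + z) - z) * (a + z)) (Ioc 0 1) := by
      have c1 : ContinuousOn (fun θ : ℝ => Fl y0 (u * (θ * (a + z) - a))) (Ioc 0 1) := by
        have h3 : ContinuousOn y (Ioc 0 1) := fun θ hθ =>
          (hyd θ hθ).continuousAt.continuousWithinAt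
        rw [hy] at h3
        exact h3
      have c2 : ContinuousOn (fun θ : ℝ => deriv lam ((θ : ℂ) * (a + z) - z)) (Ioc 0 1) := by
        refine ContinuousOn.comp (g := deriv lam) (f := fun θ : ℝ => (θ : ℂ) * (a + z) - z)
          (hd.deriv isOpen_ball).continuousOn (by fun_prop) ?_
        intro θ hθ
        exact hbr θ hθ
      have c3 : ContinuousOn (fun θ : ℝ => W0 * exp (u * (θ * (a + z)))) (Ioc 0 1) := by
        fun_prop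
      exact ((c3.div c1 (fun θ hθ => Fl_ne_zero hy0 (hF θ hθ))).mul c2).mul continuousOn_const
    refine IntegrableOn.of_bound measure_Ioc_lt_top
      (hcon.aestronglyMeasurable measurableSet_Ioc)
      (C * (1 + ‖W0‖ * Real.exp (‖u‖ * (2 * r1))) * M * ‖a + z‖) ?_
    refine (ae_restrict_mem measurableSet_Ioc).mono fun θ hθ => ?_
    rw [norm_mul, norm_mul]
    refine mul_le_mul_of_nonneg_right ?_ (norm_nonneg _)
    refine mul_le_mul ((hbd _).trans ?_) (hM _ (mem_closedBall_zero_iff.2 (hb θ hθ)))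
      (norm_nonneg _) (by positivity)
    have h3 : Real.exp (‖u‖ * ‖(θ : ℂ) * (a + z)‖) ≤ Real.exp (‖u‖ * (2 * r1)) :=
      Real.exp_le_exp.2 (mul_le_mul_of_nonneg_left (hω2 θ hθ).le (norm_nonneg _))
    have h4 := mul_le_mul_of_nonneg_left h3 (norm_nonneg W0)
    exact mul_le_mul_of_nonneg_left (by linarith) hC.le
  have hlim1 : Tendsto (fun θ : ℝ => Tm 1 K (ζ θ, γ)) (𝓝[<] 1) (𝓝 (Tm 1 K (ζ 1, γ))) :=
    (hHd 1 hone).continuousAt.tendsto.mono_left nhdsWithin_le_nhds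
  have hlim0 : Tendsto (fun θ : ℝ => Tm 1 K (ζ θ, γ)) (𝓝[>] 0) (𝓝 0) := by
    have h3 : Tendsto (fun θ : ℝ => 4 * ‖k0‖ * ‖exp (u * (θ * (a + z))) - 1‖) (𝓝[>] 0) (𝓝 0) := by
      have h4 : Continuous fun θ : ℝ => 4 * ‖k0‖ * ‖exp (u * (θ * (a + z))) - 1‖ := by fun_prop
      have h5 := h4.tendsto 0
      simp only [Complex.ofReal_zero, zero_mul, mul_zero, Complex.exp_zero, sub_self,
        norm_zero] at h5
      exact h5.mono_left nhdsWithin_le_nhds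
    refine squeeze_zero_norm' ?_ h3
    filter_upwards [Ioc_mem_nhdsGT zero_lt_one] with θ hθ
    have h4 := (hTd _ (hmem2 θ hθ)).2
    have h5 := hmem θ hθ
    have h6 := (gz_gap h5.1.le (h5.2.le.trans hc)).1
    rw [hgz θ hθ] at h6
    have h7 : 1 ≤ ‖ζ θ‖ := by
      have h8 := Complex.abs_re_le_norm (ζ θ)
      have h9 : |(ζ θ).re| = -(ζ θ).re := abs_of_neg (by linarith [h5.1])
      linarith [h5.1]
    have h8 := mul_le_mul_of_nonneg_right h7 (Real.exp_pos (ζ θ).re).le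
    rw [one_mul] at h8
    have h9 : ‖exp ((1 : ℝ) * (ζ θ, γ).1) * (k0 / ((1 : ℝ) : ℂ))‖ =
        Real.exp (ζ θ).re * ‖k0‖ := by
      rw [Complex.ofReal_one, one_mul, div_one, norm_mul, Complex.norm_exp]
    rw [h9] at h4
    have h10 := norm_le_norm_add_norm_sub' (Tm 1 K (ζ θ, γ))
      (exp ((1 : ℝ) * (ζ θ, γ).1) * (k0 / ((1 : ℝ) : ℂ)))
    rw [h9] at h10
    have h11 : Real.exp (ζ θ).re * ‖k0‖ ≤ 2 * ‖exp (u * (θ * (a + z))) - 1‖ * ‖k0‖ :=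
      mul_le_mul_of_nonneg_right (h8.trans h6) (norm_nonneg _)
    have h12 : 0 ≤ Real.exp (ζ θ).re * ‖k0‖ := by positivity
    have h13 : ‖Tm 1 K (ζ θ, γ)‖ ≤ 2 * (Real.exp (ζ θ).re * ‖k0‖) := by linarith
    linarith
  have hfin := intervalIntegral.integral_eq_sub_of_hasDerivAt_of_tendsto one_pos hHd2 hint
    hlim0 hlim1
  rw [intervalIntegral.integral_mul_const, sub_zero] at hfin
  unfold tipE
  rw [mul_comm (a + z), hfin, hζ1]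

/-- `Tm` is the radial integral `tipE`.

Proof. Choose `r1 ≤ 1`, `8 r1 ≤ r`, such that for `‖b‖ ≤ 2 r1`: `‖lam b - l‖ < ε1` and
`‖exp (u b) - 1‖ ≤ c/8`. Let `a`, `z1`, `Zc`, `Y` be given. `γ_z = γ0 exp (u z)`, all statements are for `z`
near `0`, in particular `‖z‖ < ‖a‖/8` and `γ_z ∈ ball γ0 ρ0`.
(0) By `tipE_sq` (`WD/TipL.lean`) we may assume `Y = z1 / (2 I)` (`Y^2` only matters). `sin Y ≠ 0` (`G_gz`).
(1) `gz z1 = exp (u a)`: `hlb` at `(z1, γ0)`, `q (lam a) = q l exp (2 (u a))`, `ht` give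
`gz z1 ^ 2 = exp (u a) ^ 2`; `‖gz z1 - 1‖ ≤ 2 c ≤ 1/10` (`gz_gap`), `‖exp (u a) - 1‖ ≤ c/8` exclude the sign `-`. So
`G Y exp (-(u a)) = W0`.
(2) for `θ ∈ (0, 1]` let `y θ = Fl Y (u (θ (a + z) - a))`. `TipL2_fwd` (`WD/TipL2.lean`, `W = W0`, `W0_sq`,
`b = a`, `Yb = Y`, `ω = θ (a + z)`, `‖ω - a‖ ≤ (1 - θ) ‖a‖ + θ ‖a‖/8 < ‖a‖`) gives `Fwd`, so
`sin (y θ) ≠ 0`, `G (y θ) = W0 exp (u (θ (a + z)))`, and `y` has the derivative `V (y θ) u (a + z)`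
(`hasDerivAt_Fl`, `sin_Fl_ne_zero`, `WB/GD.lean`, `WB/GU.lean`; only differentiability is needed).
(3) `ζ θ = 2 I y θ ∈ DT c` for all `θ ∈ (0, 1]`: `exp (ζ θ) ≠ 1` (`sin (y θ) ≠ 0`), so by `G_gz`
`gz (ζ θ) = exp (u (θ (a + z)))`, `‖gz (ζ θ) - 1‖ ≤ c/8`. The set of these `θ` is open in `(0, 1]` (`isOpen_DT`),
it is closed: at a limit `θ` we have `(ζ θ).re ≤ -1`, `‖ζ θ‖ exp (ζ θ).re ≤ c ≤ 1/20`, and `gz_gap` gives
`‖ζ θ‖ exp (ζ θ).re ≤ 2 c/8 < c`; as `‖ζ θ‖ ≥ 1` also `exp (ζ θ).re ≤ 1/80`, so `(ζ θ).re < -1`. It contains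
`θ = 1` for `z` near `0`: `Fl Y (u z) → Y` (`Fl_zero`, `hasDerivAt_Fl` at `0`), `2 I Y = z1 ∈ DT c` open.
`(0, 1]` is preconnected.
(4) `lb (ζ θ, γ_z) = lam (b θ)`, `b θ = θ (a + z) - z` (`‖b θ‖ ≤ 2 r1`): `huniq` with `l' = lam (b θ)`,
`γ_z^2 q (lam (b θ)) = γ0^2 exp (2 (u z)) q l exp (2 (u (b θ))) = tipc exp (u θ (a + z)) ^ 2`.
(5) `H θ = Tm 1 K (ζ θ, γ_z)`. `H' θ = exp (ζ) K (ζ, γ_z) ζ'` (`hm.mdl.prim`; `β = 1`). Differentiate (4):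
`alT (ζ, γ_z) (exp ζ K) / γ_z * ζ' = deriv lam (b θ) (a + z)` (`hm.rel`), and
`alT (ζ, γ_z) / γ_z = ζ / (2 I W0 gz ζ) = y θ / G (y θ)`. So
`H' θ = (a + z) * (W0 exp (u (θ (a + z))) / y θ * deriv lam (b θ))`, the integrand of `tipE` times `(a + z)`.
(6) `‖H θ‖ ≤ 2 ‖k0‖ exp (ζ θ).re ≤ 2 ‖k0‖ ‖ζ θ‖ exp (ζ θ).re ≤ 4 ‖k0‖ ‖exp (u (θ (a + z))) - 1‖ → 0` for
`θ → 0+`. The integrand is continuous on `(0, 1]` and bounded (`TipL2_bd`, `deriv lam` bounded on a closed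
ball of radius `< r`). `intervalIntegral.integral_eq_sub_of_hasDerivAt_of_tendsto` (or the same on
`[θ0, 1]` and a limit): `H 1 = tipE u W0 a Y (deriv lam) z`.
(7) `ζ 1 = Zc z` for `z` near `0`: `eventually_eq_of_G_eq` (`WB/GI.lean`) for `Fl Y (u z)` and
`Zc z / (2 I)` (both tend to `Y`): `G (Zc z / (2 I)) = W0 gz (Zc z)`, and `gz (Zc z) ^ 2 = exp (u (a + z)) ^ 2` by
`hlb` (`Zc z ∈ DT c` near `0`), with the sign `+` by continuity (`gz z1 = exp (u a)`). -/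
theorem tip_germ {q : ℂ → ℂ} (hq : DifferentiableOn ℂ q Hm) {γ0 : ℝ} (hγ : 0 < γ0) {l : ℂ}
    (hl : l.im < 0) (ht : (γ0 : ℂ) ^ 2 * q l = tipc) {c ρ0 : ℝ} {K lb : ℂ × ℂ → ℂ} {k0 : ℂ}
    (hc0 : 0 < c) (hc : c ≤ 1 / 20) (hm : Mod q (DT c) 1 k0 γ0 ρ0 K lb alT)
    (hlb : ∀ p ∈ DT c ×ˢ ball (γ0 : ℂ) ρ0, p.2 ^ 2 * q (lb p) = tipc * gz p.1 ^ 2) {ε1 : ℝ}
    (hε1 : 0 < ε1) (huniq : ∀ p ∈ DT c ×ˢ ball (γ0 : ℂ) ρ0, ∀ l' : ℂ, ‖l' - l‖ < ε1 →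
      p.2 ^ 2 * q l' = tipc * gz p.1 ^ 2 → l' = lb p) {u : ℂ} (hu : 0 < u.re) {lam : ℂ → ℂ} {r : ℝ}
    (hlam : LocChart u q l lam r) :
    ∃ r1 : ℝ, 0 < r1 ∧ 8 * r1 ≤ r ∧ ∀ a : ℂ, a ≠ 0 → ‖a‖ < r1 → ∀ z1 ∈ DT c,
      lb (z1, γ0) = lam a → ∀ Zc : ℂ → ℂ, ContinuousAt Zc 0 → Zc 0 = z1 →
      (∀ᶠ z in 𝓝 (0 : ℂ), lb (Zc z, γ0 * exp (u * z)) = lam a) →
      ∀ Y : ℂ, Y ^ 2 = (z1 / (2 * I)) ^ 2 →
      ∀ᶠ z in 𝓝 (0 : ℂ), Tm 1 K (Zc z, γ0 * exp (u * z)) =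
        tipE u (G Y * exp (-(u * a))) a Y (deriv lam) z := by
  have hlam' := hlam
  obtain ⟨hr0, hr1', hr2, hd, hlam0, hv, hi⟩ := hlam'
  have h0r : (0 : ℂ) ∈ ball (0 : ℂ) r := mem_ball_self hr0
  have hlc : ContinuousAt lam 0 := (hd.differentiableAt (isOpen_ball.mem_nhds h0r)).continuousAt
  obtain ⟨η, hη0, hη⟩ : ∃ η : ℝ, 0 < η ∧ ∀ b : ℂ, ‖b‖ < η → ‖lam b - l‖ < ε1 ∧
      ‖exp (u * b) - 1‖ ≤ c / 8 := by
    have e1 : ∀ᶠ b in 𝓝 (0 : ℂ), ‖lam b - l‖ < ε1 := by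
      have h1 : Tendsto (fun b => ‖lam b - l‖) (𝓝 0) (𝓝 ‖lam 0 - l‖) :=
        (hlc.tendsto.sub_const l).norm
      rw [hlam0, sub_self, norm_zero] at h1
      exact h1.eventually (gt_mem_nhds hε1)
    have e2 : ∀ᶠ b in 𝓝 (0 : ℂ), ‖exp (u * b) - 1‖ < c / 8 := by
      have h1 : Continuous fun b : ℂ => ‖exp (u * b) - 1‖ := by fun_prop
      have h2 := h1.tendsto 0
      rw [mul_zero, Complex.exp_zero, sub_self, norm_zero] at h2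
      exact h2.eventually (gt_mem_nhds (by linarith))
    obtain ⟨η, hη0, hη⟩ := Metric.eventually_nhds_iff_ball.1 (e1.and e2)
    exact ⟨η, hη0, fun b hb => ⟨(hη b (mem_ball_zero_iff.2 hb)).1,
      (hη b (mem_ball_zero_iff.2 hb)).2.le⟩⟩
  refine ⟨min (r / 8) (η / 4), lt_min (by linarith) (by linarith), by
    have := min_le_left (r / 8) (η / 4)
    linarith, ?_⟩
  obtain ⟨r1, hr1⟩ : ∃ r1, r1 = min (r / 8) (η / 4) := ⟨_, rfl⟩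
  rw [← hr1]
  have hr1a : 8 * r1 ≤ r := by
    have := min_le_left (r / 8) (η / 4)
    linarith
  have hr1b : 4 * r1 ≤ η := by
    have := min_le_right (r / 8) (η / 4)
    linarith
  have hr1c : 0 < r1 := by
    rw [hr1]
    exact lt_min (by linarith) (by linarith)
  have hη' : ∀ b : ℂ, ‖b‖ < 2 * r1 → ‖lam b - l‖ < ε1 ∧ ‖exp (u * b) - 1‖ ≤ c / 8 :=
    fun b hb => hη b (by linarith)
  intro a ha har z1 hz1 hlz Zc hZc hZ0 hZl Y hY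
  have hna : 0 < ‖a‖ := norm_pos_iff.2 ha
  have hρ := hm.mdl.ρ_pos
  have hγ0mem : (γ0 : ℂ) ∈ ball (γ0 : ℂ) ρ0 := mem_ball_self hρ
  have har0 : a ∈ ball (0 : ℂ) r := by
    rw [mem_ball_zero_iff]
    linarith
  obtain ⟨hs0, hG0⟩ := G_gz (DT_exp hz1).1
  -- the value of gz
  have hval : ∀ z w : ℂ, w ∈ DT c → (γ0 : ℂ) * exp (u * z) ∈ ball (γ0 : ℂ) ρ0 → ‖z‖ < ‖a‖ / 8 →
      lb (w, γ0 * exp (u * z)) = lam a → gz w = exp (u * (a + z)) := by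
    intro z w hw hγz hz hl1
    have h1 := hlb (w, γ0 * exp (u * z)) ⟨hw, hγz⟩
    rw [hl1, (hv a har0).2] at h1
    have h2 : ((γ0 : ℂ) * exp (u * z)) ^ 2 * (q l * exp (2 * (u * a))) = tipc * gz w ^ 2 := h1
    have h3 : tipc * gz w ^ 2 = tipc * exp (u * (a + z)) ^ 2 := by
      rw [← h2, ← ht, mul_pow, ← Complex.exp_nat_mul, ← Complex.exp_nat_mul]
      have e1 : ((2 : ℕ) : ℂ) * (u * (a + z)) = (2 : ℕ) * (u * z) + 2 * (u * a) := by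
        push_cast
        ring
      rw [e1, Complex.exp_add]
      ring
    have h4 := mul_left_cancel₀ TipL2_tipc_ne h3
    refine tg_sign (tg_gap hc hw) ((hη' _ ?_).2.trans (by linarith)) h4
    refine (norm_add_le _ _).trans_lt (by linarith)
  have hgz1 : gz z1 = exp (u * a) := by
    have h1 := hval 0 z1 hz1 (by rw [mul_zero, Complex.exp_zero, mul_one]; exact hγ0mem)
      (by rw [norm_zero]; linarith) (by rw [mul_zero, Complex.exp_zero, mul_one]; exact hlz)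
    rwa [add_zero] at h1
  obtain ⟨y0, hy0⟩ : ∃ y0 : ℂ, y0 = z1 / (2 * I) := ⟨_, rfl⟩
  rw [← hy0] at hs0 hG0 hY
  rw [hgz1] at hG0
  have hW : G y0 * exp (-(u * a)) = W0 := by
    rw [hG0, mul_assoc, ← Complex.exp_add, add_neg_cancel, Complex.exp_zero, mul_one]
  have h2I : (2 * I : ℂ) ≠ 0 := mul_ne_zero two_ne_zero I_ne_zero
  have h2y : 2 * I * y0 = z1 := by
    rw [hy0, mul_div_cancel₀ _ h2I]
  have hF0 : Fwd y0 0 := by
    have h1 := TipL2_fwd hu W0_sq hG0 ha (by linarith) hr2 (mem_ball_self hna)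
      (mem_ball_self hna)
    rwa [sub_self, mul_zero] at h1
  have hzl : Tendsto (fun z : ℂ => u * z) (𝓝 0) (𝓝 0) := by
    have h4 : Continuous fun z : ℂ => u * z := by fun_prop
    have h5 := h4.tendsto 0
    rwa [mul_zero] at h5
  have hFl : Tendsto (fun z => Fl y0 (u * z)) (𝓝 0) (𝓝 y0) := by
    have h3 := (hasDerivAt_Fl hs0 hF0).continuousAt
    rw [ContinuousAt, Fl_zero hs0] at h3
    exact h3.comp hzl
  have hγl : ∀ᶠ z in 𝓝 (0 : ℂ), (γ0 : ℂ) * exp (u * z) ∈ ball (γ0 : ℂ) ρ0 := by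
    have h4 : Continuous fun z : ℂ => (γ0 : ℂ) * exp (u * z) := by fun_prop
    have h5 := h4.tendsto 0
    rw [mul_zero, Complex.exp_zero, mul_one] at h5
    exact h5.eventually (isOpen_ball.mem_nhds hγ0mem)
  have hzs : ∀ᶠ z in 𝓝 (0 : ℂ), ‖z‖ < ‖a‖ / 8 := by
    have h1 : 0 < ‖a‖ / 8 := by linarith
    filter_upwards [ball_mem_nhds (0 : ℂ) h1] with z hz
    exact mem_ball_zero_iff.1 hz
  have hD1 : ∀ᶠ z in 𝓝 (0 : ℂ), 2 * I * Fl y0 (u * z) ∈ DT c := by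
    have h1 : Tendsto (fun z => 2 * I * Fl y0 (u * z)) (𝓝 0) (𝓝 (2 * I * y0)) :=
      hFl.const_mul _
    rw [h2y] at h1
    exact h1.eventually ((isOpen_DT c).mem_nhds hz1)
  have hZt : Tendsto Zc (𝓝 0) (𝓝 z1) := by
    rw [← hZ0]
    exact hZc
  have hZD : ∀ᶠ z in 𝓝 (0 : ℂ), Zc z ∈ DT c := hZt.eventually ((isOpen_DT c).mem_nhds hz1)
  have hZy : Tendsto (fun z => Zc z / (2 * I)) (𝓝 0) (𝓝 y0) := by
    rw [hy0]
    exact hZt.div_const _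
  have heq : ∀ᶠ z in 𝓝 (0 : ℂ), Fl y0 (u * z) = Zc z / (2 * I) := by
    refine eventually_eq_of_G_eq hs0 hFl hZy ?_
    filter_upwards [hγl, hzs, hZD, hZl] with z h1 h2 h3 h4
    have h5 := hval z (Zc z) h3 h1 h2 h4
    rw [(G_gz (DT_exp h3).1).2, h5]
    have h6 : Fwd y0 (u * (a + z - a)) := by
      refine TipL2_fwd hu W0_sq hG0 ha (by linarith) hr2 (mem_ball_self hna) ?_
      rw [mem_ball_iff_norm, add_sub_cancel_left]
      linarith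
    rw [add_sub_cancel_left] at h6
    rw [G_Fl hs0 h6, hG0, mul_assoc, ← Complex.exp_add]
    congr 2
    ring
  filter_upwards [hγl, hzs, hD1, heq] with z h1 h2 h3 h4
  rw [tipE_sq hY, hW, ← tg_main ht hc0 hc hm huniq hu hlam hr1a hη' ha har hs0 hG0 h2 h1 h3, h4,
    mul_div_cancel₀ _ h2I]

end Pool.Agent.MP_ae5b4e_an_T
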