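import Pool.Agent.Lib.MP_ae5b4e_an_T.T4Gz

/-!
# POR (iii), N2, T4: the model of a tip
-/

noncomputable section

namespace Pool.Agent.MP_ae5b4e_an_T

open Complex Set Filter Topology Metric MeasureTheory
open Pool.Agent.MP_ae5b4e_an_WB
open Pool.Agent.MP_ae5b4e_an_WD
open Pool.Agent.MP_ae5b4e_an_M (S1 C1f Gf)

/-- analytic local inverse in one variable -/
private lemma TipM_inv {f : ℂ → ℂ} {x : ℂ} (hf : AnalyticAt ℂ f x) (hd : deriv f x ≠ 0) :
    ∃ g : ℂ → ℂ, AnalyticAt ℂ g (f x) ∧ g (f x) = x ∧ (∀ᶠ z in 𝓝 x, g (f z) = z) ∧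
      (∀ᶠ w in 𝓝 (f x), f (g w) = w) := by
  have hs : HasStrictDerivAt f (deriv f x) x := hf.hasStrictDerivAt
  have hF := hs.hasStrictFDerivAt_equiv hd
  exact ⟨hs.localInverse f _ x hd, hf.analyticAt_localInverse hd, hF.localInverse_apply_image,
    hF.eventually_left_inverse, hF.eventually_right_inverse⟩

private lemma TipM_two_I : (2 * I : ℂ) ≠ 0 := mul_ne_zero two_ne_zero I_ne_zero

private lemma TipM_x {q : ℂ → ℂ} {z γ l : ℂ} (hz : exp z ≠ 1) (hγ : γ ≠ 0)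
    (hg : γ ^ 2 * q l = tipc * gz z ^ 2) : q l * alT (z, γ) ^ 2 = -z ^ 2 / 4 := by
  have hgz := gz_ne hz
  have hW := W0_ne
  have hI := I_ne_zero
  have hq : q l = W0 ^ 2 * gz z ^ 2 / γ ^ 2 := by
    rw [W0_sq, eq_div_iff (pow_ne_zero 2 hγ), mul_comm]
    exact hg
  rw [hq]
  unfold alT
  simp only
  have h1 : (2 * I : ℂ) ^ 2 = -4 := by
    rw [mul_pow, I_sq]
    norm_num
  have h2 : (2 * I * (W0 * gz z)) ^ 2 = -4 * (W0 * gz z) ^ 2 := by
    rw [mul_pow, h1]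
  rw [div_pow, h2]
  field_simp

/-- the states in terms of `y`. Proof. `q l ≠ 0` (`W0_ne`, `hg`). With `y = z/(2i)`, `w = W0 gz z
= G y`, `r = w / γ`: `r ^ 2 = q l`, `α = y / r`, so `q l * α ^ 2 = y ^ 2`. `S1_sq`, `C1f_sq`
(`M/FnA.lean`): `S1 (y^2) = sin y / y ≠ 0`, `C1f (y^2) = cos y`, and `Gf q l α = α (sin y / y) exp
(1 - cos y / (sin y / y)) = (α / y) G y = G y / r = γ`. -/
theorem tip_state {q : ℂ → ℂ} {z γ l : ℂ} (hz : exp z ≠ 1) (hz0 : z ≠ 0) (hγ : γ ≠ 0)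
    (hg : γ ^ 2 * q l = tipc * gz z ^ 2) :
    q l * alT (z, γ) ^ 2 = -z ^ 2 / 4 ∧ S1 (q l * alT (z, γ) ^ 2) ≠ 0 ∧
      Gf q l (alT (z, γ)) = γ := by
  have hx := TipM_x hz hγ hg
  have hgz := gz_ne hz
  have hW := W0_ne
  have hI := TipM_two_I
  obtain ⟨hsin, hG⟩ := G_gz hz
  have hy : (z / (2 * I)) ^ 2 = -z ^ 2 / 4 := by
    have h1 : (2 * I : ℂ) ^ 2 = -4 := by
      rw [mul_pow, I_sq]
      norm_num
    rw [div_pow, h1, div_neg, neg_div]
  have hy0 : z / (2 * I) ≠ 0 := div_ne_zero hz0 hI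
  have hS := Pool.Agent.MP_ae5b4e_an_M.S1_sq (z / (2 * I))
  have hC := Pool.Agent.MP_ae5b4e_an_M.C1f_sq (z / (2 * I))
  rw [hy] at hS hC
  have hS0 : S1 (-z ^ 2 / 4) ≠ 0 := by
    intro h
    rw [h, mul_zero] at hS
    exact hsin hS.symm
  refine ⟨hx, by rw [hx]; exact hS0, ?_⟩
  unfold Pool.Agent.MP_ae5b4e_an_M.Gf
  rw [hx, hC]
  have hS1 : S1 (-z ^ 2 / 4) = sin (z / (2 * I)) / (z / (2 * I)) := by
    rw [eq_div_iff hy0, mul_comm]
    exact hS
  have he : 1 - cos (z / (2 * I)) / S1 (-z ^ 2 / 4) =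
      1 - z / (2 * I) * (cos (z / (2 * I)) / sin (z / (2 * I))) := by
    rw [hS1]
    field_simp
  rw [he, hS1]
  have hG' : sin (z / (2 * I)) * exp (1 - z / (2 * I) *
      (cos (z / (2 * I)) / sin (z / (2 * I)))) = W0 * gz z := hG
  calc alT (z, γ) * (sin (z / (2 * I)) / (z / (2 * I))) *
        exp (1 - z / (2 * I) * (cos (z / (2 * I)) / sin (z / (2 * I))))
      = alT (z, γ) / (z / (2 * I)) * (sin (z / (2 * I)) * exp (1 - z / (2 * I) *
        (cos (z / (2 * I)) / sin (z / (2 * I))))) := by ring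
    _ = alT (z, γ) / (z / (2 * I)) * (W0 * gz z) := by rw [hG']
    _ = γ := by
      unfold alT
      field_simp

/-- MODEL OF A TIP.

Proof. (1) `q` has a local inverse `qi` at `l` (`HasStrictDerivAt.localInverse`, or the inverse
function theorem of Mathlib; `q` analytic, `deriv q l ≠ 0`): `qi` analytic at `q l = tipc/γ0^2`,
`qi (q l) = l`, `q (qi v) = v` for `v` near `q l`, `qi (q l') = l'` for `l'` near `l`. Take `r1,
ε1 > 0`: on `ball (q l) r1` the function `qi` is analytic, with values in `Hm ∩ ball l ε`, `q (qi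
v) = v`, `deriv q (qi v) ≠ 0`; and `qi (q l') = l'` for `‖l' - l‖ < ε1`. (2) `v (z, γ) = tipc * gz
z ^ 2 / γ ^ 2`, `lb = qi ∘ v`, `K (z, γ) = 4 I W0^3 gz z ^ 3 / ((1 - exp z)^2 γ^2 deriv q (lb (z,
γ)))`, `k0 = 4 I W0^3/(γ0^2 deriv q l) ≠ 0`. (3) `v`, and `K` as a function of `(gz z, exp z, γ)`,
are continuous functions of `(g, e, γ)` near `(1, 0, γ0)` (`K = κ (g, e, γ)`, `κ` continuous at
`(1, 0, γ0)` with `κ (1, 0, γ0) = k0`), so there is `δ > 0` such that `‖g - 1‖ < δ`, `‖e‖ < δ`,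
`‖γ - γ0‖ < δ` imply `v ∈ ball (q l) r1` and `‖K - k0‖ ≤ ‖k0‖/100`. Let `c = min (1/20) (δ/4)`,
`ρ0 = min (δ/2) (γ0/2)`: on `DT c` we have `‖gz z - 1‖ ≤ 2 c < δ` (`gz_gap`), `‖exp z‖ < c`. (4)
fields of `Mod`: `op`, `shift`: `isOpen_DT`, `DT_shift`; analyticity by composition; `rel`: with
`l = lb (z, γ)`: `deriv q l * ∂_z lb = ∂_z v = 2 tipc gz^2 (z E/(1-E)^2)/γ^2` (`gz_hasDerivAt`),
and `al (e^z K)/γ = [z/(2 I W0 gz)] * E * 4 I W0^3 gz^3/((1-E)^2 γ^2 q') = 2 z W0^2 gz^2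
E/((1-E)^2 γ^2 q')` with `W0^2 = tipc`: the same. `s1`, `gf`: `tip_state`. `no`: by `tip_state`
the function is `- z^2/4`, its norm is `≥ z.re^2/4 → ∞`, so it has no finite limit along a `NeBot`
filter. `β = 1` : `(1 : ℝ)` is cast to `ℂ`. -/
theorem tip_model {q : ℂ → ℂ} (hq : DifferentiableOn ℂ q Hm) {γ0 : ℝ} (hγ : 0 < γ0) {l : ℂ}
    (hl : l.im < 0) (ht : (γ0 : ℂ) ^ 2 * q l = tipc) (hd : deriv q l ≠ 0) {ε : ℝ} (hε : 0 < ε) :
    ∃ (c ρ0 : ℝ) (K lb : ℂ × ℂ → ℂ) (k0 : ℂ), 0 < c ∧ c ≤ 1 / 20 ∧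
      Mod q (DT c) 1 k0 γ0 ρ0 K lb alT ∧
      (∀ p ∈ DT c ×ˢ ball (γ0 : ℂ) ρ0, ‖lb p - l‖ < ε ∧ p.2 ^ 2 * q (lb p) = tipc * gz p.1 ^ 2) ∧
      ∃ ε1 : ℝ, 0 < ε1 ∧ ∀ p ∈ DT c ×ˢ ball (γ0 : ℂ) ρ0, ∀ l' : ℂ, ‖l' - l‖ < ε1 →
        p.2 ^ 2 * q l' = tipc * gz p.1 ^ 2 → l' = lb p := by
  have hHm : IsOpen Hm := isOpen_lt Complex.continuous_im continuous_const
  have hqa : AnalyticAt ℂ q l := hq.analyticAt (hHm.mem_nhds hl)
  obtain ⟨qi, hqia, hqil, hleft, hright⟩ := TipM_inv hqa hd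
  have hγc : (γ0 : ℂ) ≠ 0 := by exact_mod_cast hγ.ne'
  have hW := W0_ne
  have hv0 : tipc * 1 ^ 2 / (γ0 : ℂ) ^ 2 = q l := by
    rw [one_pow, mul_one, ← ht, mul_comm, mul_div_assoc, div_self (pow_ne_zero 2 hγc), mul_one]
  -- the neighbourhood of `q l`
  have hqic : ContinuousAt qi (q l) := hqia.continuousAt
  have hdc : ContinuousAt (fun v => deriv q (qi v)) (q l) := by
    have h1 : ContinuousAt (deriv q) (qi (q l)) := by
      rw [hqil]
      exact hqa.deriv.continuousAt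
    exact ContinuousAt.comp (f := qi) h1 hqic
  have hev : ∀ᶠ v in 𝓝 (q l), AnalyticAt ℂ qi v ∧ (qi v).im < 0 ∧ ‖qi v - l‖ < ε ∧
      q (qi v) = v ∧ deriv q (qi v) ≠ 0 := by
    have e1 : ∀ᶠ v in 𝓝 (q l), qi v ∈ Hm := by
      refine hqic.eventually_mem ?_
      rw [hqil]
      exact hHm.mem_nhds hl
    have e2 : ∀ᶠ v in 𝓝 (q l), qi v ∈ ball l ε := by
      refine hqic.eventually_mem ?_
      rw [hqil]
      exact ball_mem_nhds l hε
    have e3 : ∀ᶠ v in 𝓝 (q l), deriv q (qi v) ≠ 0 := by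
      refine hdc.eventually_ne ?_
      rw [hqil]
      exact hd
    filter_upwards [hqia.eventually_analyticAt, e1, e2, hright, e3] with v a1 a2 a3 a4 a5
    exact ⟨a1, a2, by rw [← dist_eq_norm]; exact a3, a4, a5⟩
  obtain ⟨r1, hr1, hball⟩ := Metric.eventually_nhds_iff_ball.1 hev
  obtain ⟨ε1, hε1, hleft1⟩ := Metric.eventually_nhds_iff_ball.1 hleft
  -- the function of three variables
  set k0 : ℂ := 4 * I * W0 ^ 3 / ((γ0 : ℂ) ^ 2 * deriv q l) with hk0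
  have hk0ne : k0 ≠ 0 := div_ne_zero (mul_ne_zero (mul_ne_zero (by norm_num) I_ne_zero)
    (pow_ne_zero 3 hW)) (mul_ne_zero (pow_ne_zero 2 hγc) hd)
  set vv : ℂ × ℂ × ℂ → ℂ := fun x => tipc * x.1 ^ 2 / x.2.2 ^ 2 with hvv
  set κ : ℂ × ℂ × ℂ → ℂ := fun x => 4 * I * W0 ^ 3 * x.1 ^ 3 /
    ((1 - x.2.1) ^ 2 * x.2.2 ^ 2 * deriv q (qi (vv x))) with hκ
  have hvv0 : vv (1, 0, (γ0 : ℂ)) = q l := by
    rw [hvv]
    exact hv0
  have hvc : ContinuousAt vv (1, 0, (γ0 : ℂ)) := by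
    rw [hvv]
    refine ContinuousAt.div ?_ ?_ (pow_ne_zero 2 hγc)
    · exact (continuous_const.mul (continuous_fst.pow 2)).continuousAt
    · exact ((continuous_snd.comp continuous_snd).pow 2).continuousAt
  have hκ0 : κ (1, 0, (γ0 : ℂ)) = k0 := by
    rw [hκ, hk0]
    simp only [hvv0, hqil]
    ring
  have hκc : ContinuousAt κ (1, 0, (γ0 : ℂ)) := by
    rw [hκ]
    refine ContinuousAt.div ?_ ?_ ?_
    · exact (continuous_const.mul (continuous_fst.pow 3)).continuousAt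
    · refine ContinuousAt.mul ?_ ?_
      · exact (((continuous_const.sub (continuous_fst.comp continuous_snd)).pow 2).mul
          ((continuous_snd.comp continuous_snd).pow 2)).continuousAt
      · have h1 : ContinuousAt (fun v => deriv q (qi v)) (vv (1, 0, (γ0 : ℂ))) := by
          rw [hvv0]
          exact hdc
        exact ContinuousAt.comp (f := vv) h1 hvc
    · simp only [hvv0, hqil, sub_zero, one_pow, one_mul]
      exact mul_ne_zero (pow_ne_zero 2 hγc) hd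
  have hev3 : ∀ᶠ x in 𝓝 ((1 : ℂ), (0 : ℂ), (γ0 : ℂ)),
      vv x ∈ ball (q l) r1 ∧ ‖κ x - k0‖ ≤ ‖k0‖ / 100 := by
    have e1 : ∀ᶠ x in 𝓝 ((1 : ℂ), (0 : ℂ), (γ0 : ℂ)), vv x ∈ ball (q l) r1 := by
      refine hvc.eventually_mem ?_
      rw [hvv0]
      exact ball_mem_nhds _ hr1
    have e2 : ∀ᶠ x in 𝓝 ((1 : ℂ), (0 : ℂ), (γ0 : ℂ)), κ x ∈ ball k0 (‖k0‖ / 100) := by
      refine hκc.eventually_mem ?_
      rw [hκ0]
      exact ball_mem_nhds _ (by have := norm_pos_iff.2 hk0ne; positivity)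
    filter_upwards [e1, e2] with x a1 a2
    exact ⟨a1, by rw [← dist_eq_norm]; exact (mem_ball.1 a2).le⟩
  obtain ⟨δ, hδ, hball3⟩ := Metric.eventually_nhds_iff_ball.1 hev3
  set c : ℝ := min (1 / 20) (δ / 4) with hc
  set ρ0 : ℝ := min (δ / 2) (γ0 / 2) with hρ0
  have hc0 : 0 < c := lt_min (by norm_num) (by positivity)
  have hc1 : c ≤ 1 / 20 := min_le_left _ _
  have hcδ : c ≤ δ / 4 := min_le_right _ _
  have hρpos : 0 < ρ0 := lt_min (by positivity) (by positivity)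
  have hρδ : ρ0 ≤ δ / 2 := min_le_left _ _
  have hργ : ρ0 ≤ γ0 / 2 := min_le_right _ _
  set v : ℂ × ℂ → ℂ := fun p => tipc * gz p.1 ^ 2 / p.2 ^ 2 with hv
  set lb : ℂ × ℂ → ℂ := fun p => qi (v p) with hlb
  set K : ℂ × ℂ → ℂ := fun p => 4 * I * W0 ^ 3 * gz p.1 ^ 3 /
    ((1 - exp p.1) ^ 2 * p.2 ^ 2 * deriv q (lb p)) with hK
  -- facts on the domain
  have hdom : ∀ p ∈ DT c ×ˢ ball (γ0 : ℂ) ρ0, exp p.1 ≠ 1 ∧ p.1 ≠ 0 ∧ p.2 ≠ 0 ∧
      v p ∈ ball (q l) r1 ∧ ‖K p - k0‖ ≤ ‖k0‖ / 100 := by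
    rintro ⟨z, γ⟩ ⟨hz, hγ'⟩
    simp only at hz hγ'
    obtain ⟨hz1, hz2⟩ := DT_exp hz
    have hgap := (gz_gap hz.1.le (hz.2.le.trans hc1)).2
    have hγd : dist γ (γ0 : ℂ) < ρ0 := hγ'
    have hx : (gz z, exp z, γ) ∈ ball ((1 : ℂ), (0 : ℂ), (γ0 : ℂ)) δ := by
      rw [mem_ball, Prod.dist_eq, Prod.dist_eq, max_lt_iff, max_lt_iff]
      refine ⟨?_, ?_, ?_⟩
      · rw [dist_eq_norm]
        have := hz.2
        linarith
      · rw [dist_eq_norm, sub_zero]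
        linarith
      · linarith
    have h3 := hball3 _ hx
    refine ⟨hz1, ?_, ?_, h3.1, h3.2⟩
    · rintro rfl
      exact hz1 Complex.exp_zero
    · rintro rfl
      rw [dist_comm, dist_eq_norm, sub_zero, Complex.norm_real, Real.norm_of_nonneg hγ.le] at hγd
      linarith
  have hq' : ∀ p ∈ DT c ×ˢ ball (γ0 : ℂ) ρ0, p.2 ^ 2 * q (lb p) = tipc * gz p.1 ^ 2 := by
    intro p hp
    obtain ⟨h1, h2, h3, h4, h5⟩ := hdom p hp
    have h6 : q (lb p) = v p := (hball _ h4).2.2.2.1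
    rw [h6, hv]
    simp only
    rw [mul_div_assoc', mul_comm (p.2 ^ 2), mul_div_assoc, div_self (pow_ne_zero 2 h3), mul_one]
  have hgzan : ∀ z : ℂ, exp z ≠ 1 → AnalyticAt ℂ gz z := by
    intro z hz
    have h1 : AnalyticAt ℂ (fun z : ℂ => exp z) z := analyticAt_cexp
    have h2 : AnalyticAt ℂ (fun z : ℂ => 1 - exp z) z := analyticAt_const.sub h1
    exact h2.mul ((analyticAt_id.mul h1).div h2 (sub_ne_zero.2 (Ne.symm hz))).cexp
  have hgzan2 : ∀ p : ℂ × ℂ, exp p.1 ≠ 1 → AnalyticAt ℂ (fun p : ℂ × ℂ => gz p.1) p := by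
    intro p hp
    exact (hgzan p.1 hp).comp analyticAt_fst
  have hvan : ∀ p ∈ DT c ×ˢ ball (γ0 : ℂ) ρ0, AnalyticAt ℂ v p := by
    intro p hp
    obtain ⟨h1, h2, h3, h4, h5⟩ := hdom p hp
    exact (analyticAt_const.mul ((hgzan2 p h1).pow 2)).div (analyticAt_snd.pow 2)
      (pow_ne_zero 2 h3)
  have hlan : ∀ p ∈ DT c ×ˢ ball (γ0 : ℂ) ρ0, AnalyticAt ℂ lb p := by
    intro p hp
    obtain ⟨h1, h2, h3, h4, h5⟩ := hdom p hp
    exact (hball _ h4).1.comp (hvan p hp)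
  have hlow : ∀ p ∈ DT c ×ˢ ball (γ0 : ℂ) ρ0, (lb p).im < 0 := fun p hp =>
    (hball _ (hdom p hp).2.2.2.1).2.1
  refine ⟨c, ρ0, K, lb, k0, hc0, hc1, ?_, ?_, ε1, hε1, ?_⟩
  · refine
      { mdl :=
          { β_pos := one_pos
            k0_ne := hk0ne
            ρ_pos := hρpos
            ρ_lt := by linarith
            op := isOpen_DT c
            shift := fun z hz s hs => DT_shift hz hs
            an := ?_
            near := fun p hp => (hdom p hp).2.2.2.2 }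
        lan := hlan
        aan := ?_
        low := hlow
        rel := ?_
        s1 := fun p hp => (tip_state (hdom p hp).1 (hdom p hp).2.1 (hdom p hp).2.2.1
          (hq' p hp)).2.1
        gf := fun p hp => (tip_state (hdom p hp).1 (hdom p hp).2.1 (hdom p hp).2.2.1
          (hq' p hp)).2.2
        no := ?_ }
    · -- `K` is analytic
      intro p hp
      obtain ⟨h1, h2, h3, h4, h5⟩ := hdom p hp
      have e1 : AnalyticAt ℂ (fun p : ℂ × ℂ => exp p.1) p := analyticAt_fst.cexp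
      have e2 : AnalyticAt ℂ (fun p : ℂ × ℂ => deriv q (lb p)) p := by
        have e3 : AnalyticAt ℂ (deriv q) (lb p) :=
          (hq.analyticAt (hHm.mem_nhds (hlow p hp))).deriv
        exact e3.comp (hlan p hp)
      refine (analyticAt_const.mul ((hgzan2 p h1).pow 3)).div
        ((((analyticAt_const.sub e1).pow 2).mul (analyticAt_snd.pow 2)).mul e2) ?_
      exact mul_ne_zero (mul_ne_zero (pow_ne_zero 2 (sub_ne_zero.2 (Ne.symm h1)))
        (pow_ne_zero 2 h3)) (hball _ h4).2.2.2.2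
    · -- `alT` is analytic
      intro p hp
      obtain ⟨h1, h2, h3, h4, h5⟩ := hdom p hp
      exact (analyticAt_snd.mul analyticAt_fst).div (analyticAt_const.mul
        (analyticAt_const.mul (hgzan2 p h1))) (mul_ne_zero TipM_two_I (mul_ne_zero hW (gz_ne h1)))
    · -- the derivative of the label
      rintro ⟨z, γ⟩ hp
      obtain ⟨h1, h2, h3, h4, h5⟩ := hdom _ hp
      simp only at h1 h2 h3
      obtain ⟨b1, b2, b3, b4, b5⟩ := hball _ h4
      -- the derivative of `qi`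
      have hqi : HasDerivAt qi (deriv q (qi (v (z, γ))))⁻¹ (v (z, γ)) := by
        have e1 : HasDerivAt qi (deriv qi (v (z, γ))) (v (z, γ)) :=
          b1.differentiableAt.hasDerivAt
        have e2 : HasDerivAt q (deriv q (qi (v (z, γ)))) (qi (v (z, γ))) :=
          (hq.analyticAt (hHm.mem_nhds b2)).differentiableAt.hasDerivAt
        have e3 := e2.comp (v (z, γ)) e1
        have e4 : q ∘ qi =ᶠ[𝓝 (v (z, γ))] id := by
          filter_upwards [isOpen_ball.mem_nhds h4] with w hw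
          exact (hball w hw).2.2.2.1
        have e5 := (e3.congr_of_eventuallyEq e4.symm).unique (hasDerivAt_id _)
        have e6 : deriv qi (v (z, γ)) = (deriv q (qi (v (z, γ))))⁻¹ :=
          eq_inv_of_mul_eq_one_right e5
        rw [e6] at e1
        exact e1
      have hvd : HasDerivAt (fun z' => v (z', γ))
          (tipc * (2 * gz z * (gz z * (z * exp z / (1 - exp z) ^ 2))) / γ ^ 2) z := by
        have e1 := (((gz_hasDerivAt h1).pow 2).const_mul tipc).div_const (γ ^ 2)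
        refine e1.congr_deriv ?_
        norm_num
      have hfin := hqi.comp z hvd
      refine hfin.congr_deriv ?_
      have hgz := gz_ne h1
      have h1' : (1 - exp z) ≠ 0 := sub_ne_zero.2 (Ne.symm h1)
      have hI := I_ne_zero
      simp only [hK, hlb, alT, Complex.ofReal_one, one_mul]
      rw [← W0_sq]
      have b5' : deriv q (qi (v (z, γ))) ≠ 0 := b5
      field_simp
      ring
    · -- no limit
      intro γ hγ' F hF hFD hre X hX
      exfalso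
      have hmem : ∀ᶠ z in F, z ∈ DT c := hFD (mem_principal_self _)
      have h1 : Tendsto (fun z : ℂ => ‖q (lb (z, γ)) * alT (z, γ) ^ 2‖) F atTop := by
        have h2 : Tendsto (fun z : ℂ => z.re ^ 2 / 4) F atTop := by
          have h3 : Tendsto (fun z : ℂ => -z.re) F atTop := tendsto_neg_atBot_atTop.comp hre
          have h4 : Tendsto (fun z : ℂ => (-z.re) ^ 2) F atTop :=
            (tendsto_pow_atTop two_ne_zero).comp h3
          refine (h4.atTop_div_const (show (0 : ℝ) < 4 by norm_num)).congr fun z => ?_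
          ring
        refine tendsto_atTop_mono' F ?_ h2
        filter_upwards [hmem] with z hz
        have hp : ((z, γ) : ℂ × ℂ) ∈ DT c ×ˢ ball (γ0 : ℂ) ρ0 := ⟨hz, hγ'⟩
        obtain ⟨a1, a2, a3, a4, a5⟩ := hdom _ hp
        rw [(tip_state a1 a2 a3 (hq' _ hp)).1, norm_div, norm_neg, norm_pow]
        have h5 : ‖(4 : ℂ)‖ = 4 := by norm_num
        rw [h5]
        have h6 : z.re ^ 2 ≤ ‖z‖ ^ 2 := by
          rw [← sq_abs z.re]
          exact pow_le_pow_left₀ (abs_nonneg _) (Complex.abs_re_le_norm z) 2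
        linarith
      exact not_tendsto_nhds_of_tendsto_atTop h1 _ hX.norm
  · intro p hp
    exact ⟨(hball _ (hdom p hp).2.2.2.1).2.2.1, hq' p hp⟩
  · intro p hp l' hl' he
    obtain ⟨h1, h2, h3, h4, h5⟩ := hdom p hp
    have h6 : q l' = v p := by
      rw [hv]
      simp only
      rw [eq_div_iff (pow_ne_zero 2 h3), mul_comm]
      exact he
    have h7 : qi (q l') = l' := hleft1 l' (by rw [mem_ball, dist_eq_norm]; exact hl')
    rw [← h7, h6]

end Pool.Agent.MP_ae5b4e_an_T
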