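import Pool.Agent.Lib.MP_ae5b4e_an_T.T4Mod
import Pool.Agent.Lib.MP_ae5b4e_an_T.T4TipM
import Pool.Agent.Lib.MP_ae5b4e_an_T.T4TipP
import Pool.Agent.Lib.MP_ae5b4e_an_T.T4TipG

/-!
# POR (iii), N2, T4: slit neighbourhood of a tip
-/

noncomputable section

namespace Pool.Agent.MP_ae5b4e_an_T

open Complex Set Filter Topology Metric MeasureTheory
open Pool.Agent.MP_ae5b4e_an_WB
open Pool.Agent.MP_ae5b4e_an_WD
open Pool.Agent.MP_ae5b4e_an_M (S1 C1f Gf)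

/-- the D-side point below `ζ` is in the slit bidisc -/
theorem below_mem {Tb : ℂ → ℂ} {ζ : ℂ} {γ0 R ρ : ℝ} (hρ : 0 < ρ) (hT0 : Tb γ0 = ζ) {s : ℝ}
    (hs : 0 < s) (hsR : s < R) : (ζ - I * s, (γ0 : ℂ)) ∈ Slb Tb ζ γ0 R ρ := by
  refine ⟨⟨?_, mem_ball_self hρ⟩, ?_⟩
  · rw [mem_ball, dist_eq_norm]
    have h1 : ζ - I * s - ζ = -(I * s) := by ring
    change ‖ζ - I * s - ζ‖ < R
    rw [h1, norm_neg, norm_mul, norm_I, one_mul, Complex.norm_real, Real.norm_of_nonneg hs.le]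
    exact hsR
  · rintro ⟨-, h2⟩
    change (Tb γ0).im ≤ (ζ - I * s).im at h2
    rw [hT0] at h2
    simp at h2
    linarith

/-- the inverse germ, in the slit bidisc -/
theorem germ_near {q : ℂ → ℂ} {C : ℝ} {vi : ℂ → ℝ} {L : ℂ × ℂ → ℂ} (h : Lb q C vi L) {D : Set ℂ}
    {β : ℝ} {k0 : ℂ} {γ0 ρ0 : ℝ} {K lb al : ℂ × ℂ → ℂ} (_hm : Mod q D β k0 γ0 ρ0 K lb al)
    {ζ : ℂ} {R ρ : ℝ} {Tb : ℂ → ℂ} {Zf : ℂ × ℂ → ℂ}
    (hTb : AnalyticOnNhd ℂ Tb (ball (γ0 : ℂ) ρ)) (hZ : AnalyticOnNhd ℂ Zf (Slb Tb ζ γ0 R ρ))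
    (hT : ∀ p ∈ Slb Tb ζ γ0 R ρ, Zf p ∈ D ∧ Tm β K (Zf p, p.2) = p.1 - Tb p.2)
    (he : ∀ p ∈ Slb Tb ζ γ0 R ρ, p ∈ Dv vi → lb (Zf p, p.2) = L p) {u τ : ℂ}
    (h1 : (τ, (γ0 : ℂ)) ∈ Slb Tb ζ γ0 R ρ) (h2 : (τ, (γ0 : ℂ)) ∈ Dv vi) {f : ℂ → ℂ}
    (hf : InvGerm (Dv vi) L γ0 u τ f) :
    ContinuousAt (fun z => Zf (f z, γ0 * exp (u * z))) 0 ∧
      (fun z => Zf (f z, γ0 * exp (u * z))) 0 = Zf (τ, γ0) ∧
      (∀ᶠ z in 𝓝 (0 : ℂ), lb (Zf (f z, γ0 * exp (u * z)), γ0 * exp (u * z)) = L (τ, γ0)) ∧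
      ∀ᶠ z in 𝓝 (0 : ℂ), Tm β K (Zf (f z, γ0 * exp (u * z)), γ0 * exp (u * z)) =
        f z - Tb (γ0 * exp (u * z)) := by
  obtain ⟨hfa, hf0, hfz⟩ := hf
  have hg : ContinuousAt (fun z : ℂ => (f z, (γ0 : ℂ) * exp (u * z))) 0 :=
    hfa.continuousAt.prodMk (by fun_prop)
  have hg0 : (f 0, (γ0 : ℂ) * exp (u * 0)) = (τ, (γ0 : ℂ)) := by
    rw [hf0, mul_zero, exp_zero, mul_one]
  have hmem : ∀ᶠ z in 𝓝 (0 : ℂ), (f z, (γ0 : ℂ) * exp (u * z)) ∈ Slb Tb ζ γ0 R ρ := by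
    have h3 : Slb Tb ζ γ0 R ρ ∈ 𝓝 (f 0, (γ0 : ℂ) * exp (u * 0)) := by
      rw [hg0]
      exact (isOpen_Slb hTb).mem_nhds h1
    exact hg.eventually h3
  refine ⟨?_, ?_, ?_, ?_⟩
  · have h3 : ContinuousAt Zf (f 0, (γ0 : ℂ) * exp (u * 0)) := by
      rw [hg0]
      exact (hZ _ h1).continuousAt
    exact ContinuousAt.comp (g := Zf) (f := fun z : ℂ => (f z, (γ0 : ℂ) * exp (u * z))) h3 hg
  · change Zf (f 0, (γ0 : ℂ) * exp (u * 0)) = _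
    rw [hg0]
  · filter_upwards [hmem, hfz] with z h3 h4
    exact (he _ h3 h4.1).trans h4.2
  · filter_upwards [hmem] with z h3
    exact (hT _ h3).2

/-- T4a. slit neighbourhood of a tip. -/
theorem slit_tip {q : ℂ → ℂ} {C : ℝ} {vi : ℂ → ℝ} {L : ℂ × ℂ → ℂ} (h : Lb q C vi L) {γ : ℝ}
    (hγ : 0 < γ) {x : ℝ} {l : ℂ} (hl : l.im < 0) (hT : TAt q γ (vi γ) (fun τ => L (τ, γ)) x l)
    (hreg : deriv q l ≠ 0) {ε : ℝ} (hε : 0 < ε) :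
    ∃ (Tb : ℂ → ℂ) (Λ : ℂ × ℂ → ℂ) (R ρ : ℝ), R < ε ∧
      SlN vi L γ ((x : ℂ) - vi γ * I) Tb R ρ Λ ∧
      (∀ p ∈ Slb Tb ((x : ℂ) - vi γ * I) γ R ρ, ‖Λ p - l‖ < ε) ∧
      TipAt q (Dv vi) L γ ((x : ℂ) - vi γ * I) l ∧
      ∀ u : ℂ, 0 < u.re → ∀ (lam : ℂ → ℂ) (r : ℝ), LocChart u q l lam r →
        ∃ s1 : ℝ, 0 < s1 ∧ ∀ s ∈ Ioc (0 : ℝ) s1, ∃ δ : ℝ, 0 < δ ∧
          ∀ τ ∈ ball ((x : ℂ) - vi γ * I - I * s) δ, (τ, (γ : ℂ)) ∈ Dv vi ∧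
            ∃ a : ℂ, TipGerm q (Dv vi) L γ u lam τ a (fun z => Tb (γ * exp (u * z))) := by
  have hq := h.ds.qd
  have hγ' : (γ : ℂ) ≠ 0 := by exact_mod_cast hγ.ne'
  set ζ : ℂ := (x : ℂ) - vi γ * I with hζ
  have hζim : ζ.im = -vi γ := by simp [hζ]
  have ht : (γ : ℂ) ^ 2 * q l = tipc := hT.2.1
  obtain ⟨c, ρ0, K, lb, k0, hc0, hc, hm, hlb, ε1, hε1, huniq⟩ := tip_model hq hγ hl ht hreg hε
  obtain ⟨s3, z, hs3, hzc, hz, hzlim, hzre⟩ := tip_path h hγ hl hT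
  -- D-side points below `ζ`
  have hD : ∀ s : ℝ, 0 < s → (ζ - I * s, (γ : ℂ)) ∈ Dv vi := by
    intro s hs
    refine ⟨hγ', ?_⟩
    change (ζ - I * s).im < -vi γ
    simp [hζ, hs]
  -- the label tends to `l`
  have hLl : Tendsto (fun s : ℝ => L (ζ - I * s, γ)) (𝓝[>] 0) (𝓝 l) := by
    have h1 : Tendsto (fun s : ℝ => ζ - I * s) (𝓝[>] 0) (𝓝[Hp (vi γ)] ζ) := by
      refine tendsto_nhdsWithin_iff.2 ⟨?_, ?_⟩
      · have h2 : Tendsto (fun s : ℝ => ζ - I * s) (𝓝 0) (𝓝 (ζ - I * (0 : ℝ))) :=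
          Continuous.tendsto (by fun_prop) 0
        rw [ofReal_zero, mul_zero, sub_zero] at h2
        exact h2.mono_left nhdsWithin_le_nhds
      · filter_upwards [self_mem_nhdsWithin] with s hs
        exact (hD s hs).2
    exact hT.1.comp h1
  -- restriction of the path
  have hev : ∀ᶠ s in 𝓝[>] (0 : ℝ), ‖z s‖ * Real.exp (z s).re < c / 100 ∧ (z s).re < -1 ∧
      ‖L (ζ - I * s, γ) - l‖ < ε1 := by
    refine (hzlim.eventually (gt_mem_nhds (by positivity))).and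
      ((hzre.eventually (eventually_lt_atBot (-1))).and ?_)
    filter_upwards [hLl.eventually (ball_mem_nhds l hε1)] with s hs
    rwa [← dist_eq_norm]
  obtain ⟨s2, hs2, hs23, hev2⟩ : ∃ s2 : ℝ, 0 < s2 ∧ s2 ≤ s3 ∧ ∀ s ∈ Ioc (0 : ℝ) s2,
      ‖z s‖ * Real.exp (z s).re < c / 100 ∧ (z s).re < -1 ∧ ‖L (ζ - I * s, γ) - l‖ < ε1 := by
    obtain ⟨b, hb, hb2⟩ := mem_nhdsGT_iff_exists_Ioc_subset.1 hev
    refine ⟨min b s3, lt_min hb hs3, min_le_right _ _, fun s hs => hb2 ⟨hs.1, hs.2.trans (min_le_left _ _)⟩⟩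
  have hzD : ∀ s ∈ Ioc (0 : ℝ) s2, z s ∈ DT (c / 100) := fun s hs =>
    ⟨(hev2 s hs).2.1, (hev2 s hs).1⟩
  have hzD' : ∀ s ∈ Ioc (0 : ℝ) s2, z s ∈ DT c := fun s hs =>
    ⟨(hev2 s hs).2.1, (hev2 s hs).1.trans_le (by linarith)⟩
  have hρ0 := hm.mdl.ρ_pos
  have hp : Pst (Dv vi) L (DT c) 1 γ lb alT ζ s2 z := by
    refine ⟨hs2, hzc.mono fun s hs => ⟨hs.1, hs.2.trans hs23⟩, ?_, hzre, ?_⟩
    · intro s hs
      obtain ⟨k1, k2, k3⟩ := hz s ⟨hs.1, hs.2.trans hs23⟩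
      refine ⟨hzD' s hs, hD s hs.1, ?_, k3.symm⟩
      exact (huniq (z s, (γ : ℂ)) ⟨hzD' s hs, mem_ball_self hρ0⟩ _ (hev2 s hs).2.2 k2).symm
    · filter_upwards [Ioc_mem_nhdsGT hs2] with s hs w hw1 hw2
      rw [div_one] at hw1 hw2
      exact DT_room hc0 hc (hzD s hs) hw1 hw2
  obtain ⟨Tb, Zf, R, ρ, hRε, hρρ0, hSl, hZa, hZT, hLa⟩ := slit_mod h hγ hζim hm hp hε
  have hR0 : 0 < R := hSl.pos.trans_le hSl.le
  refine ⟨Tb, fun p => lb (Zf p, p.2), R, ρ, hRε, hSl, ?_, ?_, ?_⟩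
  · intro p hp'
    exact (hlb (Zf p, p.2) ⟨(hZT p hp').1, ball_subset_ball hρρ0 hp'.1.2⟩).1
  · -- `TipAt`
    refine ⟨⟨s2, hs2, fun s hs => ⟨hD s hs.1, ?_⟩⟩, hLl, hl, ht, hreg⟩
    obtain ⟨k1, k2, k3⟩ := hz s ⟨hs.1, hs.2.trans hs23⟩
    rw [k2]
    intro h3
    have h4 : gz (z s) ^ 2 = 1 := by
      have h5 : tipc * gz (z s) ^ 2 = tipc * 1 := by rw [h3, mul_one]
      exact mul_left_cancel₀ TipL2_tipc_ne h5
    exact gz_sq_ne (z := z s) ⟨(hzD' s hs).1, (hzD' s hs).2.trans_le hc⟩ h4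
  · -- the germs
    intro u hu lam r hlam
    obtain ⟨r1, hr1, hr1r, hgerm⟩ := tip_germ hq hγ hl ht hc0 hc hm (fun p hp' => (hlb p hp').2) hε1
      huniq hu hlam
    have hqP : q l ≠ 0 := by
      intro h0
      rw [h0, mul_zero] at ht
      exact TipL2_tipc_ne ht.symm
    -- labels near `l` are in the chart
    have hmap : lam '' ball 0 r1 ∈ 𝓝 l := by
      have h1 := hlam.map_nhds hu hq hqP (mem_ball_self hlam.1)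
      rw [hlam.2.2.2.2.1] at h1
      rw [← h1]
      exact image_mem_map (ball_mem_nhds 0 hr1)
    have hev3 : ∀ᶠ s : ℝ in 𝓝[>] (0 : ℝ), L (ζ - I * s, γ) ∈ lam '' ball 0 r1 ∧ s < R :=
      (hLl.eventually hmap).and ((eventually_lt_nhds hR0).filter_mono nhdsWithin_le_nhds)
    obtain ⟨b, hb, hb2⟩ := mem_nhdsGT_iff_exists_Ioc_subset.1 hev3
    refine ⟨min b s2, lt_min hb hs2, fun s hs => ?_⟩
    have hsb : s ∈ Ioc (0 : ℝ) b := ⟨hs.1, hs.2.trans (min_le_left _ _)⟩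
    obtain ⟨⟨a0, ha0r, ha0⟩, hsR⟩ := hb2 hsb
    have hs2' : s ∈ Ioc (0 : ℝ) s2 := ⟨hs.1, hs.2.trans (min_le_right _ _)⟩
    have ha0r' : ‖a0‖ < r1 := mem_ball_zero_iff.1 ha0r
    have hS := below_mem hSl.pos hSl.T0 hs.1 hsR
    have hDs := hD s hs.1
    obtain ⟨hL1, hal1⟩ := hLa _ hS hDs
    have hZD := (hZT _ hS).1
    -- `a0 ≠ 0`
    have ha00 : a0 ≠ 0 := by
      intro h0
      rw [h0, hlam.2.2.2.2.1] at ha0
      obtain ⟨k1, k2, k3⟩ := hz s ⟨hs.1, hs2'.2.trans hs23⟩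
      rw [← ha0, ht] at k2
      have h4 : gz (z s) ^ 2 = 1 := by
        have h5 : tipc * gz (z s) ^ 2 = tipc * 1 := by rw [← k2, mul_one]
        exact mul_left_cancel₀ TipL2_tipc_ne h5
      exact gz_sq_ne (z := z s) ⟨(hzD' s hs2').1, (hzD' s hs2').2.trans_le hc⟩ h4
    have h8 : 8 * ‖a0‖ < r := by linarith
    obtain ⟨δ, hδ, hloc⟩ := tip_local h.ds hu hγ' hlam ht hDs ha0 ha00 h8
    refine ⟨δ, hδ, fun τ hτ => ?_⟩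
    obtain ⟨hU, a, ha, hla, hsame⟩ := hloc τ hτ
    refine ⟨hU, a, hla, ?_, ?_⟩
    · intro h0
      rw [h0, zero_sub, norm_neg] at ha
      have := norm_pos_iff.2 ha00
      linarith
    · intro Y f hY hf
      -- the base point
      obtain ⟨f0, hf0⟩ := h.ds.exists_invGerm (u := u) hDs
      set z1 : ℂ := Zf (ζ - I * s, γ) with hz1
      have hYs : (z1 / (2 * I)) ^ 2 = y2 q L (ζ - I * s, γ) := by
        have h3 : (γ : ℂ) ^ 2 * q (lb (z1, γ)) = tipc * gz z1 ^ 2 :=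
          (hlb (z1, (γ : ℂ)) ⟨hZD, mem_ball_self hρ0⟩).2
        have h4 := tip_state (q := q) (DT_exp hZD).1 (fun h0 => (DT_exp hZD).1 (by rw [h0, exp_zero]))
          hγ' h3
        have h5 : y2 q L (ζ - I * s, γ) = q (lb (z1, γ)) * alT (z1, γ) ^ 2 := by
          unfold y2
          rw [hL1, hal1]
        rw [h5, h4.1, div_pow, mul_pow, I_sq]
        ring
      obtain ⟨g1, g2, g3, g4⟩ := germ_near h hm hSl.Tan hZa hZT (fun p h6 h7 => (hLa p h6 h7).1)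
        hS hDs hf0
      have hg3 : ∀ᶠ z in 𝓝 (0 : ℂ), lb (Zf (f0 z, γ * exp (u * z)), γ * exp (u * z)) = lam a0 := by
        filter_upwards [g3] with z hz'
        rw [hz', ha0]
      have hkey := hgerm a0 ha00 ha0r' z1 hZD (by rw [hL1, ha0]) _ g1 g2 hg3 (z1 / (2 * I)) rfl
      filter_upwards [hkey, g4, hsame (z1 / (2 * I)) Y f0 f hYs hY hf0 hf] with z j1 j2 j3
      rw [j3, ← j1, j2]
      ring

end Pool.Agent.MP_ae5b4e_an_T
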