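import Pool.Agent.Lib.MP_ae5b4e_an_T.Defs
import Pool.Agent.Lib.MP_ae5b4e_an_M.WA

/-!
# POR (iii), N2, section T, block T5a: the family `W` from the family translated down by one
-/

noncomputable section

namespace Pool.Agent.MP_ae5b4e_an_T

open Complex Set Filter Topology Metric
open Pool.Agent.MP_ae5b4e_an_WB
open Pool.Agent.MP_ae5b4e_an_WD

theorem add_I_strip {z : ℂ} {a b : ℝ} (hz : z ∈ PorTR.Strip a b) :
    z + I ∈ PorTR.Strip (a - 1) (b - 1) := by
  obtain ⟨h1, h2⟩ := hz
  constructor <;> simp only [add_im, I_im] <;> linarith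

/-- T5a. from the translated family -/
theorem fm_of_fam {W : Set (ℂ → ℂ)} {C kap : ℝ} (hd : ∀ q ∈ W, DifferentiableOn ℂ q Hm)
    (hF : PorTR.Fam (Pool.Agent.MP_ae5b4e_an_M.Wdn W 1) C 1 4 kap) :
    ∃ C' : ℝ, Fm W C' kap := by
  have hmem : ∀ q ∈ W, (fun z : ℂ => q (z - (1 : ℝ) * I)) ∈ Pool.Agent.MP_ae5b4e_an_M.Wdn W 1 :=
    fun q hq => ⟨q, hq, rfl⟩
  have hval : ∀ (q : ℂ → ℂ) (z : ℂ), q (z + I - (1 : ℝ) * I) = q z := by
    intro q z
    congr 1
    push_cast
    ring
  refine ⟨4 * C, ⟨by have := hF.C_pos; linarith, hF.kap_pos, hd, ?_, ?_, ?_⟩⟩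
  · intro q hq z hz
    have hz' : z + I ∈ PorTR.Hm := by
      show (z + I).im < 0
      simp only [add_im, I_im]
      linarith
    have h1 := hF.bound _ (hmem q hq) (z + I) hz'
    simp only [hval] at h1
    refine h1.trans ?_
    have h2 : (z + I).im = z.im + 1 := by simp
    rw [h2, div_le_div_iff₀ (by nlinarith) (by nlinarith)]
    have := hF.C_pos
    nlinarith [mul_nonneg this.le (show (0 : ℝ) ≤ (-z.im - 2) * (-3 * z.im - 2) by nlinarith)]
  · intro q hq a b p hab hp hm hs
    have h1 := hF.small _ (hmem q hq) a b (fun s => p s + I) hab (hp.add continuousOn_const)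
      (fun s hs' => by
        have := add_I_strip (hm hs')
        norm_num at this
        exact this)
      (fun s hs' => by
        simp only [hval]
        exact hs s hs')
    simpa only [dist_add_right] using h1
  · intro δ hδ C'
    obtain ⟨c, hc, h⟩ := hF.osc δ hδ (C' - 1)
    refine ⟨c, hc, fun q hq a b p hab hp hm hs => ?_⟩
    obtain ⟨s, hs1, hs2⟩ := h _ (hmem q hq) a b (fun s => p s + I) hab (hp.add continuousOn_const)
      (fun s hs' => by
        have := add_I_strip (hm hs')
        norm_num at this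
        exact this)
      (by simpa only [dist_add_right] using hs)
    refine ⟨s, hs1, ?_⟩
    simpa only [hval] using hs2

end Pool.Agent.MP_ae5b4e_an_T
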