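import Pool.Agent.Lib.MP_ae5b4e_an_T.T3Path
import Pool.Agent.Lib.MP_ae5b4e_an_A1.Slt

/-!
# POR (iii), N2, section T: the data of a tip for the block ATK

At a point of type `TAt` the cosine `C1f (y²)` of `y` tends to infinity along the vertical line.
-/

noncomputable section

namespace Pool.Agent.MP_ae5b4e_an_T

open Complex Set Filter Topology Metric
open Pool.Agent.MP_ae5b4e_an_WB
open Pool.Agent.MP_ae5b4e_an_WD
open Pool.Agent.MP_ae5b4e_an_M (S1 C1f Gf)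

/-- `|sinh (Im y)| ≤ |cos y|` -/
theorem sinh_le_norm_cos (y : ℂ) : Real.sinh |y.im| ≤ ‖cos y‖ := by
  have h1 : Real.sinh |y.im| ^ 2 ≤ ‖cos y‖ ^ 2 := by
    have e1 : cos y = (Real.cos y.re * Real.cosh y.im : ℝ) -
        (Real.sin y.re * Real.sinh y.im : ℝ) * I := by
      conv_lhs => rw [← Complex.re_add_im y]
      rw [Complex.cos_add_mul_I]
      push_cast
      ring
    have e2 : ‖cos y‖ ^ 2 = (Real.cos y.re * Real.cosh y.im) ^ 2 +
        (Real.sin y.re * Real.sinh y.im) ^ 2 := by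
      rw [e1, ← Complex.normSq_eq_norm_sq, Complex.normSq_apply]
      simp only [sub_re, sub_im, mul_re, mul_im, ofReal_re, ofReal_im, I_re, I_im]
      ring
    rw [e2]
    have e3 : Real.sinh |y.im| ^ 2 = Real.sinh y.im ^ 2 := by
      rcases abs_cases y.im with h | h <;> rw [h.1]
      rw [Real.sinh_neg, neg_sq]
    rw [e3]
    have e4 := Real.cosh_sq y.im
    have e5 := Real.sin_sq_add_cos_sq y.re
    nlinarith [sq_nonneg (Real.cos y.re), sq_nonneg (Real.sin y.re * Real.sinh y.im)]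
  exact abs_le_of_sq_le_sq' h1 (norm_nonneg _) |>.2

/-- the states of a vertical path at a tip -/
theorem tip_cos {q : ℂ → ℂ} (hq : DifferentiableOn ℂ q Hm) {γ : ℝ} (hγ : 0 < γ) {l : ℂ}
    (hl : l.im < 0) {F a : ℝ → ℂ} {s0 : ℝ} (hs0 : 0 < s0) (hFc : ContinuousOn F (Ioc 0 s0))
    (hac : ContinuousOn a (Ioc 0 s0)) (hFl : ∀ s ∈ Ioc (0 : ℝ) s0, (F s).im < 0)
    (hS : ∀ s ∈ Ioc (0 : ℝ) s0, S1 (q (F s) * a s ^ 2) ≠ 0)
    (hG : ∀ s ∈ Ioc (0 : ℝ) s0, Gf q (F s) (a s) = γ) (hF : Tendsto F (𝓝[>] 0) (𝓝 l))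
    (hql : q l ≠ 0) (hinf : Tendsto (fun s => ‖q (F s) * a s ^ 2‖) (𝓝[>] 0) atTop) :
    Tendsto (fun s => ‖C1f (q (F s) * a s ^ 2)‖) (𝓝[>] 0) atTop := by
  have hopen : IsOpen Hm := isOpen_lt continuous_im continuous_const
  have hqc : ContinuousAt q l := (hq.differentiableAt (hopen.mem_nhds hl)).continuousAt
  have hqF : Tendsto (fun s => q (F s)) (𝓝[>] 0) (𝓝 (q l)) := hqc.tendsto.comp hF
  have hquo : Tendsto (fun s => q (F s) / q l) (𝓝[>] 0) (𝓝 1) := by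
    have h := hqF.div_const (q l)
    rwa [div_self hql] at h
  have hsl : ∀ᶠ s in 𝓝[>] (0 : ℝ), q (F s) / q l ∈ slitPlane :=
    hquo.eventually (isOpen_slitPlane.mem_nhds one_mem_slitPlane)
  obtain ⟨s2, hs2, hs2'⟩ := mem_nhdsGT_iff_exists_Ioc_subset.1 hsl
  have hs2p : 0 < s2 := hs2
  obtain ⟨s1, hs1, hs10, hs1sl⟩ : ∃ s1 : ℝ, 0 < s1 ∧ s1 ≤ s0 ∧
      ∀ s ∈ Ioc (0 : ℝ) s1, q (F s) / q l ∈ slitPlane :=
    ⟨min s0 s2, lt_min hs0 hs2p, min_le_left _ _,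
      fun s hs => hs2' ⟨hs.1, hs.2.trans (min_le_right _ _)⟩⟩
  have hsub : Ioc (0 : ℝ) s1 ⊆ Ioc 0 s0 := Ioc_subset_Ioc_right hs10
  obtain ⟨r0, hr0⟩ := IsAlgClosed.exists_pow_nat_eq (q l) (n := 2) (by norm_num)
  have hr00 : r0 ≠ 0 := by
    rintro rfl
    exact hql (by rw [← hr0]; simp)
  set r : ℝ → ℂ := fun s => r0 * exp (log (q (F s) / q l) / 2) with hr
  have hqFne : ∀ s ∈ Ioc (0 : ℝ) s1, q (F s) / q l ≠ 0 := fun s hs =>
    slitPlane_ne_zero (hs1sl s hs)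
  have hr2 : ∀ s ∈ Ioc (0 : ℝ) s1, r s ^ 2 = q (F s) := by
    intro s hs
    simp only [hr]
    rw [mul_pow, hr0, ← Complex.exp_nat_mul]
    rw [show ((2 : ℕ) : ℂ) * (log (q (F s) / q l) / 2) = log (q (F s) / q l) by
      push_cast
      ring]
    rw [exp_log (hqFne s hs), mul_div_cancel₀ _ hql]
  have hrne : ∀ s, r s ≠ 0 := fun s => mul_ne_zero hr00 (exp_ne_zero _)
  have hrc : ContinuousOn r (Ioc 0 s1) := by
    have h1 : ContinuousOn (fun s => q (F s) / q l) (Ioc 0 s1) :=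
      (hq.continuousOn.comp (hFc.mono hsub) (fun s hs => hFl s (hsub hs))).div_const _
    exact continuousOn_const.mul ((h1.clog hs1sl).div_const 2).cexp
  have hrt : Tendsto r (𝓝[>] 0) (𝓝 r0) := by
    have h1 : Tendsto (fun s => log (q (F s) / q l)) (𝓝[>] 0) (𝓝 (log 1)) :=
      hquo.clog one_mem_slitPlane
    rw [log_one] at h1
    have h2 : Tendsto (fun s => exp (log (q (F s) / q l) / 2)) (𝓝[>] 0) (𝓝 (exp (0 / 2))) :=
      (h1.div_const 2).cexp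
    rw [zero_div, exp_zero] at h2
    have h3 := h2.const_mul r0
    rwa [mul_one] at h3
  have hyc : ContinuousOn (fun s => r s * a s) (Ioc 0 s1) := hrc.mul (hac.mono hsub)
  have hγ' : (γ : ℂ) ≠ 0 := by exact_mod_cast hγ.ne'
  have hst : ∀ s ∈ Ioc (0 : ℝ) s1, sin (r s * a s) ≠ 0 ∧ G (r s * a s) = r s * γ := fun s hs =>
    state_G hγ' (hS s (hsub hs)) (hG s (hsub hs)) (hr2 s hs) (hrne s)
  have hGt : Tendsto (fun s => G (r s * a s)) (𝓝[>] 0) (𝓝 (r0 * γ)) := by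
    refine (hrt.mul_const (γ : ℂ)).congr' ?_
    filter_upwards [Ioc_mem_nhdsGT hs1] with s hs
    exact (hst s hs).2.symm
  have hsq : ∀ s ∈ Ioc (0 : ℝ) s1, (r s * a s) ^ 2 = q (F s) * a s ^ 2 := by
    intro s hs
    rw [mul_pow, hr2 s hs]
  rcases av_dich hs1 hyc (fun s hs => (hst s hs).1) hGt (mul_ne_zero hr00 hγ') with
    ⟨y1, -, -, hy1⟩ | him
  · exfalso
    have h1 : Tendsto (fun s => ‖q (F s) * a s ^ 2‖) (𝓝[>] 0) (𝓝 ‖y1 ^ 2‖) := by
      refine (hy1.pow 2).norm.congr' ?_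
      filter_upwards [Ioc_mem_nhdsGT hs1] with s hs
      rw [hsq s hs]
    exact not_tendsto_nhds_of_tendsto_atTop hinf _ h1
  · have h1 : Tendsto (fun s => Real.sinh |(r s * a s).im|) (𝓝[>] 0) atTop := by
      refine tendsto_atTop_mono (fun s => ?_) him
      exact Real.self_le_sinh_iff.2 (abs_nonneg _)
    refine tendsto_atTop_mono' _ ?_ h1
    filter_upwards [Ioc_mem_nhdsGT hs1] with s hs
    have h2 := Pool.Agent.MP_ae5b4e_an_M.C1f_sq (r s * a s)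
    rw [hsq s hs] at h2
    rw [h2]
    exact sinh_le_norm_cos _

/-- **TYPE TIP**: the data of the block ATK (`ATK.TipO`) for the continuation `Λ` -/
theorem tip_data {q : ℂ → ℂ} {C : ℝ} {vi : ℂ → ℝ} {L : ℂ × ℂ → ℂ} (h : Lb q C vi L) {γ : ℝ}
    (hγ : 0 < γ) {x : ℝ} {l : ℂ} (hl : l.im < 0) (hT : TAt q γ (vi γ) (fun τ => L (τ, γ)) x l)
    {Λ : ℂ × ℂ → ℂ} {S : Set (ℂ × ℂ)} (hS : Pool.Agent.MP_ae5b4e_an_A1.Slt (Dv vi) L Λ S)
    (hmem : ∀ᶠ s : ℝ in 𝓝[>] 0, ((x : ℂ) - vi γ * I - I * s, (γ : ℂ)) ∈ S) :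
    q l ≠ 0 ∧
    Tendsto (fun s : ℝ => Λ ((x : ℂ) - vi γ * I - I * s, (γ : ℂ))) (𝓝[>] 0) (𝓝 l) ∧
    Tendsto (fun s : ℝ => ‖C1f (q (Λ ((x : ℂ) - vi γ * I - I * s, (γ : ℂ))) *
      (γ * deriv (fun τ => Λ (τ, (γ : ℂ))) ((x : ℂ) - vi γ * I - I * s)) ^ 2)‖) (𝓝[>] 0) atTop := by
  obtain ⟨hlim, htip, hinf⟩ := hT
  obtain ⟨ζ, hζ⟩ : ∃ ζ : ℂ, ζ = (x : ℂ) - vi γ * I := ⟨_, rfl⟩
  rw [← hζ] at hmem ⊢
  have hql : q l ≠ 0 := by
    intro h0
    rw [h0, mul_zero] at htip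
    have : tipc ≠ 0 := by
      unfold tipc
      rw [neg_ne_zero, ofReal_ne_zero]
      positivity
    exact this htip.symm
  have hp : ∀ s : ℝ, (x : ℂ) - (vi γ + s : ℝ) * I = ζ - I * s := by
    intro s
    rw [hζ]
    push_cast
    ring
  have hpim : ∀ s : ℝ, (ζ - I * s).im = -vi γ - s := by
    intro s
    rw [hζ]
    simp
  have hsl := h.sl hγ
  have hHp : ∀ s : ℝ, 0 < s → ζ - I * s ∈ Hp (vi γ) := by
    intro s hs
    show (ζ - I * s).im < -vi γ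
    rw [hpim]
    linarith
  have hopen : IsOpen (Hp (vi γ)) := isOpen_lt continuous_im continuous_const
  have hpc : Continuous fun s : ℝ => ζ - I * s := by fun_prop
  obtain ⟨F, hFd⟩ : ∃ F : ℝ → ℂ, F = fun s : ℝ => L (ζ - I * s, (γ : ℂ)) := ⟨_, rfl⟩
  obtain ⟨a, had⟩ : ∃ a : ℝ → ℂ, a = fun s : ℝ => γ * deriv (fun τ => L (τ, (γ : ℂ))) (ζ - I * s) :=
    ⟨_, rfl⟩
  have hFc : ContinuousOn F (Ioc 0 1) := by
    rw [hFd]
    exact hsl.fd.continuousOn.comp hpc.continuousOn fun s hs => hHp s hs.1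
  have hac : ContinuousOn a (Ioc 0 1) := by
    rw [had]
    refine continuousOn_const.mul ?_
    exact (hsl.fd.deriv hopen).continuousOn.comp hpc.continuousOn fun s hs => hHp s hs.1
  have hF : Tendsto F (𝓝[>] 0) (𝓝 l) := by
    rw [hFd]
    refine hlim.comp ?_
    refine tendsto_nhdsWithin_iff.2 ⟨?_, ?_⟩
    · have h2 := hpc.tendsto (0 : ℝ)
      simp only [ofReal_zero, mul_zero, sub_zero] at h2
      rw [← hζ]
      exact h2.mono_left nhdsWithin_le_nhds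
    · filter_upwards [self_mem_nhdsWithin] with s hs
      exact hHp s hs
  have hX : ∀ s : ℝ, Xf q γ (fun τ => L (τ, γ)) ((x : ℂ) - (vi γ + s : ℝ) * I) =
      q (F s) * a s ^ 2 := by
    intro s
    rw [hp, hFd, had]
    rfl
  simp only [hX] at hinf
  have hcos := tip_cos h.ds.qd hγ hl one_pos hFc hac
    (fun s hs => by rw [hFd]; exact h.ds.low _ (Lb.mem hγ (hHp s hs.1)))
    (fun s hs => by
      rw [hFd, had]
      exact hsl.s1 _ (hHp s hs.1))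
    (fun s hs => by
      rw [hFd, had]
      exact hsl.gf _ (hHp s hs.1)) hF hql hinf
  have hev : ∀ᶠ s : ℝ in 𝓝[>] 0, Λ (ζ - I * s, (γ : ℂ)) = F s ∧
      γ * deriv (fun τ => Λ (τ, (γ : ℂ))) (ζ - I * s) = a s := by
    filter_upwards [hmem, self_mem_nhdsWithin] with s hs hs0
    have hD := Lb.mem hγ (hHp s hs0)
    refine ⟨by rw [hFd]; exact hS.eq _ hs hD, ?_⟩
    rw [had]
    congr 1
    refine Filter.EventuallyEq.deriv_eq ?_
    have c1 : Continuous fun τ : ℂ => (τ, (γ : ℂ)) := by fun_prop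
    have e1 : ∀ᶠ τ in 𝓝 (ζ - I * s), (τ, (γ : ℂ)) ∈ S :=
      (hS.S_open.preimage c1).mem_nhds hs
    have e2 : ∀ᶠ τ in 𝓝 (ζ - I * s), (τ, (γ : ℂ)) ∈ Dv vi :=
      (h.ds.isOpen.preimage c1).mem_nhds hD
    filter_upwards [e1, e2] with τ t1 t2
    exact hS.eq _ t1 t2
  refine ⟨hql, hF.congr' ?_, hcos.congr' ?_⟩
  · filter_upwards [hev] with s hs
    exact hs.1.symm
  · filter_upwards [hev] with s hs
    rw [hs.1, hs.2]

end Pool.Agent.MP_ae5b4e_an_T
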